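import Pool.Agent.ORG.Defs

/-!
# MP_08a057_al, ORG module F1 : (1.1) reindexing
(paper: /team-store/ORG_paper.md)
-/

set_option autoImplicit false

namespace Pool.Agent.ORG

open MvPolynomial

variable {k : Type} [Field k] {J J' J'' I E E' E'' : Type} [Field E] [Algebra k E] [Field E']
  [Algebra k E'] [Field E''] [Algebra k E'']

/-! ## (1.1) for `SameRel` -/

theorem SameRel.refl (a : J → E) : SameRel k a a := fun _ => Iff.rfl

theorem SameRel.symm {a : J → E} {b : J → E'} (h : SameRel k a b) : SameRel k b a :=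
  fun P => (h P).symm

theorem SameRel.trans {a : J → E} {b : J → E'} {c : J → E''} (h : SameRel k a b)
    (h' : SameRel k b c) : SameRel k a c :=
  fun P => (h P).trans (h' P)

theorem SameRel.incl {a : J → E} {b : J → E'} (h : SameRel k a b) : Incl k a b :=
  fun P => (h P).mp

theorem Incl.sameRel_of {a : J → E} {b : J → E'} (h : Incl k a b) (h' : Incl k b a) :
    SameRel k a b := fun P => ⟨h P, h' P⟩

theorem Incl.comp {a : J → E} {b : J → E'} (h : Incl k a b) (e : J' → J) :
    Incl k (a ∘ e) (b ∘ e) := by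
  intro P hP
  have := h (rename e P) (by rw [aeval_rename]; exact hP)
  rwa [aeval_rename] at this

theorem SameRel.comp {a : J → E} {b : J → E'} (h : SameRel k a b) (e : J' → J) :
    SameRel k (a ∘ e) (b ∘ e) :=
  Incl.sameRel_of (h.incl.comp e) (h.symm.incl.comp e)

theorem Incl.of_surj {a : J → E} {b : J → E'} {e : J' → J} (he : Function.Surjective e)
    (h : Incl k (a ∘ e) (b ∘ e)) : Incl k a b := by
  intro P hP
  obtain ⟨s, hs⟩ := he.hasRightInverse
  have h1 : (a ∘ e) ∘ s = a := by funext j; simp [hs j]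
  have h2 : (b ∘ e) ∘ s = b := by funext j; simp [hs j]
  have := h.comp s P (by rw [h1]; exact hP)
  rwa [h2] at this

theorem SameRel.of_surj {a : J → E} {b : J → E'} {e : J' → J} (he : Function.Surjective e)
    (h : SameRel k (a ∘ e) (b ∘ e)) : SameRel k a b :=
  Incl.sameRel_of (Incl.of_surj he h.incl) (Incl.of_surj he h.symm.incl)

theorem Incl.of_finite {a : J → E} {b : J → E'}
    (h : ∀ s : Finset J, Incl k (fun j : s => a j) (fun j : s => b j)) : Incl k a b := by
  classical
  intro P hP
  obtain ⟨s, q, rfl⟩ := exists_finset_rename P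
  rw [aeval_rename] at hP ⊢
  exact h s q hP

theorem sameRel_of_finite {a : J → E} {b : J → E'}
    (h : ∀ F : Finset J, SameRel k (fun j : F => a j) (fun j : F => b j)) : SameRel k a b :=
  Incl.sameRel_of (Incl.of_finite fun s => (h s).incl) (Incl.of_finite fun s => (h s).symm.incl)

/-- images under homomorphisms of fields -/
theorem sameRel_of_hom (φ : E →ₐ[k] E') (a : J → E) : SameRel k a (fun j => φ (a j)) := by
  intro P
  have h : aeval (fun j => φ (a j)) P = φ (aeval a P) := by
    have : aeval (fun j => φ (a j)) = φ.comp (aeval a) := by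
      apply MvPolynomial.algHom_ext
      intro j
      simp
    rw [this]; rfl
  rw [h]
  constructor
  · intro h0
    rw [h0, map_zero]
  · intro h0
    exact (injective_iff_map_eq_zero φ).mp φ.toRingHom.injective _ h0

/-- a relation between `a j` and `a j'` -/
theorem Incl.eq_of_eq {a : J → E} {b : J → E'} (h : Incl k a b) {i j : J} (hij : a i = a j) :
    b i = b j := by
  have := h (X i - X j) (by simp [hij])
  simpa [sub_eq_zero] using this

theorem SameRel.eq_iff {a : J → E} {b : J → E'} (h : SameRel k a b) (i j : J) :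
    a i = a j ↔ b i = b j := by
  have := h (X i - X j)
  simpa [sub_eq_zero] using this

/-- polynomial expressions in the family, as a surjection onto the subalgebra generated -/
noncomputable def toAdj (k : Type) [Field k] {J E : Type} [Field E] [Algebra k E] (a : J → E) :
    MvPolynomial J k →ₐ[k] Algebra.adjoin k (Set.range a) :=
  aeval (fun j => (⟨a j, Algebra.subset_adjoin ⟨j, rfl⟩⟩ : Algebra.adjoin k (Set.range a)))

theorem toAdj_coe (a : J → E) (P : MvPolynomial J k) : (toAdj k a P : E) = aeval a P := by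
  have : ((Algebra.adjoin k (Set.range a)).val.comp (toAdj k a)) = aeval a := by
    apply MvPolynomial.algHom_ext
    intro j
    simp [toAdj]
  exact congrArg (fun f => f P) this

theorem toAdj_surj (a : J → E) : Function.Surjective (toAdj k a) := by
  intro x
  have hx : (x : E) ∈ (aeval a : MvPolynomial J k →ₐ[k] E).range := by
    rw [← Algebra.adjoin_range_eq_range_aeval]
    exact x.2
  obtain ⟨P, hP⟩ := hx
  exact ⟨P, Subtype.ext (by rw [toAdj_coe]; exact hP)⟩

theorem toAdj_eq_zero (a : J → E) (P : MvPolynomial J k) :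
    toAdj k a P = 0 ↔ aeval a P = 0 := by
  rw [← toAdj_coe]
  exact ⟨fun h => by rw [h]; rfl, fun h => Subtype.ext h⟩

open scoped IntermediateField.algebraAdjoinAdjoin in
/-- isomorphic families have conjugate fields -/
theorem SameRel.exists_hom {a : J → E} {b : J → E'} (h : SameRel k a b) :
    ∃ φ : fld k a →ₐ[k] E', ∀ j, φ ⟨a j, IntermediateField.subset_adjoin _ _ ⟨j, rfl⟩⟩ = b j := by
  -- the homomorphism on the subalgebra
  let φ0 : Algebra.adjoin k (Set.range a) →ₐ[k] E' :=
    AlgHom.liftOfSurjective (toAdj k a) (toAdj_surj a) (aeval b) (by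
      intro P hP
      rw [RingHom.mem_ker] at hP ⊢
      exact h.incl P ((toAdj_eq_zero a P).mp hP))
  have hφ0 : ∀ P, φ0 (toAdj k a P) = aeval b P := fun P => by
    simp [φ0]
  have hinj : Function.Injective φ0 := by
    rw [injective_iff_map_eq_zero]
    intro x hx
    obtain ⟨P, rfl⟩ := toAdj_surj a x
    rw [hφ0] at hx
    exact (toAdj_eq_zero a P).mpr (h.symm.incl P hx)
  refine ⟨IsFractionRing.liftAlgHom (K := fld k a) hinj, fun j => ?_⟩
  have h1 : (⟨a j, IntermediateField.subset_adjoin _ _ ⟨j, rfl⟩⟩ : fld k a) =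
      algebraMap (Algebra.adjoin k (Set.range a)) (fld k a)
        ⟨a j, Algebra.subset_adjoin ⟨j, rfl⟩⟩ := rfl
  have h2 : (⟨a j, Algebra.subset_adjoin ⟨j, rfl⟩⟩ : Algebra.adjoin k (Set.range a)) =
      toAdj k a (X j) := Subtype.ext (by rw [toAdj_coe, aeval_X])
  rw [h1, IsFractionRing.liftAlgHom_apply, IsFractionRing.lift_algebraMap, h2]
  change φ0 _ = _
  rw [hφ0, aeval_X]

/-- isomorphic families generate isomorphic fields -/
theorem SameRel.exists_equiv {a : J → E} {b : J → E'} (h : SameRel k a b) :
    ∃ φ : fld k a ≃ₐ[k] fld k b, ∀ (j : J) (hj : a j ∈ fld k a),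
      ((φ ⟨a j, hj⟩ : fld k b) : E') = b j := by
  obtain ⟨φ, hφ⟩ := h.exists_hom
  have hr : φ.fieldRange = fld k b := by
    have h1 : φ.fieldRange = IntermediateField.map φ ⊤ := by
      rw [AlgHom.fieldRange_eq_map]
    have h2 : (⊤ : IntermediateField k (fld k a)) = IntermediateField.adjoin k
        (Set.range (fun j => (⟨a j, IntermediateField.subset_adjoin _ _ ⟨j, rfl⟩⟩ : fld k a))) := by
      symm
      rw [← IntermediateField.map_injective (fld k a).val |>.eq_iff]
      rw [IntermediateField.adjoin_map]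
      have h3 : ⇑(fld k a).val '' Set.range
          (fun j => (⟨a j, IntermediateField.subset_adjoin _ _ ⟨j, rfl⟩⟩ : fld k a)) =
          Set.range a := by
        ext x
        simp
      rw [h3]
      apply le_antisymm
      · intro x hx
        exact ⟨⟨x, hx⟩, trivial, rfl⟩
      · rintro _ ⟨x, _, rfl⟩
        exact x.2
    rw [h1, h2, IntermediateField.adjoin_map]
    congr 1
    ext x
    simp [hφ]
  refine ⟨(AlgEquiv.ofInjectiveField φ).trans (IntermediateField.equivOfEq hr), fun j hj => ?_⟩
  exact hφ j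

theorem SameRel.of_hom {a : J → E} {b : J → E'} (φ : fld k a →ₐ[k] E')
    (h : ∀ j, φ ⟨a j, IntermediateField.subset_adjoin _ _ ⟨j, rfl⟩⟩ = b j) : SameRel k a b := by
  intro P
  let a' : J → fld k a := fun j => ⟨a j, IntermediateField.subset_adjoin _ _ ⟨j, rfl⟩⟩
  have h1 : ∀ P : MvPolynomial J k, ((aeval a' P : fld k a) : E) = aeval a P := by
    intro P
    have : ((fld k a).val.comp (aeval a')) = aeval a := by
      apply MvPolynomial.algHom_ext
      intro j
      simp [a']
    exact congrArg (fun f => f P) this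
  have h2 : ∀ P : MvPolynomial J k, φ (aeval a' P) = aeval b P := by
    intro P
    have : (φ.comp (aeval a')) = aeval b := by
      apply MvPolynomial.algHom_ext
      intro j
      simp [a', h]
    exact congrArg (fun f => f P) this
  rw [← h1, ← h2]
  constructor
  · intro h0
    have : aeval a' P = 0 := Subtype.ext h0
    rw [this, map_zero]
  · intro h0
    have : aeval a' P = 0 := (injective_iff_map_eq_zero φ).mp φ.toRingHom.injective _ h0
    rw [this]; rfl

/-! ## Differentials -/

theorem dvec_apply (b : J → E) (P : MvPolynomial J k) (j : J) :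
    dvec k b P j = aeval b (pderiv j P) := by
  classical
  rw [dvec, Finsupp.finsetSum_apply]
  by_cases hj : j ∈ P.vars
  · rw [Finset.sum_eq_single_of_mem j hj]
    · simp
    · intro i _ hi
      exact Finsupp.single_eq_of_ne' hi
  · rw [Finset.sum_eq_zero, pderiv_eq_zero_of_notMem_vars hj, map_zero]
    intro i hi
    exact Finsupp.single_eq_of_ne' (fun h => hj (h ▸ hi))

theorem dvec_add (b : J → E) (P Q : MvPolynomial J k) :
    dvec k b (P + Q) = dvec k b P + dvec k b Q := by
  ext j
  rw [Finsupp.add_apply, dvec_apply, dvec_apply, dvec_apply, map_add, map_add]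

theorem dvec_mul (b : J → E) (P Q : MvPolynomial J k) :
    dvec k b (P * Q) = aeval b P • dvec k b Q + aeval b Q • dvec k b P := by
  ext j
  rw [Finsupp.add_apply, Finsupp.smul_apply, Finsupp.smul_apply, dvec_apply, dvec_apply,
    dvec_apply, Derivation.leibniz]
  simp only [smul_eq_mul, map_add, map_mul]

theorem dvec_X (b : J → E) (j : J) : dvec k b (X j : MvPolynomial J k) = Finsupp.single j 1 := by
  classical
  ext i
  rw [dvec_apply]
  by_cases hij : i = j
  · subst hij
    simp
  · rw [pderiv_X_of_ne (Ne.symm hij), map_zero, Finsupp.single_eq_of_ne hij]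

theorem dvec_C (b : J → E) (c : k) : dvec k b (C c : MvPolynomial J k) = 0 := by
  ext j
  rw [dvec_apply, pderiv_C]
  simp

/-- chain rule for renaming -/
theorem dvec_rename (b : J → E) (e : J' → J) (P : MvPolynomial J' k) :
    dvec k b (rename e P) = Finsupp.mapDomain e (dvec k (b ∘ e) P) := by
  classical
  induction P using MvPolynomial.induction_on with
  | C c => rw [rename_C, dvec_C, dvec_C, Finsupp.mapDomain_zero]
  | add P Q hP hQ => rw [map_add, dvec_add, dvec_add, Finsupp.mapDomain_add, hP, hQ]
  | mul_X P i hP =>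
    rw [map_mul, rename_X, dvec_mul, dvec_mul, hP, dvec_X, dvec_X, Finsupp.mapDomain_add,
      Finsupp.mapDomain_smul, Finsupp.mapDomain_smul, Finsupp.mapDomain_single, aeval_rename,
      aeval_X, aeval_X]
    rfl

/-! ## Dual numbers -/

/-- the point `b + ε ξ` -/
def dpt (b ξ : J → E) : J → TrivSqZeroExt E E :=
  fun j => TrivSqZeroExt.inl (b j) + TrivSqZeroExt.inr (ξ j)

theorem linComb_dvec {b ξ : J → E} (P : MvPolynomial J k) (s : Finset J) (hs : P.vars ⊆ s) :
    Finsupp.linearCombination E ξ (dvec k b P) = ∑ j ∈ s, aeval b (pderiv j P) * ξ j := by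
  rw [dvec, map_sum]
  simp only [Finsupp.linearCombination_single, smul_eq_mul]
  apply Finset.sum_subset hs
  intro j _ hj
  rw [pderiv_eq_zero_of_notMem_vars hj]
  simp

theorem aeval_dpt (b ξ : J → E) (P : MvPolynomial J k) :
    aeval (dpt b ξ) P = TrivSqZeroExt.inl (aeval b P) +
      TrivSqZeroExt.inr (Finsupp.linearCombination E ξ (dvec k b P)) := by
  classical
  induction P using MvPolynomial.induction_on with
  | C c =>
    have : dvec k b (C c) = 0 := by simp [dvec]
    rw [this]
    simp only [map_zero, algHom_C, TrivSqZeroExt.inr_zero, add_zero]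
    rfl
  | add P Q hP hQ =>
    rw [map_add, hP, hQ]
    set s := P.vars ∪ Q.vars with hs
    rw [linComb_dvec P s Finset.subset_union_left, linComb_dvec Q s Finset.subset_union_right,
      linComb_dvec (P + Q) s (vars_add_subset P Q)]
    simp only [map_add, TrivSqZeroExt.inl_add, add_mul, Finset.sum_add_distrib,
      TrivSqZeroExt.inr_add]
    abel
  | mul_X P i hP =>
    rw [map_mul, hP, aeval_X]
    set s := P.vars ∪ {i} with hs
    have hv : (P * X i).vars ⊆ s := by
      refine (vars_mul P (X i)).trans ?_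
      rw [vars_X]
    rw [linComb_dvec P s Finset.subset_union_left, linComb_dvec (P * X i) s hv]
    apply TrivSqZeroExt.ext
    · simp only [dpt, TrivSqZeroExt.fst_mul, TrivSqZeroExt.fst_add, TrivSqZeroExt.fst_inl,
        TrivSqZeroExt.fst_inr, add_zero, map_mul, aeval_X]
    · have hi : i ∈ s := by simp [hs]
      have : ∀ j ∈ s, aeval b (pderiv j (P * X i)) * ξ j =
          b i * (aeval b (pderiv j P) * ξ j) + (if j = i then aeval b P * ξ i else 0) := by
        intro j _
        rw [Derivation.leibniz, pderiv_X]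
        by_cases hji : j = i
        · subst hji
          simp
          ring
        · have : (Pi.single i 1 : J → MvPolynomial J k) j = 0 := Pi.single_eq_of_ne hji 1
          simp [hji, Ne.symm hji]
          ring
      rw [Finset.sum_congr rfl this, Finset.sum_add_distrib, ← Finset.mul_sum]
      simp only [dpt, TrivSqZeroExt.snd_mul, TrivSqZeroExt.fst_add, TrivSqZeroExt.fst_inl,
        TrivSqZeroExt.fst_inr, add_zero, TrivSqZeroExt.snd_add, TrivSqZeroExt.snd_inl,
        TrivSqZeroExt.snd_inr, zero_add, smul_eq_mul, MulOpposite.smul_eq_mul_unop,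
        MulOpposite.unop_op, Finset.sum_ite_eq', hi, if_true]
      ring

theorem isTan_iff_dpt {b ξ : J → E} :
    IsTan k b ξ ↔ ∀ P : MvPolynomial J k, aeval b P = 0 → aeval (dpt b ξ) P = 0 := by
  constructor
  · intro h P hP
    rw [aeval_dpt, hP, h P hP]
    simp
  · intro h P hP
    have h1 := h P hP
    rw [aeval_dpt] at h1
    have := congrArg TrivSqZeroExt.snd h1
    simpa using this

theorem IsTan.comp {b ξ : J → E} (h : IsTan k b ξ) (e : J' → J) :
    IsTan k (b ∘ e) (ξ ∘ e) := by
  rw [isTan_iff_dpt] at h ⊢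
  intro P hP
  have := h (rename e P) (by rw [aeval_rename]; exact hP)
  rwa [aeval_rename] at this

theorem IsTan.of_surj {b ξ : J → E} {e : J' → J} (he : Function.Surjective e)
    (h : IsTan k (b ∘ e) (ξ ∘ e)) : IsTan k b ξ := by
  obtain ⟨s, hs⟩ := he.hasRightInverse
  have h1 : (b ∘ e) ∘ s = b := by funext j; simp [hs j]
  have h2 : (ξ ∘ e) ∘ s = ξ := by funext j; simp [hs j]
  have := h.comp s
  rwa [h1, h2] at this

theorem isTan_of_finite {b ξ : J → E}
    (h : ∀ F : Finset J, IsTan k (fun j : F => b j) (fun j : F => ξ j)) : IsTan k b ξ := by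
  classical
  rw [isTan_iff_dpt]
  intro P hP
  obtain ⟨s, q, rfl⟩ := exists_finset_rename P
  rw [aeval_rename] at hP ⊢
  exact isTan_iff_dpt.mp (h s) q hP

theorem IsTan.eq_of_eq {b ξ : J → E} (h : IsTan k b ξ) {i j : J} (hij : b i = b j) :
    ξ i = ξ j := by
  rw [isTan_iff_dpt] at h
  have := h (X i - X j) (by simp [hij])
  simp only [map_sub, aeval_X] at this
  have := congrArg TrivSqZeroExt.snd this
  simpa only [dpt, TrivSqZeroExt.snd_sub, TrivSqZeroExt.snd_add, TrivSqZeroExt.snd_inl,
    TrivSqZeroExt.snd_inr, zero_add, TrivSqZeroExt.snd_zero, sub_eq_zero] using this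

end Pool.Agent.ORG
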