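import Pool.Agent.ORG.Defs
import Pool.Agent.ORG.F1

/-!
# MP_08a057_al, ORG module F2 : tangent vectors and derivations, (1.3)
(paper: /team-store/ORG_paper.md)
-/

set_option autoImplicit false

namespace Pool.Agent.ORG

open MvPolynomial TensorProduct

/-- derivations extend along formally smooth extensions with values in a vector space over a
field -/
theorem exists_derivation_ext (R S T M : Type) [CommRing R] [CommRing S] [Field T] [Algebra R S]
    [Algebra R T] [Algebra S T] [IsScalarTower R S T] [Algebra.FormallySmooth S T]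
    [AddCommGroup M] [Module R M] [Module S M] [Module T M] [IsScalarTower R S M]
    [IsScalarTower S T M] [IsScalarTower R T M]
    (D : Derivation R S M) : ∃ D' : Derivation R T M, ∀ s, D' (algebraMap S T s) = D s := by
  have hinj : Function.Injective (KaehlerDifferential.mapBaseChange R S T) := by
    rw [injective_iff_map_eq_zero]
    intro x hx
    obtain ⟨y, hy⟩ := (Algebra.H1Cotangent.exact_δ_mapBaseChange R S T x).mp hx
    have : Subsingleton (Algebra.H1Cotangent S T) :=
      Algebra.FormallySmooth.subsingleton_h1Cotangent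
    rw [← hy, Subsingleton.elim y 0, map_zero]
  obtain ⟨g, hg⟩ := LinearMap.exists_leftInverse_of_injective
    (KaehlerDifferential.mapBaseChange R S T) (LinearMap.ker_eq_bot.mpr hinj)
  let L : T ⊗[S] Ω[S⁄R] →ₗ[T] M := (D.liftKaehlerDifferential).liftBaseChange T
  refine ⟨(L.comp g).compDer (KaehlerDifferential.D R T), fun s => ?_⟩
  have h1 : KaehlerDifferential.mapBaseChange R S T (1 ⊗ₜ KaehlerDifferential.D R S s) =
      KaehlerDifferential.D R T (algebraMap S T s) := by
    rw [KaehlerDifferential.mapBaseChange_tmul, KaehlerDifferential.map_D, one_smul]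
  have h2 : g (KaehlerDifferential.D R T (algebraMap S T s)) =
      1 ⊗ₜ KaehlerDifferential.D R S s := by
    rw [← h1]
    exact congrArg (fun f => f (1 ⊗ₜ KaehlerDifferential.D R S s)) hg
  change L (g (KaehlerDifferential.D R T (algebraMap S T s))) = _
  rw [h2]
  simp [L]

variable {k : Type} [Field k] {J J' J'' I E E' E'' : Type} [Field E] [Algebra k E] [Field E']
  [Algebra k E'] [Field E''] [Algebra k E'']

theorem formallySmooth_of_charZero (F L : Type) [Field F] [Field L] [Algebra F L] [CharZero F] :
    Algebra.FormallySmooth F L := by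
  obtain ⟨s, hs⟩ := exists_isTranscendenceBasis F L
  have := hs.isAlgebraic_field
  have : Algebra.IsSeparable (IntermediateField.adjoin F
    (Set.range ((↑) : s → L))) L := inferInstance
  exact Algebra.FormallySmooth.of_algebraicIndependent_of_isSeparable (v := ((↑) : s → L)) hs.1

open scoped IntermediateField.algebraAdjoinAdjoin in
theorem formallySmooth_adjoin [CharZero k] (s : Set E) :
    Algebra.FormallySmooth (Algebra.adjoin k s) E := by
  have : Algebra.FormallySmooth (Algebra.adjoin k s) (IntermediateField.adjoin k s) :=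
    .of_isLocalization (nonZeroDivisors _)
  have : CharZero (IntermediateField.adjoin k s) := charZero_of_injective_algebraMap
    (algebraMap k (IntermediateField.adjoin k s)).injective
  have : Algebra.FormallySmooth (IntermediateField.adjoin k s) E :=
    formallySmooth_of_charZero _ _
  exact .comp _ (IntermediateField.adjoin k s) _

theorem derivation_of_dpt {F : Type} [Field F] [Algebra k F] [Algebra F E] [IsScalarTower k F E]
    {b : J → F} {ξ : J → E}
    (D : Derivation k F E) (hD : ∀ j, D (b j) = ξ j) (P : MvPolynomial J k) :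
    aeval (dpt (fun j => algebraMap F E (b j)) ξ) P =
      TrivSqZeroExt.inl (algebraMap F E (aeval b P)) + TrivSqZeroExt.inr (D (aeval b P)) := by
  induction P using MvPolynomial.induction_on with
  | C c =>
    simp only [algHom_C, Derivation.map_algebraMap, TrivSqZeroExt.inr_zero, add_zero]
    rw [← IsScalarTower.algebraMap_apply k F E]
    rfl
  | add P Q hP hQ =>
    rw [map_add, hP, hQ]
    simp only [map_add, TrivSqZeroExt.inl_add, TrivSqZeroExt.inr_add]
    abel
  | mul_X P i hP =>
    rw [map_mul, hP, aeval_X]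
    apply TrivSqZeroExt.ext
    · simp only [dpt, TrivSqZeroExt.fst_mul, TrivSqZeroExt.fst_add, TrivSqZeroExt.fst_inl,
        TrivSqZeroExt.fst_inr, add_zero, map_mul, aeval_X]
    · simp only [dpt, TrivSqZeroExt.snd_mul, TrivSqZeroExt.fst_add, TrivSqZeroExt.fst_inl,
        TrivSqZeroExt.fst_inr, add_zero, TrivSqZeroExt.snd_add, TrivSqZeroExt.snd_inl,
        TrivSqZeroExt.snd_inr, zero_add, smul_eq_mul, MulOpposite.smul_eq_mul_unop,
        MulOpposite.unop_op, map_mul, aeval_X, Derivation.leibniz, hD, Algebra.smul_def]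
      ring

/-- the derivation of the subalgebra generated by `b` belonging to a tangent vector -/
theorem exists_derivation_adjoin {b ξ : J → E} (h : IsTan k b ξ) :
    ∃ D0 : Derivation k (Algebra.adjoin k (Set.range b)) E, ∀ j, D0 (toAdj k b (X j)) = ξ j := by
  let ψ : Algebra.adjoin k (Set.range b) →ₐ[k] TrivSqZeroExt E E :=
    AlgHom.liftOfSurjective (toAdj k b) (toAdj_surj b) (aeval (dpt b ξ)) (by
      intro P hP
      rw [RingHom.mem_ker] at hP ⊢
      exact isTan_iff_dpt.mp h P ((toAdj_eq_zero b P).mp hP))
  have hψ : ∀ P, ψ (toAdj k b P) = aeval (dpt b ξ) P := fun P => by simp [ψ]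
  have hfst : ∀ x, (ψ x).fst = (x : E) := by
    intro x
    obtain ⟨P, rfl⟩ := toAdj_surj b x
    rw [hψ, aeval_dpt, toAdj_coe]
    simp
  let H : Algebra.adjoin k (Set.range b) →ₗ[k] E :=
    (TrivSqZeroExt.sndHom E E |>.restrictScalars k).comp ψ.toLinearMap
  let D0 : Derivation k (Algebra.adjoin k (Set.range b)) E := Derivation.mk' H (by
    intro x y
    change (ψ (x * y)).snd = (x : E) * (ψ y).snd + (y : E) * (ψ x).snd
    rw [map_mul, TrivSqZeroExt.snd_mul, hfst, hfst]
    simp only [smul_eq_mul, MulOpposite.smul_eq_mul_unop, MulOpposite.unop_op]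
    ring)
  refine ⟨D0, fun j => ?_⟩
  change (ψ (toAdj k b (X j))).snd = ξ j
  rw [hψ, aeval_X]
  simp [dpt]

/-- tangent vectors are restrictions of derivations of the big field -/
theorem isTan_iff [CharZero k] {b ξ : J → E} :
    IsTan k b ξ ↔ ∃ D : Derivation k E E, ∀ j, D (b j) = ξ j := by
  constructor
  · intro h
    obtain ⟨D0, hD0⟩ := exists_derivation_adjoin h
    have := formallySmooth_adjoin (k := k) (Set.range b)
    obtain ⟨D, hD⟩ := exists_derivation_ext k (Algebra.adjoin k (Set.range b)) E E D0
    refine ⟨D, fun j => ?_⟩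
    have h1 := hD (toAdj k b (X j))
    have h2 : algebraMap (Algebra.adjoin k (Set.range b)) E (toAdj k b (X j)) = b j := by
      change (toAdj k b (X j) : E) = b j
      rw [toAdj_coe, aeval_X]
    rw [h2] at h1
    rw [h1, hD0]
  · rintro ⟨D, hD⟩
    rw [isTan_iff_dpt]
    intro P hP
    have := derivation_of_dpt D hD P
    simp only [Algebra.algebraMap_self, RingHom.id_apply] at this
    rw [this, hP]
    simp

open scoped IntermediateField.algebraAdjoinAdjoin in
/-- tangent vectors are derivations of the generated field -/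
theorem isTan_iff_derivation {b ξ : J → E} :
    IsTan k b ξ ↔ ∃ D : Derivation k (fld k b) E, ∀ (j : J) (hj : b j ∈ fld k b),
      D ⟨b j, hj⟩ = ξ j := by
  constructor
  · intro h
    obtain ⟨D0, hD0⟩ := exists_derivation_adjoin h
    have : Algebra.FormallySmooth (Algebra.adjoin k (Set.range b)) (fld k b) :=
      .of_isLocalization (nonZeroDivisors _)
    obtain ⟨D, hD⟩ := exists_derivation_ext k (Algebra.adjoin k (Set.range b)) (fld k b) E D0
    refine ⟨D, fun j hj => ?_⟩
    have h1 := hD (toAdj k b (X j))
    have h2 : algebraMap (Algebra.adjoin k (Set.range b)) (fld k b) (toAdj k b (X j)) =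
        ⟨b j, hj⟩ := by
      apply Subtype.ext
      change (toAdj k b (X j) : E) = b j
      rw [toAdj_coe, aeval_X]
    rw [h2] at h1
    rw [h1]
    exact hD0 j
  · rintro ⟨D, hD⟩
    rw [isTan_iff_dpt]
    intro P hP
    let b' : J → fld k b := fun j => ⟨b j, IntermediateField.subset_adjoin _ _ ⟨j, rfl⟩⟩
    have h1 := derivation_of_dpt (F := fld k b) (b := b') D (fun j => hD j _) P
    have h2 : ((aeval b' P : fld k b) : E) = aeval b P := by
      have : ((fld k b).val.comp (aeval b')) = aeval b := by
        apply MvPolynomial.algHom_ext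
        intro j
        simp [b']
      exact congrArg (fun f => f P) this
    have h3 : aeval b' P = 0 := Subtype.ext (by rw [h2, hP]; rfl)
    have h4 : (fun j => algebraMap (fld k b) E (b' j)) = b := rfl
    rw [h4, h3] at h1
    rw [h1]
    simp

/-- (1.3) -/
theorem exists_isTan_extend [CharZero k] {b : J → E} (e : J' → J) {ξ' : J' → E}
    (h : IsTan k (b ∘ e) ξ') : ∃ ξ : J → E, IsTan k b ξ ∧ ξ ∘ e = ξ' := by
  obtain ⟨D, hD⟩ := isTan_iff.mp h
  exact ⟨fun j => D (b j), isTan_iff.mpr ⟨D, fun _ => rfl⟩, funext hD⟩

end Pool.Agent.ORG
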