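import Pool.Agent.ORG.Defs
import Pool.Agent.ORG.F1

/-!
# MP_08a057_al, ORG module F4 : (1.4), (1.7) transcendence degrees
(paper: /team-store/ORG_paper.md)
-/

set_option autoImplicit false

namespace Pool.Agent.ORG

open MvPolynomial

variable {k : Type} [Field k] {J J' J'' I E E' E'' : Type} [Field E] [Algebra k E] [Field E']
  [Algebra k E'] [Field E''] [Algebra k E'']

open AlgebraicIndependent in
theorem F4_mem_closure (S : Set E) {y : E} (hy : y ∈ IntermediateField.adjoin k S) :
    y ∈ (matroid k E).closure S := by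
  rw [matroid_closure_eq, SetLike.mem_coe, Subalgebra.mem_algebraicClosure]
  obtain ⟨r, hr, s, hs, rfl⟩ := IntermediateField.mem_adjoin_iff_div.mp hy
  rw [div_eq_mul_inv]
  exact (isAlgebraic_algebraMap (⟨r, hr⟩ : Algebra.adjoin k S)).mul
    (isAlgebraic_algebraMap (⟨s, hs⟩ : Algebra.adjoin k S)).inv

open AlgebraicIndependent in
theorem F4_indep_range {K : Type} {x : K → E} (hx : AlgebraicIndependent k x) :
    (matroid k E).Indep (Set.range x) := by
  rw [matroid_indep_iff]
  exact hx.coe_range

open AlgebraicIndependent in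
theorem F4_trd_eRk (a : J → E) (ha : (Set.range a).Finite) :
    (trd k a : ℕ∞) = (matroid k E).eRk (Set.range a) := by
  obtain ⟨s, hs⟩ := exists_isTranscendenceBasis k (fld k a)
  have hcard : Cardinal.mk s = Algebra.trdeg k (fld k a) := hs.cardinalMk_eq_trdeg
  have hind : AlgebraicIndependent k (fun i : s => ((i : fld k a) : E)) := by
    have h1 := hs.1.map' (f := (fld k a).val) (fld k a).val.injective
    exact h1
  have hinj : Function.Injective (fun i : s => ((i : fld k a) : E)) := hind.injective
  have h1 : (Set.range (fun i : s => ((i : fld k a) : E))).encard ≤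
      (matroid k E).eRk (Set.range a) := by
    rw [← (matroid k E).eRk_closure_eq]
    refine (F4_indep_range hind).encard_le_eRk_of_subset ?_
    rintro _ ⟨i, rfl⟩
    exact F4_mem_closure _ (i : fld k a).2
  have h1' : s.encard = (Set.range (fun i : s => ((i : fld k a) : E))).encard := by
    rw [← Set.image_univ, hinj.encard_image, Set.encard_univ]
    rfl
  have h2 : s.Finite := by
    rw [← Set.encard_lt_top_iff, h1']
    refine (h1.trans ((matroid k E).eRk_le_encard _)).trans_lt ?_
    exact ha.encard_lt_top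
  have h3 : (trd k a : ℕ∞) = s.encard := by
    unfold trd
    rw [← hcard]
    rw [← h2.cast_ncard_eq, ← Nat.card_coe_set_eq]
    rfl
  apply le_antisymm
  · rw [h3, h1']; exact h1
  · obtain ⟨I₀, hI₀⟩ := (matroid k E).exists_isBasis (Set.range a)
    rw [← hI₀.encard_eq_eRk, h3]
    have h4 : ∀ i ∈ I₀, i ∈ fld k a := fun i hi =>
      IntermediateField.subset_adjoin _ _ (hI₀.subset hi)
    have h5 : AlgebraicIndependent k (fun i : I₀ => (⟨i, h4 i i.2⟩ : fld k a)) := by
      apply AlgebraicIndependent.of_comp (fld k a).val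
      have := hI₀.indep
      rw [matroid_indep_iff] at this
      exact this
    have h6 := h5.cardinalMk_le_trdeg
    rw [← hcard] at h6
    have h7 : I₀.Finite := ha.subset hI₀.subset
    rw [← h2.cast_ncard_eq, ← h7.cast_ncard_eq, ← Nat.card_coe_set_eq, ← Nat.card_coe_set_eq]
    have : Finite s := h2
    exact_mod_cast Cardinal.toNat_le_toNat h6 (Cardinal.lt_aleph0_of_finite _)

theorem SameRel.trd_eq {a : J → E} {b : J → E'} (h : SameRel k a b) : trd k a = trd k b := by
  obtain ⟨φ, -⟩ := h.exists_equiv
  unfold trd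
  rw [φ.trdeg_eq]

theorem trd_congr_range {a : J → E} {b : J' → E} (h : Set.range a = Set.range b) :
    trd k a = trd k b := by
  unfold trd fld
  rw [h]

theorem trd_mono {a : J → E} {b : J' → E} (h : Set.range a ⊆ Set.range b)
    (hb : (Set.range b).Finite) : trd k a ≤ trd k b := by
  have h1 := F4_trd_eRk (k := k) a (hb.subset h)
  have h2 := F4_trd_eRk (k := k) b hb
  have h3 := (AlgebraicIndependent.matroid k E).eRk_mono h
  rw [← h1, ← h2] at h3
  exact_mod_cast h3

theorem trd_empty [IsEmpty J] (a : J → E) : trd k a = 0 := by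
  have h1 := F4_trd_eRk (k := k) a (Set.toFinite _)
  rw [Set.range_eq_empty] at h1
  simpa using h1

/-- `trd` of a finite family is at most the number of elements -/
theorem trd_le_card [Finite J] (a : J → E) : trd k a ≤ Nat.card J := by
  have h1 := F4_trd_eRk (k := k) a (Set.toFinite _)
  have h2 := (AlgebraicIndependent.matroid k E).eRk_le_encard (Set.range a)
  rw [← h1] at h2
  have h3 : (Set.range a).encard ≤ (Set.univ : Set J).encard := by
    rw [← Set.image_univ]
    exact Set.encard_image_le _ _
  have h4 : (Set.univ : Set J).encard = (Nat.card J : ℕ∞) := by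
    rw [Set.encard_univ]
    exact ENat.card_eq_coe_natCard J
  rw [h4] at h3
  exact_mod_cast h2.trans h3

theorem F4_finite {a : J → E} {b : J → E'} (h : Incl k a b) (ha : (Set.range a).Finite) :
    (Set.range b).Finite := by
  choose f hf using fun x : Set.range a => x.2
  have hsub : Set.range b ⊆ Set.range (fun x : Set.range a => b (f x)) := by
    rintro _ ⟨j, rfl⟩
    refine ⟨⟨a j, j, rfl⟩, ?_⟩
    exact h.eq_of_eq (hf ⟨a j, j, rfl⟩)
  have : Finite (Set.range a) := ha
  exact (Set.finite_range _).subset hsub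

theorem F4_indep {a : J → E} {b : J → E'} (h : Incl k a b) {K : Type} {e : K → J}
    (hb : AlgebraicIndependent k (b ∘ e)) : AlgebraicIndependent k (a ∘ e) := by
  rw [algebraicIndependent_iff] at hb ⊢
  intro P hP
  exact hb P (h.comp e P hP)

open AlgebraicIndependent in
theorem F4_exists_basis (b : J → E) :
    ∃ (K : Type) (e : K → J), AlgebraicIndependent k (b ∘ e) ∧
      (Set.range (b ∘ e)).encard = (matroid k E).eRk (Set.range b) := by
  obtain ⟨I₀, hI₀⟩ := (matroid k E).exists_isBasis (Set.range b)
  choose f hf using fun x : I₀ => hI₀.subset x.2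
  have h : b ∘ f = fun x : I₀ => (x : E) := by
    funext x
    exact hf x
  refine ⟨I₀, f, ?_, ?_⟩
  · rw [h]
    have := hI₀.indep
    rw [matroid_indep_iff] at this
    exact this
  · rw [h, Subtype.range_coe]
    exact hI₀.encard_eq_eRk

omit [Field E] [Field E'] in
theorem F4_encard {K : Type} {x : K → E} {y : K → E'} (hx : Function.Injective x)
    (hy : Function.Injective y) : (Set.range x).encard = (Set.range y).encard := by
  rw [← Set.image_univ, ← Set.image_univ, hx.encard_image, hy.encard_image]

theorem Incl.trd_le {a : J → E} {b : J → E'} (h : Incl k a b) (ha : (Set.range a).Finite) :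
    trd k b ≤ trd k a := by
  obtain ⟨K, e, he, hc⟩ := F4_exists_basis (k := k) b
  have h1 := F4_trd_eRk (k := k) a ha
  have h2 := F4_trd_eRk (k := k) b (F4_finite h ha)
  have h3 := F4_indep h he
  have h4 := (F4_indep_range h3).encard_le_eRk_of_subset (Set.range_comp_subset_range e a)
  rw [F4_encard h3.injective he.injective, hc, ← h1, ← h2] at h4
  exact_mod_cast h4

/-- (1.4) -/
theorem Incl.sameRel {a : J → E} {b : J → E'} (h : Incl k a b) (ha : (Set.range a).Finite)
    (hle : trd k a ≤ trd k b) : SameRel k a b := by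
  intro P
  refine ⟨h P, fun hP => ?_⟩
  by_contra hne
  obtain ⟨K, e, he, hc⟩ := F4_exists_basis (k := k) b
  have h1 := F4_trd_eRk (k := k) a ha
  have h2 := F4_trd_eRk (k := k) b (F4_finite h ha)
  have h3 := F4_indep h he
  have hsub := Set.range_comp_subset_range e a
  have hind := F4_indep_range h3
  have h5 : (AlgebraicIndependent.matroid k E).IsBasis (Set.range (a ∘ e)) (Set.range a) := by
    obtain ⟨I₀, hI₀, hI₁⟩ := hind.subset_isBasis_of_subset hsub
    have h6 : Set.range (a ∘ e) = I₀ := by
      apply Set.Finite.eq_of_subset_of_encard_le (ha.subset hsub) hI₁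
      rw [hI₀.encard_eq_eRk, F4_encard h3.injective he.injective, hc, ← h1, ← h2]
      exact_mod_cast hle
    rw [h6]
    exact hI₀
  have h6 : IsAlgebraic (Algebra.adjoin k (Set.range (a ∘ e))) (aeval a P) := by
    rw [AlgebraicIndependent.isAlgebraic_adjoin_iff_of_matroid_isBasis h5]
    have h7 : aeval a P ∈ Algebra.adjoin k (Set.range a) := by
      rw [Algebra.adjoin_range_eq_range_aeval]
      exact ⟨P, rfl⟩
    exact isAlgebraic_algebraMap (⟨_, h7⟩ : Algebra.adjoin k (Set.range a))
  obtain ⟨q, hq0, hq⟩ := h6.exists_nonzero_coeff_and_aeval_eq_zero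
    (mem_nonZeroDivisors_of_ne_zero hne)
  -- lift the coefficients
  have hmem : ∀ Q : MvPolynomial K k, aeval (a ∘ e) Q ∈ Algebra.adjoin k (Set.range (a ∘ e)) := by
    intro Q
    rw [Algebra.adjoin_range_eq_range_aeval]
    exact ⟨Q, rfl⟩
  let φ : MvPolynomial K k →ₐ[k] Algebra.adjoin k (Set.range (a ∘ e)) :=
    (aeval (a ∘ e)).codRestrict _ hmem
  have hφ : Function.Surjective φ := by
    rintro ⟨y, hy⟩
    rw [Algebra.adjoin_range_eq_range_aeval] at hy
    obtain ⟨Q, hQ⟩ := hy
    exact ⟨Q, Subtype.ext hQ⟩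
  obtain ⟨Q, hQ⟩ := Polynomial.map_surjective (φ : MvPolynomial K k →+* _) hφ q
  set R : MvPolynomial J k := Q.eval₂ (rename e : MvPolynomial K k →ₐ[k] MvPolynomial J k).toRingHom P
    with hR
  have hRa : aeval a R = 0 := by
    have : aeval a R = Polynomial.aeval (aeval a P) q := by
      rw [hR, ← hQ, Polynomial.aeval_def, Polynomial.eval₂_map]
      rw [show (aeval a) (Polynomial.eval₂ (rename e : MvPolynomial K k →ₐ[k] _).toRingHom P Q) =
        (aeval a : MvPolynomial J k →ₐ[k] E).toRingHom
          (Polynomial.eval₂ (rename e : MvPolynomial K k →ₐ[k] _).toRingHom P Q) from rfl]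
      rw [Polynomial.hom_eval₂]
      congr 1
      apply RingHom.ext
      intro S
      change aeval a (rename e S) = aeval (a ∘ e) S
      rw [aeval_rename]
    rw [this, hq]
  have hRb : aeval b R = aeval (b ∘ e) (Q.coeff 0) := by
    rw [hR]
    rw [show (aeval b) (Polynomial.eval₂ (rename e : MvPolynomial K k →ₐ[k] _).toRingHom P Q) =
        (aeval b : MvPolynomial J k →ₐ[k] E').toRingHom
          (Polynomial.eval₂ (rename e : MvPolynomial K k →ₐ[k] _).toRingHom P Q) from rfl]
    rw [Polynomial.hom_eval₂]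
    change Polynomial.eval₂ _ (aeval b P) Q = _
    rw [hP, Polynomial.eval₂_at_zero]
    change aeval b (rename e (Q.coeff 0)) = _
    rw [aeval_rename]
  have hz := h R hRa
  rw [hRb] at hz
  have hz' := he.eq_zero_of_aeval_eq_zero _ hz
  apply hq0
  rw [← hQ, Polynomial.coeff_map, hz', map_zero]

/-- (1.7) -/
theorem trd_submod (b : J → E) (c : I → E) (e : J' → J) (hb : (Set.range b).Finite)
    (hc : (Set.range c).Finite) :
    trd k (Sum.elim b c) + trd k (b ∘ e) ≤ trd k b + trd k (Sum.elim (b ∘ e) c) := by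
  have hbe : (Set.range (b ∘ e)).Finite := hb.subset (Set.range_comp_subset_range e b)
  have h1 := F4_trd_eRk (k := k) (Sum.elim b c) (by rw [Set.Sum.elim_range]; exact hb.union hc)
  have h2 := F4_trd_eRk (k := k) (b ∘ e) hbe
  have h3 := F4_trd_eRk (k := k) b hb
  have h4 := F4_trd_eRk (k := k) (Sum.elim (b ∘ e) c)
    (by rw [Set.Sum.elim_range]; exact hbe.union hc)
  have h5 := (AlgebraicIndependent.matroid k E).eRk_submod (Set.range b)
    (Set.range (Sum.elim (b ∘ e) c))
  have h6 : Set.range b ∪ Set.range (Sum.elim (b ∘ e) c) = Set.range (Sum.elim b c) := by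
    rw [Set.Sum.elim_range, Set.Sum.elim_range, ← Set.union_assoc,
      Set.union_eq_self_of_subset_right (Set.range_comp_subset_range e b)]
  have h7 : Set.range (b ∘ e) ⊆ Set.range b ∩ Set.range (Sum.elim (b ∘ e) c) := by
    apply Set.subset_inter (Set.range_comp_subset_range e b)
    rw [Set.Sum.elim_range]
    exact Set.subset_union_left
  have h8 := (AlgebraicIndependent.matroid k E).eRk_mono h7
  rw [h6, ← h3, ← h4, ← h1] at h5
  rw [← h2] at h8
  have h9 : ((trd k (Sum.elim b c) : ℕ∞) + (trd k (b ∘ e) : ℕ∞)) ≤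
      (trd k b : ℕ∞) + (trd k (Sum.elim (b ∘ e) c) : ℕ∞) := by
    refine le_trans ?_ h5
    rw [add_comm]
    gcongr
  exact_mod_cast h9

end Pool.Agent.ORG
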