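import Pool.Agent.ORG.Defs
import Pool.Agent.ORG.F1
import Pool.Agent.ORG.F2
import Pool.Agent.ORG.F4

/-!
# MP_08a057_al, ORG module S1 : site level: monotonicity, translations, finiteness
(paper: /team-store/ORG_paper.md)
-/

set_option autoImplicit false

namespace Pool.Agent.ORG

open MvPolynomial

variable {k : Type} [Field k] {Γ I E E' : Type} [AddCommGroup Γ] [Field E] [Algebra k E]
  [Field E'] [Algebra k E']

open Sys

/-- inclusion of index types -/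
def s1Incl (I : Type) {Γ : Type} {A B : Set Γ} (h : A ⊆ B) : Ix I A → Ix I B :=
  fun v => ⟨v.1, h v.2⟩

/-- translation of index types -/
def s1Tr (I : Type) {Γ : Type} [AddCommGroup Γ] (γ : Γ) (A : Set Γ) : Ix I A → Ix I (tr γ A) :=
  fun v => ⟨(γ + v.1.1, v.1.2), by
    have := v.2
    simp only [tr, Set.mem_ofPred_eq, add_sub_cancel_left]
    exact this⟩

theorem s1Tr_surj (I : Type) {Γ : Type} [AddCommGroup Γ] (γ : Γ) (A : Set Γ) :
    Function.Surjective (s1Tr I γ A) := by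
  rintro ⟨⟨u, i⟩, hu⟩
  refine ⟨⟨(u - γ, i), hu⟩, ?_⟩
  simp [s1Tr]

theorem s1_sites_finite {Γ I : Type} {A : Set Γ} (F : Finset (Ix I A)) :
    {u : Γ | ∃ j ∈ F, j.1.1 = u}.Finite := by
  have : {u : Γ | ∃ j ∈ F, j.1.1 = u} = (fun j : Ix I A => j.1.1) '' (F : Set (Ix I A)) := by
    ext u
    simp
  rw [this]
  exact F.finite_toSet.image _

theorem Gen.mono {Z : Sys k Γ I} {x : Γ × I → E} {A B : Set Γ} (h : Z.Gen x B) (hAB : A ⊆ B) :
    Z.Gen x A :=
  SameRel.comp h (s1Incl I hAB)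

theorem gen_of_finite {Z : Sys k Γ I} {x : Γ × I → E} {A : Set Γ}
    (h : ∀ F : Set Γ, F.Finite → F ⊆ A → Z.Gen x F) : Z.Gen x A := by
  refine sameRel_of_finite ?_
  intro F
  have h1 := h {u : Γ | ∃ j ∈ F, j.1.1 = u} (s1_sites_finite F)
    (by rintro u ⟨j, _, rfl⟩; exact j.2)
  exact SameRel.comp h1 (fun j : F => (⟨j.1.1, ⟨j.1, j.2, rfl⟩⟩ :
    Ix I {u : Γ | ∃ j ∈ F, j.1.1 = u}))

theorem gen_empty (Z : Sys k Γ I) (x : Γ × I → E) : Z.Gen x ∅ := by
  have hE : IsEmpty (Ix I (∅ : Set Γ)) := ⟨fun v => v.2⟩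
  intro P
  rw [MvPolynomial.eq_C_of_isEmpty P, aeval_C, aeval_C]
  simp

theorem gen_self (Z : Sys k Γ I) (A : Set Γ) : Z.Gen Z.z A :=
  SameRel.refl _

theorem s1_res_congr {x y : Γ × I → E} {A : Set Γ} (hxy : ∀ v : Γ × I, v.1 ∈ A → x v = y v) :
    res x A = res y A := by
  funext v
  exact hxy v.1 v.2

theorem Gen.congr {Z : Sys k Γ I} {x y : Γ × I → E} {A : Set Γ} (h : Z.Gen x A)
    (hxy : ∀ v : Γ × I, v.1 ∈ A → x v = y v) : Z.Gen y A := by
  unfold Sys.Gen at h ⊢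
  rw [← s1_res_congr hxy]
  exact h

theorem TanOn.congr {x y ξ η : Γ × I → E} {A : Set Γ} (h : TanOn k x A ξ)
    (hxy : ∀ v : Γ × I, v.1 ∈ A → x v = y v) (hξ : ∀ v : Γ × I, v.1 ∈ A → ξ v = η v) :
    TanOn k y A η := by
  unfold TanOn at h ⊢
  rw [← s1_res_congr hxy, ← s1_res_congr hξ]
  exact h

theorem TanOn.mono {x ξ : Γ × I → E} {A B : Set Γ} (h : TanOn k x B ξ) (hAB : A ⊆ B) :
    TanOn k x A ξ :=
  IsTan.comp h (s1Incl I hAB)

theorem TanOn.zero (x : Γ × I → E) (A : Set Γ) : TanOn k x A 0 :=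
  (Tan k (res x A)).zero_mem

theorem TanOn.add {x ξ η : Γ × I → E} {A : Set Γ} (h : TanOn k x A ξ) (h' : TanOn k x A η) :
    TanOn k x A (ξ + η) :=
  (Tan k (res x A)).add_mem h h'

theorem TanOn.smul {x ξ : Γ × I → E} {A : Set Γ} (c : E) (h : TanOn k x A ξ) :
    TanOn k x A (c • ξ) :=
  (Tan k (res x A)).smul_mem c h

theorem tanOn_of_finite {x ξ : Γ × I → E} {A : Set Γ}
    (h : ∀ F : Set Γ, F.Finite → F ⊆ A → TanOn k x F ξ) : TanOn k x A ξ := by
  refine isTan_of_finite ?_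
  intro F
  have h1 := h {u : Γ | ∃ j ∈ F, j.1.1 = u} (s1_sites_finite F)
    (by rintro u ⟨j, _, rfl⟩; exact j.2)
  exact IsTan.comp h1 (fun j : F => (⟨j.1.1, ⟨j.1, j.2, rfl⟩⟩ :
    Ix I {u : Γ | ∃ j ∈ F, j.1.1 = u}))

theorem exists_tanOn_extend [CharZero k] {x ξ : Γ × I → E} {A : Set Γ} (h : TanOn k x A ξ)
    (B : Set Γ) : ∃ ξ' : Γ × I → E, TanOn k x (A ∪ B) ξ' ∧ ∀ v : Γ × I, v.1 ∈ A → ξ' v = ξ v := by
  classical
  obtain ⟨η, hη, hηe⟩ := exists_isTan_extend (k := k) (b := res x (A ∪ B))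
    (s1Incl I (Set.subset_union_left (s := A) (t := B))) (ξ' := res ξ A) h
  refine ⟨fun v => if hv : v.1 ∈ A ∪ B then η ⟨v, hv⟩ else 0, ?_, ?_⟩
  · have : res (fun v : Γ × I => if hv : v.1 ∈ A ∪ B then η ⟨v, hv⟩ else 0) (A ∪ B) = η := by
      funext v
      simp only [res]
      rw [dif_pos v.2]
    unfold TanOn
    rw [this]
    exact hη
  · intro v hv
    have h1 := congrFun hηe ⟨v, hv⟩
    simp only [Function.comp_apply, s1Incl, res] at h1
    have hv' : v.1 ∈ A ∪ B := Or.inl hv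
    change (if hv : v.1 ∈ A ∪ B then η ⟨v, hv⟩ else 0) = ξ v
    rw [dif_pos hv']
    exact h1

theorem Z_z_shift (Z : Sys k Γ I) (γ : Γ) (v : Γ × I) :
    Z.α (Multiplicative.ofAdd γ) (Z.z v) = Z.z (γ + v.1, v.2) := by
  simp only [Sys.z, ofAdd_add, map_mul]
  rfl

theorem s1_sameRel_tr (Z : Sys k Γ I) (A : Set Γ) (γ : Γ) :
    SameRel k (res Z.z A) (res Z.z (tr γ A) ∘ s1Tr I γ A) := by
  have h := sameRel_of_hom (k := k)
    ((Z.α (Multiplicative.ofAdd γ) : Z.K ≃ₐ[k] Z.K) : Z.K →ₐ[k] Z.K) (res Z.z A)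
  have h2 : (fun j => ((Z.α (Multiplicative.ofAdd γ) : Z.K ≃ₐ[k] Z.K) : Z.K →ₐ[k] Z.K)
      (res Z.z A j)) = res Z.z (tr γ A) ∘ s1Tr I γ A := by
    funext v
    exact Z_z_shift Z γ v.1
  rw [h2] at h
  exact h

theorem gen_tr {Z : Sys k Γ I} {x : Γ × I → E} {A : Set Γ} (γ : Γ) :
    Z.Gen x (tr γ A) ↔ Z.Gen (fun v => x (γ + v.1, v.2)) A := by
  constructor
  · intro h
    exact (s1_sameRel_tr Z A γ).trans (SameRel.comp h (s1Tr I γ A))
  · intro h
    refine SameRel.of_surj (s1Tr_surj I γ A) ?_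
    exact (s1_sameRel_tr Z A γ).symm.trans h

theorem tanOn_tr {x ξ : Γ × I → E} {A : Set Γ} (γ : Γ) :
    TanOn k x (tr γ A) ξ ↔
      TanOn k (fun v => x (γ + v.1, v.2)) A (fun v => ξ (γ + v.1, v.2)) := by
  constructor
  · intro h
    exact IsTan.comp h (s1Tr I γ A)
  · intro h
    exact IsTan.of_surj (s1Tr_surj I γ A) h

theorem r_tr (Z : Sys k Γ I) (A : Set Γ) (γ : Γ) : Z.r (tr γ A) = Z.r A := by
  have h1 := (s1_sameRel_tr Z A γ).trd_eq
  have h2 : trd k (res Z.z (tr γ A) ∘ s1Tr I γ A) = trd k (res Z.z (tr γ A)) :=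
    trd_congr_range ((s1Tr_surj I γ A).range_comp _)
  unfold Sys.r trdOn
  rw [h1, h2]

theorem finite_range_res [Finite I] (x : Γ × I → E) {A : Set Γ} (hA : A.Finite) :
    (Set.range (res x A)).Finite := by
  have h : {v : Γ × I | v.1 ∈ A}.Finite := by
    have := hA.prod (Set.finite_univ (α := I))
    refine this.subset ?_
    intro v hv
    exact ⟨hv, trivial⟩
  have : Finite (Ix I A) := h.to_subtype
  exact Set.finite_range _

/-- a configuration which is periodic has finite range on levels / everywhere -/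
theorem finite_range_of_per [Finite I] {Γ' : AddSubgroup Γ} [Γ'.FiniteIndex] {x : Γ × I → E}
    (h : Per Γ' x) : (Set.range x).Finite := by
  have hf : Finite (Γ ⧸ Γ') := AddSubgroup.finite_quotient_of_finiteIndex
  have : Set.range x ⊆ Set.range (fun w : (Γ ⧸ Γ') × I => x (Quotient.out w.1, w.2)) := by
    rintro _ ⟨⟨γ, i⟩, rfl⟩
    refine ⟨(QuotientAddGroup.mk γ, i), ?_⟩
    simp only
    have h1 : (QuotientAddGroup.mk (Quotient.out (QuotientAddGroup.mk γ : Γ ⧸ Γ')) : Γ ⧸ Γ') =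
        QuotientAddGroup.mk γ := Quotient.out_eq _
    have h2 : -(Quotient.out (QuotientAddGroup.mk γ : Γ ⧸ Γ')) + γ ∈ Γ' :=
      QuotientAddGroup.eq.1 h1
    have h3 := h _ h2 (Quotient.out (QuotientAddGroup.mk γ : Γ ⧸ Γ'), i)
    simp only at h3
    rw [← h3]
    congr 2
    abel
  exact (Set.finite_range _).subset this

theorem Gen.trd_eq {Z : Sys k Γ I} {x : Γ × I → E} {A : Set Γ} (h : Z.Gen x A) :
    trdOn k x A = Z.r A :=
  (SameRel.trd_eq h).symm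

theorem s1_range_subset (x : Γ × I → E) {A B : Set Γ} (hAB : A ⊆ B) :
    Set.range (res x A) ⊆ Set.range (res x B) := by
  rintro _ ⟨v, rfl⟩
  exact ⟨s1Incl I hAB v, rfl⟩

theorem trdOn_mono (x : Γ × I → E) {A B : Set Γ} (hAB : A ⊆ B) (hB : (Set.range (res x B)).Finite) :
    trdOn k x A ≤ trdOn k x B :=
  trd_mono (s1_range_subset x hAB) hB

theorem r_mono [Finite I] (Z : Sys k Γ I) {A B : Set Γ} (hAB : A ⊆ B) (hB : B.Finite) :
    Z.r A ≤ Z.r B :=
  trdOn_mono Z.z hAB (finite_range_res Z.z hB)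

theorem s1_range_union (x : Γ × I → E) (A B : Set Γ) :
    Set.range (Sum.elim (res x A) (res x B)) = Set.range (res x (A ∪ B)) := by
  ext y
  simp only [Set.mem_range, Sum.exists, Sum.elim_inl, Sum.elim_inr]
  constructor
  · rintro (⟨v, rfl⟩ | ⟨v, rfl⟩)
    · exact ⟨s1Incl I Set.subset_union_left v, rfl⟩
    · exact ⟨s1Incl I Set.subset_union_right v, rfl⟩
  · rintro ⟨⟨v, hv⟩, rfl⟩
    rcases hv with hv | hv
    · exact Or.inl ⟨⟨v, hv⟩, rfl⟩
    · exact Or.inr ⟨⟨v, hv⟩, rfl⟩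

/-- submodularity -/
theorem trdOn_submod (x : Γ × I → E) {A B C : Set Γ} (hCA : C ⊆ A)
    (hA : (Set.range (res x A)).Finite) (hB : (Set.range (res x B)).Finite) :
    trdOn k x (A ∪ B) + trdOn k x C ≤ trdOn k x A + trdOn k x (C ∪ B) := by
  have h := trd_submod (k := k) (res x A) (res x B) (s1Incl I hCA) hA hB
  have h1 : trd k (Sum.elim (res x A) (res x B)) = trdOn k x (A ∪ B) :=
    trd_congr_range (s1_range_union x A B)
  have h2 : trd k (Sum.elim (res x A ∘ s1Incl I hCA) (res x B)) = trdOn k x (C ∪ B) :=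
    trd_congr_range (s1_range_union x C B)
  rw [h1, h2] at h
  exact h

end Pool.Agent.ORG
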