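import Pool.Agent.ORG.Defs
import Pool.Agent.ORG.F1
import Pool.Agent.ORG.F4

/-!
# MP_08a057_al, ORG module D1 : section 2: determination
(paper: /team-store/ORG_paper.md)
-/

set_option autoImplicit false

namespace Pool.Agent.ORG

open MvPolynomial

variable {k : Type} [Field k] {J J' J'' I E E' E'' : Type} [Field E] [Algebra k E] [Field E']
  [Algebra k E'] [Field E''] [Algebra k E'']

theorem d1_fld_le (a : J → E) (e : J' → J) : fld k (a ∘ e) ≤ fld k a :=
  IntermediateField.adjoin.mono k _ _ (Set.range_comp_subset_range e a)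

theorem relIdeal_mono (a : J → E) (e : J' → J) (c : I → E) :
    relIdeal k (a ∘ e) c ≤ relIdeal k a c := by
  refine Ideal.span_mono ?_
  rintro f ⟨P, hP, rfl⟩
  refine ⟨MvPolynomial.map (IntermediateField.inclusion (d1_fld_le a e)).toRingHom P, ?_, ?_⟩
  · rw [← hP, aeval_def, aeval_def, eval₂_map]
    rfl
  · rw [MvPolynomial.map_map]
    rfl

/-- (2.5) -/
theorem DET.of_comp {a : J → E} {e : J' → J} {e' : J'' → J'} {c : I → E}
    (h : DET k a (e ∘ e') c) : DET k a e c ∧ DET k (a ∘ e) e' c := by
  have h' : relIdeal k a c ≤ relIdeal k ((a ∘ e) ∘ e') c := h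
  exact ⟨h'.trans (relIdeal_mono (a ∘ e) e' c), (relIdeal_mono a e c).trans h'⟩

/-- (2.1): the intersection of an extended ideal with `F[X]` -/
theorem mem_span_of_map_mem {F K : Type} [Field F] [Field K] [Algebra F K]
    (S : Set (MvPolynomial I F)) (P : MvPolynomial I F)
    (h : MvPolynomial.map (algebraMap F K) P ∈
      Ideal.span ((MvPolynomial.map (algebraMap F K)) '' S)) : P ∈ Ideal.span S := by
  classical
  obtain ⟨ρ, hρ⟩ : ∃ ρ : K →ₗ[F] F, ∀ c : F, ρ (algebraMap F K c) = c := by
    obtain ⟨ρ, hρ⟩ := LinearMap.exists_leftInverse_of_injective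
      (Algebra.linearMap F K) (LinearMap.ker_eq_bot.2 (algebraMap F K).injective)
    exact ⟨ρ, fun c => LinearMap.congr_fun hρ c⟩
  let R : MvPolynomial I K →ₗ[F] MvPolynomial I F :=
    ((basisMonomials I F).repr.symm.toLinearMap).comp
      ((Finsupp.mapRange.linearMap ρ).comp
        ((basisMonomials I K).repr.toLinearMap.restrictScalars F))
  have hR : ∀ (g : MvPolynomial I K) (m : I →₀ ℕ), coeff m (R g) = ρ (coeff m g) := by
    intro g m
    have : (basisMonomials I F).repr (R g) m = ρ ((basisMonomials I K).repr g m) := by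
      show (basisMonomials I F).repr ((basisMonomials I F).repr.symm
        (Finsupp.mapRange.linearMap ρ ((basisMonomials I K).repr g))) m = _
      rw [LinearEquiv.apply_symm_apply]
      rfl
    exact this
  have hmul : ∀ (f : MvPolynomial I F) (g : MvPolynomial I K),
      R (MvPolynomial.map (algebraMap F K) f * g) = f * R g := by
    intro f g
    induction f using MvPolynomial.induction_on' with
    | monomial m c =>
      ext n
      rw [hR, map_monomial, coeff_monomial_mul', coeff_monomial_mul']
      split_ifs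
      · rw [hR, ← Algebra.smul_def, map_smul, smul_eq_mul]
      · rw [map_zero]
    | add p q hp hq => rw [map_add, add_mul, add_mul, map_add, hp, hq]
  have hRm : ∀ f : MvPolynomial I F, R (MvPolynomial.map (algebraMap F K) f) = f := by
    intro f
    ext n
    rw [hR, coeff_map, hρ]
  have key : ∀ x ∈ Ideal.span ((MvPolynomial.map (algebraMap F K)) '' S),
      ∀ g : MvPolynomial I K, R (g * x) ∈ Ideal.span S := by
    intro x hx
    induction hx using Submodule.span_induction with
    | mem x hx =>
      obtain ⟨s, hs, rfl⟩ := hx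
      intro g
      rw [mul_comm, hmul, mul_comm]
      exact Ideal.mul_mem_left _ _ (Ideal.subset_span hs)
    | zero => intro g; rw [mul_zero, map_zero]; exact Ideal.zero_mem _
    | add x y _ _ hx hy => intro g; rw [mul_add, map_add]; exact Ideal.add_mem _ (hx g) (hy g)
    | smul a x _ hx => intro g; rw [smul_eq_mul, ← mul_assoc]; exact hx _
  have := key _ h 1
  rwa [one_mul, hRm] at this

/-- (2.2) -/
theorem DET.incl {a : J → E} {e : J' → J} {c : I → E} (h : DET k a e c) {b : J → E'}
    {c' : I → E'} (hab : SameRel k a b)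
    (hc : SameRel k (Sum.elim (a ∘ e) c) (Sum.elim (b ∘ e) c')) :
    Incl k (Sum.elim a c) (Sum.elim b c') := by
  obtain ⟨φ, hφ⟩ := hab.exists_hom
  obtain ⟨ψ, hψ⟩ := hc.exists_hom
  have hle : fld k (a ∘ e) ≤ fld k a := d1_fld_le a e
  have hle2 : fld k (a ∘ e) ≤ fld k (Sum.elim (a ∘ e) c) :=
    IntermediateField.adjoin.mono k _ _ (by
      rintro _ ⟨j, rfl⟩
      exact ⟨Sum.inl j, rfl⟩)
  -- the two homomorphisms agree
  have hagree : φ.comp (IntermediateField.inclusion hle) =
      ψ.comp (IntermediateField.inclusion hle2) := by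
    refine IntermediateField.adjoin_algHom_ext k ?_
    rintro x ⟨j, rfl⟩
    exact (hφ (e j)).trans (hψ (Sum.inl j)).symm
  intro P hP
  -- the polynomial over the field of `a`
  let Φ : MvPolynomial (J ⊕ I) k →ₐ[k] MvPolynomial I (fld k a) :=
    aeval (Sum.elim (fun j => C ⟨a j, IntermediateField.subset_adjoin _ _ ⟨j, rfl⟩⟩) X)
  have h1 : ∀ Q : MvPolynomial (J ⊕ I) k, aeval c (Φ Q) = aeval (Sum.elim a c) Q := by
    intro Q
    have : ((aeval c : MvPolynomial I (fld k a) →ₐ[fld k a] E).restrictScalars k).comp Φ =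
        aeval (Sum.elim a c) := by
      apply MvPolynomial.algHom_ext
      rintro (j | i)
      · simp [Φ]
      · simp [Φ]
    exact congrArg (fun f => f Q) this
  have h2 : ∀ Q : MvPolynomial (J ⊕ I) k,
      eval₂ φ.toRingHom c' (Φ Q) = aeval (Sum.elim b c') Q := by
    intro Q
    induction Q using MvPolynomial.induction_on with
    | C r =>
      simp only [aeval_C]
      have : Φ (C r) = C (algebraMap k (fld k a) r) := by
        simp only [Φ, aeval_C]
        rfl
      rw [this, eval₂_C]
      exact φ.commutes r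
    | add p q hp hq => rw [map_add, eval₂_add, hp, hq, map_add]
    | mul_X p v hp =>
      rw [map_mul, eval₂_mul, hp, map_mul]
      congr 1
      rcases v with j | i
      · simp only [Φ, aeval_X, Sum.elim_inl, eval₂_C]
        exact hφ j
      · simp only [Φ, aeval_X, Sum.elim_inr, eval₂_X]
  rw [← h2]
  have h3 : aeval c (Φ P) = 0 := by rw [h1, hP]
  have h4 : MvPolynomial.map (algebraMap (fld k a) E) (Φ P) ∈ relIdeal k (a ∘ e) c :=
    h (Ideal.subset_span ⟨_, h3, rfl⟩)
  let S : Set (MvPolynomial I (fld k a)) :=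
    {f | ∃ Q : MvPolynomial I (fld k (a ∘ e)), aeval c Q = 0 ∧
      f = MvPolynomial.map (IntermediateField.inclusion hle).toRingHom Q}
  have h5 : Φ P ∈ Ideal.span S := by
    apply mem_span_of_map_mem (K := E)
    refine Ideal.span_mono ?_ h4
    rintro f ⟨Q, hQ, rfl⟩
    refine ⟨_, ⟨Q, hQ, rfl⟩, ?_⟩
    rw [MvPolynomial.map_map]
    rfl
  -- evaluate
  have h6 : ∀ f ∈ Ideal.span S, eval₂ φ.toRingHom c' f = 0 := by
    intro f hf
    induction hf using Submodule.span_induction with
    | mem f hf =>
      obtain ⟨Q, hQ, rfl⟩ := hf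
      rw [eval₂_map]
      have e1 : φ.toRingHom.comp (IntermediateField.inclusion hle).toRingHom =
          ψ.toRingHom.comp (IntermediateField.inclusion hle2).toRingHom :=
        congrArg AlgHom.toRingHom hagree
      have e2 : eval₂ (φ.toRingHom.comp (IntermediateField.inclusion hle).toRingHom) c' Q =
          ψ (eval₂ (IntermediateField.inclusion hle2).toRingHom
            (fun i => (⟨c i, IntermediateField.subset_adjoin _ _ ⟨Sum.inr i, rfl⟩⟩ :
              fld k (Sum.elim (a ∘ e) c))) Q) := by
        rw [e1]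
        have := MvPolynomial.eval₂_comp_left ψ.toRingHom
          (IntermediateField.inclusion hle2).toRingHom
          (fun i => (⟨c i, IntermediateField.subset_adjoin _ _ ⟨Sum.inr i, rfl⟩⟩ :
              fld k (Sum.elim (a ∘ e) c))) Q
        refine Eq.trans ?_ this.symm
        congr 1
        funext i
        exact (hψ (Sum.inr i)).symm
      rw [e2]
      have e3 : (eval₂ (IntermediateField.inclusion hle2).toRingHom
            (fun i => (⟨c i, IntermediateField.subset_adjoin _ _ ⟨Sum.inr i, rfl⟩⟩ :
              fld k (Sum.elim (a ∘ e) c))) Q) = 0 := by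
        apply Subtype.ext
        have := MvPolynomial.eval₂_comp_left (fld k (Sum.elim (a ∘ e) c)).val.toRingHom
          (IntermediateField.inclusion hle2).toRingHom
          (fun i => (⟨c i, IntermediateField.subset_adjoin _ _ ⟨Sum.inr i, rfl⟩⟩ :
              fld k (Sum.elim (a ∘ e) c))) Q
        refine Eq.trans this ?_
        exact hQ
      rw [e3, map_zero]
    | zero => rw [eval₂_zero]
    | add x y _ _ hx hy => rw [eval₂_add, hx, hy, add_zero]
    | smul a x _ hx => rw [smul_eq_mul, eval₂_mul, hx, mul_zero]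
  exact h6 _ h5

end Pool.Agent.ORG
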