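import Pool.Agent.ORG.Defs
import Pool.Agent.ORG.F1
import Pool.Agent.ORG.F2
import Pool.Agent.ORG.D1

/-!
# MP_08a057_al, ORG module D2 : (2.3) gluing of tangent vectors
(paper: /team-store/ORG_paper.md)
-/

set_option autoImplicit false

namespace Pool.Agent.ORG

open MvPolynomial

variable {k : Type} [Field k] {J J' J'' I E E' E'' : Type} [Field E] [Algebra k E] [Field E']
  [Algebra k E'] [Field E''] [Algebra k E'']

open scoped IntermediateField.algebraAdjoinAdjoin in
/-- homomorphisms of the field generated by a family into a ring -/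
theorem exists_hom_ring {B : Type} [CommRing B] [Algebra k B] {a : J → E} {β : J → B}
    (h0 : ∀ P : MvPolynomial J k, aeval a P = 0 → aeval β P = 0)
    (h1 : ∀ P : MvPolynomial J k, aeval a P ≠ 0 → IsUnit (aeval β P)) :
    ∃ φ : fld k a →ₐ[k] B, ∀ j (hj : a j ∈ fld k a), φ ⟨a j, hj⟩ = β j := by
  let φ0 : Algebra.adjoin k (Set.range a) →ₐ[k] B :=
    AlgHom.liftOfSurjective (toAdj k a) (toAdj_surj a) (aeval β) (by
      intro P hP
      rw [RingHom.mem_ker] at hP ⊢
      exact h0 P ((toAdj_eq_zero a P).mp hP))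
  have hφ0 : ∀ P, φ0 (toAdj k a P) = aeval β P := fun P => by
    simp [φ0]
  have hu : ∀ y : nonZeroDivisors (Algebra.adjoin k (Set.range a)), IsUnit (φ0 y) := by
    rintro ⟨y, hy⟩
    obtain ⟨P, rfl⟩ := toAdj_surj a y
    rw [hφ0]
    apply h1
    intro h
    exact nonZeroDivisors.ne_zero hy ((toAdj_eq_zero a P).mpr h)
  refine ⟨IsLocalization.liftAlgHom (M := nonZeroDivisors (Algebra.adjoin k (Set.range a)))
    (S := fld k a) hu, fun j hj => ?_⟩
  have h2 : (⟨a j, hj⟩ : fld k a) =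
      algebraMap (Algebra.adjoin k (Set.range a)) (fld k a)
        ⟨a j, Algebra.subset_adjoin ⟨j, rfl⟩⟩ := rfl
  have h3 : (⟨a j, Algebra.subset_adjoin ⟨j, rfl⟩⟩ : Algebra.adjoin k (Set.range a)) =
      toAdj k a (X j) := Subtype.ext (by rw [toAdj_coe, aeval_X])
  rw [h2, IsLocalization.coe_liftAlgHom, IsLocalization.lift_eq, h3]
  change φ0 _ = _
  rw [hφ0, aeval_X]

/-- the extension of relations over the big family -/
theorem DET.core {a : J → E} {e : J' → J} {c : I → E} (h : DET k a e c) {B : Type} [CommRing B]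
    [Algebra k B] (ψ : fld k a →ₐ[k] B) (Ψ : fld k (Sum.elim (a ∘ e) c) →ₐ[k] B)
    (hψ : ∀ j' (h1 : a (e j') ∈ fld k a) (h2 : a (e j') ∈ fld k (Sum.elim (a ∘ e) c)),
      ψ ⟨a (e j'), h1⟩ = Ψ ⟨a (e j'), h2⟩)
    (P : MvPolynomial I (fld k a)) (hP : aeval c P = 0) :
    eval₂ (ψ : fld k a →+* B) (fun i => Ψ ⟨c i, IntermediateField.subset_adjoin _ _
      ⟨Sum.inr i, rfl⟩⟩) P = 0 := by
  have hle1 : fld k (a ∘ e) ≤ fld k a :=
    IntermediateField.adjoin.mono _ _ _ (Set.range_comp_subset_range e a)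
  have hle2 : fld k (a ∘ e) ≤ fld k (Sum.elim (a ∘ e) c) := by
    apply IntermediateField.adjoin.mono
    rintro _ ⟨j, rfl⟩
    exact ⟨Sum.inl j, rfl⟩
  set i1 : fld k (a ∘ e) →ₐ[k] fld k a := IntermediateField.inclusion hle1
  set i2 : fld k (a ∘ e) →ₐ[k] fld k (Sum.elim (a ∘ e) c) := IntermediateField.inclusion hle2
  set S : Set (MvPolynomial I (fld k a)) :=
    {f | ∃ g : MvPolynomial I (fld k (a ∘ e)), aeval c g = 0 ∧
      f = MvPolynomial.map (i1 : fld k (a ∘ e) →+* fld k a) g} with hS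
  have hmem : P ∈ Ideal.span S := by
    apply mem_span_of_map_mem (K := E)
    have h1 : MvPolynomial.map (algebraMap (fld k a) E) P ∈ relIdeal k a c :=
      Ideal.subset_span ⟨P, hP, rfl⟩
    have h2 := h h1
    refine Ideal.span_mono ?_ h2
    rintro _ ⟨g, hg, rfl⟩
    refine ⟨MvPolynomial.map (i1 : fld k (a ∘ e) →+* fld k a) g, ⟨g, hg, rfl⟩, ?_⟩
    rw [MvPolynomial.map_map]
    rfl
  set c'' : I → B := fun i => Ψ ⟨c i, IntermediateField.subset_adjoin _ _ ⟨Sum.inr i, rfl⟩⟩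
    with hc''
  have hcomp : ψ.comp i1 = Ψ.comp i2 := by
    apply IntermediateField.adjoin_algHom_ext
    rintro _ ⟨j, rfl⟩
    exact hψ j _ _
  have hker : Ideal.span S ≤ RingHom.ker (eval₂Hom (ψ : fld k a →+* B) c'') := by
    rw [Ideal.span_le]
    rintro _ ⟨g, hg, rfl⟩
    rw [SetLike.mem_coe, RingHom.mem_ker, coe_eval₂Hom, MvPolynomial.eval₂_map]
    have h3 : (ψ : fld k a →+* B).comp (i1 : fld k (a ∘ e) →+* fld k a) =
        (Ψ : fld k (Sum.elim (a ∘ e) c) →+* B).comp
          (i2 : fld k (a ∘ e) →+* fld k (Sum.elim (a ∘ e) c)) := by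
      have := congrArg (fun f : fld k (a ∘ e) →ₐ[k] B => (f : fld k (a ∘ e) →+* B)) hcomp
      exact this
    rw [h3, hc'']
    have h4 := MvPolynomial.eval₂_comp_left (Ψ : fld k (Sum.elim (a ∘ e) c) →+* B)
      (i2 : fld k (a ∘ e) →+* fld k (Sum.elim (a ∘ e) c))
      (fun i => (⟨c i, IntermediateField.subset_adjoin _ _ ⟨Sum.inr i, rfl⟩⟩ :
        fld k (Sum.elim (a ∘ e) c))) g
    have h5 : eval₂ (i2 : fld k (a ∘ e) →+* fld k (Sum.elim (a ∘ e) c))
        (fun i => (⟨c i, IntermediateField.subset_adjoin _ _ ⟨Sum.inr i, rfl⟩⟩ :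
        fld k (Sum.elim (a ∘ e) c))) g = 0 := by
      apply Subtype.ext
      have h6 := MvPolynomial.eval₂_comp_left
        (algebraMap (fld k (Sum.elim (a ∘ e) c)) E)
        (i2 : fld k (a ∘ e) →+* fld k (Sum.elim (a ∘ e) c))
        (fun i => (⟨c i, IntermediateField.subset_adjoin _ _ ⟨Sum.inr i, rfl⟩⟩ :
          fld k (Sum.elim (a ∘ e) c))) g
      exact h6.trans hg
    rw [h5, map_zero] at h4
    exact h4.symm
  exact hker hmem

/-- (2.3) -/
theorem DET.isTan {a : J → E} {e : J' → J} {c : I → E} (h : DET k a e c) {b : J → E'}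
    {c' : I → E'} (hab : SameRel k (Sum.elim a c) (Sum.elim b c')) {ξ : J → E'} {τ : I → E'}
    (h1 : IsTan k b ξ) (h2 : IsTan k (Sum.elim (b ∘ e) c') (Sum.elim (ξ ∘ e) τ)) :
    IsTan k (Sum.elim b c') (Sum.elim ξ τ) := by
  -- the two homomorphisms to the dual numbers
  have hab1 : SameRel k a b := hab.comp Sum.inl
  have hab2 : SameRel k (Sum.elim (a ∘ e) c) (Sum.elim (b ∘ e) c') := by
    have := hab.comp (Sum.map e id)
    rwa [Sum.elim_comp_map, Sum.elim_comp_map] at this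
  obtain ⟨ψ, hψ⟩ := exists_hom_ring (k := k) (a := a) (β := dpt b ξ)
    (fun P hP => isTan_iff_dpt.mp h1 P (hab1.incl P hP)) (fun P hP => by
      rw [TrivSqZeroExt.isUnit_iff_isUnit_fst, isUnit_iff_ne_zero, aeval_dpt]
      simp only [TrivSqZeroExt.fst_add, TrivSqZeroExt.fst_inl, TrivSqZeroExt.fst_inr, add_zero]
      exact fun h0 => hP (hab1.symm.incl P h0))
  obtain ⟨Ψ, hΨ⟩ := exists_hom_ring (k := k) (a := Sum.elim (a ∘ e) c)
    (β := dpt (Sum.elim (b ∘ e) c') (Sum.elim (ξ ∘ e) τ))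
    (fun P hP => isTan_iff_dpt.mp h2 P (hab2.incl P hP)) (fun P hP => by
      rw [TrivSqZeroExt.isUnit_iff_isUnit_fst, isUnit_iff_ne_zero, aeval_dpt]
      simp only [TrivSqZeroExt.fst_add, TrivSqZeroExt.fst_inl, TrivSqZeroExt.fst_inr, add_zero]
      exact fun h0 => hP (hab2.symm.incl P h0))
  rw [isTan_iff_dpt]
  intro Q hQ
  have hQ' : aeval (Sum.elim a c) Q = 0 := hab.symm.incl Q hQ
  -- `Q` as a polynomial in the letters of `c` over `fld k a`
  let a' : J → fld k a := fun j => ⟨a j, IntermediateField.subset_adjoin _ _ ⟨j, rfl⟩⟩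
  let P : MvPolynomial I (fld k a) :=
    aeval (Sum.elim (fun j => C (a' j)) X : J ⊕ I → MvPolynomial I (fld k a)) Q
  have hP : aeval c P = 0 := by
    have : (aeval c : MvPolynomial I (fld k a) →ₐ[fld k a] E) P = aeval (Sum.elim a c) Q := by
      have h3 : ((aeval c : MvPolynomial I (fld k a) →ₐ[fld k a] E).restrictScalars k).comp
          (aeval (Sum.elim (fun j => C (a' j)) X : J ⊕ I → MvPolynomial I (fld k a))) =
          aeval (Sum.elim a c) := by
        apply MvPolynomial.algHom_ext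
        rintro (j | i)
        · simp [a']
        · simp
      exact congrArg (fun f => f Q) h3
    rw [this, hQ']
  have hcore := h.core ψ Ψ (fun j' m1 m2 => by
    rw [hψ (e j') m1]
    exact (hΨ (Sum.inl j') m2).symm) P hP
  rw [← hcore]
  have h4 : (eval₂Hom (ψ : fld k a →+* TrivSqZeroExt E' E')
      (fun i => Ψ ⟨c i, IntermediateField.subset_adjoin _ _ ⟨Sum.inr i, rfl⟩⟩)).comp
      ((aeval (Sum.elim (fun j => C (a' j)) X : J ⊕ I → MvPolynomial I (fld k a)) :
        MvPolynomial (J ⊕ I) k →ₐ[k] MvPolynomial I (fld k a)) :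
        MvPolynomial (J ⊕ I) k →+* MvPolynomial I (fld k a)) =
      ((aeval (dpt (Sum.elim b c') (Sum.elim ξ τ)) :
        MvPolynomial (J ⊕ I) k →ₐ[k] TrivSqZeroExt E' E') :
        MvPolynomial (J ⊕ I) k →+* TrivSqZeroExt E' E') := by
    apply MvPolynomial.ringHom_ext
    · intro r
      simp only [RingHom.coe_comp, RingHom.coe_coe, Function.comp_apply, algHom_C]
      rw [MvPolynomial.algebraMap_apply]
      simp only [coe_eval₂Hom, eval₂_C, RingHom.coe_coe]
      exact ψ.commutes r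
    · rintro (j | i)
      · simp only [RingHom.coe_comp, RingHom.coe_coe, Function.comp_apply, aeval_X,
          Sum.elim_inl, coe_eval₂Hom, eval₂_C]
        exact hψ j _
      · simp only [RingHom.coe_comp, RingHom.coe_coe, Function.comp_apply, aeval_X,
          Sum.elim_inr, coe_eval₂Hom, eval₂_X]
        exact hΨ (Sum.inr i) _
  exact (congrArg (fun f => f Q) h4).symm

end Pool.Agent.ORG
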