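import Pool.Agent.ORG.Defs
import Pool.Agent.ORG.F1

/-!
# MP_08a057_al, ORG : transcendence degrees of families through the matroid of algebraic
independence (used by F3, F4)
-/

set_option autoImplicit false

namespace Pool.Agent.ORG

open MvPolynomial

variable {k : Type} [Field k] {J J' J'' I E E' : Type} [Field E] [Algebra k E]
  [Field E'] [Algebra k E']

/-- the matroid of algebraic independence -/
noncomputable abbrev AM (k E : Type) [Field k] [Field E] [Algebra k E] : Matroid E :=
  AlgebraicIndependent.matroid k E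

theorem fld_subset_closure (s : Set E) :
    (IntermediateField.adjoin k s : Set E) ⊆ (AM k E).closure s := by
  rw [AlgebraicIndependent.matroid_closure_eq]
  intro x hx
  obtain ⟨r, hr, t, ht, rfl⟩ := (IntermediateField.mem_adjoin_iff_div).mp hx
  rw [SetLike.mem_coe, Subalgebra.mem_algebraicClosure]
  have h1 : IsAlgebraic (Algebra.adjoin k s) r :=
    isAlgebraic_algebraMap (⟨r, hr⟩ : Algebra.adjoin k s)
  have h2 : IsAlgebraic (Algebra.adjoin k s) t :=
    isAlgebraic_algebraMap (⟨t, ht⟩ : Algebra.adjoin k s)
  rw [div_eq_mul_inv]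
  exact h1.mul h2.inv

theorem toENat_trdeg_fld (b : J → E) :
    Cardinal.toENat (Algebra.trdeg k (fld k b)) = (AM k E).eRk (Set.range b) := by
  obtain ⟨B, hB⟩ := (AM k E).exists_isBasis (Set.range b) (Set.subset_univ _)
  have hBi : AlgebraicIndepOn k id B := hB.indep
  have hBsub : B ⊆ Set.range b := hB.subset
  have hBf : B ⊆ (fld k b : Set E) := hBsub.trans (IntermediateField.subset_adjoin _ _)
  let v : B → fld k b := fun x => ⟨x, hBf x.2⟩
  have hv : AlgebraicIndependent k v :=
    AlgebraicIndependent.of_comp (fld k b).val (show AlgebraicIndependent k _ from hBi)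
  have htb : IsTranscendenceBasis k v := by
    refine ⟨hv, fun s hs hvs => ?_⟩
    apply subset_antisymm hvs
    have hs' : (AM k E).Indep ((fld k b).val '' s) := by
      rw [AlgebraicIndependent.matroid_indep_iff]
      have : AlgebraicIndependent k (fun x : s => (fld k b).val x) :=
        (AlgebraicIndependent.map' (f := (fld k b).val) hs Subtype.val_injective)
      have h2 := this.coe_range
      have h3 : Set.range (fun x : s => (fld k b).val x) = (fld k b).val '' s := by
        ext x; simp
      rw [h3] at h2
      exact h2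
    have hsub : B ⊆ (fld k b).val '' s := by
      intro x hx
      exact ⟨v ⟨x, hx⟩, hvs ⟨⟨x, hx⟩, rfl⟩, rfl⟩
    have hcl : (fld k b).val '' s ⊆ (AM k E).closure B := by
      rintro _ ⟨x, _, rfl⟩
      rw [hB.closure_eq_closure]
      exact fld_subset_closure _ x.2
    have := hB.indep.isBasis_closure.eq_of_subset_indep hs' hsub hcl
    intro x hx
    have hx' : (x : E) ∈ B := by rw [this]; exact ⟨x, hx, rfl⟩
    exact ⟨⟨x, hx'⟩, Subtype.ext rfl⟩
  rw [← htb.cardinalMk_eq_trdeg, hB.eRk_eq_encard]
  rfl

theorem trd_eq_toNat (b : J → E) : trd k b = ((AM k E).eRk (Set.range b)).toNat := by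
  rw [← toENat_trdeg_fld]
  rfl

theorem trd_cast {b : J → E} (hb : (Set.range b).Finite) :
    ((trd k b : ℕ) : ℕ∞) = (AM k E).eRk (Set.range b) := by
  rw [trd_eq_toNat]
  apply ENat.natCast_toNat
  have := (AM k E).eRk_le_encard (Set.range b)
  exact ne_top_of_le_ne_top (Set.encard_ne_top_iff.mpr hb) this

end Pool.Agent.ORG
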