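import Pool.Agent.ORG.Defs
import Pool.Agent.ORG.F1
import Pool.Agent.ORG.F2
import Pool.Agent.ORG.FM

/-!
# MP_08a057_al, ORG module F3 : (1.2) dimension of the space of tangent vectors
(paper: /team-store/ORG_paper.md)
-/

set_option autoImplicit false

namespace Pool.Agent.ORG

open MvPolynomial

variable {k : Type} [Field k] {J J' J'' I E E' E'' : Type} [Field E] [Algebra k E] [Field E']
  [Algebra k E'] [Field E''] [Algebra k E'']

/-- the constants of a derivation -/
def constField (D : Derivation k E E) : IntermediateField k E where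
  carrier := {x | D x = 0}
  mul_mem' := by
    intro x y hx hy
    simp only [Set.mem_ofPred_eq] at hx hy ⊢
    rw [Derivation.leibniz, hx, hy]
    simp
  one_mem' := by simp
  add_mem' := by
    intro x y hx hy
    simp only [Set.mem_ofPred_eq] at hx hy ⊢
    rw [map_add, hx, hy, add_zero]
  zero_mem' := by simp
  algebraMap_mem' := by
    intro r
    simp
  inv_mem' := by
    intro x hx
    simp only [Set.mem_ofPred_eq] at hx ⊢
    rw [Derivation.leibniz_inv, hx]
    simp

/-- a derivation vanishing on `B` vanishes on everything algebraic over `B` -/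
theorem der_eq_zero [CharZero k] (D : Derivation k E E) {B : Set E} (hB : ∀ x ∈ B, D x = 0)
    {y : E} (hy : IsAlgebraic (Algebra.adjoin k B) y) : D y = 0 := by
  have hle : Algebra.adjoin k B ≤ (constField D).toSubalgebra :=
    Algebra.adjoin_le hB
  have hy' : IsAlgebraic (constField D) y := by
    obtain ⟨p, hp, hpy⟩ := hy
    let f : Algebra.adjoin k B →+* constField D := (Subalgebra.inclusion hle).toRingHom
    have hf : Function.Injective f := Subalgebra.inclusion_injective hle
    refine ⟨p.map f, ?_, ?_⟩
    · rwa [Ne, Polynomial.map_eq_zero_iff hf]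
    · rw [Polynomial.aeval_def, Polynomial.eval₂_map]
      exact hpy
  have : CharZero (constField D) := charZero_of_injective_algebraMap
    (algebraMap k (constField D)).injective
  let D' : Derivation (constField D) E E := Derivation.mk'
    { toFun := D
      map_add' := fun x y => map_add D x y
      map_smul' := by
        intro c x
        have hc : D (c : E) = 0 := c.2
        rw [Algebra.smul_def, Algebra.smul_def]
        change D ((c : E) * x) = (c : E) * D x
        rw [Derivation.leibniz, hc]
        simp } (by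
    intro x y
    exact Derivation.leibniz D x y)
  have hint : IsIntegral (constField D) y := hy'.isIntegral
  have hsep := (minpoly.irreducible hint).separable
  have h1 : D' (Polynomial.aeval y (minpoly (constField D) y)) =
      Polynomial.aeval y (Polynomial.derivative (minpoly (constField D) y)) • D' y :=
    Derivation.map_aeval D' _ _
  rw [minpoly.aeval, map_zero] at h1
  have h2 := hsep.aeval_derivative_ne_zero (minpoly.aeval (constField D) y)
  have h3 : D' y = 0 := by
    rcases smul_eq_zero.mp h1.symm with h | h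
    · exact absurd h h2
    · exact h
  exact h3

/-- tangent vectors are determined freely on a transcendence basis -/
theorem exists_tan_equiv [CharZero k] (b : J → E) :
    ∃ (B : Set E), (AM k E).IsBasis B (Set.range b) ∧
      Nonempty ((Tan k b) ≃ₗ[E] (B → E)) := by
  obtain ⟨B, hB⟩ := (AM k E).exists_isBasis (Set.range b) (Set.subset_univ _)
  have hBi : AlgebraicIndepOn k id B := hB.indep
  choose j hj using fun x : B => hB.subset x.2
  refine ⟨B, hB, ?_⟩
  have hbj : AlgebraicIndependent k (b ∘ j) := by
    have : b ∘ j = fun x : B => id (x : E) := funext hj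
    rw [this]; exact hBi
  let R : Tan k b →ₗ[E] (B → E) := (LinearMap.funLeft E E j).comp (Tan k b).subtype
  refine ⟨LinearEquiv.ofBijective R ⟨?_, ?_⟩⟩
  · rw [injective_iff_map_eq_zero]
    rintro ⟨ξ, hξ⟩ h0
    have hξ' : IsTan k b ξ := hξ
    obtain ⟨D, hD⟩ := isTan_iff.mp hξ'
    have hDB : ∀ x ∈ B, D x = 0 := by
      intro x hx
      have h1 : ξ (j ⟨x, hx⟩) = 0 := congrFun h0 ⟨x, hx⟩
      rw [← hD, hj] at h1
      exact h1
    apply Subtype.ext
    funext i
    change ξ i = 0
    rw [← hD]
    apply der_eq_zero D hDB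
    exact (AlgebraicIndependent.matroid_isBasis_iff.mp hB).2.2 _ ⟨i, rfl⟩
  · intro f
    have hf : IsTan k (b ∘ j) f := by
      intro P hP
      have : P = 0 := (algebraicIndependent_iff.mp hbj) P hP
      subst this
      simp [dvec]
    obtain ⟨ξ, hξ, he⟩ := exists_isTan_extend j hf
    exact ⟨⟨ξ, hξ⟩, he⟩

theorem finite_Tan [CharZero k] (b : J → E) (hb : (Set.range b).Finite) :
    Module.Finite E (Tan k b) := by
  obtain ⟨B, hB, ⟨e⟩⟩ := exists_tan_equiv (k := k) b
  have : Finite B := hb.subset hB.subset
  exact Module.Finite.equiv e.symm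

theorem finrank_Tan [CharZero k] (b : J → E) (hb : (Set.range b).Finite) :
    Module.finrank E (Tan k b) = trd k b := by
  obtain ⟨B, hB, ⟨e⟩⟩ := exists_tan_equiv (k := k) b
  have hf : Finite B := hb.subset hB.subset
  have := Fintype.ofFinite B
  rw [e.finrank_eq, Module.finrank_fintype_fun_eq_card, trd_eq_toNat, hB.eRk_eq_encard,
    ← Nat.card_eq_fintype_card, Nat.card_coe_set_eq]
  rfl

theorem finrank_Tan_ker [CharZero k] (b : J → E) (hb : (Set.range b).Finite) (e : J' → J) :
    Module.finrank E ↥(Tan k b ⊓ LinearMap.ker (LinearMap.funLeft E E e)) + trd k (b ∘ e)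
      = trd k b := by
  have hbe : (Set.range (b ∘ e)).Finite := hb.subset (Set.range_comp_subset_range e b)
  have hfin := finite_Tan (k := k) b hb
  let R : Tan k b →ₗ[E] Tan k (b ∘ e) :=
    ((LinearMap.funLeft E E e).comp (Tan k b).subtype).codRestrict _ (fun ξ => by
      have : IsTan k b ξ := ξ.2
      exact this.comp e)
  have hR : Function.Surjective R := by
    rintro ⟨ξ', hξ'⟩
    obtain ⟨ξ, hξ, he⟩ := exists_isTan_extend e (show IsTan k (b ∘ e) ξ' from hξ')
    exact ⟨⟨ξ, hξ⟩, Subtype.ext he⟩
  have h1 := R.finrank_range_add_finrank_ker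
  rw [LinearMap.range_eq_top.mpr hR, finrank_top, finrank_Tan _ hbe, finrank_Tan _ hb] at h1
  have h2 : Module.finrank E (LinearMap.ker R) =
      Module.finrank E ↥(Tan k b ⊓ LinearMap.ker (LinearMap.funLeft E E e)) := by
    apply LinearEquiv.finrank_eq
    refine LinearEquiv.ofBijective
      (((Tan k b).subtype.comp (LinearMap.ker R).subtype).codRestrict _ (fun ξ => ?_)) ⟨?_, ?_⟩
    · refine ⟨ξ.1.2, ?_⟩
      have h3 : R ξ.1 = 0 := ξ.2
      have h4 := congrArg Subtype.val h3
      exact h4
    · intro x y hxy
      apply Subtype.ext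
      apply Subtype.ext
      have h5 := congrArg Subtype.val hxy
      exact h5
    · rintro ⟨ξ, hξ1, hξ2⟩
      refine ⟨⟨⟨ξ, hξ1⟩, ?_⟩, ?_⟩
      · exact Subtype.ext hξ2
      · rfl
  omega

end Pool.Agent.ORG
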