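import Pool.Agent.ORG.Defs
import Pool.Agent.ORG.F1
import Pool.Agent.ORG.F2
import Pool.Agent.ORG.F3
import Pool.Agent.ORG.D1
import Pool.Agent.ORG.D2

/-!
# MP_08a057_al, ORG module D3 : (2.4) ranks
(paper: /team-store/ORG_paper.md)
-/

set_option autoImplicit false

namespace Pool.Agent.ORG

open MvPolynomial

variable {k : Type} [Field k] {J J' J'' I E E' E'' : Type} [Field E] [Algebra k E] [Field E']
  [Algebra k E'] [Field E''] [Algebra k E'']

/-- (2.4) -/
theorem DET.trd_eq [CharZero k] {a : J → E} {e : J' → J} {c : I → E} (h : DET k a e c)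
    (ha : (Set.range a).Finite) (hc : (Set.range c).Finite) :
    trd k (Sum.elim a c) + trd k (a ∘ e) = trd k a + trd k (Sum.elim (a ∘ e) c) := by
  have hb1 : (Set.range (Sum.elim a c)).Finite := by
    rw [Set.Sum.elim_range]; exact ha.union hc
  have hae : (Set.range (a ∘ e)).Finite := ha.subset (Set.range_comp_subset_range e a)
  have hb2 : (Set.range (Sum.elim (a ∘ e) c)).Finite := by
    rw [Set.Sum.elim_range]; exact hae.union hc
  have h1 := finrank_Tan_ker (k := k) (Sum.elim a c) hb1 (Sum.inl : J → J ⊕ I)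
  have h2 := finrank_Tan_ker (k := k) (Sum.elim (a ∘ e) c) hb2 (Sum.inl : J' → J' ⊕ I)
  rw [Sum.elim_comp_inl] at h1 h2
  -- the common description of the kernels
  have k1 : ∀ τ : I → E, IsTan k (Sum.elim a c) (Sum.elim 0 τ) ↔
      IsTan k (Sum.elim (a ∘ e) c) (Sum.elim 0 τ) := by
    intro τ
    constructor
    · intro ht
      have := ht.comp (Sum.map e (id : I → I))
      rwa [Sum.elim_comp_map, Sum.elim_comp_map, Function.comp_id, Function.comp_id] at this
    · intro ht
      refine h.isTan (SameRel.refl _) ((Tan k a).zero_mem : IsTan k a 0) ?_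
      exact ht
  have key : Module.finrank E ↥(Tan k (Sum.elim a c) ⊓
      LinearMap.ker (LinearMap.funLeft E E (Sum.inl : J → J ⊕ I))) =
      Module.finrank E ↥(Tan k (Sum.elim (a ∘ e) c) ⊓
      LinearMap.ker (LinearMap.funLeft E E (Sum.inl : J' → J' ⊕ I))) := by
    have el1 : ∀ ξ : J ⊕ I → E, (LinearMap.funLeft E E (Sum.inl : J → J ⊕ I)) ξ = 0 →
        ξ = Sum.elim (0 : J → E) (ξ ∘ Sum.inr) := by
      intro ξ hξ
      funext v
      rcases v with j | i
      · exact congrFun hξ j
      · rfl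
    have el2 : ∀ ξ : J' ⊕ I → E, (LinearMap.funLeft E E (Sum.inl : J' → J' ⊕ I)) ξ = 0 →
        ξ = Sum.elim (0 : J' → E) (ξ ∘ Sum.inr) := by
      intro ξ hξ
      funext v
      rcases v with j | i
      · exact congrFun hξ j
      · rfl
    refine LinearEquiv.finrank_eq
      { toFun := fun ξ => ⟨Sum.elim 0 ((ξ : J ⊕ I → E) ∘ Sum.inr), ?_, ?_⟩
        invFun := fun ξ => ⟨Sum.elim 0 ((ξ : J' ⊕ I → E) ∘ Sum.inr), ?_, ?_⟩
        map_add' := ?_
        map_smul' := ?_
        left_inv := ?_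
        right_inv := ?_ }
    · have hξ := ξ.2.1
      rw [el1 ξ ξ.2.2] at hξ
      exact (k1 _).1 hξ
    · exact LinearMap.mem_ker.2 (by funext j; rfl)
    · rintro ⟨ξ, hξ⟩ ⟨η, hη⟩
      apply Subtype.ext
      funext v
      rcases v with j | i
      · show (0 : E) = 0 + 0
        rw [add_zero]
      · rfl
    · rintro r ⟨ξ, hξ⟩
      apply Subtype.ext
      funext v
      rcases v with j | i
      · show (0 : E) = r • 0
        rw [smul_zero]
      · rfl
    · have hξ := ξ.2.1
      rw [el2 ξ ξ.2.2] at hξ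
      exact (k1 _).2 hξ
    · exact LinearMap.mem_ker.2 (by funext j; rfl)
    · rintro ⟨ξ, hξ⟩
      apply Subtype.ext
      exact (el1 ξ hξ.2).symm
    · rintro ⟨ξ, hξ⟩
      apply Subtype.ext
      exact (el2 ξ hξ.2).symm
  omega

end Pool.Agent.ORG
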