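import Pool.Agent.ORG.Defs
import Pool.Agent.ORG.F1
import Pool.Agent.ORG.F3
import Pool.Agent.ORG.F4
import Pool.Agent.ORG.D1
import Pool.Agent.ORG.D2
import Pool.Agent.ORG.D3
import Pool.Agent.ORG.S1

/-!
# MP_08a057_al, ORG module S2 : site level: determination
(paper: /team-store/ORG_paper.md)
-/

set_option autoImplicit false

namespace Pool.Agent.ORG

open MvPolynomial

variable {k : Type} [Field k] {Γ I E E' : Type} [AddCommGroup Γ] [Field E] [Algebra k E]
  [Field E'] [Algebra k E']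

open Sys

/-! ### auxiliary maps between index types -/

/-- inclusion of index types -/
def s2inc {A B : Set Γ} (h : A ⊆ B) : Ix I A → Ix I B := fun v => ⟨v.1, h v.2⟩

/-- indices over `A ∪ {s}` -/
def s2sum (A : Set Γ) (s : Γ) : Ix I A ⊕ I → Ix I (A ∪ {s}) :=
  Sum.elim (fun v => ⟨v.1, Or.inl v.2⟩) (fun i => ⟨(s, i), Or.inr rfl⟩)

theorem s2sum_surjective (A : Set Γ) (s : Γ) : Function.Surjective (s2sum (I := I) A s) := by
  rintro ⟨v, hv | hv⟩
  · exact ⟨Sum.inl ⟨v, hv⟩, rfl⟩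
  · refine ⟨Sum.inr v.2, ?_⟩
    apply Subtype.ext
    exact Prod.ext (Set.mem_singleton_iff.1 hv).symm rfl

theorem res_s2sum {F : Type} (x : Γ × I → F) (A : Set Γ) (s : Γ) :
    res x (A ∪ {s}) ∘ s2sum A s = Sum.elim (res x A) (fun i => x (s, i)) := by
  funext v
  cases v <;> rfl

theorem res_s2inc {F : Type} (x : Γ × I → F) {A B : Set Γ} (h : A ⊆ B) :
    res x B ∘ s2inc h = res x A := rfl

theorem range_res_s2sum {F : Type} (x : Γ × I → F) (A : Set Γ) (s : Γ) :
    Set.range (Sum.elim (res x A) (fun i => x (s, i))) = Set.range (res x (A ∪ {s})) := by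
  rw [← res_s2sum, Set.range_comp, (s2sum_surjective A s).range_eq, Set.image_univ]

theorem relAt_mono (Z : Sys k Γ I) (s : Γ) {A B : Set Γ} (h : A ⊆ B) :
    Z.relAt s A ≤ Z.relAt s B :=
  relIdeal_mono (res Z.z B) (s2inc h) (fun i => Z.z (s, i))

theorem Det.mono {Z : Sys k Γ I} {s : Γ} {A A' N N' : Set Γ} (h : Z.Det s A N) (h1 : N ⊆ N')
    (h2 : A' ⊆ A) : Z.Det s A' N' :=
  (relAt_mono Z s h2).trans (h.trans (relAt_mono Z s h1))

/-! ### translations -/

theorem s2_relIdeal_eq {J : Type} (a : J → E) (c : I → E) :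
    relIdeal k a c = Ideal.span {f : MvPolynomial I E | (∀ m, f.coeff m ∈ fld k a) ∧
      MvPolynomial.eval c f = 0} := by
  unfold relIdeal
  congr 1
  ext f
  constructor
  · rintro ⟨P, h1, rfl⟩
    refine ⟨fun m => ?_, ?_⟩
    · rw [MvPolynomial.coeff_map]
      exact (P.coeff m).2
    · rw [MvPolynomial.eval_map]
      exact h1
  · rintro ⟨h1, h2⟩
    have h3 : f ∈ Set.range (MvPolynomial.map (σ := I) (algebraMap (fld k a) E)) := by
      rw [← RingHom.coe_range]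
      refine SetLike.mem_coe.2 (MvPolynomial.mem_range_map_iff_coeffs_subset.2 ?_)
      intro y hy
      obtain ⟨m, -, rfl⟩ := MvPolynomial.mem_coeffs_iff.1 hy
      exact ⟨⟨_, h1 m⟩, rfl⟩
    obtain ⟨P, rfl⟩ := h3
    refine ⟨P, ?_, rfl⟩
    rw [MvPolynomial.eval_map] at h2
    exact h2

theorem s2_relIdeal_congr {J J' : Type} {a : J → E} {b : J' → E}
    (h : Set.range a = Set.range b) (c : I → E) : relIdeal k a c = relIdeal k b c := by
  rw [s2_relIdeal_eq, s2_relIdeal_eq]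
  unfold fld
  rw [h]

theorem s2_relIdeal_map {J : Type} (σ : E ≃ₐ[k] E) (a : J → E) (c : I → E) :
    Ideal.map (MvPolynomial.map (σ : E →+* E)) (relIdeal k a c) ≤
      relIdeal k (fun j => σ (a j)) (fun i => σ (c i)) := by
  rw [s2_relIdeal_eq, s2_relIdeal_eq, Ideal.map_span]
  refine Ideal.span_mono ?_
  rintro _ ⟨f, ⟨h1, h2⟩, rfl⟩
  refine ⟨fun m => ?_, ?_⟩
  · rw [MvPolynomial.coeff_map]
    have h3 : (fld k a).map (σ : E →ₐ[k] E) = fld k (fun j => σ (a j)) := by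
      unfold fld
      rw [IntermediateField.adjoin_map, ← Set.range_comp]
      rfl
    rw [← h3]
    exact ⟨_, h1 m, rfl⟩
  · have h3 : MvPolynomial.eval (fun i => σ (c i)) (MvPolynomial.map (σ : E →+* E) f) =
        (σ : E →+* E) (MvPolynomial.eval c f) := by
      rw [MvPolynomial.eval_map, MvPolynomial.eval₂_eq, MvPolynomial.eval_eq, map_sum]
      refine Finset.sum_congr rfl fun m _ => ?_
      rw [map_mul, map_prod]
      congr 1
      refine Finset.prod_congr rfl fun i _ => ?_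
      rw [map_pow]
      rfl
    show MvPolynomial.eval (fun i => σ (c i)) (MvPolynomial.map (σ : E →+* E) f) = 0
    rw [h3, h2, map_zero]

theorem s2_relIdeal_le {J J' : Type} (σ : E ≃ₐ[k] E) (a : J → E) (b : J' → E) (c : I → E)
    (h : relIdeal k a c ≤ relIdeal k b c) :
    relIdeal k (fun j => σ (a j)) (fun i => σ (c i)) ≤
      relIdeal k (fun j => σ (b j)) (fun i => σ (c i)) := by
  intro f hf
  have h1 := s2_relIdeal_map σ.symm (fun j => σ (a j)) (fun i => σ (c i))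
    (Ideal.mem_map_of_mem _ hf)
  simp only [AlgEquiv.symm_apply_apply] at h1
  have h2 := s2_relIdeal_map σ b c (Ideal.mem_map_of_mem _ (h h1))
  have h3 : MvPolynomial.map (σ : E →+* E) (MvPolynomial.map (σ.symm : E →+* E) f) = f := by
    rw [MvPolynomial.map_map]
    have : (σ : E →+* E).comp (σ.symm : E →+* E) = RingHom.id E := by
      ext y
      simp
    rw [this, MvPolynomial.map_id]
  rwa [h3] at h2

theorem s2_range_tr (Z : Sys k Γ I) (γ : Γ) (A : Set Γ) :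
    Set.range (fun j => Z.α (Multiplicative.ofAdd γ) (res Z.z A j)) =
      Set.range (res Z.z (tr γ A)) := by
  ext y
  constructor
  · rintro ⟨v, rfl⟩
    refine ⟨⟨(γ + v.1.1, v.1.2), ?_⟩, ?_⟩
    · show γ + v.1.1 - γ ∈ A
      rw [add_sub_cancel_left]
      exact v.2
    · exact (Z_z_shift Z γ v.1).symm
  · rintro ⟨v, rfl⟩
    refine ⟨⟨(v.1.1 - γ, v.1.2), v.2⟩, ?_⟩
    show Z.α (Multiplicative.ofAdd γ) (Z.z (v.1.1 - γ, v.1.2)) = Z.z v.1
    rw [Z_z_shift]
    show Z.z (γ + (v.1.1 - γ), v.1.2) = Z.z v.1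
    rw [add_sub_cancel]

theorem s2_relAt_tr (Z : Sys k Γ I) (γ s : Γ) (A : Set Γ) :
    Z.relAt (γ + s) (tr γ A) = relIdeal k
      (fun j => Z.α (Multiplicative.ofAdd γ) (res Z.z A j))
      (fun i => Z.α (Multiplicative.ofAdd γ) (Z.z (s, i))) := by
  have h : (fun i => Z.α (Multiplicative.ofAdd γ) (Z.z (s, i))) = fun i => Z.z (γ + s, i) := by
    funext i
    exact Z_z_shift Z γ (s, i)
  rw [h, s2_relIdeal_congr (s2_range_tr Z γ A)]
  rfl

theorem s2_det_tr {Z : Sys k Γ I} {s : Γ} {A N : Set Γ} (γ : Γ) (h : Z.Det s A N) :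
    Z.Det (γ + s) (tr γ A) (tr γ N) := by
  unfold Sys.Det
  rw [s2_relAt_tr, s2_relAt_tr]
  exact s2_relIdeal_le _ _ _ _ h

theorem s2_tr_tr (γ : Γ) (A : Set Γ) : tr (-γ) (tr γ A) = A := by
  ext u
  show u - -γ - γ ∈ A ↔ u ∈ A
  rw [sub_neg_eq_add, add_sub_cancel_right]

theorem det_tr {Z : Sys k Γ I} {s : Γ} {A N : Set Γ} (γ : Γ) :
    Z.Det (γ + s) (tr γ A) (tr γ N) ↔ Z.Det s A N := by
  constructor
  · intro h
    have h1 := s2_det_tr (-γ) h
    rwa [s2_tr_tr, s2_tr_tr, neg_add_cancel_left] at h1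
  · exact s2_det_tr γ

/-! ### gluing -/

theorem s2_DET {Z : Sys k Γ I} {s : Γ} {A N : Set Γ} (h : Z.Det s A N) (hNA : N ⊆ A) :
    DET k (res Z.z A) (s2inc hNA) (fun i => Z.z (s, i)) := h

/-- (2.2) -/
theorem Det.gen [Finite I] {Z : Sys k Γ I} {s : Γ} {A N : Set Γ} (h : Z.Det s A N) (hNA : N ⊆ A)
    (hA : A.Finite) {x : Γ × I → E} (h1 : Z.Gen x A) (h2 : Z.Gen x (N ∪ {s}))
    (h3 : Z.r (A ∪ {s}) ≤ trdOn k x (A ∪ {s})) : Z.Gen x (A ∪ {s}) := by
  have h4 : SameRel k (Sum.elim (res Z.z N) (fun i => Z.z (s, i)))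
      (Sum.elim (res x N) (fun i => x (s, i))) := by
    have := SameRel.comp h2 (s2sum N s)
    rwa [res_s2sum, res_s2sum] at this
  have h5 : Incl k (Sum.elim (res Z.z A) (fun i => Z.z (s, i)))
      (Sum.elim (res x A) (fun i => x (s, i))) :=
    DET.incl (s2_DET h hNA) h1 h4
  rw [← res_s2sum, ← res_s2sum] at h5
  have h6 := Incl.of_surj (s2sum_surjective A s) h5
  exact Incl.sameRel h6 (finite_range_res _ (hA.union (Set.finite_singleton s))) h3

/-- (2.3) -/
theorem Det.tan {Z : Sys k Γ I} {s : Γ} {A N : Set Γ} (h : Z.Det s A N) (hNA : N ⊆ A)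
    {x ξ : Γ × I → E} (h1 : Z.Gen x (A ∪ {s})) (h2 : TanOn k x A ξ)
    (h3 : TanOn k x (N ∪ {s}) ξ) : TanOn k x (A ∪ {s}) ξ := by
  have h4 : SameRel k (Sum.elim (res Z.z A) (fun i => Z.z (s, i)))
      (Sum.elim (res x A) (fun i => x (s, i))) := by
    have := SameRel.comp h1 (s2sum A s)
    rwa [res_s2sum, res_s2sum] at this
  have h5 : IsTan k (Sum.elim (res x N) (fun i => x (s, i)))
      (Sum.elim (res ξ N) (fun i => ξ (s, i))) := by
    have := IsTan.comp h3 (s2sum N s)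
    rwa [res_s2sum, res_s2sum] at this
  have h6 : IsTan k (Sum.elim (res x A) (fun i => x (s, i)))
      (Sum.elim (res ξ A) (fun i => ξ (s, i))) :=
    DET.isTan (s2_DET h hNA) h4 h2 h5
  rw [← res_s2sum, ← res_s2sum] at h6
  exact IsTan.of_surj (s2sum_surjective A s) h6

/-- (2.4) -/
theorem Det.r_eq [CharZero k] [Finite I] {Z : Sys k Γ I} {s : Γ} {A N : Set Γ} (h : Z.Det s A N)
    (hNA : N ⊆ A) (hA : A.Finite) :
    Z.r (A ∪ {s}) + Z.r N = Z.r A + Z.r (N ∪ {s}) := by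
  have h1 := DET.trd_eq (s2_DET h hNA) (finite_range_res _ hA) (Set.finite_range _)
  have h2 : trd k (Sum.elim (res Z.z A) (fun i => Z.z (s, i))) = Z.r (A ∪ {s}) :=
    trd_congr_range (range_res_s2sum _ _ _)
  have h3 : trd k (Sum.elim (res Z.z A ∘ s2inc hNA) (fun i => Z.z (s, i))) = Z.r (N ∪ {s}) :=
    trd_congr_range (range_res_s2sum _ _ _)
  rw [h2, h3] at h1
  exact h1

/-- coset structure: the space of tangent vectors on `N ∪ {s}` vanishing on `N` -/
theorem finrank_tan_site [CharZero k] [Finite I] {Z : Sys k Γ I} {s : Γ} {N : Set Γ}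
    (hN : N.Finite) {x : Γ × I → E} (h : Z.Gen x (N ∪ {s}))
    (U : Submodule E (Γ × I → E))
    (hU : ∀ ξ, ξ ∈ U ↔ (∀ v : Γ × I, v.1 ≠ s → ξ v = 0) ∧ TanOn k x (N ∪ {s}) ξ) (hs : s ∉ N) :
    Module.finrank E U + Z.r N = Z.r (N ∪ {s}) := by
  classical
  have hfin : (Set.range (res x (N ∪ {s}))).Finite :=
    finite_range_res _ (hN.union (Set.finite_singleton s))
  set b : Ix I (N ∪ {s}) → E := res x (N ∪ {s}) with hb
  have hsub : N ⊆ N ∪ {s} := Set.subset_union_left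
  set e : Ix I N → Ix I (N ∪ {s}) := s2inc hsub with he
  have h1 := finrank_Tan_ker (k := k) b hfin e
  have h2 : trd k b = Z.r (N ∪ {s}) := Gen.trd_eq h
  have h3 : trd k (b ∘ e) = Z.r N := Gen.trd_eq (Gen.mono h hsub)
  rw [h2, h3] at h1
  rw [← h1]
  congr 1
  -- the restriction map
  let f : (Γ × I → E) →ₗ[E] (Ix I (N ∪ {s}) → E) := LinearMap.funLeft E E Subtype.val
  set W : Submodule E (Ix I (N ∪ {s}) → E) := Tan k b ⊓ LinearMap.ker (LinearMap.funLeft E E e)
    with hW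
  have hfW : ∀ ξ : U, f.domRestrict U ξ ∈ W := by
    intro ξ
    obtain ⟨h4, h5⟩ := (hU ξ).1 ξ.2
    refine ⟨h5, ?_⟩
    show (LinearMap.funLeft E E e) (f.domRestrict U ξ) = 0
    funext v
    show (ξ : Γ × I → E) v.1 = 0
    refine h4 v.1 ?_
    intro h6
    exact hs (h6 ▸ v.2)
  refine LinearEquiv.finrank_eq (LinearEquiv.ofBijective ((f.domRestrict U).codRestrict W hfW)
    ⟨?_, ?_⟩)
  · rw [← LinearMap.ker_eq_bot, LinearMap.ker_eq_bot']
    intro ξ hξ
    obtain ⟨h4, -⟩ := (hU ξ).1 ξ.2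
    apply Subtype.ext
    funext v
    by_cases hv : v.1 = s
    · have h5 := congrArg (fun g : W => (g : Ix I (N ∪ {s}) → E) ⟨v, Or.inr hv⟩) hξ
      exact h5
    · exact h4 v hv
  · rintro ⟨η, hη1, hη2⟩
    set ξ : Γ × I → E := fun v => if hv : v.1 ∈ N ∪ {s} then η ⟨v, hv⟩ else 0 with hξ
    have hres : f ξ = η := by
      funext v
      show ξ v.1 = η v
      rw [hξ]
      exact dif_pos v.2
    have hξU : ξ ∈ U := by
      rw [hU]
      refine ⟨fun v hv => ?_, ?_⟩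
      · by_cases hvN : v.1 ∈ N
        · have h5 : η ⟨v, Or.inl hvN⟩ = 0 := by
            have := congrFun (LinearMap.mem_ker.1 hη2) ⟨v, hvN⟩
            exact this
          have h6 : v.1 ∈ N ∪ {s} := Or.inl hvN
          rw [hξ]
          show (if hv : v.1 ∈ N ∪ {s} then η ⟨v, hv⟩ else 0) = 0
          rw [dif_pos h6]
          exact h5
        · have h6 : ¬ v.1 ∈ N ∪ {s} := by
            rintro (h7 | h7)
            · exact hvN h7
            · exact hv h7
          rw [hξ]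
          exact dif_neg h6
      · show IsTan k b (res ξ (N ∪ {s}))
        have : res ξ (N ∪ {s}) = η := hres
        rw [this]
        exact hη1
    refine ⟨⟨ξ, hξU⟩, ?_⟩
    apply Subtype.ext
    exact hres

end Pool.Agent.ORG
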