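import Pool.Agent.ORG.Defs
import Pool.Agent.ORG.S1
import Pool.Agent.ORG.S2

/-!
# MP_08a057_al, ORG module B1 : (3.1) uniform windows
(paper: /team-store/ORG_paper.md)
-/

set_option autoImplicit false

namespace Pool.Agent.ORG

open MvPolynomial

variable {k : Type} [Field k] {I : Type} {m : ℕ}

/-- ascending chain condition + Dickson -/
theorem exists_stable_window {R : Type} [CommRing R] [IsNoetherianRing R] {n : ℕ}
    (F : (Fin n → ℕ) → Ideal R) (hF : Monotone F) :
    ∃ c : ℕ, ∀ a : Fin n → ℕ, F a ≤ F (fun i => min (a i) c) := by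
  classical
  by_contra hcon
  push Not at hcon
  choose A hA using hcon
  have hwqo : WellQuasiOrdered (fun x y : Fin n → ℕ => x ≤ y) :=
    (inferInstance : WellQuasiOrderedLE (Fin n → ℕ)).wqo
  obtain ⟨g, hg⟩ := hwqo.exists_monotone_subseq A
  have hmono : Monotone (fun j : ℕ => F (A (g j))) := fun i j hij => hF (hg i j hij)
  obtain ⟨k0, hk0⟩ := (monotone_stabilizes_iff_noetherian (R := R) (M := R)).mpr inferInstance
    ⟨fun j : ℕ => F (A (g j)), hmono⟩
  obtain ⟨b, hb⟩ : ∃ b : ℕ, ∀ i, A (g k0) i ≤ b :=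
    ⟨Finset.univ.sup (A (g k0)), fun i => Finset.le_sup (f := A (g k0)) (Finset.mem_univ i)⟩
  set q : ℕ := max k0 b with hq
  have hqk : k0 ≤ q := le_max_left _ _
  have hgq : q ≤ g q := g.strictMono.id_le q
  have h1 : F (A (g k0)) = F (A (g q)) := hk0 q hqk
  have h2 : A (g k0) ≤ fun i => min (A (g q) i) (g q) := by
    intro i
    refine le_min (hg k0 q hqk i) ?_
    exact (hb i).trans ((le_max_right _ _).trans hgq)
  exact hA (g q) (h1 ▸ hF h2)

/-- monotonicity of boxes -/
theorem org_b1_bx_mono {a b a' b' : Fin m → ℕ} (ha : ∀ i, a i ≤ a' i) (hb : ∀ i, b i ≤ b' i) :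
    bx a b ⊆ bx a' b' := by
  intro u hu i
  have h1 := hu i
  have h2 : (a i : ℤ) ≤ a' i := by exact_mod_cast ha i
  have h3 : (b i : ℤ) ≤ b' i := by exact_mod_cast hb i
  constructor <;> linarith [h1.1, h1.2]

theorem exists_window [Finite I] (Z : Sys k (Fin m → ℤ) I) (P : Set (Fin m → ℤ)) :
    ∃ c : ℕ, ∀ a b : Fin m → ℕ,
      Z.Det 0 (P ∩ bx a b) (P ∩ bx (fun i => min (a i) c) (fun i => min (b i) c)) := by
  classical
  let F : (Fin (m + m) → ℕ) → Ideal (MvPolynomial I Z.K) := fun w =>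
    Z.relAt 0 (P ∩ bx (fun i => w (Fin.castAdd m i)) (fun i => w (Fin.natAdd m i)))
  have hF : Monotone F := by
    intro w w' hw
    exact relAt_mono Z 0 (Set.inter_subset_inter_right _
      (org_b1_bx_mono (fun i => hw _) (fun i => hw _)))
  obtain ⟨c, hc⟩ := exists_stable_window F hF
  refine ⟨c, fun a b => ?_⟩
  have h := hc (Fin.append a b)
  simp only [F, Fin.append_left, Fin.append_right] at h
  exact h

theorem IsWin.mono {Z : Sys k (Fin m → ℤ) I} {c c' : ℕ} (h : Z.IsWin c) (hc : c ≤ c') :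
    Z.IsWin c' := by
  intro o a b
  refine Det.mono (h o a b) ?_ (le_refl _)
  exact Set.inter_subset_inter_right _
    (org_b1_bx_mono (fun i => min_le_min_left _ hc) (fun i => min_le_min_left _ hc))

theorem exists_isWin [Finite I] (Z : Sys k (Fin m → ℤ) I) : ∃ c : ℕ, Z.IsWin c := by
  classical
  choose c hc using fun o : Option (Fin m × Bool) =>
    exists_window Z {u : Fin m → ℤ | olt o u 0}
  refine ⟨Finset.univ.sup c, fun o a b => ?_⟩
  have hle : c o ≤ Finset.univ.sup c := Finset.le_sup (f := c) (Finset.mem_univ o)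
  refine Det.mono (hc o a b) ?_ (le_refl _)
  exact Set.inter_subset_inter_right _
    (org_b1_bx_mono (fun i => min_le_min_left _ hle) (fun i => min_le_min_left _ hle))

end Pool.Agent.ORG
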