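import Pool.Agent.ORG.Defs

/-!
# MP_08a057_al, ORG module B2 : orders on boxes
(paper: /team-store/ORG_paper.md)
-/

set_option autoImplicit false

namespace Pool.Agent.ORG

open MvPolynomial

variable {m : ℕ}

theorem b2_lexlt_iff (u v : Fin m → ℤ) : lexlt u v ↔ toLex u < toLex v := Iff.rfl

theorem b2_lexlt_irrefl (u : Fin m → ℤ) : ¬ lexlt u u := by
  rw [b2_lexlt_iff]; exact lt_irrefl _

theorem b2_lexlt_trans {u v w : Fin m → ℤ} (h : lexlt u v) (h' : lexlt v w) : lexlt u w := by
  rw [b2_lexlt_iff] at *; exact lt_trans h h'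

theorem b2_lexlt_tri (u v : Fin m → ℤ) : lexlt u v ∨ u = v ∨ lexlt v u := by
  rw [b2_lexlt_iff, b2_lexlt_iff]
  rcases lt_trichotomy (toLex u) (toLex v) with h | h | h
  · exact Or.inl h
  · exact Or.inr (Or.inl (toLex.injective h))
  · exact Or.inr (Or.inr h)

theorem b2_lexlt_add (γ u v : Fin m → ℤ) : lexlt (γ + u) (γ + v) ↔ lexlt u v := by
  unfold lexlt
  simp only [Pi.add_apply, add_right_inj, add_lt_add_iff_left]

theorem olt_add (o : Option (Fin m × Bool)) (γ u v : Fin m → ℤ) :
    olt o (γ + u) (γ + v) ↔ olt o u v := by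
  rcases o with _ | ⟨j, b⟩
  · exact b2_lexlt_add γ u v
  · cases b
    · simp only [olt, Pi.add_apply, add_right_inj, add_lt_add_iff_left, b2_lexlt_add]
    · simp only [olt, Pi.add_apply, add_right_inj, add_lt_add_iff_left, b2_lexlt_add]

theorem olt_irrefl (o : Option (Fin m × Bool)) (u : Fin m → ℤ) : ¬ olt o u u := by
  rcases o with _ | ⟨j, b⟩
  · exact b2_lexlt_irrefl u
  · cases b
    · simp only [olt, lt_irrefl, true_and, false_or]; exact b2_lexlt_irrefl u
    · simp only [olt, lt_irrefl, true_and, false_or]; exact b2_lexlt_irrefl u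

theorem olt_trans (o : Option (Fin m × Bool)) {u v w : Fin m → ℤ} (h : olt o u v)
    (h' : olt o v w) : olt o u w := by
  rcases o with _ | ⟨j, b⟩
  · exact b2_lexlt_trans h h'
  · cases b
    · simp only [olt] at h h' ⊢
      rcases h with h | ⟨h, h1⟩ <;> rcases h' with h' | ⟨h', h1'⟩
      · left; omega
      · left; omega
      · left; omega
      · right; exact ⟨by omega, b2_lexlt_trans h1 h1'⟩
    · simp only [olt] at h h' ⊢
      rcases h with h | ⟨h, h1⟩ <;> rcases h' with h' | ⟨h', h1'⟩
      · left; omega
      · left; omega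
      · left; omega
      · right; exact ⟨by omega, b2_lexlt_trans h1 h1'⟩

theorem olt_tri (o : Option (Fin m × Bool)) (u v : Fin m → ℤ) :
    olt o u v ∨ u = v ∨ olt o v u := by
  rcases o with _ | ⟨j, b⟩
  · exact b2_lexlt_tri u v
  · cases b
    · simp only [olt]
      rcases lt_trichotomy (u j) (v j) with h | h | h
      · right; right; left; exact h
      · rcases b2_lexlt_tri u v with h1 | h1 | h1
        · left; right; exact ⟨h, h1⟩
        · right; left; exact h1
        · right; right; right; exact ⟨h.symm, h1⟩
      · left; left; exact h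
    · simp only [olt]
      rcases lt_trichotomy (u j) (v j) with h | h | h
      · left; left; exact h
      · rcases b2_lexlt_tri u v with h1 | h1 | h1
        · left; right; exact ⟨h, h1⟩
        · right; left; exact h1
        · right; right; right; exact ⟨h.symm, h1⟩
      · right; right; left; exact h

/-- a nonempty finite set has a minimal element -/
theorem b2_exists_min (o : Option (Fin m × Bool)) (R : Set (Fin m → ℤ)) (hR : R.Finite)
    (hne : R.Nonempty) : ∃ s ∈ R, ∀ u ∈ R, ¬ olt o u s := by
  classical
  obtain ⟨s, hs, hmin⟩ := Set.exists_min_image R (fun s => {u | u ∈ R ∧ olt o u s}.ncard) hR hne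
  refine ⟨s, hs, fun u hu hus => ?_⟩
  have h1 : {v | v ∈ R ∧ olt o v u} ⊂ {v | v ∈ R ∧ olt o v s} := by
    refine ⟨fun v hv => ⟨hv.1, olt_trans o hv.2 hus⟩, fun hsub => ?_⟩
    exact olt_irrefl o u (hsub (show u ∈ {v | v ∈ R ∧ olt o v s} from ⟨hu, hus⟩)).2
  have h2 := Set.ncard_lt_ncard h1 (hR.subset fun v hv => hv.1)
  have h3 := hmin u hu
  omega

/-- induction over an initial segment: `A₀ ⊆ Q` closed downwards for the order `o` -/
theorem olt_induction (o : Option (Fin m × Bool)) (Q : Set (Fin m → ℤ)) (hQ : Q.Finite)
    (A₀ : Set (Fin m → ℤ)) (hA₀ : A₀ ⊆ Q) (hinit : ∀ u ∈ Q, ∀ v ∈ A₀, olt o u v → u ∈ A₀)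
    (C : Set (Fin m → ℤ) → Prop) (h0 : C A₀)
    (hstep : ∀ s ∈ Q, s ∉ A₀ → C {u | u ∈ Q ∧ olt o u s} →
      C ({u | u ∈ Q ∧ olt o u s} ∪ {s})) : C Q := by
  have key : ∀ (n : ℕ) (B : Set (Fin m → ℤ)), A₀ ⊆ B → B ⊆ Q →
      (∀ u ∈ Q, ∀ v ∈ B, olt o u v → u ∈ B) → C B → (Q \ B).ncard = n → C Q := by
    intro n
    induction n with
    | zero =>
      intro B _ hBQ _ hCB hn
      have h1 : Q \ B = ∅ := (Set.ncard_eq_zero (hQ.subset Set.sdiff_subset)).1 hn
      have h2 : B = Q := Set.Subset.antisymm hBQ (Set.sdiff_eq_empty.1 h1)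
      rwa [h2] at hCB
    | succ n ih =>
      intro B hAB hBQ hB hCB hn
      have hfin : (Q \ B).Finite := hQ.subset Set.sdiff_subset
      have hne : (Q \ B).Nonempty := by
        rw [← Set.ncard_pos hfin]; omega
      obtain ⟨s, hs, hmin⟩ := b2_exists_min o (Q \ B) hfin hne
      have hBeq : {u | u ∈ Q ∧ olt o u s} = B := by
        ext u
        constructor
        · rintro ⟨hu, hus⟩
          by_contra huB
          exact hmin u ⟨hu, huB⟩ hus
        · intro hu
          refine ⟨hBQ hu, ?_⟩
          rcases olt_tri o u s with h | h | h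
          · exact h
          · exact absurd (h ▸ hu) hs.2
          · exact absurd (hB s hs.1 u hu h) hs.2
      have h1 := hstep s hs.1 (fun h => hs.2 (hAB h)) (by rw [hBeq]; exact hCB)
      rw [hBeq] at h1
      refine ih (B ∪ {s}) (hAB.trans Set.subset_union_left) ?_ ?_ h1 ?_
      · exact Set.union_subset hBQ (Set.singleton_subset_iff.2 hs.1)
      · intro u hu v hv huv
        rcases hv with hv | hv
        · exact Or.inl (hB u hu v hv huv)
        · rw [Set.mem_singleton_iff] at hv
          left
          rw [← hBeq]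
          exact ⟨hu, hv ▸ huv⟩
      · have h2 : Q \ (B ∪ {s}) = (Q \ B) \ {s} := by
          rw [Set.sdiff_sdiff]
        rw [h2, Set.ncard_sdiff_singleton_of_mem hs, hn]
        rfl
  exact key _ A₀ subset_rfl hA₀ hinit h0 rfl

/-- enlarging boxes one face at a time -/
theorem box_induction (p q p' q' : Fin m → ℤ) (h : Set.Icc p q ⊆ Set.Icc p' q')
    (hne : (Set.Icc p q).Nonempty)
    (C : Set (Fin m → ℤ) → Prop) (h0 : C (Set.Icc p q))
    (hstep : ∀ (o : Option (Fin m × Bool)) (a b a' b' : Fin m → ℤ),
      Set.Icc a b ⊆ Set.Icc a' b' → Set.Icc a' b' ⊆ Set.Icc p' q' →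
      (∀ u ∈ Set.Icc a' b', ∀ v ∈ Set.Icc a b, olt o u v → u ∈ Set.Icc a b) →
      C (Set.Icc a b) → C (Set.Icc a' b')) : C (Set.Icc p' q') := by
  classical
  have hpq : p ≤ q := Set.nonempty_Icc.1 hne
  have hp : p' ≤ p := (h (Set.left_mem_Icc.2 hpq)).1
  have hq : q ≤ q' := (h (Set.right_mem_Icc.2 hpq)).2
  have key : ∀ J : Finset (Fin m), C (Set.Icc (J.piecewise p' p) (J.piecewise q' q)) := by
    intro J
    induction J using Finset.induction_on with
    | empty => simpa using h0
    | insert j J hj ih =>
      have e1 : (insert j J).piecewise p' p = Function.update (J.piecewise p' p) j (p' j) :=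
        Finset.piecewise_insert _ _ _ _
      have e2 : (insert j J).piecewise q' q = Function.update (J.piecewise q' q) j (q' j) :=
        Finset.piecewise_insert _ _ _ _
      rw [e1, e2]
      set a := J.piecewise p' p with ha
      set b := J.piecewise q' q with hb
      have haj : a j = p j := by rw [ha, Finset.piecewise_eq_of_notMem _ _ _ hj]
      have hbj : b j = q j := by rw [hb, Finset.piecewise_eq_of_notMem _ _ _ hj]
      have ha1 : p' ≤ a := by
        intro i
        rw [ha]
        by_cases hi : i ∈ J
        · rw [Finset.piecewise_eq_of_mem _ _ _ hi]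
        · rw [Finset.piecewise_eq_of_notMem _ _ _ hi]; exact hp i
      have hb1 : b ≤ q' := by
        intro i
        rw [hb]
        by_cases hi : i ∈ J
        · rw [Finset.piecewise_eq_of_mem _ _ _ hi]
        · rw [Finset.piecewise_eq_of_notMem _ _ _ hi]; exact hq i
      have hb2 : b ≤ Function.update b j (q' j) := by
        intro i
        by_cases hi : i = j
        · subst hi; rw [Function.update_self]; exact hb1 i
        · rw [Function.update_of_ne hi]
      have ha2 : Function.update a j (p' j) ≤ a := by
        intro i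
        by_cases hi : i = j
        · subst hi; rw [Function.update_self]; exact ha1 i
        · rw [Function.update_of_ne hi]
      have hb3 : Function.update b j (q' j) ≤ q' := by
        intro i
        by_cases hi : i = j
        · subst hi; rw [Function.update_self]
        · rw [Function.update_of_ne hi]; exact hb1 i
      have ha3 : p' ≤ Function.update a j (p' j) := by
        intro i
        by_cases hi : i = j
        · subst hi; rw [Function.update_self]
        · rw [Function.update_of_ne hi]; exact ha1 i
      have s1 : C (Set.Icc a (Function.update b j (q' j))) := by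
        refine hstep (some (j, true)) a b a (Function.update b j (q' j))
          (Set.Icc_subset_Icc le_rfl hb2) (Set.Icc_subset_Icc ha1 hb3) ?_ ih
        intro u hu v hv huv
        refine ⟨hu.1, fun i => ?_⟩
        by_cases hi : i = j
        · subst hi
          have h1 : u i ≤ v i := by
            simp only [olt] at huv
            rcases huv with h | ⟨h, -⟩
            · exact h.le
            · exact h.le
          exact h1.trans (hv.2 i)
        · have h1 := hu.2 i
          rwa [Function.update_of_ne hi] at h1
      refine hstep (some (j, false)) a (Function.update b j (q' j)) (Function.update a j (p' j))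
        (Function.update b j (q' j)) (Set.Icc_subset_Icc ha2 le_rfl)
        (Set.Icc_subset_Icc ha3 hb3) ?_ s1
      intro u hu v hv huv
      refine ⟨fun i => ?_, hu.2⟩
      by_cases hi : i = j
      · subst hi
        have h1 : v i ≤ u i := by
          simp only [olt] at huv
          rcases huv with h | ⟨h, -⟩
          · exact h.le
          · exact h.ge
        exact (hv.1 i).trans h1
      · have h1 := hu.1 i
        rwa [Function.update_of_ne hi] at h1
  have hfin := key Finset.univ
  simpa using hfin

theorem tr_cube_eq_Icc (h : ℕ) (γ : Fin m → ℤ) :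
    tr γ (cube m h) = Set.Icc γ (fun i => γ i + h) := by
  ext u
  simp only [tr, cube, Set.mem_ofPred_eq, Pi.sub_apply, Set.mem_Icc, Pi.le_def]
  constructor
  · intro hu
    exact ⟨fun i => by have := (hu i).1; omega, fun i => by have := (hu i).2; omega⟩
  · rintro ⟨h1, h2⟩ i
    exact ⟨by have := h1 i; omega, by have := h2 i; omega⟩

end Pool.Agent.ORG
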