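import Pool.Agent.ORG.Defs
import Pool.Agent.ORG.S1
import Pool.Agent.ORG.S2
import Pool.Agent.ORG.B1
import Pool.Agent.ORG.B2

/-!
# MP_08a057_al, ORG module B3 : (3.2): adding one site
(paper: /team-store/ORG_paper.md)
-/

set_option autoImplicit false

namespace Pool.Agent.ORG

open MvPolynomial

variable {k : Type} [Field k] [CharZero k] {I E : Type} [Finite I] [Field E] [Algebra k E]
  {m : ℕ}

/-- the determination facts used in (3.2) -/
theorem isWin_det {Z : Sys k (Fin m → ℤ) I} {c : ℕ} (hc : Z.IsWin c)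
    (o : Option (Fin m × Bool)) (p q s : Fin m → ℤ) (hs : s ∈ Set.Icc p q) :
    Z.Det s {u | u ∈ Set.Icc p q ∧ olt o u s}
      ({u | u ∈ Set.Icc p q ∧ olt o u s} ∩ tr s (ball m c)) := by
  have hsp : ∀ i, p i ≤ s i := hs.1
  have hsq : ∀ i, s i ≤ q i := hs.2
  have h0 := hc o (fun i => (s i - p i).toNat) (fun i => (q i - s i).toNat)
  have h1 := (det_tr (Z := Z) (s := 0) s).2 h0
  rw [add_zero] at h1
  have holt : ∀ u : Fin m → ℤ, olt o (u - s) 0 ↔ olt o u s := by
    intro u
    have := olt_add o s (u - s) 0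
    rw [add_zero, add_sub_cancel] at this
    exact this.symm
  have hA : tr s ({u | olt o u 0} ∩ bx (fun i => (s i - p i).toNat)
      (fun i => (q i - s i).toNat)) = {u | u ∈ Set.Icc p q ∧ olt o u s} := by
    ext u
    simp only [tr, Set.mem_ofPred_eq, Set.mem_inter_iff, bx, holt, Set.mem_Icc, Pi.le_def,
      Pi.sub_apply]
    constructor
    · rintro ⟨h2, h3⟩
      refine ⟨⟨fun i => ?_, fun i => ?_⟩, h2⟩
      · have := (h3 i).1
        have h4 := hsp i
        omega
      · have := (h3 i).2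
        have h4 := hsq i
        omega
    · rintro ⟨⟨h2, h3⟩, h4⟩
      refine ⟨h4, fun i => ?_⟩
      have := h2 i
      have := h3 i
      have := hsp i
      have := hsq i
      constructor <;> omega
  have hN : tr s ({u | olt o u 0} ∩ bx (fun i => min ((s i - p i).toNat) c)
      (fun i => min ((q i - s i).toNat) c)) =
      {u | u ∈ Set.Icc p q ∧ olt o u s} ∩ tr s (ball m c) := by
    rw [← hA]
    ext u
    simp only [tr, Set.mem_ofPred_eq, Set.mem_inter_iff, bx, ball, Pi.sub_apply]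
    constructor
    · rintro ⟨h2, h3⟩
      refine ⟨⟨h2, fun i => ?_⟩, fun i => ?_⟩
      · have := h3 i
        omega
      · have := h3 i
        omega
    · rintro ⟨⟨h2, h3⟩, h4⟩
      refine ⟨h2, fun i => ?_⟩
      have := h3 i
      have := h4 i
      omega
  rw [hA] at h1
  rw [hN] at h1
  exact h1

/-- the window around `s` lies in a translate of the cube -/
theorem b3_window_subset {c h : ℕ} (hh : 2 * c + 1 ≤ h) (s : Fin m → ℤ) :
    tr s (ball m c) ⊆ tr (fun i => s i - (c : ℤ)) (cube m h) := by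
  intro u hu
  simp only [tr, ball, cube, Set.mem_ofPred_eq, Pi.sub_apply] at hu ⊢
  intro i
  have := hu i
  constructor <;> omega

theorem b3_self_mem (c : ℕ) (s : Fin m → ℤ) : s ∈ tr s (ball m c) := by
  simp only [tr, ball, Set.mem_ofPred_eq, Pi.sub_apply, sub_self]
  intro i
  constructor <;> omega

/-- (3.2), the claim -/
theorem loc_step_iff {Z : Sys k (Fin m → ℤ) I} {c h : ℕ} (hc : Z.IsWin c) (hh : 2 * c + 1 ≤ h)
    {x : (Fin m → ℤ) × I → E} (hx : ∀ γ, Z.Gen x (tr γ (cube m h)))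
    (o : Option (Fin m × Bool)) (p q s : Fin m → ℤ) (hs : s ∈ Set.Icc p q)
    {ξ : (Fin m → ℤ) × I → E}
    (hξ : Loc k x (cube m h) {u | u ∈ Set.Icc p q ∧ olt o u s} ξ) :
    Loc k x (cube m h) ({u | u ∈ Set.Icc p q ∧ olt o u s} ∪ {s}) ξ ↔
      TanOn k x (({u | u ∈ Set.Icc p q ∧ olt o u s} ∩ tr s (ball m c)) ∪ {s}) ξ := by
  constructor
  · intro h1
    refine TanOn.mono (h1 (fun i => s i - (c : ℤ))) ?_
    rintro u (hu | hu)
    · exact ⟨Or.inl hu.1, b3_window_subset hh s hu.2⟩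
    · refine ⟨Or.inr hu, ?_⟩
      have hu' : u = s := hu
      subst hu'
      exact b3_window_subset hh u (b3_self_mem c u)
  · intro h1 γ
    by_cases hsγ : s ∈ tr γ (cube m h)
    · have hcube := tr_cube_eq_Icc (m := m) h γ
      have hbox : {u | u ∈ Set.Icc p q ∧ olt o u s} ∩ tr γ (cube m h) =
          {u | u ∈ Set.Icc (p ⊔ γ) (q ⊓ (fun i => γ i + h)) ∧ olt o u s} := by
        rw [hcube]
        ext u
        simp only [Set.mem_inter_iff, Set.mem_ofPred_eq, Set.mem_Icc, sup_le_iff, le_inf_iff]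
        tauto
      have hs' : s ∈ Set.Icc (p ⊔ γ) (q ⊓ (fun i => γ i + (h : ℤ))) := by
        rw [hcube] at hsγ
        exact ⟨sup_le hs.1 hsγ.1, le_inf hs.2 hsγ.2⟩
      have hdet := isWin_det hc o _ _ s hs'
      rw [← hbox] at hdet
      have hunion : ({u | u ∈ Set.Icc p q ∧ olt o u s} ∪ {s}) ∩ tr γ (cube m h) =
          ({u | u ∈ Set.Icc p q ∧ olt o u s} ∩ tr γ (cube m h)) ∪ {s} := by
        ext u
        simp only [Set.mem_inter_iff, Set.mem_union, Set.mem_singleton_iff]
        constructor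
        · rintro ⟨h2 | h2, h3⟩
          · exact Or.inl ⟨h2, h3⟩
          · exact Or.inr h2
        · rintro (⟨h2, h3⟩ | h2)
          · exact ⟨Or.inl h2, h3⟩
          · refine ⟨Or.inr h2, ?_⟩
            rw [h2]
            exact hsγ
      rw [hunion]
      refine Det.tan hdet Set.inter_subset_left ?_ (hξ γ) ?_
      · refine Gen.mono (hx γ) ?_
        rintro u (hu | hu)
        · exact hu.2
        · have hu' : u = s := hu
          rw [hu']
          exact hsγ
      · refine TanOn.mono h1 ?_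
        rintro u (hu | hu)
        · exact Or.inl ⟨hu.1.1, hu.2⟩
        · exact Or.inr hu
    · have hunion : ({u | u ∈ Set.Icc p q ∧ olt o u s} ∪ {s}) ∩ tr γ (cube m h) =
          {u | u ∈ Set.Icc p q ∧ olt o u s} ∩ tr γ (cube m h) := by
        ext u
        simp only [Set.mem_inter_iff, Set.mem_union, Set.mem_singleton_iff]
        constructor
        · rintro ⟨h2 | h2, h3⟩
          · exact ⟨h2, h3⟩
          · rw [h2] at h3
            exact absurd h3 hsγ
        · rintro ⟨h2, h3⟩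
          exact ⟨Or.inl h2, h3⟩
      rw [hunion]
      exact hξ γ

/-- (3.2), surjectivity -/
theorem loc_step_extend {Z : Sys k (Fin m → ℤ) I} {c h : ℕ} (hc : Z.IsWin c)
    (hh : 2 * c + 1 ≤ h) {x : (Fin m → ℤ) × I → E} (hx : ∀ γ, Z.Gen x (tr γ (cube m h)))
    (o : Option (Fin m × Bool)) (p q s : Fin m → ℤ) (hs : s ∈ Set.Icc p q)
    {ξ : (Fin m → ℤ) × I → E}
    (hξ : Loc k x (cube m h) {u | u ∈ Set.Icc p q ∧ olt o u s} ξ) :
    ∃ ξ' : (Fin m → ℤ) × I → E,
      Loc k x (cube m h) ({u | u ∈ Set.Icc p q ∧ olt o u s} ∪ {s}) ξ' ∧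
      ∀ v : (Fin m → ℤ) × I, v.1 ≠ s → ξ' v = ξ v := by
  classical
  have h1 : TanOn k x ({u | u ∈ Set.Icc p q ∧ olt o u s} ∩ tr s (ball m c)) ξ := by
    refine TanOn.mono (hξ (fun i => s i - (c : ℤ))) ?_
    rintro u hu
    exact ⟨hu.1, b3_window_subset hh s hu.2⟩
  obtain ⟨ξ'', h2, h3⟩ := exists_tanOn_extend h1 {s}
  set ξ' : (Fin m → ℤ) × I → E := fun v => if v.1 = s then ξ'' v else ξ v with hξ'
  have hne : ∀ v : (Fin m → ℤ) × I, v.1 ≠ s → ξ' v = ξ v := by
    intro v hv
    simp only [hξ', if_neg hv]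
  have h4 : TanOn k x (({u | u ∈ Set.Icc p q ∧ olt o u s} ∩ tr s (ball m c)) ∪ {s}) ξ' := by
    refine TanOn.congr h2 (fun v _ => rfl) ?_
    intro v hv
    by_cases hvs : v.1 = s
    · simp only [hξ', if_pos hvs]
    · rw [hne v hvs]
      rcases hv with hv | hv
      · exact h3 v hv
      · exact absurd hv hvs
  have h5 : Loc k x (cube m h) {u | u ∈ Set.Icc p q ∧ olt o u s} ξ' := by
    intro γ
    refine TanOn.congr (hξ γ) (fun v _ => rfl) ?_
    intro v hv
    refine (hne v ?_).symm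
    intro hvs
    have h6 : olt o v.1 s := hv.1.2
    rw [hvs] at h6
    exact olt_irrefl o s h6
  exact ⟨ξ', (loc_step_iff hc hh hx o p q s hs h5).2 h4, hne⟩

end Pool.Agent.ORG
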