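import Pool.Agent.ORG.Defs
import Pool.Agent.ORG.S1
import Pool.Agent.ORG.S2
import Pool.Agent.ORG.B1
import Pool.Agent.ORG.B2
import Pool.Agent.ORG.B3

/-!
# MP_08a057_al, ORG module B4 : (3.2),(3.3a): dimensions of local solutions
(paper: /team-store/ORG_paper.md)
-/

set_option autoImplicit false

namespace Pool.Agent.ORG

open MvPolynomial

variable {k : Type} [Field k] [CharZero k] {I E : Type} [Finite I] [Field E] [Algebra k E]
  {m : ℕ}

/-- local solutions supported on `A` -/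
noncomputable def LocS (k : Type) [Field k] [Algebra k E] (x : (Fin m → ℤ) × I → E)
    (V A : Set (Fin m → ℤ)) : Submodule E ((Fin m → ℤ) × I → E) where
  carrier := {ξ | (∀ v, v.1 ∉ A → ξ v = 0) ∧ Loc k x V A ξ}
  add_mem' := by
    intro a b ha hb
    refine ⟨fun v hv => by simp [ha.1 v hv, hb.1 v hv], fun γ => (ha.2 γ).add (hb.2 γ)⟩
  zero_mem' := ⟨fun _ _ => rfl, fun γ => TanOn.zero x _⟩
  smul_mem' := by
    intro c a ha
    refine ⟨fun v hv => by simp [ha.1 v hv], fun γ => (ha.2 γ).smul c⟩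

omit [CharZero k] [Finite I] in
theorem b4_mem_LocS {x : (Fin m → ℤ) × I → E} {V A : Set (Fin m → ℤ)}
    {ξ : (Fin m → ℤ) × I → E} :
    ξ ∈ LocS k x V A ↔ (∀ v, v.1 ∉ A → ξ v = 0) ∧ Loc k x V A ξ := Iff.rfl

omit [CharZero k] [Finite I] in
theorem b4_loc_congr {x : (Fin m → ℤ) × I → E} {V A : Set (Fin m → ℤ)}
    {ξ η : (Fin m → ℤ) × I → E} (h : Loc k x V A ξ) (hξ : ∀ v, v.1 ∈ A → ξ v = η v) :
    Loc k x V A η := fun γ => (h γ).congr (fun _ _ => rfl) (fun v hv => hξ v hv.1)

omit [CharZero k] [Finite I] in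
theorem b4_loc_mono {x : (Fin m → ℤ) × I → E} {V A B : Set (Fin m → ℤ)}
    {ξ : (Fin m → ℤ) × I → E} (h : Loc k x V B ξ) (hAB : A ⊆ B) :
    Loc k x V A ξ := fun γ => (h γ).mono (Set.inter_subset_inter_left _ hAB)

omit [CharZero k] in
theorem finite_LocS (x : (Fin m → ℤ) × I → E) (V : Set (Fin m → ℤ)) {A : Set (Fin m → ℤ)}
    (hA : A.Finite) : Module.Finite E (LocS k x V A) := by
  have hfin : Finite (Ix I A) := by
    have : {v : (Fin m → ℤ) × I | v.1 ∈ A} = A ×ˢ (Set.univ : Set I) := by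
      ext v
      simp
    have h2 : ({v : (Fin m → ℤ) × I | v.1 ∈ A}).Finite := by
      rw [this]
      exact hA.prod Set.finite_univ
    exact h2.to_subtype
  let f : LocS k x V A →ₗ[E] (Ix I A → E) :=
    { toFun := fun ξ v => ξ.1 v.1
      map_add' := fun _ _ => rfl
      map_smul' := fun _ _ => rfl }
  have hf : Function.Injective f := by
    intro ξ η h
    apply Subtype.ext
    funext v
    by_cases hv : v.1 ∈ A
    · exact congrFun h ⟨v, hv⟩
    · rw [(b4_mem_LocS.1 ξ.2).1 v hv, (b4_mem_LocS.1 η.2).1 v hv]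
  exact Module.Finite.of_injective f hf

/-- one site of (3.3a) -/
theorem b4_step {Z : Sys k (Fin m → ℤ) I} {c h : ℕ} (hc : Z.IsWin c)
    (hh : 2 * c + 1 ≤ h) {x : (Fin m → ℤ) × I → E} (hx : ∀ γ, Z.Gen x (tr γ (cube m h)))
    (o : Option (Fin m × Bool)) (p q s : Fin m → ℤ) (hs : s ∈ Set.Icc p q)
    (ih : Module.finrank E (LocS k x (cube m h) {u | u ∈ Set.Icc p q ∧ olt o u s}) =
      Z.r {u | u ∈ Set.Icc p q ∧ olt o u s}) :
    Module.finrank E (LocS k x (cube m h) ({u | u ∈ Set.Icc p q ∧ olt o u s} ∪ {s})) =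
      Z.r ({u | u ∈ Set.Icc p q ∧ olt o u s} ∪ {s}) := by
  classical
  set A : Set (Fin m → ℤ) := {u | u ∈ Set.Icc p q ∧ olt o u s} with hAdef
  have hAfin : A.Finite := (Set.finite_Icc p q).subset fun u hu => hu.1
  have hsA : s ∉ A := fun hsA => olt_irrefl o s hsA.2
  set N : Set (Fin m → ℤ) := A ∩ tr s (ball m c) with hNdef
  have hNA : N ⊆ A := Set.inter_subset_left
  have hNfin : N.Finite := hAfin.subset hNA
  have hsN : s ∉ N := fun h => hsA (hNA h)
  have hdet : Z.Det s A N := isWin_det hc o p q s hs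
  have hr := Det.r_eq hdet hNA hAfin
  have hgen : Z.Gen x (N ∪ {s}) := by
    refine Gen.mono (hx (fun i => s i - c)) ?_
    rintro u (hu | hu)
    · have h1 := hu.2
      intro i
      have h2 := h1 i
      simp only [Pi.sub_apply] at h2 ⊢
      omega
    · rw [Set.mem_singleton_iff] at hu
      subst hu
      intro i
      simp only [Pi.sub_apply]
      omega
  have := finite_LocS (k := k) x (cube m h) hAfin
  have hAs : (A ∪ {s}).Finite := hAfin.union (Set.finite_singleton s)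
  have := finite_LocS (k := k) x (cube m h) hAs
  -- the submodule of tangent vectors at `s`
  let U : Submodule E ((Fin m → ℤ) × I → E) :=
    { carrier := {ξ | (∀ v : (Fin m → ℤ) × I, v.1 ≠ s → ξ v = 0) ∧ TanOn k x (N ∪ {s}) ξ}
      add_mem' := by
        intro a b ha hb
        exact ⟨fun v hv => by simp [ha.1 v hv, hb.1 v hv], ha.2.add hb.2⟩
      zero_mem' := ⟨fun _ _ => rfl, TanOn.zero x _⟩
      smul_mem' := by
        intro c a ha
        exact ⟨fun v hv => by simp [ha.1 v hv], ha.2.smul c⟩ }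
  have hU : ∀ ξ, ξ ∈ U ↔ (∀ v : (Fin m → ℤ) × I, v.1 ≠ s → ξ v = 0) ∧ TanOn k x (N ∪ {s}) ξ :=
    fun ξ => Iff.rfl
  have hUr := finrank_tan_site hNfin hgen U hU hsN
  -- the restriction map
  let f : LocS k x (cube m h) (A ∪ {s}) →ₗ[E] LocS k x (cube m h) A :=
    { toFun := fun ξ => ⟨fun v => if v.1 ∈ A then ξ.1 v else 0, by
        refine b4_mem_LocS.2 ⟨fun v hv => by simp [hv], ?_⟩
        exact b4_loc_congr (b4_loc_mono (b4_mem_LocS.1 ξ.2).2 Set.subset_union_left)
          (fun v hv => by simp [hv])⟩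
      map_add' := by
        intro ξ η
        apply Subtype.ext
        funext v
        by_cases hv : v.1 ∈ A <;> simp [hv]
      map_smul' := by
        intro c ξ
        apply Subtype.ext
        funext v
        by_cases hv : v.1 ∈ A <;> simp [hv] }
  have hf : ∀ ξ v, (f ξ).1 v = if v.1 ∈ A then ξ.1 v else 0 := fun _ _ => rfl
  have hsurj : LinearMap.range f = ⊤ := by
    rw [LinearMap.range_eq_top]
    rintro ⟨ξ, hξ⟩
    have hξ' := b4_mem_LocS.1 hξ
    obtain ⟨ξ', h1, h2⟩ := loc_step_extend hc hh hx o p q s hs hξ'.2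
    refine ⟨⟨ξ', b4_mem_LocS.2 ⟨fun v hv => ?_, h1⟩⟩, ?_⟩
    · have hv1 : v.1 ≠ s := fun h => hv (Or.inr h)
      have hv2 : v.1 ∉ A := fun h => hv (Or.inl h)
      rw [h2 v hv1, hξ'.1 v hv2]
    · apply Subtype.ext
      funext v
      rw [hf]
      by_cases hv : v.1 ∈ A
      · rw [if_pos hv]
        exact h2 v (fun h => hsA (h ▸ hv))
      · rw [if_neg hv]
        exact (hξ'.1 v hv).symm
  -- the kernel
  have hker : Module.finrank E (LinearMap.ker f) = Module.finrank E U := by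
    have key : ∀ ξ : (Fin m → ℤ) × I → E,
        ((∀ v : (Fin m → ℤ) × I, v.1 ≠ s → ξ v = 0) →
          (Loc k x (cube m h) (A ∪ {s}) ξ ↔ TanOn k x (N ∪ {s}) ξ)) := by
      intro ξ h0
      have hl : Loc k x (cube m h) A ξ :=
        b4_loc_congr (ξ := 0) (fun γ => TanOn.zero x _) (fun v hv => by
          rw [h0 v (fun h => hsA (h ▸ hv))]
          rfl)
      exact loc_step_iff hc hh hx o p q s hs hl
    have hz : ∀ ξ : LocS k x (cube m h) (A ∪ {s}), ξ ∈ LinearMap.ker f ↔
        ∀ v : (Fin m → ℤ) × I, v.1 ≠ s → ξ.1 v = 0 := by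
      intro ξ
      rw [LinearMap.mem_ker]
      constructor
      · intro h0 v hv
        by_cases hvA : v.1 ∈ A
        · have := congrArg (fun g => g.1 v) h0
          simp only [hf, if_pos hvA] at this
          simpa using this
        · refine (b4_mem_LocS.1 ξ.2).1 v ?_
          rintro (h | h)
          · exact hvA h
          · exact hv h
      · intro h0
        apply Subtype.ext
        funext v
        rw [hf]
        by_cases hvA : v.1 ∈ A
        · rw [if_pos hvA, h0 v (fun h => hsA (h ▸ hvA))]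
          rfl
        · rw [if_neg hvA]
          rfl
    let g : LinearMap.ker f ≃ₗ[E] U :=
      { toFun := fun ξ => ⟨ξ.1.1, (hU _).2 ⟨(hz ξ.1).1 ξ.2,
          (key _ ((hz ξ.1).1 ξ.2)).1 (b4_mem_LocS.1 ξ.1.2).2⟩⟩
        map_add' := fun _ _ => rfl
        map_smul' := fun _ _ => rfl
        invFun := fun ξ => ⟨⟨ξ.1, b4_mem_LocS.2 ⟨fun v hv => ((hU _).1 ξ.2).1 v
            (fun h => hv (Or.inr h)), (key _ ((hU _).1 ξ.2).1).2 ((hU _).1 ξ.2).2⟩⟩,
            (hz _).2 ((hU _).1 ξ.2).1⟩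
        left_inv := fun _ => rfl
        right_inv := fun _ => rfl }
    exact g.finrank_eq
  have hrn := LinearMap.finrank_range_add_finrank_ker f
  rw [hsurj, finrank_top, hker, ih] at hrn
  omega

/-- (3.3a) -/
theorem finrank_LocS {Z : Sys k (Fin m → ℤ) I} {c h : ℕ} (hc : Z.IsWin c)
    (hh : 2 * c + 1 ≤ h) {x : (Fin m → ℤ) × I → E} (hx : ∀ γ, Z.Gen x (tr γ (cube m h)))
    (p q : Fin m → ℤ) :
    Module.finrank E (LocS k x (cube m h) (Set.Icc p q)) = Z.r (Set.Icc p q) := by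
  refine olt_induction none (Set.Icc p q) (Set.finite_Icc p q) ∅ (Set.empty_subset _)
    (fun _ _ v hv => absurd hv (Set.notMem_empty v))
    (fun A => Module.finrank E (LocS k x (cube m h) A) = Z.r A) ?_ ?_
  · have h0 : LocS k x (cube m h) (∅ : Set (Fin m → ℤ)) = ⊥ := by
      rw [eq_bot_iff]
      intro ξ hξ
      rw [Submodule.mem_bot]
      funext v
      exact (b4_mem_LocS.1 hξ).1 v (Set.notMem_empty _)
    have h1 : Z.r (∅ : Set (Fin m → ℤ)) = 0 := by
      have : IsEmpty (Ix I (∅ : Set (Fin m → ℤ))) := ⟨fun v => v.2⟩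
      exact trd_empty _
    show Module.finrank E (LocS k x (cube m h) (∅ : Set (Fin m → ℤ))) = _
    rw [h0, h1, finrank_bot]
  · intro s hs _ ih
    exact b4_step hc hh hx none p q s hs ih

end Pool.Agent.ORG
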