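import Pool.Agent.ORG.Defs
import Pool.Agent.ORG.S1
import Pool.Agent.ORG.S2
import Pool.Agent.ORG.B1
import Pool.Agent.ORG.B2
import Pool.Agent.ORG.B3

/-!
# MP_08a057_al, ORG module B5 : (3.3b): extension of local solutions to bigger boxes
(paper: /team-store/ORG_paper.md)
-/

set_option autoImplicit false

namespace Pool.Agent.ORG

open MvPolynomial

variable {k : Type} [Field k] [CharZero k] {I E : Type} [Finite I] [Field E] [Algebra k E]
  {m : ℕ}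

/-- (3.3b) -/
theorem loc_extend {Z : Sys k (Fin m → ℤ) I} {c h : ℕ} (hc : Z.IsWin c)
    (hh : 2 * c + 1 ≤ h) {x : (Fin m → ℤ) × I → E} (hx : ∀ γ, Z.Gen x (tr γ (cube m h)))
    (p q p' q' : Fin m → ℤ) (hQ : Set.Icc p q ⊆ Set.Icc p' q') {ξ : (Fin m → ℤ) × I → E}
    (hξ : Loc k x (cube m h) (Set.Icc p q) ξ) :
    ∃ ξ' : (Fin m → ℤ) × I → E, Loc k x (cube m h) (Set.Icc p' q') ξ' ∧
      ∀ v : (Fin m → ℤ) × I, v.1 ∈ Set.Icc p q → ξ' v = ξ v := by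
  rcases (Set.Icc p q).eq_empty_or_nonempty with he | hne
  · refine ⟨0, fun γ => TanOn.zero x _, fun v hv => ?_⟩
    rw [he] at hv
    exact absurd hv (Set.notMem_empty _)
  · have key := box_induction p q p' q' hQ hne
      (fun A => Set.Icc p q ⊆ A ∧ ∃ ξ' : (Fin m → ℤ) × I → E, Loc k x (cube m h) A ξ' ∧
        ∀ v : (Fin m → ℤ) × I, v.1 ∈ Set.Icc p q → ξ' v = ξ v)
      ⟨subset_rfl, ξ, hξ, fun _ _ => rfl⟩ ?_
    · exact key.2
    · rintro o a b a' b' hab - hinit ⟨hsub, hex⟩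
      refine ⟨hsub.trans hab, ?_⟩
      refine olt_induction o (Set.Icc a' b') (Set.finite_Icc a' b') (Set.Icc a b) hab hinit
        (fun A => ∃ ξ' : (Fin m → ℤ) × I → E, Loc k x (cube m h) A ξ' ∧
          ∀ v : (Fin m → ℤ) × I, v.1 ∈ Set.Icc p q → ξ' v = ξ v) hex ?_
      rintro s hs hsA ⟨ξ₁, h1, h2⟩
      obtain ⟨ξ₂, h3, h4⟩ := loc_step_extend hc hh hx o a' b' s hs h1
      refine ⟨ξ₂, h3, fun v hv => ?_⟩
      rw [h4 v fun hvs => hsA (hvs ▸ hsub hv), h2 v hv]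

end Pool.Agent.ORG
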