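import Pool.Agent.ORG.Defs
import Pool.Agent.ORG.S1
import Pool.Agent.ORG.S2
import Pool.Agent.ORG.B1
import Pool.Agent.ORG.B2
import Pool.Agent.ORG.B3

/-!
# MP_08a057_al, ORG module B6 : (3.3c), (3.4): genericity of boxes from transcendence degree
(paper: /team-store/ORG_paper.md)
-/

set_option autoImplicit false

namespace Pool.Agent.ORG

open MvPolynomial

variable {k : Type} [Field k] [CharZero k] {I E : Type} [Finite I] [Field E] [Algebra k E]
  {m : ℕ}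

omit [CharZero k] [Finite I] in
/-- the window below a site together with the site is generic -/
theorem b6_gen_window {Z : Sys k (Fin m → ℤ) I} {c h : ℕ}
    (hh : 2 * c + 1 ≤ h) {x : (Fin m → ℤ) × I → E} (hx : ∀ γ, Z.Gen x (tr γ (cube m h)))
    (s : Fin m → ℤ) (A : Set (Fin m → ℤ)) :
    Z.Gen x ((A ∩ tr s (ball m c)) ∪ {s}) := by
  refine Gen.mono (hx (fun i => s i - c)) ?_
  intro u hu i
  rcases hu with ⟨-, hu⟩ | hu
  · have h1 := hu i
    simp only [Pi.sub_apply] at h1 ⊢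
    constructor <;> omega
  · have h1 : u i = s i := by rw [Set.mem_singleton_iff.1 hu]
    simp only [Pi.sub_apply, h1]
    constructor <;> omega

/-- one step of (3.3c) -/
theorem b6_step {Z : Sys k (Fin m → ℤ) I} {c h : ℕ} (hc : Z.IsWin c)
    (hh : 2 * c + 1 ≤ h) {x : (Fin m → ℤ) × I → E} (hx : ∀ γ, Z.Gen x (tr γ (cube m h)))
    (o : Option (Fin m × Bool)) (p q s : Fin m → ℤ) (hs : s ∈ Set.Icc p q) :
    trdOn k x ({u | u ∈ Set.Icc p q ∧ olt o u s} ∪ {s}) + Z.r {u | u ∈ Set.Icc p q ∧ olt o u s} ≤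
      trdOn k x {u | u ∈ Set.Icc p q ∧ olt o u s} +
        Z.r ({u | u ∈ Set.Icc p q ∧ olt o u s} ∪ {s}) := by
  set A : Set (Fin m → ℤ) := {u | u ∈ Set.Icc p q ∧ olt o u s} with hA
  have hAf : A.Finite := (Set.finite_Icc p q).subset fun u hu => hu.1
  have hdet : Z.Det s A (A ∩ tr s (ball m c)) := isWin_det hc o p q s hs
  have h1 := Det.r_eq hdet Set.inter_subset_left hAf
  have hg : Z.Gen x ((A ∩ tr s (ball m c)) ∪ {s}) := b6_gen_window hh hx s A
  have h2 : trdOn k x ((A ∩ tr s (ball m c)) ∪ {s}) = Z.r ((A ∩ tr s (ball m c)) ∪ {s}) :=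
    Gen.trd_eq hg
  have h3 : trdOn k x (A ∩ tr s (ball m c)) = Z.r (A ∩ tr s (ball m c)) :=
    Gen.trd_eq (Gen.mono hg Set.subset_union_left)
  have h4 := trdOn_submod (k := k) x (A := A) (B := {s}) (C := A ∩ tr s (ball m c))
    Set.inter_subset_left (finite_range_res x hAf) (finite_range_res x (Set.finite_singleton s))
  rw [h2, h3] at h4
  omega

/-- increments of the transcendence degree over initial segments -/
theorem b6_initial {Z : Sys k (Fin m → ℤ) I} {c h : ℕ} (hc : Z.IsWin c)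
    (hh : 2 * c + 1 ≤ h) {x : (Fin m → ℤ) × I → E} (hx : ∀ γ, Z.Gen x (tr γ (cube m h)))
    (o : Option (Fin m × Bool)) (p q : Fin m → ℤ) (A₀ : Set (Fin m → ℤ))
    (hA₀ : A₀ ⊆ Set.Icc p q)
    (hinit : ∀ u ∈ Set.Icc p q, ∀ v ∈ A₀, olt o u v → u ∈ A₀) :
    trdOn k x (Set.Icc p q) + Z.r A₀ ≤ trdOn k x A₀ + Z.r (Set.Icc p q) := by
  refine olt_induction o (Set.Icc p q) (Set.finite_Icc p q) A₀ hA₀ hinit
    (fun B => trdOn k x B + Z.r A₀ ≤ trdOn k x A₀ + Z.r B) (le_refl _) ?_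
  intro s hs _ hC
  have h1 := b6_step hc hh hx o p q s hs
  show trdOn k x ({u | u ∈ Set.Icc p q ∧ olt o u s} ∪ {s}) + Z.r A₀ ≤
    trdOn k x A₀ + Z.r ({u | u ∈ Set.Icc p q ∧ olt o u s} ∪ {s})
  have hC' : trdOn k x {u | u ∈ Set.Icc p q ∧ olt o u s} + Z.r A₀ ≤
    trdOn k x A₀ + Z.r {u | u ∈ Set.Icc p q ∧ olt o u s} := hC
  omega

/-- (3.3c) -/
theorem trdOn_le_r {Z : Sys k (Fin m → ℤ) I} {c h : ℕ} (hc : Z.IsWin c)
    (hh : 2 * c + 1 ≤ h) {x : (Fin m → ℤ) × I → E} (hx : ∀ γ, Z.Gen x (tr γ (cube m h)))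
    (p q : Fin m → ℤ) : trdOn k x (Set.Icc p q) ≤ Z.r (Set.Icc p q) := by
  have h1 := b6_initial hc hh hx none p q ∅ (Set.empty_subset _) (fun u _ v hv _ => hv.elim)
  have h2 : trdOn k x (∅ : Set (Fin m → ℤ)) = Z.r ∅ := Gen.trd_eq (gen_empty Z x)
  omega

/-- (3.4) -/
theorem gen_box {Z : Sys k (Fin m → ℤ) I} {c h : ℕ} (hc : Z.IsWin c)
    (hh : 2 * c + 1 ≤ h) {x : (Fin m → ℤ) × I → E} (hx : ∀ γ, Z.Gen x (tr γ (cube m h)))
    (p q : Fin m → ℤ) (hr : Z.r (Set.Icc p q) ≤ trdOn k x (Set.Icc p q)) :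
    Z.Gen x (Set.Icc p q) := by
  refine olt_induction none (Set.Icc p q) (Set.finite_Icc p q) ∅ (Set.empty_subset _)
    (fun u _ v hv _ => hv.elim) (fun B => Z.Gen x B) (gen_empty Z x) ?_
  intro s hs _ hC
  have hAf : ({u | u ∈ Set.Icc p q ∧ olt none u s} : Set (Fin m → ℤ)).Finite :=
    (Set.finite_Icc p q).subset fun u hu => hu.1
  have hini := b6_initial hc hh hx none p q ({u | u ∈ Set.Icc p q ∧ olt none u s} ∪ {s})
    (by
      rintro u (hu | hu)
      · exact hu.1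
      · rw [Set.mem_singleton_iff.1 hu]; exact hs)
    (by
      rintro u hu v (hv | hv) huv
      · exact Or.inl ⟨hu, olt_trans none huv hv.2⟩
      · rw [Set.mem_singleton_iff.1 hv] at huv
        exact Or.inl ⟨hu, huv⟩)
  exact Det.gen (isWin_det hc none p q s hs) Set.inter_subset_left hAf hC
    (b6_gen_window hh hx s _) (by omega)

end Pool.Agent.ORG
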