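import Pool.Agent.ORG.Defs
import Pool.Agent.ORG.F3
import Pool.Agent.ORG.S1
import Pool.Agent.ORG.S2
import Pool.Agent.ORG.B1
import Pool.Agent.ORG.B2
import Pool.Agent.ORG.B3
import Pool.Agent.ORG.B4

/-!
# MP_08a057_al, ORG module B7 : (3.5): local solutions on generic boxes
(paper: /team-store/ORG_paper.md)
-/

set_option autoImplicit false

namespace Pool.Agent.ORG

open MvPolynomial

variable {k : Type} [Field k] [CharZero k] {I E : Type} [Finite I] [Field E] [Algebra k E]
  {m : ℕ}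

open Classical in
/-- extension by zero -/
noncomputable def b7ext (Q : Set (Fin m → ℤ)) :
    (Ix I Q → E) →ₗ[E] ((Fin m → ℤ) × I → E) where
  toFun f := fun v => if h : v.1 ∈ Q then f ⟨v, h⟩ else 0
  map_add' := by
    intro f g
    funext v
    by_cases h : v.1 ∈ Q
    · simp [h]
    · simp [h]
  map_smul' := by
    intro c f
    funext v
    by_cases h : v.1 ∈ Q
    · simp [h]
    · simp [h]

omit [CharZero k] [Finite I] in
theorem b7ext_of_mem (Q : Set (Fin m → ℤ)) (f : Ix I Q → E) (v : (Fin m → ℤ) × I)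
    (h : v.1 ∈ Q) : b7ext Q f v = f ⟨v, h⟩ := by
  simp [b7ext, h]

omit [CharZero k] [Finite I] in
theorem b7ext_of_not_mem (Q : Set (Fin m → ℤ)) (f : Ix I Q → E) (v : (Fin m → ℤ) × I)
    (h : v.1 ∉ Q) : b7ext Q f v = 0 := by
  simp [b7ext, h]

omit [CharZero k] [Finite I] in
theorem b7ext_injective (Q : Set (Fin m → ℤ)) :
    Function.Injective (b7ext Q : (Ix I Q → E) →ₗ[E] ((Fin m → ℤ) × I → E)) := by
  intro f g hfg
  funext v
  have := congrFun hfg v.1
  rw [b7ext_of_mem Q f v.1 v.2, b7ext_of_mem Q g v.1 v.2] at this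
  exact this

/-- (3.5) -/
theorem tanOn_of_loc {Z : Sys k (Fin m → ℤ) I} {c h : ℕ} (hc : Z.IsWin c)
    (hh : 2 * c + 1 ≤ h) {x : (Fin m → ℤ) × I → E} (hx : ∀ γ, Z.Gen x (tr γ (cube m h)))
    (p q : Fin m → ℤ) (hg : Z.Gen x (Set.Icc p q)) {ξ : (Fin m → ℤ) × I → E}
    (hξ : Loc k x (cube m h) (Set.Icc p q) ξ) : TanOn k x (Set.Icc p q) ξ := by
  have hQ : (Set.Icc p q).Finite := Set.finite_Icc p q
  have hres : res (b7ext (Set.Icc p q) (res ξ (Set.Icc p q))) (Set.Icc p q)
      = res ξ (Set.Icc p q) := by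
    funext v
    exact b7ext_of_mem _ _ v.1 v.2
  have hle : (Tan k (res x (Set.Icc p q))).map (b7ext (Set.Icc p q)) ≤
      LocS k x (cube m h) (Set.Icc p q) := by
    rintro _ ⟨f, hf, rfl⟩
    refine ⟨fun v hv => b7ext_of_not_mem _ _ v hv, fun γ => ?_⟩
    have h1 : TanOn k x (Set.Icc p q) (b7ext (Set.Icc p q) f) := by
      have h2 : res (b7ext (Set.Icc p q) f) (Set.Icc p q) = f := by
        funext v
        exact b7ext_of_mem _ _ v.1 v.2
      show IsTan k (res x (Set.Icc p q)) (res (b7ext (Set.Icc p q) f) (Set.Icc p q))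
      rw [h2]
      exact hf
    exact h1.mono Set.inter_subset_left
  have : Module.Finite E (LocS k x (cube m h) (Set.Icc p q)) := finite_LocS x _ hQ
  have hfin : Module.finrank E
      ((Tan k (res x (Set.Icc p q))).map (b7ext (Set.Icc p q) :
        (Ix I (Set.Icc p q) → E) →ₗ[E] ((Fin m → ℤ) × I → E))) =
      Module.finrank E (LocS k x (cube m h) (Set.Icc p q)) := by
    rw [finrank_LocS hc hh hx p q]
    have e1 := (Submodule.equivMapOfInjective (b7ext (Set.Icc p q) :
        (Ix I (Set.Icc p q) → E) →ₗ[E] ((Fin m → ℤ) × I → E)) (b7ext_injective _)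
        (Tan k (res x (Set.Icc p q)))).finrank_eq
    rw [← e1, finrank_Tan _ (finite_range_res x hQ)]
    exact (SameRel.trd_eq hg).symm
  have heq := Submodule.eq_of_le_of_finrank_eq hle hfin
  have hmem : b7ext (Set.Icc p q) (res ξ (Set.Icc p q)) ∈
      LocS k x (cube m h) (Set.Icc p q) := by
    refine ⟨fun v hv => b7ext_of_not_mem _ _ v hv, fun γ => ?_⟩
    refine (hξ γ).congr (fun _ _ => rfl) (fun v hv => ?_)
    exact (b7ext_of_mem _ (res ξ (Set.Icc p q)) v hv.1).symm
  rw [← heq] at hmem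
  obtain ⟨f, hf, hfe⟩ := hmem
  have hfξ : f = res ξ (Set.Icc p q) := b7ext_injective _ hfe
  rw [hfξ] at hf
  exact hf

end Pool.Agent.ORG
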