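import Pool.Agent.ORG.Defs
import Pool.Agent.ORG.F1
import Pool.Agent.ORG.F2
import Pool.Agent.ORG.S1

/-!
# MP_08a057_al, ORG module C1 : (4.1) the cut-off operator
(paper: /team-store/ORG_paper.md)
-/

set_option autoImplicit false

namespace Pool.Agent.ORG

open MvPolynomial

variable {k : Type} [Field k] {Γ I E E' : Type} [AddCommGroup Γ] [Field E] [Algebra k E]
  [Field E'] [Algebra k E']

open Sys

theorem shift_apply (Z : Sys k Γ I) (γ : Γ) (p : Γ × I →₀ Z.K) (v : Γ × I) :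
    Z.shift γ p (γ + v.1, v.2) = Z.α (Multiplicative.ofAdd γ) (p v) := by
  have hinj : Function.Injective (fun v : Γ × I => (γ + v.1, v.2)) := by
    rintro ⟨a, i⟩ ⟨b, j⟩ h
    simp only [Prod.mk.injEq, add_right_inj] at h
    exact Prod.ext h.1 h.2
  have h1 : Z.shift γ p = Finsupp.mapDomain (fun v : Γ × I => (γ + v.1, v.2))
      (Finsupp.mapRange.addMonoidHom
        ((Z.α (Multiplicative.ofAdd γ) : Z.K ≃+* Z.K) : Z.K →+ Z.K) p) := rfl
  rw [h1]
  exact Finsupp.mapDomain_apply hinj _ v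

theorem C1_shift_single (Z : Sys k Γ I) (v : Γ × I) :
    Z.shift v.1 (Finsupp.single ((0 : Γ), v.2) 1) = Finsupp.single v 1 := by
  have h1 : Z.shift v.1 (Finsupp.single ((0 : Γ), v.2) 1) =
      Finsupp.mapDomain (fun w : Γ × I => (v.1 + w.1, w.2))
      (Finsupp.mapRange.addMonoidHom
        ((Z.α (Multiplicative.ofAdd v.1) : Z.K ≃+* Z.K) : Z.K →+ Z.K)
        (Finsupp.single ((0 : Γ), v.2) 1)) := rfl
  rw [h1, Finsupp.mapRange.addMonoidHom_apply, Finsupp.mapRange_single, Finsupp.mapDomain_single]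
  simp

/-- sums over a shifted vector -/
theorem C1_shift_sum (Z : Sys k Γ I) (γ : Γ) (p : Γ × I →₀ Z.K) (h : Γ × I → Z.K →+ E) :
    ((Z.shift γ p).sum fun v a => h v a) =
      p.sum fun v a => h (γ + v.1, v.2) (Z.α (Multiplicative.ofAdd γ) a) := by
  have h1 : Z.shift γ p = Finsupp.mapDomain (fun v : Γ × I => (γ + v.1, v.2))
      (Finsupp.mapRange.addMonoidHom
        ((Z.α (Multiplicative.ofAdd γ) : Z.K ≃+* Z.K) : Z.K →+ Z.K) p) := rfl
  rw [h1, Finsupp.sum_mapDomain_index_addMonoidHom, Finsupp.mapRange.addMonoidHom_apply,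
    Finsupp.sum_mapRange_index (fun i => (h _).map_zero)]
  rfl

/-- the homomorphism given by equal relations -/
theorem C1_exists_hom {J F : Type} [Field F] [Algebra k F] {a : J → F} {b : J → E}
    (h : SameRel k a b) : ∃ φ : fld k a →ₐ[k] E, ∀ (j : J) (hj : a j ∈ fld k a),
      φ ⟨a j, hj⟩ = b j := by
  obtain ⟨φ, hφ⟩ := h.exists_equiv
  exact ⟨(fld k b).val.comp φ.toAlgHom, fun j hj => hφ j hj⟩

/-- extension to an additive map -/
theorem C1_exists_ext {F : Type} [Field F] [Algebra k F] (G : IntermediateField k F)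
    (φ : G →ₐ[k] E) : ∃ ψ : F →+ E, (∀ (g : G) (y : F), ψ (g * y) = φ g * ψ y) ∧
      ∀ g : G, ψ g = φ g := by
  obtain ⟨ρ, hρ⟩ := LinearMap.exists_leftInverse_of_injective (Algebra.linearMap G F)
    (by rw [LinearMap.ker_eq_bot]; exact (algebraMap G F).injective)
  refine ⟨(φ : G →+ E).comp (ρ : F →+ G), ?_, ?_⟩
  · intro g y
    show φ (ρ ((g : F) * y)) = φ g * φ (ρ y)
    have h1 : (g : F) * y = g • y := rfl
    rw [h1, map_smul, smul_eq_mul, map_mul]
  · intro g
    show φ (ρ (g : F)) = φ g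
    have h1 : ρ (g : F) = g := LinearMap.congr_fun hρ g
    rw [h1]

/-- values of polynomials -/
theorem C1_hom_aeval {J F : Type} [Field F] [Algebra k F] {G : IntermediateField k F}
    (φ : G →ₐ[k] E) {a : J → F} {b : J → E} (hG : ∀ j, a j ∈ G)
    (hφ : ∀ (j : J) (hj : a j ∈ G), φ ⟨a j, hj⟩ = b j) (Q : MvPolynomial J k) :
    ∃ h : aeval a Q ∈ G, φ ⟨aeval a Q, h⟩ = aeval b Q := by
  have h1 : aeval a Q = ((aeval (fun j => (⟨a j, hG j⟩ : G)) Q : G) : F) := by
    have := comp_aeval_apply (fun j => (⟨a j, hG j⟩ : G)) G.val Q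
    exact this.symm
  refine ⟨by rw [h1]; exact Subtype.mem _, ?_⟩
  have h2 : (⟨aeval a Q, by rw [h1]; exact Subtype.mem _⟩ : G) =
      aeval (fun j => (⟨a j, hG j⟩ : G)) Q := Subtype.ext h1
  rw [h2, comp_aeval_apply]
  congr 2
  funext j
  exact hφ j (hG j)

theorem C1_fld_mono {J J' F : Type} [Field F] [Algebra k F] {a : J → F} {b : J' → F}
    (h : ∀ j, ∃ j', a j = b j') : fld k a ≤ fld k b := by
  apply IntermediateField.adjoin.mono
  rintro _ ⟨j, rfl⟩
  obtain ⟨j', hj'⟩ := h j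
  exact ⟨j', hj'.symm⟩

theorem C1_mem_fld {J F : Type} [Field F] [Algebra k F] (a : J → F) (j : J) : a j ∈ fld k a :=
  IntermediateField.subset_adjoin _ _ (Set.mem_range_self j)

theorem C1_finite_support (Z : Sys k Γ I) {y : Z.K} (hy : y ∈ fld k Z.z) :
    ∃ W : Set Γ, W.Finite ∧ y ∈ fld k (res Z.z W) := by
  classical
  obtain ⟨T, hT, hyT⟩ := IntermediateField.exists_finset_of_mem_adjoin hy
  choose f hf using fun (t : (T : Set Z.K)) => hT t.2
  refine ⟨Set.range (fun t : (T : Set Z.K) => (f t).1), Set.finite_range _, ?_⟩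
  refine (IntermediateField.adjoin.mono k _ _ ?_) hyT
  intro t ht
  exact ⟨⟨f ⟨t, ht⟩, ⟨⟨t, ht⟩, rfl⟩⟩, hf ⟨t, ht⟩⟩

theorem C1_hom_ext {J F : Type} [Field F] [Algebra k F] (a : J → F) (φ φ' : fld k a →ₐ[k] E)
    (h : ∀ j, φ ⟨a j, C1_mem_fld a j⟩ = φ' ⟨a j, C1_mem_fld a j⟩) : φ = φ' := by
  apply AlgHom.ext
  rintro ⟨y, hy⟩
  induction hy using IntermediateField.adjoin_induction with
  | mem x hx =>
    obtain ⟨j, rfl⟩ := hx
    exact h j
  | algebraMap x =>
    exact (φ.commutes x).trans (φ'.commutes x).symm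
  | add x y hx hy h1 h2 =>
    have e : (⟨x + y, add_mem hx hy⟩ : fld k a) = ⟨x, hx⟩ + ⟨y, hy⟩ := rfl
    rw [e, map_add, map_add, h1, h2]
  | inv x hx h1 =>
    have e : (⟨x⁻¹, inv_mem hx⟩ : fld k a) = (⟨x, hx⟩)⁻¹ := rfl
    rw [e, map_inv₀, map_inv₀, h1]
  | mul x y hx hy h1 h2 =>
    have e : (⟨x * y, mul_mem hx hy⟩ : fld k a) = ⟨x, hx⟩ * ⟨y, hy⟩ := rfl
    rw [e, map_mul, map_mul, h1, h2]

/-- pairing of a vector with a configuration, through an additive map -/
noncomputable def C1pair {F : Type} [Field F] {J : Type} (ψ : F →+ E) (η : J → E) :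
    (J →₀ F) →+ E :=
  Finsupp.liftAddHom (fun j => (AddMonoidHom.mulRight (η j)).comp ψ)

theorem C1pair_apply {F : Type} [Field F] {J : Type} (ψ : F →+ E) (η : J → E) (p : J →₀ F) :
    C1pair ψ η p = p.sum (fun j a => ψ a * η j) := rfl

theorem C1pair_single {F : Type} [Field F] {J : Type} (ψ : F →+ E) (η : J → E) (j : J) (a : F) :
    C1pair ψ η (Finsupp.single j a) = ψ a * η j := by
  rw [C1pair_apply, Finsupp.sum_single_index]
  rw [map_zero, zero_mul]

theorem C1pair_smul {F : Type} [Field F] [Algebra k F] {J : Type} {G : IntermediateField k F}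
    {φ : G →ₐ[k] E} {ψ : F →+ E} (hψ : ∀ (g : G) (y : F), ψ (g * y) = φ g * ψ y)
    (η : J → E) (g : G) (p : J →₀ F) : C1pair ψ η ((g : F) • p) = φ g * C1pair ψ η p := by
  induction p using Finsupp.induction_linear with
  | zero => rw [smul_zero, map_zero, mul_zero]
  | add p p' h h' => rw [smul_add, map_add, map_add, h, h', mul_add]
  | single j a =>
    rw [Finsupp.smul_single, C1pair_single, C1pair_single, smul_eq_mul, hψ, mul_assoc]

/-- differentials of relations pair to zero with tangent vectors -/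
theorem C1pair_dvec {J F : Type} [Field F] [Algebra k F] {G : IntermediateField k F}
    {φ : G →ₐ[k] E} {ψ : F →+ E} (hψ : ∀ (g : G) (y : F), ψ (g * y) = φ g * ψ y)
    {a : J → F} {b : J → E} (hG : ∀ j, a j ∈ G)
    (hφ : ∀ (j : J) (hj : a j ∈ G), φ ⟨a j, hj⟩ = b j) (c : F) (ξ : J → E)
    (P : MvPolynomial J k) :
    C1pair ψ ξ (c • dvec k a P) = ψ c * Finsupp.linearCombination E ξ (dvec k b P) := by
  unfold dvec
  rw [Finset.smul_sum, map_sum, map_sum, Finset.mul_sum]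
  refine Finset.sum_congr rfl fun j _ => ?_
  obtain ⟨h, hh⟩ := C1_hom_aeval φ hG hφ (pderiv j P)
  rw [Finsupp.smul_single, C1pair_single, Finsupp.linearCombination_single, smul_eq_mul,
    smul_eq_mul, mul_comm c, ← hh]
  have := hψ ⟨aeval a (pderiv j P), h⟩ c
  rw [show ((⟨aeval a (pderiv j P), h⟩ : G) : F) = aeval a (pderiv j P) from rfl] at this
  rw [this]
  ring

theorem C1pair_map {F : Type} [Field F] {J J' : Type} (ψ : F →+ E) (η : J' → E) (e : J → J')
    (p : J →₀ F) : C1pair ψ η (Finsupp.mapDomain e p) = C1pair ψ (η ∘ e) p := by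
  rw [C1pair_apply, C1pair_apply]
  exact Finsupp.sum_mapDomain_index_addMonoidHom
    (fun j => (AddMonoidHom.mulRight (η j)).comp ψ)

/-- relation vectors come from finitely many relations -/
theorem C1_RV (Z : Sys k Γ I) {q : Γ × I →₀ Z.K} (hq : q ∈ Z.RV Set.univ) :
    ∃ (n : ℕ) (c : Fin n → Z.K) (P : Fin n → MvPolynomial (Γ × I) k),
      (∀ l, aeval Z.z (P l) = 0) ∧ q = ∑ l, c l • dvec k Z.z (P l) := by
  obtain ⟨n, c, g, hg⟩ := Submodule.mem_span_set'.mp hq
  choose P hP using fun l => (g l).2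
  refine ⟨n, c, P, fun l => (hP l).2.1, ?_⟩
  rw [← hg]
  exact Finset.sum_congr rfl fun l _ => by rw [(hP l).2.2]

/-- (4.1) -/
theorem exists_cutoff [Finite I] (Z : Sys k Γ I) (hP : Z.Proj) :
    ∃ W : Set Γ, W.Finite ∧ (0 : Γ) ∈ W ∧ ∀ {E : Type} [Field E] [Algebra k E] (x : Γ × I → E),
      ∃ S : (Γ × I → E) → (Γ × I → E),
        (∀ A : Set Γ, A.Finite → Z.Gen x (msum A W) → ∀ η, TanOn k x A (S η)) ∧
        (∀ u, Z.Gen x (tr u W) → ∀ η, TanOn k x (tr u W) η → ∀ i, S η (u, i) = η (u, i)) ∧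
        (∀ u η η', (∀ v : Γ × I, v.1 ∈ tr u W → η v = η' v) → ∀ i, S η (u, i) = S η' (u, i)) ∧
        (∀ Γ' : AddSubgroup Γ, Per Γ' x → ∀ η, Per Γ' η → Per Γ' (S η)) := by
  classical
  have : Fintype I := Fintype.ofFinite I
  obtain ⟨S0, hequi, hkill, hid, hcoef⟩ := hP
  set s : I → (Γ × I →₀ Z.K) := fun i => S0 (Finsupp.single ((0 : Γ), i) 1) with hs
  choose n c P hPz hPs using fun i => C1_RV Z (hid (Finsupp.single ((0 : Γ), i) 1))
  choose W2 hW2f hW2 using fun (i : I) (v : Γ × I) => C1_finite_support Z (hcoef i v)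
  set W : Set Γ := {0} ∪ ((⋃ i, (fun v : Γ × I => v.1) '' ((s i).support : Set (Γ × I))) ∪
    ((⋃ i, ⋃ l, (fun v : Γ × I => v.1) '' ((P i l).vars : Set (Γ × I))) ∪
      ⋃ i, ⋃ v ∈ ((s i).support : Set (Γ × I)), W2 i v)) with hW
  have hWfin : W.Finite := by
    refine (Set.finite_singleton _).union (Set.Finite.union ?_ (Set.Finite.union ?_ ?_))
    · exact Set.finite_iUnion fun i => ((s i).support.finite_toSet).image _
    · exact Set.finite_iUnion fun i => Set.finite_iUnion fun l =>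
        ((P i l).vars.finite_toSet).image _
    · exact Set.finite_iUnion fun i => Set.Finite.biUnion ((s i).support.finite_toSet)
        (fun v _ => hW2f i v)
  have hW0 : (0 : Γ) ∈ W := Or.inl rfl
  have hWs : ∀ i, ∀ v ∈ (s i).support, v.1 ∈ W := fun i v hv =>
    Or.inr (Or.inl (Set.mem_iUnion.mpr ⟨i, ⟨v, hv, rfl⟩⟩))
  have hWP : ∀ i l, ∀ v ∈ (P i l).vars, v.1 ∈ W := fun i l v hv =>
    Or.inr (Or.inr (Or.inl (Set.mem_iUnion.mpr ⟨i, Set.mem_iUnion.mpr ⟨l, ⟨v, hv, rfl⟩⟩⟩)))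
  have hWc : ∀ i v, s i v ∈ fld k (res Z.z W) := by
    intro i v
    by_cases hv : v ∈ (s i).support
    · refine C1_fld_mono (a := res Z.z (W2 i v)) ?_ (hW2 i v)
      rintro ⟨w, hw⟩
      refine ⟨⟨w, Or.inr (Or.inr (Or.inr ?_))⟩, rfl⟩
      exact Set.mem_iUnion.mpr ⟨i, Set.mem_iUnion₂.mpr ⟨v, hv, hw⟩⟩
    · rw [Finsupp.notMem_support_iff.mp hv]
      exact zero_mem _
  refine ⟨W, hWfin, hW0, ?_⟩
  intro E _ _ x
  -- the additive maps
  have hex : ∀ b : Ix I W → E, ∃ ψ : Z.K →+ E, SameRel k (res Z.z W) b →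
      ∃ φ : fld k (res Z.z W) →ₐ[k] E,
        (∀ (j : Ix I W) (hj : res Z.z W j ∈ fld k (res Z.z W)), φ ⟨res Z.z W j, hj⟩ = b j) ∧
        (∀ (g : fld k (res Z.z W)) (y : Z.K), ψ (g * y) = φ g * ψ y) ∧
        ∀ g : fld k (res Z.z W), ψ g = φ g := by
    intro b
    by_cases h : SameRel k (res Z.z W) b
    · obtain ⟨φ, hφ⟩ := C1_exists_hom h
      obtain ⟨ψ, h1, h2⟩ := C1_exists_ext _ φ
      exact ⟨ψ, fun _ => ⟨φ, hφ, h1, h2⟩⟩
    · exact ⟨0, fun h' => absurd h' h⟩
  choose Ψ hΨ using hex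
  set sh : Γ → (Γ × I → E) → (Γ × I → E) := fun u η v => η (u + v.1, v.2) with hsh
  refine ⟨fun η p => C1pair (Ψ (res (sh p.1 x) W)) (sh p.1 η) (s p.2), ?_, ?_, ?_, ?_⟩
  · -- tangency
    intro A hA hgen η P' hP'
    set G := fld k (res Z.z (msum A W)) with hG
    have hAW : A ⊆ msum A W := fun u hu => ⟨u, hu, 0, hW0, (add_zero u).symm⟩
    obtain ⟨φ, hφ⟩ := C1_exists_hom hgen
    obtain ⟨ψ, hψ1, hψ2⟩ := C1_exists_ext G φ
    have hzG : ∀ v : Γ × I, v.1 ∈ msum A W → Z.z v ∈ G := fun v hv =>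
      C1_mem_fld (res Z.z (msum A W)) ⟨v, hv⟩
    have hφz : ∀ (v : Γ × I) (hv : v.1 ∈ msum A W) (h : Z.z v ∈ G), φ ⟨Z.z v, h⟩ = x v :=
      fun v hv h => hφ ⟨v, hv⟩ h
    have hPz' : aeval (res Z.z A) P' = 0 := ((Gen.mono hgen hAW) P').mpr hP'
    -- the relation vector
    have hmem : dvec k Z.z (rename Subtype.val P') ∈ Z.RV Set.univ := by
      apply Submodule.subset_span
      refine ⟨rename Subtype.val P', fun _ _ => Set.mem_univ _, ?_, rfl⟩
      rw [aeval_rename]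
      exact hPz'
    have h0 := hkill _ hmem
    rw [dvec_rename] at h0
    have h1 : (Z.z ∘ Subtype.val : Ix I A → Z.K) = res Z.z A := rfl
    rw [h1] at h0
    unfold dvec at h0 ⊢
    rw [Finsupp.mapDomain_finset_sum, map_sum] at h0
    have h2 := congrArg (C1pair ψ η) h0
    rw [map_sum, map_zero] at h2
    rw [map_sum, ← h2]
    refine Finset.sum_congr rfl fun j _ => ?_
    rw [Finsupp.linearCombination_single, Finsupp.mapDomain_single]
    obtain ⟨hg, hge⟩ := C1_hom_aeval (G := G) φ (a := res Z.z A) (b := res x A)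
      (fun j => hzG j.1 (hAW j.2)) (fun j hj => hφz j.1 (hAW j.2) hj) (pderiv j P')
    have h3 : Finsupp.single j.1 (aeval (res Z.z A) (pderiv j P')) =
        aeval (res Z.z A) (pderiv j P') • Finsupp.single j.1 (1 : Z.K) := by
      rw [Finsupp.smul_single, smul_eq_mul, mul_one]
    rw [h3, map_smul]
    have h4 := C1pair_smul hψ1 η ⟨aeval (res Z.z A) (pderiv j P'), hg⟩
      (S0 (Finsupp.single j.1 (1 : Z.K)))
    rw [show ((⟨aeval (res Z.z A) (pderiv j P'), hg⟩ : G) : Z.K) =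
      aeval (res Z.z A) (pderiv j P') from rfl] at h4
    rw [h4, hge, smul_eq_mul]
    congr 1
    -- compare the two pairings
    obtain ⟨⟨u, i⟩, hu⟩ := j
    have hu' : u ∈ A := hu
    show C1pair (Ψ (res (sh u x) W)) (sh u η) (s i) = C1pair ψ η (S0 (Finsupp.single (u, i) 1))
    have h5 : S0 (Finsupp.single (u, i) 1) = Z.shift u (s i) := by
      have := hequi u (Finsupp.single ((0 : Γ), i) 1)
      rw [← this]
      congr 1
      exact (C1_shift_single Z (u, i)).symm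
    rw [h5, C1pair_apply, C1pair_apply]
    have h6 := C1_shift_sum Z u (s i) (fun v => (AddMonoidHom.mulRight (η v)).comp ψ)
    have h7 : ((Z.shift u (s i)).sum fun v a => ψ a * η v) =
        (s i).sum fun v a => ψ (Z.α (Multiplicative.ofAdd u) a) * η (u + v.1, v.2) := h6
    rw [h7]
    refine Finset.sum_congr rfl fun v hv => ?_
    show _ * η (u + v.1, v.2) = _ * η (u + v.1, v.2)
    congr 1
    -- the two maps agree on the coefficients
    have huW : tr u W ⊆ msum A W := by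
      intro w hw
      exact ⟨u, hu', w - u, hw, by abel⟩
    have hgu : SameRel k (res Z.z W) (res (sh u x) W) := (gen_tr u).mp (Gen.mono hgen huW)
    obtain ⟨φu, hφu1, hφu2, hφu3⟩ := hΨ _ hgu
    have hval := hφu3 ⟨s i v, hWc i v⟩
    rw [show ((⟨s i v, hWc i v⟩ : fld k (res Z.z W)) : Z.K) = s i v from rfl] at hval
    rw [hval]
    have hmapG : ∀ y ∈ fld k (res Z.z W), Z.α (Multiplicative.ofAdd u) y ∈ G := by
      intro y hy
      have hle : fld k (res Z.z W) ≤
          G.comap (Z.α (Multiplicative.ofAdd u) : Z.K ≃ₐ[k] Z.K).toAlgHom := by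
        rw [IntermediateField.adjoin_le_iff]
        rintro _ ⟨w, rfl⟩
        show Z.α (Multiplicative.ofAdd u) (Z.z w.1) ∈ G
        rw [Z_z_shift]
        exact hzG _ ⟨u, hu', w.1.1, w.2, rfl⟩
      exact hle hy
    let θ : fld k (res Z.z W) →ₐ[k] G :=
      ((Z.α (Multiplicative.ofAdd u) : Z.K ≃ₐ[k] Z.K).toAlgHom.comp
        (fld k (res Z.z W)).val).codRestrict G.toSubalgebra (fun y => hmapG y.1 y.2)
    have hθ : φ.comp θ = φu := by
      apply C1_hom_ext
      intro w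
      rw [hφu1]
      have h8 : θ ⟨res Z.z W w, C1_mem_fld _ w⟩ = ⟨Z.z (u + w.1.1, w.1.2),
          hzG _ ⟨u, hu', w.1.1, w.2, rfl⟩⟩ := Subtype.ext (Z_z_shift Z u w.1)
      show φ (θ ⟨res Z.z W w, C1_mem_fld _ w⟩) = _
      rw [h8]
      exact hφz _ ⟨u, hu', w.1.1, w.2, rfl⟩ _
    rw [← hθ]
    have h9 := hψ2 (θ ⟨s i v, hWc i v⟩)
    exact h9.symm
  · -- values
    intro u hgen η htan i
    have hgu : SameRel k (res Z.z W) (res (sh u x) W) := (gen_tr u).mp hgen
    have htu : TanOn k (sh u x) W (sh u η) := (tanOn_tr u).mp htan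
    obtain ⟨φu, hφu1, hφu2, hφu3⟩ := hΨ _ hgu
    show C1pair (Ψ (res (sh u x) W)) (sh u η) (s i) = η (u, i)
    have h1 : s i = Finsupp.single ((0 : Γ), i) 1 + ∑ l, c i l • dvec k Z.z (P i l) := by
      rw [← hPs i]; abel
    rw [h1, map_add, map_sum, C1pair_single]
    have h2 : ∀ l, C1pair (Ψ (res (sh u x) W)) (sh u η) (c i l • dvec k Z.z (P i l)) = 0 := by
      intro l
      obtain ⟨Q, hQ⟩ := exists_rename_eq_of_vars_subset_range (P i l)
        (Subtype.val : Ix I W → Γ × I) Subtype.val_injective (by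
          intro v hv
          exact ⟨⟨v, hWP i l v hv⟩, rfl⟩)
      rw [← hQ, dvec_rename, ← Finsupp.mapDomain_smul, C1pair_map]
      have h3 : (Z.z ∘ Subtype.val : Ix I W → Z.K) = res Z.z W := rfl
      rw [h3, C1pair_dvec (G := fld k (res Z.z W)) (φ := φu) hφu2 (b := res (sh u x) W)
        (fun j => C1_mem_fld _ j) hφu1]
      have h4 : aeval (res Z.z W) Q = 0 := by
        have := hPz i l
        rw [← hQ, aeval_rename] at this
        exact this
      have h5 := htu Q ((hgu Q).mp h4)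
      have h6 : (sh u η ∘ Subtype.val : Ix I W → E) = res (sh u η) W := rfl
      rw [h6, h5, mul_zero]
    rw [Finset.sum_eq_zero (fun l _ => h2 l), add_zero]
    have h7 := hφu3 1
    rw [map_one] at h7
    have h8 : Ψ (res (sh u x) W) 1 = 1 := h7
    rw [h8, one_mul]
    show η (u + 0, i) = η (u, i)
    rw [add_zero]
  · -- locality
    intro u η η' h i
    show C1pair _ (sh u η) (s i) = C1pair _ (sh u η') (s i)
    rw [C1pair_apply, C1pair_apply]
    refine Finset.sum_congr rfl fun v hv => ?_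
    have h1 : sh u η v = sh u η' v := by
      apply h
      show u + v.1 - u ∈ W
      rw [add_sub_cancel_left]
      exact hWs i v hv
    show _ * sh u η v = _ * sh u η' v
    rw [h1]
  · -- periodicity
    intro Γ' hx η hη γ hγ v
    have h1 : ∀ ζ : Γ × I → E, Per Γ' ζ → sh (γ + v.1) ζ = sh v.1 ζ := by
      intro ζ hζ
      funext w
      show ζ (γ + v.1 + w.1, w.2) = ζ (v.1 + w.1, w.2)
      have := hζ γ hγ (v.1 + w.1, w.2)
      rw [← this, add_assoc]
    show C1pair (Ψ (res (sh (γ + v.1) x) W)) (sh (γ + v.1) η) (s v.2) = _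
    rw [h1 x hx, h1 η hη]

end Pool.Agent.ORG
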