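import Pool.Agent.ORG.Defs
import Pool.Agent.ORG.S1
import Pool.Agent.ORG.S2
import Pool.Agent.ORG.B1
import Pool.Agent.ORG.B2
import Pool.Agent.ORG.B4
import Pool.Agent.ORG.B5
import Pool.Agent.ORG.B6
import Pool.Agent.ORG.C1
import Pool.Agent.ORG.F3

/-!
# MP_08a057_al, ORG module C2 : (4.2) cut-off makes boxes generic
(paper: /team-store/ORG_paper.md)
-/

set_option autoImplicit false

namespace Pool.Agent.ORG

open MvPolynomial

variable {k : Type} [Field k] [CharZero k] {I E : Type} [Finite I] [Field E] [Algebra k E]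
  {m : ℕ}

/-- the property (4.2) with the constant `h0` -/
def N2 (Z : Sys k (Fin m → ℤ) I) (E : Type) [Field E] [Algebra k E] (h0 : ℕ) : Prop :=
  ∀ h : ℕ, h0 ≤ h → ∀ (D : ℕ) (Γ' : AddSubgroup (Fin m → ℤ)), Γ'.FiniteIndex →
    Sparse Γ' (ball m (D + h0)) → ∀ x : (Fin m → ℤ) × I → E, Per Γ' x →
    (∀ γ, Z.Gen x (tr γ (cubeW m h h0))) → Full k Γ' (cube m h) x →
    ∀ p q : Fin m → ℤ, (∀ i, q i - p i ≤ D) → Z.Gen x (Set.Icc p q)

/-- periodic extension of a function on a set which injects modulo `Γ'` -/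
theorem C2_perExt {Γ I E : Type} [AddCommGroup Γ] [Zero E] (Γ' : AddSubgroup Γ) (Q : Set Γ)
    (hQ : ∀ u ∈ Q, ∀ v ∈ Q, u - v ∈ Γ' → u = v) (f : Γ × I → E) :
    ∃ η : Γ × I → E, Per Γ' η ∧ ∀ v : Γ × I, v.1 ∈ Q → η v = f v := by
  classical
  obtain ⟨η, hη⟩ : ∃ η : Γ × I → E, η = fun v =>
      if h : ∃ g ∈ Γ', g + v.1 ∈ Q then f (h.choose + v.1, v.2) else 0 := ⟨_, rfl⟩
  have key : ∀ (v : Γ × I) (g : Γ), g ∈ Γ' → g + v.1 ∈ Q → η v = f (g + v.1, v.2) := by
    intro v g hg hgv
    have h : ∃ g ∈ Γ', g + v.1 ∈ Q := ⟨g, hg, hgv⟩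
    rw [hη]
    simp only
    rw [dif_pos h]
    have h1 : h.choose + v.1 = g + v.1 := by
      apply hQ _ h.choose_spec.2 _ hgv
      rw [add_sub_add_right_eq_sub]
      exact Γ'.sub_mem h.choose_spec.1 hg
    rw [h1]
  refine ⟨η, ?_, ?_⟩
  · intro γ hγ v
    by_cases h : ∃ g ∈ Γ', g + v.1 ∈ Q
    · obtain ⟨g, hg, hgv⟩ := h
      have h1 : g - γ + (γ + v.1) = g + v.1 := by abel
      rw [key v g hg hgv, key (γ + v.1, v.2) (g - γ) (Γ'.sub_mem hg hγ) (by
        show g - γ + (γ + v.1) ∈ Q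
        rw [h1]
        exact hgv)]
      show f (g - γ + (γ + v.1), v.2) = _
      rw [h1]
    · have h' : ¬ ∃ g ∈ Γ', g + (γ + v.1) ∈ Q := by
        rintro ⟨g, hg, hgv⟩
        exact h ⟨g + γ, Γ'.add_mem hg hγ, by rw [add_assoc]; exact hgv⟩
      rw [hη]
      simp only
      rw [dif_neg h, dif_neg h']
  · intro v hv
    rw [key v 0 Γ'.zero_mem (by rw [zero_add]; exact hv)]
    rw [zero_add]

/-- a finite set of sites lies in a ball -/
theorem C2_exists_ball (W : Set (Fin m → ℤ)) (hW : W.Finite) : ∃ w : ℕ, W ⊆ ball m w := by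
  classical
  induction W, hW using Set.Finite.induction_on with
  | empty => exact ⟨0, Set.empty_subset _⟩
  | @insert a s _ _ ih =>
    obtain ⟨w, hw⟩ := ih
    refine ⟨w + ∑ i, (a i).natAbs, ?_⟩
    rw [Set.insert_subset_iff]
    constructor
    · intro i
      have h1 : (a i).natAbs ≤ ∑ i, (a i).natAbs :=
        Finset.single_le_sum (f := fun i => (a i).natAbs) (fun _ _ => Nat.zero_le _)
          (Finset.mem_univ i)
      omega
    · intro u hu i
      have h2 := hw hu i
      push_cast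
      constructor
      · have : (0 : ℤ) ≤ ∑ i, (((a i).natAbs : ℕ) : ℤ) :=
          Finset.sum_nonneg fun _ _ => Int.natCast_nonneg _
        push_cast at this
        linarith [h2.1]
      · have : (0 : ℤ) ≤ ∑ i, (((a i).natAbs : ℕ) : ℤ) :=
          Finset.sum_nonneg fun _ _ => Int.natCast_nonneg _
        push_cast at this
        linarith [h2.2]

/-- (4.2) -/
theorem exists_N2 (Z : Sys k (Fin m → ℤ) I) (hP : Z.Proj) (E : Type) [Field E] [Algebra k E] :
    ∃ h0 : ℕ, N2 Z E h0 := by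
  classical
  obtain ⟨W, hWf, hW0, hS⟩ := exists_cutoff Z hP
  obtain ⟨c, hc⟩ := exists_isWin Z
  obtain ⟨w, hw⟩ := C2_exists_ball W hWf
  refine ⟨2 * c + 1 + 2 * w, ?_⟩
  intro h hh D Γ' hfin hsp x hper hgen hfull p q hD
  obtain ⟨S, hSa, hSb, -, hSd⟩ := hS x
  have hx : ∀ γ, Z.Gen x (tr γ (cube m h)) := by
    intro γ
    refine Gen.mono (hgen γ) ?_
    intro u hu i
    have h1 := hu i
    push_cast
    constructor
    · linarith [h1.1]
    · linarith [h1.2]
  have hh' : 2 * c + 1 ≤ h := by omega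
  have hQf : (Set.Icc p q).Finite := Set.finite_Icc p q
  -- the key claim
  have key : ∀ ξ, Loc k x (cube m h) (Set.Icc p q) ξ → TanOn k x (Set.Icc p q) ξ := by
    intro ξ hξ
    obtain ⟨Qp, hQp⟩ : ∃ Qp : Set (Fin m → ℤ),
      Qp = Set.Icc (fun i => p i - w) (fun i => q i + w) := ⟨_, rfl⟩
    have hQQ : Set.Icc p q ⊆ Set.Icc (fun i => p i - (w : ℤ)) (fun i => q i + w) := by
      intro u hu
      refine ⟨fun i => ?_, fun i => ?_⟩
      · have := hu.1 i
        show p i - (w : ℤ) ≤ u i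
        linarith
      · have := hu.2 i
        show u i ≤ q i + (w : ℤ)
        linarith
    obtain ⟨ξp, hξp, hξpe⟩ := loc_extend hc hh' hx p q _ _ hQQ hξ
    rw [← hQp] at hξp hQQ
    obtain ⟨η, hηper, hη⟩ := C2_perExt Γ' Qp (by
      intro u hu v hv huv
      rw [hQp] at hu hv
      have h1 := hsp (u - v) (by
        intro i
        have a1 : p i - (w : ℤ) ≤ u i := hu.1 i
        have a2 : u i ≤ q i + (w : ℤ) := hu.2 i
        have a3 : p i - (w : ℤ) ≤ v i := hv.1 i
        have a4 : v i ≤ q i + (w : ℤ) := hv.2 i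
        have a5 := hD i
        show -((D + (2 * c + 1 + 2 * w) : ℕ) : ℤ) ≤ u i - v i ∧
          u i - v i ≤ ((D + (2 * c + 1 + 2 * w) : ℕ) : ℤ)
        push_cast
        constructor <;> linarith) huv
      exact sub_eq_zero.mp h1) ξp
    have hT : TanOn k x Set.univ (S η) := by
      apply hfull (S η) (hSd Γ' hper η hηper)
      intro γ
      apply hSa (tr γ (cube m h))
      · rw [tr_cube_eq_Icc]
        exact Set.finite_Icc _ _
      · refine Gen.mono (hgen γ) ?_
        rintro u ⟨a, ha, b, hb, rfl⟩ i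
        have a1 := ha i
        have a2 := hw hb i
        show -((2 * c + 1 + 2 * w : ℕ) : ℤ) ≤ (a + b - γ) i ∧
          (a + b - γ) i ≤ h + ((2 * c + 1 + 2 * w : ℕ) : ℤ)
        simp only [Pi.sub_apply, Pi.add_apply] at a1 ⊢
        push_cast
        constructor <;> linarith [a1.1, a1.2, a2.1, a2.2]
    have hTQ : TanOn k x (Set.Icc p q) (S η) := hT.mono (Set.subset_univ _)
    refine hTQ.congr (fun v _ => rfl) ?_
    intro v hv
    -- translates of the window
    have hsub1 : tr v.1 W ⊆ tr (fun i => v.1 i - w) (cube m h) := by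
      intro u hu i
      have a1 := hw hu i
      show 0 ≤ u i - (v.1 i - (w : ℤ)) ∧ u i - (v.1 i - (w : ℤ)) ≤ h
      simp only [Pi.sub_apply] at a1
      have a2 : (2 * (w : ℤ)) ≤ h := by exact_mod_cast (by omega : 2 * w ≤ h)
      constructor <;> linarith [a1.1, a1.2]
    have hsub2 : tr v.1 W ⊆ Qp := by
      intro u hu
      rw [hQp]
      have a1 := hw hu
      refine ⟨fun i => ?_, fun i => ?_⟩
      · have a2 := (a1 i).1
        have a3 := hv.1 i
        show p i - (w : ℤ) ≤ u i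
        simp only [Pi.sub_apply] at a2
        linarith
      · have a2 := (a1 i).2
        have a3 := hv.2 i
        show u i ≤ q i + (w : ℤ)
        simp only [Pi.sub_apply] at a2
        linarith
    have h1 : TanOn k x (tr v.1 W) η := by
      have h2 := (hξp (fun i => v.1 i - w)).mono (Set.subset_inter hsub2 hsub1)
      exact h2.congr (fun v _ => rfl) (fun v hv => (hη v (hsub2 hv)).symm)
    have h2 := hSb v.1 (Gen.mono (hx _) hsub1) η h1 v.2
    rw [show v = (v.1, v.2) from rfl, h2, hη _ (hQQ hv)]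
    exact hξpe _ hv
  apply gen_box hc hh' hx p q
  rw [← finrank_LocS hc hh' hx p q]
  unfold trdOn
  rw [← finrank_Tan _ (finite_range_res x hQf)]
  have : Module.Finite E (Tan k (res x (Set.Icc p q))) := finite_Tan _ (finite_range_res x hQf)
  let f : LocS k x (cube m h) (Set.Icc p q) →ₗ[E] Tan k (res x (Set.Icc p q)) :=
    { toFun := fun ξ => ⟨res ξ.1 (Set.Icc p q), key ξ.1 ξ.2.2⟩
      map_add' := fun _ _ => rfl
      map_smul' := fun _ _ => rfl }
  apply LinearMap.finrank_le_finrank_of_injective (f := f)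
  intro ξ η hξη
  apply Subtype.ext
  funext v
  by_cases hv : v.1 ∈ Set.Icc p q
  · have h1 : res ξ.1 (Set.Icc p q) = res η.1 (Set.Icc p q) := congrArg Subtype.val hξη
    exact congrFun h1 ⟨v, hv⟩
  · rw [ξ.2.1 v hv, η.2.1 v hv]

end Pool.Agent.ORG
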