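import Mathlib

/-!
# MP_08a057_al : one-relator groups with locally free derived group : definitions
(paper: /team-store/ORG_paper.md)
-/

set_option autoImplicit false

namespace Pool.Agent.ORG

open MvPolynomial

/-! ## Families of elements of a field -/

section Families

variable (k : Type) [Field k] {J E E' : Type} [Field E] [Algebra k E] [Field E'] [Algebra k E']

/-- the field generated by a family -/
abbrev fld (a : J → E) : IntermediateField k E := IntermediateField.adjoin k (Set.range a)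

/-- two families satisfy the same polynomial relations over `k` -/
def SameRel (a : J → E) (b : J → E') : Prop :=
  ∀ P : MvPolynomial J k, aeval a P = 0 ↔ aeval b P = 0

/-- all relations of `a` are relations of `b` -/
def Incl (a : J → E) (b : J → E') : Prop :=
  ∀ P : MvPolynomial J k, aeval a P = 0 → aeval b P = 0

/-- the differential of the polynomial `P` at the point `b` -/
noncomputable def dvec (b : J → E) (P : MvPolynomial J k) : J →₀ E :=
  ∑ j ∈ P.vars, Finsupp.single j (aeval b (pderiv j P))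

/-- `ξ` is a tangent vector of the family `b` : it kills the differentials of all relations -/
def IsTan (b ξ : J → E) : Prop :=
  ∀ P : MvPolynomial J k, aeval b P = 0 → Finsupp.linearCombination E ξ (dvec k b P) = 0

/-- the space of tangent vectors -/
noncomputable def Tan (b : J → E) : Submodule E (J → E) where
  carrier := {ξ | IsTan k b ξ}
  add_mem' := by
    intro ξ η h h' P hP
    have := h P hP
    have := h' P hP
    simp_all [Finsupp.linearCombination_apply, Finsupp.sum, mul_add, Finset.sum_add_distrib]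
  zero_mem' := by
    intro P _
    simp
  smul_mem' := by
    intro c ξ h P hP
    have h1 := h P hP
    rw [Finsupp.linearCombination_apply, Finsupp.sum] at h1 ⊢
    have : ∀ x ∈ (dvec k b P).support, (dvec k b P) x • (c • ξ) x =
        c * ((dvec k b P) x • ξ x) := by
      intro x _
      simp only [Pi.smul_apply, smul_eq_mul]
      ring
    rw [Finset.sum_congr rfl this, ← Finset.mul_sum, h1, mul_zero]

/-- transcendence degree of the field generated by a family (used for families with finite range) -/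
noncomputable def trd (a : J → E) : ℕ := Cardinal.toNat (Algebra.trdeg k (fld k a))

/-- the ideal of `E[X_I]` generated by the relations of the family `c` over the field `k(a)` -/
noncomputable def relIdeal {I : Type} (a : J → E) (c : I → E) : Ideal (MvPolynomial I E) :=
  Ideal.span {f | ∃ P : MvPolynomial I (fld k a), aeval c P = 0 ∧
    f = MvPolynomial.map (algebraMap (fld k a) E) P}

/-- `c` is determined over `a` by its relations over the subfamily `a ∘ e` -/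
def DET {J' I : Type} (a : J → E) (e : J' → J) (c : I → E) : Prop :=
  relIdeal k a c ≤ relIdeal k (a ∘ e) c

end Families

/-! ## Sites, letters, restriction to sets of sites -/

section Sites

variable {Γ I E : Type}

/-- indices over a set of sites -/
abbrev Ix (I : Type) {Γ : Type} (A : Set Γ) : Type := {v : Γ × I // v.1 ∈ A}

/-- restriction of a configuration to a set of sites -/
def res (x : Γ × I → E) (A : Set Γ) : Ix I A → E := fun v => x v.1

variable [AddCommGroup Γ]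

/-- translate of a set -/
def tr (γ : Γ) (A : Set Γ) : Set Γ := {u | u - γ ∈ A}

/-- Minkowski sum of two sets -/
def msum (A B : Set Γ) : Set Γ := {u | ∃ a ∈ A, ∃ b ∈ B, u = a + b}

/-- `x` is invariant under translation by `Γ'` -/
def Per (Γ' : AddSubgroup Γ) (x : Γ × I → E) : Prop :=
  ∀ γ ∈ Γ', ∀ v : Γ × I, x (γ + v.1, v.2) = x v

/-- `Γ'` meets `F` at most in `0` -/
def Sparse (Γ' : AddSubgroup Γ) (F : Set Γ) : Prop := ∀ u ∈ F, u ∈ Γ' → u = 0

variable (k : Type) [Field k] [Field E] [Algebra k E]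

/-- `ξ` is tangent on the set of sites `A` at the configuration `x` -/
def TanOn (x : Γ × I → E) (A : Set Γ) (ξ : Γ × I → E) : Prop := IsTan k (res x A) (res ξ A)

/-- transcendence degree of the field generated by the letters on the sites `A` -/
noncomputable def trdOn (x : Γ × I → E) (A : Set Γ) : ℕ := trd k (res x A)

/-- fullness of a `Γ'`-periodic configuration -/
def Full (Γ' : AddSubgroup Γ) (V : Set Γ) (x : Γ × I → E) : Prop :=
  ∀ ξ : Γ × I → E, Per Γ' ξ → (∀ γ, TanOn k x (tr γ V) ξ) → TanOn k x Set.univ ξ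

end Sites

/-! ## Systems -/

/-- A system over `Γ` with letters `I`. -/
structure Sys (k Γ I : Type) [Field k] [AddCommGroup Γ] where
  /-- the field -/
  K : Type
  [fK : Field K]
  [aK : Algebra k K]
  /-- the action of `Γ` -/
  α : Multiplicative Γ →* (K ≃ₐ[k] K)
  /-- the letters at the site `0` -/
  z0 : I → K

attribute [instance] Sys.fK Sys.aK

namespace Sys

variable {k Γ I : Type} [Field k] [AddCommGroup Γ] (Z : Sys k Γ I)

/-- the generic configuration -/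
def z : Γ × I → Z.K := fun v => Z.α (Multiplicative.ofAdd v.1) (Z.z0 v.2)

/-- the action of `Γ` on vectors -/
noncomputable def shift (γ : Γ) : (Γ × I →₀ Z.K) →+ (Γ × I →₀ Z.K) :=
  (Finsupp.mapDomain.addMonoidHom (fun v : Γ × I => (γ + v.1, v.2))).comp
    (Finsupp.mapRange.addMonoidHom ((Z.α (Multiplicative.ofAdd γ) : Z.K ≃+* Z.K) : Z.K →+ Z.K))

/-- the relations of the letters at `s` over the letters on `A` -/
noncomputable def relAt (s : Γ) (A : Set Γ) : Ideal (MvPolynomial I Z.K) :=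
  relIdeal k (res Z.z A) (fun i => Z.z (s, i))

/-- the letters at `s` are determined over `A` by their relations over `N` (`N ⊆ A`) -/
def Det (s : Γ) (A N : Set Γ) : Prop := Z.relAt s A ≤ Z.relAt s N

/-- `x` is generic on `A` -/
def Gen {E : Type} [Field E] [Algebra k E] (x : Γ × I → E) (A : Set Γ) : Prop :=
  SameRel k (res Z.z A) (res x A)

/-- rank of a set of sites -/
noncomputable def r (A : Set Γ) : ℕ := trdOn k Z.z A

/-- relation vectors supported on `A` -/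
noncomputable def RV (A : Set Γ) : Submodule Z.K (Γ × I →₀ Z.K) :=
  Submodule.span Z.K {p | ∃ P : MvPolynomial (Γ × I) k, (∀ v ∈ P.vars, v.1 ∈ A) ∧
    aeval Z.z P = 0 ∧ p = dvec k Z.z P}

/-- the equivariant section -/
def Proj : Prop :=
  ∃ S : (Γ × I →₀ Z.K) →ₗ[Z.K] (Γ × I →₀ Z.K),
    (∀ γ p, S (Z.shift γ p) = Z.shift γ (S p)) ∧
    (∀ p ∈ Z.RV Set.univ, S p = 0) ∧
    (∀ p, S p - p ∈ Z.RV Set.univ) ∧
    (∀ i v, S (Finsupp.single ((0 : Γ), i) 1) v ∈ fld k Z.z)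

/-- transport along an isomorphism -/
def map {Γ' : Type} [AddCommGroup Γ'] (e : Γ ≃+ Γ') : Sys k Γ' I where
  K := Z.K
  α := Z.α.comp (AddMonoidHom.toMultiplicative (e.symm : Γ' →+ Γ))
  z0 := Z.z0

end Sys

section Slab

variable {k Γ₀ I : Type} [Field k] [AddCommGroup Γ₀]

/-- The slab system of thickness `C` : sites `Γ₀`, letters `(t, i)` with `0 ≤ t ≤ C`. -/
noncomputable def Sys.slab (Z : Sys k (Γ₀ × ℤ) I) (C : ℕ) : Sys k Γ₀ (Fin (C + 1) × I) where
  K := Z.K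
  α := Z.α.comp (AddMonoidHom.toMultiplicative (AddMonoidHom.inl Γ₀ ℤ))
  z0 := fun v => Z.z ((0, (v.1.val : ℤ)), v.2)

/-- direction data -/
structure DirData (Z : Sys k (Γ₀ × ℤ) I) (N Nm : Set (Γ₀ × ℤ)) (c : ℕ) : Prop where
  finN : N.Finite
  finNm : Nm.Finite
  levN : ∀ v ∈ N, -(c : ℤ) ≤ v.2 ∧ v.2 ≤ -1
  levNm : ∀ v ∈ Nm, 1 ≤ v.2 ∧ v.2 ≤ c
  up : ∀ (ζ : Γ₀ →+ ℤ) (A : Set (Γ₀ × ℤ)), A.Finite →
    (∀ v ∈ A, v.2 < 0 ∨ (v.2 = 0 ∧ ζ v.1 < 0)) → Z.Det 0 (A ∪ N) N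
  down : ∀ (ζ : Γ₀ →+ ℤ) (A : Set (Γ₀ × ℤ)), A.Finite →
    (∀ v ∈ A, 0 < v.2 ∨ (v.2 = 0 ∧ ζ v.1 < 0)) → Z.Det 0 (A ∪ Nm) Nm

/-- levels `a ≤ t ≤ b` -/
def lev (a b : ℤ) : Set (Γ₀ × ℤ) := {v | a ≤ v.2 ∧ v.2 ≤ b}

/-- the pre-section of a slab -/
def Sys.PProj (Z : Sys k (Γ₀ × ℤ) I) (a b : ℤ) : Prop :=
  ∃ B : (((Γ₀ × ℤ) × I) →₀ Z.K) →ₗ[Z.K] (((Γ₀ × ℤ) × I) →₀ Z.K),
    (∀ (γ : Γ₀) p, B (Z.shift (γ, 0) p) = Z.shift (γ, 0) (B p)) ∧
    (∀ p, B p ∈ Z.RV Set.univ) ∧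
    (∀ p ∈ Z.RV (lev a b), B p = p) ∧
    (∀ t i v, B (Finsupp.single (((0 : Γ₀), t), i) 1) v ∈ fld k Z.z)

end Slab

/-! ## Boxes in `ℤ^m` -/

section Boxes

variable {m : ℕ}

/-- the cube `[0,h]^m` -/
def cube (m h : ℕ) : Set (Fin m → ℤ) := {u | ∀ i, 0 ≤ u i ∧ u i ≤ h}

/-- the cube `[-w,h+w]^m` -/
def cubeW (m h w : ℕ) : Set (Fin m → ℤ) := {u | ∀ i, -(w : ℤ) ≤ u i ∧ u i ≤ h + w}

/-- the ball `[-n,n]^m` -/
def ball (m n : ℕ) : Set (Fin m → ℤ) := {u | ∀ i, -(n : ℤ) ≤ u i ∧ u i ≤ n}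

/-- the box with corners `-a`, `b` -/
def bx (a b : Fin m → ℕ) : Set (Fin m → ℤ) := {u | ∀ i, -(a i : ℤ) ≤ u i ∧ u i ≤ b i}

/-- lexicographic order -/
def lexlt (u v : Fin m → ℤ) : Prop := ∃ i, (∀ j, j < i → u j = v j) ∧ u i < v i

/-- the orders used to fill boxes -/
def olt (o : Option (Fin m × Bool)) (u v : Fin m → ℤ) : Prop :=
  match o with
  | none => lexlt u v
  | some (j, true) => u j < v j ∨ (u j = v j ∧ lexlt u v)
  | some (j, false) => v j < u j ∨ (u j = v j ∧ lexlt u v)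

/-- sites of the slab over `Q` with levels in `[a,b]` -/
def sl {Γ₀ : Type} (Q : Set Γ₀) (a b : ℤ) : Set (Γ₀ × ℤ) := {v | v.1 ∈ Q ∧ a ≤ v.2 ∧ v.2 ≤ b}

end Boxes

section Loc

variable {Γ I E : Type} [AddCommGroup Γ] (k : Type) [Field k] [Field E] [Algebra k E]

/-- `ξ` is tangent on the intersections of `A` with all translates of `V` -/
def Loc (x : Γ × I → E) (V A : Set Γ) (ξ : Γ × I → E) : Prop := ∀ γ, TanOn k x (A ∩ tr γ V) ξ

end Loc

/-- the constant `c` works in (3.1) for all orders -/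
def Sys.IsWin {k I : Type} [Field k] {m : ℕ} (Z : Sys k (Fin m → ℤ) I) (c : ℕ) : Prop :=
  ∀ (o : Option (Fin m × Bool)) (a b : Fin m → ℕ),
    Z.Det 0 ({u | olt o u 0} ∩ bx a b)
      ({u | olt o u 0} ∩ bx (fun i => min (a i) c) (fun i => min (b i) c))

section Long

variable {k Ω I : Type} [Field k] [Field Ω] [Algebra k Ω] {m : ℕ}

/-- `Γ₀'`-periodicity of a configuration on `Γ₀ × ℤ` -/
def Per0 {Γ₀ E : Type} [AddCommGroup Γ₀] (Γ' : AddSubgroup Γ₀) (x : (Γ₀ × ℤ) × I → E) : Prop :=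
  Per (Γ'.prod ⊥) x

/-- local solutions on the levels `[a,b]` (windows `V × [t,t+C]`) -/
def Lsol (k : Type) [Field k] [Algebra k Ω] (C h : ℕ) (Γ' : AddSubgroup (Fin m → ℤ))
    (x : ((Fin m → ℤ) × ℤ) × I → Ω) (a b : ℤ) (ξ : ((Fin m → ℤ) × ℤ) × I → Ω) : Prop :=
  Per0 Γ' ξ ∧ ∀ (γ : Fin m → ℤ) (t : ℤ), a ≤ t → t + C ≤ b →
    TanOn k x (sl (tr γ (cube m h)) t (t + C)) ξ

/-- fullness on the levels `[a,b]` -/
def FullOn (k : Type) [Field k] [Algebra k Ω] (C h : ℕ) (Γ' : AddSubgroup (Fin m → ℤ))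
    (x : ((Fin m → ℤ) × ℤ) × I → Ω) (a b : ℤ) : Prop :=
  ∀ ξ, Lsol k C h Γ' x a b ξ → TanOn k x (lev a b) ξ

/-- number of new free letters per site -/
noncomputable def rhoP (Z : Sys k ((Fin m → ℤ) × ℤ) I) (N : Set ((Fin m → ℤ) × ℤ)) : ℕ :=
  Z.r (N ∪ {0}) - Z.r N

/-- `STATE(x;a,b)` of the paper (boxes with side lengths `≤ D`) -/
structure State (Z : Sys k ((Fin m → ℤ) × ℤ) I) (N : Set ((Fin m → ℤ) × ℤ)) (C h D : ℕ)
    (Γ' : AddSubgroup (Fin m → ℤ)) (x : ((Fin m → ℤ) × ℤ) × I → Ω) (a b : ℤ) : Prop where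
  per : Per0 Γ' x
  gen : ∀ t : ℤ, a ≤ t → t + C ≤ b → ∀ p q : Fin m → ℤ, (∀ i, q i - p i ≤ D) →
    Z.Gen x (sl (Set.Icc p q) t (t + C))
  full : FullOn k C h Γ' x a b
  trd : ∀ l : ℤ, a + C < l → l ≤ b →
    trdOn k x (lev a l) = trdOn k x (lev a (l - 1)) + Γ'.index * rhoP Z N

/-- a long full slab configuration on the levels `[0,B]`: generic on boxes of side `≤ D` and
thickness `G` -/
structure Long (Z : Sys k ((Fin m → ℤ) × ℤ) I) (C h D G : ℕ)
    (Γ' : AddSubgroup (Fin m → ℤ)) (x : ((Fin m → ℤ) × ℤ) × I → Ω) (B : ℕ) : Prop where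
  per : Per0 Γ' x
  gen : ∀ t : ℤ, 0 ≤ t → t + G ≤ B → ∀ p q : Fin m → ℤ, (∀ i, q i - p i ≤ D) →
    Z.Gen x (sl (Set.Icc p q) t (t + G))
  full : ∀ a b : ℤ, 0 ≤ a → a + C ≤ b → b ≤ B → FullOn k C h Γ' x a b
  ext : ∀ a b : ℤ, 0 ≤ a → a + C ≤ b → b ≤ B → ∀ ξ, Lsol k C h Γ' x a b ξ →
    ∃ ξ', Lsol k C h Γ' x 0 B ξ' ∧ ∀ v, v.1 ∈ lev a b → ξ' v = ξ v

/-- translation of the levels by `M` -/
def up {Γ₀ E : Type} (M : ℤ) (x : (Γ₀ × ℤ) × I → E) : (Γ₀ × ℤ) × I → E :=
  fun v => x ((v.1.1, v.1.2 + M), v.2)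

/-- the window with levels `t..t+C` as a configuration of the slab system -/
def wnd {Γ₀ E : Type} (C : ℕ) (t : ℤ) (x : (Γ₀ × ℤ) × I → E) : Γ₀ × (Fin (C + 1) × I) → E :=
  fun v => x ((v.1, t + (v.2.1.val : ℤ)), v.2.2)

end Long

/-- The statement of theorem (C) for the group `Γ`. -/
def CThm (k Ω Γ : Type) [Field k] [Field Ω] [Algebra k Ω] [AddCommGroup Γ] : Prop :=
  ∀ (I : Type) [Finite I] (Z : Sys k Γ I), Z.Proj →
    ∃ Vs : Set Γ, Vs.Finite ∧ ∀ V1 F : Set Γ, V1.Finite → F.Finite →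
      ∃ (Γ' : AddSubgroup Γ) (x : Γ × I → Ω), Γ'.FiniteIndex ∧ Sparse Γ' F ∧ Per Γ' x ∧
        (∀ γ, Z.Gen x (tr γ V1)) ∧ Full k Γ' Vs x

end Pool.Agent.ORG
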