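import Pool.Agent.ORG.SysOfIdeal

/-! Differentials and dual numbers; the action of the group on relation vectors. -/

set_option autoImplicit false

namespace Pool.Agent.ORG

open MvPolynomial

section
variable {k J E : Type} [Field k] [Field E] [Algebra k E]

theorem du_apply (b : J → E) (P : MvPolynomial J k) (j : J) :
    dvec k b P j = aeval b (pderiv j P) := by
  classical
  unfold dvec
  rw [Finsupp.finsetSum_apply]
  by_cases hj : j ∈ P.vars
  · rw [Finset.sum_eq_single j]
    · simp
    · intro i _ hij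
      rw [Finsupp.single_apply, if_neg hij]
    · intro h
      exact absurd hj h
  · rw [pderiv_eq_zero_of_notMem_vars hj, map_zero]
    apply Finset.sum_eq_zero
    intro i hi
    rw [Finsupp.single_apply, if_neg]
    rintro rfl
    exact hj hi

theorem du_add (b : J → E) (P Q : MvPolynomial J k) :
    dvec k b (P + Q) = dvec k b P + dvec k b Q := by
  ext j
  rw [Finsupp.add_apply, du_apply, du_apply, du_apply, map_add, map_add]

theorem du_mul (b : J → E) (P Q : MvPolynomial J k) :
    dvec k b (P * Q) = aeval b Q • dvec k b P + aeval b P • dvec k b Q := by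
  ext j
  rw [Finsupp.add_apply, Finsupp.smul_apply, Finsupp.smul_apply, du_apply, du_apply, du_apply,
    pderiv_mul, map_add, map_mul, map_mul, smul_eq_mul, smul_eq_mul]
  ring

theorem du_C (b : J → E) (a : k) : dvec k b (C a) = 0 := by
  ext j
  rw [du_apply, pderiv_C, map_zero]
  rfl

theorem du_X (b : J → E) (i : J) : dvec k b (X i) = Finsupp.single i 1 := by
  classical
  ext j
  rw [du_apply, pderiv_X, Finsupp.single_apply, Pi.single_apply]
  by_cases h : i = j
  · rw [if_pos h, if_pos h, map_one]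
  · rw [if_neg h, if_neg h, map_zero]

/-- evaluation at dual numbers -/
theorem aeval_dual (b ξ : J → E) (P : MvPolynomial J k) :
    aeval (fun j => (TrivSqZeroExt.inl (b j) + TrivSqZeroExt.inr (ξ j) : DualNumber E)) P =
      TrivSqZeroExt.inl (aeval b P) +
        TrivSqZeroExt.inr (Finsupp.linearCombination E ξ (dvec k b P)) := by
  induction P using MvPolynomial.induction_on with
  | C a =>
    rw [aeval_C, aeval_C, du_C, map_zero, TrivSqZeroExt.inr_zero, add_zero]
    rfl
  | add P Q hP hQ =>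
    rw [map_add, map_add, hP, hQ, du_add, map_add]
    ext
    · simp
    · simp
  | mul_X P i hP =>
    rw [map_mul, map_mul, hP, du_mul, du_X, aeval_X, aeval_X, map_add, map_smul, map_smul,
      Finsupp.linearCombination_single]
    ext
    · simp
    · simp
      ring

theorem isTan_iff_dual (b ξ : J → E) : IsTan k b ξ ↔ ∀ P : MvPolynomial J k, aeval b P = 0 →
    aeval (fun j => (TrivSqZeroExt.inl (b j) + TrivSqZeroExt.inr (ξ j) : DualNumber E)) P = 0 := by
  constructor
  · intro h P hP
    rw [aeval_dual, hP, h P hP]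
    simp
  · intro h P hP
    have h1 := h P hP
    rw [aeval_dual, hP] at h1
    have h2 := congrArg TrivSqZeroExt.snd h1
    simpa using h2

end

section
variable {k Γ I : Type} [Field k] [AddCommGroup Γ] (Z : Sys k Γ I)

theorem Sys.z_add (γ : Γ) (v : Γ × I) :
    Z.z (γ + v.1, v.2) = Z.α (Multiplicative.ofAdd γ) (Z.z v) := by
  show Z.α (Multiplicative.ofAdd (γ + v.1)) (Z.z0 v.2) = _
  rw [ofAdd_add, map_mul, AlgEquiv.mul_apply]
  rfl

theorem Sys.aeval_rename (γ : Γ) (f : MvPolynomial (Γ × I) k) :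
    aeval Z.z (rename (trE I γ) f) = Z.α (Multiplicative.ofAdd γ) (aeval Z.z f) := by
  rw [MvPolynomial.aeval_rename]
  have h1 : Z.z ∘ (trE I γ) = fun v => (Z.α (Multiplicative.ofAdd γ) : Z.K →ₐ[k] Z.K) (Z.z v) := by
    funext v
    exact Z.z_add γ v
  rw [h1]
  exact (MvPolynomial.comp_aeval_apply Z.z (Z.α (Multiplicative.ofAdd γ) : Z.K →ₐ[k] Z.K) f).symm

theorem Sys.shift_apply (γ : Γ) (q : Γ × I →₀ Z.K) (v : Γ × I) :
    Z.shift γ q (trE I γ v) = Z.α (Multiplicative.ofAdd γ) (q v) := by
  unfold Sys.shift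
  rw [AddMonoidHom.comp_apply]
  have h1 : ∀ q' : Γ × I →₀ Z.K, (Finsupp.mapDomain.addMonoidHom
      (fun v : Γ × I => (γ + v.1, v.2))) q' (trE I γ v) = q' v := by
    intro q'
    exact Finsupp.mapDomain_apply (trE I γ).injective q' v
  rw [h1]
  rfl

theorem Sys.shift_apply' (γ : Γ) (q : Γ × I →₀ Z.K) (v : Γ × I) :
    Z.shift γ q v = Z.α (Multiplicative.ofAdd γ) (q (v.1 - γ, v.2)) := by
  rw [← Z.shift_apply γ q (v.1 - γ, v.2)]
  congr 1
  rw [trE_apply]
  ext
  · simp
  · rfl

theorem Sys.shift_zero (q : Γ × I →₀ Z.K) : Z.shift 0 q = q := by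
  ext v
  rw [Z.shift_apply', sub_zero, ofAdd_zero, map_one]
  rfl

theorem Sys.shift_add (γ γ' : Γ) (q : Γ × I →₀ Z.K) :
    Z.shift (γ + γ') q = Z.shift γ (Z.shift γ' q) := by
  ext v
  rw [Z.shift_apply', Z.shift_apply', Z.shift_apply', ofAdd_add, map_mul, AlgEquiv.mul_apply,
    sub_sub]

theorem Sys.shift_smul (γ : Γ) (c : Z.K) (q : Γ × I →₀ Z.K) :
    Z.shift γ (c • q) = Z.α (Multiplicative.ofAdd γ) c • Z.shift γ q := by
  ext v
  rw [Z.shift_apply', Finsupp.smul_apply, Finsupp.smul_apply, Z.shift_apply', smul_eq_mul, map_mul,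
    smul_eq_mul]

theorem Sys.shift_dvec (γ : Γ) (f : MvPolynomial (Γ × I) k) :
    Z.shift γ (dvec k Z.z f) = dvec k Z.z (rename (trE I γ) f) := by
  ext v
  obtain ⟨w, rfl⟩ := (trE I γ).surjective v
  rw [Z.shift_apply, du_apply, du_apply, pderiv_rename (trE I γ).injective, Z.aeval_rename]

end

end Pool.Agent.ORG
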