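import Pool.Agent.ORG.Defs
import Pool.Agent.ORG.F1
import Pool.Agent.ORG.F2
import Pool.Agent.ORG.F4
import Pool.Agent.ORG.S1

/-!
# MP_08a057_al, ORG module E1 : (6.1) normal form relation at one site
(paper: /team-store/ORG_paper.md)
-/

set_option autoImplicit false

namespace Pool.Agent.ORG

open MvPolynomial

variable {k : Type} [Field k] {Γ I E E' : Type} [AddCommGroup Γ] [Field E] [Algebra k E]
  [Field E'] [Algebra k E']

open Sys

/-! ### Auxiliary facts -/

theorem e1_exists_rename {A : Set Γ} {P : MvPolynomial (Γ × I) k} (hP : ∀ v ∈ P.vars, v.1 ∈ A) :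
    ∃ Q : MvPolynomial (Ix I A) k, rename (Subtype.val : Ix I A → Γ × I) Q = P := by
  refine MvPolynomial.exists_rename_eq_of_vars_subset_range P _ Subtype.val_injective ?_
  intro v hv
  exact ⟨⟨v, hP v hv⟩, rfl⟩

theorem e1_vars_rename {A : Set Γ} (Q : MvPolynomial (Ix I A) k) :
    ∀ v ∈ (rename (Subtype.val : Ix I A → Γ × I) Q).vars, v.1 ∈ A := by
  classical
  intro v hv
  have h := MvPolynomial.vars_rename (Subtype.val : Ix I A → Γ × I) Q hv
  rw [Finset.mem_image] at h
  obtain ⟨w, -, rfl⟩ := h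
  exact w.2

theorem e1_res_comp (x : Γ × I → E) (A : Set Γ) :
    res x A = x ∘ (Subtype.val : Ix I A → Γ × I) := rfl

theorem e1_aeval_mem {A : Set Γ} (x : Γ × I → E) {P : MvPolynomial (Γ × I) k}
    (hP : ∀ v ∈ P.vars, v.1 ∈ A) : aeval x P ∈ fld k (res x A) := by
  obtain ⟨Q, rfl⟩ := e1_exists_rename hP
  rw [aeval_rename, ← e1_res_comp]
  have h1 : aeval (res x A) Q ∈ Algebra.adjoin k (Set.range (res x A)) := by
    rw [Algebra.adjoin_range_eq_range_aeval]
    exact ⟨Q, rfl⟩
  exact IntermediateField.algebra_adjoin_le_adjoin k _ h1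

theorem e1_dvec_mem {A : Set Γ} (x : Γ × I → E) {P : MvPolynomial (Γ × I) k}
    (hP : ∀ v ∈ P.vars, v.1 ∈ A) (v : Γ × I) : dvec k x P v ∈ fld k (res x A) := by
  classical
  rw [dvec_apply]
  obtain ⟨Q, rfl⟩ := e1_exists_rename hP
  by_cases hv : v.1 ∈ A
  · have : pderiv v (rename (Subtype.val : Ix I A → Γ × I) Q) =
        rename (Subtype.val : Ix I A → Γ × I) (pderiv (⟨v, hv⟩ : Ix I A) Q) := by
      exact MvPolynomial.pderiv_rename Subtype.val_injective (⟨v, hv⟩ : Ix I A) Q
    rw [this]
    exact e1_aeval_mem x (e1_vars_rename _)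
  · rw [pderiv_eq_zero_of_notMem_vars (fun h => hv (hP v h)), map_zero]
    exact zero_mem _

/-- `RV` on subsets -/
theorem RV_mono (Z : Sys k Γ I) {A B : Set Γ} (h : A ⊆ B) : Z.RV A ≤ Z.RV B := by
  refine Submodule.span_mono ?_
  rintro p ⟨P, hP, h0, rfl⟩
  exact ⟨P, fun v hv => h (hP v hv), h0, rfl⟩

theorem e1_shift_single (Z : Sys k Γ I) (γ : Γ) (v : Γ × I) (c : Z.K) :
    Z.shift γ (Finsupp.single v c) =
      Finsupp.single (γ + v.1, v.2) (Z.α (Multiplicative.ofAdd γ) c) := by
  show Finsupp.mapDomain (fun v : Γ × I => (γ + v.1, v.2))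
    (Finsupp.mapRange (Z.α (Multiplicative.ofAdd γ)) (map_zero _) (Finsupp.single v c)) = _
  rw [Finsupp.mapRange_single, Finsupp.mapDomain_single]

theorem e1_shift_smul (Z : Sys k Γ I) (γ : Γ) (c : Z.K) (p : Γ × I →₀ Z.K) :
    Z.shift γ (c • p) = (Z.α (Multiplicative.ofAdd γ) c) • Z.shift γ p := by
  induction p using Finsupp.induction_linear with
  | zero => simp
  | add p q hp hq => rw [smul_add, map_add, hp, hq, map_add, smul_add]
  | single v a =>
    rw [Finsupp.smul_single, e1_shift_single, e1_shift_single, Finsupp.smul_single,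
      smul_eq_mul, smul_eq_mul, map_mul]

theorem e1_shift_dvec (Z : Sys k Γ I) (γ : Γ) (P : MvPolynomial (Γ × I) k) :
    Z.shift γ (dvec k Z.z P) =
      dvec k Z.z (rename (fun v : Γ × I => (γ + v.1, v.2)) P) := by
  rw [dvec_rename]
  have h2 : (Z.z ∘ fun v : Γ × I => (γ + v.1, v.2)) =
      fun v => Z.α (Multiplicative.ofAdd γ) (Z.z v) := by
    funext v
    exact (Z_z_shift Z γ v).symm
  rw [h2]
  unfold Sys.shift
  rw [AddMonoidHom.comp_apply]
  show Finsupp.mapDomain _ _ = _
  congr 1
  ext v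
  show (Z.α (Multiplicative.ofAdd γ)) (dvec k Z.z P v) = _
  rw [dvec_apply, dvec_apply]
  have h3 := MvPolynomial.comp_aeval_apply (f := Z.z)
    ((Z.α (Multiplicative.ofAdd γ) : Z.K ≃ₐ[k] Z.K) : Z.K →ₐ[k] Z.K) (pderiv v P)
  exact h3

theorem shift_RV (Z : Sys k Γ I) (γ : Γ) {A : Set Γ} {p : Γ × I →₀ Z.K} (h : p ∈ Z.RV A) :
    Z.shift γ p ∈ Z.RV (tr γ A) := by
  classical
  unfold Sys.RV at h
  induction h using Submodule.span_induction with
  | mem p hp =>
    obtain ⟨P, hP, h0, rfl⟩ := hp
    refine Submodule.subset_span ⟨rename (fun v : Γ × I => (γ + v.1, v.2)) P, ?_, ?_,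
      e1_shift_dvec Z γ P⟩
    · intro v hv
      have h := MvPolynomial.vars_rename _ P hv
      rw [Finset.mem_image] at h
      obtain ⟨w, hw, rfl⟩ := h
      show γ + w.1 - γ ∈ A
      rw [add_sub_cancel_left]
      exact hP w hw
    · rw [aeval_rename]
      have h2 : (Z.z ∘ fun v : Γ × I => (γ + v.1, v.2)) =
          fun v => Z.α (Multiplicative.ofAdd γ) (Z.z v) := by
        funext v
        exact (Z_z_shift Z γ v).symm
      rw [h2]
      have h3 := MvPolynomial.comp_aeval_apply (f := Z.z)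
        ((Z.α (Multiplicative.ofAdd γ) : Z.K ≃ₐ[k] Z.K) : Z.K →ₐ[k] Z.K) P
      rw [h0, map_zero] at h3
      exact h3.symm
  | zero => rw [map_zero]; exact zero_mem _
  | add p q _ _ hp hq => rw [map_add]; exact add_mem hp hq
  | smul c p _ hp => rw [e1_shift_smul]; exact Submodule.smul_mem _ _ hp

theorem supp_of_mem_RV (Z : Sys k Γ I) {A : Set Γ} {p : Γ × I →₀ Z.K} (h : p ∈ Z.RV A)
    (v : Γ × I) (hv : v.1 ∉ A) : p v = 0 := by
  unfold Sys.RV at h
  induction h using Submodule.span_induction with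
  | mem p hp =>
    obtain ⟨P, hP, h0, rfl⟩ := hp
    rw [dvec_apply, pderiv_eq_zero_of_notMem_vars (fun h => hv (hP v h)), map_zero]
  | zero => rfl
  | add p q _ _ hp hq => rw [Finsupp.add_apply, hp, hq, add_zero]
  | smul c p _ hp => rw [Finsupp.smul_apply, hp, smul_zero]

theorem e1_lc_rename {A : Set Γ} (x ξ : Γ × I → E) (Q : MvPolynomial (Ix I A) k) :
    Finsupp.linearCombination E ξ (dvec k x (rename (Subtype.val : Ix I A → Γ × I) Q)) =
      Finsupp.linearCombination E (res ξ A) (dvec k (res x A) Q) := by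
  rw [dvec_rename, Finsupp.linearCombination_mapDomain]
  rfl

/-- tangent vectors (with values in `K`) are the functionals killing `RV` -/
theorem tanOn_iff_RV (Z : Sys k Γ I) {A : Set Γ} {ξ : Γ × I → Z.K} :
    TanOn k Z.z A ξ ↔ ∀ p ∈ Z.RV A, Finsupp.linearCombination Z.K ξ p = 0 := by
  constructor
  · intro h p hp
    unfold Sys.RV at hp
    induction hp using Submodule.span_induction with
    | mem p hp =>
      obtain ⟨P, hP, h0, rfl⟩ := hp
      obtain ⟨Q, rfl⟩ := e1_exists_rename hP
      rw [e1_lc_rename]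
      refine h Q ?_
      rwa [aeval_rename] at h0
    | zero => rw [map_zero]
    | add p q _ _ hp hq => rw [map_add, hp, hq, add_zero]
    | smul c p _ hp => rw [map_smul, hp, smul_zero]
  · intro h Q hQ
    rw [← e1_lc_rename]
    refine h _ (Submodule.subset_span ⟨_, e1_vars_rename Q, ?_, rfl⟩)
    rw [aeval_rename]
    exact hQ

theorem e1_lc_congr {ξ η : Γ × I → E} {p : Γ × I →₀ E} {A : Set Γ}
    (hp : ∀ v : Γ × I, v.1 ∉ A → p v = 0) (h : ∀ v : Γ × I, v.1 ∈ A → ξ v = η v) :
    Finsupp.linearCombination E ξ p = Finsupp.linearCombination E η p := by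
  rw [Finsupp.linearCombination_apply, Finsupp.linearCombination_apply]
  refine Finset.sum_congr rfl fun v hv => ?_
  by_cases hA : v.1 ∈ A
  · show p v • ξ v = p v • η v
    rw [h v hA]
  · exact absurd (hp v hA) (Finsupp.mem_support_iff.1 hv)

/-- `RV(A) = RV(B) ∩ F_A` -/
theorem mem_RV_of_supp [CharZero k] (Z : Sys k Γ I) {A B : Set Γ} (hAB : A ⊆ B)
    {p : Γ × I →₀ Z.K} (h : p ∈ Z.RV B) (hp : ∀ v : Γ × I, v.1 ∉ A → p v = 0) : p ∈ Z.RV A := by
  by_contra hA
  obtain ⟨φ, hφ, hφA⟩ := Submodule.exists_dual_map_eq_bot_of_notMem hA inferInstance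
  let ξ : Γ × I → Z.K := fun v => φ (Finsupp.single v 1)
  have hlc : Finsupp.linearCombination Z.K ξ = φ := by
    ext v
    simp [ξ]
  have hT : TanOn k Z.z A ξ := by
    rw [tanOn_iff_RV]
    intro q hq
    rw [hlc]
    have : φ q ∈ (Z.RV A).map φ := ⟨q, hq, rfl⟩
    rw [hφA] at this
    exact (Submodule.mem_bot _).1 this
  obtain ⟨ξ', hξ', he⟩ := exists_tanOn_extend hT B
  rw [Set.union_eq_self_of_subset_left hAB] at hξ'
  have h1 := (tanOn_iff_RV Z).1 hξ' p h
  rw [e1_lc_congr hp he, hlc] at h1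
  exact hφ h1

/-- coordinate complements -/
theorem e1_exchange {L V : Type} [Field L] [AddCommGroup V] [Module L V] (U : Submodule L V)
    (e : I → V) : ∃ Ip : Set I,
      (∀ c : I →₀ L, (∀ i ∉ Ip, c i = 0) → Finsupp.linearCombination L e c ∈ U → c = 0) ∧
      (∀ i, ∃ c : I →₀ L, (∀ i ∉ Ip, c i = 0) ∧ e i - Finsupp.linearCombination L e c ∈ U) := by
  classical
  obtain ⟨κ, a, ha, hsp, hli⟩ := exists_linearIndependent' L (U.mkQ ∘ e)
  refine ⟨Set.range a, ?_, ?_⟩
  · intro c hc hU
    have h1 : Finsupp.linearCombination L (U.mkQ ∘ e) c = 0 := by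
      have : U.mkQ (Finsupp.linearCombination L e c) = 0 := by
        rw [Submodule.mkQ_apply, Submodule.Quotient.mk_eq_zero]
        exact hU
      rw [Finsupp.apply_linearCombination] at this
      exact this
    have h2 : c = Finsupp.mapDomain a (Finsupp.comapDomain a c ha.injOn) := by
      rw [Finsupp.mapDomain_comapDomain a ha]
      intro i hi
      by_contra hcon
      exact Finsupp.mem_support_iff.1 hi (hc i hcon)
    rw [h2, Finsupp.linearCombination_mapDomain] at h1
    have h3 := (linearIndependent_iff.1 hli) _ h1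
    rw [h2, h3, Finsupp.mapDomain_zero]
  · intro i
    have h1 : U.mkQ (e i) ∈ Submodule.span L (Set.range ((U.mkQ ∘ e) ∘ a)) := by
      rw [hsp]
      exact Submodule.subset_span ⟨i, rfl⟩
    rw [Finsupp.mem_span_range_iff_exists_finsupp] at h1
    obtain ⟨c, hc⟩ := h1
    refine ⟨Finsupp.mapDomain a c, ?_, ?_⟩
    · intro j hj
      exact Finsupp.mapDomain_of_notMem_range c j hj
    · rw [← Submodule.Quotient.mk_eq_zero, Submodule.Quotient.mk_sub, sub_eq_zero]
      have h2 : U.mkQ (Finsupp.linearCombination L e (Finsupp.mapDomain a c)) = U.mkQ (e i) := by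
        rw [Finsupp.apply_linearCombination, Finsupp.linearCombination_mapDomain,
          Finsupp.linearCombination_apply]
        exact hc
      exact h2.symm

/-- free letters at the site `s` over `N` -/
theorem exists_free_letters [CharZero k] [Finite I] (Z : Sys k Γ I) (N : Set Γ) (hN : N.Finite)
    (s : Γ) (hs : s ∉ N) :
    ∃ (Ip : Set I) (w : I → (Γ × I →₀ Z.K)),
      (∀ i ∉ Ip, w i ∈ Z.RV (N ∪ {s}) ∧ w i (s, i) = 1 ∧ (∀ j ∉ Ip, j ≠ i → w i (s, j) = 0) ∧
        ∀ v, w i v ∈ fld k (res Z.z (N ∪ {s}))) ∧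
      (∀ ξ : Γ × I → Z.K, TanOn k Z.z N ξ → ∀ f : I → Z.K,
        ∃ ξ' : Γ × I → Z.K, TanOn k Z.z (N ∪ {s}) ξ' ∧ (∀ v : Γ × I, v.1 ∈ N → ξ' v = ξ v) ∧
          ∀ i ∈ Ip, ξ' (s, i) = f i) := by
  classical
  have : Fintype I := Fintype.ofFinite I
  let A : Set Γ := N ∪ {s}
  let L := fld k (res Z.z A)
  let S : Set (Γ × I →₀ Z.K) := {p | ∃ P : MvPolynomial (Γ × I) k, (∀ v ∈ P.vars, v.1 ∈ A) ∧
    aeval Z.z P = 0 ∧ p = dvec k Z.z P}
  let M0 : Submodule L (Γ × I →₀ Z.K) := Submodule.span L S
  let π : (Γ × I →₀ Z.K) →ₗ[L] (I → Z.K) :=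
    { toFun := fun p i => p (s, i)
      map_add' := fun p q => by funext i; rfl
      map_smul' := fun c p => by funext i; rfl }
  have hπ : ∀ p i, π p i = p (s, i) := fun p i => rfl
  let e : I → (I → Z.K) := fun i => Pi.single i 1
  -- properties of `M0`
  have hM0RV : ∀ p ∈ M0, p ∈ Z.RV A := by
    intro p hp
    induction hp using Submodule.span_induction with
    | mem p hp => exact Submodule.subset_span hp
    | zero => exact zero_mem _
    | add p q _ _ hp hq => exact add_mem hp hq
    | smul c p _ hp =>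
      have : c • p = (c : Z.K) • p := rfl
      rw [this]; exact Submodule.smul_mem _ _ hp
  have hM0L : ∀ p ∈ M0, ∀ v, p v ∈ L := by
    intro p hp v
    induction hp using Submodule.span_induction with
    | mem p hp =>
      obtain ⟨P, hP, h0, rfl⟩ := hp
      exact e1_dvec_mem Z.z hP v
    | zero => exact zero_mem L
    | add p q _ _ hp hq => exact add_mem hp hq
    | smul c p _ hp => exact mul_mem c.2 hp
  obtain ⟨Ip, hI1, hI2⟩ := e1_exchange (M0.map π) e
  choose c hc0 hcU using hI2
  choose w hwM hwπ using hcU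
  have hlc : ∀ (d : I →₀ L) (i : I), Finsupp.linearCombination L e d i = (d i : Z.K) := by
    intro d i
    rw [Finsupp.linearCombination_apply,
      Finsupp.sum_fintype d (fun i a => a • e i) (fun i => zero_smul L (e i)),
      Finset.sum_apply, Finset.sum_eq_single i]
    · simp [e, Algebra.smul_def]
    · intro j _ hj
      simp [e, Pi.single_eq_of_ne hj.symm]
    · intro h; exact absurd (Finset.mem_univ i) h
  have hwi : ∀ i j, w i (s, j) = (Pi.single i 1 : I → Z.K) j - (c i j : Z.K) := by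
    intro i j
    have := congrFun (hwπ i) j
    rw [hπ, Pi.sub_apply, hlc] at this
    exact this
  refine ⟨Ip, w, ?_, ?_⟩
  · intro i hi
    refine ⟨hM0RV _ (hwM i), ?_, ?_, fun v => hM0L _ (hwM i) v⟩
    · rw [hwi, hc0 i i hi]; simp
    · intro j hj hji
      rw [hwi, hc0 i j hj]; simp [Pi.single_eq_of_ne hji]
  · intro ξ hξ f
    let ξ0 : Γ × I → Z.K := fun v => if v.1 = s then (if v.2 ∈ Ip then f v.2 else 0) else ξ v
    let τ : I → Z.K := fun i => if i ∈ Ip then 0 else - Finsupp.linearCombination Z.K ξ0 (w i)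
    let Λ : (Γ × I →₀ Z.K) →ₗ[Z.K] Z.K :=
      Finsupp.linearCombination Z.K ξ0 + ∑ j, τ j • Finsupp.lapply (s, j)
    have hΛ : ∀ p, Λ p = Finsupp.linearCombination Z.K ξ0 p + ∑ j, τ j * p (s, j) := by
      intro p
      simp [Λ, LinearMap.sum_apply]
    have hlcΛ : Finsupp.linearCombination Z.K (fun v => Λ (Finsupp.single v 1)) = Λ := by
      ext v
      simp
    have hΛw : ∀ i ∉ Ip, Λ (w i) = 0 := by
      intro i hi
      rw [hΛ, Finset.sum_eq_single i]
      · rw [hwi, hc0 i i hi]
        simp [τ, hi]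
      · intro j _ hji
        by_cases hj : j ∈ Ip
        · simp [τ, hj]
        · rw [hwi, hc0 i j hj]; simp [Pi.single_eq_of_ne hji]
      · intro h; exact absurd (Finset.mem_univ i) h
    have hΛN : ∀ p ∈ Z.RV A, (∀ i, p (s, i) = 0) → Λ p = 0 := by
      intro p hp hps
      have hpN : ∀ v : Γ × I, v.1 ∉ N → p v = 0 := by
        intro v hv
        by_cases hvs : v.1 = s
        · have : v = (s, v.2) := Prod.ext hvs rfl
          rw [this]; exact hps _
        · exact supp_of_mem_RV Z hp v (by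
            intro h
            rcases h with h | h
            · exact hv h
            · exact hvs h)
      have hpR : p ∈ Z.RV N := mem_RV_of_supp Z Set.subset_union_left hp hpN
      rw [hΛ]
      have h1 : Finsupp.linearCombination Z.K ξ0 p = Finsupp.linearCombination Z.K ξ p := by
        refine e1_lc_congr hpN fun v hv => ?_
        have : v.1 ≠ s := fun h => hs (h ▸ hv)
        simp [ξ0, this]
      rw [h1, (tanOn_iff_RV Z).1 hξ p hpR, zero_add]
      exact Finset.sum_eq_zero fun j _ => by rw [hps, mul_zero]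
    have hΛM : ∀ p ∈ M0, Λ p = 0 := by
      intro p hp
      let q : Γ × I →₀ Z.K := p - ∑ i ∈ Finset.univ.filter (fun i => i ∉ Ip), p (s, i) • w i
      have hq : q ∈ M0 := by
        refine sub_mem hp (Submodule.sum_mem _ fun i _ => ?_)
        have h1 : p (s, i) • w i = (⟨p (s, i), hM0L p hp _⟩ : L) • w i := rfl
        rw [h1]
        exact Submodule.smul_mem _ _ (hwM i)
      have hqv : ∀ j, q (s, j) = p (s, j) - ∑ i ∈ Finset.univ.filter (fun i => i ∉ Ip),
          p (s, i) * w i (s, j) := by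
        intro j
        simp [q]
      have hqI : ∀ j ∉ Ip, q (s, j) = 0 := by
        intro j hj
        rw [hqv, Finset.sum_eq_single j]
        · rw [hwi, hc0 j j hj]; simp
        · intro i hi hij
          rw [hwi, hc0 i j hj]; simp [Pi.single_eq_of_ne hij.symm]
        · intro h
          exact absurd (Finset.mem_filter.2 ⟨Finset.mem_univ j, hj⟩) h
      have hq0 : ∀ j, q (s, j) = 0 := by
        let d : I →₀ L := Finsupp.equivFunOnFinite.symm
          (fun j => (⟨q (s, j), hM0L q hq _⟩ : L))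
        have hd : d = 0 := by
          refine hI1 d ?_ ?_
          · intro i hi
            exact Subtype.ext (hqI i hi)
          · refine ⟨q, hq, ?_⟩
            funext j
            rw [hπ, hlc]
            rfl
        intro j
        have : (d j : Z.K) = 0 := by rw [hd]; rfl
        exact this
      have hΛq : Λ q = 0 := hΛN q (hM0RV q hq) hq0
      have : p = q + ∑ i ∈ Finset.univ.filter (fun i => i ∉ Ip), p (s, i) • w i := by
        simp [q]
      rw [this, map_add, hΛq, map_sum, zero_add]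
      refine Finset.sum_eq_zero fun i hi => ?_
      rw [map_smul, hΛw i (Finset.mem_filter.1 hi).2, smul_zero]
    refine ⟨fun v => Λ (Finsupp.single v 1), ?_, ?_, ?_⟩
    · rw [tanOn_iff_RV]
      intro p hp
      rw [hlcΛ]
      change p ∈ Submodule.span Z.K S at hp
      induction hp using Submodule.span_induction with
      | mem p hp => exact hΛM p (Submodule.subset_span hp)
      | zero => exact map_zero _
      | add p q _ _ hp hq => rw [map_add, hp, hq, add_zero]
      | smul c p _ hp => rw [map_smul, hp, smul_zero]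
    · intro v hv
      have hvs : v.1 ≠ s := fun h => hs (h ▸ hv)
      show Λ (Finsupp.single v 1) = ξ v
      rw [hΛ, Finset.sum_eq_zero]
      · simp [ξ0, hvs]
      · intro j _
        have : v ≠ (s, j) := fun h => hvs (by rw [h])
        rw [Finsupp.single_eq_of_ne' this, mul_zero]
    · intro i hi
      show Λ (Finsupp.single (s, i) 1) = f i
      rw [hΛ, Finset.sum_eq_zero]
      · simp [ξ0, hi]
      · intro j _
        by_cases hji : j = i
        · subst hji; simp [τ, hi]
        · have : (s, i) ≠ (s, j) := fun h => hji (Prod.ext_iff.1 h).2.symm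
          rw [Finsupp.single_eq_of_ne' this, mul_zero]

end Pool.Agent.ORG
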