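import Pool.Agent.ORG.Defs
import Pool.Agent.ORG.F1
import Pool.Agent.ORG.F4
import Pool.Agent.ORG.S1
import Pool.Agent.ORG.S2

/-!
# MP_08a057_al, ORG module P0 : slab windows and translation between the slab system and the system
(paper: /team-store/ORG_paper.md)
-/

set_option autoImplicit false

namespace Pool.Agent.ORG

open MvPolynomial

variable {k Ω : Type} [Field k] [CharZero k] [Field Ω] [Algebra k Ω] {I : Type} [Finite I] {m : ℕ}

open Sys

section P0aux

variable {E : Type}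

/-- reindexing of the window -/
def P0e (I : Type) {m : ℕ} (C : ℕ) (t : ℤ) (Q : Set (Fin m → ℤ)) :
    Ix (Fin (C + 1) × I) Q → Ix I (sl Q t (t + C)) := fun v =>
  ⟨((v.1.1, t + (v.1.2.1.val : ℤ)), v.1.2.2), by
    refine ⟨v.2, ?_, ?_⟩
    · have : (0 : ℤ) ≤ (v.1.2.1.val : ℤ) := by positivity
      simp only
      linarith
    · have h := v.1.2.1.2
      have : ((v.1.2.1.val : ℕ) : ℤ) ≤ C := by exact_mod_cast (by omega : v.1.2.1.val ≤ C)
      simp only
      linarith⟩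

theorem P0e_surj (I : Type) {m : ℕ} (C : ℕ) (t : ℤ) (Q : Set (Fin m → ℤ)) :
    Function.Surjective (P0e I C t Q) := by
  rintro ⟨⟨⟨u, l⟩, i⟩, h⟩
  obtain ⟨h1, h2, h3⟩ := h
  simp only at h1 h2 h3
  refine ⟨⟨(u, (⟨(l - t).toNat, by omega⟩, i)), h1⟩, ?_⟩
  apply Subtype.ext
  simp only [P0e]
  congr 2
  have : (((l - t).toNat : ℕ) : ℤ) = l - t := Int.toNat_of_nonneg (by linarith)
  rw [this]
  ring

theorem P0res {m : ℕ} (C : ℕ) (t : ℤ) (Q : Set (Fin m → ℤ)) (x : ((Fin m → ℤ) × ℤ) × I → E) :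
    res x (sl Q t (t + C)) ∘ P0e I C t Q = res (wnd C t x) Q := rfl

end P0aux

theorem slab_gen_iff (Z : Sys k ((Fin m → ℤ) × ℤ) I) (C : ℕ) (t : ℤ)
    (x : ((Fin m → ℤ) × ℤ) × I → Ω) (Q : Set (Fin m → ℤ)) :
    (Z.slab C).Gen (wnd C t x) Q ↔ Z.Gen x (sl Q t (t + C)) := by
  have h1 : (Z.slab C).z = wnd C 0 Z.z := by
    funext v
    have := Z_z_shift Z (v.1, (0 : ℤ)) (((0 : Fin m → ℤ), ((v.2.1.val : ℤ))), v.2.2)
    simp only [wnd, zero_add]
    simp only [Prod.mk_add_mk, add_zero, zero_add] at this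
    exact this
  have h2 : SameRel k (res (wnd C 0 Z.z) Q) (res (wnd C t Z.z) Q) := by
    have h3 := sameRel_of_hom (k := k) ((Z.α (Multiplicative.ofAdd ((0 : Fin m → ℤ), t)) :
      Z.K ≃ₐ[k] Z.K) : Z.K →ₐ[k] Z.K) (res (wnd C 0 Z.z) Q)
    have h4 : (fun j => ((Z.α (Multiplicative.ofAdd ((0 : Fin m → ℤ), t)) :
      Z.K ≃ₐ[k] Z.K) : Z.K →ₐ[k] Z.K) (res (wnd C 0 Z.z) Q j)) = res (wnd C t Z.z) Q := by
      funext v
      have := Z_z_shift Z ((0 : Fin m → ℤ), t) ((v.1.1, (0 + (v.1.2.1.val : ℤ))), v.1.2.2)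
      simp only [Prod.mk_add_mk, zero_add] at this
      simp only [res, wnd, zero_add]
      exact this
    rw [h4] at h3
    exact h3
  have h5 : Z.Gen x (sl Q t (t + C)) ↔ SameRel k (res (wnd C t Z.z) Q) (res (wnd C t x) Q) := by
    constructor
    · intro h
      exact h.comp (P0e I C t Q)
    · intro h
      exact SameRel.of_surj (P0e_surj I C t Q) h
  rw [h5]
  have h6 : (Z.slab C).Gen (wnd C t x) Q ↔ SameRel k (res (wnd C 0 Z.z) Q) (res (wnd C t x) Q) := by
    unfold Sys.Gen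
    rw [h1]
    rfl
  rw [h6]
  exact ⟨fun h => h2.symm.trans h, fun h => h2.trans h⟩

theorem slab_tan_iff (C : ℕ) (t : ℤ)
    (x ξ : ((Fin m → ℤ) × ℤ) × I → Ω) (Q : Set (Fin m → ℤ)) :
    TanOn k (wnd C t x) Q (wnd C t ξ) ↔ TanOn k x (sl Q t (t + C)) ξ := by
  constructor
  · intro h
    exact IsTan.of_surj (P0e_surj I C t Q) h
  · intro h
    exact IsTan.comp h (P0e I C t Q)

theorem wnd_surj (C : ℕ) (t : ℤ) (η : (Fin m → ℤ) × (Fin (C + 1) × I) → Ω) :
    ∃ ξ : ((Fin m → ℤ) × ℤ) × I → Ω, wnd C t ξ = η ∧ (∀ Γ' : AddSubgroup (Fin m → ℤ),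
      Per Γ' η → Per0 Γ' ξ) ∧ ∀ v, v.1 ∉ lev t (t + C) → ξ v = 0 := by
  classical
  refine ⟨fun v => if h : t ≤ v.1.2 ∧ v.1.2 ≤ t + C then
    η (v.1.1, (⟨(v.1.2 - t).toNat, by omega⟩, v.2)) else 0, ?_, ?_, ?_⟩
  · funext v
    obtain ⟨u, l, i⟩ := v
    have hl := l.2
    have h1 : t ≤ t + (l.val : ℤ) ∧ t + (l.val : ℤ) ≤ t + C := by omega
    simp only [wnd]
    rw [dif_pos h1]
    congr 3
    apply Fin.ext
    simp only
    omega
  · intro Γ' h γ hγ v
    obtain ⟨⟨u, l⟩, i⟩ := v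
    obtain ⟨g, g'⟩ := γ
    rw [AddSubgroup.mem_prod] at hγ
    obtain ⟨hg, hg'⟩ := hγ
    simp only [AddSubgroup.mem_bot] at hg hg'
    subst hg'
    simp only [Prod.mk_add_mk, zero_add]
    by_cases h1 : t ≤ l ∧ l ≤ t + C
    · rw [dif_pos h1, dif_pos h1]
      exact h g hg (u, (⟨(l - t).toNat, by omega⟩, i))
    · rw [dif_neg h1, dif_neg h1]
  · intro v hv
    have h1 : ¬ (t ≤ v.1.2 ∧ v.1.2 ≤ t + C) := hv
    simp only
    rw [dif_neg h1]

theorem per_wnd (Γ' : AddSubgroup (Fin m → ℤ)) (C : ℕ) (t : ℤ)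
    {x : ((Fin m → ℤ) × ℤ) × I → Ω} (h : Per0 Γ' x) : Per Γ' (wnd C t x) := by
  intro g hg v
  have h1 := h (g, 0) (by
    rw [AddSubgroup.mem_prod]
    exact ⟨hg, AddSubgroup.mem_bot.2 rfl⟩) ((v.1, t + (v.2.1.val : ℤ)), v.2.2)
  simp only [Prod.mk_add_mk, zero_add] at h1
  exact h1

theorem finite_range_lev (Γ' : AddSubgroup (Fin m → ℤ)) [Γ'.FiniteIndex]
    {x : ((Fin m → ℤ) × ℤ) × I → Ω} (h : Per0 Γ' x) (a b : ℤ) :
    (Set.range (res x (lev a b))).Finite := by
  have h1 := finite_range_of_per (per_wnd Γ' (b - a).toNat a h)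
  refine h1.subset ?_
  rintro _ ⟨⟨⟨⟨u, l⟩, i⟩, hv⟩, rfl⟩
  obtain ⟨h2, h3⟩ := hv
  simp only at h2 h3
  refine ⟨(u, (⟨(l - a).toNat, by omega⟩, i)), ?_⟩
  simp only [wnd, res]
  congr 3
  have : (((l - a).toNat : ℕ) : ℤ) = l - a := Int.toNat_of_nonneg (by linarith)
  rw [this]
  ring

/-- existence of an additive functional which is injective on a finite set -/
theorem exists_zeta (B : Set (Fin m → ℤ)) (hB : B.Finite) :
    ∃ ζ : (Fin m → ℤ) →+ ℤ, Set.InjOn ζ B := by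
  classical
  set T : Finset ((Fin m → ℤ) × (Fin m → ℤ)) := (hB.toFinset ×ˢ hB.toFinset).filter
    (fun p => p.1 ≠ p.2) with hT
  set P : Polynomial ℤ := ∏ p ∈ T, ∑ i : Fin m, Polynomial.C (p.1 i - p.2 i) *
    Polynomial.X ^ i.val with hP
  have hP0 : P ≠ 0 := by
    rw [hP, Finset.prod_ne_zero_iff]
    intro p hp h0
    rw [hT, Finset.mem_filter] at hp
    apply hp.2
    funext i
    have h1 := congrArg (fun q => Polynomial.coeff q i.val) h0
    simp only [Polynomial.finsetSum_coeff, Polynomial.coeff_C_mul, Polynomial.coeff_X_pow,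
      Polynomial.coeff_zero] at h1
    rw [Finset.sum_eq_single i] at h1
    · simp only [if_true, mul_one] at h1
      linarith
    · intro j _ hj
      have : ¬ (i.val = j.val) := fun h => hj (Fin.ext h.symm)
      simp [this]
    · intro h
      exact absurd (Finset.mem_univ i) h
  obtain ⟨M, hM⟩ : ∃ M : ℤ, P.eval M ≠ 0 := by
    by_contra hcon
    push Not at hcon
    exact hP0 (Polynomial.funext fun r => by rw [hcon r, Polynomial.eval_zero])
  refine ⟨{ toFun := fun u => ∑ i : Fin m, u i * M ^ i.val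
            map_zero' := by simp
            map_add' := fun u v => by
              rw [← Finset.sum_add_distrib]
              exact Finset.sum_congr rfl fun i _ => by simp [add_mul] }, ?_⟩
  intro u hu v hv huv
  by_contra hne
  rw [hP, Polynomial.eval_prod, Finset.prod_ne_zero_iff] at hM
  apply hM (u, v)
  · rw [hT, Finset.mem_filter]
    exact ⟨Finset.mem_product.2 ⟨hB.mem_toFinset.2 hu, hB.mem_toFinset.2 hv⟩, hne⟩
  · simp only [AddMonoidHom.coe_mk, ZeroHom.coe_mk] at huv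
    rw [Polynomial.eval_finsetSum]
    simp only [Polynomial.eval_mul, Polynomial.eval_C, Polynomial.eval_pow, Polynomial.eval_X]
    rw [← sub_eq_zero, ← Finset.sum_sub_distrib] at huv
    rw [← huv]
    exact Finset.sum_congr rfl fun i _ => by ring

/-- adding finitely many sites of the level `b+1` in the order of `ζ` : determination -/
theorem dirData_det (Z : Sys k ((Fin m → ℤ) × ℤ) I) {N Nm : Set ((Fin m → ℤ) × ℤ)} {c : ℕ}
    (hD : DirData Z N Nm c) (ζ : (Fin m → ℤ) →+ ℤ) (s : (Fin m → ℤ) × ℤ)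
    (A : Set ((Fin m → ℤ) × ℤ)) (hA : A.Finite) (hN : tr s N ⊆ A)
    (hA2 : ∀ v ∈ A, v.2 < s.2 ∨ (v.2 = s.2 ∧ ζ v.1 < ζ s.1)) : Z.Det s A (tr s N) := by
  have h1 : A = tr s (tr (-s) A) := by
    ext u
    simp [tr]
  have h2 : tr (-s) A ∪ N = tr (-s) A := by
    rw [Set.union_eq_left]
    intro v hv
    have : v + s ∈ A := hN (by simpa [tr] using hv)
    simpa [tr] using this
  have hfin : (tr (-s) A).Finite := by
    have : tr (-s) A = (fun u => u - s) '' A := by
      ext u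
      constructor
      · intro hu
        exact ⟨u + s, by simpa [tr] using hu, by simp⟩
      · rintro ⟨v, hv, rfl⟩
        simpa [tr] using hv
    rw [this]
    exact hA.image _
  have h3 := hD.up ζ (tr (-s) A) hfin (by
    intro v hv
    have hv' : v + s ∈ A := by simpa [tr] using hv
    rcases hA2 _ hv' with h | ⟨h, h'⟩
    · left
      simpa using h
    · right
      refine ⟨by simpa using h, ?_⟩
      rw [Prod.fst_add, map_add] at h'
      linarith)
  rw [h2] at h3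
  have h4 := (det_tr (Z := Z) (s := 0) (A := tr (-s) A) (N := N) s).2 h3
  rw [add_zero, ← h1] at h4
  exact h4

theorem dirData_det_down (Z : Sys k ((Fin m → ℤ) × ℤ) I) {N Nm : Set ((Fin m → ℤ) × ℤ)} {c : ℕ}
    (hD : DirData Z N Nm c) (ζ : (Fin m → ℤ) →+ ℤ) (s : (Fin m → ℤ) × ℤ)
    (A : Set ((Fin m → ℤ) × ℤ)) (hA : A.Finite) (hN : tr s Nm ⊆ A)
    (hA2 : ∀ v ∈ A, s.2 < v.2 ∨ (v.2 = s.2 ∧ ζ v.1 < ζ s.1)) : Z.Det s A (tr s Nm) := by
  have h1 : A = tr s (tr (-s) A) := by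
    ext u
    simp [tr]
  have h2 : tr (-s) A ∪ Nm = tr (-s) A := by
    rw [Set.union_eq_left]
    intro v hv
    have : v + s ∈ A := hN (by simpa [tr] using hv)
    simpa [tr] using this
  have hfin : (tr (-s) A).Finite := by
    have : tr (-s) A = (fun u => u - s) '' A := by
      ext u
      constructor
      · intro hu
        exact ⟨u + s, by simpa [tr] using hu, by simp⟩
      · rintro ⟨v, hv, rfl⟩
        simpa [tr] using hv
    rw [this]
    exact hA.image _
  have h3 := hD.down ζ (tr (-s) A) hfin (by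
    intro v hv
    have hv' : v + s ∈ A := by simpa [tr] using hv
    rcases hA2 _ hv' with h | ⟨h, h'⟩
    · left
      simpa using h
    · right
      refine ⟨by simpa using h, ?_⟩
      rw [Prod.fst_add, map_add] at h'
      linarith)
  rw [h2] at h3
  have h4 := (det_tr (Z := Z) (s := 0) (A := tr (-s) A) (N := Nm) s).2 h3
  rw [add_zero, ← h1] at h4
  exact h4

end Pool.Agent.ORG
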