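import Pool.Agent.ORG.Defs
import Pool.Agent.ORG.F1
import Pool.Agent.ORG.F2
import Pool.Agent.ORG.F4
import Pool.Agent.ORG.S1
import Pool.Agent.ORG.S2
import Pool.Agent.ORG.P0

/-!
# MP_08a057_al, ORG module P1 : gluing along a new level (used in (6.2),(7.1))
(paper: /team-store/ORG_paper.md)
-/

set_option autoImplicit false

namespace Pool.Agent.ORG

open MvPolynomial

variable {k Ω : Type} [Field k] [CharZero k] [Field Ω] [Algebra k Ω] {I : Type} [Finite I] {m : ℕ}

open Sys

/-- induction over a finite set in the order of an injective function -/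
theorem p1_induct {G : Type} (B : Set G) (hB : B.Finite) (f : G → ℤ) (hf : Set.InjOn f B)
    (P : Set G → Prop) (h0 : P ∅)
    (step : ∀ s ∈ B, ∀ B' ⊆ B, s ∉ B' → (∀ v ∈ B', f v < f s) → P B' → P (B' ∪ {s})) : P B := by
  classical
  have key : ∀ F : Finset G, (↑F : Set G) ⊆ B → P (↑F : Set G) := by
    intro F
    refine Finset.induction_on_max_value f F ?_ ?_
    · intro _
      simpa using h0
    · intro a s has hmax ih hsub
      have ha : a ∈ B := hsub (by simp)
      have hs : (↑s : Set G) ⊆ B := fun v hv => hsub (by simp [Finset.mem_coe.mp hv])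
      have h1 := step a ha ↑s hs (by simpa using has) (by
        intro v hv
        have hv' : v ∈ s := by simpa using hv
        refine lt_of_le_of_ne (hmax v hv') ?_
        intro hva
        exact has (hf (hs hv) ha hva ▸ hv')) (ih hs)
      have h2 : (↑(insert a s) : Set G) = ↑s ∪ {a} := by
        rw [Finset.coe_insert, Set.union_singleton]
      rw [h2]
      exact h1
  have h := key hB.toFinset (by simp)
  simpa using h

omit [CharZero k] [Field Ω] [Algebra k Ω] [Finite I] in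
theorem p1_tr_union (s : (Fin m → ℤ) × ℤ) (N : Set ((Fin m → ℤ) × ℤ)) :
    tr s N ∪ {s} = tr s (N ∪ {0}) := by
  ext v
  simp only [tr, Set.mem_union, Set.mem_ofPred_eq, Set.mem_singleton_iff, sub_eq_zero]

/-- tangent vectors: adding a finite set `B` of sites of the level `b` on top of `A` -/
theorem tan_add_level (Z : Sys k ((Fin m → ℤ) × ℤ) I) {N Nm : Set ((Fin m → ℤ) × ℤ)} {c : ℕ}
    (hD : DirData Z N Nm c) (A B : Set ((Fin m → ℤ) × ℤ)) (hA : A.Finite) (hB : B.Finite) (b : ℤ)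
    (hAb : ∀ v ∈ A, v.2 < b) (hBb : ∀ v ∈ B, v.2 = b) (hN : ∀ s ∈ B, tr s N ⊆ A)
    {x ξ : ((Fin m → ℤ) × ℤ) × I → Ω} (hx : Z.Gen x (A ∪ B)) (h1 : TanOn k x A ξ)
    (h2 : ∀ s ∈ B, TanOn k x (tr s N ∪ {s}) ξ) : TanOn k x (A ∪ B) ξ := by
  obtain ⟨ζ, hζ⟩ := exists_zeta (Prod.fst '' B) (hB.image _)
  refine p1_induct B hB (fun v => ζ v.1) ?_ (fun B' => TanOn k x (A ∪ B') ξ) ?_ ?_
  · intro u hu v hv huv
    have := hζ (Set.mem_image_of_mem _ hu) (Set.mem_image_of_mem _ hv) huv
    exact Prod.ext this ((hBb u hu).trans (hBb v hv).symm)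
  · simpa using h1
  · intro s hs B' hB' _ hlt ih
    have hdet := dirData_det Z hD ζ s (A ∪ B') (hA.union (hB.subset hB'))
      ((hN s hs).trans Set.subset_union_left) (by
        rintro v (hv | hv)
        · left
          rw [hBb s hs]
          exact hAb v hv
        · right
          exact ⟨(hBb v (hB' hv)).trans (hBb s hs).symm, hlt v hv⟩)
    have h3 := Det.tan hdet ((hN s hs).trans Set.subset_union_left) (x := x) (ξ := ξ)
      (Gen.mono hx (by
        rintro v ((hv | hv) | hv)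
        · exact Or.inl hv
        · exact Or.inr (hB' hv)
        · exact Or.inr (by rw [Set.mem_singleton_iff.mp hv]; exact hs))) ih (h2 s hs)
    rw [Set.union_assoc] at h3
    exact h3

theorem tan_add_level_down (Z : Sys k ((Fin m → ℤ) × ℤ) I) {N Nm : Set ((Fin m → ℤ) × ℤ)}
    {c : ℕ} (hD : DirData Z N Nm c) (A B : Set ((Fin m → ℤ) × ℤ)) (hA : A.Finite)
    (hB : B.Finite) (b : ℤ) (hAb : ∀ v ∈ A, b < v.2) (hBb : ∀ v ∈ B, v.2 = b)
    (hN : ∀ s ∈ B, tr s Nm ⊆ A)
    {x ξ : ((Fin m → ℤ) × ℤ) × I → Ω} (hx : Z.Gen x (A ∪ B)) (h1 : TanOn k x A ξ)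
    (h2 : ∀ s ∈ B, TanOn k x (tr s Nm ∪ {s}) ξ) : TanOn k x (A ∪ B) ξ := by
  obtain ⟨ζ, hζ⟩ := exists_zeta (Prod.fst '' B) (hB.image _)
  refine p1_induct B hB (fun v => ζ v.1) ?_ (fun B' => TanOn k x (A ∪ B') ξ) ?_ ?_
  · intro u hu v hv huv
    have := hζ (Set.mem_image_of_mem _ hu) (Set.mem_image_of_mem _ hv) huv
    exact Prod.ext this ((hBb u hu).trans (hBb v hv).symm)
  · simpa using h1
  · intro s hs B' hB' _ hlt ih
    have hdet := dirData_det_down Z hD ζ s (A ∪ B') (hA.union (hB.subset hB'))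
      ((hN s hs).trans Set.subset_union_left) (by
        rintro v (hv | hv)
        · left
          rw [hBb s hs]
          exact hAb v hv
        · right
          exact ⟨(hBb v (hB' hv)).trans (hBb s hs).symm, hlt v hv⟩)
    have h3 := Det.tan hdet ((hN s hs).trans Set.subset_union_left) (x := x) (ξ := ξ)
      (Gen.mono hx (by
        rintro v ((hv | hv) | hv)
        · exact Or.inl hv
        · exact Or.inr (hB' hv)
        · exact Or.inr (by rw [Set.mem_singleton_iff.mp hv]; exact hs))) ih (h2 s hs)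
    rw [Set.union_assoc] at h3
    exact h3

/-- rank of a new level -/
theorem r_add_level (Z : Sys k ((Fin m → ℤ) × ℤ) I) {N Nm : Set ((Fin m → ℤ) × ℤ)} {c : ℕ}
    (hD : DirData Z N Nm c) (A B : Set ((Fin m → ℤ) × ℤ)) (hA : A.Finite) (hB : B.Finite) (b : ℤ)
    (hAb : ∀ v ∈ A, v.2 < b) (hBb : ∀ v ∈ B, v.2 = b) (hN : ∀ s ∈ B, tr s N ⊆ A) :
    Z.r (A ∪ B) = Z.r A + B.ncard * rhoP Z N := by
  obtain ⟨ζ, hζ⟩ := exists_zeta (Prod.fst '' B) (hB.image _)
  refine p1_induct B hB (fun v => ζ v.1) ?_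
    (fun B' => Z.r (A ∪ B') = Z.r A + B'.ncard * rhoP Z N) ?_ ?_
  · intro u hu v hv huv
    have := hζ (Set.mem_image_of_mem _ hu) (Set.mem_image_of_mem _ hv) huv
    exact Prod.ext this ((hBb u hu).trans (hBb v hv).symm)
  · simp
  · intro s hs B' hB' hsB' hlt ih
    have hdet := dirData_det Z hD ζ s (A ∪ B') (hA.union (hB.subset hB'))
      ((hN s hs).trans Set.subset_union_left) (by
        rintro v (hv | hv)
        · left
          rw [hBb s hs]
          exact hAb v hv
        · right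
          exact ⟨(hBb v (hB' hv)).trans (hBb s hs).symm, hlt v hv⟩)
    have h3 := Det.r_eq hdet ((hN s hs).trans Set.subset_union_left) (hA.union (hB.subset hB'))
    rw [p1_tr_union, r_tr, r_tr, Set.union_assoc, ih] at h3
    have h4 : Z.r N ≤ Z.r (N ∪ {0}) := r_mono Z Set.subset_union_left
      (hD.finN.union (Set.finite_singleton _))
    have h5 : (B' ∪ {s}).ncard = B'.ncard + 1 := by
      rw [Set.union_singleton, Set.ncard_insert_of_notMem hsB' (hB.subset hB')]
    have h6 : rhoP Z N = Z.r (N ∪ {0}) - Z.r N := rfl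
    rw [h5, add_mul, one_mul]
    omega

/-- upper bound of the transcendence degree of new sites -/
theorem p1_trd_le (Z : Sys k ((Fin m → ℤ) × ℤ) I) {N : Set ((Fin m → ℤ) × ℤ)}
    (hNf : N.Finite) (A B : Set ((Fin m → ℤ) × ℤ)) (hA : A.Finite) (hB : B.Finite)
    (hN : ∀ s ∈ B, tr s N ⊆ A) {x : ((Fin m → ℤ) × ℤ) × I → Ω}
    (h2 : ∀ s ∈ B, Z.Gen x (tr s N ∪ {s})) :
    trdOn k x (A ∪ B) ≤ trdOn k x A + B.ncard * rhoP Z N := by
  induction B, hB using Set.Finite.induction_on with
  | empty => simp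
  | @insert s B' hsB' hB' ih =>
    have ih' := ih (fun u hu => hN u (Set.mem_insert_of_mem _ hu))
      (fun u hu => h2 u (Set.mem_insert_of_mem _ hu))
    have hsN := hN s (Set.mem_insert _ _)
    have hg := h2 s (Set.mem_insert _ _)
    have h3 := trdOn_submod (k := k) x (A := A ∪ B') (B := {s}) (C := tr s N)
      (hsN.trans Set.subset_union_left) (finite_range_res x (hA.union hB'))
      (finite_range_res x (Set.finite_singleton s))
    have h4 : trdOn k x (tr s N) = Z.r N :=
      (Gen.trd_eq (Gen.mono hg Set.subset_union_left)).trans (r_tr Z N s)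
    have h5 : trdOn k x (tr s N ∪ {s}) = Z.r (N ∪ {0}) := by
      rw [Gen.trd_eq hg, p1_tr_union, r_tr]
    have h6 : Z.r N ≤ Z.r (N ∪ {0}) := r_mono Z Set.subset_union_left
      (hNf.union (Set.finite_singleton _))
    have h7 : rhoP Z N = Z.r (N ∪ {0}) - Z.r N := rfl
    have h8 : A ∪ insert s B' = A ∪ B' ∪ {s} := by
      rw [Set.union_assoc, Set.union_singleton]
    rw [h8, Set.ncard_insert_of_notMem hsB' hB', add_mul, one_mul]
    omega

/-- genericity of a new level from the transcendence degree -/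
theorem gen_add_level (Z : Sys k ((Fin m → ℤ) × ℤ) I) {N Nm : Set ((Fin m → ℤ) × ℤ)} {c : ℕ}
    (hD : DirData Z N Nm c) (A B : Set ((Fin m → ℤ) × ℤ)) (hA : A.Finite) (hB : B.Finite) (b : ℤ)
    (hAb : ∀ v ∈ A, v.2 < b) (hBb : ∀ v ∈ B, v.2 = b) (hN : ∀ s ∈ B, tr s N ⊆ A)
    {x : ((Fin m → ℤ) × ℤ) × I → Ω} (hx : Z.Gen x A)
    (h2 : ∀ s ∈ B, Z.Gen x (tr s N ∪ {s}))
    (h3 : trdOn k x A + B.ncard * rhoP Z N ≤ trdOn k x (A ∪ B)) : Z.Gen x (A ∪ B) := by
  obtain ⟨ζ, hζ⟩ := exists_zeta (Prod.fst '' B) (hB.image _)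
  refine p1_induct B hB (fun v => ζ v.1) ?_ (fun B' => Z.Gen x (A ∪ B')) ?_ ?_
  · intro u hu v hv huv
    have := hζ (Set.mem_image_of_mem _ hu) (Set.mem_image_of_mem _ hv) huv
    exact Prod.ext this ((hBb u hu).trans (hBb v hv).symm)
  · simpa using hx
  · intro s hs B' hB' hsB' hlt ih
    have hdet := dirData_det Z hD ζ s (A ∪ B') (hA.union (hB.subset hB'))
      ((hN s hs).trans Set.subset_union_left) (by
        rintro v (hv | hv)
        · left
          rw [hBb s hs]
          exact hAb v hv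
        · right
          exact ⟨(hBb v (hB' hv)).trans (hBb s hs).symm, hlt v hv⟩)
    have hB'' : B' ∪ {s} ⊆ B := by
      rintro v (hv | hv)
      · exact hB' hv
      · rw [Set.mem_singleton_iff.mp hv]; exact hs
    have hBf : (B' ∪ {s}).Finite := hB.subset hB''
    have h4 : (B' ∪ {s}).ncard = B'.ncard + 1 := by
      rw [Set.union_singleton, Set.ncard_insert_of_notMem hsB' (hB.subset hB')]
    have h5 := r_add_level Z hD A (B' ∪ {s}) hA hBf b hAb (fun v hv => hBb v (hB'' hv))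
      (fun v hv => hN v (hB'' hv))
    have h6 := p1_trd_le Z hD.finN (A ∪ (B' ∪ {s})) (B \ (B' ∪ {s})) (hA.union hBf)
      (hB.subset Set.sdiff_subset) (fun v hv => (hN v hv.1).trans Set.subset_union_left)
      (fun v hv => h2 v hv.1)
    have h7 : A ∪ (B' ∪ {s}) ∪ B \ (B' ∪ {s}) = A ∪ B := by
      rw [Set.union_assoc, Set.union_sdiff_cancel hB'']
    have h8 : (B \ (B' ∪ {s})).ncard + (B' ∪ {s}).ncard = B.ncard := by
      rw [Set.ncard_sdiff hB'' hBf]
      have := Set.ncard_le_ncard hB'' hB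
      omega
    have h9 : trdOn k x A = Z.r A := Gen.trd_eq hx
    have h10 : Z.r (A ∪ B' ∪ {s}) ≤ trdOn k x (A ∪ B' ∪ {s}) := by
      rw [h7] at h6
      rw [Set.union_assoc, h5]
      have e1 : B.ncard * rhoP Z N =
          (B \ (B' ∪ {s})).ncard * rhoP Z N + (B' ∪ {s}).ncard * rhoP Z N := by
        rw [← add_mul, h8]
      omega
    have h11 := Det.gen hdet ((hN s hs).trans Set.subset_union_left) (hA.union (hB.subset hB'))
      ih (h2 s hs) h10
    rw [Set.union_assoc] at h11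
    exact h11

end Pool.Agent.ORG
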