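import Pool.Agent.ORG.Defs
import Pool.Agent.ORG.F1
import Pool.Agent.ORG.F2
import Pool.Agent.ORG.S1
import Pool.Agent.ORG.S2
import Pool.Agent.ORG.E1
import Pool.Agent.ORG.P1

/-!
# MP_08a057_al, ORG module E2 : (6.2) independence of the free letters
(paper: /team-store/ORG_paper.md)
-/

set_option autoImplicit false

namespace Pool.Agent.ORG

open MvPolynomial

section E2aux

variable {k : Type} [Field k]

/-- images of tangent vectors under homomorphisms of fields -/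
theorem e2_isTan_map {J E E' : Type} [Field E] [Algebra k E] [Field E'] [Algebra k E']
    {b ξ : J → E} (φ : E →ₐ[k] E') (h : IsTan k b ξ) :
    IsTan k (fun j => φ (b j)) (fun j => φ (ξ j)) := by
  intro P hP
  have hinj : Function.Injective φ := φ.toRingHom.injective
  have h0 : ∀ Q : MvPolynomial J k, aeval (fun j => φ (b j)) Q = φ (aeval b Q) :=
    fun Q => (MvPolynomial.comp_aeval_apply b φ Q).symm
  have h1 : aeval b P = 0 := by
    apply hinj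
    rw [← h0, hP, map_zero]
  have h2 := h P h1
  unfold dvec at h2 ⊢
  rw [map_sum] at h2 ⊢
  simp only [Finsupp.linearCombination_single, smul_eq_mul] at h2 ⊢
  rw [Finset.sum_congr rfl (fun j _ => by rw [h0, ← map_mul]), ← map_sum, h2, map_zero]

variable {Γ I : Type} [AddCommGroup Γ]

/-- extension by new sites, one site at a time -/
theorem e2_glue (Z : Sys k Γ I) (L T N' : Set Γ) (hdisj : ∀ s ∈ T, s ∉ L)
    (hN : ∀ s ∈ T, tr s N' ⊆ L) (J : Set I)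
    (hJ : ∀ ξ : Γ × I → Z.K, TanOn k Z.z N' ξ → ∀ f : I → Z.K,
        ∃ ξ' : Γ × I → Z.K, TanOn k Z.z (N' ∪ {0}) ξ' ∧
          (∀ v : Γ × I, v.1 ∈ N' → ξ' v = ξ v) ∧ ∀ i ∈ J, ξ' (0, i) = f i)
    (ξ : Γ × I → Z.K) (hξ : TanOn k Z.z L ξ) (f : Γ × I → Z.K) :
    ∃ ξ' : Γ × I → Z.K, (∀ v : Γ × I, v.1 ∈ L → ξ' v = ξ v) ∧
      (∀ s ∈ T, TanOn k Z.z (tr s N' ∪ {s}) ξ') ∧
      ∀ v : Γ × I, v.1 ∈ T → v.2 ∈ J → ξ' v = f v := by
  classical
  -- the automorphisms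
  let σ : Γ → (Z.K ≃ₐ[k] Z.K) := fun s => Z.α (Multiplicative.ofAdd s)
  have key : ∀ s ∈ T, ∃ η : Γ × I → Z.K, TanOn k Z.z (N' ∪ {0}) η ∧
      (∀ v : Γ × I, v.1 ∈ N' → η v = (σ s).symm (ξ (s + v.1, v.2))) ∧
      ∀ i ∈ J, η (0, i) = (σ s).symm (f (s, i)) := by
    intro s hs
    have h1 : TanOn k Z.z (tr s N') ξ := hξ.mono (hN s hs)
    rw [tanOn_tr] at h1
    have h2 := e2_isTan_map (k := k) ((σ s).symm : Z.K →ₐ[k] Z.K) h1
    have h3 : TanOn k Z.z N' (fun v => (σ s).symm (ξ (s + v.1, v.2))) := by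
      refine TanOn.congr (x := fun v => (σ s).symm (Z.z (s + v.1, v.2)))
        (ξ := fun v => (σ s).symm (ξ (s + v.1, v.2))) h2 ?_ (fun _ _ => rfl)
      intro v _
      have := Z_z_shift Z s v
      show (σ s).symm (Z.z (s + v.1, v.2)) = Z.z v
      rw [← this]
      exact (σ s).symm_apply_apply _
    exact hJ _ h3 (fun i => (σ s).symm (f (s, i)))
  choose! η hη1 hη2 hη3 using key
  let ξ' : Γ × I → Z.K := fun v => if v.1 ∈ L then ξ v else
    if v.1 ∈ T then σ v.1 (η v.1 (0, v.2)) else 0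
  refine ⟨ξ', fun v hv => if_pos hv, fun s hs => ?_, fun v hv hvJ => ?_⟩
  · have hset : tr s N' ∪ {s} = tr s (N' ∪ {0}) := by
      ext u
      constructor
      · rintro (h | h)
        · exact Or.inl h
        · exact Or.inr (sub_eq_zero.2 h)
      · rintro (h | h)
        · exact Or.inl h
        · exact Or.inr (sub_eq_zero.1 h)
    rw [hset, tanOn_tr]
    have h2 := e2_isTan_map (k := k) (σ s : Z.K →ₐ[k] Z.K) (hη1 s hs)
    refine TanOn.congr (x := fun v => σ s (Z.z v)) (ξ := fun v => σ s (η s v)) h2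
      (fun v _ => Z_z_shift Z s v) ?_
    intro v hv
    rcases hv with hv | hv
    · rw [hη2 s hs v hv]
      have hmem : s + v.1 ∈ L := by
        apply hN s hs
        show s + v.1 - s ∈ N'
        rwa [add_sub_cancel_left]
      show σ s ((σ s).symm (ξ (s + v.1, v.2))) = if s + v.1 ∈ L then _ else _
      rw [if_pos hmem]
      exact (σ s).apply_symm_apply _
    · have hv0 : v.1 = 0 := hv
      have hv' : v = (0, v.2) := Prod.ext hv0 rfl
      show σ s (η s v) = if s + v.1 ∈ L then _ else if s + v.1 ∈ T then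
        σ (s + v.1) (η (s + v.1) (0, v.2)) else 0
      rw [hv0, add_zero, if_neg (hdisj s hs), if_pos hs]
      rw [hv']
  · show (if v.1 ∈ L then ξ v else if v.1 ∈ T then σ v.1 (η v.1 (0, v.2)) else 0) = f v
    rw [if_neg (hdisj _ hv), if_pos hv, hη3 _ hv _ hvJ]
    exact (σ v.1).apply_symm_apply _

end E2aux

variable {k : Type} [Field k] [CharZero k] {I : Type} [Finite I] {m : ℕ}

/-- (6.2), tangent vectors with prescribed free letters: one level up -/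
theorem exists_ext_up (Z : Sys k ((Fin m → ℤ) × ℤ) I) {N Nm : Set ((Fin m → ℤ) × ℤ)} {c : ℕ}
    (hD : DirData Z N Nm c) (Ip : Set I)
    (hIp : ∀ ξ : ((Fin m → ℤ) × ℤ) × I → Z.K, TanOn k Z.z N ξ → ∀ f : I → Z.K,
        ∃ ξ' : ((Fin m → ℤ) × ℤ) × I → Z.K, TanOn k Z.z (N ∪ {0}) ξ' ∧
          (∀ v : ((Fin m → ℤ) × ℤ) × I, v.1 ∈ N → ξ' v = ξ v) ∧ ∀ i ∈ Ip, ξ' (0, i) = f i)
    (a b : ℤ) (hab : a + c ≤ b) (ξ : ((Fin m → ℤ) × ℤ) × I → Z.K)
    (hξ : TanOn k Z.z (lev a b) ξ) (f : ((Fin m → ℤ) × ℤ) × I → Z.K) :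
    ∃ ξ' : ((Fin m → ℤ) × ℤ) × I → Z.K, TanOn k Z.z (lev a (b + 1)) ξ' ∧
      (∀ v : ((Fin m → ℤ) × ℤ) × I, v.1 ∈ lev a b → ξ' v = ξ v) ∧
      ∀ v : ((Fin m → ℤ) × ℤ) × I, v.1.2 = b + 1 → v.2 ∈ Ip → ξ' v = f v := by
  have hN : ∀ s ∈ {s : (Fin m → ℤ) × ℤ | s.2 = b + 1}, tr s N ⊆ lev a b := by
    intro s hs u hu
    have hs' : s.2 = b + 1 := hs
    have h1 := hD.levN _ hu
    rw [Prod.snd_sub, hs'] at h1
    constructor <;> omega
  obtain ⟨ξ', h1, h2, h3⟩ := e2_glue Z (lev a b) {s | s.2 = b + 1} N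
    (by
      intro s hs h
      have hs' : s.2 = b + 1 := hs
      have := h.2
      omega) hN Ip hIp ξ hξ f
  refine ⟨ξ', ?_, h1, fun v hv hvi => h3 v hv hvi⟩
  apply tanOn_of_finite
  intro F hF hFs
  have hL : TanOn k Z.z (lev a b) ξ' :=
    hξ.congr (fun _ _ => rfl) (fun v hv => (h1 v hv).symm)
  set B : Set ((Fin m → ℤ) × ℤ) := {s | s ∈ F ∧ s.2 = b + 1} with hBdef
  set A : Set ((Fin m → ℤ) × ℤ) := (F ∩ lev a b) ∪ ⋃ s ∈ B, tr s N with hAdef
  have hBf : B.Finite := hF.subset (fun s hs => hs.1)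
  have htr : ∀ s : (Fin m → ℤ) × ℤ, (tr s N).Finite := by
    intro s
    have : tr s N = (fun u => u - s) ⁻¹' N := rfl
    rw [this]
    exact hD.finN.preimage (fun x _ y _ h => sub_left_injective h)
  have hAf : A.Finite := (hF.inter_of_left _).union (hBf.biUnion (fun s _ => htr s))
  have hAL : A ⊆ lev a b := by
    rintro u (hu | hu)
    · exact hu.2
    · simp only [Set.mem_iUnion] at hu
      obtain ⟨s, hs, hu⟩ := hu
      exact hN s hs.2 hu
  have hAB : TanOn k Z.z (A ∪ B) ξ' := by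
    refine tan_add_level Z hD A B hAf hBf (b + 1) (fun v hv => ?_) (fun v hv => hv.2)
      (fun s hs => ?_) (gen_self Z _) (hL.mono hAL) (fun s hs => h2 s hs.2)
    · have := (hAL hv).2
      omega
    · intro u hu
      exact Or.inr (Set.mem_biUnion hs hu)
  refine hAB.mono ?_
  intro u hu
  have hlev := hFs hu
  by_cases hu' : u.2 = b + 1
  · exact Or.inr ⟨hu, hu'⟩
  · refine Or.inl (Or.inl ⟨hu, hlev.1, ?_⟩)
    have := hlev.2
    omega

/-- (6.2), one level down -/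
theorem exists_ext_down (Z : Sys k ((Fin m → ℤ) × ℤ) I) {N Nm : Set ((Fin m → ℤ) × ℤ)} {c : ℕ}
    (hD : DirData Z N Nm c) (Im : Set I)
    (hIm : ∀ ξ : ((Fin m → ℤ) × ℤ) × I → Z.K, TanOn k Z.z Nm ξ → ∀ f : I → Z.K,
        ∃ ξ' : ((Fin m → ℤ) × ℤ) × I → Z.K, TanOn k Z.z (Nm ∪ {0}) ξ' ∧
          (∀ v : ((Fin m → ℤ) × ℤ) × I, v.1 ∈ Nm → ξ' v = ξ v) ∧ ∀ i ∈ Im, ξ' (0, i) = f i)
    (a b : ℤ) (hab : a + c ≤ b) (ξ : ((Fin m → ℤ) × ℤ) × I → Z.K)
    (hξ : TanOn k Z.z (lev a b) ξ) (f : ((Fin m → ℤ) × ℤ) × I → Z.K) :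
    ∃ ξ' : ((Fin m → ℤ) × ℤ) × I → Z.K, TanOn k Z.z (lev (a - 1) b) ξ' ∧
      (∀ v : ((Fin m → ℤ) × ℤ) × I, v.1 ∈ lev a b → ξ' v = ξ v) ∧
      ∀ v : ((Fin m → ℤ) × ℤ) × I, v.1.2 = a - 1 → v.2 ∈ Im → ξ' v = f v := by
  have hN : ∀ s ∈ {s : (Fin m → ℤ) × ℤ | s.2 = a - 1}, tr s Nm ⊆ lev a b := by
    intro s hs u hu
    have hs' : s.2 = a - 1 := hs
    have h1 := hD.levNm _ hu
    rw [Prod.snd_sub, hs'] at h1
    constructor <;> omega
  obtain ⟨ξ', h1, h2, h3⟩ := e2_glue Z (lev a b) {s | s.2 = a - 1} Nm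
    (by
      intro s hs h
      have hs' : s.2 = a - 1 := hs
      have := h.1
      omega) hN Im hIm ξ hξ f
  refine ⟨ξ', ?_, h1, fun v hv hvi => h3 v hv hvi⟩
  apply tanOn_of_finite
  intro F hF hFs
  have hL : TanOn k Z.z (lev a b) ξ' :=
    hξ.congr (fun _ _ => rfl) (fun v hv => (h1 v hv).symm)
  set B : Set ((Fin m → ℤ) × ℤ) := {s | s ∈ F ∧ s.2 = a - 1} with hBdef
  set A : Set ((Fin m → ℤ) × ℤ) := (F ∩ lev a b) ∪ ⋃ s ∈ B, tr s Nm with hAdef
  have hBf : B.Finite := hF.subset (fun s hs => hs.1)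
  have htr : ∀ s : (Fin m → ℤ) × ℤ, (tr s Nm).Finite := by
    intro s
    have : tr s Nm = (fun u => u - s) ⁻¹' Nm := rfl
    rw [this]
    exact hD.finNm.preimage (fun x _ y _ h => sub_left_injective h)
  have hAf : A.Finite := (hF.inter_of_left _).union (hBf.biUnion (fun s _ => htr s))
  have hAL : A ⊆ lev a b := by
    rintro u (hu | hu)
    · exact hu.2
    · simp only [Set.mem_iUnion] at hu
      obtain ⟨s, hs, hu⟩ := hu
      exact hN s hs.2 hu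
  have hAB : TanOn k Z.z (A ∪ B) ξ' := by
    refine tan_add_level_down Z hD A B hAf hBf (a - 1) (fun v hv => ?_) (fun v hv => hv.2)
      (fun s hs => ?_) (gen_self Z _) (hL.mono hAL) (fun s hs => h2 s hs.2)
    · have := (hAL hv).1
      omega
    · intro u hu
      exact Or.inr (Set.mem_biUnion hs hu)
  refine hAB.mono ?_
  intro u hu
  have hlev := hFs hu
  by_cases hu' : u.2 = a - 1
  · exact Or.inr ⟨hu, hu'⟩
  · refine Or.inl (Or.inl ⟨hu, ?_, hlev.2⟩)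
    have := hlev.1
    omega

end Pool.Agent.ORG
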