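import Pool.Agent.ORG.Defs
import Pool.Agent.ORG.F1
import Pool.Agent.ORG.F2
import Pool.Agent.ORG.S1
import Pool.Agent.ORG.S2
import Pool.Agent.ORG.E1
import Pool.Agent.ORG.E2

/-!
# MP_08a057_al, ORG module E3 : (6.1) normal form map and independence
(paper: /team-store/ORG_paper.md)
-/

set_option autoImplicit false

namespace Pool.Agent.ORG

open MvPolynomial

variable {k : Type} [Field k] [CharZero k] {I : Type} [Finite I] {m : ℕ}

/-! ### Auxiliary facts -/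

theorem e3_shift_apply {Γ : Type} [AddCommGroup Γ] (Z : Sys k Γ I) (γ : Γ) (p : Γ × I →₀ Z.K)
    (v : Γ × I) :
    Z.shift γ p v = Z.α (Multiplicative.ofAdd γ) (p (v.1 - γ, v.2)) := by
  have hinj : Function.Injective (fun v : Γ × I => (γ + v.1, v.2)) := by
    rintro ⟨a, i⟩ ⟨b, j⟩ h
    simp only [Prod.mk.injEq, add_right_inj] at h
    exact Prod.ext h.1 h.2
  have h1 : Z.shift γ p = Finsupp.mapDomain (fun v : Γ × I => (γ + v.1, v.2))
      (Finsupp.mapRange.addMonoidHom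
        ((Z.α (Multiplicative.ofAdd γ) : Z.K ≃+* Z.K) : Z.K →+ Z.K) p) := rfl
  have h2 : v = (fun v : Γ × I => (γ + v.1, v.2)) (v.1 - γ, v.2) := by
    refine Prod.ext ?_ rfl
    simp
  conv_lhs => rw [h2]
  rw [h1]
  exact Finsupp.mapDomain_apply hinj _ _

/-- an element of the field of a window, translated -/
theorem e3_fld_tr {Γ : Type} [AddCommGroup Γ] (Z : Sys k Γ I) (γ : Γ) {A : Set Γ} {y : Z.K}
    (hy : y ∈ fld k (res Z.z A)) :
    Z.α (Multiplicative.ofAdd γ) y ∈ fld k (res Z.z (tr γ A)) := by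
  induction hy using IntermediateField.adjoin_induction with
  | mem x hx =>
    obtain ⟨j, rfl⟩ := hx
    have h1 : Z.α (Multiplicative.ofAdd γ) (res Z.z A j) = Z.z (γ + j.1.1, j.1.2) :=
      Z_z_shift Z γ j.1
    rw [h1]
    refine IntermediateField.subset_adjoin _ _ ⟨⟨(γ + j.1.1, j.1.2), ?_⟩, rfl⟩
    show γ + j.1.1 - γ ∈ A
    rw [add_sub_cancel_left]
    exact j.2
  | algebraMap x =>
    rw [AlgEquiv.commutes]
    exact algebraMap_mem _ _
  | add x y _ _ h1 h2 => rw [map_add]; exact add_mem h1 h2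
  | mul x y _ _ h1 h2 => rw [map_mul]; exact mul_mem h1 h2
  | inv x _ h1 => rw [map_inv₀]; exact inv_mem h1

theorem e3_fld_mono {Γ E : Type} [Field E] [Algebra k E] (x : Γ × I → E) {A B : Set Γ}
    (h : A ⊆ B) : fld k (res x A) ≤ fld k (res x B) := by
  apply IntermediateField.adjoin.mono
  rintro _ ⟨j, rfl⟩
  exact ⟨⟨j.1, h j.2⟩, rfl⟩

/-- tangent vectors which vanish on `[a,b]` with prescribed values on the free letters -/
theorem e3_exists_tan (Z : Sys k ((Fin m → ℤ) × ℤ) I) {N Nm : Set ((Fin m → ℤ) × ℤ)} {c : ℕ}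
    (hD : DirData Z N Nm c) (Ip Im : Set I)
    (hIp : ∀ ξ : ((Fin m → ℤ) × ℤ) × I → Z.K, TanOn k Z.z N ξ → ∀ f : I → Z.K,
        ∃ ξ' : ((Fin m → ℤ) × ℤ) × I → Z.K, TanOn k Z.z (N ∪ {0}) ξ' ∧
          (∀ v : ((Fin m → ℤ) × ℤ) × I, v.1 ∈ N → ξ' v = ξ v) ∧ ∀ i ∈ Ip, ξ' (0, i) = f i)
    (hIm : ∀ ξ : ((Fin m → ℤ) × ℤ) × I → Z.K, TanOn k Z.z Nm ξ → ∀ f : I → Z.K,
        ∃ ξ' : ((Fin m → ℤ) × ℤ) × I → Z.K, TanOn k Z.z (Nm ∪ {0}) ξ' ∧
          (∀ v : ((Fin m → ℤ) × ℤ) × I, v.1 ∈ Nm → ξ' v = ξ v) ∧ ∀ i ∈ Im, ξ' (0, i) = f i)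
    (a b : ℤ) (hab : a + c ≤ b) (f : ((Fin m → ℤ) × ℤ) × I → Z.K) (d : ℕ) :
    ∃ ξ : ((Fin m → ℤ) × ℤ) × I → Z.K, TanOn k Z.z (lev (a - d) (b + d)) ξ ∧
      (∀ v : ((Fin m → ℤ) × ℤ) × I, v.1 ∈ lev a b → ξ v = 0) ∧
      ∀ v : ((Fin m → ℤ) × ℤ) × I, v.1 ∈ lev (a - d) (b + d) →
        ((b < v.1.2 ∧ v.2 ∈ Ip) ∨ (v.1.2 < a ∧ v.2 ∈ Im)) → ξ v = f v := by
  induction d with
  | zero =>
    refine ⟨0, TanOn.zero _ _, fun _ _ => rfl, ?_⟩
    intro v hv h
    obtain ⟨h1, h2⟩ := hv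
    simp only [Nat.cast_zero, sub_zero, add_zero] at h1 h2
    rcases h with h | h
    · exact absurd h.1 (not_lt.mpr h2)
    · exact absurd h.1 (not_lt.mpr h1)
  | succ d ih =>
    obtain ⟨ξ, h1, h2, h3⟩ := ih
    obtain ⟨ξ1, a1, a2, a3⟩ := exists_ext_up Z hD Ip hIp (a - d) (b + d) (by omega) ξ h1 f
    obtain ⟨ξ2, b1, b2, b3⟩ := exists_ext_down Z hD Im hIm (a - d) (b + d + 1) (by omega) ξ1 a1 f
    have e1 : a - ((d + 1 : ℕ) : ℤ) = a - d - 1 := by push_cast; ring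
    have e2 : b + ((d + 1 : ℕ) : ℤ) = b + d + 1 := by push_cast; ring
    rw [e1, e2]
    refine ⟨ξ2, b1, ?_, ?_⟩
    · intro v hv
      have hv1 : v.1 ∈ (lev (a - d) (b + d) : Set ((Fin m → ℤ) × ℤ)) := by
        obtain ⟨g1, g2⟩ := hv
        constructor <;> omega
      have hv2 : v.1 ∈ (lev (a - d) (b + d + 1) : Set ((Fin m → ℤ) × ℤ)) := by
        obtain ⟨g1, g2⟩ := hv
        constructor <;> omega
      rw [b2 v hv2, a2 v hv1, h2 v hv]
    · intro v hv hfree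
      obtain ⟨g1, g2⟩ := hv
      by_cases hlow : v.1.2 = a - d - 1
      · rcases hfree with hf | hf
        · have := hf.1
          omega
        · exact b3 v hlow hf.2
      · have hv2 : v.1 ∈ (lev (a - d) (b + d + 1) : Set ((Fin m → ℤ) × ℤ)) := by
          constructor <;> omega
        rw [b2 v hv2]
        by_cases hhigh : v.1.2 = b + d + 1
        · rcases hfree with hf | hf
          · exact a3 v hhigh hf.2
          · have := hf.1
            omega
        · have hv1 : v.1 ∈ (lev (a - d) (b + d) : Set ((Fin m → ℤ) × ℤ)) := by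
            constructor <;> omega
          rw [a2 v hv1]
          exact h3 v hv1 hfree

/-- (6.2): the relation vectors supported on the levels `[a,b]` and on free letters are supported
on the levels `[a,b]` -/
theorem free_part_zero (Z : Sys k ((Fin m → ℤ) × ℤ) I) {N Nm : Set ((Fin m → ℤ) × ℤ)} {c : ℕ}
    (hD : DirData Z N Nm c) (Ip Im : Set I)
    (hIp : ∀ ξ : ((Fin m → ℤ) × ℤ) × I → Z.K, TanOn k Z.z N ξ → ∀ f : I → Z.K,
        ∃ ξ' : ((Fin m → ℤ) × ℤ) × I → Z.K, TanOn k Z.z (N ∪ {0}) ξ' ∧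
          (∀ v : ((Fin m → ℤ) × ℤ) × I, v.1 ∈ N → ξ' v = ξ v) ∧ ∀ i ∈ Ip, ξ' (0, i) = f i)
    (hIm : ∀ ξ : ((Fin m → ℤ) × ℤ) × I → Z.K, TanOn k Z.z Nm ξ → ∀ f : I → Z.K,
        ∃ ξ' : ((Fin m → ℤ) × ℤ) × I → Z.K, TanOn k Z.z (Nm ∪ {0}) ξ' ∧
          (∀ v : ((Fin m → ℤ) × ℤ) × I, v.1 ∈ Nm → ξ' v = ξ v) ∧ ∀ i ∈ Im, ξ' (0, i) = f i)
    (a b : ℤ) (hab : a + c ≤ b) (p : ((Fin m → ℤ) × ℤ) × I →₀ Z.K) (hp : p ∈ Z.RV Set.univ)
    (hsupp : ∀ v, p v ≠ 0 → v.1 ∈ lev a b ∨ (b < v.1.2 ∧ v.2 ∈ Ip) ∨ (v.1.2 < a ∧ v.2 ∈ Im)) :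
    ∀ v, p v ≠ 0 → v.1 ∈ lev a b := by
  classical
  intro v0 hv0
  rcases hsupp v0 hv0 with h0 | h0
  · exact h0
  exfalso
  -- a bound for the levels of the support
  obtain ⟨d, hd⟩ : ∃ d : ℕ, ∀ v ∈ p.support, a - d ≤ v.1.2 ∧ v.1.2 ≤ b + d := by
    refine ⟨p.support.sup (fun v => (v.1.2 - a).natAbs + (v.1.2 - b).natAbs), ?_⟩
    intro v hv
    have h := Finset.le_sup (f := fun v : ((Fin m → ℤ) × ℤ) × I =>
      (v.1.2 - a).natAbs + (v.1.2 - b).natAbs) hv
    constructor <;> omega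
  obtain ⟨ξ, h1, h2, h3⟩ := e3_exists_tan Z hD Ip Im hIp hIm a b hab
    (fun v => if v = v0 then 1 else 0) d
  have hp' : p ∈ Z.RV (lev (a - d) (b + d)) := by
    refine mem_RV_of_supp Z (Set.subset_univ _) hp ?_
    intro v hv
    by_contra hne
    exact hv (hd v (Finsupp.mem_support_iff.mpr hne))
  have h4 := (tanOn_iff_RV Z).mp h1 p hp'
  rw [Finsupp.linearCombination_apply, Finsupp.sum, Finset.sum_eq_single v0] at h4
  · rw [h3 v0 (hd v0 (Finsupp.mem_support_iff.mpr hv0)) h0, if_pos rfl] at h4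
    apply hv0
    simpa using h4
  · intro v hv hne
    rcases hsupp v (Finsupp.mem_support_iff.mp hv) with h5 | h5
    · rw [h2 v h5, smul_zero]
    · rw [h3 v (hd v hv) h5, if_neg hne, smul_zero]
  · intro hv
    rw [Finsupp.notMem_support_iff.mp hv, zero_smul]


/-! ### Rewriting -/

section Rewriting

variable {V K : Type} [Field K]

/-- one rewriting step -/
noncomputable def e3R (c : V → (V →₀ K)) : (V →₀ K) →ₗ[K] (V →₀ K) :=
  Finsupp.linearCombination K (fun v => Finsupp.single v 1 - c v)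

theorem e3R_single (c : V → (V →₀ K)) (v : V) (x : K) :
    e3R c (Finsupp.single v x) = x • (Finsupp.single v 1 - c v) := by
  rw [e3R, Finsupp.linearCombination_single]

theorem e3R_apply (c : V → (V →₀ K)) (p : V →₀ K) :
    e3R c p = p - p.sum (fun v x => x • c v) := by
  induction p using Finsupp.induction_linear with
  | zero => simp
  | add p q hp hq =>
    have h : (p + q).sum (fun v x => x • c v) =
        p.sum (fun v x => x • c v) + q.sum (fun v x => x • c v) :=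
      Finsupp.sum_add_index' (fun v => zero_smul K (c v)) (fun v x y => add_smul x y (c v))
    rw [map_add, hp, hq, h]
    abel
  | single v x =>
    have h : (Finsupp.single v x).sum (fun v x => x • c v) = x • c v :=
      Finsupp.sum_single_index (zero_smul K (c v))
    rw [e3R_single, h, smul_sub, Finsupp.smul_single, smul_eq_mul, mul_one]

/-- the complete rewriting -/
noncomputable def e3T (c : V → (V →₀ K)) (d : V → ℕ) : (V →₀ K) →ₗ[K] (V →₀ K) :=
  Finsupp.linearCombination K (fun v => (e3R c)^[d v] (Finsupp.single v 1))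

theorem e3T_single (c : V → (V →₀ K)) (d : V → ℕ) (v : V) (x : K) :
    e3T c d (Finsupp.single v x) = x • (e3R c)^[d v] (Finsupp.single v 1) := by
  rw [e3T, Finsupp.linearCombination_single]

variable {c : V → (V →₀ K)} {d : V → ℕ} {nrm : V → Prop}

theorem e3R_nrm (hcn : ∀ v, nrm v → c v = 0) {v : V} (hv : nrm v) (n : ℕ) :
    (e3R c)^[n] (Finsupp.single v 1) = Finsupp.single v 1 := by
  induction n with
  | zero => rfl
  | succ n ih =>
    rw [Function.iterate_succ_apply', ih, e3R_single, hcn v hv, sub_zero, one_smul]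

theorem e3R_filtr (hcn : ∀ v, nrm v → c v = 0)
    (hdec : ∀ v, ¬ nrm v → ∀ u, (Finsupp.single v (1 : K) - c v) u ≠ 0 → nrm u ∨ d u < d v)
    (n : ℕ) (p : V →₀ K) (hp : ∀ u, p u ≠ 0 → nrm u ∨ d u ≤ n + 1) :
    ∀ u, e3R c p u ≠ 0 → nrm u ∨ d u ≤ n := by
  classical
  intro u hu
  have h1 : e3R c p u = p.sum (fun v x => x * (Finsupp.single v (1 : K) - c v) u) := by
    rw [e3R, Finsupp.linearCombination_apply, Finsupp.sum, Finsupp.finsetSum_apply]
    rfl
  rw [h1, Finsupp.sum] at hu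
  obtain ⟨v, hv, hvu⟩ := Finset.exists_ne_zero_of_sum_ne_zero hu
  have hpv := Finsupp.mem_support_iff.mp hv
  have hcu : (Finsupp.single v (1 : K) - c v) u ≠ 0 := right_ne_zero_of_mul hvu
  by_cases hn : nrm v
  · rw [hcn v hn, sub_zero] at hcu
    by_cases huv : v = u
    · exact Or.inl (huv ▸ hn)
    · exact absurd (Finsupp.single_eq_of_ne (fun h => huv h.symm)) hcu
  · rcases hp v hpv with h | h
    · exact absurd h hn
    · rcases hdec v hn u hcu with h2 | h2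
      · exact Or.inl h2
      · exact Or.inr (by omega)

theorem e3R_filtr' (hd0 : ∀ v, d v = 0 → nrm v) (hcn : ∀ v, nrm v → c v = 0)
    (hdec : ∀ v, ¬ nrm v → ∀ u, (Finsupp.single v (1 : K) - c v) u ≠ 0 → nrm u ∨ d u < d v)
    (n : ℕ) : ∀ (p : V →₀ K), (∀ u, p u ≠ 0 → nrm u ∨ d u ≤ n) →
    ∀ u, (e3R c)^[n] p u ≠ 0 → nrm u := by
  induction n with
  | zero =>
    intro p hp u hu
    rcases hp u hu with h | h
    · exact h
    · exact hd0 u (Nat.le_zero.mp h)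
  | succ n ih =>
    intro p hp u hu
    rw [Function.iterate_succ_apply] at hu
    exact ih _ (e3R_filtr hcn hdec n p hp) u hu

theorem e3T_nrm (hd0 : ∀ v, d v = 0 → nrm v) (hcn : ∀ v, nrm v → c v = 0)
    (hdec : ∀ v, ¬ nrm v → ∀ u, (Finsupp.single v (1 : K) - c v) u ≠ 0 → nrm u ∨ d u < d v)
    (p : V →₀ K) : ∀ u, e3T c d p u ≠ 0 → nrm u := by
  classical
  intro u hu
  have h1 : e3T c d p u = p.sum (fun v x => x * ((e3R c)^[d v] (Finsupp.single v (1 : K))) u) := by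
    rw [e3T, Finsupp.linearCombination_apply, Finsupp.sum, Finsupp.finsetSum_apply]
    rfl
  rw [h1, Finsupp.sum] at hu
  obtain ⟨v, hv, hvu⟩ := Finset.exists_ne_zero_of_sum_ne_zero hu
  refine e3R_filtr' hd0 hcn hdec (d v) (Finsupp.single v 1) ?_ u (right_ne_zero_of_mul hvu)
  intro w hw
  by_cases hvw : v = w
  · exact Or.inr (by rw [hvw])
  · exact absurd (Finsupp.single_eq_of_ne (fun h => hvw h.symm)) hw

theorem e3R_closed {S : Set V} {L : Subfield K} {U : Submodule K (V →₀ K)}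
    (hS : ∀ v ∈ S, ∀ u ∉ S, c v u = 0) (hL : ∀ v ∈ S, ∀ u, c v u ∈ L) (hU : ∀ v ∈ S, c v ∈ U)
    (p : V →₀ K) (hp : ∀ u ∉ S, p u = 0) (hpL : ∀ u, p u ∈ L) :
    (∀ u ∉ S, e3R c p u = 0) ∧ (∀ u, e3R c p u ∈ L) ∧ e3R c p - p ∈ U := by
  classical
  have hsupp : ∀ v ∈ p.support, v ∈ S := by
    intro v hv
    by_contra h
    exact Finsupp.mem_support_iff.mp hv (hp v h)
  have h1 : ∀ u, e3R c p u = p u - ∑ v ∈ p.support, p v * c v u := by
    intro u
    rw [e3R_apply, Finsupp.sub_apply, Finsupp.sum, Finsupp.finsetSum_apply]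
    rfl
  refine ⟨?_, ?_, ?_⟩
  · intro u hu
    rw [h1, hp u hu, Finset.sum_eq_zero (fun v hv => by rw [hS v (hsupp v hv) u hu, mul_zero]),
      sub_zero]
  · intro u
    rw [h1]
    exact sub_mem (hpL u) (sum_mem fun v hv => mul_mem (hpL v) (hL v (hsupp v hv) u))
  · rw [e3R_apply, sub_sub_cancel_left]
    exact neg_mem (sum_mem fun v hv => U.smul_mem _ (hU v (hsupp v hv)))

theorem e3R_closed' {S : Set V} {L : Subfield K} {U : Submodule K (V →₀ K)}
    (hS : ∀ v ∈ S, ∀ u ∉ S, c v u = 0) (hL : ∀ v ∈ S, ∀ u, c v u ∈ L) (hU : ∀ v ∈ S, c v ∈ U)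
    (p : V →₀ K) (hp : ∀ u ∉ S, p u = 0) (hpL : ∀ u, p u ∈ L) (n : ℕ) :
    (∀ u ∉ S, (e3R c)^[n] p u = 0) ∧ (∀ u, (e3R c)^[n] p u ∈ L) ∧ (e3R c)^[n] p - p ∈ U := by
  induction n with
  | zero =>
    refine ⟨hp, hpL, ?_⟩
    simp
  | succ n ih =>
    obtain ⟨h1, h2, h3⟩ := ih
    rw [Function.iterate_succ_apply']
    obtain ⟨h4, h5, h6⟩ := e3R_closed hS hL hU _ h1 h2
    refine ⟨h4, h5, ?_⟩
    have h7 := add_mem h6 h3
    rwa [sub_add_sub_cancel] at h7

theorem e3T_closed {S : Set V} {L : Subfield K} {U : Submodule K (V →₀ K)}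
    (hS : ∀ v ∈ S, ∀ u ∉ S, c v u = 0) (hL : ∀ v ∈ S, ∀ u, c v u ∈ L) (hU : ∀ v ∈ S, c v ∈ U)
    (v : V) (hv : v ∈ S) :
    e3T c d (Finsupp.single v 1) - Finsupp.single v 1 ∈ U ∧
      ∀ u, e3T c d (Finsupp.single v 1) u ∈ L := by
  classical
  obtain ⟨h1, h2, h3⟩ := e3R_closed' hS hL hU (Finsupp.single v 1)
    (fun u hu => Finsupp.single_eq_of_ne (fun h => hu (h ▸ hv)))
    (fun u => by
      rw [Finsupp.single_apply]
      split_ifs
      · exact one_mem _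
      · exact zero_mem _) (d v)
  rw [e3T_single, one_smul]
  exact ⟨h3, h2⟩

theorem e3T_equiv {σ : V → V} {ψ : (V →₀ K) →+ (V →₀ K)} {θ : K → K}
    (hψ : ∀ (x : K) p, ψ (x • p) = θ x • ψ p)
    (hψ1 : ∀ v (x : K), ψ (Finsupp.single v x) = Finsupp.single (σ v) (θ x))
    (hθ : θ 1 = 1)
    (hψc : ∀ v, ψ (c v) = c (σ v)) (hd : ∀ v, d (σ v) = d v) (p : V →₀ K) :
    e3T c d (ψ p) = ψ (e3T c d p) := by
  have hR : ∀ p, e3R c (ψ p) = ψ (e3R c p) := by
    intro p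
    induction p using Finsupp.induction_linear with
    | zero => simp
    | add p q hp hq => rw [map_add, map_add, hp, hq, map_add, map_add]
    | single v x =>
      rw [hψ1, e3R_single, e3R_single, hψ, map_sub, hψ1, hψc, hθ]
  have hRn : ∀ (n : ℕ) p, (e3R c)^[n] (ψ p) = ψ ((e3R c)^[n] p) := by
    intro n
    induction n with
    | zero => intro p; rfl
    | succ n ih =>
      intro p
      rw [Function.iterate_succ_apply, hR, ih, Function.iterate_succ_apply]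
  induction p using Finsupp.induction_linear with
  | zero => simp
  | add p q hp hq => rw [map_add, map_add, hp, hq, map_add, map_add]
  | single v x =>
    rw [hψ1, e3T_single, e3T_single, hψ, hd, ← hRn, hψ1, hθ]

end Rewriting

/-- the normal form map `T` -/
theorem exists_normal_form (Z : Sys k ((Fin m → ℤ) × ℤ) I) {N Nm : Set ((Fin m → ℤ) × ℤ)} {c : ℕ}
    (hD : DirData Z N Nm c) (Ip Im : Set I) (wp wm : I → (((Fin m → ℤ) × ℤ) × I →₀ Z.K))
    (hwp : ∀ i ∉ Ip, wp i ∈ Z.RV (N ∪ {0}) ∧ wp i (0, i) = 1 ∧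
        (∀ j ∉ Ip, j ≠ i → wp i (0, j) = 0) ∧ ∀ v, wp i v ∈ fld k (res Z.z (N ∪ {0})))
    (hwm : ∀ i ∉ Im, wm i ∈ Z.RV (Nm ∪ {0}) ∧ wm i (0, i) = 1 ∧
        (∀ j ∉ Im, j ≠ i → wm i (0, j) = 0) ∧ ∀ v, wm i v ∈ fld k (res Z.z (Nm ∪ {0})))
    (a b : ℤ) (hab : a + c ≤ b) :
    ∃ T : (((Fin m → ℤ) × ℤ) × I →₀ Z.K) →ₗ[Z.K] (((Fin m → ℤ) × ℤ) × I →₀ Z.K),
      (∀ (γ : Fin m → ℤ) p, T (Z.shift (γ, 0) p) = Z.shift (γ, 0) (T p)) ∧
      (∀ v, v.1 ∈ lev a b ∨ (b < v.1.2 ∧ v.2 ∈ Ip) ∨ (v.1.2 < a ∧ v.2 ∈ Im) →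
        T (Finsupp.single v 1) = Finsupp.single v 1) ∧
      (∀ p v, T p v ≠ 0 → v.1 ∈ lev a b ∨ (b < v.1.2 ∧ v.2 ∈ Ip) ∨ (v.1.2 < a ∧ v.2 ∈ Im)) ∧
      (∀ a' b' : ℤ, a' ≤ a → b ≤ b' → ∀ v : ((Fin m → ℤ) × ℤ) × I, v.1 ∈ lev a' b' →
        T (Finsupp.single v 1) - Finsupp.single v 1 ∈ Z.RV (lev a' b') ∧
        ∀ u, T (Finsupp.single v 1) u ∈ fld k (res Z.z (lev a' b'))) := by
  classical
  -- the correction vectors
  let cor : ((Fin m → ℤ) × ℤ) × I → (((Fin m → ℤ) × ℤ) × I →₀ Z.K) := fun v =>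
    if b < v.1.2 ∧ v.2 ∉ Ip then Z.shift v.1 (wp v.2)
    else if v.1.2 < a ∧ v.2 ∉ Im then Z.shift v.1 (wm v.2) else 0
  let d : ((Fin m → ℤ) × ℤ) × I → ℕ := fun v => (v.1.2 - b).toNat + (a - v.1.2).toNat
  let nrm : ((Fin m → ℤ) × ℤ) × I → Prop := fun v =>
    v.1 ∈ lev a b ∨ (b < v.1.2 ∧ v.2 ∈ Ip) ∨ (v.1.2 < a ∧ v.2 ∈ Im)
  have hcp : ∀ v : ((Fin m → ℤ) × ℤ) × I, b < v.1.2 → v.2 ∉ Ip →
      cor v = Z.shift v.1 (wp v.2) := fun v h1 h2 => if_pos ⟨h1, h2⟩
  have hcm : ∀ v : ((Fin m → ℤ) × ℤ) × I, v.1.2 < a → v.2 ∉ Im →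
      cor v = Z.shift v.1 (wm v.2) := by
    intro v h1 h2
    show (if b < v.1.2 ∧ v.2 ∉ Ip then Z.shift v.1 (wp v.2)
      else if v.1.2 < a ∧ v.2 ∉ Im then Z.shift v.1 (wm v.2) else 0) = _
    rw [if_neg (fun h => by have := h.1; omega), if_pos ⟨h1, h2⟩]
  have hnn : ∀ v, ¬ nrm v → (b < v.1.2 ∧ v.2 ∉ Ip) ∨ (v.1.2 < a ∧ v.2 ∉ Im) := by
    intro v hv
    by_cases h1 : b < v.1.2
    · exact Or.inl ⟨h1, fun h => hv (Or.inr (Or.inl ⟨h1, h⟩))⟩
    · by_cases h2 : v.1.2 < a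
      · exact Or.inr ⟨h2, fun h => hv (Or.inr (Or.inr ⟨h2, h⟩))⟩
      · exact absurd (Or.inl ⟨not_lt.mp h2, not_lt.mp h1⟩) hv
  have hcn : ∀ v, nrm v → cor v = 0 := by
    intro v hv
    show (if b < v.1.2 ∧ v.2 ∉ Ip then Z.shift v.1 (wp v.2)
      else if v.1.2 < a ∧ v.2 ∉ Im then Z.shift v.1 (wm v.2) else 0) = 0
    rcases hv with ⟨h1, h2⟩ | ⟨h1, h2⟩ | ⟨h1, h2⟩
    · rw [if_neg (fun h => by have := h.1; omega), if_neg (fun h => by have := h.1; omega)]
    · rw [if_neg (fun h => h.2 h2), if_neg (fun h => by have := h.1; omega)]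
    · rw [if_neg (fun h => by have := h.1; omega), if_neg (fun h => h.2 h2)]
  have hd0 : ∀ v, d v = 0 → nrm v := by
    intro v hv
    have h1 : (v.1.2 - b).toNat + (a - v.1.2).toNat = 0 := hv
    exact Or.inl ⟨by omega, by omega⟩
  -- levels of a translate
  have htrp : ∀ (s : (Fin m → ℤ) × ℤ) (a' b' : ℤ), a' ≤ a → b < s.2 → s.2 ≤ b' →
      tr s (N ∪ {0}) ⊆ lev a' b' := by
    intro s a' b' h1 h2 h3 u hu
    have hu' : u - s ∈ N ∪ {0} := hu
    rcases hu' with h | h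
    · have := hD.levN _ h
      rw [Prod.snd_sub] at this
      constructor <;> omega
    · have h' : u - s = 0 := h
      rw [sub_eq_zero] at h'
      rw [h']
      constructor <;> omega
  have htrm : ∀ (s : (Fin m → ℤ) × ℤ) (a' b' : ℤ), b ≤ b' → s.2 < a → a' ≤ s.2 →
      tr s (Nm ∪ {0}) ⊆ lev a' b' := by
    intro s a' b' h1 h2 h3 u hu
    have hu' : u - s ∈ Nm ∪ {0} := hu
    rcases hu' with h | h
    · have := hD.levNm _ h
      rw [Prod.snd_sub] at this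
      constructor <;> omega
    · have h' : u - s = 0 := h
      rw [sub_eq_zero] at h'
      rw [h']
      constructor <;> omega
  -- membership in the windows
  have hwin : ∀ a' b' : ℤ, a' ≤ a → b ≤ b' → ∀ v : ((Fin m → ℤ) × ℤ) × I, v.1 ∈ lev a' b' →
      cor v ∈ Z.RV (lev a' b') ∧ ∀ u, cor v u ∈ fld k (res Z.z (lev a' b')) := by
    intro a' b' ha' hb' v hv
    by_cases hn : nrm v
    · rw [hcn v hn]
      exact ⟨zero_mem _, fun u => zero_mem _⟩
    rcases hnn v hn with ⟨h1, h2⟩ | ⟨h1, h2⟩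
    · rw [hcp v h1 h2]
      have hsub := htrp v.1 a' b' ha' h1 hv.2
      refine ⟨RV_mono Z hsub (shift_RV Z v.1 (hwp v.2 h2).1), fun u => ?_⟩
      rw [e3_shift_apply]
      exact e3_fld_mono Z.z hsub (e3_fld_tr Z v.1 ((hwp v.2 h2).2.2.2 _))
    · rw [hcm v h1 h2]
      have hsub := htrm v.1 a' b' hb' h1 hv.1
      refine ⟨RV_mono Z hsub (shift_RV Z v.1 (hwm v.2 h2).1), fun u => ?_⟩
      rw [e3_shift_apply]
      exact e3_fld_mono Z.z hsub (e3_fld_tr Z v.1 ((hwm v.2 h2).2.2.2 _))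
  have hdec : ∀ v, ¬ nrm v → ∀ u, (Finsupp.single v (1 : Z.K) - cor v) u ≠ 0 →
      nrm u ∨ d u < d v := by
    intro v hn u hu
    rcases hnn v hn with ⟨h1, h2⟩ | ⟨h1, h2⟩
    · rw [hcp v h1 h2, Finsupp.sub_apply, e3_shift_apply] at hu
      by_cases hsite : u.1 = v.1
      · -- same site
        have e : (u.1 - v.1, u.2) = ((0 : (Fin m → ℤ) × ℤ), u.2) := by rw [hsite, sub_self]
        rw [e] at hu
        by_cases hj : u.2 ∈ Ip
        · left
          right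
          left
          rw [hsite]
          exact ⟨h1, hj⟩
        · exfalso
          apply hu
          by_cases hij : u.2 = v.2
          · have huv : u = v := Prod.ext hsite hij
            rw [huv, Finsupp.single_eq_same, (hwp v.2 h2).2.1, map_one, sub_self]
          · rw [(hwp v.2 h2).2.2.1 u.2 hj hij, map_zero, sub_zero]
            exact Finsupp.single_eq_of_ne (fun h => hij (congrArg Prod.snd h))
      · rw [Finsupp.single_eq_of_ne (fun h => hsite (congrArg Prod.fst h)), zero_sub,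
          neg_ne_zero, map_ne_zero] at hu
        have hN : u.1 - v.1 ∈ N ∪ {0} := by
          by_contra h
          exact hu (supp_of_mem_RV Z (hwp v.2 h2).1 (u.1 - v.1, u.2) h)
        rcases hN with h | h
        · have h3 := hD.levN _ h
          rw [Prod.snd_sub] at h3
          by_cases h4 : u.1.2 ≤ b
          · left
            left
            exact ⟨by omega, h4⟩
          · right
            show (u.1.2 - b).toNat + (a - u.1.2).toNat < (v.1.2 - b).toNat + (a - v.1.2).toNat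
            omega
        · exact absurd (sub_eq_zero.mp h) hsite
    · rw [hcm v h1 h2, Finsupp.sub_apply, e3_shift_apply] at hu
      by_cases hsite : u.1 = v.1
      · have e : (u.1 - v.1, u.2) = ((0 : (Fin m → ℤ) × ℤ), u.2) := by rw [hsite, sub_self]
        rw [e] at hu
        by_cases hj : u.2 ∈ Im
        · left
          right
          right
          rw [hsite]
          exact ⟨h1, hj⟩
        · exfalso
          apply hu
          by_cases hij : u.2 = v.2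
          · have huv : u = v := Prod.ext hsite hij
            rw [huv, Finsupp.single_eq_same, (hwm v.2 h2).2.1, map_one, sub_self]
          · rw [(hwm v.2 h2).2.2.1 u.2 hj hij, map_zero, sub_zero]
            exact Finsupp.single_eq_of_ne (fun h => hij (congrArg Prod.snd h))
      · rw [Finsupp.single_eq_of_ne (fun h => hsite (congrArg Prod.fst h)), zero_sub,
          neg_ne_zero, map_ne_zero] at hu
        have hN : u.1 - v.1 ∈ Nm ∪ {0} := by
          by_contra h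
          exact hu (supp_of_mem_RV Z (hwm v.2 h2).1 (u.1 - v.1, u.2) h)
        rcases hN with h | h
        · have h3 := hD.levNm _ h
          rw [Prod.snd_sub] at h3
          by_cases h4 : a ≤ u.1.2
          · left
            left
            exact ⟨h4, by omega⟩
          · right
            show (u.1.2 - b).toNat + (a - u.1.2).toNat < (v.1.2 - b).toNat + (a - v.1.2).toNat
            omega
        · exact absurd (sub_eq_zero.mp h) hsite
  refine ⟨e3T cor d, ?_, ?_, ?_, ?_⟩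
  · intro γ p
    refine e3T_equiv (σ := fun v => ((γ, 0) + v.1, v.2)) (ψ := Z.shift (γ, 0))
      (θ := fun x => Z.α (Multiplicative.ofAdd (γ, 0)) x) (fun x p => e1_shift_smul Z _ x p)
      (fun v x => e1_shift_single Z _ v x) (map_one _) ?_ ?_ p
    · intro v
      have hlev : ((γ, (0 : ℤ)) + v.1).2 = v.1.2 := by simp
      have hsh : ∀ q, Z.shift (γ, 0) (Z.shift v.1 q) = Z.shift ((γ, 0) + v.1) q := by
        intro q
        ext u
        rw [e3_shift_apply, e3_shift_apply, e3_shift_apply, ofAdd_add, map_mul, AlgEquiv.mul_apply,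
          sub_sub]
      show Z.shift (γ, 0) (if b < v.1.2 ∧ v.2 ∉ Ip then Z.shift v.1 (wp v.2)
          else if v.1.2 < a ∧ v.2 ∉ Im then Z.shift v.1 (wm v.2) else 0) =
        (if b < ((γ, (0 : ℤ)) + v.1).2 ∧ v.2 ∉ Ip then Z.shift ((γ, 0) + v.1) (wp v.2)
          else if ((γ, (0 : ℤ)) + v.1).2 < a ∧ v.2 ∉ Im then Z.shift ((γ, 0) + v.1) (wm v.2)
          else 0)
      rw [hlev]
      split_ifs
      · exact hsh _
      · exact hsh _
      · exact map_zero _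
    · intro v
      have hlev : ((γ, (0 : ℤ)) + v.1).2 = v.1.2 := by simp
      show (((γ, (0 : ℤ)) + v.1).2 - b).toNat + (a - ((γ, (0 : ℤ)) + v.1).2).toNat = _
      rw [hlev]
  · intro v hv
    rw [e3T_single, one_smul]
    exact e3R_nrm hcn hv _
  · intro p v hv
    exact e3T_nrm hd0 hcn hdec p v hv
  · intro a' b' ha' hb' v hv
    exact e3T_closed (S := {v : ((Fin m → ℤ) × ℤ) × I | v.1 ∈ lev a' b'})
      (L := (fld k (res Z.z (lev a' b'))).toSubfield) (U := Z.RV (lev a' b'))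
      (fun v hv u hu => supp_of_mem_RV Z (hwin a' b' ha' hb' v hv).1 u hu)
      (fun v hv u => (hwin a' b' ha' hb' v hv).2 u)
      (fun v hv => (hwin a' b' ha' hb' v hv).1) v hv

end Pool.Agent.ORG
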