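import Pool.Agent.ORG.Defs
import Pool.Agent.ORG.F1
import Pool.Agent.ORG.F2
import Pool.Agent.ORG.S1
import Pool.Agent.ORG.S2
import Pool.Agent.ORG.E1
import Pool.Agent.ORG.E2
import Pool.Agent.ORG.E3

/-!
# MP_08a057_al, ORG module E4 : (6.1) slabs satisfy (PROJ)
(paper: /team-store/ORG_paper.md)
-/

set_option autoImplicit false

namespace Pool.Agent.ORG

open MvPolynomial

/-! ### shifts and fields -/

section E4Gen

variable {k Γ I : Type} [Field k] [AddCommGroup Γ]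

theorem e4_shift_apply (Z : Sys k Γ I) (γ : Γ) (p : Γ × I →₀ Z.K) (v : Γ × I) :
    Z.shift γ p v = Z.α (Multiplicative.ofAdd γ) (p (v.1 - γ, v.2)) := by
  classical
  induction p using Finsupp.induction_linear with
  | zero => simp
  | add p q hp hq => rw [map_add, Finsupp.add_apply, hp, hq, Finsupp.add_apply, map_add]
  | single w a =>
    rw [e1_shift_single, Finsupp.single_apply, Finsupp.single_apply]
    by_cases h : w = (v.1 - γ, v.2)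
    · subst h
      simp
    · have h' : ¬ (γ + w.1, w.2) = v := by
        rintro rfl
        apply h
        simp
      rw [if_neg h, if_neg h', map_zero]

theorem e4_shift_zero (Z : Sys k Γ I) (p : Γ × I →₀ Z.K) : Z.shift 0 p = p := by
  ext v
  rw [e4_shift_apply, ofAdd_zero, map_one, sub_zero]
  rfl

theorem e4_shift_add (Z : Sys k Γ I) (γ δ : Γ) (p : Γ × I →₀ Z.K) :
    Z.shift (γ + δ) p = Z.shift γ (Z.shift δ p) := by
  ext v
  rw [e4_shift_apply, e4_shift_apply, e4_shift_apply, ofAdd_add, map_mul, sub_sub]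
  rfl

theorem e4_shift_neg (Z : Sys k Γ I) (γ : Γ) (p : Γ × I →₀ Z.K) :
    Z.shift (-γ) (Z.shift γ p) = p := by
  rw [← e4_shift_add, neg_add_cancel, e4_shift_zero]

theorem e4_fld_mono (Z : Sys k Γ I) {A B : Set Γ} (h : A ⊆ B) :
    fld k (res Z.z A) ≤ fld k (res Z.z B) := by
  refine IntermediateField.adjoin.mono _ _ _ ?_
  rintro _ ⟨v, rfl⟩
  exact ⟨⟨v.1, h v.2⟩, rfl⟩

theorem e4_fld_le (Z : Sys k Γ I) (A : Set Γ) : fld k (res Z.z A) ≤ fld k Z.z := by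
  refine IntermediateField.adjoin.mono _ _ _ ?_
  rintro _ ⟨v, rfl⟩
  exact ⟨v.1, rfl⟩

theorem e4_alpha_fld (Z : Sys k Γ I) (γ : Γ) (A : Set Γ) {x : Z.K}
    (hx : x ∈ fld k (res Z.z A)) :
    Z.α (Multiplicative.ofAdd γ) x ∈ fld k (res Z.z (tr γ A)) := by
  have h1 : (Z.α (Multiplicative.ofAdd γ)) x ∈
      (fld k (res Z.z A)).map ((Z.α (Multiplicative.ofAdd γ) : Z.K ≃ₐ[k] Z.K) : Z.K →ₐ[k] Z.K) :=
    ⟨x, hx, rfl⟩
  rw [IntermediateField.adjoin_map, ← Set.range_comp] at h1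
  have h2 : Set.range ((((Z.α (Multiplicative.ofAdd γ) : Z.K ≃ₐ[k] Z.K) : Z.K →ₐ[k] Z.K)) ∘
      res Z.z A) = Set.range (res Z.z (tr γ A)) := s2_range_tr Z γ A
  rw [h2] at h1
  exact h1

theorem e4_alpha_fld_univ (Z : Sys k Γ I) (γ : Γ) {x : Z.K} (hx : x ∈ fld k Z.z) :
    Z.α (Multiplicative.ofAdd γ) x ∈ fld k Z.z := by
  have h1 : (Z.α (Multiplicative.ofAdd γ)) x ∈
      (fld k Z.z).map ((Z.α (Multiplicative.ofAdd γ) : Z.K ≃ₐ[k] Z.K) : Z.K →ₐ[k] Z.K) :=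
    ⟨x, hx, rfl⟩
  rw [IntermediateField.adjoin_map, ← Set.range_comp] at h1
  refine IntermediateField.adjoin.mono _ _ _ ?_ h1
  rintro _ ⟨v, rfl⟩
  exact ⟨(γ + v.1, v.2), (Z_z_shift Z γ v).symm⟩

/-- conjugation of a linear map by a shift -/
noncomputable def e4cj (Z : Sys k Γ I) (γ : Γ)
    (S : (Γ × I →₀ Z.K) →ₗ[Z.K] (Γ × I →₀ Z.K)) :
    (Γ × I →₀ Z.K) →ₗ[Z.K] (Γ × I →₀ Z.K) where
  toFun p := Z.shift (-γ) (S (Z.shift γ p))
  map_add' p q := by rw [map_add, map_add, map_add]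
  map_smul' c p := by
    rw [e1_shift_smul, map_smul, e1_shift_smul, RingHom.id_apply]
    congr 1
    rw [ofAdd_neg, map_inv]
    exact (Z.α (Multiplicative.ofAdd γ)).symm_apply_apply c

theorem e4cj_apply (Z : Sys k Γ I) (γ : Γ) (S : (Γ × I →₀ Z.K) →ₗ[Z.K] (Γ × I →₀ Z.K))
    (p : Γ × I →₀ Z.K) : e4cj Z γ S p = Z.shift (-γ) (S (Z.shift γ p)) := rfl

theorem e4_lin (Z : Sys k Γ I) (S : (Γ × I →₀ Z.K) →ₗ[Z.K] (Γ × I →₀ Z.K)) (p : Γ × I →₀ Z.K) :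
    S p = p.sum (fun v c => c • S (Finsupp.single v 1)) := by
  conv_lhs => rw [← Finsupp.sum_single p]
  rw [map_finsuppSum]
  refine Finsupp.sum_congr fun v _ => ?_
  rw [← map_smul, Finsupp.smul_single, smul_eq_mul, mul_one]

/-- coefficients of the image of a vector under a linear map -/
theorem e4_coeff (Z : Sys k Γ I) (L : IntermediateField k Z.K)
    (S : (Γ × I →₀ Z.K) →ₗ[Z.K] (Γ × I →₀ Z.K)) (p : Γ × I →₀ Z.K)
    (hp : ∀ v, p v ∈ L) (hS : ∀ v, p v ≠ 0 → ∀ u, S (Finsupp.single v 1) u ∈ L) (u : Γ × I) :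
    S p u ∈ L := by
  rw [e4_lin, Finsupp.sum, Finsupp.finsetSum_apply]
  refine sum_mem fun v hv => ?_
  rw [Finsupp.smul_apply, smul_eq_mul]
  exact mul_mem (hp v) (hS v (Finsupp.mem_support_iff.1 hv) u)

/-- if a linear map moves the basis vectors in the support of `p` by elements of a submodule,
then it moves `p` by an element of the submodule -/
theorem e4_move (Z : Sys k Γ I) (U : Submodule Z.K (Γ × I →₀ Z.K))
    (S : (Γ × I →₀ Z.K) →ₗ[Z.K] (Γ × I →₀ Z.K)) (p : Γ × I →₀ Z.K)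
    (hS : ∀ v, p v ≠ 0 → S (Finsupp.single v 1) - Finsupp.single v 1 ∈ U) :
    S p - p ∈ U := by
  have h1 : S p - p = (S - (LinearMap.id : (Γ × I →₀ Z.K) →ₗ[Z.K] (Γ × I →₀ Z.K))) p := rfl
  rw [h1, e4_lin, Finsupp.sum]
  refine Submodule.sum_mem _ fun v hv => ?_
  exact Submodule.smul_mem _ _ (hS v (Finsupp.mem_support_iff.1 hv))

/-- a linear map which fixes the basis vectors in the support of `p` fixes `p` -/
theorem e4_fix (Z : Sys k Γ I)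
    (S : (Γ × I →₀ Z.K) →ₗ[Z.K] (Γ × I →₀ Z.K)) (p : Γ × I →₀ Z.K)
    (hS : ∀ v, p v ≠ 0 → S (Finsupp.single v 1) = Finsupp.single v 1) :
    S p = p := by
  have h := e4_move Z ⊥ S p (fun v hv => by rw [hS v hv, sub_self]; exact zero_mem _)
  rw [Submodule.mem_bot, sub_eq_zero] at h
  exact h

end E4Gen

/-! ### the slab system -/

section E4Slab

variable {k Γ₀ I : Type} [Field k] [AddCommGroup Γ₀]

/-- sites and letters of the slab -/
def e4em (Γ₀ I : Type) (C : ℕ) (v : Γ₀ × (Fin (C + 1) × I)) : (Γ₀ × ℤ) × I :=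
  ((v.1, (v.2.1.val : ℤ)), v.2.2)

theorem e4em_inj (Γ₀ I : Type) (C : ℕ) : Function.Injective (e4em Γ₀ I C) := by
  rintro ⟨u, t, i⟩ ⟨u', t', i'⟩ h
  simp only [e4em, Prod.mk.injEq, Nat.cast_inj] at h
  obtain ⟨⟨rfl, h2⟩, rfl⟩ := h
  rw [Fin.ext h2]

omit [AddCommGroup Γ₀] in
theorem e4em_lev (C : ℕ) (w : Γ₀ × (Fin (C + 1) × I)) :
    (e4em Γ₀ I C w).1 ∈ (lev 0 (C : ℤ) : Set (Γ₀ × ℤ)) := by
  refine ⟨Int.natCast_nonneg _, ?_⟩
  show ((w.2.1.val : ℕ) : ℤ) ≤ C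
  have := w.2.1.isLt
  omega

omit [AddCommGroup Γ₀] in
theorem e4em_surj {C : ℕ} {v : (Γ₀ × ℤ) × I} (hv : v.1 ∈ (lev 0 (C : ℤ) : Set (Γ₀ × ℤ))) :
    ∃ w, e4em Γ₀ I C w = v := by
  obtain ⟨⟨u, t⟩, i⟩ := v
  obtain ⟨h1, h2⟩ := hv
  have h1' : 0 ≤ t := h1
  have h2' : t ≤ C := h2
  refine ⟨(u, (⟨t.toNat, by omega⟩, i)), ?_⟩
  show ((u, ((t.toNat : ℕ) : ℤ)), i) = ((u, t), i)
  rw [Int.toNat_of_nonneg h1']

theorem e4_slab_z (Z : Sys k (Γ₀ × ℤ) I) (C : ℕ) : (Z.slab C).z = Z.z ∘ e4em Γ₀ I C := by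
  funext v
  show Z.α (Multiplicative.ofAdd ((v.1, 0) : Γ₀ × ℤ)) (Z.z ((0, (v.2.1.val : ℤ)), v.2.2)) = _
  rw [Z_z_shift]
  show Z.z ((v.1, 0) + (0, ((v.2.1.val : ℕ) : ℤ)), v.2.2) = Z.z ((v.1, ((v.2.1.val : ℕ) : ℤ)), v.2.2)
  rw [Prod.mk_add_mk, add_zero, zero_add]

theorem e4_fld_slab (Z : Sys k (Γ₀ × ℤ) I) (C : ℕ) {x : Z.K}
    (hx : x ∈ fld k (res Z.z (lev 0 (C : ℤ) : Set (Γ₀ × ℤ)))) :
    x ∈ fld k (Z.slab C).z := by
  have h2 : fld k (Z.slab C).z = fld k (Z.z ∘ e4em Γ₀ I C) :=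
    congrArg (fun y : Γ₀ × (Fin (C + 1) × I) → Z.K => IntermediateField.adjoin k (Set.range y))
      (e4_slab_z Z C)
  have h3 : x ∈ fld k (Z.z ∘ e4em Γ₀ I C) := by
    refine IntermediateField.adjoin.mono _ _ _ ?_ hx
    rintro _ ⟨v, rfl⟩
    obtain ⟨w, hw⟩ := e4em_surj v.2
    exact ⟨w, by show Z.z (e4em Γ₀ I C w) = Z.z v.1; rw [hw]⟩
  exact h2.ge h3

/-- from the slab to the full system -/
noncomputable def e4io (Z : Sys k (Γ₀ × ℤ) I) (C : ℕ) :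
    (Γ₀ × (Fin (C + 1) × I) →₀ Z.K) →ₗ[Z.K] ((Γ₀ × ℤ) × I →₀ Z.K) :=
  Finsupp.lmapDomain Z.K Z.K (e4em Γ₀ I C)

/-- from the full system to the slab -/
noncomputable def e4ro (Z : Sys k (Γ₀ × ℤ) I) (C : ℕ) :
    ((Γ₀ × ℤ) × I →₀ Z.K) →ₗ[Z.K] (Γ₀ × (Fin (C + 1) × I) →₀ Z.K) :=
  Finsupp.lcomapDomain (e4em Γ₀ I C) (e4em_inj Γ₀ I C)

theorem e4ro_apply (Z : Sys k (Γ₀ × ℤ) I) (C : ℕ) (p : (Γ₀ × ℤ) × I →₀ Z.K)
    (v : Γ₀ × (Fin (C + 1) × I)) : e4ro Z C p v = p (e4em Γ₀ I C v) := rfl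

theorem e4io_single (Z : Sys k (Γ₀ × ℤ) I) (C : ℕ) (v : Γ₀ × (Fin (C + 1) × I)) (c : Z.K) :
    e4io Z C (Finsupp.single v c) = Finsupp.single (e4em Γ₀ I C v) c :=
  Finsupp.mapDomain_single

theorem e4ro_io (Z : Sys k (Γ₀ × ℤ) I) (C : ℕ) (p : Γ₀ × (Fin (C + 1) × I) →₀ Z.K) :
    e4ro Z C (e4io Z C p) = p := by
  ext v
  rw [e4ro_apply]
  exact Finsupp.mapDomain_apply (e4em_inj Γ₀ I C) p v

theorem e4io_supp (Z : Sys k (Γ₀ × ℤ) I) (C : ℕ) (p : Γ₀ × (Fin (C + 1) × I) →₀ Z.K)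
    (v : (Γ₀ × ℤ) × I) (hv : e4io Z C p v ≠ 0) : v.1 ∈ (lev 0 (C : ℤ) : Set (Γ₀ × ℤ)) := by
  by_contra h
  apply hv
  refine Finsupp.mapDomain_of_notMem_range _ _ ?_
  rintro ⟨w, rfl⟩
  exact h (e4em_lev C w)

theorem e4io_RV (Z : Sys k (Γ₀ × ℤ) I) (C : ℕ) (p : Γ₀ × (Fin (C + 1) × I) →₀ Z.K)
    (hp : p ∈ (Z.slab C).RV Set.univ) : e4io Z C p ∈ Z.RV (lev 0 (C : ℤ)) := by
  classical
  unfold Sys.RV at hp
  induction hp using Submodule.span_induction with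
  | mem p hp =>
    obtain ⟨P, -, h0, rfl⟩ := hp
    refine Submodule.subset_span ⟨rename (e4em Γ₀ I C) P, ?_, ?_, ?_⟩
    · intro v hv
      have h := MvPolynomial.vars_rename (e4em Γ₀ I C) P hv
      rw [Finset.mem_image] at h
      obtain ⟨w, -, rfl⟩ := h
      exact e4em_lev C w
    · rw [aeval_rename, ← e4_slab_z]
      exact h0
    · rw [dvec_rename, ← e4_slab_z]
      rfl
  | zero => exact (e4io Z C).map_zero ▸ zero_mem _
  | add p q _ _ hp hq => exact (e4io Z C).map_add p q ▸ add_mem hp hq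
  | smul c p _ hp => exact (e4io Z C).map_smul c p ▸ Submodule.smul_mem _ _ hp

theorem e4ro_RV (Z : Sys k (Γ₀ × ℤ) I) (C : ℕ) (p : (Γ₀ × ℤ) × I →₀ Z.K)
    (hp : p ∈ Z.RV (lev 0 (C : ℤ))) : (e4ro Z C p : Γ₀ × (Fin (C + 1) × I) →₀ Z.K) ∈
      (Z.slab C).RV Set.univ := by
  classical
  unfold Sys.RV at hp
  induction hp using Submodule.span_induction with
  | mem p hp =>
    obtain ⟨P, hP, h0, rfl⟩ := hp
    obtain ⟨Q, rfl⟩ := MvPolynomial.exists_rename_eq_of_vars_subset_range P (e4em Γ₀ I C)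
      (e4em_inj Γ₀ I C) (fun v hv => e4em_surj (hP v hv))
    refine Submodule.subset_span ⟨Q, fun _ _ => trivial, ?_, ?_⟩
    · rw [aeval_rename, ← e4_slab_z] at h0
      exact h0
    · rw [dvec_rename, ← e4_slab_z]
      exact e4ro_io Z C _
  | zero => exact (e4ro Z C).map_zero ▸ zero_mem _
  | add p q _ _ hp hq => exact (e4ro Z C).map_add p q ▸ add_mem hp hq
  | smul c p _ hp => exact (e4ro Z C).map_smul c p ▸ Submodule.smul_mem _ _ hp

theorem e4io_shift (Z : Sys k (Γ₀ × ℤ) I) (C : ℕ) (γ : Γ₀)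
    (p : Γ₀ × (Fin (C + 1) × I) →₀ Z.K) :
    e4io Z C ((Z.slab C).shift γ p) = Z.shift (γ, 0) (e4io Z C p) := by
  induction p using Finsupp.induction_linear with
  | zero =>
    refine (congrArg (e4io Z C) (map_zero ((Z.slab C).shift γ))).trans ?_
    show (e4io Z C) (0 : Γ₀ × (Fin (C + 1) × I) →₀ Z.K) = _
    rw [map_zero, map_zero]
  | add p q hp hq =>
    refine (congrArg (e4io Z C) (map_add ((Z.slab C).shift γ) p q)).trans ?_
    refine ((e4io Z C).map_add _ _).trans ?_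
    rw [map_add, map_add]
    exact congrArg₂ (· + ·) hp hq
  | single v c =>
    have h1 : (Z.slab C).shift γ (Finsupp.single v c) = Finsupp.single (γ + v.1, v.2)
      (Z.α (Multiplicative.ofAdd ((γ, 0) : Γ₀ × ℤ)) c) := e1_shift_single (Z.slab C) γ v c
    refine (congrArg (e4io Z C) h1).trans ?_
    refine (e4io_single Z C _ _).trans ?_
    rw [e4io_single, e1_shift_single]
    congr 1
    simp [e4em]

theorem e4ro_shift (Z : Sys k (Γ₀ × ℤ) I) (C : ℕ) (γ : Γ₀) (p : (Γ₀ × ℤ) × I →₀ Z.K) :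
    e4ro Z C (Z.shift (γ, 0) p) = (Z.slab C).shift γ (e4ro Z C p) := by
  refine Finsupp.ext fun v => ?_
  rw [e4ro_apply, e4_shift_apply]
  have h1 : (Z.slab C).shift γ (e4ro Z C p) v =
    Z.α (Multiplicative.ofAdd ((γ, 0) : Γ₀ × ℤ)) (e4ro Z C p (v.1 - γ, v.2)) :=
    e4_shift_apply (Z.slab C) γ (e4ro Z C p) v
  refine Eq.trans ?_ h1.symm
  rw [e4ro_apply]
  have h2 : ((e4em Γ₀ I C v).1 - (γ, 0), (e4em Γ₀ I C v).2) =
      e4em Γ₀ I C (v.1 - γ, v.2) := by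
    simp [e4em]
  rw [h2]

end E4Slab

/-! ### supports and fields of finitely many levels -/

section E4Lev

variable {k Γ₀ I : Type} [Field k] [AddCommGroup Γ₀]

theorem e4_supp_bound (Z : Sys k (Γ₀ × ℤ) I) (a b : ℤ) (p : (Γ₀ × ℤ) × I →₀ Z.K) :
    ∃ a₁ b₁ : ℤ, a₁ ≤ a ∧ b ≤ b₁ ∧ ∀ v, p v ≠ 0 → v.1 ∈ (lev a₁ b₁ : Set (Γ₀ × ℤ)) := by
  classical
  obtain ⟨l, hl⟩ := (p.support.image (fun v => v.1.2)).bddBelow
  obtain ⟨u, hu⟩ := (p.support.image (fun v => v.1.2)).bddAbove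
  refine ⟨min a l, max b u, min_le_left _ _, le_max_left _ _, fun v hv => ?_⟩
  have h : v.1.2 ∈ (p.support.image (fun v => v.1.2) : Finset ℤ) :=
    Finset.mem_image_of_mem _ (Finsupp.mem_support_iff.2 hv)
  exact ⟨(min_le_right _ _).trans (hl h), (hu h).trans (le_max_right _ _)⟩

omit [AddCommGroup Γ₀] in
theorem e4_lev_mono {a b a' b' : ℤ} (h1 : a' ≤ a) (h2 : b ≤ b') :
    (lev a b : Set (Γ₀ × ℤ)) ⊆ lev a' b' :=
  fun _ hv => ⟨h1.trans hv.1, hv.2.trans h2⟩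

theorem e4_exists_level (Z : Sys k (Γ₀ × ℤ) I) (a b : ℤ) {x : Z.K} (hx : x ∈ fld k Z.z) :
    ∃ n : ℕ, x ∈ fld k (res Z.z (lev (a - n) (b + n) : Set (Γ₀ × ℤ))) := by
  have hmono : ∀ n n' : ℕ, n ≤ n' → fld k (res Z.z (lev (a - n) (b + n) : Set (Γ₀ × ℤ))) ≤
      fld k (res Z.z (lev (a - n') (b + n') : Set (Γ₀ × ℤ))) := by
    intro n n' h
    exact e4_fld_mono Z (e4_lev_mono (by omega) (by omega))
  induction hx using IntermediateField.adjoin_induction with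
  | mem x hx =>
    obtain ⟨v, rfl⟩ := hx
    refine ⟨(a - v.1.2).toNat + (v.1.2 - b).toNat, ?_⟩
    refine IntermediateField.subset_adjoin _ _ ⟨⟨v, ?_⟩, rfl⟩
    show _ ≤ _ ∧ _ ≤ _
    constructor <;> omega
  | algebraMap x => exact ⟨0, IntermediateField.algebraMap_mem _ _⟩
  | add x y _ _ hx hy =>
    obtain ⟨n, hn⟩ := hx
    obtain ⟨n', hn'⟩ := hy
    exact ⟨max n n', add_mem (hmono _ _ (le_max_left _ _) hn) (hmono _ _ (le_max_right _ _) hn')⟩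
  | inv x _ hx =>
    obtain ⟨n, hn⟩ := hx
    exact ⟨n, inv_mem hn⟩
  | mul x y _ _ hx hy =>
    obtain ⟨n, hn⟩ := hx
    obtain ⟨n', hn'⟩ := hy
    exact ⟨max n n', mul_mem (hmono _ _ (le_max_left _ _) hn) (hmono _ _ (le_max_right _ _) hn')⟩

theorem e4_exists_level_fin (Z : Sys k (Γ₀ × ℤ) I) (a b : ℤ) {ι : Type} (s : Finset ι)
    (f : ι → Z.K) (hf : ∀ j ∈ s, f j ∈ fld k Z.z) :
    ∃ n : ℕ, ∀ j ∈ s, f j ∈ fld k (res Z.z (lev (a - n) (b + n) : Set (Γ₀ × ℤ))) := by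
  classical
  have hmono : ∀ n n' : ℕ, n ≤ n' → fld k (res Z.z (lev (a - n) (b + n) : Set (Γ₀ × ℤ))) ≤
      fld k (res Z.z (lev (a - n') (b + n') : Set (Γ₀ × ℤ))) := by
    intro n n' h
    exact e4_fld_mono Z (e4_lev_mono (by omega) (by omega))
  induction s using Finset.induction_on with
  | empty => exact ⟨0, fun j hj => absurd hj (Finset.notMem_empty j)⟩
  | insert j s hj ih =>
    obtain ⟨n, hn⟩ := ih (fun i hi => hf i (Finset.mem_insert_of_mem hi))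
    obtain ⟨n', hn'⟩ := e4_exists_level Z a b (hf j (Finset.mem_insert_self j s))
    refine ⟨max n n', fun i hi => ?_⟩
    rcases Finset.mem_insert.1 hi with rfl | hi
    · exact hmono _ _ (le_max_right _ _) hn'
    · exact hmono _ _ (le_max_left _ _) (hn i hi)

/-- restriction to the levels `[a,b]` -/
noncomputable def e4ka (Z : Sys k (Γ₀ × ℤ) I) (a b : ℤ) :
    ((Γ₀ × ℤ) × I →₀ Z.K) →ₗ[Z.K] ((Γ₀ × ℤ) × I →₀ Z.K) := by
  classical
  exact
  { toFun := Finsupp.filter (fun v => v.1 ∈ (lev a b : Set (Γ₀ × ℤ)))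
    map_add' := fun p q => Finsupp.filter_add
    map_smul' := fun c p => Finsupp.filter_smul }

theorem e4ka_mem (Z : Sys k (Γ₀ × ℤ) I) (a b : ℤ) (p : (Γ₀ × ℤ) × I →₀ Z.K)
    (v : (Γ₀ × ℤ) × I) (hv : v.1 ∈ (lev a b : Set (Γ₀ × ℤ))) : e4ka Z a b p v = p v := by
  classical exact Finsupp.filter_apply_pos _ _ hv

theorem e4ka_notMem (Z : Sys k (Γ₀ × ℤ) I) (a b : ℤ) (p : (Γ₀ × ℤ) × I →₀ Z.K)
    (v : (Γ₀ × ℤ) × I) (hv : v.1 ∉ (lev a b : Set (Γ₀ × ℤ))) : e4ka Z a b p v = 0 := by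
  classical exact Finsupp.filter_apply_neg _ _ hv

theorem e4ka_shift (Z : Sys k (Γ₀ × ℤ) I) (a b : ℤ) (γ : Γ₀) (p : (Γ₀ × ℤ) × I →₀ Z.K) :
    e4ka Z a b (Z.shift (γ, 0) p) = Z.shift (γ, 0) (e4ka Z a b p) := by
  ext v
  rw [e4_shift_apply]
  have h : ((v.1 - (γ, 0), v.2) : (Γ₀ × ℤ) × I).1 ∈ (lev a b : Set (Γ₀ × ℤ)) ↔
      v.1 ∈ (lev a b : Set (Γ₀ × ℤ)) := by
    show (a ≤ v.1.2 - 0 ∧ v.1.2 - 0 ≤ b) ↔ _
    rw [sub_zero]
    exact Iff.rfl
  by_cases hv : v.1 ∈ (lev a b : Set (Γ₀ × ℤ))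
  · rw [e4ka_mem _ _ _ _ _ hv, e4ka_mem _ _ _ _ _ (h.2 hv), e4_shift_apply]
  · rw [e4ka_notMem _ _ _ _ _ hv, e4ka_notMem _ _ _ _ _ (fun h' => hv (h.1 h')), map_zero]

end E4Lev

/-! ### the main statements -/

variable {k : Type} [Field k] [CharZero k] {I : Type} [Finite I] {m : ℕ}

/-- relation vectors, generic configuration of the slab system versus the system -/
theorem slab_z (Z : Sys k ((Fin m → ℤ) × ℤ) I) (C : ℕ) :
    (Z.slab C).z = wnd C 0 Z.z := by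
  refine (e4_slab_z Z C).trans ?_
  funext v
  show Z.z ((v.1, ((v.2.1.val : ℕ) : ℤ)), v.2.2) = Z.z ((v.1, 0 + ((v.2.1.val : ℕ) : ℤ)), v.2.2)
  rw [zero_add]

theorem proj_pproj (Z : Sys k ((Fin m → ℤ) × ℤ) I) (hP : Z.Proj) (a b : ℤ) : Z.PProj a b := by
  classical
  obtain ⟨S, h1, h2, h3, h4⟩ := hP
  refine ⟨LinearMap.id - S, ?_, ?_, ?_, ?_⟩
  · intro γ p
    rw [LinearMap.sub_apply, LinearMap.sub_apply, LinearMap.id_apply, LinearMap.id_apply, h1,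
      map_sub]
  · intro p
    have := neg_mem (h3 p)
    rwa [neg_sub] at this
  · intro p hp
    show p - S p = p
    rw [h2 p (RV_mono Z (Set.subset_univ _) hp), sub_zero]
  · intro t i v
    have e : (Finsupp.single (((0 : Fin m → ℤ), t), i) 1 : ((Fin m → ℤ) × ℤ) × I →₀ Z.K) =
        Z.shift (0, t) (Finsupp.single (0, i) 1) := by
      rw [e1_shift_single, map_one, add_zero]
    rw [LinearMap.sub_apply, LinearMap.id_apply, Finsupp.sub_apply]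
    refine sub_mem ?_ ?_
    · rw [Finsupp.single_apply]
      split_ifs
      · exact one_mem _
      · exact zero_mem _
    · rw [e, h1, e4_shift_apply]
      exact e4_alpha_fld_univ Z _ (h4 i _)

/-- (6.1) -/
theorem slab_proj (Z : Sys k ((Fin m → ℤ) × ℤ) I) {N Nm : Set ((Fin m → ℤ) × ℤ)} {c : ℕ}
    (hD : DirData Z N Nm c) (a b : ℤ) (hab : a + c ≤ b) (hPP : Z.PProj a b) :
    ∃ C0 : ℕ, ∀ C : ℕ, C0 ≤ C → (Z.slab C).Proj := by
  classical
  have h0N : (0 : (Fin m → ℤ) × ℤ) ∉ N := by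
    intro h
    have := (hD.levN 0 h).2
    simp at this
  have h0Nm : (0 : (Fin m → ℤ) × ℤ) ∉ Nm := by
    intro h
    have := (hD.levNm 0 h).1
    simp at this
  obtain ⟨Ip, wp, hwp, hIp⟩ := exists_free_letters Z N hD.finN 0 h0N
  obtain ⟨Im, wm, hwm, hIm⟩ := exists_free_letters Z Nm hD.finNm 0 h0Nm
  obtain ⟨T, hTeq, hTfix, hTsupp, hTlev⟩ := exists_normal_form Z hD Ip Im wp wm hwp hwm a b hab
  have hfree := free_part_zero Z hD Ip Im hIp hIm a b hab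
  obtain ⟨B, hBeq, hBRV, hBid, hBfld⟩ := hPP
  -- T maps relation vectors to relation vectors of the levels `[a,b]`
  have hTRV : ∀ q ∈ Z.RV Set.univ, T q ∈ Z.RV (lev a b) := by
    intro q hq
    obtain ⟨a₁, b₁, ha₁, hb₁, hs⟩ := e4_supp_bound Z a b q
    have h1 : T q - q ∈ Z.RV (lev a₁ b₁) :=
      e4_move Z _ T q (fun v hv => (hTlev a₁ b₁ ha₁ hb₁ v (hs v hv)).1)
    have h2 : T q ∈ Z.RV Set.univ := by
      have := add_mem (RV_mono Z (Set.subset_univ _) h1) hq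
      rwa [sub_add_cancel] at this
    refine mem_RV_of_supp Z (Set.subset_univ _) h2 ?_
    intro v hv
    by_contra hne
    exact hv (hfree (T q) h2 (hTsupp q) v hne)
  let κ := e4ka Z a b
  let S₀ : (((Fin m → ℤ) × ℤ) × I →₀ Z.K) →ₗ[Z.K] (((Fin m → ℤ) × ℤ) × I →₀ Z.K) :=
    T - T ∘ₗ B ∘ₗ κ ∘ₗ T
  have hS₀ : ∀ y, S₀ y = T y - T (B (κ (T y))) := fun y => rfl
  have hS₀eq : ∀ (γ : Fin m → ℤ) y, S₀ (Z.shift (γ, 0) y) = Z.shift (γ, 0) (S₀ y) := by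
    intro γ y
    rw [hS₀, hS₀, hTeq, e4ka_shift, hBeq, hTeq, map_sub]
  have hS₀zero : ∀ q ∈ Z.RV Set.univ, S₀ q = 0 := by
    intro q hq
    have h1 := hTRV q hq
    have hsupp : ∀ v : ((Fin m → ℤ) × ℤ) × I, v.1 ∉ lev a b → T q v = 0 :=
      fun v hv => supp_of_mem_RV Z h1 v hv
    have h2 : κ (T q) = T q := by
      ext v
      by_cases hv : v.1 ∈ (lev a b : Set ((Fin m → ℤ) × ℤ))
      · exact e4ka_mem Z a b _ v hv
      · rw [hsupp v hv]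
        exact e4ka_notMem Z a b _ v hv
    have h3 : T (T q) = T q := by
      refine e4_fix Z T (T q) (fun v hv => hTfix v (Or.inl ?_))
      by_contra hne
      exact hv (hsupp v hne)
    rw [hS₀, h2, hBid _ h1, h3, sub_self]
  have hS₀move : ∀ (a' b' : ℤ), a' ≤ a → b ≤ b' → ∀ y : ((Fin m → ℤ) × ℤ) × I →₀ Z.K,
      (∀ v, y v ≠ 0 → v.1 ∈ lev a' b') → S₀ y - y ∈ Z.RV (lev a' b') := by
    intro a' b' ha' hb' y hy
    have h1 : T y - y ∈ Z.RV (lev a' b') :=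
      e4_move Z _ T y (fun v hv => (hTlev a' b' ha' hb' v (hy v hv)).1)
    have h2 : T (B (κ (T y))) ∈ Z.RV (lev a' b') :=
      RV_mono Z (e4_lev_mono ha' hb') (hTRV _ (hBRV _))
    have h3 : S₀ y - y = (T y - y) - T (B (κ (T y))) := by
      rw [hS₀]
      abel
    rw [h3]
    exact sub_mem h1 h2
  -- coefficients of `T ∘ B` on the levels `[a,b]`
  have hTfld : ∀ v u, T (Finsupp.single v 1) u ∈ fld k Z.z := by
    intro v u
    have h := (hTlev (min a v.1.2) (max b v.1.2) (min_le_left _ _) (le_max_left _ _) v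
      ⟨min_le_right _ _, le_max_right _ _⟩).2 u
    exact e4_fld_le Z _ h
  have hM : ∀ t i u, T (B (Finsupp.single (((0 : Fin m → ℤ), t), i) 1)) u ∈ fld k Z.z := by
    intro t i u
    exact e4_coeff Z (fld k Z.z) T _ (hBfld t i) (fun v _ u => hTfld v u) u
  have hM2 : ∀ t i, ∃ n : ℕ, ∀ u, T (B (Finsupp.single (((0 : Fin m → ℤ), t), i) 1)) u ∈
      fld k (res Z.z (lev (a - n) (b + n) : Set ((Fin m → ℤ) × ℤ))) := by
    intro t i
    obtain ⟨n, hn⟩ := e4_exists_level_fin Z a b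
      (T (B (Finsupp.single (((0 : Fin m → ℤ), t), i) 1))).support
      (fun u => T (B (Finsupp.single (((0 : Fin m → ℤ), t), i) 1)) u) (fun u _ => hM t i u)
    refine ⟨n, fun u => ?_⟩
    by_cases hu : T (B (Finsupp.single (((0 : Fin m → ℤ), t), i) 1)) u = 0
    · rw [hu]
      exact zero_mem _
    · exact hn u (Finsupp.mem_support_iff.2 hu)
  choose nn hnn using hM2
  have : Fintype I := Fintype.ofFinite I
  let n : ℕ := (Finset.Icc a b).sup (fun t => Finset.univ.sup (fun i => nn t i))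
  have hn : ∀ t, a ≤ t → t ≤ b → ∀ i, nn t i ≤ n := by
    intro t h1 h2 i
    have h3 : nn t i ≤ Finset.univ.sup (fun i => nn t i) :=
      Finset.le_sup (f := fun i => nn t i) (Finset.mem_univ i)
    exact h3.trans (Finset.le_sup (f := fun t => Finset.univ.sup (fun i => nn t i))
      (Finset.mem_Icc.2 ⟨h1, h2⟩))
  have hMn : ∀ t, a ≤ t → t ≤ b → ∀ i u,
      T (B (Finsupp.single (((0 : Fin m → ℤ), t), i) 1)) u ∈
        fld k (res Z.z (lev (a - n) (b + n) : Set ((Fin m → ℤ) × ℤ))) := by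
    intro t h1 h2 i u
    have h3 := hn t h1 h2 i
    exact e4_fld_mono Z (e4_lev_mono (by omega) (by omega)) (hnn t i u)
  refine ⟨(b + n - (a - n)).toNat, fun C hC => ?_⟩
  have hC' : b + n - (a - n) ≤ C := by
    have := Int.self_le_toNat (b + n - (a - n))
    omega
  -- the interval `[a2,b2]`
  let a2 : ℤ := a - n
  let b2 : ℤ := a - n + C
  have ha2 : a2 ≤ a := by show a - n ≤ a; omega
  have hb2 : b ≤ b2 := by show b ≤ a - n + C; omega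
  have htr1 : tr ((0, a2) : (Fin m → ℤ) × ℤ) (lev 0 (C : ℤ)) ⊆ lev a2 b2 := by
    intro v hv
    have h1 : 0 ≤ v.2 - a2 := hv.1
    have h2 : v.2 - a2 ≤ C := hv.2
    show a2 ≤ v.2 ∧ v.2 ≤ a - n + C
    have h3 : a2 = a - n := rfl
    omega
  have htr2 : tr (-((0, a2) : (Fin m → ℤ) × ℤ)) (lev a2 b2) ⊆ lev 0 (C : ℤ) := by
    intro v hv
    have h1 : a2 ≤ v.2 - -a2 := hv.1
    have h2 : v.2 - -a2 ≤ b2 := hv.2
    show 0 ≤ v.2 ∧ v.2 ≤ C
    have h3 : a2 = a - n := rfl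
    have h4 : b2 = a - n + C := rfl
    omega
  have hcoef : ∀ v : ((Fin m → ℤ) × ℤ) × I, v.1 ∈ lev a2 b2 → ∀ u,
      S₀ (Finsupp.single v 1) u ∈ fld k (res Z.z (lev a2 b2 : Set ((Fin m → ℤ) × ℤ))) := by
    intro v hv u
    have hT1 := (hTlev a2 b2 ha2 hb2 v hv).2
    rw [hS₀, Finsupp.sub_apply]
    refine sub_mem (hT1 u) ?_
    refine e4_coeff Z _ (T ∘ₗ B) (κ (T (Finsupp.single v 1))) ?_ ?_ u
    · intro w
      by_cases hw : w.1 ∈ (lev a b : Set ((Fin m → ℤ) × ℤ))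
      · have : κ (T (Finsupp.single v 1)) w = T (Finsupp.single v 1) w := e4ka_mem Z a b _ w hw
        rw [this]
        exact hT1 w
      · have : κ (T (Finsupp.single v 1)) w = 0 := e4ka_notMem Z a b _ w hw
        rw [this]
        exact zero_mem _
    · intro w hw u
      have hw' : w.1 ∈ (lev a b : Set ((Fin m → ℤ) × ℤ)) := by
        by_contra hne
        exact hw (e4ka_notMem Z a b _ w hne)
      obtain ⟨⟨γ, t⟩, i⟩ := w
      have e : (Finsupp.single ((γ, t), i) 1 : ((Fin m → ℤ) × ℤ) × I →₀ Z.K) =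
          Z.shift (γ, 0) (Finsupp.single (((0 : Fin m → ℤ), t), i) 1) := by
        rw [e1_shift_single, map_one, Prod.mk_add_mk, add_zero, zero_add]
      rw [LinearMap.comp_apply, e, hBeq, hTeq, e4_shift_apply]
      have h1 := e4_alpha_fld Z (γ, 0) _ (hMn t hw'.1 hw'.2 i (u.1 - (γ, 0), u.2))
      refine e4_fld_mono Z ?_ h1
      intro x hx
      have h2 : a - n ≤ x.2 - 0 := hx.1
      have h3 : x.2 - 0 ≤ b + n := hx.2
      show a - n ≤ x.2 ∧ x.2 ≤ a - n + C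
      omega
  let S₁ := e4cj Z (0, a2) S₀
  have hS₁ : ∀ y, S₁ y = Z.shift (-(0, a2)) (S₀ (Z.shift (0, a2) y)) := fun y => rfl
  have hS₁eq : ∀ (γ : Fin m → ℤ) y, S₁ (Z.shift (γ, 0) y) = Z.shift (γ, 0) (S₁ y) := by
    intro γ y
    rw [hS₁, hS₁, ← e4_shift_add, add_comm ((0, a2) : (Fin m → ℤ) × ℤ) (γ, 0), e4_shift_add,
      hS₀eq, ← e4_shift_add, add_comm (-((0, a2) : (Fin m → ℤ) × ℤ)) (γ, 0), e4_shift_add]
  have hS₁zero : ∀ q ∈ Z.RV Set.univ, S₁ q = 0 := by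
    intro q hq
    rw [hS₁, hS₀zero _ (RV_mono Z (Set.subset_univ _) (shift_RV Z (0, a2) hq)), map_zero]
  have hS₁move : ∀ y : ((Fin m → ℤ) × ℤ) × I →₀ Z.K,
      (∀ v, y v ≠ 0 → v.1 ∈ lev 0 (C : ℤ)) → S₁ y - y ∈ Z.RV (lev 0 (C : ℤ)) := by
    intro y hy
    have h1 : S₀ (Z.shift (0, a2) y) - Z.shift (0, a2) y ∈ Z.RV (lev a2 b2) := by
      refine hS₀move a2 b2 ha2 hb2 _ (fun v hv => htr1 ?_)
      rw [e4_shift_apply] at hv
      have h2 : y (v.1 - (0, a2), v.2) ≠ 0 := by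
        intro h
        apply hv
        rw [h, map_zero]
      exact hy _ h2
    have h2 := shift_RV Z (-(0, a2)) h1
    rw [map_sub, e4_shift_neg] at h2
    exact RV_mono Z htr2 h2
  have hkey : ∀ p : (Fin m → ℤ) × (Fin (C + 1) × I) →₀ Z.K,
      e4ro Z C (S₁ (e4io Z C p) - e4io Z C p) = e4ro Z C (S₁ (e4io Z C p)) - p := by
    intro p
    rw [map_sub, e4ro_io]
  refine ⟨e4ro Z C ∘ₗ S₁ ∘ₗ e4io Z C, ?_, ?_, ?_, ?_⟩
  · intro γ p
    show e4ro Z C (S₁ (e4io Z C ((Z.slab C).shift γ p))) =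
      (Z.slab C).shift γ (e4ro Z C (S₁ (e4io Z C p)))
    refine (congrArg (fun q => e4ro Z C (S₁ q)) (e4io_shift Z C γ p)).trans ?_
    refine (congrArg (fun q => e4ro Z C q) (hS₁eq γ _)).trans ?_
    exact e4ro_shift Z C γ _
  · intro p hp
    show e4ro Z C (S₁ (e4io Z C p)) = 0
    have h1 := e4io_RV Z C p hp
    rw [hS₁zero _ (RV_mono Z (Set.subset_univ _) h1), map_zero]
  · intro p
    have h1 := hS₁move (e4io Z C p) (e4io_supp Z C p)
    have h2 := e4ro_RV Z C _ h1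
    rw [hkey p] at h2
    exact h2
  · intro i v
    show (e4ro Z C (S₁ (e4io Z C (Finsupp.single (0, i) 1)))) v ∈ _
    refine e4_fld_slab Z C ?_
    rw [e4ro_apply, e4io_single, hS₁, e4_shift_apply, e1_shift_single, map_one]
    refine e4_fld_mono Z htr2 (e4_alpha_fld Z _ _ (hcoef _ ?_ _))
    refine htr1 ?_
    show ((0, a2) + (e4em (Fin m → ℤ) I C (0, i)).1 - (0, a2) : (Fin m → ℤ) × ℤ) ∈
      (lev 0 (C : ℤ) : Set ((Fin m → ℤ) × ℤ))
    rw [add_sub_cancel_left]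
    exact e4em_lev C _

end Pool.Agent.ORG
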