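import Pool.Agent.ORG.Defs
import Pool.Agent.ORG.F1
import Pool.Agent.ORG.F2
import Pool.Agent.ORG.F3
import Pool.Agent.ORG.F4

/-!
# MP_08a057_al, ORG module F5 : (1.5) Jacobian rank under specialisation
(paper: /team-store/ORG_paper.md)
-/

set_option autoImplicit false

namespace Pool.Agent.ORG

open MvPolynomial

variable {k : Type} [Field k] {J J' J'' I E E' E'' : Type} [Field E] [Algebra k E] [Field E']
  [Algebra k E'] [Field E''] [Algebra k E'']

theorem f5_lc [Fintype J] (b ξ : J → E) (P : MvPolynomial J k) :
    Finsupp.linearCombination E ξ (dvec k b P) = ∑ j, aeval b (pderiv j P) * ξ j := by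
  rw [Finsupp.linearCombination_apply, Finsupp.sum_fintype _ _ (fun j => by simp)]
  exact Finset.sum_congr rfl fun j _ => by rw [dvec_apply, smul_eq_mul]

/-- the Jacobian matrix of a finite family of polynomials -/
noncomputable def f5Jac (k : Type) [Field k] {J E : Type} [Field E] [Algebra k E] {r : ℕ}
    (b : J → E) (P : Fin r → MvPolynomial J k) : Matrix (Fin r) J E :=
  fun i j => aeval b (pderiv j (P i))

theorem f5_minor {F : Type} [Field F] [Fintype J] {r : ℕ}
    (M : Matrix (Fin r) J F) (hM : LinearIndependent F M.row) :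
    ∃ c : Fin r → J, IsUnit (M.submatrix id c).det := by
  have hrank : M.rank = r := by
    have := hM.rank_matrix
    simpa using this
  have h1 : Module.finrank F (Submodule.span F (Set.range M.col)) = r := by
    rw [← Matrix.rank_eq_finrank_span_cols, hrank]
  have h2 : ∃ f : Fin r → (Fin r → F), (∀ i, f i ∈ Set.range M.col) ∧
      LinearIndependent F f := by
    have h3 := Submodule.exists_fun_fin_finrank_span_eq F (Set.range M.col)
    rw [h1] at h3
    obtain ⟨f, hf, -, hli⟩ := h3
    exact ⟨f, hf, hli⟩
  obtain ⟨f, hf, hli⟩ := h2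
  choose c hc using hf
  refine ⟨c, ?_⟩
  rw [← Matrix.isUnit_iff_isUnit_det, ← Matrix.linearIndependent_cols_iff_isUnit]
  have h4 : (M.submatrix id c).col = f := by
    funext i
    rw [← hc i]
    rfl
  rw [h4]
  exact hli

theorem f5_rank {F : Type} [Field F] [Fintype J] {r : ℕ} (M : Matrix (Fin r) J F)
    (c : Fin r → J) (h : IsUnit (M.submatrix id c).det) : r ≤ M.rank := by
  classical
  have h1 : M.submatrix id c = M * Matrix.of (fun j l => if j = c l then (1 : F) else 0) := by
    ext i l
    rw [Matrix.mul_apply, Matrix.submatrix_apply, id]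
    simp
  have h2 : (M.submatrix id c).rank = r := by
    rw [Matrix.rank_of_isUnit _ ((Matrix.isUnit_iff_isUnit_det _).2 h), Fintype.card_fin]
  calc r = (M.submatrix id c).rank := h2.symm
    _ = (M * Matrix.of (fun j l => if j = c l then (1 : F) else 0)).rank := by rw [h1]
    _ ≤ M.rank := Matrix.rank_mul_le_left _ _

theorem f5_ker {F : Type} [Field F] [Fintype J] {r : ℕ} (M : Matrix (Fin r) J F) :
    M.rank + Module.finrank F (LinearMap.ker M.mulVecLin) = Fintype.card J := by
  have := LinearMap.finrank_range_add_finrank_ker M.mulVecLin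
  rw [Module.finrank_fintype_fun_eq_card] at this
  exact this

theorem f5_mem_ker {F : Type} [Field F] [Fintype J] {r : ℕ} (M : Matrix (Fin r) J F)
    (ξ : J → F) : ξ ∈ LinearMap.ker M.mulVecLin ↔ ∀ i, ∑ j, M i j * ξ j = 0 := by
  rw [LinearMap.mem_ker, Matrix.mulVecLin_apply]
  constructor
  · intro h i
    exact congrFun h i
  · intro h
    funext i
    exact h i

/-- (1.5): vectors killed by the differentials at `b` of the relations of `a` -/
theorem trd_le_finrank_of_incl [CharZero k] [Finite J] {a : J → E} {b : J → E'} (h : Incl k a b)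
    (W : Submodule E' (J → E'))
    (hW : ∀ ξ : J → E', (∀ P : MvPolynomial J k, aeval a P = 0 →
      Finsupp.linearCombination E' ξ (dvec k b P) = 0) → ξ ∈ W) :
    trd k a ≤ Module.finrank E' W := by
  cases nonempty_fintype J
  set s : Set (J → E') := {v | ∃ P : MvPolynomial J k, aeval a P = 0 ∧
    v = fun j => aeval b (pderiv j P)} with hs
  obtain ⟨r, hr⟩ : ∃ r, Module.finrank E' (Submodule.span E' s) = r := ⟨_, rfl⟩
  have hex := Submodule.exists_fun_fin_finrank_span_eq E' s
  rw [hr] at hex
  obtain ⟨f, hf, hspan, hli⟩ := hex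
  choose P hP hfP using hf
  have hMb : (f5Jac k b P).row = f := by
    funext i
    rw [hfP i]
    rfl
  obtain ⟨c, hc⟩ := f5_minor (f5Jac k b P) (by rw [hMb]; exact hli)
  -- the minor at `a`
  have hdet : ∀ {F : Type} [Field F] [Algebra k F] (x : J → F),
      ((f5Jac k x P).submatrix id c).det =
        aeval x (Matrix.of (fun i l => pderiv (c l) (P i)) : Matrix (Fin r) (Fin r) _).det := by
    intro F _ _ x
    rw [AlgHom.map_det]
    rfl
  have ha : IsUnit ((f5Jac k a P).submatrix id c).det := by
    rw [isUnit_iff_ne_zero, hdet]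
    intro h0
    have := h _ h0
    rw [← hdet] at this
    rw [this] at hc
    exact not_isUnit_zero hc
  have hra : r ≤ (f5Jac k a P).rank := f5_rank _ c ha
  have hrb : (f5Jac k b P).rank ≤ r := by
    have := Matrix.rank_le_card_height (f5Jac k b P)
    rwa [Fintype.card_fin] at this
  have hka := f5_ker (f5Jac k a P)
  have hkb := f5_ker (f5Jac k b P)
  have hTa : Tan k a ≤ LinearMap.ker (f5Jac k a P).mulVecLin := by
    intro ξ hξ
    rw [f5_mem_ker]
    intro i
    have h5 : Finsupp.linearCombination E ξ (dvec k a (P i)) = 0 := hξ (P i) (hP i)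
    rw [f5_lc] at h5
    exact h5
  have hWb : LinearMap.ker (f5Jac k b P).mulVecLin ≤ W := by
    intro ξ hξ
    rw [f5_mem_ker] at hξ
    apply hW
    intro Q hQ
    rw [f5_lc]
    have h6 : (fun j => aeval b (pderiv j Q)) ∈ Submodule.span E' (Set.range f) := by
      rw [hspan]
      exact Submodule.subset_span ⟨Q, hQ, rfl⟩
    have h7 : ∀ v ∈ Submodule.span E' (Set.range f), ∑ j, v j * ξ j = 0 := by
      intro v hv
      induction hv using Submodule.span_induction with
      | mem x hx =>
        obtain ⟨i, rfl⟩ := hx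
        rw [hfP i]
        exact hξ i
      | zero => simp
      | add x y _ _ hx hy =>
        simp only [Pi.add_apply, add_mul, Finset.sum_add_distrib, hx, hy, add_zero]
      | smul t x _ hx =>
        simp only [Pi.smul_apply, smul_eq_mul, mul_assoc, ← Finset.mul_sum, hx, mul_zero]
    exact h7 _ h6
  have h8 := Submodule.finrank_mono hTa
  have h9 := Submodule.finrank_mono hWb
  rw [finrank_Tan a (Set.finite_range a)] at h8
  omega

end Pool.Agent.ORG
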