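import Pool.Agent.ORG.Defs
import Pool.Agent.ORG.F1
import Pool.Agent.ORG.F4

/-!
# MP_08a057_al, ORG module F6 : (1.6) free extensions
(paper: /team-store/ORG_paper.md)
-/

set_option autoImplicit false

namespace Pool.Agent.ORG

open MvPolynomial

variable {k : Type} [Field k] {J J' J'' I E E' E'' : Type} [Field E] [Algebra k E] [Field E']
  [Algebra k E'] [Field E''] [Algebra k E'']

open scoped IntermediateField.algebraAdjoinAdjoin in
theorem ff6_trdeg_adjoin_le {F L : Type} [Field F] [Field L] [Algebra F L] (S : Set L) :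
    Algebra.trdeg F (IntermediateField.adjoin F S) ≤ Cardinal.mk S := by
  have h1 := trdeg_add_eq F (Algebra.adjoin F S) (A := IntermediateField.adjoin F S)
  rw [trdeg_eq_zero (R := Algebra.adjoin F S), add_zero] at h1
  rw [← h1]
  have h2 : Algebra.trdeg F (Algebra.adjoin F S) ≤ Algebra.trdeg F (MvPolynomial S F) := by
    have e : Algebra.adjoin F S = (aeval (fun s : S => (s : L)) : MvPolynomial S F →ₐ[F] L).range := by
      conv_lhs => rw [← Subtype.range_coe (s := S)]
      exact Algebra.adjoin_range_eq_range_aeval F _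
    rw [e]
    exact trdeg_le_of_surjective _ (AlgHom.rangeRestrict_surjective _)
  refine h2.trans ?_
  rw [MvPolynomial.trdeg_of_isDomain]
  simp

theorem ff6_trdeg_fld_lt (b : J → E) (hb : (Set.range b).Finite) :
    Algebra.trdeg k (fld k b) < Cardinal.aleph0 :=
  (ff6_trdeg_adjoin_le (F := k) (Set.range b)).trans_lt (Cardinal.lt_aleph0_iff_set_finite.2 hb)

/-- the field of a sum family as a tower -/
theorem ff6_trdeg_sum (u : J → E) (v : I → E) :
    Algebra.trdeg k (fld k (Sum.elim u v)) = Algebra.trdeg k (fld k u) +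
      Algebra.trdeg (fld k u) (IntermediateField.adjoin (fld k u) (Set.range v)) := by
  have h1 := trdeg_add_eq k (fld k u)
    (A := IntermediateField.adjoin (fld k u) (Set.range v))
  rw [h1]
  have h2 : fld k (Sum.elim u v) = (IntermediateField.adjoin (fld k u) (Set.range v)).restrictScalars k := by
    unfold fld
    rw [IntermediateField.adjoin_adjoin_left, Set.Sum.elim_range]
  rw [h2]
  rfl

/-- elements of an algebraically closed field free over a subfield of finite transcendence degree -/
theorem ff6_exists_free {Ω : Type} [Field Ω] [Algebra k Ω]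
    (hΩ : Cardinal.aleph0 ≤ Algebra.trdeg k Ω) (B : IntermediateField k Ω)
    (hB : Algebra.trdeg k B < Cardinal.aleph0) (S : Type) [Finite S] :
    ∃ t : S → Ω, AlgebraicIndependent B t := by
  have h1 := trdeg_add_eq k B (A := Ω)
  have h2 : Cardinal.aleph0 ≤ Algebra.trdeg B Ω := by
    by_contra h
    rw [not_le] at h
    have := Cardinal.add_lt_aleph0 hB h
    rw [h1] at this
    exact absurd this (not_lt.2 hΩ)
  obtain ⟨s, hs⟩ := exists_isTranscendenceBasis B Ω
  rw [← hs.cardinalMk_eq_trdeg] at h2
  have h3 : Cardinal.mk S ≤ Cardinal.mk s := ((Cardinal.lt_aleph0_iff_finite.2 inferInstance).le).trans h2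
  obtain ⟨f⟩ := (Cardinal.le_def _ _).1 h3
  exact ⟨(fun x : s => (x : Ω)) ∘ f, hs.1.comp f f.injective⟩

/-- the subfield generated by `S` over `A`, as an extension of `k` -/
abbrev ff6L (A : IntermediateField k E) (S : Set E) : IntermediateField k E :=
  (IntermediateField.adjoin A S).restrictScalars k

/-- the subfield generated by `S` and `C` over `A` -/
abbrev ff6N (A : IntermediateField k E) (S C : Set E) : IntermediateField (ff6L A S) E :=
  IntermediateField.adjoin (ff6L A S) C

theorem ff6_mem_L {A : IntermediateField k E} {S : Set E} {x : E} (hx : x ∈ A) : x ∈ ff6L A S :=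
  (IntermediateField.adjoin A S).algebraMap_mem ⟨x, hx⟩

theorem ff6_mem_L' {A : IntermediateField k E} {S : Set E} {x : E} (hx : x ∈ S) : x ∈ ff6L A S :=
  IntermediateField.subset_adjoin A S hx

theorem ff6_mem_N {A : IntermediateField k E} {S C : Set E} {x : E} (hx : x ∈ ff6L A S) :
    x ∈ ff6N A S C :=
  (ff6N A S C).algebraMap_mem ⟨x, hx⟩

theorem ff6_mem_N' {A : IntermediateField k E} {S C : Set E} {x : E} (hx : x ∈ C) :
    x ∈ ff6N A S C :=
  IntermediateField.subset_adjoin _ _ hx

theorem ff6_int {A : IntermediateField k E} {S C : Set E}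
    (hC : ∀ x ∈ C, IsAlgebraic (Algebra.adjoin A S) x) (x : E) (hx : x ∈ C) :
    IsIntegral (ff6L A S) x :=
  (IntermediateField.isAlgebraic_adjoin_iff.2 (hC x hx)).isIntegral

/-- (1.6), the construction of the extension -/
theorem ff6_exists_hom {Ω : Type} [Field Ω] [Algebra k Ω] [IsAlgClosed Ω]
    (A : IntermediateField k E) (B : IntermediateField k Ω) (j : A →ₐ[k] B) (S C : Set E)
    (hS : AlgebraicIndependent A (fun s : S => (s : E)))
    (hC : ∀ x ∈ C, IsAlgebraic (Algebra.adjoin A S) x) (t : S → Ω)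
    (ht : AlgebraicIndependent B t) :
    ∃ φ : ff6N A S C →ₐ[k] Ω,
      (∀ a : A, φ ⟨a, ff6_mem_N (ff6_mem_L a.2)⟩ = (j a : Ω)) ∧
      (∀ s : S, φ ⟨s, ff6_mem_N (ff6_mem_L' s.2)⟩ = t s) := by
  classical
  let iAB : Algebra A B := j.toRingHom.toAlgebra
  let iAΩ : Algebra A Ω := (B.val.comp j).toRingHom.toAlgebra
  have tow : IsScalarTower A B Ω := IsScalarTower.of_algebraMap_eq (fun x => rfl)
  have tow2 : IsScalarTower k A Ω := IsScalarTower.of_algebraMap_eq (fun x => by
    change _ = ((B.val.comp j) (algebraMap k A x) : Ω)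
    rw [AlgHom.commutes])
  have htA : AlgebraicIndependent A t :=
    ht.restrictScalars (by
      change Function.Injective j
      exact j.toRingHom.injective)
  -- the field generated by S
  have hr : IntermediateField.adjoin A (Set.range (fun s : S => (s : E))) =
      IntermediateField.adjoin A S := by rw [Subtype.range_coe]
  let e0 : IntermediateField.adjoin A S ≃ₐ[A] FractionRing (MvPolynomial S A) :=
    (IntermediateField.equivOfEq hr.symm).trans hS.aevalEquivField.symm
  let ψ0 : IntermediateField.adjoin A S →ₐ[A] Ω :=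
    ((IntermediateField.val _).comp htA.aevalEquivField.toAlgHom).comp e0.toAlgHom
  have hψs : ∀ s : S, ψ0 ⟨s, IntermediateField.subset_adjoin A S s.2⟩ = t s := by
    intro s
    have h1 : e0 ⟨s, IntermediateField.subset_adjoin A S s.2⟩ =
        algebraMap (MvPolynomial S A) (FractionRing (MvPolynomial S A)) (X s) := by
      change hS.aevalEquivField.symm _ = _
      rw [AlgEquiv.symm_apply_eq]
      apply Subtype.ext
      rw [AlgebraicIndependent.aevalEquivField_algebraMap_apply_coe]
      simp
    change ((htA.aevalEquivField (e0 _)) : Ω) = _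
    rw [h1, AlgebraicIndependent.aevalEquivField_algebraMap_apply_coe]
    simp
  let ψ : ff6L A S →ₐ[k] Ω := ψ0.restrictScalars k
  obtain ⟨φ, hφ⟩ := IntermediateField.exists_algHom_adjoin_of_splits' (F := k) (E := E) (K := Ω)
    (S := C) (L := ff6L A S) ψ (fun x hx => ⟨ff6_int hC x hx, IsAlgClosed.splits
      (Polynomial.map ψ.toRingHom (minpoly (ff6L A S) x))⟩)
  refine ⟨φ, ?_, ?_⟩
  · intro a
    have h := DFunLike.congr_fun hφ ⟨a, ff6_mem_L a.2⟩
    have h2 : ψ ⟨a, ff6_mem_L a.2⟩ = (j a : Ω) := ψ0.commutes a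
    rw [← h2, ← h]
    rfl
  · intro s
    have h := DFunLike.congr_fun hφ ⟨s, ff6_mem_L' s.2⟩
    rw [← hψs s]
    exact h

/-- (1.6) -/
theorem exists_free_ext {Ω : Type} [Field Ω] [Algebra k Ω] [IsAlgClosed Ω]
    (hΩ : Cardinal.aleph0 ≤ Algebra.trdeg k Ω) (b : J → Ω) (a' : J' → E) (c : I → E) (e : J' → J)
    (hb : (Set.range b).Finite) (hc : (Set.range c).Finite)
    (h : SameRel k a' (b ∘ e)) :
    ∃ c' : I → Ω, SameRel k (Sum.elim a' c) (Sum.elim (b ∘ e) c') ∧
      trd k (Sum.elim b c') + trd k a' = trd k b + trd k (Sum.elim a' c) := by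
  classical
  obtain ⟨φ0, hφ0⟩ := h.exists_equiv
  let A : IntermediateField k E := fld k a'
  let B0 : IntermediateField k Ω := fld k (b ∘ e)
  let B : IntermediateField k Ω := fld k b
  have hle : B0 ≤ B := IntermediateField.adjoin.mono _ _ _ (Set.range_comp_subset_range _ _)
  let j : A →ₐ[k] B := (IntermediateField.inclusion hle).comp φ0.toAlgHom
  obtain ⟨S, hS⟩ := (AlgebraicIndependent.matroid A E).exists_isBasis (Set.range c)
  rw [AlgebraicIndependent.matroid_isBasis_iff] at hS
  obtain ⟨hS1, hS2, hS3⟩ := hS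
  have hSf : S.Finite := hc.subset hS2
  have : Finite S := hSf
  obtain ⟨t, ht⟩ := ff6_exists_free hΩ B (ff6_trdeg_fld_lt b hb) S
  obtain ⟨φ, hφA, hφS⟩ := ff6_exists_hom A B j S (Set.range c) hS1 hS3 t ht
  let N := ff6N A S (Set.range c)
  have hcN : ∀ i, c i ∈ N := fun i => ff6_mem_N' ⟨i, rfl⟩
  have haA : ∀ i, a' i ∈ A := fun i => IntermediateField.subset_adjoin _ _ ⟨i, rfl⟩
  let c' : I → Ω := fun i => φ ⟨c i, hcN i⟩
  let w : J' ⊕ I → N := Sum.elim (fun i => ⟨a' i, ff6_mem_N (ff6_mem_L (haA i))⟩) (fun i => ⟨c i, hcN i⟩)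
  have hw1 : (fun x => ((N.val.restrictScalars k : N →ₐ[k] E) (w x))) = Sum.elim a' c := by
    funext x
    cases x <;> rfl
  have hw2 : (fun x => φ (w x)) = Sum.elim (b ∘ e) c' := by
    funext x
    cases x with
    | inl i =>
      change φ ⟨((⟨a' i, haA i⟩ : A) : E), _⟩ = b (e i)
      rw [hφA]
      exact hφ0 i (haA i)
    | inr i => rfl
  have hsame : SameRel k (Sum.elim a' c) (Sum.elim (b ∘ e) c') := by
    rw [← hw1, ← hw2]
    exact (sameRel_of_hom _ w).symm.trans (sameRel_of_hom φ w)
  refine ⟨c', hsame, ?_⟩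
  -- finiteness
  have hc'f : (Set.range c').Finite := by
    have : Set.range c' ⊆ (fun x : N => φ x) '' (N.val ⁻¹' (Set.range c)) := by
      rintro _ ⟨i, rfl⟩
      exact ⟨⟨c i, hcN i⟩, ⟨i, rfl⟩, rfl⟩
    refine Set.Finite.subset ?_ this
    refine Set.Finite.image _ ?_
    exact hc.preimage N.val.injective.injOn
  have hbe : (Set.range (b ∘ e)).Finite := hb.subset (Set.range_comp_subset_range _ _)
  have ha'f : (Set.range a').Finite := by
    have h1 : ∀ i i', b (e i) = b (e i') → a' i = a' i' := fun i i' hii =>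
      h.symm.incl.eq_of_eq hii
    have h2 : Set.range a' ⊆ (fun y : Ω => if hy : ∃ i, b (e i) = y then a' hy.choose else 0) ''
        (Set.range (b ∘ e)) := by
      rintro _ ⟨i, rfl⟩
      refine ⟨b (e i), ⟨i, rfl⟩, ?_⟩
      have hy : ∃ i', b (e i') = b (e i) := ⟨i, rfl⟩
      simp only [dif_pos hy]
      exact h1 _ _ hy.choose_spec
    exact (hbe.image _).subset h2
  -- upper bound
  have hup : trd k (Sum.elim b c') + trd k a' ≤ trd k b + trd k (Sum.elim a' c) := by
    have := trd_submod (k := k) b c' e hb hc'f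
    rw [h.trd_eq, hsame.trd_eq]
    exact this
  refine le_antisymm hup ?_
  -- lower bound
  have hl1 : Algebra.trdeg k (fld k (Sum.elim a' c)) ≤ Algebra.trdeg k A + Cardinal.mk S := by
    have hNalg : Algebra.IsAlgebraic (ff6L A S) N :=
      IntermediateField.isAlgebraic_adjoin (ff6_int hS3)
    have h2 := trdeg_add_eq k (ff6L A S) (A := N)
    rw [trdeg_eq_zero (R := ff6L A S), add_zero] at h2
    have h1 : Algebra.trdeg k A + Algebra.trdeg A (IntermediateField.adjoin A S) =
        Algebra.trdeg k (ff6L A S) := trdeg_add_eq k A (A := IntermediateField.adjoin A S)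
    have h4 : Algebra.trdeg k (fld k (Sum.elim a' c)) ≤ Algebra.trdeg k N := by
      have hle : ∀ x ∈ fld k (Sum.elim a' c), x ∈ N := by
        have : fld k (Sum.elim a' c) ≤ N.restrictScalars k := by
          refine IntermediateField.adjoin_le_iff.2 ?_
          rintro _ ⟨x, rfl⟩
          cases x with
          | inl i => exact (w (Sum.inl i)).2
          | inr i => exact hcN i
        exact this
      let ι : fld k (Sum.elim a' c) →ₐ[k] N :=
        { toFun := fun x => ⟨x.1, hle x.1 x.2⟩
          map_one' := rfl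
          map_mul' := fun x y => rfl
          map_zero' := rfl
          map_add' := fun x y => rfl
          commutes' := fun r => rfl }
      refine trdeg_le_of_injective ι ?_
      intro x y hxy
      exact Subtype.ext (congrArg (fun z : N => (z : E)) hxy)
    refine h4.trans ?_
    rw [← h2, ← h1]
    exact add_le_add_right (ff6_trdeg_adjoin_le S) _
  have hl2 : Algebra.trdeg k B + Cardinal.mk S ≤ Algebra.trdeg k (fld k (Sum.elim b c')) := by
    rw [ff6_trdeg_sum b c']
    refine add_le_add_right ?_ _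
    have htc : ∀ s : S, t s ∈ Set.range c' := by
      intro s
      obtain ⟨i, hi⟩ := hS2 s.2
      refine ⟨i, ?_⟩
      rw [← hφS s]
      change φ _ = φ _
      congr 1
      exact Subtype.ext hi
    let t' : S → IntermediateField.adjoin B (Set.range c') :=
      fun s => ⟨t s, IntermediateField.subset_adjoin _ _ (htc s)⟩
    have ht' : AlgebraicIndependent B t' := by
      refine (AlgHom.algebraicIndependent_iff (IntermediateField.val
        (IntermediateField.adjoin B (Set.range c'))) Subtype.val_injective).1 ?_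
      exact ht
    exact ht'.cardinalMk_le_trdeg
  have hfin1 : Algebra.trdeg k (fld k (Sum.elim b c')) < Cardinal.aleph0 :=
    ff6_trdeg_fld_lt _ (by rw [Set.Sum.elim_range]; exact hb.union hc'f)
  have hfinB : Algebra.trdeg k B < Cardinal.aleph0 := ff6_trdeg_fld_lt b hb
  have hfinA : Algebra.trdeg k A < Cardinal.aleph0 := ff6_trdeg_fld_lt a' ha'f
  have hfinS : Cardinal.mk S < Cardinal.aleph0 := Cardinal.lt_aleph0_iff_finite.2 inferInstance
  have g1 : trd k (Sum.elim a' c) ≤ trd k a' + Nat.card S := by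
    have := Cardinal.toNat_le_toNat hl1 (Cardinal.add_lt_aleph0 hfinA hfinS)
    rw [Cardinal.toNat_add hfinA hfinS] at this
    exact this
  have g2 : trd k b + Nat.card S ≤ trd k (Sum.elim b c') := by
    have := Cardinal.toNat_le_toNat hl2 hfin1
    rw [Cardinal.toNat_add hfinB hfinS] at this
    exact this
  omega

/-- realisation of a family in `Ω` -/
theorem exists_realisation {Ω : Type} [Field Ω] [Algebra k Ω] [IsAlgClosed Ω]
    (hΩ : Cardinal.aleph0 ≤ Algebra.trdeg k Ω) (c : I → E) (hc : (Set.range c).Finite) :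
    ∃ c' : I → Ω, SameRel k c c' := by
  have h0 : SameRel k (fun x : Empty => (x.elim : E)) ((fun x : Empty => (x.elim : Ω)) ∘ id) := by
    intro P
    obtain ⟨r, rfl⟩ := MvPolynomial.C_surjective Empty P
    simp
  obtain ⟨c', h1, -⟩ := exists_free_ext hΩ (fun x : Empty => (x.elim : Ω))
    (fun x : Empty => (x.elim : E)) c id (Set.finite_range _) hc h0
  exact ⟨c', h1.comp Sum.inr⟩

end Pool.Agent.ORG
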