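import Pool.Agent.ORG.Defs
import Pool.Agent.ORG.F1
import Pool.Agent.ORG.F4
import Pool.Agent.ORG.F6

/-!
# MP_08a057_al, ORG module F7 : (9.2), (9.3) swapping independent families, second copy
(paper: /team-store/ORG_paper.md)
-/

set_option autoImplicit false

namespace Pool.Agent.ORG

open MvPolynomial

variable {k : Type} [Field k] {J J' J'' I E E' E'' : Type} [Field E] [Algebra k E] [Field E']
  [Algebra k E'] [Field E''] [Algebra k E'']

open scoped TensorProduct

/-- a point of a finitely generated domain where a given nonzero element does not vanish -/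
theorem f7_point [IsAlgClosed k] {A : Type} [CommRing A] [IsDomain A] [Algebra k A]
    [Algebra.FiniteType k A] (f : A) (hf : f ≠ 0) : ∃ φ : A →ₐ[k] k, φ f ≠ 0 := by
  classical
  have hJ : IsJacobsonRing A := isJacobsonRing_of_finiteType (A := k)
  have h1 : (⊥ : Ideal A).jacobson = ⊥ :=
    (isJacobsonRing_iff_prime_eq.1 hJ) ⊥ Ideal.isPrime_bot
  have h2 : f ∉ (⊥ : Ideal A).jacobson := by rw [h1]; simpa using hf
  rw [Ideal.mem_jacobson_iff] at h2
  have h3 : f ∉ (⊥ : Ideal A).jacobson := by rw [h1]; simpa using hf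
  rw [Ideal.jacobson, Ideal.mem_sInf] at h3
  push Not at h3
  obtain ⟨m, ⟨-, hm⟩, hfm⟩ := h3
  have : m.IsMaximal := hm
  let _ : Field (A ⧸ m) := Ideal.Quotient.field m
  have hft : Algebra.FiniteType k (A ⧸ m) :=
    Algebra.FiniteType.of_surjective (Ideal.Quotient.mkₐ k m) (Ideal.Quotient.mkₐ_surjective k m)
  have hfin : Module.Finite k (A ⧸ m) := finite_of_finite_type_of_isJacobsonRing k (A ⧸ m)
  have hbij : Function.Bijective (algebraMap k (A ⧸ m)) :=
    IsAlgClosed.algebraMap_bijective_of_isIntegral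
  let e : k ≃ₐ[k] (A ⧸ m) := AlgEquiv.ofBijective (Algebra.ofId k (A ⧸ m)) hbij
  refine ⟨e.symm.toAlgHom.comp (Ideal.Quotient.mkₐ k m), ?_⟩
  intro h0
  apply hfm
  have h4 : (Ideal.Quotient.mkₐ k m) f = 0 := by
    have h5 : e.symm ((Ideal.Quotient.mkₐ k m) f) = 0 := h0
    exact (map_eq_zero_iff e.symm e.symm.injective).1 h5
  exact Ideal.Quotient.eq_zero_iff_mem.1 h4

/-- tensor products of domains over an algebraically closed field -/
theorem f7_tensor [IsAlgClosed k] {A B : Type} [CommRing A] [IsDomain A] [Algebra k A]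
    [Algebra.FiniteType k A] [CommRing B] [IsDomain B] [Algebra k B] : IsDomain (A ⊗[k] B) := by
  classical
  let b0 := Module.Basis.ofVectorSpace k B
  let bb := Algebra.TensorProduct.basis A b0
  have hcoord : ∀ (φ : A →ₐ[k] k) (x : A ⊗[k] B) i,
      b0.repr (Algebra.TensorProduct.productMap ((Algebra.ofId k B).comp φ) (AlgHom.id k B) x) i =
        φ (bb.repr x i) := by
    intro φ x i
    induction x with
    | zero => simp
    | add x y hx hy => simp only [map_add, Finsupp.add_apply, hx, hy]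
    | tmul a c =>
      rw [Algebra.TensorProduct.basis_repr_tmul]
      rw [Algebra.TensorProduct.productMap_apply_tmul]
      simp only [AlgHom.coe_comp, Function.comp_apply, AlgHom.coe_id, id_eq, Finsupp.smul_apply,
        Finsupp.mapRange_apply, smul_eq_mul, map_mul]
      rw [AlgHom.commutes, Algebra.ofId_apply, ← Algebra.smul_def, map_smul]
      simp
  have hnz : NoZeroDivisors (A ⊗[k] B) := by
    refine ⟨fun {x y} hxy => ?_⟩
    by_contra hcon
    push Not at hcon
    obtain ⟨hx, hy⟩ := hcon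
    have hx' : ∃ i, bb.repr x i ≠ 0 := by
      by_contra h
      push Not at h
      exact hx (bb.repr.map_eq_zero_iff.1 (Finsupp.ext h))
    have hy' : ∃ i, bb.repr y i ≠ 0 := by
      by_contra h
      push Not at h
      exact hy (bb.repr.map_eq_zero_iff.1 (Finsupp.ext h))
    obtain ⟨i, hi⟩ := hx'
    obtain ⟨j, hj⟩ := hy'
    obtain ⟨φ, hφ⟩ := f7_point (k := k) (bb.repr x i * bb.repr y j) (mul_ne_zero hi hj)
    rw [map_mul, ← hcoord, ← hcoord] at hφ
    have h1 := congrArg (Algebra.TensorProduct.productMap ((Algebra.ofId k B).comp φ)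
      (AlgHom.id k B)) hxy
    rw [map_mul, map_zero] at h1
    rcases mul_eq_zero.1 h1 with h | h
    · rw [h] at hφ; simp at hφ
    · rw [h] at hφ; simp at hφ
  have hnt : Nontrivial (A ⊗[k] B) := by
    have hinj : Function.Injective (Algebra.TensorProduct.includeLeft : A →ₐ[k] A ⊗[k] B) :=
      Algebra.TensorProduct.includeLeft_injective (algebraMap k B).injective
    exact hinj.nontrivial
  exact NoZeroDivisors.to_isDomain _

theorem f7_trd_sum_le (a : J → E) (b : I → E) (ha : (Set.range a).Finite)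
    (hb : (Set.range b).Finite) : trd k (Sum.elim a b) ≤ trd k a + trd k b := by
  have h := trd_submod (k := k) a b (fun x : Empty => (x.elim : J)) ha hb
  rw [trd_empty (a ∘ fun x : Empty => (x.elim : J)), add_zero] at h
  have h2 : trd k (Sum.elim (a ∘ fun x : Empty => (x.elim : J)) b) = trd k b := by
    apply trd_congr_range
    rw [Set.Sum.elim_range, Set.range_eq_empty (a ∘ fun x : Empty => (x.elim : J)),
      Set.empty_union]
  rw [h2] at h
  exact h

/-- the field of fractions of the tensor product -/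
theorem f7_field {A B : Type} [CommRing A] [Algebra k A] [CommRing B] [Algebra k B]
    (h : IsDomain (A ⊗[k] B)) : ∃ (F : Type) (_ : Field F) (_ : Algebra k F)
      (μ : A ⊗[k] B →ₐ[k] F), Function.Injective μ := by
  refine ⟨FractionRing (A ⊗[k] B), inferInstance, inferInstance,
    IsScalarTower.toAlgHom k (A ⊗[k] B) (FractionRing (A ⊗[k] B)), ?_⟩
  exact IsFractionRing.injective (A ⊗[k] B) (FractionRing (A ⊗[k] B))

/-- one direction of (9.2) -/
theorem f7_incl [IsAlgClosed k] {a b : J → E} (h : SameRel k a b)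
    (ha : (Set.range a).Finite) (htr : trd k (Sum.elim a b) = trd k a + trd k b) :
    Incl k (Sum.elim a b) (Sum.elim b a) := by
  classical
  have hb : (Set.range b).Finite := F4_finite h.incl ha
  let A := Algebra.adjoin k (Set.range a)
  let B := Algebra.adjoin k (Set.range b)
  have hftA : Algebra.FiniteType k A := by
    rw [← Subalgebra.fg_iff_finiteType]
    have := Subalgebra.fg_adjoin_finset (R := k) ha.toFinset
    rwa [Set.Finite.coe_toFinset] at this
  have hdom : IsDomain (A ⊗[k] B) := f7_tensor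
  obtain ⟨F, iF, iaF, μ, hFinj⟩ := f7_field hdom
  let l1 : A →ₐ[k] A ⊗[k] B := Algebra.TensorProduct.includeLeft
  let l2 : B →ₐ[k] A ⊗[k] B := Algebra.TensorProduct.includeRight
  have hl1 : Function.Injective l1 :=
    Algebra.TensorProduct.includeLeft_injective (algebraMap k B).injective
  have hl2 : Function.Injective l2 :=
    Algebra.TensorProduct.includeRight_injective (algebraMap k A).injective
  let i1 : A →ₐ[k] F := μ.comp l1
  let i2 : B →ₐ[k] F := μ.comp l2
  have hi1 : Function.Injective i1 := hFinj.comp hl1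
  have hi2 : Function.Injective i2 := hFinj.comp hl2
  have hA : ∀ j, a j ∈ A := fun j => Algebra.subset_adjoin ⟨j, rfl⟩
  have hB : ∀ j, b j ∈ B := fun j => Algebra.subset_adjoin ⟨j, rfl⟩
  let a' : J → F := fun j => i1 ⟨a j, hA j⟩
  let b' : J → F := fun j => i2 ⟨b j, hB j⟩
  let ab : J ⊕ J → A ⊗[k] B := Sum.elim (fun j => (⟨a j, hA j⟩ : A) ⊗ₜ (1 : B)) (fun j => (1 : A) ⊗ₜ (⟨b j, hB j⟩ : B))
  have hsa : SameRel k a a' := by
    intro P
    have h1 : aeval a' P = i1 (toAdj k a P) := by
      have : aeval a' = i1.comp (toAdj k a) := by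
        apply MvPolynomial.algHom_ext
        intro j
        simp [a', toAdj]
      rw [this]; rfl
    rw [h1, map_eq_zero_iff i1 hi1, toAdj_eq_zero]
  have hsb : SameRel k b b' := by
    intro P
    have h1 : aeval b' P = i2 (toAdj k b P) := by
      have : aeval b' = i2.comp (toAdj k b) := by
        apply MvPolynomial.algHom_ext
        intro j
        simp [b', toAdj]
      rw [this]; rfl
    rw [h1, map_eq_zero_iff i2 hi2, toAdj_eq_zero]
  have hFR : ∀ P : MvPolynomial (J ⊕ J) k,
      aeval (Sum.elim a' b') P = μ (aeval ab P) := by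
    intro P
    have : aeval (Sum.elim a' b') = μ.comp (aeval ab) := by
      apply MvPolynomial.algHom_ext
      intro j
      cases j with
      | inl j => simp only [aeval_X, AlgHom.coe_comp, Function.comp_apply, Sum.elim_inl]; rfl
      | inr j => simp only [aeval_X, AlgHom.coe_comp, Function.comp_apply, Sum.elim_inr]; rfl
    rw [this]; rfl
  have hmap : ∀ (φ : A →ₐ[k] E) (ψ : B →ₐ[k] E) (P : MvPolynomial (J ⊕ J) k),
      Algebra.TensorProduct.productMap φ ψ (aeval ab P) =
        aeval (Sum.elim (fun j => φ ⟨a j, hA j⟩) (fun j => ψ ⟨b j, hB j⟩)) P := by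
    intro φ ψ P
    have : (Algebra.TensorProduct.productMap φ ψ).comp (aeval ab) =
        aeval (Sum.elim (fun j => φ ⟨a j, hA j⟩) (fun j => ψ ⟨b j, hB j⟩)) := by
      apply MvPolynomial.algHom_ext
      intro j
      cases j with
      | inl j => simp [ab]
      | inr j => simp [ab]
    exact DFunLike.congr_fun this P
  have hincl : Incl k (Sum.elim a' b') (Sum.elim a b) := by
    intro P hP
    rw [hFR, map_eq_zero_iff _ hFinj] at hP
    have h1 := hmap A.val B.val P
    rw [hP, map_zero] at h1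
    exact h1.symm
  have ha' : (Set.range a').Finite := F4_finite hsa.incl ha
  have hb' : (Set.range b').Finite := F4_finite hsb.incl hb
  have hle : trd k (Sum.elim a' b') ≤ trd k (Sum.elim a b) := by
    rw [htr, hsa.trd_eq, hsb.trd_eq]
    exact f7_trd_sum_le a' b' ha' hb'
  have hsame := hincl.sameRel (by rw [Set.Sum.elim_range]; exact ha'.union hb') hle
  obtain ⟨φ, hφ⟩ := h.exists_hom
  obtain ⟨ψ, hψ⟩ := h.symm.exists_hom
  let φ' : A →ₐ[k] E := φ.comp (Subalgebra.inclusion (IntermediateField.algebra_adjoin_le_adjoin k _))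
  let ψ' : B →ₐ[k] E := ψ.comp (Subalgebra.inclusion (IntermediateField.algebra_adjoin_le_adjoin k _))
  intro P hP
  have h1 := (hsame P).2 hP
  rw [hFR, map_eq_zero_iff _ hFinj] at h1
  have h2 := hmap φ' ψ' P
  rw [h1, map_zero] at h2
  rw [h2]
  congr 2
  funext j
  cases j with
  | inl j => exact (hφ j).symm
  | inr j => exact (hψ j).symm

/-- (9.2) -/
theorem sameRel_swap [IsAlgClosed k] {a b : J → E} (h : SameRel k a b)
    (ha : (Set.range a).Finite) (htr : trd k (Sum.elim a b) = trd k a + trd k b) :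
    SameRel k (Sum.elim a b) (Sum.elim b a) := by
  refine Incl.sameRel_of (f7_incl h ha htr) (f7_incl h.symm (F4_finite h.incl ha) ?_)
  rw [add_comm, ← htr]
  apply trd_congr_range
  rw [Set.Sum.elim_range, Set.Sum.elim_range, Set.union_comm]

/-- (9.3) -/
theorem exists_second_copy [IsAlgClosed k] {Ω : Type} [Field Ω] [Algebra k Ω] [IsAlgClosed Ω]
    (hΩ : Cardinal.aleph0 ≤ Algebra.trdeg k Ω) (x : J → Ω) (hx : (Set.range x).Finite)
    (i₀ i₁ : J' → J) (h : SameRel k (x ∘ i₀) (x ∘ i₁))
    (htr : trd k (Sum.elim (x ∘ i₀) (x ∘ i₁)) = trd k (x ∘ i₀) + trd k (x ∘ i₁)) :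
    ∃ x2 : J → Ω, SameRel k x x2 ∧ x2 ∘ i₀ = x ∘ i₁ ∧ x2 ∘ i₁ = x ∘ i₀ ∧
      trd k (Sum.elim x x2) + 2 * trd k (x ∘ i₀) = 2 * trd k x := by
  have h0 : (Set.range (x ∘ i₀)).Finite := hx.subset (Set.range_comp_subset_range _ _)
  have hs := sameRel_swap h h0 htr
  have he : Sum.elim (x ∘ i₁) (x ∘ i₀) = x ∘ Sum.elim i₁ i₀ := by
    funext j; cases j <;> rfl
  rw [he] at hs
  obtain ⟨c', h1, h2⟩ := exists_free_ext hΩ x (Sum.elim (x ∘ i₀) (x ∘ i₁)) x (Sum.elim i₁ i₀) hx hx hs
  refine ⟨c', h1.comp Sum.inr, ?_, ?_, ?_⟩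
  · funext j
    exact (h1.incl.eq_of_eq (i := Sum.inr (i₀ j)) (j := Sum.inl (Sum.inl j)) rfl)
  · funext j
    exact (h1.incl.eq_of_eq (i := Sum.inr (i₁ j)) (j := Sum.inl (Sum.inr j)) rfl)
  · have h3 : trd k (Sum.elim (Sum.elim (x ∘ i₀) (x ∘ i₁)) x) = trd k x := by
      apply trd_congr_range
      rw [Set.Sum.elim_range, Set.Sum.elim_range]
      apply Set.union_eq_self_of_subset_left
      exact Set.union_subset (Set.range_comp_subset_range _ _) (Set.range_comp_subset_range _ _)
    rw [h3, htr, ← h.trd_eq] at h2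
    omega

end Pool.Agent.ORG
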