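import Pool.Agent.ORG.Defs
import Pool.Agent.ORG.F1
import Pool.Agent.ORG.F2

/-!
# MP_08a057_al, ORG module F8 : transport of fullness along SameRel
(paper: /team-store/ORG_paper.md)
-/

set_option autoImplicit false

namespace Pool.Agent.ORG

open MvPolynomial

variable {k : Type} [Field k] {J J' J'' I E E' E'' : Type} [Field E] [Algebra k E] [Field E']
  [Algebra k E'] [Field E''] [Algebra k E'']

theorem f8_mem (b : J → E) (j : J) : b j ∈ fld k b :=
  IntermediateField.subset_adjoin k _ ⟨j, rfl⟩

/-- the family as a family of elements of the generated field -/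
noncomputable def f8_fam (k : Type) [Field k] {J E : Type} [Field E] [Algebra k E] (b : J → E) :
    J → fld k b := fun j => ⟨b j, f8_mem b j⟩

theorem f8_aeval (b : J → E) (P : MvPolynomial J k) :
    algebraMap (fld k b) E (aeval (f8_fam k b) P) = aeval b P :=
  (MvPolynomial.aeval_algebraMap_apply E (f8_fam k b) P).symm

theorem f8_comb [Fintype J] (b ξ : J → E) (Q : MvPolynomial J k) :
    Finsupp.linearCombination E ξ (dvec k b Q) = ∑ j, aeval b (pderiv j Q) * ξ j := by
  rw [Finsupp.linearCombination_apply, Finsupp.sum_fintype _ _ (fun i => by rw [zero_smul])]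
  refine Finset.sum_congr rfl fun j _ => ?_
  rw [dvec_apply, smul_eq_mul]

/-- the tangent conditions of a subfamily -/
theorem f8_sub (b ξ : J → E) (e : J' → J) :
    IsTan k (b ∘ e) (ξ ∘ e) ↔ ∀ P : MvPolynomial J' k, aeval (b ∘ e) P = 0 →
      Finsupp.linearCombination E ξ (dvec k b (rename e P)) = 0 := by
  refine forall_congr' fun P => imp_congr_right fun _ => ?_
  rw [dvec_rename, Finsupp.linearCombination_mapDomain]

/-- if all vectors satisfying the tangent conditions of the subfamilies `b ∘ e l` are tangent, the
same holds for every family with the same relations -/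
theorem full_transport [Finite J] {Λ : Type} {Jl : Λ → Type} (e : ∀ l, Jl l → J) {b : J → E}
    {b' : J → E'} (h : SameRel k b b')
    (hf : ∀ ξ : J → E, (∀ l, IsTan k (b ∘ e l) (ξ ∘ e l)) → IsTan k b ξ) :
    ∀ ξ : J → E', (∀ l, IsTan k (b' ∘ e l) (ξ ∘ e l)) → IsTan k b' ξ := by
  classical
  have hfin : Fintype J := Fintype.ofFinite J
  obtain ⟨φ, hφ⟩ := h.exists_equiv
  have hφP : ∀ P : MvPolynomial J k, φ (aeval (f8_fam k b) P) = aeval (f8_fam k b') P := by
    intro P
    have h1 : φ (aeval (f8_fam k b) P) = aeval (fun j => φ (f8_fam k b j)) P :=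
      MvPolynomial.comp_aeval_apply (f8_fam k b) (φ : fld k b →ₐ[k] fld k b') P
    rw [h1]
    congr 2
    funext j
    exact Subtype.ext (hφ j (f8_mem b j))
  -- the vectors of derivatives with coefficients in the generated field
  let w : MvPolynomial J k → (J → fld k b) := fun Q j => aeval (f8_fam k b) (pderiv j Q)
  let S : Set (J → fld k b) := {v | ∃ l, ∃ P : MvPolynomial (Jl l) k,
    aeval (b ∘ e l) P = 0 ∧ v = w (rename (e l) P)}
  have hspan : ∀ Q : MvPolynomial J k, aeval b Q = 0 → w Q ∈ Submodule.span (fld k b) S := by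
    intro Q hQ
    by_contra hn
    obtain ⟨f, hf1, hf2⟩ := Submodule.exists_le_ker_of_notMem hn
    have hval : ∀ v : J → fld k b, (f v : E) =
        ∑ j, (v j : E) * ((f (Pi.single j 1) : fld k b) : E) := by
      intro v
      have h1 : v = ∑ j, v j • (Pi.single j 1 : J → fld k b) := by
        funext i
        simp [Finset.sum_apply, Pi.single_apply]
      conv_lhs => rw [h1]
      rw [map_sum]
      push_cast
      refine Finset.sum_congr rfl fun j _ => ?_
      rw [map_smul, smul_eq_mul]
      push_cast
      rfl
    have htan := hf (fun j => ((f (Pi.single j 1) : fld k b) : E)) (fun l => by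
      rw [f8_sub]
      intro P hP
      rw [f8_comb]
      have h2 : w (rename (e l) P) ∈ LinearMap.ker f :=
        hf2 (Submodule.subset_span ⟨l, P, hP, rfl⟩)
      rw [LinearMap.mem_ker] at h2
      have h3 := hval (w (rename (e l) P))
      rw [h2] at h3
      refine Eq.trans (Finset.sum_congr rfl fun j _ => ?_) h3.symm
      rw [← f8_aeval]
      rfl)
    have h4 := htan Q hQ
    rw [f8_comb] at h4
    apply hf1
    apply Subtype.ext
    rw [hval]
    refine Eq.trans (Finset.sum_congr rfl fun j _ => ?_) h4
    rw [← f8_aeval]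
    rfl
  intro ξ hξ Q hQ
  have hspan' : ∀ v ∈ Submodule.span (fld k b) S, ∑ j, ((φ (v j) : fld k b') : E') * ξ j = 0 := by
    intro v hv
    induction hv using Submodule.span_induction with
    | mem v hv =>
      obtain ⟨l, P, hP, rfl⟩ := hv
      have h1 := hξ l
      rw [f8_sub] at h1
      have h2 := h1 P (((h.comp (e l)) P).1 hP)
      rw [f8_comb] at h2
      refine Eq.trans (Finset.sum_congr rfl fun j _ => ?_) h2
      rw [← f8_aeval]
      show ((φ (aeval (f8_fam k b) (pderiv j (rename (e l) P))) : fld k b') : E') * ξ j = _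
      rw [hφP]
      rfl
    | zero => simp
    | add u v _ _ hu hv =>
      have : ∀ j, ((φ ((u + v) j) : fld k b') : E') * ξ j =
          ((φ (u j) : fld k b') : E') * ξ j + ((φ (v j) : fld k b') : E') * ξ j := by
        intro j
        rw [Pi.add_apply, map_add]
        push_cast
        ring
      rw [Finset.sum_congr rfl fun j _ => this j, Finset.sum_add_distrib, hu, hv, add_zero]
    | smul c v _ hv =>
      have : ∀ j, ((φ ((c • v) j) : fld k b') : E') * ξ j =
          ((φ c : fld k b') : E') * (((φ (v j) : fld k b') : E') * ξ j) := by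
        intro j
        rw [Pi.smul_apply, smul_eq_mul, map_mul]
        push_cast
        ring
      rw [Finset.sum_congr rfl fun j _ => this j, ← Finset.mul_sum, hv, mul_zero]
  have h5 := hspan' _ (hspan Q ((h Q).2 hQ))
  rw [f8_comb]
  refine Eq.trans (Finset.sum_congr rfl fun j _ => ?_) h5
  rw [← f8_aeval]
  show _ = ((φ (aeval (f8_fam k b) (pderiv j Q)) : fld k b') : E') * ξ j
  rw [hφP]
  rfl

end Pool.Agent.ORG
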