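import Mathlib

set_option autoImplicit false

namespace Pool.Agent.ORG

/-- the abelianization of a one-relator group -/
theorem fin_ab {n : ℕ} (r : FreeGroup (Fin n)) :
    ∃ (b : ℕ) (Δ : Type) (_ : AddCommGroup Δ) (_ : Finite Δ)
      (P : FreeGroup (Fin n) →* Multiplicative ((Fin b → ℤ) × Δ)), Function.Surjective P ∧
      P r = 1 ∧
      (∀ w, P w = 1 ↔ PresentedGroup.mk ({r} : Set (FreeGroup (Fin n))) w ∈
        commutator (PresentedGroup ({r} : Set (FreeGroup (Fin n))))) ∧
      Module.finrank ℤ (Additive (Abelianization (PresentedGroup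
        ({r} : Set (FreeGroup (Fin n)))))) = b := by
  classical
  have hG : Group.FG (PresentedGroup ({r} : Set (FreeGroup (Fin n)))) :=
    Group.fg_of_surjective (f := PresentedGroup.mk _) (PresentedGroup.mk_surjective _)
  have hA : Group.FG (Abelianization (PresentedGroup ({r} : Set (FreeGroup (Fin n))))) :=
    Group.fg_of_surjective (f := Abelianization.of) (QuotientGroup.mk_surjective)
  have hB : AddGroup.FG (Additive (Abelianization (PresentedGroup
      ({r} : Set (FreeGroup (Fin n)))))) := inferInstance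
  obtain ⟨b, ι, fι, p, hp, e, ⟨f⟩⟩ := AddCommGroup.equiv_free_prod_directSum_zmod
    (Additive (Abelianization (PresentedGroup ({r} : Set (FreeGroup (Fin n))))))
  have hΔ : Finite (DirectSum ι fun i => ZMod (p i ^ e i)) := by
    have : ∀ i, Finite (ZMod (p i ^ e i)) := fun i => by
      have : NeZero (p i ^ e i) := ⟨pow_ne_zero _ (hp i).ne_zero⟩
      infer_instance
    exact Finite.of_equiv _ DFinsupp.equivFunOnFintype.symm
  obtain ⟨g⟩ : Nonempty (Additive (Abelianization (PresentedGroup
      ({r} : Set (FreeGroup (Fin n))))) ≃+ (Fin b → ℤ) × DirectSum ι fun i => ZMod (p i ^ e i)) :=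
    ⟨f.trans (AddEquiv.prodCongr (Finsupp.linearEquivFunOnFinite ℤ ℤ (Fin b)).toAddEquiv
      (AddEquiv.refl _))⟩
  refine ⟨b, DirectSum ι fun i => ZMod (p i ^ e i), inferInstance, hΔ,
    (AddMonoidHom.toMultiplicativeRight g.toAddMonoidHom).comp
      (Abelianization.of.comp (PresentedGroup.mk _)), ?_, ?_, ?_, ?_⟩
  · intro y
    obtain ⟨a, ha⟩ := g.surjective (Multiplicative.toAdd y)
    obtain ⟨c, hc⟩ := QuotientGroup.mk_surjective (Additive.toMul a)
    obtain ⟨w, hw⟩ := PresentedGroup.mk_surjective _ c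
    refine ⟨w, ?_⟩
    have h1 : Abelianization.of (PresentedGroup.mk ({r} : Set (FreeGroup (Fin n))) w) =
        Additive.toMul a := by rw [hw]; exact hc
    simp only [MonoidHom.comp_apply, h1]
    exact ha
  · have : PresentedGroup.mk ({r} : Set (FreeGroup (Fin n))) r = 1 :=
      PresentedGroup.one_of_mem rfl
    rw [MonoidHom.comp_apply, MonoidHom.comp_apply, this, map_one, map_one]
  · intro w
    rw [← Abelianization.ker_of, MonoidHom.mem_ker]
    simp only [MonoidHom.comp_apply]
    constructor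
    · intro h
      have h1 : g (Additive.ofMul (Abelianization.of (PresentedGroup.mk
          ({r} : Set (FreeGroup (Fin n))) w))) = 0 := h
      rw [map_eq_zero_iff g g.injective] at h1
      exact h1
    · intro h
      rw [h, map_one]
  · rw [g.toIntLinearEquiv.finrank_eq]
    have hfin : Module.Finite ℤ (DirectSum ι fun i => ZMod (p i ^ e i)) :=
      Module.Finite.of_finite
    have h1 := (LinearMap.ker (LinearMap.fst ℤ (Fin b → ℤ)
      (DirectSum ι fun i => ZMod (p i ^ e i)))).finrank_quotient_add_finrank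
    have h0 := (LinearMap.quotKerEquivOfSurjective (LinearMap.fst ℤ (Fin b → ℤ)
      (DirectSum ι fun i => ZMod (p i ^ e i))) LinearMap.fst_surjective).finrank_eq
    have h2 : Module.finrank ℤ (LinearMap.ker (LinearMap.fst ℤ (Fin b → ℤ)
        (DirectSum ι fun i => ZMod (p i ^ e i)))) = 0 := by
      refine (Module.finrank_eq_zero_iff_isTorsion (R := ℤ) (M := LinearMap.ker
        (LinearMap.fst ℤ (Fin b → ℤ) (DirectSum ι fun i => ZMod (p i ^ e i))))).mpr ?_
      rintro ⟨⟨x, y⟩, hx⟩
      have hx' : x = 0 := hx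
      subst hx'
      refine ⟨⟨(Nat.card (DirectSum ι fun i => ZMod (p i ^ e i)) : ℤ), ?_⟩, ?_⟩
      · rw [mem_nonZeroDivisors_iff_ne_zero]
        exact_mod_cast Nat.card_pos.ne'
      · apply Subtype.ext
        apply Prod.ext
        · simp
        · show (Nat.card (DirectSum ι fun i => ZMod (p i ^ e i)) : ℤ) • y = 0
          rw [natCast_zsmul]
          exact card_nsmul_eq_zero'
    rw [h2, h0, Module.finrank_fin_fun] at h1
    omega

/-- finitely generated abelian groups are residually finite -/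
theorem fin_rfab {b : ℕ} {Δ : Type} [AddCommGroup Δ] [Finite Δ] (d : (Fin b → ℤ) × Δ)
    (hd : d ≠ 0) : ∃ H : AddSubgroup ((Fin b → ℤ) × Δ), H.FiniteIndex ∧ d ∉ H := by
  by_cases h2 : d.2 = 0
  · have h1 : d.1 ≠ 0 := fun h => hd (Prod.ext h h2)
    obtain ⟨i, hi⟩ : ∃ i, d.1 i ≠ 0 := by
      by_contra hcon
      push Not at hcon
      exact h1 (funext hcon)
    let N : ℕ := (d.1 i).natAbs + 1
    let φ : (Fin b → ℤ) × Δ →+ ZMod N :=
      ((Int.castAddHom (ZMod N)).comp (Pi.evalAddMonoidHom (fun _ : Fin b => ℤ) i)).comp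
        (AddMonoidHom.fst _ _)
    refine ⟨φ.ker, inferInstance, ?_⟩
    intro hmem
    have h3 : ((d.1 i : ℤ) : ZMod N) = 0 := hmem
    rw [ZMod.intCast_zmod_eq_zero_iff_dvd] at h3
    have h4 := Int.eq_zero_of_abs_lt_dvd h3 (by
      rw [Int.abs_eq_natAbs]
      simp [N])
    exact hi h4
  · refine ⟨(AddMonoidHom.snd (Fin b → ℤ) Δ).ker, inferInstance, ?_⟩
    intro hmem
    exact h2 hmem

end Pool.Agent.ORG
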