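import Pool.Agent.ORG.Rep

/-!
# MP_08a057_al, ORG paper section 12.2 : definitions
-/

set_option autoImplicit false

namespace Pool.Agent.ORG

/-- output of the top level construction (paper (12.0)) -/
def TopOut (k Ω : Type) {Γ₀ I : Type} [Field k] [Field Ω] [Algebra k Ω] [AddCommGroup Γ₀]
    (Z : Sys k (Γ₀ × ℤ) I) (V : Set (Γ₀ × ℤ)) (G : ℕ) : Prop :=
  ∃ (Γ' : AddSubgroup Γ₀) (M : ℕ) (x : (Γ₀ × ℤ) × I → Ω), Γ'.FiniteIndex ∧ G < M ∧
    (∀ γ ∈ Γ', ∀ v : (Γ₀ × ℤ) × I, x ((γ + v.1.1, v.1.2), v.2) = x v) ∧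
    (∀ γ : Γ₀ × ℤ, tr γ V ⊆ lev 0 ((M : ℤ) + G) → Z.Gen x (tr γ V)) ∧
    SameRel k (res x (lev 0 (G : ℤ)))
      (fun v : Ix I (lev 0 (G : ℤ) : Set (Γ₀ × ℤ)) => x ((v.1.1.1, v.1.1.2 + M), v.1.2))

section

variable {X D : Type} [AddCommGroup D]

/-- the transport of `w` at `v` depends only on the letters at `v + s`, `s ∈ S` -/
def Dep (P : FreeGroup X →* Multiplicative D) (w : FreeGroup X) (S : Finset D) : Prop :=
  ∀ (G : Type) [Group G] (u u' : D → X → G) (v : D),
    (∀ s ∈ S, ∀ x, u (v + s) x = u' (v + s) x) → U P u w v = U P u' w v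

theorem exists_dep (P : FreeGroup X →* Multiplicative D) (w : FreeGroup X) :
    ∃ S : Finset D, Dep P w S := by
  obtain ⟨S, hS⟩ := U_dep P w
  exact ⟨S, fun G _ u u' v h => hS G u u' v h⟩

theorem Dep.mono {P : FreeGroup X →* Multiplicative D} {w : FreeGroup X} {S T : Finset D}
    (h : Dep P w S) (hST : S ⊆ T) : Dep P w T :=
  fun G _ u u' v hu => h G u u' v fun s hs x => hu s (hST hs) x

/-- change of the base group -/
theorem U_quot {D' G : Type} [AddCommGroup D'] [Group G] (π : D →+ D')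
    (P : FreeGroup X →* Multiplicative D) (u' : D' → X → G) (w : FreeGroup X) (v : D) :
    U P (fun v x => u' (π v) x) w v =
      U ((AddMonoidHom.toMultiplicative π).comp P) u' w (π v) := by
  induction w using FreeGroup.induction_on generalizing v with
  | C1 => rw [U_one, U_one]
  | of x => rw [U_of, U_of]
  | inv_of x ih =>
    rw [U_inv, U_inv, ih]
    congr 2
    simp
  | mul a b ha hb =>
    rw [U_mul, U_mul, ha, hb]
    congr 2
    simp

end

end Pool.Agent.ORG
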