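import Pool.Agent.ORG.FinDefs

set_option autoImplicit false

namespace Pool.Agent.ORG

section Frob

variable (p : ℕ) [Fact p.Prime] (s : ℕ)

/-- the automorphism `x ↦ x ^ (p ^ s)` of the algebraic closure of `𝔽_p` -/
noncomputable def frb : RingAut (AlgebraicClosure (ZMod p)) :=
  iterateFrobeniusEquiv (AlgebraicClosure (ZMod p)) p s

theorem frb_apply (x : AlgebraicClosure (ZMod p)) : frb p s x = x ^ (p ^ s) :=
  iterateFrobeniusEquiv_def _ _ _ _

theorem frb_pow_apply (n : ℕ) (x : AlgebraicClosure (ZMod p)) :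
    (frb p s ^ n) x = x ^ (p ^ (s * n)) := by
  induction n generalizing x with
  | zero => simp
  | succ n ih =>
    rw [pow_succ, RingAut.mul_apply, ih, frb_apply, ← pow_mul, ← pow_add, Nat.mul_succ, Nat.add_comm]

/-- its powers on matrices -/
noncomputable def frbM (j : ℤ) :
    GL2 (AlgebraicClosure (ZMod p)) →* GL2 (AlgebraicClosure (ZMod p)) :=
  Matrix.GeneralLinearGroup.map ((frb p s ^ j : RingAut (AlgebraicClosure (ZMod p))) :
    AlgebraicClosure (ZMod p) →+* AlgebraicClosure (ZMod p))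

theorem frbM_apply (j : ℤ) (g : GL2 (AlgebraicClosure (ZMod p))) (a b : Fin 2) :
    (frbM p s j g).1 a b = (frb p s ^ j) (g.1 a b) := rfl

theorem gl_ext {A : Type} [CommRing A] {g h : GL2 A} (H : ∀ a b, g.1 a b = h.1 a b) : g = h := by
  apply Units.ext
  ext a b
  exact H a b

theorem frbM_zero (g : GL2 (AlgebraicClosure (ZMod p))) : frbM p s 0 g = g := by
  apply gl_ext
  intro a b
  rw [frbM_apply, zpow_zero]
  rfl

theorem frbM_add (i j : ℤ) (g : GL2 (AlgebraicClosure (ZMod p))) :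
    frbM p s (i + j) g = frbM p s i (frbM p s j g) := by
  apply gl_ext
  intro a b
  rw [frbM_apply, frbM_apply, frbM_apply, zpow_add, RingAut.mul_apply]

theorem frbM_one_apply (g : GL2 (AlgebraicClosure (ZMod p))) (a b : Fin 2) :
    (frbM p s 1 g).1 a b = (g.1 a b) ^ (p ^ s) := by
  rw [frbM_apply, zpow_one, frb_apply]

theorem frb_zpow_fix {n : ℕ} {x : AlgebraicClosure (ZMod p)} (h : (frb p s ^ n) x = x) (c : ℤ) :
    (frb p s ^ ((n : ℤ) * c)) x = x := by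
  have h1 : frb p s ^ n ∈ MulAction.stabilizer (RingAut (AlgebraicClosure (ZMod p))) x := h
  have h2 := Subgroup.zpow_mem _ h1 c
  rw [← zpow_natCast, ← zpow_mul] at h2
  exact h2

theorem exists_pow_fix (x : AlgebraicClosure (ZMod p)) : ∃ m : ℕ, 0 < m ∧ x ^ (p ^ m) = x := by
  have hx : IsIntegral (ZMod p) x := Algebra.IsIntegral.isIntegral x
  have := IntermediateField.adjoin.finiteDimensional hx
  have hF : Finite (IntermediateField.adjoin (ZMod p) {x}) := Module.finite_of_finite (ZMod p)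
  have := Fintype.ofFinite (IntermediateField.adjoin (ZMod p) {x})
  obtain ⟨n, -, hn⟩ := FiniteField.card (IntermediateField.adjoin (ZMod p) {x}) p
  refine ⟨n, n.2, ?_⟩
  have h1 := FiniteField.pow_card
    (⟨x, IntermediateField.mem_adjoin_simple_self (ZMod p) x⟩ : IntermediateField.adjoin (ZMod p) {x})
  rw [hn] at h1
  exact congrArg Subtype.val h1

theorem pow_fix_mul {x : AlgebraicClosure (ZMod p)} {m : ℕ} (h : x ^ (p ^ m) = x) (c : ℕ) :
    x ^ (p ^ (m * c)) = x := by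
  induction c with
  | zero => simp
  | succ c ih => rw [Nat.mul_succ, pow_add, pow_mul, ih, h]

theorem exists_frb_fix {ι : Type} [Finite ι] (f : ι → AlgebraicClosure (ZMod p)) :
    ∃ n : ℕ, 0 < n ∧ ∀ i, (frb p s ^ n) (f i) = f i := by
  have := Fintype.ofFinite ι
  choose m hm hm' using exists_pow_fix p
  refine ⟨∏ i, m (f i), Finset.prod_pos fun i _ => hm _, fun i => ?_⟩
  rw [frb_pow_apply]
  obtain ⟨c, hc⟩ := Finset.dvd_prod_of_mem (fun i => m (f i)) (Finset.mem_univ i)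
  rw [hc, show s * (m (f i) * c) = m (f i) * (s * c) by ring]
  exact pow_fix_mul p (hm' _) _

end Frob

section Ext

variable {p : ℕ} [Fact p.Prime] {X Γ₀ Δ : Type}

/-- the extension to all levels -/
noncomputable def extF (s M : ℕ) (u : ((Γ₀ × ℤ) × Δ) → X → GL2 (AlgebraicClosure (ZMod p))) :
    ((Γ₀ × ℤ) × Δ) → X → GL2 (AlgebraicClosure (ZMod p)) :=
  fun v x => frbM p s (v.1.2 / M) (u ((v.1.1, v.1.2 % M), v.2) x)

theorem extF_eq {M G s : ℕ} (hGM : G < M)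
    {u : ((Γ₀ × ℤ) × Δ) → X → GL2 (AlgebraicClosure (ZMod p))}
    (hfrob : ∀ v : (Γ₀ × ℤ) × Δ, 0 ≤ v.1.2 → v.1.2 ≤ G → ∀ (j : X) (a b : Fin 2),
        (u ((v.1.1, v.1.2 + M), v.2) j).1 a b = ((u v j).1 a b) ^ (p ^ s))
    (γ : Γ₀) (δ : Δ) (l j : ℤ) (x : X) (h0 : 0 ≤ l - j * M) (h1 : l - j * M ≤ M + G) :
    extF s M u ((γ, l), δ) x = frbM p s j (u ((γ, l - j * M), δ) x) := by
  have hM : (0 : ℤ) < M := by
    have : 0 < M := by omega
    exact_mod_cast this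
  unfold extF
  by_cases h : l - j * M < M
  · have h2 : l / (M : ℤ) = j ∧ l % (M : ℤ) = l - j * M :=
      (Int.ediv_emod_unique hM).2 ⟨by ring, h0, h⟩
    simp only [h2.1, h2.2]
  · have h2 : l / (M : ℤ) = j + 1 ∧ l % (M : ℤ) = l - j * M - M :=
      (Int.ediv_emod_unique hM).2 ⟨by ring, by omega, by
        have : (G : ℤ) < M := by exact_mod_cast hGM
        omega⟩
    simp only [h2.1, h2.2]
    rw [frbM_add]
    congr 1
    apply gl_ext
    intro a b
    rw [frbM_one_apply, ← hfrob ((γ, l - j * M - M), δ) (by simp only; omega) (by simp only; omega)]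
    simp only [sub_add_cancel]

end Ext

/-- Extension to all levels by the Frobenius: `u'(level jM + t) := Frob^j u(level t)`,
`0 ≤ t < M`, `j ∈ ℤ` (the automorphism `x ↦ x^(p^s)` of the algebraic closure of `𝔽_p`); on the
levels `jM ≤ l ≤ (j+1)M + G` it is `Frob^j` of the translate of `u`. The values of `u` on the levels
`0 ≤ t < M` are finitely many, so fixed by a power `Frob^n`, `n > 0`; `H := Γ' × nMℤ × 0`. -/
theorem fin_frob {p : ℕ} [Fact p.Prime] {X Γ₀ Δ : Type} [Finite X] [AddCommGroup Γ₀]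
    [AddCommGroup Δ] [Finite Δ] (P : FreeGroup X →* Multiplicative ((Γ₀ × ℤ) × Δ))
    (Γ' : AddSubgroup Γ₀) (hfi : Γ'.FiniteIndex) (M G : ℕ) (hGM : G < M) (s : ℕ) (hs : 0 < s)
    (u : ((Γ₀ × ℤ) × Δ) → X → GL2 (AlgebraicClosure (ZMod p)))
    (hper : ∀ γ ∈ Γ', ∀ (v : (Γ₀ × ℤ) × Δ) (j : X), u ((γ + v.1.1, v.1.2), v.2) j = u v j)
    (hfrob : ∀ v : (Γ₀ × ℤ) × Δ, 0 ≤ v.1.2 → v.1.2 ≤ G → ∀ (j : X) (a b : Fin 2),
        (u ((v.1.1, v.1.2 + M), v.2) j).1 a b = ((u v j).1 a b) ^ (p ^ s))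
    (r w : FreeGroup X) (Sr Sw : Finset ((Γ₀ × ℤ) × Δ)) (hSr : Dep P r Sr) (hSw : Dep P w Sw)
    (a : ℤ) (hG : ∀ d ∈ Sr, -a ≤ d.1.2 ∧ d.1.2 ≤ G - a)
    (hr : ∀ v : (Γ₀ × ℤ) × Δ, a ≤ v.1.2 → v.1.2 < M + a → U P u r v = 1)
    (v₀ : (Γ₀ × ℤ) × Δ) (hv₀ : ∀ d ∈ Sw, 0 ≤ v₀.1.2 + d.1.2 ∧ v₀.1.2 + d.1.2 ≤ M + G)
    (hw : U P u w v₀ ≠ 1) :
    ∃ (H : AddSubgroup ((Γ₀ × ℤ) × Δ))
      (u' : ((Γ₀ × ℤ) × Δ) → X → GL2 (AlgebraicClosure (ZMod p))), H.FiniteIndex ∧
      (∀ h ∈ H, ∀ v j, u' (h + v) j = u' v j) ∧ (∀ v, U P u' r v = 1) ∧ U P u' w v₀ ≠ 1 := by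
  have hM : (0 : ℤ) < M := by
    have : 0 < M := by omega
    exact_mod_cast this
  have hM0 : (M : ℤ) ≠ 0 := ne_of_gt hM
  -- a power of the Frobenius fixing all entries on the levels `0 ≤ t < M`
  have : Finite (Γ₀ ⧸ Γ') := AddSubgroup.finite_quotient_of_finiteIndex
  obtain ⟨n, hn, hfix⟩ := exists_frb_fix p s
    (fun i : (Γ₀ ⧸ Γ') × Fin M × Δ × X × Fin 2 × Fin 2 =>
      (u ((i.1.out, (i.2.1 : ℤ)), i.2.2.1) i.2.2.2.1).1 i.2.2.2.2.1 i.2.2.2.2.2)
  have hfix' : ∀ (γ : Γ₀) (t : ℤ) (δ : Δ) (x : X), 0 ≤ t → t < M → ∀ c : ℤ,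
      frbM p s ((n : ℤ) * c) (u ((γ, t), δ) x) = u ((γ, t), δ) x := by
    intro γ t δ x h0 h1 c
    apply gl_ext
    intro a b
    rw [frbM_apply]
    apply frb_zpow_fix
    obtain ⟨t', ht'⟩ := Int.eq_ofNat_of_zero_le h0
    have h2 := hfix ((γ : Γ₀ ⧸ Γ'), ⟨t', by omega⟩, δ, x, a, b)
    obtain ⟨h, hh⟩ := QuotientAddGroup.mk_out_eq_add Γ' γ
    have h3 : u (((γ : Γ₀ ⧸ Γ').out, (t' : ℤ)), δ) x = u ((γ, t), δ) x := by
      rw [hh, add_comm, hper h h.2 ((γ, (t' : ℤ)), δ) x, ht']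
    simp only [h3] at h2
    exact h2
  refine ⟨(Γ'.prod (AddSubgroup.zmultiples ((n : ℤ) * M))).prod ⊥, extF s M u, ?_, ?_, ?_, ?_⟩
  · constructor
    rw [AddSubgroup.index_prod, AddSubgroup.index_prod, Int.index_zmultiples]
    have h1 := hfi.index_ne_zero
    have h2 : ((n : ℤ) * M).natAbs ≠ 0 := by
      rw [Int.natAbs_ne_zero]
      exact mul_ne_zero (by exact_mod_cast hn.ne') hM0
    have h3 : (⊥ : AddSubgroup Δ).index ≠ 0 := AddSubgroup.index_ne_zero_of_finite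
    exact mul_ne_zero (mul_ne_zero h1 h2) h3
  · rintro ⟨⟨γ', l'⟩, δ'⟩ ⟨⟨hγ, c, hc⟩, hδ⟩ ⟨⟨γ, l⟩, δ⟩ x
    have hδ' : δ' = 0 := hδ
    have hc' : l' = n * c * M := by
      have : c • ((n : ℤ) * M) = l' := hc
      rw [← this, smul_eq_mul]
      ring
    subst hδ' hc'
    have h1 : (n * c * M + l) / (M : ℤ) = n * c + l / M := by
      rw [add_comm, Int.add_mul_ediv_right _ _ hM0, add_comm]
    have h2 : (n * c * M + l) % (M : ℤ) = l % M := by
      rw [add_comm, Int.add_mul_emod_self_right]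
    show frbM p s ((n * c * M + l) / (M : ℤ)) (u ((γ' + γ, (n * c * M + l) % (M : ℤ)), 0 + δ) x) =
      frbM p s (l / (M : ℤ)) (u ((γ, l % (M : ℤ)), δ) x)
    rw [h1, h2, zero_add, hper γ' hγ ((γ, l % (M : ℤ)), δ) x, add_comm, frbM_add,
      hfix' γ _ δ x (Int.emod_nonneg _ hM0) (Int.emod_lt_of_pos _ hM) c]
  · intro v
    obtain ⟨⟨γ, l⟩, δ⟩ := v
    have hj0 : 0 ≤ (l - a) - (l - a) / M * M := by
      have := Int.emod_nonneg (l - a) hM0
      rw [Int.emod_def, mul_comm] at this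
      exact this
    have hj1 : (l - a) - (l - a) / M * M < M := by
      have := Int.emod_lt_of_pos (l - a) hM
      rw [Int.emod_def, mul_comm] at this
      exact this
    set j : ℤ := (l - a) / M with hj
    rw [hSr _ (extF s M u) (fun w x => frbM p s j (u (w + ((0, -(j * M)), 0)) x)) ((γ, l), δ)
      (fun d hd x => by
        obtain ⟨⟨γ', l'⟩, δ'⟩ := d
        obtain ⟨h1, h2⟩ := hG _ hd
        simp only at h1 h2
        have h3 := extF_eq hGM hfrob (γ + γ') (δ + δ') (l + l') j x (by omega) (by omega)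
        have h4 : (((γ, l), δ) + ((γ', l'), δ') : (Γ₀ × ℤ) × Δ) = ((γ + γ', l + l'), δ + δ') := rfl
        rw [h4, h3]
        have h5 : (((γ + γ', l + l'), δ + δ') + ((0, -(j * M)), 0) : (Γ₀ × ℤ) × Δ) =
            ((γ + γ', l + l' - j * M), δ + δ') := by
          ext <;> simp [sub_eq_add_neg]
        rw [h5])]
    rw [U_map P (fun w x => u (w + ((0, -(j * M)), 0)) x) (frbM p s j) r ((γ, l), δ),
      U_shift P u ((0, -(j * M)), 0) r ((γ, l), δ),
      hr _ (by simp only [Prod.mk_add_mk]; omega) (by simp only [Prod.mk_add_mk]; omega), map_one]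
  · have h1 : U P (extF s M u) w v₀ = U P u w v₀ := by
      apply hSw
      intro d hd x
      obtain ⟨h1, h2⟩ := hv₀ d hd
      have h3 := extF_eq hGM hfrob (v₀.1.1 + d.1.1) (v₀.2 + d.2) (v₀.1.2 + d.1.2) 0 x
        (by omega) (by omega)
      rw [frbM_zero, zero_mul, sub_zero] at h3
      exact h3
    rw [h1]
    exact hw

end Pool.Agent.ORG
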