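import Pool.Agent.ORG.FinDefs

set_option autoImplicit false

namespace Pool.Agent.ORG

theorem cfg_congr {Γ Δ X A : Type} [CommRing A] {x x' : Γ × LI Δ X → A} {v v' : Γ × Δ} {j : X}
    (h : mat x v j = mat x' v' j) : cfg x v j = cfg x' v' j := by
  unfold cfg
  rw [h]

/-- if a configuration is the image under an injective homomorphism of a configuration `y` at
all the sites on which the transport depends, then the transport is trivial iff that of `y` is -/
theorem U_one_iff_of_map {X Γ Δ : Type} [AddCommGroup Γ] [AddCommGroup Δ]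
    (P : FreeGroup X →* Multiplicative (Γ × Δ)) {L E : Type} [Field L] [Field E] (ψ : L →+* E)
    (y : Γ × LI Δ X → L) (x : Γ × LI Δ X → E) (A : Set Γ)
    (hψ : ∀ v : Γ × LI Δ X, v.1 ∈ A → x v = ψ (y v))
    (hdet : ∀ (v : Γ × Δ) (j : X), v.1 ∈ A → IsUnit (mat y v j).det)
    (w : FreeGroup X) (S : Finset (Γ × Δ)) (hS : Dep P w S) (v : Γ × Δ)
    (hv : ∀ d ∈ S, (v + d).1 ∈ A) :
    U P (cfg x) w v = 1 ↔ U P (cfg y) w v = 1 := by
  have h1 : U P (cfg x) w v =
      U P (fun v j => Matrix.GeneralLinearGroup.map ψ (cfg y v j)) w v := by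
    apply hS
    intro s hs j
    rw [← cfg_map ψ y (v + s) j (hdet _ _ (hv s hs))]
    apply cfg_congr
    ext a b
    exact hψ ((v + s).1, ((v + s).2, j, a, b)) (hv s hs)
  rw [h1, U_map]
  constructor
  · intro h
    have hinj : Function.Injective
        (Matrix.GeneralLinearGroup.map (n := Fin 2) ψ) := by
      intro a b hab
      apply Units.ext
      have h2 : ψ.mapMatrix a.1 = ψ.mapMatrix b.1 := congrArg (fun g : GL2 E => g.1) hab
      ext i j
      have h3 := congrFun (congrFun h2 i) j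
      exact ψ.injective h3
    apply hinj
    rw [h, map_one]
  · intro h
    rw [h, map_one]

/-- Genericity on `A` transports the relations between transports whose window lies over `A`.
Proof: `Z.Gen x A` gives a `k`-algebra isomorphism between the subrings `k[z|A]`, `k[x|A]`
(both are `k[X]/ker`), sending letters to letters, hence between their fraction fields (or: between
the subrings generated also by the inverses of the determinants); apply `U_map` to the
configuration over this ring which is `cfg` over `A` and `1` elsewhere, and `Dep`. -/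
theorem fin_gen {k Ω : Type} [Field k] [Field Ω] [Algebra k Ω] {X Γ Δ : Type} [AddCommGroup Γ]
    [AddCommGroup Δ] (P : FreeGroup X →* Multiplicative (Γ × Δ)) (Z : Sys k Γ (LI Δ X))
    (hdet : ∀ v j, IsUnit (mat Z.z v j).det) (x : Γ × LI Δ X → Ω) (A : Set Γ) (hx : Z.Gen x A) :
    (∀ (v : Γ × Δ) (j : X), v.1 ∈ A → IsUnit (mat x v j).det) ∧
      ∀ (w : FreeGroup X) (S : Finset (Γ × Δ)), Dep P w S → ∀ v : Γ × Δ,
        (∀ d ∈ S, (v + d).1 ∈ A) → (U P (cfg x) w v = 1 ↔ U P (cfg Z.z) w v = 1) := by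
  classical
  let R := MvPolynomial (Ix (LI Δ X) A) k
  let φz : R →ₐ[k] Z.K := MvPolynomial.aeval (res Z.z A)
  let φx : R →ₐ[k] Ω := MvPolynomial.aeval (res x A)
  have hker : ∀ a : R, φz a = 0 ↔ φx a = 0 := hx
  let p : Ideal R := RingHom.ker (φz : R →+* Z.K)
  have hp : p.IsPrime := RingHom.ker_isPrime _
  let gz : R ⧸ p →+* Z.K := Ideal.Quotient.lift p (φz : R →+* Z.K) (fun a ha => ha)
  let gx : R ⧸ p →+* Ω := Ideal.Quotient.lift p (φx : R →+* Ω) (fun a ha => (hker a).1 ha)
  have hgz : Function.Injective gz := by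
    rw [injective_iff_map_eq_zero]
    intro a
    obtain ⟨a, rfl⟩ := Ideal.Quotient.mk_surjective a
    intro h
    rw [Ideal.Quotient.eq_zero_iff_mem]
    exact h
  have hgx : Function.Injective gx := by
    rw [injective_iff_map_eq_zero]
    intro a
    obtain ⟨a, rfl⟩ := Ideal.Quotient.mk_surjective a
    intro h
    rw [Ideal.Quotient.eq_zero_iff_mem]
    exact (hker a).2 h
  let L := FractionRing (R ⧸ p)
  let ψz : L →+* Z.K := IsFractionRing.lift hgz
  let ψx : L →+* Ω := IsFractionRing.lift hgx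
  let y : Γ × LI Δ X → L := fun v =>
    if h : v.1 ∈ A then algebraMap (R ⧸ p) L (Ideal.Quotient.mk p (MvPolynomial.X ⟨v, h⟩)) else 0
  have hyz : ∀ v : Γ × LI Δ X, v.1 ∈ A → Z.z v = ψz (y v) := by
    intro v hv
    have : y v = algebraMap (R ⧸ p) L (Ideal.Quotient.mk p (MvPolynomial.X ⟨v, hv⟩)) := dif_pos hv
    rw [this]
    show _ = IsFractionRing.lift hgz _
    rw [IsFractionRing.lift_algebraMap]
    show _ = φz (MvPolynomial.X ⟨v, hv⟩)
    show _ = MvPolynomial.aeval (res Z.z A) (MvPolynomial.X ⟨v, hv⟩)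
    rw [MvPolynomial.aeval_X]
    rfl
  have hyx : ∀ v : Γ × LI Δ X, v.1 ∈ A → x v = ψx (y v) := by
    intro v hv
    have : y v = algebraMap (R ⧸ p) L (Ideal.Quotient.mk p (MvPolynomial.X ⟨v, hv⟩)) := dif_pos hv
    rw [this]
    show _ = IsFractionRing.lift hgx _
    rw [IsFractionRing.lift_algebraMap]
    show _ = φx (MvPolynomial.X ⟨v, hv⟩)
    show _ = MvPolynomial.aeval (res x A) (MvPolynomial.X ⟨v, hv⟩)
    rw [MvPolynomial.aeval_X]
    rfl
  have hmz : ∀ (v : Γ × Δ) (j : X), v.1 ∈ A → mat Z.z v j = ψz.mapMatrix (mat y v j) := by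
    intro v j hv
    ext a b
    exact hyz (v.1, (v.2, j, a, b)) hv
  have hmx : ∀ (v : Γ × Δ) (j : X), v.1 ∈ A → mat x v j = ψx.mapMatrix (mat y v j) := by
    intro v j hv
    ext a b
    exact hyx (v.1, (v.2, j, a, b)) hv
  have hydet : ∀ (v : Γ × Δ) (j : X), v.1 ∈ A → IsUnit (mat y v j).det := by
    intro v j hv
    rw [isUnit_iff_ne_zero]
    intro h0
    have h1 := hdet v j
    rw [hmz v j hv, ← RingHom.map_det, h0, map_zero] at h1
    exact not_isUnit_zero h1
  refine ⟨?_, ?_⟩
  · intro v j hv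
    rw [hmx v j hv, ← RingHom.map_det]
    exact (hydet v j hv).map ψx
  · intro w S hS v hv
    rw [U_one_iff_of_map P ψx y x A hyx hydet w S hS v hv,
      U_one_iff_of_map P ψz y Z.z A hyz hydet w S hS v hv]

/-- the generic configuration is equivariant -/
theorem fin_eqv {k : Type} [Field k] {X Γ Δ : Type} [AddCommGroup Γ]
    [AddCommGroup Δ] (P : FreeGroup X →* Multiplicative (Γ × Δ)) (Z : Sys k Γ (LI Δ X))
    (hdet : ∀ v j, IsUnit (mat Z.z v j).det) (w : FreeGroup X) (γ : Γ) (v : Γ × Δ) :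
    U P (cfg Z.z) w (γ + v.1, v.2) = 1 ↔ U P (cfg Z.z) w v = 1 := by
  let σ : Z.K →+* Z.K := (Z.α (Multiplicative.ofAdd γ) : Z.K ≃ₐ[k] Z.K)
  have hσ : ∀ u : Γ × LI Δ X, Z.z (γ + u.1, u.2) = σ (Z.z u) := by
    intro u
    show Z.α (Multiplicative.ofAdd (γ + u.1)) (Z.z0 u.2) =
      (Z.α (Multiplicative.ofAdd γ)) (Z.α (Multiplicative.ofAdd u.1) (Z.z0 u.2))
    rw [ofAdd_add, map_mul]
    rfl
  have h0 : ((γ + v.1, v.2) : Γ × Δ) = v + (γ, 0) := by
    ext
    · simp [add_comm]
    · simp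
  have h1 : (fun (v : Γ × Δ) (j : X) => cfg Z.z (v + (γ, 0)) j) =
      fun v j => Matrix.GeneralLinearGroup.map σ (cfg Z.z v j) := by
    funext v j
    rw [← cfg_map σ Z.z v j (hdet v j)]
    apply cfg_congr
    ext a b
    have := hσ (v.1, (v.2, j, a, b))
    show Z.z ((v + (γ, 0)).1, ((v + (γ, 0)).2, j, a, b)) = σ (Z.z (v.1, (v.2, j, a, b)))
    rw [← this]
    simp [add_comm]
  rw [h0, ← U_shift P (cfg Z.z) (γ, 0) w v, h1, U_map]
  constructor
  · intro h
    have hinj : Function.Injective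
        (Matrix.GeneralLinearGroup.map (n := Fin 2) σ) := by
      intro a b hab
      apply Units.ext
      have h2 : σ.mapMatrix a.1 = σ.mapMatrix b.1 := congrArg (fun g : GL2 Z.K => g.1) hab
      ext i j
      have h3 := congrFun (congrFun h2 i) j
      exact σ.injective h3
    apply hinj
    rw [h, map_one]
  · intro h
    rw [h, map_one]

end Pool.Agent.ORG
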