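import Pool.Agent.ORG.FinRep
import Pool.Agent.ORG.FinAb
import Pool.Agent.LFZ.OneRel

set_option autoImplicit false

namespace Pool.Agent.ORG

/-- the statement of `rep_system` (section 11) -/
def RepStmt (k : Type) [Field k] : Prop :=
  ∀ {X Δ : Type} [Finite X] [Finite Δ] [AddCommGroup Δ] {b : ℕ} (r : FreeGroup X) (_ : r ≠ 1)
    (p : FreeGroup X →* Multiplicative ((Fin b → ℤ) × Δ)) (_ : Function.Surjective p)
    (hpr : Lyn.NC r ≤ p.ker)
    (_ : ∀ H : Subgroup (QuotientGroup.lift (Lyn.NC r) p hpr).ker, H.FG → IsFreeGroup H),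
    ∃ Z : Sys k (Fin b → ℤ) (LI Δ X), (∀ y, y ∈ fld k Z.z) ∧
      (∀ v j, IsUnit (mat Z.z v j).det) ∧ (∀ v, U p (cfg Z.z) r v = 1) ∧
      (∀ w, p w = 1 → w ∉ Lyn.NC r → U p (cfg Z.z) w 0 ≠ 1) ∧
      ∃ F0 : Finset (Fin b → ℤ), 0 ∉ F0 ∧ ∀ (Γ0 : Type) [AddCommGroup Γ0]
        (e : (Fin b → ℤ) ≃+ Γ0 × ℤ), (∀ u ∈ F0, (e u).2 ≠ 0) → ∀ a c, (Z.map e).PProj a c

/-- the statement of the top level theorem (sections 5 - 10) -/
def TopStmt (k Ω : Type) [Field k] [Field Ω] [Algebra k Ω] : Prop :=
  ∀ {I : Type} [Finite I] {m : ℕ} (Z : Sys k (Fin (m + 1) → ℤ) I) (_ : ∀ y, y ∈ fld k Z.z)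
    (F0 : Finset (Fin (m + 1) → ℤ)) (_ : (0 : Fin (m + 1) → ℤ) ∉ F0)
    (_ : ∀ (Γ0 : Type) [AddCommGroup Γ0] (e : (Fin (m + 1) → ℤ) ≃+ Γ0 × ℤ),
      (∀ u ∈ F0, (e u).2 ≠ 0) → ∀ a c, (Z.map e).PProj a c),
    ∃ e : (Fin (m + 1) → ℤ) ≃+ (Fin m → ℤ) × ℤ, ∀ (V : Set ((Fin m → ℤ) × ℤ)) (G : ℕ),
      V.Finite → TopOut k Ω (Z.map e) V G

/-- a finite quotient of the free group killing `r` gives a finite quotient of `⟨X | r⟩` -/
theorem fin_main_down {n : ℕ} (r w : FreeGroup (Fin n)) (N₀ : Subgroup (FreeGroup (Fin n)))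
    (hN : N₀.Normal) (hi : N₀.index ≠ 0) (hr : r ∈ N₀) (hw : w ∉ N₀) :
    ∃ N : Subgroup (PresentedGroup ({r} : Set (FreeGroup (Fin n)))),
      N.Normal ∧ N.index ≠ 0 ∧ PresentedGroup.mk {r} w ∉ N := by
  have hle : (PresentedGroup.mk ({r} : Set (FreeGroup (Fin n)))).ker ≤ N₀ := by
    have h1 : (PresentedGroup.mk ({r} : Set (FreeGroup (Fin n)))).ker =
        Subgroup.normalClosure {r} := QuotientGroup.ker_mk' _
    rw [h1]
    exact Subgroup.normalClosure_le_normal (by simpa using hr)
  have hsurj := PresentedGroup.mk_surjective ({r} : Set (FreeGroup (Fin n)))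
  refine ⟨N₀.map (PresentedGroup.mk {r}), hN.map _ hsurj, ?_, ?_⟩
  · rw [Subgroup.index_map_eq N₀ hsurj hle]
    exact hi
  · rintro ⟨y, hy, hyw⟩
    apply hw
    have h2 : y⁻¹ * w ∈ (PresentedGroup.mk ({r} : Set (FreeGroup (Fin n)))).ker := by
      rw [MonoidHom.mem_ker, map_mul, map_inv, hyw, inv_mul_cancel]
    have h3 := N₀.mul_mem hy (hle h2)
    rwa [mul_inv_cancel_left] at h3

/-- `(Z.map e).z` -/
theorem fin_main_cfg {k Γ Γ' Δ X : Type} [Field k] [AddCommGroup Γ] [AddCommGroup Γ']
    (Z : Sys k Γ (LI Δ X)) (e : Γ ≃+ Γ') (v : Γ × Δ) (j : X) :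
    mat (Z.map e).z (e v.1, v.2) j = mat Z.z v j := by
  ext a b
  show (Z.map e).z (e v.1, (v.2, j, a, b)) = Z.z (v.1, (v.2, j, a, b))
  unfold Sys.z Sys.map
  simp

/-- the final theorem from `rep_system` and the top level theorem -/
theorem fin_main {Ω : Type} [Field Ω] [Algebra (AlgebraicClosure ℚ) Ω]
    (hrep : RepStmt (AlgebraicClosure ℚ)) (htop : TopStmt (AlgebraicClosure ℚ) Ω)
    (n : ℕ) (r : FreeGroup (Fin n))
    (hL : ∀ H : Subgroup (PresentedGroup ({r} : Set (FreeGroup (Fin n)))),
      H ≤ commutator (PresentedGroup ({r} : Set (FreeGroup (Fin n)))) → H.FG → IsFreeGroup H)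
    (g : PresentedGroup ({r} : Set (FreeGroup (Fin n)))) (hg : g ≠ 1) :
    ∃ N : Subgroup (PresentedGroup ({r} : Set (FreeGroup (Fin n)))),
      N.Normal ∧ N.index ≠ 0 ∧ g ∉ N := by
  by_cases hr1 : r = 1
  · -- the free group
    have h0 : Subgroup.normalClosure ({r} : Set (FreeGroup (Fin n))) = ⊥ := by
      rw [eq_bot_iff]
      refine Subgroup.normalClosure_le_normal ?_
      simp [hr1]
    have h1 : LFZ.RF (FreeGroup (Fin n)) := LFZ.rf_freeGroup LFZ.rf_of_fp n
    have E : FreeGroup (Fin n) ≃* PresentedGroup ({r} : Set (FreeGroup (Fin n))) :=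
      ((QuotientGroup.quotientMulEquivOfEq h0).trans QuotientGroup.quotientBot).symm
    exact LFZ.RF.of_mulEquiv E h1 g hg
  · obtain ⟨b, Δ, _, _, P, hPs, hPr, hPw, hb⟩ := fin_ab r
    by_cases hb1 : b ≤ 1
    · exact LFZ.rf_of_rank_le_one {r} (Set.finite_singleton r) hL (hb.trans_le hb1) g hg
    · obtain ⟨m, rfl⟩ : ∃ m, b = m + 1 := ⟨b - 1, by omega⟩
      obtain ⟨w, rfl⟩ := PresentedGroup.mk_surjective ({r} : Set (FreeGroup (Fin n))) g
      by_cases hw : P w = 1
      · have hwN : w ∉ Lyn.NC r := by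
          intro h
          apply hg
          have h1 : w ∈ (PresentedGroup.mk ({r} : Set (FreeGroup (Fin n)))).ker := by
            have h2 : (PresentedGroup.mk ({r} : Set (FreeGroup (Fin n)))).ker =
              Subgroup.normalClosure {r} := QuotientGroup.ker_mk' _
            rw [h2]
            exact h
          exact h1
        have hpr : Lyn.NC r ≤ P.ker := by
          refine Subgroup.normalClosure_le_normal ?_
          intro y hy
          rw [Set.mem_singleton_iff] at hy
          rw [hy]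
          exact hPr
        have hker : ∀ y : FreeGroup (Fin n) ⧸ Lyn.NC r,
            y ∈ (QuotientGroup.lift (Lyn.NC r) P hpr).ker →
            y ∈ commutator (PresentedGroup ({r} : Set (FreeGroup (Fin n)))) := by
          intro y hy
          induction y using QuotientGroup.induction_on with
          | H z =>
            have h1 : P z = 1 := hy
            exact (hPw z).1 h1
        have hfree : ∀ H : Subgroup (QuotientGroup.lift (Lyn.NC r) P hpr).ker, H.FG →
            IsFreeGroup H := by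
          intro H hfg
          have hfg' : (H.map (QuotientGroup.lift (Lyn.NC r) P hpr).ker.subtype).FG := by
            rw [← Group.fg_iff_subgroup_fg] at hfg ⊢
            exact Group.fg_of_surjective
              (f := (H.equivMapOfInjective _ (Subgroup.subtype_injective _)).toMonoidHom)
              (H.equivMapOfInjective _ (Subgroup.subtype_injective _)).surjective
          have h1 : IsFreeGroup (H.map (QuotientGroup.lift (Lyn.NC r) P hpr).ker.subtype) := by
            refine hL _ ?_ hfg'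
            rintro _ ⟨y, -, rfl⟩
            exact hker y.1 y.2
          exact IsFreeGroup.ofMulEquiv
            (H.equivMapOfInjective _ (Subgroup.subtype_injective _)).symm
        obtain ⟨Z, hz, hdet, hrU, hwU, F0, h0, hproj⟩ := hrep r hr1 P hPs hpr hfree
        obtain ⟨e, hTop⟩ := htop Z hz F0 h0 hproj
        let π : ((Fin (m + 1) → ℤ) × Δ) →+ (((Fin m → ℤ) × ℤ) × Δ) :=
          (e : (Fin (m + 1) → ℤ) →+ (Fin m → ℤ) × ℤ).prodMap (AddMonoidHom.id Δ)
        have hπ : ∀ v, π v = (e v.1, v.2) := fun v => rfl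
        have hπs : ∀ v : ((Fin m → ℤ) × ℤ) × Δ, ∃ v', π v' = v := by
          intro v
          refine ⟨(e.symm v.1, v.2), ?_⟩
          rw [hπ]
          simp
        have hcfg : (fun v x => cfg (Z.map e).z (π v) x) = cfg Z.z := by
          funext v j
          have h1 : IsUnit (mat Z.z v j).det := hdet v j
          have h2 : mat (Z.map e).z (π v) j = mat Z.z v j := fin_main_cfg Z e v j
          apply Units.ext
          rw [cfg_val _ _ _ h1, cfg_val _ _ _ (by rw [h2]; exact h1), h2]
        have hU : ∀ (y : FreeGroup (Fin n)) (v : (Fin (m + 1) → ℤ) × Δ),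
            U P (cfg Z.z) y v =
              U ((AddMonoidHom.toMultiplicative π).comp P) (cfg (Z.map e).z) y (π v) := by
          intro y v
          rw [← U_quot, hcfg]
          rfl
        obtain ⟨N₀, hN, hi, hrN, hwN₀⟩ := fin_rep (Ω := Ω) ((AddMonoidHom.toMultiplicative π).comp P)
          (Z.map e) (by
            intro v j
            obtain ⟨v', rfl⟩ := hπs v
            have h2 : mat (Z.map e).z (π v') j = mat Z.z v' j := fin_main_cfg Z e v' j
            rw [h2]
            exact hdet v' j) r w (by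
            rw [MonoidHom.comp_apply, hPr, map_one]) (by
            intro v
            obtain ⟨v', rfl⟩ := hπs v
            rw [← hU]
            exact hrU v') (by
            have h2 := hwU w hw hwN
            rw [hU, map_zero] at h2
            exact h2) hTop
        exact fin_main_down r w N₀ hN hi hrN hwN₀
      · -- outside the commutator subgroup
        have hd : (P w).toAdd ≠ 0 := fun h => hw h
        obtain ⟨H, hH, hdH⟩ := fin_rfab (P w).toAdd hd
        refine fin_main_down r w ((AddSubgroup.toSubgroup H).comap P) inferInstance ?_ ?_ ?_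
        · rw [Subgroup.index_comap_of_surjective _ hPs]
          exact hH.index_ne_zero
        · rw [Subgroup.mem_comap, hPr]
          exact one_mem _
        · exact hdH

end Pool.Agent.ORG
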