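import Pool.Agent.ORG.FinDefs

set_option autoImplicit false

namespace Pool.Agent.ORG

/-- finitely many elements of the algebraic closure of `F_p` lie in a finite subfield -/
theorem finQuot_subfield {p : ℕ} [Fact p.Prime] (S : Set (AlgebraicClosure (ZMod p)))
    (hS : S.Finite) :
    ∃ F : IntermediateField (ZMod p) (AlgebraicClosure (ZMod p)), Finite F ∧ S ⊆ F := by
  have : Finite S := hS
  have hfd : FiniteDimensional (ZMod p) (IntermediateField.adjoin (ZMod p) S) :=
    IntermediateField.finiteDimensional_adjoin fun x _ =>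
      Algebra.IsIntegral.isIntegral x
  exact ⟨IntermediateField.adjoin (ZMod p) S, Module.finite_of_finite (ZMod p),
    IntermediateField.subset_adjoin (ZMod p) S⟩

/-- invertible matrices with entries in a subfield -/
theorem finQuot_lift {K L : Type} [Field K] [Field L] (φ : K →+* L) (g : GL2 L)
    (hg : ∀ a b, ∃ c : K, φ c = (g : Matrix (Fin 2) (Fin 2) L) a b) :
    ∃ g' : GL2 K, Matrix.GeneralLinearGroup.map φ g' = g := by
  choose c hc using hg
  have h1 : φ.mapMatrix (Matrix.of c) = (g : Matrix (Fin 2) (Fin 2) L) := by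
    ext a b
    exact hc a b
  have h2 : IsUnit (Matrix.of c).det := by
    rw [isUnit_iff_ne_zero]
    intro h
    have h3 : ((g : Matrix (Fin 2) (Fin 2) L)).det = 0 := by
      rw [← h1, ← RingHom.map_det, h, map_zero]
    have h4 : IsUnit (g : Matrix (Fin 2) (Fin 2) L).det :=
      (Matrix.isUnit_iff_isUnit_det _).1 g.isUnit
    rw [h3] at h4
    exact not_isUnit_zero h4
  refine ⟨Matrix.GeneralLinearGroup.mk'' (Matrix.of c) h2, ?_⟩
  apply Units.ext
  exact h1

theorem finQuot_map_inj {K L : Type} [Field K] [Field L] (φ : K →+* L) :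
    Function.Injective (Matrix.GeneralLinearGroup.map (n := Fin 2) φ) := by
  intro g g' h
  apply Units.ext
  ext a b
  have h1 : φ.mapMatrix (g : Matrix (Fin 2) (Fin 2) K) = φ.mapMatrix (g' : Matrix (Fin 2) (Fin 2) K) :=
    congrArg Units.val h
  exact φ.injective (congrFun (congrFun h1 a) b)

/-- From a periodic representation to a finite quotient. Proof: `u` descends to `D ⧸ H` (finite) and
has finitely many values, in `GL₂` of a finite subfield (`TLW.exists_finite_subfield`); the kernel
of `tp (P mod H) ū : FreeGroup X →* (D ⧸ H → GL₂(F)) ⋊ (D ⧸ H)` (a finite group); `U_quot`, `U_map`. -/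
theorem fin_quot {p : ℕ} [Fact p.Prime] {X D : Type} [Finite X] [AddCommGroup D]
    (P : FreeGroup X →* Multiplicative D) (H : AddSubgroup D) (hfi : H.FiniteIndex)
    (u : D → X → GL2 (AlgebraicClosure (ZMod p))) (hu : ∀ h ∈ H, ∀ v j, u (h + v) j = u v j)
    (r w : FreeGroup X) (hPr : P r = 1) (hr : ∀ v, U P u r v = 1) (v₀ : D)
    (hw : U P u w v₀ ≠ 1) :
    ∃ N : Subgroup (FreeGroup X), N.Normal ∧ N.index ≠ 0 ∧ r ∈ N ∧ w ∉ N := by
  classical
  have : Finite (D ⧸ H) := AddSubgroup.finite_quotient_of_finiteIndex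
  -- the representation modulo `H`
  have hdesc : ∀ v v' : D, (QuotientAddGroup.mk v : D ⧸ H) = QuotientAddGroup.mk v' →
      ∀ j, u v j = u v' j := by
    intro v v' h j
    have h1 : -v + v' ∈ H := QuotientAddGroup.eq.mp h
    have h2 := hu _ h1 v j
    rw [← h2]
    congr 1
    abel
  have hex : ∀ (x : D ⧸ H), ∃ v : D, (QuotientAddGroup.mk v : D ⧸ H) = x :=
    fun x => QuotientAddGroup.mk_surjective x
  choose σ hσ using hex
  -- a finite subfield with all entries
  obtain ⟨F, hF, hS⟩ := finQuot_subfield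
    (Set.range fun t : (D ⧸ H) × X × Fin 2 × Fin 2 =>
      (u (σ t.1) t.2.1 : Matrix (Fin 2) (Fin 2) (AlgebraicClosure (ZMod p))) t.2.2.1 t.2.2.2)
    (Set.finite_range _)
  have hlift : ∀ (x : D ⧸ H) (j : X), ∃ g : GL2 F,
      Matrix.GeneralLinearGroup.map (algebraMap F (AlgebraicClosure (ZMod p))) g = u (σ x) j := by
    intro x j
    apply finQuot_lift
    intro a b
    have h1 := hS ⟨(x, j, a, b), rfl⟩
    exact ⟨⟨_, h1⟩, rfl⟩
  choose u' hu' using hlift
  obtain ⟨π, hπ⟩ : ∃ π : D →+ D ⧸ H, ∀ v, π v = QuotientAddGroup.mk v :=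
    ⟨QuotientAddGroup.mk' H, fun _ => rfl⟩
  have hu2 : u = fun v x => Matrix.GeneralLinearGroup.map
      (algebraMap F (AlgebraicClosure (ZMod p))) (u' (π v) x) := by
    funext v x
    rw [hu', hπ]
    exact hdesc _ _ (hσ _).symm x
  obtain ⟨Pb, hPb⟩ : ∃ Pb, Pb = (AddMonoidHom.toMultiplicative π).comp P := ⟨_, rfl⟩
  have key : ∀ (g : FreeGroup X) (v : D), U P u g v = Matrix.GeneralLinearGroup.map
      (algebraMap F (AlgebraicClosure (ZMod p))) (U Pb u' g (π v)) := by
    intro g v
    rw [hPb, ← U_quot, ← U_map, ← hu2]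
  have hfinGL : Finite (GL2 F) := inferInstance
  have hfin : Finite ((D ⧸ H → GL2 F) ⋊[shf (D ⧸ H) (GL2 F)] Multiplicative (D ⧸ H)) := by
    have : Finite (Multiplicative (D ⧸ H)) := inferInstanceAs (Finite (D ⧸ H))
    exact Finite.of_equiv _ SemidirectProduct.equivProd.symm
  refine ⟨(tp Pb u').ker, inferInstance, ?_, ?_, ?_⟩
  · rw [Subgroup.index_ker]
    have : Finite (tp Pb u').range := inferInstance
    exact Nat.card_pos.ne'
  · rw [MonoidHom.mem_ker]
    apply SemidirectProduct.ext
    · funext x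
      obtain ⟨v, rfl⟩ := QuotientAddGroup.mk_surjective x
      rw [← hπ]
      apply finQuot_map_inj (algebraMap F (AlgebraicClosure (ZMod p)))
      have h1 := key r v
      rw [hr v] at h1
      show Matrix.GeneralLinearGroup.map _ (U Pb u' r (π v)) = _
      rw [← h1]
      exact (map_one _).symm
    · rw [tp_right, hPb, MonoidHom.comp_apply, hPr, map_one]
      rfl
  · intro hmem
    rw [MonoidHom.mem_ker] at hmem
    apply hw
    rw [key w v₀]
    have h1 : U Pb u' w (π v₀) = 1 := by
      unfold U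
      rw [hmem]
      rfl
    rw [h1, map_one]

end Pool.Agent.ORG
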