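import Pool.Agent.ORG.RedDefs
import Pool.Agent.TLW.Fam

set_option autoImplicit false

namespace Pool.Agent.ORG

theorem rcomp_alg {k L : Type} [Field k] [Field L] [Algebra k L] (A : Subalgebra k L) {τ : Type}
    (v : τ → A) (hv : IsTranscendenceBasis k v) (W : Set L) (hW : ∀ t, (v t : L) ∈ W) (s : A) :
    IsAlgebraic (IntermediateField.adjoin k W) (s : L) := by
  have h1 : IsAlgebraic (Algebra.adjoin k (Set.range v)) s := hv.isAlgebraic.1 _
  let K := IntermediateField.adjoin k W
  have hK : ∀ x ∈ Algebra.adjoin k (Set.range v), (x : L) ∈ K := by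
    intro x hx
    have h2 : Algebra.adjoin k (Set.range v) ≤ K.toSubalgebra.comap A.val := by
      apply Algebra.adjoin_le
      rintro _ ⟨i, rfl⟩
      exact IntermediateField.subset_adjoin k W (hW i)
    exact h2 hx
  let inc : Algebra.adjoin k (Set.range v) →+* K :=
    { toFun := fun x => ⟨((x : A) : L), hK _ x.2⟩
      map_one' := rfl
      map_mul' := fun _ _ => rfl
      map_zero' := rfl
      map_add' := fun _ _ => rfl }
  refine h1.ringHom_of_comp_eq inc (A.val : A →+* L) ?_ rfl
  intro x y hxy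
  exact Subtype.ext (Subtype.ext (congrArg (fun t : K => (t : L)) hxy))

/-- completion of two families with the same relations (copy of `TLW.exists_complete`) -/
theorem red_complete {k L : Type} [Field k] [Field L] [Algebra k L] (S : Set L) (hS : S.Finite)
    {ι : Type} [Finite ι] (f h : ι → L) (hf : ∀ i, f i ∈ S) (hh : ∀ i, h i ∈ S)
    (hfh : SameRel k f h) :
    ∃ (κ : Type) (_ : Finite κ) (F H : κ → L) (j : ι → κ) (n : ℕ) (Y : Fin n → κ),
      (∀ i, F i ∈ S) ∧ (∀ i, H i ∈ S) ∧ (∀ i, F (j i) = f i) ∧ (∀ i, H (j i) = h i) ∧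
      SameRel k F H ∧
      AlgebraicIndependent k (fun i => H (Y i)) ∧
      AlgebraicIndependent k (fun i => F (Y i)) ∧
      (∀ s ∈ S, IsAlgebraic (IntermediateField.adjoin k (Set.range fun i => H (Y i))) s) ∧
      (∀ s ∈ S, IsAlgebraic (IntermediateField.adjoin k (Set.range fun i => F (Y i))) s) := by
  classical
  let A : Subalgebra k L := Algebra.adjoin k S
  have hSA : ∀ x ∈ S, x ∈ A := fun x hx => Algebra.subset_adjoin hx
  let hA : ι → A := fun i => ⟨h i, hSA _ (hh i)⟩
  let fA : ι → A := fun i => ⟨f i, hSA _ (hf i)⟩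
  let SA : Set A := {x | (x : L) ∈ S}
  have hSfin : SA.Finite := by
    have : SA = (fun x : A => (x : L)) ⁻¹' S := rfl
    rw [this]
    exact hS.preimage Subtype.val_injective.injOn
  have hStop : Algebra.adjoin k SA = ⊤ := by
    rw [eq_top_iff]
    rintro ⟨a, ha⟩ _
    have h1 : a ∈ (Algebra.adjoin k SA).map A.val := by
      rw [AlgHom.map_adjoin]
      have h2 : A.val '' SA = S := by
        ext x
        constructor
        · rintro ⟨y, hy, rfl⟩
          exact hy
        · intro hx
          exact ⟨⟨x, hSA x hx⟩, hx, rfl⟩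
      rw [h2]
      exact ha
    obtain ⟨y, hy, hya⟩ := h1
    have : y = ⟨a, ha⟩ := Subtype.ext hya
    rwa [this] at hy
  have hval : ∀ {τ : Type} (x : τ → A) (P : MvPolynomial τ k),
      MvPolynomial.aeval (fun i => (x i : L)) P = (MvPolynomial.aeval x P : A) := by
    intro τ x P
    have : (MvPolynomial.aeval (fun i => (x i : L)) : MvPolynomial τ k →ₐ[k] L) =
        A.val.comp (MvPolynomial.aeval x) := by
      apply MvPolynomial.algHom_ext
      intro i
      simp
    rw [this]
    rfl
  have hval0 : ∀ {τ : Type} (x : τ → A) (P : MvPolynomial τ k),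
      MvPolynomial.aeval (fun i => (x i : L)) P = 0 ↔ MvPolynomial.aeval x P = 0 := by
    intro τ x P
    rw [hval]
    exact ⟨fun h => Subtype.ext h, fun h => congrArg Subtype.val h⟩
  have hrel : ∀ P : MvPolynomial ι k, MvPolynomial.aeval fA P = 0 ↔ MvPolynomial.aeval hA P = 0 := by
    intro P
    rw [← hval0, ← hval0]
    exact hfh P
  have hindiff : ∀ {τ : Type} (u : τ → ι), AlgebraicIndependent k (fun i => hA (u i)) ↔
      AlgebraicIndependent k (fun i => fA (u i)) := by
    intro τ u
    have h1 : ∀ (x : ι → A) (P : MvPolynomial τ k),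
        MvPolynomial.aeval (fun i => x (u i)) P = MvPolynomial.aeval x (MvPolynomial.rename u P) := by
      intro x P
      rw [MvPolynomial.aeval_rename]
      rfl
    rw [algebraicIndependent_iff, algebraicIndependent_iff]
    constructor
    · intro h2 P hP
      apply h2
      rw [h1, ← hrel, ← h1]
      exact hP
    · intro h2 P hP
      apply h2
      rw [h1, hrel, ← h1]
      exact hP
  -- a maximal independent subfamily
  have hIex : ∃ I : Set ι, AlgebraicIndependent k (fun i : I => hA i) ∧
      ∀ J : Set ι, AlgebraicIndependent k (fun i : J => hA i) → I ⊆ J → J ⊆ I := by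
    have hfin : {I : Set ι | AlgebraicIndependent k (fun i : I => hA i)}.Finite := Set.toFinite _
    have hne : {I : Set ι | AlgebraicIndependent k (fun i : I => hA i)}.Nonempty := by
      refine ⟨∅, ?_⟩
      rw [Set.mem_ofPred_eq, algebraicIndependent_empty_type_iff]
      exact (algebraMap k A).injective
    obtain ⟨I, hI⟩ := hfin.exists_maximal hne
    exact ⟨I, hI.1, fun J hJ hIJ => hI.2 hJ hIJ⟩
  obtain ⟨I, hI, hImax⟩ := hIex
  have halgh : ∀ j, IsAlgebraic (Algebra.adjoin k (hA '' I)) (hA j) := by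
    intro j
    by_cases hj : j ∈ I
    · exact isAlgebraic_algebraMap
        (⟨hA j, Algebra.subset_adjoin ⟨j, hj, rfl⟩⟩ : Algebra.adjoin k (hA '' I))
    · by_contra hc
      have h1 : AlgebraicIndepOn k hA (insert j I) :=
        (AlgebraicIndepOn.insert_iff hj).mpr ⟨hI, hc⟩
      exact hj (hImax _ h1 (Set.subset_insert j I) (Set.mem_insert j I))
  have hIf : AlgebraicIndependent k (fun i : I => fA i) := (hindiff fun i : I => (i : ι)).mp hI
  have halgf : ∀ j, IsAlgebraic (Algebra.adjoin k (fA '' I)) (fA j) := by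
    intro j
    by_cases hj : j ∈ I
    · exact isAlgebraic_algebraMap
        (⟨fA j, Algebra.subset_adjoin ⟨j, hj, rfl⟩⟩ : Algebra.adjoin k (fA '' I))
    · by_contra hc
      have h1 : AlgebraicIndepOn k fA (insert j I) :=
        (AlgebraicIndepOn.insert_iff hj).mpr ⟨hIf, hc⟩
      have h2 := (hindiff fun i : (insert j I : Set ι) => (i : ι)).mpr h1
      exact hj (hImax _ h2 (Set.subset_insert j I) (Set.mem_insert j I))
  obtain ⟨Z, hZS, hZind, hZbas⟩ := TLW.fam_step SA hStop hA I hI halgh
  obtain ⟨Z', hZS', hZind', hZbas'⟩ := TLW.fam_step SA hStop fA I hIf halgf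
  have hZfin : Finite Z := (hSfin.subset hZS)
  have hZfin' : Finite Z' := (hSfin.subset hZS')
  have hcard : Nat.card Z = Nat.card Z' := by
    have h1 := hZbas.cardinalMk_eq hZbas'
    have h2 : Nat.card (Z ⊕ I) = Nat.card (Z' ⊕ I) := by
      unfold Nat.card
      rw [h1]
    rw [Nat.card_sum, Nat.card_sum] at h2
    omega
  let eZ : Fin (Nat.card Z) ≃ Z := (Finite.equivFin Z).symm
  let eZ' : Fin (Nat.card Z) ≃ Z' := (finCongr hcard).trans (Finite.equivFin Z').symm
  let z : Fin (Nat.card Z) → A := fun i => (eZ i : A)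
  let z' : Fin (Nat.card Z) → A := fun i => (eZ' i : A)
  have hzind : AlgebraicIndependent (Algebra.adjoin k (Set.range hA)) z :=
    hZind.comp eZ eZ.injective
  have hzind' : AlgebraicIndependent (Algebra.adjoin k (Set.range fA)) z' :=
    hZind'.comp eZ' eZ'.injective
  let H : Fin (Nat.card Z) ⊕ ι → L := Sum.elim (fun i => (z i : L)) h
  let F : Fin (Nat.card Z) ⊕ ι → L := Sum.elim (fun i => (z' i : L)) f
  have hHe : H = fun i => ((Sum.elim z hA i : A) : L) := by
    funext i
    rcases i with i | i <;> rfl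
  have hFe : F = fun i => ((Sum.elim z' fA i : A) : L) := by
    funext i
    rcases i with i | i <;> rfl
  let n := Nat.card (Z ⊕ I)
  let eY : Fin n ≃ Z ⊕ I := (Finite.equivFin (Z ⊕ I)).symm
  let Y : Fin n → Fin (Nat.card Z) ⊕ ι := fun i => Sum.map eZ.symm (fun i : I => (i : ι)) (eY i)
  have hHY : (fun i => H (Y i)) =
      A.val ∘ ((Sum.elim ((↑) : Z → A) (fun i : I => hA i)) ∘ eY) := by
    funext i
    show H (Sum.map eZ.symm (fun i : I => (i : ι)) (eY i)) =
      ((Sum.elim ((↑) : Z → A) (fun i : I => hA i) (eY i) : A) : L)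
    rcases eY i with u | u
    · show (((eZ (eZ.symm u) : Z) : A) : L) = ((u : A) : L)
      rw [Equiv.apply_symm_apply]
    · rfl
  have hFY : (fun i => F (Y i)) =
      A.val ∘ ((Sum.elim ((↑) : Z' → A) (fun i : I => fA i)) ∘
        (fun i => Sum.map (fun u => eZ' (eZ.symm u)) id (eY i))) := by
    funext i
    show F (Sum.map eZ.symm (fun i : I => (i : ι)) (eY i)) =
      ((Sum.elim ((↑) : Z' → A) (fun i : I => fA i)
        (Sum.map (fun u => eZ' (eZ.symm u)) id (eY i)) : A) : L)
    rcases eY i with u | u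
    · rfl
    · rfl
  refine ⟨Fin (Nat.card Z) ⊕ ι, inferInstance, F, H, Sum.inr, n, Y, ?_, ?_, fun i => rfl,
    fun i => rfl, ?_, ?_, ?_, ?_, ?_⟩
  · rintro (i | i)
    · exact hZS' (eZ' i).2
    · exact hf i
  · rintro (i | i)
    · exact hZS (eZ i).2
    · exact hh i
  · intro P
    rw [hHe, hFe, hval0, hval0, TLW.fam_coeff hA z hzind, TLW.fam_coeff fA z' hzind']
    exact forall_congr' fun α => hrel _
  · rw [hHY]
    exact (hZbas.1.comp eY eY.injective).map' Subtype.val_injective
  · rw [hFY]
    refine (hZbas'.1.comp _ ?_).map' Subtype.val_injective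
    intro i j hij
    apply eY.injective
    have hinj : Function.Injective (Sum.map (fun u => eZ' (eZ.symm u)) (id : I → I)) :=
      Function.Injective.sumMap (eZ'.injective.comp eZ.symm.injective) Function.injective_id
    exact hinj hij
  · intro s hs
    refine rcomp_alg A _ hZbas _ ?_ ⟨s, hSA s hs⟩
    intro t
    refine ⟨eY.symm t, ?_⟩
    have h3 := congrFun hHY (eY.symm t)
    simp only [Function.comp, Equiv.apply_symm_apply] at h3
    exact h3
  · intro s hs
    refine rcomp_alg A _ hZbas' _ ?_ ⟨s, hSA s hs⟩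
    intro t
    refine ⟨eY.symm (Sum.map (fun u => eZ (eZ'.symm u)) id t), ?_⟩
    have h3 := congrFun hFY (eY.symm (Sum.map (fun u => eZ (eZ'.symm u)) id t))
    simp only [Function.comp, Equiv.apply_symm_apply] at h3
    refine h3.trans ?_
    rcases t with u | u
    · show (((eZ' (eZ.symm (eZ (eZ'.symm u))) : Z') : A) : L) = ((u : A) : L)
      rw [Equiv.symm_apply_apply, Equiv.apply_symm_apply]
    · rfl

end Pool.Agent.ORG
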