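import Pool.Agent.ORG.RedDefs

set_option autoImplicit false

namespace Pool.Agent.ORG

/-- transitivity of algebraicity over a domain `B`, for a field `K` all of whose elements are
algebraic over `B` -/
theorem redDesc_trans {B K Ω : Type} [CommRing B] [IsDomain B] [Field Ω] [Algebra B Ω] [Field K]
    [Algebra K Ω] (hK : ∀ z : K, IsAlgebraic B (algebraMap K Ω z)) (s : Ω)
    (hs : IsAlgebraic K s) : IsAlgebraic B s := by
  let A : Subalgebra B Ω := Subalgebra.algebraicClosure B Ω
  obtain ⟨P, hP0, hP⟩ := hs
  have hxA : IsAlgebraic A s := by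
    let j : K →+* A :=
      { toFun := fun z => ⟨algebraMap K Ω z, hK z⟩
        map_one' := Subtype.ext (map_one _)
        map_zero' := Subtype.ext (map_zero _)
        map_add' := fun _ _ => Subtype.ext (map_add _ _ _)
        map_mul' := fun _ _ => Subtype.ext (map_mul _ _ _) }
    refine ⟨P.map j, ?_, ?_⟩
    · rw [Ne, Polynomial.map_eq_zero_iff j.injective]
      exact hP0
    · rw [Polynomial.aeval_def, Polynomial.eval₂_map]
      rw [Polynomial.aeval_def] at hP
      exact hP
  have : Algebra.IsAlgebraic B A := ⟨fun a => by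
    have : IsAlgebraic B (algebraMap A Ω a) := a.2
    exact (isAlgebraic_algebraMap_iff (FaithfulSMul.algebraMap_injective A Ω)).1 this⟩
  exact hxA.restrictScalars B

/-- algebraicity over `k(y)` descends to `ℤ[y]` when `k` is algebraic over `ℚ` -/
theorem red_desc {k Ω : Type} [Field k] [CharZero k] [Algebra ℚ k] [Algebra.IsAlgebraic ℚ k]
    [Field Ω] [Algebra k Ω] {n : ℕ} (y : Fin n → Ω) (s : Ω)
    (hs : IsAlgebraic (IntermediateField.adjoin k (Set.range y)) s) :
    IsAlgebraic (Algebra.adjoin ℤ (Set.range y)) s := by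
  have hcharΩ : CharZero Ω := charZero_of_injective_algebraMap (algebraMap k Ω).injective
  have hinjΩ : Function.Injective (algebraMap ℤ Ω) := (algebraMap ℤ Ω).injective_int
  have hinj : Function.Injective (algebraMap ℤ (Algebra.adjoin ℤ (Set.range y))) := by
    intro a b hab
    apply hinjΩ
    exact congrArg Subtype.val hab
  have hk : ∀ c : k, IsAlgebraic (Algebra.adjoin ℤ (Set.range y)) (algebraMap k Ω c) := by
    intro c
    have h1 : IsAlgebraic ℚ c := Algebra.IsAlgebraic.isAlgebraic c
    have h2 : IsAlgebraic ℤ c := (IsFractionRing.isAlgebraic_iff ℤ ℚ k).2 h1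
    have h3 : IsAlgebraic ℤ (algebraMap k Ω c) := h2.algebraMap
    exact h3.extendScalars hinj
  have hK : ∀ z ∈ IntermediateField.adjoin k (Set.range y),
      IsAlgebraic (Algebra.adjoin ℤ (Set.range y)) z := by
    intro z hz
    induction hz using IntermediateField.adjoin_induction with
    | mem x hx =>
      exact isAlgebraic_algebraMap
        (⟨x, Algebra.subset_adjoin hx⟩ : Algebra.adjoin ℤ (Set.range y))
    | algebraMap c => exact hk c
    | add x y _ _ h1 h2 => exact h1.add h2
    | inv x _ h1 => exact h1.inv
    | mul x y _ _ h1 h2 => exact h1.mul h2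
  exact redDesc_trans (K := IntermediateField.adjoin k (Set.range y)) (fun z => hK z z.2) s hs

end Pool.Agent.ORG
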