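import Pool.Agent.ORG.RedDefs
import Pool.Agent.TLW.Prim

set_option autoImplicit false

namespace Pool.Agent.ORG

open Polynomial

/-- a monic polynomial of minimal degree among those which vanish at a point is irreducible -/
theorem redPrim_irreducible {R L : Type} [CommRing R] [IsDomain R] [Field L] [Algebra R L]
    {M : R[X]} {θ : L} (hM : M.Monic) (h0 : aeval θ M = 0)
    (hmin : ∀ P : R[X], P ≠ 0 → P.natDegree < M.natDegree → aeval θ P ≠ 0) : Irreducible M := by
  have hne : M ≠ 1 := by
    rintro rfl
    simp at h0
  rw [hM.irreducible_iff_natDegree]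
  refine ⟨hne, ?_⟩
  intro f g hf hg hfg
  have hdeg : M.natDegree = f.natDegree + g.natDegree := by
    rw [← hfg, hf.natDegree_mul hg]
  have h1 : aeval θ f * aeval θ g = 0 := by rw [← map_mul, hfg, h0]
  rcases mul_eq_zero.1 h1 with h2 | h2
  · right
    by_contra h3
    exact hmin f hf.ne_zero (by omega) h2
  · left
    by_contra h3
    exact hmin g hg.ne_zero (by omega) h2

/-- primitive element in char 0 (copy of `TLW.exists_prim`, using `TLW.prim_core` with exponential
characteristic 1); `M` is irreducible in `k[Y][T]` because it is monic and no nonzero polynomial of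
smaller degree vanishes at `θ` -/
theorem red_prim {k L ι : Type} [Finite ι] [Field k] [CharZero k] [Field L] [Algebra k L]
    (f h : ι → L) (hfh : SameRel k f h) {n : ℕ}
    (Y : Fin n → ι) (hy : AlgebraicIndependent k (fun i => h (Y i)))
    (halg : ∀ i, IsAlgebraic (IntermediateField.adjoin k (Set.range fun i => h (Y i))) (h i)) :
    ∃ (M : YT n k) (H : ι → YT n k) (b : ι → MvPolynomial (Fin n) k) (θ θ' : L),
      M.Monic ∧ Irreducible M ∧
      evYT (algebraMap k L) (fun i => h (Y i)) θ M = 0 ∧
      evYT (algebraMap k L) (fun i => f (Y i)) θ' M = 0 ∧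
      ∀ i, b i ≠ 0 ∧
        MvPolynomial.aeval (fun i => h (Y i)) (b i) * h i =
          evYT (algebraMap k L) (fun i => h (Y i)) θ (H i) ∧
        MvPolynomial.aeval (fun i => f (Y i)) (b i) * f i =
          evYT (algebraMap k L) (fun i => f (Y i)) θ' (H i) := by
  classical
  let R := MvPolynomial (Fin n) k
  let K := FractionRing R
  let y : Fin n → L := fun i => h (Y i)
  let φ : R →ₐ[k] L := MvPolynomial.aeval y
  have hφ : Function.Injective φ := hy
  let algRL : Algebra R L := φ.toRingHom.toAlgebra
  have hmap : ∀ r : R, algebraMap R L r = φ r := fun _ => rfl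
  have : FaithfulSMul R L := (faithfulSMul_iff_algebraMap_injective R L).2 hφ
  let algKL : Algebra K L := FractionRing.liftAlgebra R L
  have : IsScalarTower R K L := FractionRing.isScalarTower_liftAlgebra R L
  have : CharZero K := charZero_of_injective_algebraMap (RingHom.injective (algebraMap k K))
  have : IsIntegrallyClosed R := inferInstance
  have hdiv : ∀ r s : R, algebraMap K L (algebraMap R K r / algebraMap R K s) = φ r / φ s := by
    intro r s
    rw [map_div₀, ← IsScalarTower.algebraMap_apply R K L, ← IsScalarTower.algebraMap_apply R K L]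
    rfl
  -- `K → k(y)`
  have hKmem : ∀ c : K, algebraMap K L c ∈ IntermediateField.adjoin k (Set.range y) := by
    intro c
    obtain ⟨r, s, _, rfl⟩ := IsFractionRing.div_surjective (A := R) c
    rw [hdiv, IntermediateField.mem_adjoin_range_iff]
    exact ⟨r, s, rfl⟩
  let g : K →+* IntermediateField.adjoin k (Set.range y) :=
    (algebraMap K L).codRestrict (IntermediateField.adjoin k (Set.range y)) hKmem
  have hg : Function.Surjective g := by
    intro x
    obtain ⟨r, s, hrs⟩ := (IntermediateField.mem_adjoin_range_iff k y (x : L)).1 x.2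
    refine ⟨algebraMap R K r / algebraMap R K s, ?_⟩
    apply Subtype.ext
    rw [hrs]
    exact hdiv r s
  have halg' : ∀ i, IsAlgebraic K (h i) := by
    intro i
    exact IsAlgebraic.of_ringHom_of_comp_eq (a := h i) g (RingHom.id L) (halg i) hg
      (Function.injective_id) (by ext c; rfl)
  obtain ⟨ν, M, H, b, θ, h1, h2, -, h4, h5, h6⟩ := TLW.prim_core (R := R) (K := K) 1 h halg'
  -- `θ` lies in `k(h)`
  have hyT : ∀ c : K, algebraMap K L c ∈ (IntermediateField.adjoin k (Set.range h)).toSubfield := by
    intro c
    have h0 := hKmem c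
    have hle : IntermediateField.adjoin k (Set.range y) ≤
        IntermediateField.adjoin k (Set.range h) := by
      apply IntermediateField.adjoin.mono
      rintro _ ⟨i, rfl⟩
      exact ⟨Y i, rfl⟩
    exact hle h0
  have hθ : θ ∈ IntermediateField.adjoin k (Set.range h) := by
    let T : IntermediateField K L :=
      Subfield.toIntermediateField (IntermediateField.adjoin k (Set.range h)).toSubfield hyT
    have hle : IntermediateField.adjoin K (Set.range h) ≤ T := by
      rw [IntermediateField.adjoin_le_iff]
      rintro _ ⟨i, rfl⟩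
      exact IntermediateField.subset_adjoin k (Set.range h) ⟨i, rfl⟩
    exact hle h6
  obtain ⟨σ, hσ⟩ := TLW.sameRel_hom f h hfh
  have hmem : ∀ i, h i ∈ IntermediateField.adjoin k (Set.range h) := fun i =>
    IntermediateField.subset_adjoin k (Set.range h) ⟨i, rfl⟩
  let ζ : IntermediateField.adjoin k (Set.range h) := ⟨θ, hθ⟩
  let yy : Fin n → IntermediateField.adjoin k (Set.range h) := fun i => ⟨h (Y i), hmem (Y i)⟩
  -- transport of evaluations
  have key : ∀ P : YT n k, ∃ w : IntermediateField.adjoin k (Set.range h),
      (w : L) = evYT (algebraMap k L) y θ P ∧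
      σ w = evYT (algebraMap k L) (fun i => f (Y i)) (σ ζ) P := by
    intro P
    refine ⟨evYT (algebraMap k _) yy ζ P, ?_, ?_⟩
    · have e1 := map_evYT (algebraMap k (IntermediateField.adjoin k (Set.range h)))
        ((IntermediateField.adjoin k (Set.range h)).val : _ →+* L) yy ζ P
      refine e1.trans ?_
      congr 1
    · have e1 := map_evYT (algebraMap k (IntermediateField.adjoin k (Set.range h)))
        (σ : _ →+* L) yy ζ P
      refine e1.trans ?_
      congr 1
      · ext c
        simp
      · funext i
        exact hσ (Y i) (hmem (Y i))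
  have key2 : ∀ r : R, ∃ w : IntermediateField.adjoin k (Set.range h),
      (w : L) = MvPolynomial.aeval y r ∧ σ w = MvPolynomial.aeval (fun i => f (Y i)) r := by
    intro r
    obtain ⟨w, hw1, hw2⟩ := key (C r)
    refine ⟨w, ?_, ?_⟩
    · rw [hw1]
      unfold evYT
      rw [eval₂_C]
      rfl
    · rw [hw2]
      unfold evYT
      rw [eval₂_C]
      rfl
  have hevφ : ∀ P : YT n k, evYT (algebraMap k L) y θ P = aeval θ P := by
    intro P
    rfl
  refine ⟨M, H, b, θ, σ ζ, h1, redPrim_irreducible h1 h4 h2, h4, ?_, ?_⟩
  · obtain ⟨w, hw1, hw2⟩ := key M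
    rw [← hw2]
    have : w = 0 := by
      apply Subtype.ext
      rw [hw1, hevφ, h4]; rfl
    rw [this, map_zero]
  · intro i
    obtain ⟨hb0, hbi⟩ := h5 i
    rw [one_pow, pow_one] at hbi
    have hbi' : MvPolynomial.aeval y (b i) * h i = evYT (algebraMap k L) y θ (H i) := hbi
    refine ⟨hb0, hbi', ?_⟩
    obtain ⟨w, hw1, hw2⟩ := key (H i)
    obtain ⟨v, hv1, hv2⟩ := key2 (b i)
    rw [← hw2, ← hv2]
    have e1 : v * ⟨h i, hmem i⟩ = w := by
      apply Subtype.ext
      rw [hw1, ← hbi', ← hv1]
      rfl
    rw [← e1, map_mul, hσ]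

end Pool.Agent.ORG
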