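import Pool.Agent.ORG.RedDefs

set_option autoImplicit false

namespace Pool.Agent.ORG

open Polynomial in
/-- an element of `A` is a root of a primitive integer polynomial -/
theorem redRes_prim {k : Type} [Field k] [CharZero k] [Algebra ℚ k] [Algebra.IsAlgebraic ℚ k]
    (A : Subring k) (a : A) :
    ∃ q : ℤ[X], q.IsPrimitive ∧ q.eval₂ (Int.castRingHom A) a = 0 := by
  have h1 : IsAlgebraic ℤ (a : k) :=
    (IsFractionRing.isAlgebraic_iff ℤ ℚ k).mpr (Algebra.IsAlgebraic.isAlgebraic (a : k))
  obtain ⟨q, hq0, hq⟩ := h1
  refine ⟨q.primPart, q.isPrimitive_primPart, ?_⟩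
  have h2 : aeval (a : k) q.primPart = 0 := aeval_primPart_eq_zero hq0 hq
  apply Subtype.val_injective
  have h3 : ((q.primPart.eval₂ (Int.castRingHom A) a : A) : k) =
      aeval (a : k) q.primPart := by
    rw [aeval_def, show ((q.primPart.eval₂ (Int.castRingHom A) a : A) : k) =
      A.subtype (q.primPart.eval₂ (Int.castRingHom A) a) from rfl, hom_eval₂]
    congr 1
  rw [h3, h2]
  rfl

open Polynomial in
/-- a ring homomorphism from a subring of an algebraic extension of `ℚ` to a field of characteristic
`p` has values in the algebraic closure of the prime field. Hint: primitive polynomial relation. -/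
theorem red_res {p : ℕ} [Fact p.Prime] {k L : Type} [Field k] [CharZero k] [Algebra ℚ k]
    [Algebra.IsAlgebraic ℚ k] [Field L] [Algebra (AlgebraicClosure (ZMod p)) L]
    (A : Subring k) (π : A →+* L) :
    ∃ ψ : A →+* AlgebraicClosure (ZMod p),
      (algebraMap (AlgebraicClosure (ZMod p)) L).comp ψ = π := by
  have hp := (Fact.out : p.Prime)
  have hchar : CharP (AlgebraicClosure (ZMod p)) p :=
    charP_of_injective_algebraMap (algebraMap (ZMod p) (AlgebraicClosure (ZMod p))).injective p
  have hmem : ∀ a : A, π a ∈ (algebraMap (AlgebraicClosure (ZMod p)) L).range := by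
    intro a
    obtain ⟨q, hq, hqa⟩ := redRes_prim A a
    have h1 : q.map (Int.castRingHom (AlgebraicClosure (ZMod p))) ≠ 0 := by
      intro h0
      have h2 : (C (p : ℤ)) ∣ q := by
        rw [C_dvd_iff_dvd_coeff]
        intro i
        have h3 : (Int.castRingHom (AlgebraicClosure (ZMod p))) (q.coeff i) = 0 := by
          rw [← coeff_map, h0, coeff_zero]
        exact (CharP.intCast_eq_zero_iff (AlgebraicClosure (ZMod p)) p _).mp h3
      have h4 := hq _ h2
      rw [Int.isUnit_iff] at h4
      have := hp.two_le
      omega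
    have h5 : ((q.map (Int.castRingHom (AlgebraicClosure (ZMod p)))).map
        (algebraMap (AlgebraicClosure (ZMod p)) L)).eval (π a) = 0 := by
      rw [Polynomial.map_map, eval_map]
      have h6 := congrArg π hqa
      rw [hom_eval₂, map_zero] at h6
      rw [← h6]
      congr 1
      exact Subsingleton.elim _ _
    have h7 : π a ∈ ((q.map (Int.castRingHom (AlgebraicClosure (ZMod p)))).map
        (algebraMap (AlgebraicClosure (ZMod p)) L)).roots := by
      rw [mem_roots (Polynomial.map_ne_zero h1)]
      exact h5
    rw [(IsAlgClosed.splits _).roots_map, Multiset.mem_map] at h7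
    obtain ⟨c, -, hc⟩ := h7
    exact ⟨c, hc⟩
  let e : AlgebraicClosure (ZMod p) ≃+* (algebraMap (AlgebraicClosure (ZMod p)) L).range :=
    RingEquiv.ofBijective (algebraMap (AlgebraicClosure (ZMod p)) L).rangeRestrict
      ⟨fun x y h => (algebraMap (AlgebraicClosure (ZMod p)) L).injective (congrArg Subtype.val h),
        (algebraMap (AlgebraicClosure (ZMod p)) L).rangeRestrict_surjective⟩
  refine ⟨(e.symm : (algebraMap (AlgebraicClosure (ZMod p)) L).range →+* _).comp
    (π.codRestrict _ hmem), ?_⟩
  ext a
  have h8 : (e (e.symm (π.codRestrict _ hmem a)) : L) = π a := by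
    rw [e.apply_symm_apply]
    rfl
  exact h8

end Pool.Agent.ORG
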