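import Pool.Agent.ORG.RedDefs

set_option autoImplicit false

namespace Pool.Agent.ORG

open Polynomial

/-- evaluation at a zero of an irreducible polynomial -/
theorem red_sr_dvd {K L : Type} [Field K] [Field L] (φ : K →+* L) (θ : L) (M : Polynomial K)
    (hM : Irreducible M) (h0 : M.eval₂ φ θ = 0) (G : Polynomial K) :
    G.eval₂ φ θ = 0 ↔ M ∣ G := by
  constructor
  · intro hG
    by_contra hnd
    obtain ⟨a, b, hab⟩ := (hM.coprime_iff_not_dvd.mpr hnd)
    have := congrArg (Polynomial.eval₂ φ θ) hab
    rw [Polynomial.eval₂_add, Polynomial.eval₂_mul, Polynomial.eval₂_mul, h0, hG,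
      Polynomial.eval₂_one] at this
    simp at this
  · rintro ⟨Q, rfl⟩
    rw [Polynomial.eval₂_mul, h0, zero_mul]

/-- the value of the polynomial `P` at the rational functions `H i / b i` -/
theorem red_sr_aux {k L ι A : Type} [Field k] [Field L] [Algebra k L] [CommRing A] [IsDomain A]
    [IsIntegrallyClosed A] (c : k →+* A) (g : A →+* L) (hgc : g.comp c = algebraMap k L)
    (hgi : Function.Injective g) (M : Polynomial A) (hM : M.Monic)
    (hirr : Irreducible M) (θ : L) (hθ : M.eval₂ g θ = 0)
    (h : ι → L) (H : ι → Polynomial A)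
    (b : ι → A) (hb : ∀ i, b i ≠ 0)
    (h1 : ∀ i, g (b i) * h i = (H i).eval₂ g θ)
    (P : MvPolynomial ι k) :
    MvPolynomial.aeval h P = 0 ↔
      M.map (algebraMap A (FractionRing A)) ∣
      MvPolynomial.eval₂ ((Polynomial.C).comp ((algebraMap A (FractionRing A)).comp c))
        (fun i => Polynomial.C ((algebraMap A (FractionRing A) (b i))⁻¹) *
          (H i).map (algebraMap A (FractionRing A))) P := by
  have hφa : ∀ a : A, (IsFractionRing.lift hgi : FractionRing A →+* L)
      (algebraMap A (FractionRing A) a) = g a :=
    fun a => IsFractionRing.lift_algebraMap hgi a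
  generalize (IsFractionRing.lift hgi : FractionRing A →+* L) = φ at hφa
  have hφc : φ.comp (algebraMap A (FractionRing A)) = g := RingHom.ext hφa
  have hMi : Irreducible (M.map (algebraMap A (FractionRing A))) :=
    (Polynomial.Monic.irreducible_iff_irreducible_map_fraction_map hM).mp hirr
  have hM0 : (M.map (algebraMap A (FractionRing A))).eval₂ φ θ = 0 := by
    rw [Polynomial.eval₂_map, hφc]
    exact hθ
  rw [← red_sr_dvd φ θ _ hMi hM0]
  have key : Polynomial.eval₂ φ θ (MvPolynomial.eval₂ ((Polynomial.C).comp
        ((algebraMap A (FractionRing A)).comp c))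
        (fun i => Polynomial.C ((algebraMap A (FractionRing A) (b i))⁻¹) *
          (H i).map (algebraMap A (FractionRing A))) P)
      = MvPolynomial.aeval h P := by
    have e := MvPolynomial.hom_eval₂ P
      ((Polynomial.C).comp ((algebraMap A (FractionRing A)).comp c))
      (Polynomial.eval₂RingHom φ θ)
      (fun i => Polynomial.C ((algebraMap A (FractionRing A) (b i))⁻¹) *
        (H i).map (algebraMap A (FractionRing A)))
    rw [Polynomial.coe_eval₂RingHom] at e
    rw [e, MvPolynomial.aeval_def]
    congr 1
    · rw [← hgc, ← hφc]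
      ext x
      simp
    · funext i
      rw [Polynomial.eval₂_mul, Polynomial.eval₂_C, Polynomial.eval₂_map, hφc, map_inv₀, hφa]
      have hbi : g (b i) ≠ 0 := by
        intro h0
        exact hb i (hgi (by rw [h0, map_zero]))
      rw [← h1 i, ← mul_assoc, inv_mul_cancel₀ hbi, one_mul]
  rw [key]

/-- two families given by the same rational functions in the generic points `(y, θ)` and
`(y', θ')` of the same hypersurface satisfy the same relations -/
theorem red_sr {k L ι : Type} [Field k] [Field L] [Algebra k L] {n : ℕ} (y y' : Fin n → L)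
    (hy : AlgebraicIndependent k y) (hy' : AlgebraicIndependent k y') (M : YT n k) (hM : M.Monic)
    (hirr : Irreducible M) (θ θ' : L) (hθ : evYT (algebraMap k L) y θ M = 0)
    (hθ' : evYT (algebraMap k L) y' θ' M = 0) (f h : ι → L) (H : ι → YT n k)
    (b : ι → MvPolynomial (Fin n) k) (hb : ∀ i, b i ≠ 0)
    (h1 : ∀ i, MvPolynomial.aeval y (b i) * h i = evYT (algebraMap k L) y θ (H i))
    (h2 : ∀ i, MvPolynomial.aeval y' (b i) * f i = evYT (algebraMap k L) y' θ' (H i)) :
    SameRel k f h := by
  intro P
  have inj : ∀ z : Fin n → L, AlgebraicIndependent k z →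
      Function.Injective (MvPolynomial.eval₂Hom (algebraMap k L) z) := by
    intro z hz
    have : (MvPolynomial.eval₂Hom (algebraMap k L) z : MvPolynomial (Fin n) k → L)
        = MvPolynomial.aeval z := by
      ext p; simp [MvPolynomial.aeval_def]
    rw [this]
    exact hz
  have comp : ∀ z : Fin n → L, (MvPolynomial.eval₂Hom (algebraMap k L) z).comp MvPolynomial.C
      = algebraMap k L := by
    intro z
    ext x
    simp
  rw [red_sr_aux MvPolynomial.C (MvPolynomial.eval₂Hom (algebraMap k L) y) (comp y) (inj y hy) M hM
      hirr θ hθ h H b hb (fun i => by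
        have := h1 i
        rw [MvPolynomial.aeval_def] at this
        exact this) P,
    red_sr_aux MvPolynomial.C (MvPolynomial.eval₂Hom (algebraMap k L) y') (comp y') (inj y' hy')
      M hM hirr θ' hθ' f H b hb (fun i => by
        have := h2 i
        rw [MvPolynomial.aeval_def] at this
        exact this) P]

end Pool.Agent.ORG
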