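import Pool.Agent.ORG.RedDefs

set_option autoImplicit false

namespace Pool.Agent.ORG

/-- enlarging the prime ring -/
theorem redExch_alg {p : ℕ} [Fact p.Prime] {L : Type} [Field L] [Algebra (ZMod p) L]
    (s : Set L) (a : L) (h : IsAlgebraic (Algebra.adjoin ℤ s) a) :
    IsAlgebraic (Algebra.adjoin (ZMod p) s) a := by
  let R0 := Algebra.adjoin ℤ s
  let S0 := Algebra.adjoin (ZMod p) s
  let _ : Algebra R0 S0 :=
    (R0.inclusion (T := S0.restrictScalars ℤ)
      (Algebra.adjoin_le (by exact Algebra.subset_adjoin))).toAlgebra
  have : IsScalarTower R0 S0 L := .of_algebraMap_eq fun ⟨y, _⟩ => show y = y from rfl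
  have hinj : Function.Injective (algebraMap R0 S0) := by
    intro x y hxy
    have h1 : ((algebraMap R0 S0 x : S0) : L) = ((algebraMap R0 S0 y : S0) : L) :=
      congrArg _ hxy
    exact Subtype.ext h1
  exact h.extendScalars hinj

/-- exchange: `n` elements over which an independent family of `n` elements is algebraic are
algebraically independent (note `Algebra.adjoin ℤ` : `L` has characteristic `p`) -/
theorem red_exch {p : ℕ} [Fact p.Prime] {L : Type} [Field L] [Algebra (ZMod p) L] {n : ℕ}
    (y y' : Fin n → L) (hy : AlgebraicIndependent (ZMod p) y)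
    (h : ∀ i, IsAlgebraic (Algebra.adjoin ℤ (Set.range y')) (y i)) :
    AlgebraicIndependent (ZMod p) y' := by
  classical
  have hfin : (Set.range y').Finite := Set.finite_range y'
  let M := AlgebraicIndependent.matroid (ZMod p) L
  have hI : M.Indep (Set.range y) :=
    AlgebraicIndependent.matroid_indep_iff.2 hy.to_subtype_range
  have hsub : Set.range y ⊆ M.closure (Set.range y') := by
    rintro _ ⟨i, rfl⟩
    have := redExch_alg (p := p) _ _ (h i)
    show y i ∈ (AlgebraicIndependent.matroid (ZMod p) L).closure (Set.range y')
    rw [AlgebraicIndependent.matroid_closure_eq]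
    exact this
  have h1 : (Set.range y).encard ≤ M.eRk (Set.range y') := by
    rw [← M.eRk_closure_eq]
    exact hI.encard_le_eRk_of_subset hsub
  have h2 : (Set.range y).encard = n := by
    rw [← Set.image_univ, hy.injective.encard_image, Set.encard_univ]
    simp
  have h3 : (Set.range y').encard ≤ n := by
    rw [← Set.image_univ]
    refine (Set.encard_image_le y' Set.univ).trans ?_
    rw [Set.encard_univ]
    simp
  have h4 : (Set.range y').encard = n :=
    le_antisymm h3 (h2 ▸ h1.trans (M.eRk_le_encard _))
  have hJ : M.Indep (Set.range y') := by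
    rw [Matroid.indep_iff_eRk_eq_encard_of_finite hfin]
    refine le_antisymm (M.eRk_le_encard _) ?_
    rw [h4, ← h2]
    exact h1
  have hinj : Function.Injective y' := by
    have hc : (Set.range y').ncard = n := by
      rw [Set.ncard, h4]
      rfl
    rw [← Set.image_univ] at hc
    have h5 : (y' '' Set.univ).ncard = (Set.univ : Set (Fin n)).ncard := by
      rw [hc, Set.ncard_univ]
      simp
    exact Set.injOn_univ.1 ((Set.ncard_image_iff (Set.toFinite _)).1 h5)
  exact AlgebraicIndependent.of_subtype_range hinj
    (AlgebraicIndependent.matroid_indep_iff.1 hJ)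

/-- independence over `𝔽_p` implies independence over its algebraic closure -/
theorem red_closure {p : ℕ} [Fact p.Prime] {L : Type} [Field L]
    [Algebra (AlgebraicClosure (ZMod p)) L] [Algebra (ZMod p) L]
    [IsScalarTower (ZMod p) (AlgebraicClosure (ZMod p)) L] {n : ℕ}
    (y : Fin n → L) (hy : AlgebraicIndependent (ZMod p) y) :
    AlgebraicIndependent (AlgebraicClosure (ZMod p)) y :=
  hy.extendScalars _

end Pool.Agent.ORG
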