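import Pool.Agent.ORG.RedDefs

set_option autoImplicit false

namespace Pool.Agent.ORG

/-- integrality outside one denominator. Hint: `exists_integral_multiple`, then `d s ∈ V` since `V`
is integrally closed and contains `ℤ[y]`, `d` is a unit of `V`; the integral equation of `d s`
can be mapped by `π`. -/
theorem red_int {Ω : Type} [Field Ω] {n : ℕ} (y : Fin n → Ω) (hy : AlgebraicIndependent ℤ y)
    (s : Ω) (hs : IsAlgebraic (Algebra.adjoin ℤ (Set.range y)) s) :
    ∃ d : MvPolynomial (Fin n) ℤ, d ≠ 0 ∧ ∀ (V : ValuationSubring Ω) (hyV : ∀ i, y i ∈ V),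
      V.valuation (MvPolynomial.aeval y d) = 1 → ∃ hsV : s ∈ V,
        ∀ (L : Type) [Field L] (π : V →+* L),
          IsAlgebraic (Algebra.adjoin ℤ (Set.range fun i => π ⟨y i, hyV i⟩)) (π ⟨s, hsV⟩) := by
  obtain ⟨a, ha, hint⟩ := hs.exists_integral_multiple
  obtain ⟨d, hd⟩ := (Algebra.adjoin_range_eq_range_aeval ℤ y).le a.2
  have hd' : MvPolynomial.aeval y d = (a : Ω) := hd
  have hd0 : d ≠ 0 := by
    rintro rfl
    apply ha
    apply Subtype.ext
    rw [← hd', map_zero]; rfl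
  have ha0 : (a : Ω) ≠ 0 := fun h => ha (Subtype.ext h)
  refine ⟨d, hd0, fun V hyV hval => ?_⟩
  rw [hd'] at hval
  have hAV : ∀ x ∈ Algebra.adjoin ℤ (Set.range y), x ∈ V := by
    intro x hx
    induction hx using Algebra.adjoin_induction with
    | mem x hx => obtain ⟨i, rfl⟩ := hx; exact hyV i
    | algebraMap r => exact intCast_mem V r
    | add x y _ _ hx hy => exact V.add_mem _ _ hx hy
    | mul x y _ _ hx hy => exact V.mul_mem _ _ hx hy
  let ι : Algebra.adjoin ℤ (Set.range y) →+* V :=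
    ((Algebra.adjoin ℤ (Set.range y)).val : _ →+* Ω).codRestrict V.toSubring
      (fun x => hAV x x.2)
  have hι : ∀ x, (ι x : Ω) = x := fun x => rfl
  obtain ⟨P, hP, hP0⟩ := hint
  have hP1 : P.eval₂ (V.subtype.comp ι) (a • s) = 0 := hP0
  have hzV : (a : Ω) * s ∈ V := by
    have h1 : IsIntegral V ((a : Ω) * s) := by
      refine ⟨P.map ι, hP.map ι, ?_⟩
      rw [Polynomial.eval₂_map]
      exact hP1
    obtain ⟨z, hz⟩ := IsIntegrallyClosed.isIntegral_iff.1 h1
    rw [← hz]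
    exact z.2
  have haV : (a : Ω)⁻¹ ∈ V := by
    rw [← V.valuation_le_one_iff, map_inv₀, hval, inv_one]
  have hsV : s ∈ V := by
    have h1 := V.mul_mem _ _ haV hzV
    rwa [← mul_assoc, inv_mul_cancel₀ ha0, one_mul] at h1
  refine ⟨hsV, fun L _ π => ?_⟩
  set B := Algebra.adjoin ℤ (Set.range fun i => π ⟨y i, hyV i⟩) with hB
  have hAB : ∀ (x : Ω) (hx : x ∈ Algebra.adjoin ℤ (Set.range y)), π (ι ⟨x, hx⟩) ∈ B := by
    intro x hx
    induction hx using Algebra.adjoin_induction with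
    | mem x hx => obtain ⟨i, rfl⟩ := hx; exact Algebra.subset_adjoin ⟨i, rfl⟩
    | algebraMap r =>
      have h1 : ι ⟨algebraMap ℤ Ω r, Subalgebra.algebraMap_mem _ r⟩ = (r : V) := by
        apply Subtype.ext
        rw [hι]
        simp
      rw [h1, map_intCast]
      exact intCast_mem B r
    | add x y hx' hy' hx hy =>
      have h1 : (⟨x + y, Subalgebra.add_mem _ hx' hy'⟩ : Algebra.adjoin ℤ (Set.range _)) =
        ⟨x, hx'⟩ + ⟨y, hy'⟩ := rfl
      rw [h1, map_add, map_add]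
      exact B.add_mem hx hy
    | mul x y hx' hy' hx hy =>
      have h1 : (⟨x * y, Subalgebra.mul_mem _ hx' hy'⟩ : Algebra.adjoin ℤ (Set.range _)) =
        ⟨x, hx'⟩ * ⟨y, hy'⟩ := rfl
      rw [h1, map_mul, map_mul]
      exact B.mul_mem hx hy
  let φ : Algebra.adjoin ℤ (Set.range y) →+* B :=
    (π.comp ι).codRestrict B.toSubring (fun x => hAB x x.2)
  have hφ : ∀ x, ((φ x : B) : L) = π (ι x) := fun x => rfl
  have hz : IsIntegral B (π ⟨(a : Ω) * s, hzV⟩) := by
    refine ⟨P.map φ, hP.map φ, ?_⟩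
    rw [Polynomial.eval₂_map]
    have h2 : P.eval₂ ι ⟨(a : Ω) * s, hzV⟩ = 0 := by
      apply Subtype.ext
      have h3 := Polynomial.hom_eval₂ P ι V.subtype ⟨(a : Ω) * s, hzV⟩
      exact h3.trans hP1
    have h4 := Polynomial.hom_eval₂ P ι π ⟨(a : Ω) * s, hzV⟩
    rw [h2, map_zero] at h4
    exact h4.symm
  have hπa : π (ι a) ≠ 0 := by
    intro h0
    have h1 : (ι a) * ⟨(a : Ω)⁻¹, haV⟩ = 1 := by
      apply Subtype.ext
      exact mul_inv_cancel₀ ha0
    have h2 := congrArg π h1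
    rw [map_mul, h0, zero_mul, map_one] at h2
    exact zero_ne_one h2
  have hal : IsAlgebraic B (π (ι a)) := isAlgebraic_algebraMap (φ a)
  have hs : π ⟨s, hsV⟩ = (π (ι a))⁻¹ * π ⟨(a : Ω) * s, hzV⟩ := by
    have h1 : (⟨(a : Ω) * s, hzV⟩ : V) = ι a * ⟨s, hsV⟩ := rfl
    rw [h1, map_mul, ← mul_assoc, inv_mul_cancel₀ hπa, one_mul]
  rw [hs]
  exact hal.inv.mul hz.isAlgebraic

end Pool.Agent.ORG
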