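import Pool.Agent.ORG.RedVal
import Pool.Agent.ORG.RedInt
import Pool.Agent.ORG.RedExch

set_option autoImplicit false

namespace Pool.Agent.ORG

namespace RedSpecAux

/-- a nonzero integer polynomial is not divisible by almost all primes -/
theorem exists_prime {n : ℕ} {D : MvPolynomial (Fin n) ℤ} (hD : D ≠ 0) :
    ∃ p : ℕ, p.Prime ∧ ¬ (MvPolynomial.C (p : ℤ)) ∣ D := by
  obtain ⟨m, hm⟩ := MvPolynomial.exists_coeff_ne_zero hD
  obtain ⟨p, hp, hp'⟩ := Nat.exists_infinite_primes ((D.coeff m).natAbs + 1)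
  refine ⟨p, hp', ?_⟩
  intro h
  have h2 : (p : ℤ) ∣ D.coeff m := (MvPolynomial.C_dvd_iff_dvd_coeff _ _).mp h m
  have h3 : p ∣ (D.coeff m).natAbs := Int.natCast_dvd.mp h2
  have h4 := Nat.le_of_dvd (Int.natAbs_pos.mpr hm) h3
  omega

theorem map_aevalZ {A B : Type} [CommRing A] [CommRing B] (f : A →+* B) {n : ℕ} (g : Fin n → A)
    (P : MvPolynomial (Fin n) ℤ) :
    f (MvPolynomial.aeval g P) = MvPolynomial.aeval (fun i => f (g i)) P := by
  have := MvPolynomial.comp_aeval_apply (f := g) (φ := f.toIntAlgHom) P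
  exact this

theorem aeval_castZ {p : ℕ} {L : Type} [Field L] [Algebra (ZMod p) L] {n : ℕ} (z : Fin n → L)
    (Q : MvPolynomial (Fin n) ℤ) :
    MvPolynomial.aeval z (MvPolynomial.map (Int.castRingHom (ZMod p)) Q) =
      MvPolynomial.aeval z Q := by
  rw [MvPolynomial.aeval_def, MvPolynomial.eval₂_map, MvPolynomial.aeval_def]
  congr 1
  exact RingHom.ext_int _ _

theorem aeval_alg {Ω : Type} [Field Ω] {n : ℕ} {y y' : Fin n → Ω}
    (h : ∀ i, IsAlgebraic (Algebra.adjoin ℤ (Set.range y)) (y' i)) (P : MvPolynomial (Fin n) ℤ) :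
    IsAlgebraic (Algebra.adjoin ℤ (Set.range y)) (MvPolynomial.aeval y' P) := by
  induction P using MvPolynomial.induction_on with
  | C a =>
    rw [MvPolynomial.aeval_C]
    have := isAlgebraic_algebraMap (R := Algebra.adjoin ℤ (Set.range y)) (A := Ω)
      (algebraMap ℤ (Algebra.adjoin ℤ (Set.range y)) a)
    simpa using this
  | add p q hp hq => rw [map_add]; exact hp.add hq
  | mul_X p i hp => rw [map_mul, MvPolynomial.aeval_X]; exact hp.mul (h i)

theorem aeval_mem {Ω : Type} [Field Ω] {n : ℕ} {y : Fin n → Ω} (V : ValuationSubring Ω)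
    (hy : ∀ i, y i ∈ V) (P : MvPolynomial (Fin n) ℤ) : MvPolynomial.aeval y P ∈ V := by
  have := map_aevalZ V.subtype (fun i => (⟨y i, hy i⟩ : V)) P
  have h2 : MvPolynomial.aeval y P =
      V.subtype (MvPolynomial.aeval (fun i => (⟨y i, hy i⟩ : V)) P) := this.symm
  rw [h2]
  exact SetLike.coe_mem _

theorem val_one {Ω : Type} [Field Ω] {n : ℕ} {y : Fin n → Ω} {p : ℕ} (V : ValuationSubring Ω)
    (hy : ∀ i, y i ∈ V)
    (hV : ∀ P : MvPolynomial (Fin n) ℤ, V.valuation (MvPolynomial.aeval y P) < 1 ↔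
        (MvPolynomial.C (p : ℤ)) ∣ P) {D d : MvPolynomial (Fin n) ℤ} (hd : d ∣ D)
    (hD : ¬ (MvPolynomial.C (p : ℤ)) ∣ D) : V.valuation (MvPolynomial.aeval y d) = 1 := by
  apply le_antisymm
  · exact (V.valuation_le_one_iff _).mpr (aeval_mem V hy d)
  · by_contra h
    exact hD (((hV d).mp (not_le.mp h)).trans hd)

end RedSpecAux

open RedSpecAux

/-- Specialisation at a generic point in characteristic `p` for two transcendence bases at once.
Proof: `D' :=` product of the denominators `d(y')` of `red_int` for the elements of `S` and `y'`;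
then the denominators `d(y)` of `red_int` with respect to `y` for the elements of
`S ∪ {D'(y')⁻¹}`; `p` a prime not dividing (as polynomials) the product `D` of these; `V` from
`red_val`; `L :=` algebraic closure of the residue field. `D'(y')` is a unit of `V`. By `red_int`
the elements of `π(S)` are algebraic over `ℤ[ȳ']`, so `red_exch` applies; `ȳ` is independent by
`red_val`. -/
theorem red_spec {Ω : Type} [Field Ω] [CharZero Ω] (S : Set Ω) (hS : S.Finite) {n : ℕ}
    (y y' : Fin n → Ω) (hyS : ∀ i, y i ∈ S) (hyS' : ∀ i, y' i ∈ S)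
    (hy : AlgebraicIndependent ℤ y) (hy' : AlgebraicIndependent ℤ y')
    (halg : ∀ s ∈ S, IsAlgebraic (Algebra.adjoin ℤ (Set.range y)) s)
    (halg' : ∀ s ∈ S, IsAlgebraic (Algebra.adjoin ℤ (Set.range y')) s) :
    ∃ (p : ℕ) (_ : Fact p.Prime) (V : ValuationSubring Ω) (L : Type) (_ : Field L)
      (_ : Algebra (AlgebraicClosure (ZMod p)) L) (π : V →+* L) (hSV : ∀ s ∈ S, s ∈ V),
      AlgebraicIndependent (AlgebraicClosure (ZMod p)) (fun i => π ⟨y i, hSV _ (hyS i)⟩) ∧
      AlgebraicIndependent (AlgebraicClosure (ZMod p)) (fun i => π ⟨y' i, hSV _ (hyS' i)⟩) := by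
  classical
  -- denominators with respect to `y'`
  choose d' hd'0 hd' using fun i => red_int y' hy' (y i) (halg' _ (hyS i))
  set D' : MvPolynomial (Fin n) ℤ := ∏ i, d' i with hD'
  have hD'0 : D' ≠ 0 := Finset.prod_ne_zero_iff.mpr fun i _ => hd'0 i
  set u : Ω := MvPolynomial.aeval y' D' with hu
  have hu0 : u ≠ 0 := by
    intro h
    exact hD'0 (by
      have := hy'
      rw [algebraicIndependent_iff] at this
      exact this D' h)
  have hualg : IsAlgebraic (Algebra.adjoin ℤ (Set.range y)) u :=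
    aeval_alg (fun i => halg _ (hyS' i)) D'
  have hwalg : IsAlgebraic (Algebra.adjoin ℤ (Set.range y)) u⁻¹ := hualg.inv
  -- denominators with respect to `y`
  set S' : Finset Ω := insert u⁻¹ hS.toFinset with hS'
  have hS'alg : ∀ s : S', IsAlgebraic (Algebra.adjoin ℤ (Set.range y)) (s : Ω) := by
    rintro ⟨s, hs⟩
    rw [hS', Finset.mem_insert] at hs
    rcases hs with rfl | hs
    · exact hwalg
    · exact halg s (hS.mem_toFinset.mp hs)
  choose d hd0 hd using fun s : S' => red_int y hy (s : Ω) (hS'alg s)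
  set D : MvPolynomial (Fin n) ℤ := ∏ s : S', d s with hD
  have hD0 : D ≠ 0 := Finset.prod_ne_zero_iff.mpr fun i _ => hd0 i
  obtain ⟨p, hp, hpD⟩ := exists_prime hD0
  haveI : Fact p.Prime := ⟨hp⟩
  obtain ⟨V, hyV, hV⟩ := red_val y hy p hp
  have hmem : ∀ s ∈ S', s ∈ V := by
    intro s hs
    have h1 := val_one V hyV hV (Finset.dvd_prod_of_mem d (Finset.mem_univ ⟨s, hs⟩)) hpD
    exact (hd ⟨s, hs⟩ V hyV h1).1
  have hSV : ∀ s ∈ S, s ∈ V := fun s hs =>
    hmem s (Finset.mem_insert_of_mem (hS.mem_toFinset.mpr hs))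
  have hy'V : ∀ i, y' i ∈ V := fun i => hSV _ (hyS' i)
  have huV : u ∈ V := aeval_mem V hy'V D'
  have huV' : u⁻¹ ∈ V := hmem _ (Finset.mem_insert_self _ _)
  have hval' : ∀ i, V.valuation (MvPolynomial.aeval y' (d' i)) = 1 := by
    intro i
    apply le_antisymm
    · exact (V.valuation_le_one_iff _).mpr (aeval_mem V hy'V _)
    · by_contra h
      have h1 := not_le.mp h
      obtain ⟨e, he⟩ := Finset.dvd_prod_of_mem d' (Finset.mem_univ i)
      have h2 : u = MvPolynomial.aeval y' (d' i) * MvPolynomial.aeval y' e := by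
        rw [hu, hD', he, map_mul]
      have h3 : V.valuation u < 1 := by
        rw [h2, map_mul]
        have h4 : V.valuation (MvPolynomial.aeval y' e) ≤ 1 :=
          (V.valuation_le_one_iff _).mpr (aeval_mem V hy'V _)
        calc _ ≤ V.valuation (MvPolynomial.aeval y' (d' i)) * 1 := by gcongr
          _ < 1 := by rw [mul_one]; exact h1
      have h5 : V.valuation u⁻¹ ≤ 1 := (V.valuation_le_one_iff _).mpr huV'
      have h6 : V.valuation u * V.valuation u⁻¹ = 1 := by
        rw [← map_mul, mul_inv_cancel₀ hu0, map_one]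
      have h7 : V.valuation u * V.valuation u⁻¹ < 1 := by
        calc _ ≤ V.valuation u * 1 := by gcongr
          _ < 1 := by rw [mul_one]; exact h3
      exact absurd h6 h7.ne
  -- the residue field
  let k := IsLocalRing.ResidueField V
  let L := AlgebraicClosure k
  let π : V →+* L := (algebraMap k L).comp (IsLocalRing.residue V)
  have hπ0 : ∀ v : V, π v = 0 ↔ V.valuation (v : Ω) < 1 := by
    intro v
    show algebraMap k L (IsLocalRing.residue V v) = 0 ↔ _
    rw [map_eq_zero, IsLocalRing.residue_eq_zero_iff, V.valuation_lt_one_iff]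
  haveI hchar : CharP L p := by
    apply (CharP.charP_iff_prime_eq_zero hp).mpr
    have h1 : ((p : ℕ) : L) = π ((p : ℕ) : V) := by rw [map_natCast]
    rw [h1, hπ0]
    have h2 := (hV (MvPolynomial.C (p : ℤ))).mpr dvd_rfl
    rw [MvPolynomial.aeval_C] at h2
    simpa using h2
  letI : Algebra (ZMod p) L := ZMod.algebra L p
  letI : Algebra (AlgebraicClosure (ZMod p)) L :=
    (IsAlgClosed.lift : AlgebraicClosure (ZMod p) →ₐ[ZMod p] L).toRingHom.toAlgebra
  haveI : IsScalarTower (ZMod p) (AlgebraicClosure (ZMod p)) L :=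
    IsScalarTower.of_algebraMap_eq' (RingHom.ext_zmod _ _)
  have key : AlgebraicIndependent (ZMod p) (fun i => π ⟨y i, hSV _ (hyS i)⟩) := by
    rw [algebraicIndependent_iff]
    intro P hP
    obtain ⟨Q, rfl⟩ := MvPolynomial.map_surjective (Int.castRingHom (ZMod p))
      (ZMod.ringHom_surjective _) P
    have h1 : π ⟨MvPolynomial.aeval y Q, aeval_mem V hyV Q⟩ = 0 := by
      have e1 : (⟨MvPolynomial.aeval y Q, aeval_mem V hyV Q⟩ : V) =
          MvPolynomial.aeval (fun i => (⟨y i, hyV i⟩ : V)) Q := by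
        apply Subtype.ext
        exact (map_aevalZ V.subtype (fun i => (⟨y i, hyV i⟩ : V)) Q).symm
      rw [e1, map_aevalZ π, ← aeval_castZ (p := p)]
      exact hP
    rw [hπ0] at h1
    have h2 := (hV Q).mp h1
    obtain ⟨Q', rfl⟩ := h2
    simp
  have key' : AlgebraicIndependent (ZMod p) (fun i => π ⟨y' i, hSV _ (hyS' i)⟩) := by
    apply red_exch _ _ key
    intro i
    exact (hd' i V hy'V (hval' i)).2 L π
  exact ⟨p, inferInstance, V, L, inferInstance, inferInstance, π, hSV, red_closure _ key,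
    red_closure _ key'⟩

end Pool.Agent.ORG
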