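import Pool.Agent.ORG.RedBN
import Pool.Agent.ORG.RedComp
import Pool.Agent.ORG.RedPrim
import Pool.Agent.ORG.RedSpec
import Pool.Agent.ORG.RedRes
import Pool.Agent.ORG.RedSR
import Pool.Agent.ORG.RedDesc
import Pool.Agent.TLW.Main

set_option autoImplicit false

namespace Pool.Agent.ORG

open Polynomial

/-- lifting a polynomial to a subring containing its coefficients -/
theorem mv_lift {k : Type} [Field k] {n : ℕ} (P : MvPolynomial (Fin n) k) :
    ∃ C : Finset k, ∀ A : Subring k, (C : Set k) ⊆ A →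
      ∃ P' : MvPolynomial (Fin n) A, MvPolynomial.map A.subtype P' = P := by
  classical
  refine ⟨P.support.image fun m => P.coeff m, fun A hA => ?_⟩
  have h1 : P ∈ Set.range (MvPolynomial.map (σ := Fin n) A.subtype) := by
    rw [MvPolynomial.mem_range_map_iff_coeffs_subset]
    intro c hc
    obtain ⟨m, hm, rfl⟩ := MvPolynomial.mem_coeffs_iff.1 hc
    exact ⟨⟨_, hA (Finset.mem_coe.2 (Finset.mem_image.2 ⟨m, hm, rfl⟩))⟩, rfl⟩
  exact h1

theorem yt_lift {k : Type} [Field k] {n : ℕ} (P : YT n k) :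
    ∃ C : Finset k, ∀ A : Subring k, (C : Set k) ⊆ A →
      ∃ P' : YT n A, mapYT A.subtype P' = P := by
  classical
  choose C hC using fun t : ℕ => mv_lift (P.coeff t)
  refine ⟨P.support.biUnion C, fun A hA => ?_⟩
  have h1 : P ∈ Polynomial.lifts (MvPolynomial.map (σ := Fin n) A.subtype) := by
    rw [Polynomial.lifts_iff_coeff_lifts]
    intro t
    by_cases ht : t ∈ P.support
    · obtain ⟨Q, hQ⟩ := hC t A (fun c hc => hA (Finset.mem_coe.2
        (Finset.mem_biUnion.2 ⟨t, ht, hc⟩)))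
      exact ⟨Q, hQ⟩
    · rw [Polynomial.notMem_support_iff.1 ht]
      exact ⟨0, map_zero _⟩
  obtain ⟨P', hP'⟩ := (Polynomial.mem_lifts _).1 h1
  exact ⟨P', hP'⟩

theorem alg_trans {k Ω : Type} [Field k] [Field Ω] [Algebra k Ω] {n : ℕ} (y y' : Fin n → Ω)
    (h : ∀ i, IsAlgebraic (IntermediateField.adjoin k (Set.range y)) (y' i)) (x : Ω)
    (hx : IsAlgebraic (IntermediateField.adjoin k (Set.range y')) x) :
    IsAlgebraic (IntermediateField.adjoin k (Set.range y)) x := by
  let K1 := IntermediateField.adjoin k (Set.range y)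
  let B : IntermediateField K1 Ω := algebraicClosure K1 Ω
  have hB : ∀ z ∈ IntermediateField.adjoin k (Set.range y'), z ∈ B := by
    have h1 : IntermediateField.adjoin k (Set.range y') ≤ B.restrictScalars k := by
      rw [IntermediateField.adjoin_le_iff]
      rintro _ ⟨i, rfl⟩
      exact mem_algebraicClosure_iff.2 (h i)
    intro z hz
    exact h1 hz
  let inc : IntermediateField.adjoin k (Set.range y') →+* B :=
    { toFun := fun z => ⟨z, hB z z.2⟩
      map_one' := rfl
      map_mul' := fun _ _ => rfl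
      map_zero' := rfl
      map_add' := fun _ _ => rfl }
  have h2 : IsAlgebraic B x := by
    refine hx.ringHom_of_comp_eq inc (RingHom.id Ω) ?_ rfl
    intro a b hab
    have := congrArg (fun u : B => (u : Ω)) hab
    exact Subtype.ext this
  have h3 : Algebra.IsAlgebraic K1 B := algebraicClosure.isAlgebraic K1 Ω
  exact IsAlgebraic.restrictScalars K1 h2

/-- compatibility of evaluations with the reduction -/
theorem red_nat {k Ω k' L : Type} [Field k] [Field Ω] [Algebra k Ω] [Field k'] [Field L]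
    [Algebra k' L] (V : ValuationSubring Ω) (π : V →+* L) (ψ : subV (k := k) V →+* k')
    (hψ : (algebraMap k' L).comp ψ = π.comp (subVhom V)) {n : ℕ} (y : Fin n → V) (t : V)
    (P' : YT n (subV (k := k) V)) :
    ∃ v : V, (v : Ω) = evYT (algebraMap k Ω) (fun i => (y i : Ω)) t (mapYT (subV V).subtype P') ∧
      π v = evYT (algebraMap k' L) (fun i => π (y i)) (π t) (mapYT ψ P') := by
  refine ⟨evYT (subVhom V) y t P', ?_, ?_⟩
  · have h1 := map_evYT (subVhom V) V.subtype y t P'
    rw [evYT_map]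
    exact h1
  · rw [map_evYT, evYT_map, hψ]

theorem evYT_C {n : ℕ} {R L : Type} [CommRing R] [CommRing L] (φ : R →+* L) (y : Fin n → L)
    (t : L) (b : MvPolynomial (Fin n) R) : evYT φ y t (C b) = MvPolynomial.eval₂ φ y b := by
  unfold evYT
  rw [Polynomial.eval₂_C]
  rfl

/-- reduction modulo `p` keeping the equality of relations over the algebraic closure -/
theorem exists_red_aux {k : Type} [Field k] [CharZero k] [Algebra ℚ k] [Algebra.IsAlgebraic ℚ k]
    [IsAlgClosed k] {Ω : Type} [Field Ω] [Algebra k Ω] (S : Set Ω)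
    (hS : S.Finite) {ι : Type} [Finite ι] (f h : ι → Ω) (hf : ∀ i, f i ∈ S) (hh : ∀ i, h i ∈ S)
    (hfh : SameRel k f h) :
    ∃ (p : ℕ) (_ : Fact p.Prime) (V : ValuationSubring Ω) (L : Type) (_ : Field L)
      (_ : Algebra (AlgebraicClosure (ZMod p)) L) (π : V →+* L) (hSV : ∀ s ∈ S, s ∈ V),
      SameRel (AlgebraicClosure (ZMod p)) (fun i => π ⟨f i, hSV _ (hf i)⟩)
        (fun i => π ⟨h i, hSV _ (hh i)⟩) := by
  classical
  have hch : CharZero Ω := charZero_of_injective_algebraMap (algebraMap k Ω).injective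
  obtain ⟨κ, hκ, F, H, j, n, Y, hFS, hHS, hFj, hHj, hFH, hHY, hFY, halgH, halgF⟩ :=
    red_complete S hS f h hf hh hfh
  obtain ⟨M, G, b, θ, θ', hM, hirr, hθ, hθ', hG⟩ :=
    red_prim F H hFH Y hHY (fun i => halgH _ (hHS i))
  obtain ⟨Λ, hΛ⟩ := red_bn M hM hirr
  obtain ⟨CM, hCM⟩ := yt_lift M
  choose CG hCG using fun i => yt_lift (G i)
  choose Cb hCb using fun i => mv_lift (b i)
  let y : Fin n → Ω := fun i => H (Y i)
  let y' : Fin n → Ω := fun i => F (Y i)
  let K1 := IntermediateField.adjoin k (Set.range y)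
  let cst : Set k := (Λ : Set k) ∪ CM ∪ (⋃ i, (CG i : Set k)) ∪ (⋃ i, (Cb i : Set k))
  have hcst : cst.Finite := by
    refine Set.Finite.union (Set.Finite.union (Set.Finite.union (Finset.finite_toSet _)
      (Finset.finite_toSet _)) ?_) ?_
    · exact Set.finite_iUnion fun i => Finset.finite_toSet _
    · exact Set.finite_iUnion fun i => Finset.finite_toSet _
  let S' : Set Ω := S ∪ {θ, θ'} ∪ (algebraMap k Ω '' cst) ∪
    Set.range (fun i : κ => (MvPolynomial.aeval y (b i))⁻¹)
  have hS' : S'.Finite := by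
    refine Set.Finite.union (Set.Finite.union (Set.Finite.union hS ?_) (hcst.image _))
      (Set.finite_range _)
    exact (Set.finite_singleton θ').insert θ
  have hSS' : S ⊆ S' := fun s hs => Or.inl (Or.inl (Or.inl hs))
  have hyS : ∀ i, y i ∈ S := fun i => hHS _
  have hyS2 : ∀ i, y' i ∈ S := fun i => hFS _
  -- algebraicity
  have hroot : ∀ (z : Fin n → Ω) (t : Ω), evYT (algebraMap k Ω) z t M = 0 →
      IsAlgebraic (IntermediateField.adjoin k (Set.range z)) t := by
    intro z t ht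
    let Kz := IntermediateField.adjoin k (Set.range z)
    let zz : Fin n → Kz := fun i => ⟨z i, IntermediateField.subset_adjoin k _ ⟨i, rfl⟩⟩
    refine ⟨M.map (MvPolynomial.eval₂Hom (algebraMap k Kz) zz), (hM.map _).ne_zero, ?_⟩
    rw [Polynomial.aeval_def, Polynomial.eval₂_map]
    have h1 : (algebraMap Kz Ω).comp (MvPolynomial.eval₂Hom (algebraMap k Kz) zz) =
        MvPolynomial.eval₂Hom (algebraMap k Ω) z := by
      apply MvPolynomial.ringHom_ext
      · intro r
        rw [RingHom.comp_apply, MvPolynomial.eval₂Hom_C, MvPolynomial.eval₂Hom_C,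
          ← IsScalarTower.algebraMap_apply k Kz Ω]
      · intro i
        rw [RingHom.comp_apply, MvPolynomial.eval₂Hom_X', MvPolynomial.eval₂Hom_X']
        rfl
    rw [h1]
    exact ht
  have halg1 : ∀ s ∈ S', IsAlgebraic K1 s := by
    intro s hs
    rcases hs with ((hs | hs) | hs) | hs
    · exact halgH s hs
    · rcases hs with hs | hs
      · rw [hs]
        exact hroot y θ hθ
      · rw [Set.mem_singleton_iff] at hs
        rw [hs]
        exact alg_trans y y' (fun i => halgH _ (hFS _)) θ' (hroot y' θ' hθ')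
    · obtain ⟨c, -, rfl⟩ := hs
      have h1 : algebraMap k Ω c = algebraMap K1 Ω (algebraMap k K1 c) := rfl
      rw [h1]
      exact isAlgebraic_algebraMap _
    · obtain ⟨i, rfl⟩ := hs
      have hmem : ∀ Q : MvPolynomial (Fin n) k, MvPolynomial.aeval y Q ∈ K1 := by
        intro Q
        have h1 : MvPolynomial.aeval y Q ∈ (MvPolynomial.aeval y : _ →ₐ[k] Ω).range := ⟨Q, rfl⟩
        rw [← Algebra.adjoin_range_eq_range_aeval] at h1
        exact IntermediateField.algebra_adjoin_le_adjoin k _ h1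
      have h2 : (MvPolynomial.aeval y (b i))⁻¹ ∈ K1 := inv_mem (hmem (b i))
      exact isAlgebraic_algebraMap (⟨_, h2⟩ : K1)
  have halg2 : ∀ s ∈ S', IsAlgebraic (IntermediateField.adjoin k (Set.range y')) s := fun s hs =>
    alg_trans y' y (fun i => halgF _ (hHS _)) s (halg1 s hs)
  have hZ : Function.Injective (algebraMap ℤ k) := (algebraMap ℤ k).injective_int
  have hyZ : AlgebraicIndependent ℤ y := AlgebraicIndependent.restrictScalars hZ hHY
  have hyZ' : AlgebraicIndependent ℤ y' := AlgebraicIndependent.restrictScalars hZ hFY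
  obtain ⟨p, hp, V, L, fL, aL, π, hSV, hind, hind'⟩ := red_spec S' hS' y y'
    (fun i => hSS' (hyS i)) (fun i => hSS' (hyS2 i)) hyZ hyZ' (fun s hs => red_desc y s (halg1 s hs))
    (fun s hs => red_desc y' s (halg2 s hs))
  refine ⟨p, hp, V, L, fL, aL, π, fun s hs => hSV s (hSS' hs), ?_⟩
  let A : Subring k := subV V
  obtain ⟨ψ, hψ⟩ := red_res (p := p) A (π.comp (subVhom V))
  have hcA : ∀ c ∈ cst, c ∈ A := fun c hc => hSV _ (Or.inl (Or.inr ⟨c, hc, rfl⟩))
  obtain ⟨M', hM'⟩ := hCM A (fun c hc => hcA c (Or.inl (Or.inl (Or.inr hc))))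
  choose G' hG' using fun i => hCG i A (fun c hc => hcA c
    (Or.inl (Or.inr (Set.mem_iUnion.2 ⟨i, hc⟩))))
  choose b' hb' using fun i => hCb i A (fun c hc => hcA c
    (Or.inr (Set.mem_iUnion.2 ⟨i, hc⟩)))
  have hirr' : Irreducible (mapYT ψ M') :=
    hΛ A (fun c hc => hcA c (Or.inl (Or.inl (Or.inl hc)))) M' hM' _ ψ
  have hM'mon : M'.Monic := by
    have hinj : Function.Injective (MvPolynomial.map (σ := Fin n) A.subtype) :=
      MvPolynomial.map_injective _ Subtype.val_injective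
    apply Polynomial.monic_of_injective hinj
    show (mapYT A.subtype M').Monic
    rw [hM']
    exact hM
  let yV : Fin n → V := fun i => ⟨y i, hSV _ (hSS' (hyS i))⟩
  let yV' : Fin n → V := fun i => ⟨y' i, hSV _ (hSS' (hyS2 i))⟩
  let tV : V := ⟨θ, hSV _ (Or.inl (Or.inl (Or.inr (Or.inl rfl))))⟩
  let tV' : V := ⟨θ', hSV _ (Or.inl (Or.inl (Or.inr (Or.inr rfl))))⟩
  have hHV : ∀ i, H i ∈ V := fun i => hSV _ (hSS' (hHS i))
  have hFV : ∀ i, F i ∈ V := fun i => hSV _ (hSS' (hFS i))
  -- evaluations of `b i`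
  have hbv : ∀ (z : Fin n → V) (i : κ), ∃ v : V,
      (v : Ω) = MvPolynomial.aeval (fun a => (z a : Ω)) (b i) ∧
      π v = MvPolynomial.aeval (fun a => π (z a)) (MvPolynomial.map ψ (b' i)) := by
    intro z i
    obtain ⟨v, hv1, hv2⟩ := red_nat V π ψ hψ z 0 (C (b' i))
    refine ⟨v, ?_, ?_⟩
    · rw [hv1]
      have h1 : mapYT A.subtype (C (b' i)) = C (b i) := by
        unfold mapYT
        rw [Polynomial.map_C, hb' i]
      rw [h1, evYT_C]
      rfl
    · rw [hv2]
      have h1 : mapYT ψ (C (b' i)) = C (MvPolynomial.map ψ (b' i)) := by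
        unfold mapYT
        rw [Polynomial.map_C]
      rw [h1, evYT_C]
      rfl
  have hbne : ∀ i, MvPolynomial.map ψ (b' i) ≠ 0 := by
    intro i h0
    obtain ⟨v, hv1, hv2⟩ := hbv yV i
    rw [h0, map_zero] at hv2
    have h1 : (MvPolynomial.aeval y (b i)) ≠ 0 := by
      intro h2
      have h3 : MvPolynomial.aeval y (b i) =
          MvPolynomial.aeval y (0 : MvPolynomial (Fin n) k) := by rw [h2, map_zero]
      exact (hG i).1 (hHY h3)
    have h2 : (MvPolynomial.aeval y (b i))⁻¹ ∈ V := hSV _ (Or.inr ⟨i, rfl⟩)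
    have h3 : v * ⟨_, h2⟩ = 1 := by
      apply Subtype.ext
      show (v : Ω) * (MvPolynomial.aeval y (b i))⁻¹ = 1
      rw [hv1]
      exact mul_inv_cancel₀ h1
    have h4 := congrArg π h3
    rw [map_mul, hv2, zero_mul, map_one] at h4
    exact zero_ne_one h4
  -- roots
  have hr1 : evYT (algebraMap (AlgebraicClosure (ZMod p)) L) (fun i => π (yV i)) (π tV)
      (mapYT ψ M') = 0 := by
    obtain ⟨v, hv1, hv2⟩ := red_nat V π ψ hψ yV tV M'
    rw [← hv2]
    have h1 : v = 0 := by
      apply Subtype.ext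
      rw [hv1]
      have h2 : mapYT (subV V).subtype M' = M := hM'
      rw [h2]
      exact hθ
    rw [h1, map_zero]
  have hr2 : evYT (algebraMap (AlgebraicClosure (ZMod p)) L) (fun i => π (yV' i)) (π tV')
      (mapYT ψ M') = 0 := by
    obtain ⟨v, hv1, hv2⟩ := red_nat V π ψ hψ yV' tV' M'
    rw [← hv2]
    have h1 : v = 0 := by
      apply Subtype.ext
      rw [hv1]
      have h2 : mapYT (subV V).subtype M' = M := hM'
      rw [h2]
      exact hθ'
    rw [h1, map_zero]
  have hmain : SameRel (AlgebraicClosure (ZMod p)) (fun i => π ⟨F i, hFV i⟩)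
      (fun i => π ⟨H i, hHV i⟩) := by
    refine red_sr (fun i => π (yV i)) (fun i => π (yV' i)) hind hind' (mapYT ψ M')
      (hM'mon.map _) hirr' (π tV) (π tV') hr1 hr2 _ _ (fun i => mapYT ψ (G' i))
      (fun i => MvPolynomial.map ψ (b' i)) hbne ?_ ?_
    · intro i
      obtain ⟨v, hv1, hv2⟩ := hbv yV i
      obtain ⟨u, hu1, hu2⟩ := red_nat V π ψ hψ yV tV (G' i)
      rw [← hv2, ← hu2, ← map_mul]
      congr 1
      apply Subtype.ext
      show (v : Ω) * H i = u
      rw [hv1, hu1]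
      have h2 : mapYT (subV V).subtype (G' i) = G i := hG' i
      rw [h2]
      exact (hG i).2.1
    · intro i
      obtain ⟨v, hv1, hv2⟩ := hbv yV' i
      obtain ⟨u, hu1, hu2⟩ := red_nat V π ψ hψ yV' tV' (G' i)
      rw [← hv2, ← hu2, ← map_mul]
      congr 1
      apply Subtype.ext
      show (v : Ω) * F i = u
      rw [hv1, hu1]
      have h2 : mapYT (subV V).subtype (G' i) = G i := hG' i
      rw [h2]
      exact (hG i).2.2
  intro P
  have h1 := hmain (MvPolynomial.rename j P)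
  rw [MvPolynomial.aeval_rename, MvPolynomial.aeval_rename] at h1
  have h2 : (fun i => π ⟨F i, hFV i⟩) ∘ j =
      fun i => π ⟨f i, hSV _ (hSS' (hf i))⟩ := by
    funext i
    show π ⟨F (j i), _⟩ = π ⟨f i, _⟩
    congr 1
    exact Subtype.ext (hFj i)
  have h3 : (fun i => π ⟨H i, hHV i⟩) ∘ j =
      fun i => π ⟨h i, hSV _ (hSS' (hh i))⟩ := by
    funext i
    show π ⟨H (j i), _⟩ = π ⟨h i, _⟩
    congr 1
    exact Subtype.ext (hHj i)
  rw [h2, h3] at h1
  exact h1

/-- reduction modulo `p` keeping the equality of relations over the algebraic closure -/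
theorem exists_red {Ω : Type} [Field Ω] [Algebra (AlgebraicClosure ℚ) Ω] (S : Set Ω)
    (hS : S.Finite) {ι : Type} [Finite ι] (f h : ι → Ω) (hf : ∀ i, f i ∈ S) (hh : ∀ i, h i ∈ S)
    (hfh : SameRel (AlgebraicClosure ℚ) f h) :
    ∃ (p : ℕ) (_ : Fact p.Prime) (V : ValuationSubring Ω) (L : Type) (_ : Field L)
      (_ : Algebra (AlgebraicClosure (ZMod p)) L) (π : V →+* L) (hSV : ∀ s ∈ S, s ∈ V),
      SameRel (AlgebraicClosure (ZMod p)) (fun i => π ⟨f i, hSV _ (hf i)⟩)
        (fun i => π ⟨h i, hSV _ (hh i)⟩) := by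
  have h1 : @Algebra.IsAlgebraic ℚ (AlgebraicClosure ℚ) _ _ (AlgebraicClosure.instAlgebra ℚ) :=
    AlgebraicClosure.isAlgebraic ℚ
  exact @exists_red_aux (AlgebraicClosure ℚ) _ _ (AlgebraicClosure.instAlgebra ℚ) h1 _ Ω _ _ S hS ι _
    f h hf hh hfh

/-- with the twisted Lang-Weil theorem: a point over the algebraic closure of the prime field where
`f` is the Frobenius of `h` -/
theorem red_main {Ω : Type} [Field Ω] [Algebra (AlgebraicClosure ℚ) Ω] (S : Set Ω)
    (hS : S.Finite) {ι : Type} [Finite ι] (f h : ι → Ω) (hf : ∀ i, f i ∈ S) (hh : ∀ i, h i ∈ S)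
    (hfh : SameRel (AlgebraicClosure ℚ) f h) :
    ∃ (p : ℕ) (_ : Fact p.Prime) (s : ℕ)
      (φ : Subring.closure S →+* AlgebraicClosure (ZMod p)), 0 < s ∧
      ∀ i, φ ⟨f i, Subring.subset_closure (hf i)⟩ =
        φ ⟨h i, Subring.subset_closure (hh i)⟩ ^ (p ^ s) := by
  classical
  obtain ⟨p, hp, V, L, fL, aL, π, hSV, hrel⟩ := exists_red S hS f h hf hh hfh
  let algP : Algebra (ZMod p) L := ((algebraMap (AlgebraicClosure (ZMod p)) L).comp
    (algebraMap (ZMod p) (AlgebraicClosure (ZMod p)))).toAlgebra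
  have : IsScalarTower (ZMod p) (AlgebraicClosure (ZMod p)) L :=
    IsScalarTower.of_algebraMap_eq fun _ => rfl
  have hle : Subring.closure S ≤ V.toSubring := Subring.closure_le.2 fun s hs => hSV s hs
  let π' : Subring.closure S →+* L := π.comp (Subring.inclusion hle)
  let T : Set L := Set.range fun s : S => π ⟨s, hSV s s.2⟩
  have hT : T.Finite := by
    have : Finite S := hS
    exact Set.finite_range _
  let R₀ : Subalgebra (ZMod p) L := Algebra.adjoin (ZMod p) T
  have hR : R₀.FG := ⟨hT.toFinset, by rw [Set.Finite.coe_toFinset]⟩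
  have hπ' : ∀ x : Subring.closure S, π' x ∈ R₀ := by
    rintro ⟨x, hx⟩
    induction hx using Subring.closure_induction with
    | mem x hx => exact Algebra.subset_adjoin ⟨⟨x, hx⟩, rfl⟩
    | zero => exact (map_zero π').symm ▸ R₀.zero_mem
    | one => exact (map_one π').symm ▸ R₀.one_mem
    | add x y hx hy h1 h2 =>
      have : π' ⟨x + y, Subring.add_mem _ hx hy⟩ = π' ⟨x, hx⟩ + π' ⟨y, hy⟩ :=
        map_add π' ⟨x, hx⟩ ⟨y, hy⟩
      rw [this]
      exact R₀.add_mem h1 h2
    | neg x hx h1 =>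
      have : π' ⟨-x, Subring.neg_mem _ hx⟩ = - π' ⟨x, hx⟩ := map_neg π' ⟨x, hx⟩
      rw [this]
      exact R₀.neg_mem h1
    | mul x y hx hy h1 h2 =>
      have : π' ⟨x * y, Subring.mul_mem _ hx hy⟩ = π' ⟨x, hx⟩ * π' ⟨y, hy⟩ :=
        map_mul π' ⟨x, hx⟩ ⟨y, hy⟩
      rw [this]
      exact R₀.mul_mem h1 h2
  let π₀ : Subring.closure S →+* R₀ := π'.codRestrict R₀ hπ'
  let f₀ : ι → R₀ := fun i => π₀ ⟨f i, Subring.subset_closure (hf i)⟩
  let h₀ : ι → R₀ := fun i => π₀ ⟨h i, Subring.subset_closure (hh i)⟩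
  obtain ⟨s, C, hs, hC⟩ := Pool.Agent.TLW.twisted R₀ hR f₀ h₀ (fun P => hrel P)
  obtain ⟨φ, hφ⟩ := hC (max C 1) (le_max_left _ _)
  refine ⟨p, hp, s * max C 1, (φ : R₀ →+* AlgebraicClosure (ZMod p)).comp π₀, ?_, fun i => hφ i⟩
  exact Nat.mul_pos hs (lt_of_lt_of_le Nat.zero_lt_one (le_max_right _ _))

end Pool.Agent.ORG
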