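import Pool.Agent.ORG.FinDefs
import Pool.Agent.ORG.RedMain

set_option autoImplicit false

namespace Pool.Agent.ORG

/-- reindexing -/
private theorem fs_comp {k J J' E E' : Type} [Field k] [Field E] [Algebra k E] [Field E']
    [Algebra k E'] {a : J → E} {b : J → E'} (h : SameRel k a b) (e : J' → J) :
    SameRel k (fun j => a (e j)) (fun j => b (e j)) := by
  intro P
  have h1 := h (MvPolynomial.rename e P)
  rw [MvPolynomial.aeval_rename, MvPolynomial.aeval_rename] at h1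
  exact h1

/-- From a configuration over `Ω ⊇ ℚ̄` to a configuration over the algebraic closure of `𝔽_p` with a
Frobenius relation between the levels `t` and `t + M`. Proof: `S` := the (finitely many) values of
`x` on the levels `0 ≤ t ≤ M + G`, the inverses of the determinants there, and `1 / c` for a nonzero
entry `c` of `U_w(v₀) - 1`; `ι := (Γ₀ ⧸ Γ') × {0..G} × letters`; apply `red_main`; the matrices lie
in `GL₂(Subring.closure S)` on these levels; `u` := their images under `φ`, and `1` on the other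
levels; use `U_map` for `Subring.closure S → Ω` (injective) and for `φ`, and `Dep`. -/
theorem fin_spec {Ω : Type} [Field Ω] [Algebra (AlgebraicClosure ℚ) Ω] {X Γ₀ Δ : Type} [Finite X]
    [AddCommGroup Γ₀] [AddCommGroup Δ] [Finite Δ]
    (P : FreeGroup X →* Multiplicative ((Γ₀ × ℤ) × Δ)) (Γ' : AddSubgroup Γ₀)
    (hfi : Γ'.FiniteIndex) (M G : ℕ) (hGM : G < M) (x : (Γ₀ × ℤ) × LI Δ X → Ω)
    (hper : ∀ γ ∈ Γ', ∀ v : (Γ₀ × ℤ) × LI Δ X, x ((γ + v.1.1, v.1.2), v.2) = x v)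
    (hsame : SameRel (AlgebraicClosure ℚ) (res x (lev 0 (G : ℤ)))
      (fun v : Ix (LI Δ X) (lev 0 (G : ℤ) : Set (Γ₀ × ℤ)) => x ((v.1.1.1, v.1.1.2 + M), v.1.2)))
    (hdet : ∀ v : (Γ₀ × ℤ) × Δ, 0 ≤ v.1.2 → v.1.2 ≤ M + G → ∀ j, IsUnit (mat x v j).det)
    (w : FreeGroup X) (Sw : Finset ((Γ₀ × ℤ) × Δ)) (hSw : Dep P w Sw) (v₀ : (Γ₀ × ℤ) × Δ)
    (hv₀ : ∀ d ∈ Sw, 0 ≤ v₀.1.2 + d.1.2 ∧ v₀.1.2 + d.1.2 ≤ M + G)
    (hw : U P (cfg x) w v₀ ≠ 1) :
    ∃ (p : ℕ) (_ : Fact p.Prime) (s : ℕ)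
      (u : ((Γ₀ × ℤ) × Δ) → X → GL2 (AlgebraicClosure (ZMod p))), 0 < s ∧
      (∀ γ ∈ Γ', ∀ (v : (Γ₀ × ℤ) × Δ) (j : X), u ((γ + v.1.1, v.1.2), v.2) j = u v j) ∧
      (∀ v : (Γ₀ × ℤ) × Δ, 0 ≤ v.1.2 → v.1.2 ≤ G → ∀ (j : X) (a b : Fin 2),
        (u ((v.1.1, v.1.2 + M), v.2) j).1 a b = ((u v j).1 a b) ^ (p ^ s)) ∧
      (∀ (r : FreeGroup X) (Sr : Finset ((Γ₀ × ℤ) × Δ)), Dep P r Sr → ∀ v : (Γ₀ × ℤ) × Δ,
        (∀ d ∈ Sr, 0 ≤ v.1.2 + d.1.2 ∧ v.1.2 + d.1.2 ≤ M + G) →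
        U P (cfg x) r v = 1 → U P u r v = 1) ∧
      U P u w v₀ ≠ 1 := by
  classical
  have hfinQ : Finite (Γ₀ ⧸ Γ') := inferInstance
  -- representatives
  have hrep : ∀ γ : Γ₀, ∃ g ∈ Γ', ((QuotientAddGroup.mk γ : Γ₀ ⧸ Γ').out) = g + γ := by
    intro γ
    obtain ⟨h, hh⟩ := QuotientAddGroup.mk_out_eq_add Γ' γ
    exact ⟨h.1, h.2, by rw [hh, add_comm]⟩
  have hxrep : ∀ (γ : Γ₀) (t : ℤ) (l : LI Δ X),
      x (((QuotientAddGroup.mk γ : Γ₀ ⧸ Γ').out, t), l) = x ((γ, t), l) := by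
    intro γ t l
    obtain ⟨g, hg, h⟩ := hrep γ
    rw [h]
    exact hper g hg ((γ, t), l)
  have hmrep : ∀ (γ : Γ₀) (t : ℤ) (δ : Δ) (j : X),
      mat x (((QuotientAddGroup.mk γ : Γ₀ ⧸ Γ').out, t), δ) j = mat x ((γ, t), δ) j := by
    intro γ t δ j
    ext a b
    exact hxrep γ t (δ, j, a, b)
  -- a nonzero entry
  obtain ⟨a₀, b₀, hc⟩ : ∃ a b : Fin 2,
      (U P (cfg x) w v₀).1 a b - (1 : Matrix (Fin 2) (Fin 2) Ω) a b ≠ 0 := by
    by_contra hcon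
    push Not at hcon
    apply hw
    apply Units.ext
    ext a b
    exact sub_eq_zero.1 (hcon a b)
  set c : Ω := (U P (cfg x) w v₀).1 a₀ b₀ - (1 : Matrix (Fin 2) (Fin 2) Ω) a₀ b₀ with hcdef
  let A : Set Ω := Set.range (fun q : (Γ₀ ⧸ Γ') × Set.Icc (0 : ℤ) (M + G) × LI Δ X =>
    x ((q.1.out, q.2.1.1), q.2.2))
  let B : Set Ω := Set.range (fun q : (Γ₀ ⧸ Γ') × Set.Icc (0 : ℤ) (M + G) × Δ × X =>
    ((mat x ((q.1.out, q.2.1.1), q.2.2.1) q.2.2.2).det)⁻¹)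
  let S : Set Ω := (A ∪ B) ∪ {c⁻¹}
  have hA : A.Finite := Set.finite_range _
  have hB : B.Finite := Set.finite_range _
  have hS : S.Finite := (hA.union hB).union (Set.finite_singleton _)
  have hxS : ∀ v : (Γ₀ × ℤ) × LI Δ X, 0 ≤ v.1.2 → v.1.2 ≤ M + G → x v ∈ S := by
    rintro ⟨⟨γ, t⟩, l⟩ h0 h1
    exact Or.inl (Or.inl ⟨(QuotientAddGroup.mk γ, ⟨t, h0, h1⟩, l), hxrep γ t l⟩)
  have hdS : ∀ (v : (Γ₀ × ℤ) × Δ) (j : X), 0 ≤ v.1.2 → v.1.2 ≤ M + G →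
      ((mat x v j).det)⁻¹ ∈ S := by
    rintro ⟨⟨γ, t⟩, δ⟩ j h0 h1
    refine Or.inl (Or.inr ⟨(QuotientAddGroup.mk γ, ⟨t, h0, h1⟩, δ, j), ?_⟩)
    show ((mat x (((QuotientAddGroup.mk γ : Γ₀ ⧸ Γ').out, t), δ) j).det)⁻¹ = _
    rw [hmrep]
  have hcS : c⁻¹ ∈ S := Or.inr rfl
  -- the finite index family
  let ι := (Γ₀ ⧸ Γ') × Set.Icc (0 : ℤ) G × LI Δ X
  have hGle : ∀ t : Set.Icc (0 : ℤ) G, 0 ≤ t.1 ∧ t.1 ≤ M + G := fun t =>
    ⟨t.2.1, by have := t.2.2; omega⟩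
  have hGle' : ∀ t : Set.Icc (0 : ℤ) G, 0 ≤ t.1 + M ∧ t.1 + M ≤ M + G := fun t =>
    ⟨by have := t.2.1; omega, by have := t.2.2; omega⟩
  let f : ι → Ω := fun q => x ((q.1.out, q.2.1.1 + M), q.2.2)
  let h : ι → Ω := fun q => x ((q.1.out, q.2.1.1), q.2.2)
  have hf : ∀ i, f i ∈ S := fun q => hxS _ (hGle' q.2.1).1 (hGle' q.2.1).2
  have hh : ∀ i, h i ∈ S := fun q => hxS _ (hGle q.2.1).1 (hGle q.2.1).2
  have hfh : SameRel (AlgebraicClosure ℚ) f h := by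
    have h1 := fs_comp hsame (fun q : ι => (⟨((q.1.out, q.2.1.1), q.2.2),
      ⟨q.2.1.2.1, q.2.1.2.2⟩⟩ : Ix (LI Δ X) (lev 0 (G : ℤ) : Set (Γ₀ × ℤ))))
    intro Q
    exact (h1 Q).symm
  obtain ⟨p, hp, s, φ, hs, hφ⟩ := red_main S hS f h hf hh hfh
  -- the configuration over the subring
  let y : (Γ₀ × ℤ) × LI Δ X → Subring.closure S := fun v =>
    if hv : x v ∈ Subring.closure S then ⟨x v, hv⟩ else 0
  have hy : ∀ (v : (Γ₀ × ℤ) × LI Δ X) (h0 : 0 ≤ v.1.2) (h1 : v.1.2 ≤ M + G),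
      y v = ⟨x v, Subring.subset_closure (hxS v h0 h1)⟩ := by
    intro v h0 h1
    exact dif_pos (Subring.subset_closure (hxS v h0 h1))
  have hyper : ∀ γ ∈ Γ', ∀ v : (Γ₀ × ℤ) × LI Δ X, y ((γ + v.1.1, v.1.2), v.2) = y v := by
    intro γ hγ v
    have h1 := hper γ hγ v
    show (if hv : x ((γ + v.1.1, v.1.2), v.2) ∈ Subring.closure S then
      (⟨x ((γ + v.1.1, v.1.2), v.2), hv⟩ : Subring.closure S) else 0) = _
    simp only [h1]
    rfl
  have hymat : ∀ γ ∈ Γ', ∀ (v : (Γ₀ × ℤ) × Δ) (j : X),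
      mat y ((γ + v.1.1, v.1.2), v.2) j = mat y v j := by
    intro γ hγ v j
    ext a b
    exact congrArg _ (hyper γ hγ (v.1, (v.2, j, a, b)))
  have hdety : ∀ (v : (Γ₀ × ℤ) × Δ) (j : X), 0 ≤ v.1.2 → v.1.2 ≤ M + G →
      IsUnit (mat y v j).det ∧ (Subring.closure S).subtype.mapMatrix (mat y v j) = mat x v j := by
    intro v j h0 h1
    have h2 : (Subring.closure S).subtype.mapMatrix (mat y v j) = mat x v j := by
      ext a b
      show ((y (v.1, (v.2, j, a, b)) : Subring.closure S) : Ω) = x (v.1, (v.2, j, a, b))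
      rw [hy _ h0 h1]
    refine ⟨?_, h2⟩
    have h3 : (Subring.closure S).subtype (mat y v j).det = (mat x v j).det := by
      rw [RingHom.map_det, h2]
    have h4 : ((mat x v j).det)⁻¹ ∈ Subring.closure S := Subring.subset_closure (hdS v j h0 h1)
    refine IsUnit.of_mul_eq_one (⟨_, h4⟩ : Subring.closure S) ?_
    apply Subtype.ext
    show ((mat y v j).det : Ω) * ((mat x v j).det)⁻¹ = 1
    have h5 : ((mat y v j).det : Ω) = (mat x v j).det := h3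
    rw [h5]
    exact mul_inv_cancel₀ (hdet v h0 h1 j).ne_zero
  have hcfg : ∀ (v : (Γ₀ × ℤ) × Δ) (j : X), 0 ≤ v.1.2 → v.1.2 ≤ M + G →
      Matrix.GeneralLinearGroup.map (Subring.closure S).subtype (cfg y v j) = cfg x v j := by
    intro v j h0 h1
    apply Units.ext
    show (Subring.closure S).subtype.mapMatrix (cfg y v j).1 = _
    rw [cfg_val y v j (hdety v j h0 h1).1, cfg_val x v j (hdet v h0 h1 j)]
    exact (hdety v j h0 h1).2
  have hinj : Function.Injective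
      (Matrix.GeneralLinearGroup.map (n := Fin 2) (Subring.closure S).subtype) := by
    intro g g' hg
    apply Units.ext
    ext a b
    have h1 : (Matrix.GeneralLinearGroup.map (Subring.closure S).subtype g).1 a b =
      (Matrix.GeneralLinearGroup.map (Subring.closure S).subtype g').1 a b := by rw [hg]
    exact h1
  have hUx : ∀ (r : FreeGroup X) (Sr : Finset ((Γ₀ × ℤ) × Δ)), Dep P r Sr →
      ∀ v : (Γ₀ × ℤ) × Δ, (∀ d ∈ Sr, 0 ≤ v.1.2 + d.1.2 ∧ v.1.2 + d.1.2 ≤ M + G) →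
      Matrix.GeneralLinearGroup.map (Subring.closure S).subtype (U P (cfg y) r v) =
        U P (cfg x) r v := by
    intro r Sr hSr v hv
    rw [← U_map]
    apply hSr
    intro d hd j
    exact hcfg (v + d) j (hv d hd).1 (hv d hd).2
  refine ⟨p, hp, s, fun v j => Matrix.GeneralLinearGroup.map φ (cfg y v j), hs, ?_, ?_, ?_, ?_⟩
  · intro γ hγ v j
    have h1 : cfg y ((γ + v.1.1, v.1.2), v.2) j = cfg y v j := by
      unfold cfg
      simp only [hymat γ hγ v j]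
    show Matrix.GeneralLinearGroup.map φ (cfg y ((γ + v.1.1, v.1.2), v.2) j) = _
    rw [h1]
  · intro v h0 h1 j a b
    have h2 : v.1.2 ≤ M + G := by omega
    have h3 : 0 ≤ v.1.2 + M := by omega
    have h4 : v.1.2 + M ≤ M + G := by omega
    show φ ((cfg y ((v.1.1, v.1.2 + M), v.2) j).1 a b) = (φ ((cfg y v j).1 a b)) ^ (p ^ s)
    rw [cfg_val y _ j (hdety ((v.1.1, v.1.2 + M), v.2) j h3 h4).1,
      cfg_val y v j (hdety v j h0 h2).1]
    show φ (y ((v.1.1, v.1.2 + M), (v.2, j, a, b))) = (φ (y (v.1, (v.2, j, a, b)))) ^ (p ^ s)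
    rw [hy ((v.1.1, v.1.2 + M), (v.2, j, a, b)) h3 h4, hy (v.1, (v.2, j, a, b)) h0 h2]
    have h5 := hφ (QuotientAddGroup.mk v.1.1, ⟨v.1.2, h0, h1⟩, (v.2, j, a, b))
    have h6 : f (QuotientAddGroup.mk v.1.1, ⟨v.1.2, h0, h1⟩, (v.2, j, a, b)) =
        x ((v.1.1, v.1.2 + M), (v.2, j, a, b)) := hxrep _ _ _
    have h7 : h (QuotientAddGroup.mk v.1.1, ⟨v.1.2, h0, h1⟩, (v.2, j, a, b)) =
        x (v.1, (v.2, j, a, b)) := hxrep _ _ _
    simp only [h6, h7] at h5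
    exact h5
  · intro r Sr hSr v hv hr
    rw [U_map]
    have h1 := hUx r Sr hSr v hv
    rw [hr] at h1
    have h2 : U P (cfg y) r v = 1 := hinj (by rw [h1, map_one])
    rw [h2, map_one]
  · intro hcon
    rw [U_map] at hcon
    have h1 := hUx w Sw hSw v₀ hv₀
    let d : Subring.closure S := (U P (cfg y) w v₀).1 a₀ b₀ -
      (1 : Matrix (Fin 2) (Fin 2) (Subring.closure S)) a₀ b₀
    have hd : (d : Ω) = c := by
      have h2 : ((U P (cfg y) w v₀).1 a₀ b₀ : Ω) = (U P (cfg x) w v₀).1 a₀ b₀ := by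
        rw [← h1]
        rfl
      have h3 : ((1 : Matrix (Fin 2) (Fin 2) (Subring.closure S)) a₀ b₀ : Ω) =
          (1 : Matrix (Fin 2) (Fin 2) Ω) a₀ b₀ := by
        rw [Matrix.one_apply, Matrix.one_apply]
        split_ifs <;> rfl
      rw [hcdef, ← h2, ← h3]
      rfl
    have hdu : d * ⟨c⁻¹, Subring.subset_closure hcS⟩ = 1 := by
      apply Subtype.ext
      show (d : Ω) * c⁻¹ = 1
      rw [hd]
      exact mul_inv_cancel₀ hc
    have h2 : φ d = 0 := by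
      have h3 : φ ((U P (cfg y) w v₀).1 a₀ b₀) =
          (1 : Matrix (Fin 2) (Fin 2) (AlgebraicClosure (ZMod p))) a₀ b₀ := by
        have h4 := congrArg (fun g : GL2 (AlgebraicClosure (ZMod p)) => g.1 a₀ b₀) hcon
        exact h4
      have h5 : φ ((1 : Matrix (Fin 2) (Fin 2) (Subring.closure S)) a₀ b₀) =
          (1 : Matrix (Fin 2) (Fin 2) (AlgebraicClosure (ZMod p))) a₀ b₀ := by
        rw [Matrix.one_apply, Matrix.one_apply]
        split_ifs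
        · exact map_one φ
        · exact map_zero φ
      show φ (_ - _) = 0
      rw [map_sub, h3, h5, sub_self]
    have h3 := congrArg φ hdu
    rw [map_mul, h2, zero_mul, map_one] at h3
    exact zero_ne_one h3

end Pool.Agent.ORG
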