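import Pool.Agent.ORG.FinGen
import Pool.Agent.ORG.FinSpec
import Pool.Agent.ORG.FinFrob
import Pool.Agent.ORG.FinQuot

set_option autoImplicit false

namespace Pool.Agent.ORG

/-- (12.0) + (12.1) + (12.2): a finite quotient separating `w` -/
theorem fin_rep {Ω : Type} [Field Ω] [Algebra (AlgebraicClosure ℚ) Ω] {X Γ₀ Δ : Type} [Finite X]
    [AddCommGroup Γ₀] [AddCommGroup Δ] [Finite Δ]
    (P : FreeGroup X →* Multiplicative ((Γ₀ × ℤ) × Δ))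
    (Z : Sys (AlgebraicClosure ℚ) (Γ₀ × ℤ) (LI Δ X)) (hdet : ∀ v j, IsUnit (mat Z.z v j).det)
    (r w : FreeGroup X) (hPr : P r = 1) (hr : ∀ v, U P (cfg Z.z) r v = 1)
    (hw : U P (cfg Z.z) w 0 ≠ 1)
    (htop : ∀ (V : Set (Γ₀ × ℤ)) (G : ℕ), V.Finite → TopOut (AlgebraicClosure ℚ) Ω Z V G) :
    ∃ N : Subgroup (FreeGroup X), N.Normal ∧ N.index ≠ 0 ∧ r ∈ N ∧ w ∉ N := by
  classical
  obtain ⟨Sr, hSr⟩ := exists_dep P r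
  obtain ⟨Sw, hSw⟩ := exists_dep P w
  obtain ⟨h, hh⟩ : ∃ h : ℕ, ∀ d ∈ Sr ∪ Sw, |d.1.2| ≤ (h : ℤ) := by
    refine ⟨(Sr ∪ Sw).sup (fun d => d.1.2.natAbs), fun d hd => ?_⟩
    have := Finset.le_sup (f := fun d : (Γ₀ × ℤ) × Δ => d.1.2.natAbs) hd
    rw [Int.abs_eq_natAbs]
    exact_mod_cast this
  obtain ⟨F, hF0, hFd⟩ : ∃ F : Finset Γ₀, (0 : Γ₀) ∈ F ∧ ∀ d ∈ Sr ∪ Sw, d.1.1 ∈ F :=
    ⟨insert 0 ((Sr ∪ Sw).image fun d => d.1.1), Finset.mem_insert_self _ _,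
      fun d hd => Finset.mem_insert_of_mem (Finset.mem_image_of_mem _ hd)⟩
  obtain ⟨V, hV⟩ : ∃ V : Set (Γ₀ × ℤ), ∀ v, v ∈ V ↔ v.1 ∈ F ∧ |v.2| ≤ (h : ℤ) :=
    ⟨{v | v.1 ∈ F ∧ |v.2| ≤ (h : ℤ)}, fun v => Iff.rfl⟩
  have hVfin : V.Finite := by
    refine Set.Finite.subset (F.finite_toSet.prod (Set.finite_Icc (-(h : ℤ)) h)) ?_
    intro v hv
    have hv' := (hV v).mp hv
    exact ⟨hv'.1, abs_le.mp hv'.2⟩
  obtain ⟨Γ', M, x, hfi, hGM, hper, hgen, hsame⟩ := htop V (2 * h) hVfin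
  have hsub : ∀ γ : Γ₀ × ℤ, (h : ℤ) ≤ γ.2 → γ.2 ≤ M + h →
      tr γ V ⊆ lev 0 ((M : ℤ) + (2 * h : ℕ)) := by
    intro γ h1 h2 u hu
    have h3 : |(u - γ).2| ≤ (h : ℤ) := ((hV _).mp hu).2
    rw [Prod.snd_sub, abs_le] at h3
    constructor
    · omega
    · push_cast
      omega
  have hU : ∀ (w' : FreeGroup X) (S : Finset ((Γ₀ × ℤ) × Δ)), Dep P w' S → S ⊆ Sr ∪ Sw →
      ∀ v : (Γ₀ × ℤ) × Δ, (h : ℤ) ≤ v.1.2 → v.1.2 ≤ M + h →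
      (U P (cfg x) w' v = 1 ↔ U P (cfg Z.z) w' v = 1) := by
    intro w' S hS hSS v h1 h2
    refine (fin_gen P Z hdet x (tr v.1 V) (hgen _ (hsub _ h1 h2))).2 w' S hS v fun d hd => ?_
    show (v + d).1 - v.1 ∈ V
    rw [Prod.fst_add, add_sub_cancel_left, hV]
    exact ⟨hFd d (hSS hd), hh d (hSS hd)⟩
  have hdetx : ∀ v : (Γ₀ × ℤ) × Δ, 0 ≤ v.1.2 → v.1.2 ≤ M + (2 * h : ℕ) →
      ∀ j, IsUnit (mat x v j).det := by
    intro v h1 h2 j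
    push_cast at h2
    have h3 : (h : ℤ) ≤ max (h : ℤ) (min v.1.2 (M + h)) := le_max_left _ _
    have h4 : max (h : ℤ) (min v.1.2 (M + h)) ≤ M + h :=
      max_le (by omega) (min_le_right _ _)
    refine (fin_gen P Z hdet x (tr (v.1.1, max (h : ℤ) (min v.1.2 (M + h))) V)
      (hgen _ (hsub _ h3 h4))).1 v j ?_
    show v.1 - (v.1.1, max (h : ℤ) (min v.1.2 (M + h))) ∈ V
    rw [hV]
    refine ⟨?_, ?_⟩
    · show v.1.1 - v.1.1 ∈ F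
      rw [sub_self]
      exact hF0
    · show |v.1.2 - max (h : ℤ) (min v.1.2 (M + h))| ≤ h
      rw [abs_le]
      omega
  obtain ⟨v₀, hv₀⟩ : ∃ v₀ : (Γ₀ × ℤ) × Δ, v₀ = ((0, (h : ℤ)), 0) := ⟨_, rfl⟩
  have hv₀2 : v₀.1.2 = h := by rw [hv₀]
  have hwin : ∀ d ∈ Sw, 0 ≤ v₀.1.2 + d.1.2 ∧ v₀.1.2 + d.1.2 ≤ M + (2 * h : ℕ) := by
    intro d hd
    have h1 := abs_le.mp (hh d (Finset.mem_union_right _ hd))
    rw [hv₀2]
    push_cast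
    omega
  have hwx : U P (cfg x) w v₀ ≠ 1 := by
    intro h1
    apply hw
    rw [hU w Sw hSw Finset.subset_union_right v₀ (by omega) (by omega)] at h1
    have h2 := fin_eqv P Z hdet w (0, (h : ℤ)) 0
    rw [← h2]
    have h3 : ((((0 : Γ₀), (h : ℤ)) + (0 : (Γ₀ × ℤ) × Δ).1, (0 : (Γ₀ × ℤ) × Δ).2) :
        (Γ₀ × ℤ) × Δ) = v₀ := by
      rw [hv₀]
      show ((((0 : Γ₀), (h : ℤ)) + (0 : Γ₀ × ℤ), (0 : Δ)) : (Γ₀ × ℤ) × Δ) = _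
      rw [add_zero]
    rw [h3]
    exact h1
  obtain ⟨p, hp, s, u, hs, huper, hufrob, hurel, huw⟩ := fin_spec P Γ' hfi M (2 * h) hGM x hper
    hsame hdetx w Sw hSw v₀ hwin hwx
  have hur : ∀ v : (Γ₀ × ℤ) × Δ, (h : ℤ) ≤ v.1.2 → v.1.2 < M + h → U P u r v = 1 := by
    intro v h1 h2
    refine hurel r Sr hSr v (fun d hd => ?_) ?_
    · have h3 := abs_le.mp (hh d (Finset.mem_union_left _ hd))
      push_cast
      omega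
    · rw [hU r Sr hSr Finset.subset_union_left v h1 h2.le]
      exact hr v
  obtain ⟨H, u', hHfi, hu'per, hu'r, hu'w⟩ := fin_frob P Γ' hfi M (2 * h) hGM s hs u huper hufrob
    r w Sr Sw hSr hSw (h : ℤ) (fun d hd => by
      have h3 := abs_le.mp (hh d (Finset.mem_union_left _ hd))
      push_cast
      omega) hur v₀ hwin huw
  exact fin_quot P H hHfi u' hu'per r w hPr hu'r v₀ hu'w

end Pool.Agent.ORG
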