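import Pool.Agent.ORG.Dual

/-! Transport of the relation vectors along an isomorphism of the group. -/

set_option autoImplicit false

namespace Pool.Agent.ORG

open MvPolynomial

section
variable {k : Type} [Field k] {Γ Γ' I : Type} [AddCommGroup Γ] [AddCommGroup Γ']

theorem mapSys_z (e : Γ ≃+ Γ') (Z : Sys k Γ I) (v : Γ' × I) :
    ((Z.map e).z v : Z.K) = Z.z (e.symm v.1, v.2) := rfl

/-- transport along an isomorphism, with everything over the same field -/
theorem map_data (e : Γ ≃+ Γ') (Z : Sys k Γ I) {β : Type} (A ψ : β → (Γ × I →₀ Z.K))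
    (hspan : Z.RV Set.univ =
      Submodule.span Z.K (Set.range (fun τ : Γ × β => Z.shift τ.1 (A τ.2)))) :
    ∃ (A' ψ' : β → (Γ' × I →₀ (Z.map e).K)),
      (Z.map e).RV Set.univ = Submodule.span (Z.map e).K
        (Set.range (fun τ : Γ' × β => (Z.map e).shift τ.1 (A' τ.2))) ∧
      ∀ γ' β' β0, Finsupp.linearCombination (Z.map e).K (ψ' β0) ((Z.map e).shift γ' (A' β')) = 0 ↔
        Finsupp.linearCombination Z.K (ψ β0) (Z.shift (e.symm γ') (A β')) = 0 := by
  classical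
  set ε : Γ × I ≃ Γ' × I := e.toEquiv.prodCongr (Equiv.refl I) with hε
  let Φ : (Γ × I →₀ Z.K) ≃ₗ[Z.K] (Γ' × I →₀ Z.K) := Finsupp.domLCongr ε
  let sh' : Γ' → (Γ' × I →₀ Z.K) →+ (Γ' × I →₀ Z.K) := fun γ => (Z.map e).shift γ
  let RV' : Submodule Z.K (Γ' × I →₀ Z.K) := (Z.map e).RV Set.univ
  let z' : Γ' × I → Z.K := (Z.map e).z
  have hΦ : ∀ p v, Φ p (ε v) = p v := by
    intro p v
    show Finsupp.equivMapDomain ε p (ε v) = p v
    rw [Finsupp.equivMapDomain_apply, Equiv.symm_apply_apply]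
  have hΦ1 : ∀ p v, Φ p v = p (ε.symm v) := fun p v => rfl
  have hsh : ∀ (γ' : Γ') (p : Γ × I →₀ Z.K), sh' γ' (Φ p) = Φ (Z.shift (e.symm γ') p) := by
    intro γ' p
    ext v
    have h1 : sh' γ' (Φ p) v = Z.α (Multiplicative.ofAdd (e.symm γ')) (Φ p (v.1 - γ', v.2)) :=
      (Z.map e).shift_apply' γ' (Φ p) v
    rw [h1, hΦ1, hΦ1, Z.shift_apply']
    congr 2
    apply Prod.ext
    · show e.symm (v.1 - γ') = e.symm v.1 - e.symm γ'
      rw [map_sub]
    · rfl
  have hz : z' ∘ ε = Z.z := by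
    funext v
    show Z.α (Multiplicative.ofAdd (e.symm (e v.1))) (Z.z0 v.2) = Z.z v
    rw [e.symm_apply_apply]
    rfl
  have hdv : ∀ P : MvPolynomial (Γ × I) k, Φ (dvec k Z.z P) = dvec k z' (rename ε P) := by
    intro P
    ext v
    obtain ⟨w, rfl⟩ := ε.surjective v
    rw [hΦ, du_apply, du_apply, pderiv_rename ε.injective, aeval_rename, hz]
  have hRV : RV' = (Z.RV Set.univ).map (Φ : (Γ × I →₀ Z.K) →ₗ[Z.K] (Γ' × I →₀ Z.K)) := by
    have h1 : RV' = Submodule.span Z.K {p | ∃ P : MvPolynomial (Γ' × I) k,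
        (∀ v ∈ P.vars, v.1 ∈ (Set.univ : Set Γ')) ∧ aeval z' P = 0 ∧ p = dvec k z' P} := rfl
    rw [h1]
    unfold Sys.RV
    rw [Submodule.map_span]
    congr 1
    ext q
    constructor
    · rintro ⟨P, -, hP, rfl⟩
      have h2 : rename ε (rename ε.symm P) = P := by
        rw [rename_rename, Equiv.self_comp_symm, rename_id_apply]
      refine ⟨dvec k Z.z (rename ε.symm P), ⟨rename ε.symm P, fun _ _ => trivial, ?_, rfl⟩, ?_⟩
      · rw [← hz, aeval_rename, Function.comp_assoc, Equiv.self_comp_symm, Function.comp_id]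
        exact hP
      · show Φ _ = _
        rw [hdv, h2]
    · rintro ⟨_, ⟨P, -, hP, rfl⟩, rfl⟩
      refine ⟨rename ε P, fun _ _ => trivial, ?_, ?_⟩
      · rw [aeval_rename, hz]
        exact hP
      · exact hdv P
  have hpair : ∀ a q : Γ × I →₀ Z.K, Finsupp.linearCombination Z.K (Φ a) (Φ q) =
      Finsupp.linearCombination Z.K a q := by
    intro a q
    have h1 : (Finsupp.linearCombination Z.K (Φ a : Γ' × I → Z.K)).comp
        (Φ : (Γ × I →₀ Z.K) →ₗ[Z.K] (Γ' × I →₀ Z.K)) = Finsupp.linearCombination Z.K a := by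
      apply Finsupp.lhom_ext
      intro v c
      show Finsupp.linearCombination Z.K (Φ a : Γ' × I → Z.K)
        (Finsupp.equivMapDomain ε (Finsupp.single v c)) = _
      rw [Finsupp.equivMapDomain_single, Finsupp.linearCombination_single,
        Finsupp.linearCombination_single, hΦ]
    exact congrArg (fun f => f q) h1
  refine ⟨fun i => Φ (A i), fun i => Φ (ψ i), ?_, ?_⟩
  · show RV' = Submodule.span Z.K (Set.range (fun τ : Γ' × β => sh' τ.1 (Φ (A τ.2))))
    rw [hRV, hspan, Submodule.map_span]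
    congr 1
    ext q
    constructor
    · rintro ⟨_, ⟨⟨γ, i⟩, rfl⟩, rfl⟩
      refine ⟨(e γ, i), ?_⟩
      show sh' (e γ) (Φ (A i)) = Φ (Z.shift γ (A i))
      rw [hsh, e.symm_apply_apply]
    · rintro ⟨⟨γ', i⟩, rfl⟩
      exact ⟨Z.shift (e.symm γ') (A i), ⟨(e.symm γ', i), rfl⟩, (hsh γ' (A i)).symm⟩
  · intro γ' β' β0
    show Finsupp.linearCombination Z.K (Φ (ψ β0)) (sh' γ' (Φ (A β'))) = 0 ↔ _
    rw [hsh, hpair]

end

end Pool.Agent.ORG
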