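import Pool.Agent.ORG.Defs

/-! (11.5): equivariant functionals, dimension count. -/

set_option autoImplicit false

namespace Pool.Agent.ORG

namespace PhiAux

/-- the support of a shifted vector -/
theorem shift_supp {k I Γ : Type} [Field k] [AddCommGroup Γ] (Z : Sys k Γ I) (γ : Γ)
    (p : Γ × I →₀ Z.K) (v : Γ × I) (hv : v ∈ (Z.shift γ p).support) :
    ∃ w ∈ p.support, v = (γ + w.1, w.2) := by
  classical
  have h1 : v ∈ (Finsupp.mapDomain (fun v : Γ × I => (γ + v.1, v.2))
      (Finsupp.mapRange.addMonoidHom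
        ((Z.α (Multiplicative.ofAdd γ) : Z.K ≃+* Z.K) : Z.K →+ Z.K) p)).support := hv
  have h2 := Finsupp.mapDomain_support h1
  rw [Finset.mem_image] at h2
  obtain ⟨w, hw, e⟩ := h2
  refine ⟨w, ?_, e.symm⟩
  rw [Finsupp.mem_support_iff] at hw ⊢
  intro h0
  apply hw
  rw [Finsupp.mapRange.addMonoidHom_apply, Finsupp.mapRange_apply, h0, map_zero]

/-- restriction of vectors to a finite set, as a linear map -/
noncomputable def filt {K X : Type} [Field K] (T : Finset X) : (X →₀ K) →ₗ[K] (X →₀ K) := by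
  classical
  exact
    { toFun := fun p => p.filter (· ∈ T)
      map_add' := fun p q => Finsupp.filter_add
      map_smul' := fun c p => by
        ext x
        by_cases hx : x ∈ T <;> simp [hx] }

theorem filt_eq_self {K X : Type} [Field K] (T : Finset X) (p : X →₀ K) (h : ∀ x ∈ p.support, x ∈ T) :
    filt T p = p := by
  classical
  show p.filter (· ∈ T) = p
  rw [Finsupp.filter_eq_self_iff]
  intro x hx
  exact h x (Finsupp.mem_support_iff.2 hx)

theorem filt_eq_zero {K X : Type} [Field K] (T : Finset X) (p : X →₀ K) (h : ∀ x ∈ p.support, x ∉ T) :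
    filt T p = 0 := by
  classical
  show p.filter (· ∈ T) = 0
  rw [Finsupp.filter_eq_zero_iff]
  intro x hx
  by_contra h0
  exact h x (Finsupp.mem_support_iff.2 h0) hx

/-- a finitely supported `ψ` with a prescribed functional -/
theorem exists_psi {K X : Type} [Field K] (T : Finset X) (f : (X →₀ K) →ₗ[K] K) :
    ∃ ψ : X →₀ K, ∀ p, Finsupp.linearCombination K ψ p = f (filt T p) := by
  classical
  refine ⟨Finsupp.onFinset T (fun x => f (filt T (Finsupp.single x 1))) ?_, ?_⟩
  · intro x hx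
    by_contra h
    apply hx
    rw [filt_eq_zero T, map_zero]
    intro y hy
    have : y = x := by
      by_contra hne
      rw [Finsupp.mem_support_iff, Finsupp.single_apply, if_neg (fun e => hne e.symm)] at hy
      exact hy rfl
    rw [this]
    exact h
  · intro p
    have : Finsupp.linearCombination K
        (Finsupp.onFinset T (fun x => f (filt T (Finsupp.single x 1))) (by
          intro x hx
          by_contra h
          apply hx
          rw [filt_eq_zero T, map_zero]
          intro y hy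
          have : y = x := by
            by_contra hne
            rw [Finsupp.mem_support_iff, Finsupp.single_apply, if_neg (fun e => hne e.symm)] at hy
            exact hy rfl
          rw [this]
          exact h) : X →₀ K) = f.comp (filt T) := by
      apply Finsupp.lhom_ext
      intro x c
      rw [Finsupp.linearCombination_single, Finsupp.onFinset_apply, LinearMap.comp_apply]
      have e : (Finsupp.single x c : X →₀ K) = c • Finsupp.single x 1 := by
        rw [Finsupp.smul_single, smul_eq_mul, mul_one]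
      rw [e, map_smul, map_smul]
    rw [this]
    rfl

/-- the box `[-n,n]^b` as a finset -/
noncomputable def box (b n : ℕ) : Finset (Fin b → ℤ) :=
  Finset.Icc (fun _ => -(n : ℤ)) (fun _ => (n : ℤ))

theorem mem_box {b n : ℕ} {u : Fin b → ℤ} : u ∈ box b n ↔ ∀ i, -(n : ℤ) ≤ u i ∧ u i ≤ n := by
  rw [box, Finset.mem_Icc, Pi.le_def, Pi.le_def]
  exact ⟨fun h i => ⟨h.1 i, h.2 i⟩, fun h => ⟨fun i => (h i).1, fun i => (h i).2⟩⟩

theorem card_box (b n : ℕ) : (box b n).card = (2 * n + 1) ^ b := by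
  rw [box, Pi.card_Icc]
  simp only [Int.card_Icc, Finset.prod_const, Finset.card_univ, Fintype.card_fin]
  congr 1
  omega

/-- numbers of sites -/
theorem exists_n (b N s : ℕ) (hN : 1 ≤ N) :
    ∃ m : ℕ, (N - 1) * (2 * (m + 2 * s) + 1) ^ b < N * (2 * m + 1) ^ b := by
  have h1 : Filter.Tendsto (fun m : ℕ => ((1 : ℝ) + 2 * m) / ((4 * s + 1 : ℝ) + 2 * m))
      Filter.atTop (nhds (2 / 2)) :=
    tendsto_add_mul_div_add_mul_atTop_nhds (1 : ℝ) (4 * s + 1) 2 (by norm_num)
  have h2 := (h1.pow b)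
  have h3 : ((N - 1 : ℕ) : ℝ) / N < (2 / 2 : ℝ) ^ b := by
    have hN' : (0 : ℝ) < N := by exact_mod_cast hN
    rw [div_self two_ne_zero, one_pow, div_lt_one hN']
    have : N - 1 < N := by omega
    exact_mod_cast this
  have h4 := (h2.eventually (lt_mem_nhds h3)).exists
  obtain ⟨m, hm⟩ := h4
  refine ⟨m, ?_⟩
  have hN' : (0 : ℝ) < N := by exact_mod_cast hN
  have hd : (0 : ℝ) < ((4 * s + 1 : ℝ) + 2 * m) ^ b := by positivity
  rw [div_pow, div_lt_div_iff₀ hN' hd] at hm
  have h5 : (((N - 1) * (2 * (m + 2 * s) + 1) ^ b : ℕ) : ℝ) < ((N * (2 * m + 1) ^ b : ℕ) : ℝ) := by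
    push_cast
    have e1 : ((4 * s + 1 : ℝ) + 2 * m) = (2 * (m + 2 * s) + 1) := by ring
    have e2 : ((1 : ℝ) + 2 * m) = 2 * m + 1 := by ring
    rw [e1, e2] at hm
    rw [mul_comm ((N : ℝ)) _]
    exact hm
  exact_mod_cast h5

end PhiAux

open PhiAux in
theorem exists_phi {k I : Type} [Field k] {b : ℕ} (Z : Sys k (Fin b → ℤ) I) {β : Type} [Finite β]
    (A : β → ((Fin b → ℤ) × I →₀ Z.K))
    (hA : LinearIndependent Z.K (fun τ : (Fin b → ℤ) × β => Z.shift τ.1 (A τ.2))) (β0 : β) :
    ∃ ψ : (Fin b → ℤ) × I →₀ Z.K,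
      (∀ γ, ∀ β', β' ≠ β0 → Finsupp.linearCombination Z.K ψ (Z.shift γ (A β')) = 0) ∧
      ∃ γ, Finsupp.linearCombination Z.K ψ (Z.shift γ (A β0)) ≠ 0 := by
  classical
  let _ : Fintype β := Fintype.ofFinite β
  -- the supports
  let W : Finset ((Fin b → ℤ) × I) := Finset.univ.biUnion (fun β' => (A β').support)
  have hW : ∀ β', ∀ w ∈ (A β').support, w ∈ W := fun β' w hw =>
    Finset.mem_biUnion.2 ⟨β', Finset.mem_univ _, hw⟩
  let J : Finset I := W.image Prod.snd
  obtain ⟨s, hs⟩ : ∃ s : ℕ, ∀ w ∈ W, w.1 ∈ box b s := by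
    refine ⟨∑ w ∈ W, ∑ i, (w.1 i).natAbs, ?_⟩
    intro w hw
    rw [mem_box]
    intro i
    have h1 : (w.1 i).natAbs ≤ ∑ i, (w.1 i).natAbs :=
      Finset.single_le_sum (f := fun i => (w.1 i).natAbs) (fun _ _ => Nat.zero_le _)
        (Finset.mem_univ i)
    have h2 : ∑ i, (w.1 i).natAbs ≤ ∑ w ∈ W, ∑ i, (w.1 i).natAbs :=
      Finset.single_le_sum (f := fun w : (Fin b → ℤ) × I => ∑ i, (w.1 i).natAbs)
        (fun _ _ => Nat.zero_le _) hw
    have h3 := h1.trans h2
    omega
  have hN : 1 ≤ Fintype.card β := Fintype.card_pos_iff.2 ⟨β0⟩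
  obtain ⟨m, hm⟩ := exists_n b (Fintype.card β) s hN
  let T : Finset ((Fin b → ℤ) × I) := box b (m + s) ×ˢ J
  -- inner vectors
  have hin : ∀ γ ∈ box b m, ∀ β', filt T (Z.shift γ (A β')) = Z.shift γ (A β') := by
    intro γ hγ β'
    apply filt_eq_self
    intro v hv
    obtain ⟨w, hw, e⟩ := shift_supp Z γ (A β') v hv
    rw [e]
    rw [Finset.mem_product]
    refine ⟨?_, Finset.mem_image.2 ⟨w, hW β' w hw, rfl⟩⟩
    have h1 := hs w (hW β' w hw)
    rw [mem_box] at h1 hγ ⊢
    intro i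
    have h2 := h1 i
    have h3 := hγ i
    show -((m + s : ℕ) : ℤ) ≤ γ i + w.1 i ∧ γ i + w.1 i ≤ ((m + s : ℕ) : ℤ)
    push_cast
    constructor <;> linarith [h2.1, h2.2, h3.1, h3.2]
  -- outer vectors
  have hout : ∀ γ, γ ∉ box b (m + 2 * s) → ∀ β', filt T (Z.shift γ (A β')) = 0 := by
    intro γ hγ β'
    apply filt_eq_zero
    intro v hv hT
    obtain ⟨w, hw, e⟩ := shift_supp Z γ (A β') v hv
    rw [e, Finset.mem_product] at hT
    apply hγ
    have h1 := hs w (hW β' w hw)
    have h2 := hT.1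
    rw [mem_box] at h1 h2 ⊢
    intro i
    have h3 := h1 i
    have h4 : -((m + s : ℕ) : ℤ) ≤ γ i + w.1 i ∧ γ i + w.1 i ≤ ((m + s : ℕ) : ℤ) := h2 i
    push_cast at h4 ⊢
    constructor <;> linarith [h3.1, h3.2, h4.1, h4.2]
  -- the span of the vectors to be killed
  let O : Finset ((Fin b → ℤ) × β) := box b (m + 2 * s) ×ˢ (Finset.univ.erase β0)
  let Of : Finset ((Fin b → ℤ) × I →₀ Z.K) := O.image (fun τ => filt T (Z.shift τ.1 (A τ.2)))
  let U : Submodule Z.K ((Fin b → ℤ) × I →₀ Z.K) := Submodule.span Z.K (Of : Set _)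
  have hU : ∀ γ, ∀ β', β' ≠ β0 → filt T (Z.shift γ (A β')) ∈ U := by
    intro γ β' hb
    by_cases hγ : γ ∈ box b (m + 2 * s)
    · apply Submodule.subset_span
      rw [Finset.mem_coe, Finset.mem_image]
      exact ⟨(γ, β'), Finset.mem_product.2 ⟨hγ, Finset.mem_erase.2 ⟨hb, Finset.mem_univ _⟩⟩, rfl⟩
    · rw [hout γ hγ β']
      exact U.zero_mem
  have hUr : Module.finrank Z.K U ≤ (Fintype.card β - 1) * (2 * (m + 2 * s) + 1) ^ b := by
    have h1 : Module.finrank Z.K U ≤ Of.card := finrank_span_finset_le_card Of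
    refine h1.trans (Finset.card_image_le.trans ?_)
    rw [Finset.card_product, card_box, Finset.card_erase_of_mem (Finset.mem_univ _),
      Finset.card_univ, mul_comm]
  have : Module.Finite Z.K U := Module.Finite.span_of_finite Z.K Of.finite_toSet
  -- some vector is not killed
  have hex : ∃ γ, filt T (Z.shift γ (A β0)) ∉ U := by
    by_contra hcon
    push Not at hcon
    have hall : ∀ γ β', filt T (Z.shift γ (A β')) ∈ U := by
      intro γ β'
      by_cases hb : β' = β0
      · rw [hb]; exact hcon γ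
      · exact hU γ β' hb
    let ι := {x // x ∈ box b m} × β
    let g : ι → U := fun τ => ⟨Z.shift τ.1.1 (A τ.2), by
      have := hall τ.1.1 τ.2
      rwa [hin τ.1.1 τ.1.2 τ.2] at this⟩
    have hg : LinearIndependent Z.K g := by
      have h1 : LinearIndependent Z.K (fun τ : ι => Z.shift τ.1.1 (A τ.2)) :=
        hA.comp (fun τ : ι => ((τ.1.1, τ.2) : (Fin b → ℤ) × β)) (by
          rintro ⟨⟨x, hx⟩, y⟩ ⟨⟨x', hx'⟩, y'⟩ h
          simp only [Prod.mk.injEq] at h
          obtain ⟨h1, h2⟩ := h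
          subst h1; subst h2; rfl)
      exact LinearIndependent.of_comp U.subtype h1
    have h2 := hg.fintype_card_le_finrank
    have h3 : Fintype.card ι = Fintype.card β * (2 * m + 1) ^ b := by
      rw [Fintype.card_prod, Fintype.card_coe, card_box, mul_comm]
    rw [h3] at h2
    omega
  obtain ⟨γ, hγ⟩ := hex
  obtain ⟨f, hf1, hf2⟩ := Submodule.exists_dual_map_eq_bot_of_notMem hγ inferInstance
  obtain ⟨ψ, hψ⟩ := exists_psi T f
  refine ⟨ψ, ?_, γ, ?_⟩
  · intro γ' β' hb
    rw [hψ]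
    have h1 : f (filt T (Z.shift γ' (A β'))) ∈ U.map f := Submodule.mem_map_of_mem (hU γ' β' hb)
    rw [hf2] at h1
    exact (Submodule.mem_bot _).1 h1
  · rw [hψ]
    exact hf1

end Pool.Agent.ORG
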