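import Pool.Agent.ORG.Defs
import Pool.Agent.ORG.E1

/-! (11.7): the pre-section of all slabs. -/

set_option autoImplicit false

namespace Pool.Agent.ORG

section

variable {k Γ I : Type} [Field k] [AddCommGroup Γ]

theorem tp_shift_apply (Z : Sys k Γ I) (γ : Γ) (p : Γ × I →₀ Z.K) (v : Γ × I) :
    Z.shift γ p v = Z.α (Multiplicative.ofAdd γ) (p (v.1 - γ, v.2)) := by
  induction p using Finsupp.induction_linear with
  | zero => simp
  | add p q hp hq => rw [map_add, Finsupp.add_apply, Finsupp.add_apply, map_add, hp, hq]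
  | single w c =>
    classical
    rw [e1_shift_single, Finsupp.single_apply, Finsupp.single_apply]
    by_cases h : w = (v.1 - γ, v.2)
    · subst h
      simp
    · rw [if_neg, if_neg h, map_zero]
      intro h2
      apply h
      rw [← h2]
      simp

theorem tp_shift_add (Z : Sys k Γ I) (γ γ' : Γ) (q : Γ × I →₀ Z.K) :
    Z.shift (γ + γ') q = Z.shift γ (Z.shift γ' q) := by
  ext v
  rw [tp_shift_apply, tp_shift_apply, tp_shift_apply, ofAdd_add, map_mul, AlgEquiv.mul_apply,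
    sub_sub]

/-- the pairing of two vectors -/
noncomputable def pr (Z : Sys k Γ I) (ψ y : Γ × I →₀ Z.K) : Z.K :=
  Finsupp.linearCombination Z.K ψ y

theorem pr_eq_sum (Z : Sys k Γ I) (ψ y : Γ × I →₀ Z.K) :
    pr Z ψ y = ∑ v ∈ y.support, y v * ψ v := by
  rw [pr, Finsupp.linearCombination_apply, Finsupp.sum]
  rfl

theorem pr_add (Z : Sys k Γ I) (ψ y y' : Γ × I →₀ Z.K) : pr Z ψ (y + y') = pr Z ψ y + pr Z ψ y' :=
  map_add _ _ _

theorem pr_smul (Z : Sys k Γ I) (ψ y : Γ × I →₀ Z.K) (c : Z.K) : pr Z ψ (c • y) = c * pr Z ψ y :=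
  map_smul _ _ _

theorem pr_zero (Z : Sys k Γ I) (ψ : Γ × I →₀ Z.K) : pr Z ψ 0 = 0 := map_zero _

theorem pr_shift (Z : Sys k Γ I) (γ : Γ) (ψ y : Γ × I →₀ Z.K) :
    pr Z (Z.shift γ ψ) (Z.shift γ y) = Z.α (Multiplicative.ofAdd γ) (pr Z ψ y) := by
  induction y using Finsupp.induction_linear with
  | zero => rw [map_zero, pr_zero, pr_zero, map_zero]
  | add p q hp hq => rw [map_add, pr_add, pr_add, map_add, hp, hq]
  | single w c =>
    rw [e1_shift_single]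
    unfold pr
    rw [Finsupp.linearCombination_single, Finsupp.linearCombination_single, tp_shift_apply]
    simp

theorem pr_shift_left (Z : Sys k Γ I) (γ : Γ) (ψ y : Γ × I →₀ Z.K) :
    pr Z (Z.shift γ ψ) y = Z.α (Multiplicative.ofAdd γ) (pr Z ψ (Z.shift (-γ) y)) := by
  rw [← pr_shift, ← tp_shift_add, add_neg_cancel]
  congr 1
  ext v
  rw [tp_shift_apply, ofAdd_zero, map_one, sub_zero]
  rfl

theorem pr_finite (Z : Sys k Γ I) (ψ y : Γ × I →₀ Z.K) :
    {γ : Γ | pr Z (Z.shift γ ψ) y ≠ 0}.Finite := by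
  classical
  apply ((y.support ×ˢ ψ.support).image (fun q => q.1.1 - q.2.1)).finite_toSet.subset
  intro γ hγ
  rw [Set.mem_ofPred_eq, pr_eq_sum] at hγ
  obtain ⟨v, hv, hne⟩ := Finset.exists_ne_zero_of_sum_ne_zero hγ
  have h1 : Z.shift γ ψ v ≠ 0 := right_ne_zero_of_mul hne
  rw [tp_shift_apply] at h1
  have h2 : ψ (v.1 - γ, v.2) ≠ 0 := fun h => h1 (by rw [h, map_zero])
  simp only [Finset.coe_image, Set.mem_image, Finset.mem_coe, Finset.mem_product,
    Finsupp.mem_support_iff]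
  exact ⟨(v, (v.1 - γ, v.2)), ⟨Finsupp.mem_support_iff.mp hv, h2⟩, by simp⟩

end

section

variable {k I Γ₀ : Type} [Field k] [AddCommGroup Γ₀] (Z : Sys k (Γ₀ × ℤ) I) {β : Type}

/-- the span of the translates with levels in `[m, n)` -/
noncomputable def spanLev (A : β → ((Γ₀ × ℤ) × I →₀ Z.K)) (m n : ℤ) :
    Submodule Z.K ((Γ₀ × ℤ) × I →₀ Z.K) :=
  Submodule.span Z.K {y | ∃ (γ : Γ₀ × ℤ) (b : β), m ≤ γ.2 ∧ γ.2 < n ∧ y = Z.shift γ (A b)}

/-- the data for peeling off a level -/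
structure Peel (A ψ : β → ((Γ₀ × ℤ) × I →₀ Z.K)) (τ : β → Γ₀ × ℤ) : Prop where
  off : ∀ γ b b0, b ≠ b0 → pr Z (ψ b0) (Z.shift γ (A b)) = 0
  ne : ∀ b, pr Z (ψ b) (Z.shift (τ b) (A b)) ≠ 0
  top : ∀ b u, pr Z (ψ b) (Z.shift u (A b)) ≠ 0 → u.2 ≤ (τ b).2
  uniq : ∀ b u, pr Z (ψ b) (Z.shift u (A b)) ≠ 0 → u.2 = (τ b).2 → u = τ b

variable (A ψ : β → ((Γ₀ × ℤ) × I →₀ Z.K)) (τ : β → Γ₀ × ℤ)

/-- the functional isolating the vector `γ A_b` -/
noncomputable def lam (γ : Γ₀ × ℤ) (b : β) (y : (Γ₀ × ℤ) × I →₀ Z.K) : Z.K :=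
  pr Z (Z.shift (γ - τ b) (ψ b)) y

variable {A ψ τ}

theorem lam_shift (γ γ' : Γ₀ × ℤ) (b : β) (y : (Γ₀ × ℤ) × I →₀ Z.K) :
    lam Z ψ τ (γ' + γ) b (Z.shift γ' y) = Z.α (Multiplicative.ofAdd γ') (lam Z ψ τ γ b y) := by
  unfold lam
  rw [add_sub_assoc, tp_shift_add, pr_shift]

theorem lam_eq (γ γ' : Γ₀ × ℤ) (b b' : β) :
    lam Z ψ τ γ b (Z.shift γ' (A b')) =
      Z.α (Multiplicative.ofAdd (γ - τ b)) (pr Z (ψ b) (Z.shift (τ b - γ + γ') (A b'))) := by
  unfold lam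
  rw [pr_shift_left, ← tp_shift_add, neg_sub]

theorem lam_ne (h : Peel Z A ψ τ) (γ : Γ₀ × ℤ) (b : β) :
    lam Z ψ τ γ b (Z.shift γ (A b)) ≠ 0 := by
  rw [lam_eq, sub_add_cancel]
  intro h0
  exact h.ne b ((map_eq_zero_iff _ (AlgEquiv.injective _)).mp h0)

theorem lam_zero (h : Peel Z A ψ τ) {γ γ' : Γ₀ × ℤ} {b b' : β} (hl : γ.2 ≤ γ'.2)
    (hne : ¬ (γ = γ' ∧ b = b')) : lam Z ψ τ γ b (Z.shift γ' (A b')) = 0 := by
  rw [lam_eq]
  by_cases hb : b' = b
  · subst hb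
    by_contra h0
    have h1 : pr Z (ψ b') (Z.shift (τ b' - γ + γ') (A b')) ≠ 0 := fun h => h0 (by rw [h, map_zero])
    have h2 := h.top _ _ h1
    have h3 : (τ b' - γ + γ').2 = (τ b').2 - γ.2 + γ'.2 := rfl
    have h4 : (τ b' - γ + γ').2 = (τ b').2 := by omega
    have h5 := h.uniq _ _ h1 h4
    have h6 : γ = γ' := by
      have h7 : τ b' - γ + γ' - τ b' + γ = τ b' - τ b' + γ := by rw [h5]
      rw [sub_self, zero_add] at h7
      rw [← h7]
      abel
    exact hne ⟨h6, rfl⟩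
  · rw [h.off _ _ _ hb, map_zero]

theorem lam_finite [Finite β] (m : ℤ) (y : (Γ₀ × ℤ) × I →₀ Z.K) :
    {q : {γ : Γ₀ × ℤ // γ.2 = m} × β | lam Z ψ τ q.1 q.2 y ≠ 0}.Finite := by
  have h1 : (⋃ b : β, {γ : Γ₀ × ℤ | lam Z ψ τ γ b y ≠ 0}).Finite := by
    apply Set.finite_iUnion
    intro b
    apply Set.Finite.subset ((pr_finite Z (ψ b) y).image (fun γ => γ + τ b))
    intro γ hγ
    exact ⟨γ - τ b, hγ, sub_add_cancel _ _⟩
  have h2 : ((⋃ b : β, {γ : Γ₀ × ℤ | lam Z ψ τ γ b y ≠ 0}) ×ˢ (Set.univ : Set β)).Finite :=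
    h1.prod Set.finite_univ
  apply Set.Finite.of_finite_image (f := fun q : {γ : Γ₀ × ℤ // γ.2 = m} × β => (q.1.1, q.2))
    (h2.subset ?_)
  · rintro ⟨⟨g, hg⟩, b⟩ _ ⟨⟨g', hg'⟩, b'⟩ _ h
    simp only [Prod.mk.injEq] at h
    obtain ⟨rfl, rfl⟩ := h
    rfl
  · rintro _ ⟨q, hq, rfl⟩
    exact ⟨Set.mem_iUnion.mpr ⟨q.2, hq⟩, trivial⟩

variable (A ψ τ)

/-- the coefficient in the peeling map -/
noncomputable def pc (γ : Γ₀ × ℤ) (b : β) (y : (Γ₀ × ℤ) × I →₀ Z.K) : Z.K :=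
  lam Z ψ τ γ b y / lam Z ψ τ γ b (Z.shift γ (A b))

theorem pc_finite [Finite β] (m : ℤ) (y : (Γ₀ × ℤ) × I →₀ Z.K) :
    (Function.support (fun q : {γ : Γ₀ × ℤ // γ.2 = m} × β =>
      pc Z A ψ τ q.1 q.2 y • Z.shift q.1 (A q.2))).Finite := by
  apply (lam_finite Z (ψ := ψ) (τ := τ) m y).subset
  intro q hq h0
  apply hq
  have : lam Z ψ τ q.1 q.2 y = 0 := h0
  simp only [pc, this, zero_div, zero_smul]

/-- the peeling map -/
noncomputable def peel [Finite β] (m : ℤ) :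
    ((Γ₀ × ℤ) × I →₀ Z.K) →ₗ[Z.K] ((Γ₀ × ℤ) × I →₀ Z.K) where
  toFun y := ∑ᶠ q : {γ : Γ₀ × ℤ // γ.2 = m} × β, pc Z A ψ τ q.1 q.2 y • Z.shift q.1 (A q.2)
  map_add' y y' := by
    rw [← finsum_add_distrib (pc_finite Z A ψ τ m y) (pc_finite Z A ψ τ m y')]
    apply finsum_congr
    intro q
    rw [← add_smul]
    congr 1
    simp only [pc, lam, pr_add, add_div]
  map_smul' c y := by
    rw [RingHom.id_apply, smul_finsum' c (pc_finite Z A ψ τ m y)]
    apply finsum_congr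
    intro q
    rw [smul_smul]
    congr 1
    simp only [pc, lam, pr_smul, mul_div_assoc]

theorem peel_apply [Finite β] (m : ℤ) (y : (Γ₀ × ℤ) × I →₀ Z.K) :
    peel Z A ψ τ m y =
      ∑ᶠ q : {γ : Γ₀ × ℤ // γ.2 = m} × β, pc Z A ψ τ q.1 q.2 y • Z.shift q.1 (A q.2) := rfl

theorem peel_shift [Finite β] (m : ℤ) (γ₀ : Γ₀) (y : (Γ₀ × ℤ) × I →₀ Z.K) :
    peel Z A ψ τ m (Z.shift (γ₀, 0) y) = Z.shift (γ₀, 0) (peel Z A ψ τ m y) := by
  rw [peel_apply, peel_apply, AddMonoidHom.map_finsum _ (pc_finite Z A ψ τ m y)]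
  let e : {γ : Γ₀ × ℤ // γ.2 = m} × β ≃ {γ : Γ₀ × ℤ // γ.2 = m} × β :=
    { toFun := fun q => (⟨(γ₀, 0) + q.1.1, by simpa using q.1.2⟩, q.2)
      invFun := fun q => (⟨-(γ₀, 0) + q.1.1, by simpa using q.1.2⟩, q.2)
      left_inv := by
        rintro ⟨⟨g, hg⟩, b⟩
        refine Prod.ext (Subtype.ext ?_) rfl
        exact neg_add_cancel_left _ _
      right_inv := by
        rintro ⟨⟨g, hg⟩, b⟩
        refine Prod.ext (Subtype.ext ?_) rfl
        exact add_neg_cancel_left _ _ }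
  rw [← finsum_comp_equiv e]
  apply finsum_congr
  intro q
  rw [e1_shift_smul]
  have h1 : ((e q).1 : Γ₀ × ℤ) = (γ₀, 0) + q.1.1 := rfl
  have h2 : (e q).2 = q.2 := rfl
  rw [h1, h2, tp_shift_add]
  congr 1
  unfold pc
  rw [tp_shift_add, lam_shift, lam_shift, map_div₀]

theorem peel_mem [Finite β] (m : ℤ) (y : (Γ₀ × ℤ) × I →₀ Z.K) :
    peel Z A ψ τ m y ∈ Submodule.span Z.K (Set.range (fun q : (Γ₀ × ℤ) × β =>
      Z.shift q.1 (A q.2))) := by
  rw [peel_apply]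
  apply finsum_induction (p := fun y => y ∈ Submodule.span Z.K (Set.range
    (fun q : (Γ₀ × ℤ) × β => Z.shift q.1 (A q.2))))
  · exact Submodule.zero_mem _
  · intro x y hx hy
    exact Submodule.add_mem _ hx hy
  · intro q
    exact Submodule.smul_mem _ _ (Submodule.subset_span ⟨(q.1, q.2), rfl⟩)

variable {A ψ τ}

theorem peel_top [Finite β] (h : Peel Z A ψ τ) {m : ℤ} {γ : Γ₀ × ℤ} (hγ : γ.2 = m) (b : β) :
    peel Z A ψ τ m (Z.shift γ (A b)) = Z.shift γ (A b) := by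
  rw [peel_apply, finsum_eq_single _ ((⟨γ, hγ⟩, b) : {γ : Γ₀ × ℤ // γ.2 = m} × β)]
  · simp only [pc]
    rw [div_self (lam_ne Z h γ b), one_smul]
  · intro q hq
    have : lam Z ψ τ q.1 q.2 (Z.shift γ (A b)) = 0 := by
      apply lam_zero Z h
      · rw [q.1.2, hγ]
      · rintro ⟨h1, h2⟩
        exact hq (Prod.ext (Subtype.ext h1) h2)
    simp only [pc, this, zero_div, zero_smul]

theorem peel_below [Finite β] (h : Peel Z A ψ τ) {m : ℤ} {γ : Γ₀ × ℤ} (hγ : m < γ.2) (b : β) :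
    peel Z A ψ τ m (Z.shift γ (A b)) = 0 := by
  rw [peel_apply]
  apply finsum_eq_zero_of_forall_eq_zero
  intro q
  have : lam Z ψ τ q.1 q.2 (Z.shift γ (A b)) = 0 := by
    apply lam_zero Z h
    · rw [q.1.2]; omega
    · rintro ⟨h1, _⟩
      have h2 := q.1.2
      rw [h1] at h2
      omega
  simp only [pc, this, zero_div, zero_smul]

theorem exists_kill [Finite β] (h : Peel Z A ψ τ) (n : ℕ) : ∀ m : ℤ,
    ∃ C : ((Γ₀ × ℤ) × I →₀ Z.K) →ₗ[Z.K] ((Γ₀ × ℤ) × I →₀ Z.K),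
      (∀ (γ₀ : Γ₀) y, C (Z.shift (γ₀, 0) y) = Z.shift (γ₀, 0) (C y)) ∧
      (∀ y, y - C y ∈ Submodule.span Z.K (Set.range (fun q : (Γ₀ × ℤ) × β =>
        Z.shift q.1 (A q.2)))) ∧
      (∀ y ∈ spanLev Z A m (m + n), C y = 0) := by
  induction n with
  | zero =>
    intro m
    refine ⟨LinearMap.id, fun _ _ => rfl, fun y => ?_, fun y hy => ?_⟩
    · rw [LinearMap.id_apply, sub_self]
      exact Submodule.zero_mem _
    · rw [LinearMap.id_apply]
      have h1 : {y : (Γ₀ × ℤ) × I →₀ Z.K | ∃ (γ : Γ₀ × ℤ) (b : β), m ≤ γ.2 ∧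
          γ.2 < m + (0 : ℕ) ∧ y = Z.shift γ (A b)} = ∅ := by
        ext y
        simp only [Set.mem_ofPred_eq, Set.mem_empty_iff_false, iff_false]
        rintro ⟨γ, b, h1, h2, _⟩
        simp only [Nat.cast_zero, add_zero] at h2
        omega
      unfold spanLev at hy
      rw [h1, Submodule.span_empty] at hy
      exact hy
  | succ n ih =>
    intro m
    obtain ⟨C, hC1, hC2, hC3⟩ := ih (m + 1)
    refine ⟨C.comp (LinearMap.id - peel Z A ψ τ m), fun γ₀ y => ?_, fun y => ?_, fun y hy => ?_⟩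
    · rw [LinearMap.comp_apply, LinearMap.comp_apply, LinearMap.sub_apply, LinearMap.sub_apply,
        LinearMap.id_apply, LinearMap.id_apply, peel_shift, ← map_sub, hC1]
    · rw [LinearMap.comp_apply, LinearMap.sub_apply, LinearMap.id_apply]
      have h1 : y - C (y - peel Z A ψ τ m y) =
          ((y - peel Z A ψ τ m y) - C (y - peel Z A ψ τ m y)) + peel Z A ψ τ m y := by abel
      rw [h1]
      exact Submodule.add_mem _ (hC2 _) (peel_mem Z A ψ τ m y)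
    · rw [LinearMap.comp_apply]
      apply hC3
      have h1 : spanLev Z A m (m + (n + 1 : ℕ)) ≤
          (spanLev Z A (m + 1) (m + 1 + n)).comap (LinearMap.id - peel Z A ψ τ m) := by
        unfold spanLev
        rw [Submodule.span_le]
        rintro _ ⟨γ, b, h2, h3, rfl⟩
        rw [SetLike.mem_coe, Submodule.mem_comap, LinearMap.sub_apply, LinearMap.id_apply]
        rcases h2.eq_or_lt with h4 | h4
        · rw [peel_top Z h h4.symm, sub_self]
          exact Submodule.zero_mem _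
        · rw [peel_below Z h h4, sub_zero]
          apply Submodule.subset_span
          refine ⟨γ, b, by omega, ?_, rfl⟩
          push_cast at h3
          omega
      exact h1 hy

/-- the coefficient of an extreme vector is seen by its functional -/
theorem extreme_site (c : (Γ₀ × ℤ) × β →₀ Z.K) (q : (Γ₀ × ℤ) × β) (hq : c q ≠ 0)
    (hne : lam Z ψ τ q.1 q.2 (Z.shift q.1 (A q.2)) ≠ 0)
    (hz : ∀ q' ∈ c.support, q' ≠ q → lam Z ψ τ q.1 q.2 (Z.shift q'.1 (A q'.2)) = 0) :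
    ∃ v ∈ (Finsupp.linearCombination Z.K (fun q : (Γ₀ × ℤ) × β => Z.shift q.1 (A q.2)) c).support,
      ∃ w ∈ (ψ q.2).support, q.1 = v.1 - w.1 + τ q.2 := by
  classical
  set p := Finsupp.linearCombination Z.K (fun q : (Γ₀ × ℤ) × β => Z.shift q.1 (A q.2)) c with hp
  have h1 : lam Z ψ τ q.1 q.2 p = c q * lam Z ψ τ q.1 q.2 (Z.shift q.1 (A q.2)) := by
    have h2 : lam Z ψ τ q.1 q.2 p = ∑ q' ∈ c.support,
        c q' * lam Z ψ τ q.1 q.2 (Z.shift q'.1 (A q'.2)) := by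
      rw [hp, Finsupp.linearCombination_apply, Finsupp.sum]
      unfold lam pr
      rw [map_sum]
      apply Finset.sum_congr rfl
      intro q' _
      rw [map_smul, smul_eq_mul]
    rw [h2, Finset.sum_eq_single_of_mem q (Finsupp.mem_support_iff.mpr hq)]
    intro q' hq' hne'
    rw [hz q' hq' hne', mul_zero]
  have h3 : pr Z (Z.shift (q.1 - τ q.2) (ψ q.2)) p ≠ 0 := by
    have : lam Z ψ τ q.1 q.2 p ≠ 0 := by
      rw [h1]
      exact mul_ne_zero hq hne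
    exact this
  rw [pr_eq_sum] at h3
  obtain ⟨v, hv, hne2⟩ := Finset.exists_ne_zero_of_sum_ne_zero h3
  have h4 : Z.shift (q.1 - τ q.2) (ψ q.2) v ≠ 0 := right_ne_zero_of_mul hne2
  rw [tp_shift_apply] at h4
  have h5 : ψ q.2 (v.1 - (q.1 - τ q.2), v.2) ≠ 0 := fun h => h4 (by rw [h, map_zero])
  refine ⟨v, hv, (v.1 - (q.1 - τ q.2), v.2), Finsupp.mem_support_iff.mpr h5, ?_⟩
  simp only
  abel

end

theorem pproj_of_phi {k I Γ₀ : Type} [Field k] [AddCommGroup Γ₀] (Z : Sys k (Γ₀ × ℤ) I)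
    (hK : ∀ y : Z.K, y ∈ fld k Z.z) {β : Type} [Finite β] (A : β → ((Γ₀ × ℤ) × I →₀ Z.K))
    (hspan : Z.RV Set.univ =
      Submodule.span Z.K (Set.range (fun τ : (Γ₀ × ℤ) × β => Z.shift τ.1 (A τ.2))))
    (ψ : β → ((Γ₀ × ℤ) × I →₀ Z.K))
    (h0 : ∀ γ β' β0, β' ≠ β0 → Finsupp.linearCombination Z.K (ψ β0) (Z.shift γ (A β')) = 0)
    (h1 : ∀ β0, ∃ γ, Finsupp.linearCombination Z.K (ψ β0) (Z.shift γ (A β0)) ≠ 0)
    (hinj : ∀ β0 (u u' : Γ₀ × ℤ), Finsupp.linearCombination Z.K (ψ β0) (Z.shift u (A β0)) ≠ 0 →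
      Finsupp.linearCombination Z.K (ψ β0) (Z.shift u' (A β0)) ≠ 0 → u.2 = u'.2 → u = u')
    (a b : ℤ) : Z.PProj a b := by
  classical
  have hT : ∀ β0, {u : Γ₀ × ℤ | pr Z (ψ β0) (Z.shift u (A β0)) ≠ 0}.Finite := by
    intro β0
    apply ((pr_finite Z (ψ β0) (A β0)).image (fun u => -u)).subset
    intro u hu
    refine ⟨-u, ?_, neg_neg u⟩
    rw [Set.mem_ofPred_eq, pr_shift_left, neg_neg]
    exact fun h => hu ((map_eq_zero_iff _ (AlgEquiv.injective _)).mp h)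
  -- maximal and minimal elements
  have hmax : ∀ β0, ∃ u, pr Z (ψ β0) (Z.shift u (A β0)) ≠ 0 ∧
      ∀ u', pr Z (ψ β0) (Z.shift u' (A β0)) ≠ 0 → u'.2 ≤ u.2 := by
    intro β0
    obtain ⟨g, hg⟩ := h1 β0
    obtain ⟨u, hu, hu'⟩ := (hT β0).toFinset.exists_max_image (fun u : Γ₀ × ℤ => u.2)
      ⟨g, (hT β0).mem_toFinset.mpr hg⟩
    exact ⟨u, (hT β0).mem_toFinset.mp hu, fun u' h' => hu' u' ((hT β0).mem_toFinset.mpr h')⟩
  have hmin : ∀ β0, ∃ u, pr Z (ψ β0) (Z.shift u (A β0)) ≠ 0 ∧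
      ∀ u', pr Z (ψ β0) (Z.shift u' (A β0)) ≠ 0 → u.2 ≤ u'.2 := by
    intro β0
    obtain ⟨g, hg⟩ := h1 β0
    obtain ⟨u, hu, hu'⟩ := (hT β0).toFinset.exists_min_image (fun u : Γ₀ × ℤ => u.2)
      ⟨g, (hT β0).mem_toFinset.mpr hg⟩
    exact ⟨u, (hT β0).mem_toFinset.mp hu, fun u' h' => hu' u' ((hT β0).mem_toFinset.mpr h')⟩
  choose τ hτ hτ' using hmax
  choose σ hσ hσ' using hmin
  have hP : Peel Z A ψ τ := ⟨fun γ b b0 hb => h0 γ b b0 hb, hτ, hτ',
    fun b u hu hl => hinj b u (τ b) hu (hτ b) hl⟩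
  -- bounds
  have hL : ∃ L : ℤ, ∀ β0 (w : (Γ₀ × ℤ) × I), w ∈ (ψ β0).support → |w.1.2| ≤ L := by
    have hf : (⋃ β0 : β, (fun w : (Γ₀ × ℤ) × I => |w.1.2|) '' ((ψ β0).support : Set _)).Finite :=
      Set.finite_iUnion fun β0 => (Finset.finite_toSet _).image _
    obtain ⟨L, hL⟩ := hf.bddAbove
    exact ⟨L, fun β0 w hw => hL (Set.mem_iUnion.mpr ⟨β0, ⟨w, hw, rfl⟩⟩)⟩
  have hS : ∃ L : ℤ, ∀ β0 : β, |(τ β0).2| ≤ L ∧ |(σ β0).2| ≤ L := by
    have hf : (Set.range (fun β0 : β => max |(τ β0).2| |(σ β0).2|)).Finite := Set.finite_range _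
    obtain ⟨L, hL⟩ := hf.bddAbove
    exact ⟨L, fun β0 => ⟨(le_max_left _ _).trans (hL ⟨β0, rfl⟩),
      (le_max_right _ _).trans (hL ⟨β0, rfl⟩)⟩⟩
  obtain ⟨L, hL⟩ := hL
  obtain ⟨S, hS⟩ := hS
  set M : ℤ := |a| + |b| + L + S with hM
  have hkey : ∀ p ∈ Z.RV (lev a b), p ∈ spanLev Z A (-M) (-M + (2 * M + 1).toNat) := by
    intro p hp
    have hpu : p ∈ Z.RV Set.univ := by
      refine Submodule.span_mono ?_ hp
      rintro _ ⟨P, _, hP0, rfl⟩
      exact ⟨P, fun _ _ => trivial, hP0, rfl⟩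
    rw [hspan, Finsupp.mem_span_range_iff_exists_finsupp] at hpu
    obtain ⟨c, hc⟩ := hpu
    have hc' : Finsupp.linearCombination Z.K
        (fun q : (Γ₀ × ℤ) × β => Z.shift q.1 (A q.2)) c = p := hc
    have hlev : ∀ v ∈ p.support, a ≤ v.1.2 ∧ v.1.2 ≤ b := by
      intro v hv
      by_contra hcon
      exact (Finsupp.mem_support_iff.mp hv) (supp_of_mem_RV Z hp v hcon)
    have hup : ∀ q ∈ c.support, q.1.2 ≤ M := by
      by_contra hcon
      push Not at hcon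
      obtain ⟨q0, hq0, hq0'⟩ := hcon
      obtain ⟨q, hq, hqmax⟩ := c.support.exists_max_image (fun q => q.1.2) ⟨q0, hq0⟩
      have hcq := Finsupp.mem_support_iff.mp hq
      have hnez : lam Z ψ σ q.1 q.2 (Z.shift q.1 (A q.2)) ≠ 0 := by
        rw [lam_eq, sub_add_cancel]
        intro h
        exact hσ _ ((map_eq_zero_iff _ (AlgEquiv.injective _)).mp h)
      obtain ⟨v, hv, w, hw, hqe⟩ := extreme_site Z c q hcq hnez (by
        intro q' hq' hne
        rw [lam_eq]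
        by_cases hb : q'.2 = q.2
        · rw [hb]
          by_contra h2
          have h3 : pr Z (ψ q.2) (Z.shift (σ q.2 - q.1 + q'.1) (A q.2)) ≠ 0 :=
            fun h => h2 (by rw [h, map_zero])
          have h4 := hσ' _ _ h3
          have h5 : (σ q.2 - q.1 + q'.1).2 = (σ q.2).2 - q.1.2 + q'.1.2 := rfl
          have h6 := hqmax q' hq'
          have h7 : (σ q.2 - q.1 + q'.1).2 = (σ q.2).2 := by omega
          have h8 := hinj _ _ _ h3 (hσ q.2) h7
          apply hne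
          refine Prod.ext ?_ hb
          have h9 : σ q.2 - q.1 + q'.1 - σ q.2 + q.1 = σ q.2 - σ q.2 + q.1 := by rw [h8]
          rw [sub_self, zero_add] at h9
          rw [← h9]
          abel
        · have := h0 (σ q.2 - q.1 + q'.1) q'.2 q.2 hb
          rw [pr, this, map_zero])
      rw [hc'] at hv
      have h10 := hlev v hv
      have h11 := hL _ w hw
      have h12 := hS q.2
      have h13 : q.1.2 = v.1.2 - w.1.2 + (σ q.2).2 := by
        have := congrArg Prod.snd hqe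
        exact this
      have h14 := hqmax q0 hq0
      have h15 := abs_le.mp h11
      have h16 := abs_le.mp h12.2
      have h17 := le_abs_self b
      have h18 := abs_nonneg a
      omega
    have hdown : ∀ q ∈ c.support, -M ≤ q.1.2 := by
      by_contra hcon
      push Not at hcon
      obtain ⟨q0, hq0, hq0'⟩ := hcon
      obtain ⟨q, hq, hqmin⟩ := c.support.exists_min_image (fun q => q.1.2) ⟨q0, hq0⟩
      have hcq := Finsupp.mem_support_iff.mp hq
      obtain ⟨v, hv, w, hw, hqe⟩ := extreme_site Z c q hcq (lam_ne Z hP q.1 q.2) (by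
        intro q' hq' hne
        apply lam_zero Z hP (hqmin q' hq')
        rintro ⟨h2, h3⟩
        exact hne (Prod.ext h2.symm h3.symm))
      rw [hc'] at hv
      have h10 := hlev v hv
      have h11 := hL _ w hw
      have h12 := hS q.2
      have h13 : q.1.2 = v.1.2 - w.1.2 + (τ q.2).2 := by
        have := congrArg Prod.snd hqe
        exact this
      have h14 := hqmin q0 hq0
      have h15 := abs_le.mp h11
      have h16 := abs_le.mp h12.1
      have h17 := neg_abs_le a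
      have h18 := abs_nonneg b
      omega
    rw [← hc', Finsupp.linearCombination_apply, Finsupp.sum]
    apply Submodule.sum_mem
    intro q hq
    apply Submodule.smul_mem
    apply Submodule.subset_span
    refine ⟨q.1, q.2, hdown q hq, ?_, rfl⟩
    have := hup q hq
    have h2 := hdown q hq
    rw [Int.toNat_of_nonneg (by omega)]
    omega
  obtain ⟨C, hC1, hC2, hC3⟩ := exists_kill Z hP (2 * M + 1).toNat (-M)
  refine ⟨LinearMap.id - C, fun γ p => ?_, fun p => ?_, fun p hp => ?_, fun t i v => hK _⟩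
  · rw [LinearMap.sub_apply, LinearMap.sub_apply, LinearMap.id_apply, LinearMap.id_apply, hC1,
      map_sub]
  · rw [LinearMap.sub_apply, LinearMap.id_apply, hspan]
    exact hC2 p
  · rw [LinearMap.sub_apply, LinearMap.id_apply, hC3 p (hkey p hp), sub_zero]

end Pool.Agent.ORG
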