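import Pool.Agent.ORG.RelInd
import Pool.Agent.ORG.MapSys
import Pool.Agent.ORG.Phi
import Pool.Agent.ORG.TopP

/-! Section 11, final statement. -/

set_option autoImplicit false

namespace Pool.Agent.ORG

open MvPolynomial

theorem pair_finite {k Γ I : Type} [Field k] [AddCommGroup Γ] (Z : Sys k Γ I)
    (A ψ : Γ × I →₀ Z.K) :
    {u : Γ | Finsupp.linearCombination Z.K ψ (Z.shift u A) ≠ 0}.Finite := by
  classical
  refine ((ψ.support ×ˢ A.support).image (fun z => z.1.1 - z.2.1)).finite_toSet.subset ?_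
  intro u hu
  by_contra hcon
  apply hu
  rw [Finsupp.linearCombination_apply, Finsupp.sum]
  apply Finset.sum_eq_zero
  intro v hv
  rw [smul_eq_mul, mul_eq_zero]
  by_contra h
  rw [not_or] at h
  apply hcon
  rw [Z.shift_apply'] at h
  have h1 : A (v.1 - u, v.2) ≠ 0 := by
    intro h0
    apply h.1
    rw [h0, map_zero]
  simp only [Finset.coe_image, Set.mem_image, Finset.mem_coe, Finset.mem_product,
    Finsupp.mem_support_iff]
  exact ⟨(v, (v.1 - u, v.2)), ⟨h.2, h1⟩, by simp⟩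

theorem rep_system {k : Type} [Field k] [CharZero k] {X Δ : Type} [Finite X] [Finite Δ]
    [AddCommGroup Δ] {b : ℕ} {r : FreeGroup X} (hr : r ≠ 1)
    (p : FreeGroup X →* Multiplicative ((Fin b → ℤ) × Δ)) (hp : Function.Surjective p)
    (hpr : Lyn.NC r ≤ p.ker)
    (hL : ∀ P : Subgroup (FreeGroup X ⧸ Lyn.NC r),
      P ≤ (QuotientGroup.lift (Lyn.NC r) p hpr).ker → P.FG → IsFreeGroup P) :
    ∃ Z : Sys k (Fin b → ℤ) (LI Δ X), (∀ y, y ∈ fld k Z.z) ∧
      (∀ v j, IsUnit (mat Z.z v j).det) ∧ (∀ v, U p (cfg Z.z) r v = 1) ∧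
      (∀ w, p w = 1 → w ∉ Lyn.NC r → U p (cfg Z.z) w 0 ≠ 1) ∧
      ∃ F0 : Finset (Fin b → ℤ), 0 ∉ F0 ∧ ∀ (Γ0 : Type) [AddCommGroup Γ0]
        (e : (Fin b → ℤ) ≃+ Γ0 × ℤ), (∀ u ∈ F0, (e u).2 ≠ 0) → ∀ a c, (Z.map e).PProj a c := by
  classical
  have hpr1 : p r = 1 := hpr (Lyn.mem_NC r)
  obtain ⟨s, hs⟩ := Lyn.exists_root hr
  obtain ⟨n, hn, hsn⟩ := hs.1
  have hcomm : s * r = r * s := by rw [← hsn, ← pow_succ', ← pow_succ]
  have hσ : (p s).toAdd.1 = 0 := by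
    have h1 : n • (p s).toAdd = 0 := by
      rw [← toAdd_pow, ← map_pow, hsn, hpr1, toAdd_one]
    have h2 := congrArg Prod.fst h1
    rw [Prod.smul_fst, Prod.fst_zero] at h2
    exact (smul_eq_zero.1 h2).resolve_left hn.ne'
  obtain ⟨Z, hZ, hK⟩ := exists_repsys (k := k) hp hpr hL
  choose f d hfd using fun β : BB p s => exists_reps (k := k) p r (0, rp p s β.1) β.2.1 β.2.2
  have hspan := RV_eq Z hZ hcomm hpr1 hσ f d hfd
  have hind := AA_indep Z hZ hr hs hp hpr hL hσ f d hfd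
  have hfin : Finite (BB p s) := inferInstance
  have := Fintype.ofFinite (BB p s)
  choose ψ hψ0 hψ1 using fun β0 : BB p s => exists_phi Z (AA Z f d) hind β0
  let S : BB p s → Finset (Fin b → ℤ) := fun β0 =>
    (pair_finite Z (AA Z f d β0) (ψ β0)).toFinset
  have hS : ∀ β0 u, u ∈ S β0 ↔
      Finsupp.linearCombination Z.K (ψ β0) (Z.shift u (AA Z f d β0)) ≠ 0 := by
    intro β0 u
    simp [S]
  let F0 : Finset (Fin b → ℤ) := (Finset.univ.biUnion (fun β0 =>
    (S β0 ×ˢ S β0).image (fun z => z.1 - z.2))).erase 0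
  refine ⟨Z, hK, fun v j => isUnit_det_z Z hZ v j, U_r_z Z hZ,
    fun w hw1 hw2 => U_w_z Z hZ hp hpr hL hw1 hw2, F0, Finset.notMem_erase _ _, ?_⟩
  intro Γ0 _ e he a c
  obtain ⟨A', ψ', h1, h2⟩ := map_data e Z (AA Z f d) ψ hspan
  have hK' : ∀ y : (Z.map e).K, y ∈ fld k (Z.map e).z := by
    intro y
    have h3 : Set.range (Z.map e).z = Set.range Z.z := by
      ext q
      constructor
      · rintro ⟨v, rfl⟩
        exact ⟨(e.symm v.1, v.2), rfl⟩
      · rintro ⟨v, rfl⟩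
        refine ⟨(e v.1, v.2), ?_⟩
        show Z.z (e.symm (e v.1), v.2) = Z.z v
        rw [e.symm_apply_apply]
    have h4 : y ∈ IntermediateField.adjoin k (Set.range Z.z) := hK y
    unfold fld
    rw [h3]
    exact h4
  refine pproj_of_phi (Z.map e) hK' A' h1 ψ' ?_ ?_ ?_ a c
  · intro γ β' β0 hne
    rw [h2]
    exact hψ0 β0 _ β' hne
  · intro β0
    obtain ⟨γ, hγ⟩ := hψ1 β0
    refine ⟨e γ, ?_⟩
    rw [ne_eq, h2, e.symm_apply_apply]
    exact hγ
  · intro β0 u u' hu hu' huu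
    rw [ne_eq, h2] at hu hu'
    by_contra hne
    have h3 : e.symm u - e.symm u' ∈ F0 := by
      refine Finset.mem_erase.2 ⟨?_, ?_⟩
      · rw [sub_ne_zero]
        intro h
        exact hne (e.symm.injective h)
      · refine Finset.mem_biUnion.2 ⟨β0, Finset.mem_univ _, Finset.mem_image.2
          ⟨(e.symm u, e.symm u'), Finset.mem_product.2 ⟨(hS β0 _).2 hu, (hS β0 _).2 hu'⟩, rfl⟩⟩
    apply he _ h3
    rw [map_sub, e.apply_symm_apply, e.apply_symm_apply, Prod.snd_sub, huu, sub_self]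

end Pool.Agent.ORG
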