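import Pool.Agent.ORG.FinMain
import Pool.Agent.ORG.RepMain

set_option autoImplicit false

namespace Pool.Agent.ORG

/-- `RepStmt` of FinMain from `rep_system` of RepMain -/
theorem repStmt (k : Type) [Field k] [CharZero k] : RepStmt k := by
  intro X Δ _ _ _ b r hr p hp hpr hfree
  refine rep_system hr p hp hpr ?_
  intro P hP hfg
  have h1 := hfree (P.subgroupOf (QuotientGroup.lift (Lyn.NC r) p hpr).ker)
  have e : P.subgroupOf (QuotientGroup.lift (Lyn.NC r) p hpr).ker ≃* P :=
    Subgroup.subgroupOfEquivOfLe hP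
  have h2 : (P.subgroupOf (QuotientGroup.lift (Lyn.NC r) p hpr).ker).FG := by
    rw [← Group.fg_iff_subgroup_fg] at hfg ⊢
    exact Group.fg_of_surjective (f := e.symm.toMonoidHom) e.symm.surjective
  have h3 := h1 h2
  exact IsFreeGroup.ofMulEquiv e

end Pool.Agent.ORG
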