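import Pool.Agent.ORG.Defs
import Pool.Agent.ORG.S1
import Pool.Agent.ORG.S2

/-!
# MP_08a057_al, ORG module G1 : section 5: generic directions
(paper: /team-store/ORG_paper.md)
-/

set_option autoImplicit false

namespace Pool.Agent.ORG

open MvPolynomial

variable {k : Type} [Field k] {I : Type} {m : ℕ}

/-- each relation over the letters on `A` is a relation over the letters on a finite set -/
private theorem g1_gen_fin {Γ : Type} [AddCommGroup Γ] (Z : Sys k Γ I) (s : Γ) (A : Set Γ)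
    (P : MvPolynomial I (fld k (res Z.z A))) (hP : aeval (fun i => Z.z (s, i)) P = 0) :
    ∃ F : Set Γ, F.Finite ∧ F ⊆ A ∧
      MvPolynomial.map (algebraMap (fld k (res Z.z A)) Z.K) P ∈ Z.relAt s F := by
  classical
  set f := MvPolynomial.map (algebraMap (fld k (res Z.z A)) Z.K) P with hf
  have hc : ∀ d, f.coeff d ∈ fld k (res Z.z A) := by
    intro d
    rw [hf, coeff_map]
    exact (P.coeff d).2
  have h1 : ∀ d, ∃ T : Finset Z.K, (T : Set Z.K) ⊆ Set.range (res Z.z A) ∧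
      f.coeff d ∈ IntermediateField.adjoin k (T : Set Z.K) := fun d =>
    IntermediateField.exists_finset_of_mem_adjoin (hc d)
  choose T hT hT' using h1
  have hT0 : ((f.support.biUnion T : Finset Z.K) : Set Z.K) ⊆ Set.range (res Z.z A) := by
    intro t ht
    rw [Finset.mem_coe, Finset.mem_biUnion] at ht
    obtain ⟨d, _, hd⟩ := ht
    exact hT d hd
  have h2 : ∀ t : {t // t ∈ f.support.biUnion T}, ∃ v : Ix I A, res Z.z A v = t.1 :=
    fun t => hT0 t.2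
  choose g hg using h2
  refine ⟨Set.range (fun t => (g t).1.1), Set.finite_range _, ?_, ?_⟩
  · rintro _ ⟨t, rfl⟩
    exact (g t).2
  · have h3 : ∀ d ∈ f.support, f.coeff d ∈
        fld k (res Z.z (Set.range (fun t => (g t).1.1))) := by
      intro d hd
      refine IntermediateField.adjoin.mono k _ _ ?_ (hT' d)
      intro t ht
      have htm : t ∈ f.support.biUnion T := Finset.mem_biUnion.2 ⟨d, hd, ht⟩
      refine ⟨⟨(g ⟨t, htm⟩).1, ⟨⟨t, htm⟩, rfl⟩⟩, ?_⟩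
      exact hg ⟨t, htm⟩
    have h4 : f ∈ Set.range (MvPolynomial.map
        (algebraMap (fld k (res Z.z (Set.range (fun t => (g t).1.1)))) Z.K)
        : MvPolynomial I _ → MvPolynomial I Z.K) := by
      rw [MvPolynomial.mem_range_map_iff_coeffs_subset]
      intro c hcc
      rw [Finset.mem_coe, MvPolynomial.mem_coeffs_iff] at hcc
      obtain ⟨d, hd, rfl⟩ := hcc
      exact ⟨⟨f.coeff d, h3 d hd⟩, rfl⟩
    obtain ⟨P', hP'⟩ := h4
    refine Ideal.subset_span ⟨P', ?_, hP'.symm⟩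
    rw [← MvPolynomial.aeval_map_algebraMap Z.K, hP', hf, MvPolynomial.aeval_map_algebraMap]
    exact hP

/-- the relations over the letters on `A` are generated by the relations over a finite subset -/
private theorem g1_fin_det {Γ : Type} [AddCommGroup Γ] [Finite I] (Z : Sys k Γ I) (s : Γ)
    (A : Set Γ) : ∃ F : Set Γ, F.Finite ∧ F ⊆ A ∧ Z.relAt s A ≤ Z.relAt s F := by
  classical
  have hwf : WellFounded ((· > ·) : Ideal (MvPolynomial I Z.K) →
    Ideal (MvPolynomial I Z.K) → Prop) := wellFounded_gt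
  obtain ⟨J, ⟨F, hF, hFA, rfl⟩, hmax⟩ := hwf.has_min
    {J | ∃ F : Set Γ, F.Finite ∧ F ⊆ A ∧ Z.relAt s F = J}
    ⟨_, ∅, Set.finite_empty, Set.empty_subset _, rfl⟩
  refine ⟨F, hF, hFA, ?_⟩
  refine Ideal.span_le.2 ?_
  rintro f ⟨P, hP, rfl⟩
  obtain ⟨F', hF', hFA', hmem⟩ := g1_gen_fin Z s A P hP
  have h1 : Z.relAt s F ≤ Z.relAt s (F ∪ F') := relAt_mono Z s Set.subset_union_left
  have h2 : ¬ Z.relAt s (F ∪ F') > Z.relAt s F :=
    hmax _ ⟨F ∪ F', hF.union hF', Set.union_subset hFA hFA', rfl⟩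
  have h3 : Z.relAt s F = Z.relAt s (F ∪ F') := eq_of_le_of_not_lt h1 h2
  rw [SetLike.mem_coe, h3]
  exact relAt_mono Z s Set.subset_union_right hmem

private theorem g1_bound {G : Type} [AddCommGroup G] (ζ : G →+ ℤ) {W : Set G} (hW : W.Finite) :
    ∃ M : ℤ, 0 < M ∧ ∀ v ∈ W, |ζ v| < M := by
  obtain ⟨M, hM⟩ := (hW.image fun v => |ζ v|).bddAbove
  refine ⟨max M 0 + 1, by positivity, fun v hv => ?_⟩
  have := hM ⟨v, hv, rfl⟩
  have h2 : M ≤ max M 0 := le_max_left _ _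
  show |ζ v| < _
  have h3 : |ζ v| ≤ M := this
  omega

/-- `Mη + ζ` for large `M` -/
private theorem g1_comb {G : Type} [AddCommGroup G] (η ζ : G →+ ℤ) {W : Set G} (hW : W.Finite) :
    ∃ M : ℤ, 0 < M ∧ ∀ v ∈ W, (η v < 0 → (M • η + ζ) v < 0) ∧ (0 < η v → 0 < (M • η + ζ) v) ∧
      (η v ≠ 0 → (M • η + ζ) v ≠ 0) ∧ (η v = 0 → (M • η + ζ) v = ζ v) := by
  obtain ⟨M, hM0, hM⟩ := g1_bound ζ hW
  refine ⟨M, hM0, fun v hv => ?_⟩
  have h1 := hM v hv
  rw [abs_lt] at h1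
  have h2 : (M • η + ζ) v = M * η v + ζ v := by simp
  rw [h2]
  have h3 : η v < 0 → M * η v + ζ v < 0 := by
    intro h
    have : M * η v ≤ M * (-1) := mul_le_mul_of_nonneg_left (by omega) hM0.le
    linarith
  have h4 : 0 < η v → 0 < M * η v + ζ v := by
    intro h
    have : M * 1 ≤ M * η v := mul_le_mul_of_nonneg_left (by omega) hM0.le
    linarith
  refine ⟨h3, h4, fun h => ?_, fun h => by rw [h]; ring⟩
  rcases lt_or_gt_of_ne h with h | h
  · exact (h3 h).ne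
  · exact (h4 h).ne'

/-- make a homomorphism non-zero on a finite set, keeping signs -/
private theorem g1_nonzero (η : (Fin m → ℤ) →+ ℤ) {S T U : Set (Fin m → ℤ)}
    (hS : S.Finite) (hT : T.Finite) (hU : U.Finite) (h0 : (0 : Fin m → ℤ) ∉ U)
    (hηS : ∀ v ∈ S, η v < 0) (hηT : ∀ v ∈ T, 0 < η v) :
    ∃ η' : (Fin m → ℤ) →+ ℤ, (∀ v ∈ S, η' v < 0) ∧ (∀ v ∈ T, 0 < η' v) ∧
      (∀ v ∈ U, η' v ≠ 0) := by
  induction U, hU using Set.Finite.induction_on with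
  | empty => exact ⟨η, hηS, hηT, fun v hv => absurd hv (Set.notMem_empty v)⟩
  | @insert f U _ hU ih =>
    obtain ⟨η', h1, h2, h3⟩ := ih fun h => h0 (Set.mem_insert_of_mem _ h)
    have hf : f ≠ 0 := fun h => h0 (h ▸ Set.mem_insert f U)
    obtain ⟨i, hi⟩ : ∃ i, f i ≠ 0 := by
      by_contra hcon
      push Not at hcon
      exact hf (funext hcon)
    obtain ⟨M, hM0, hM⟩ := g1_comb η' (Pi.evalAddMonoidHom (fun _ : Fin m => ℤ) i)
      ((hS.union hT).union (hU.insert f))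
    refine ⟨_, fun v hv => (hM v (Or.inl (Or.inl hv))).1 (h1 v hv),
      fun v hv => (hM v (Or.inl (Or.inr hv))).2.1 (h2 v hv), fun v hv => ?_⟩
    rcases hv with rfl | hv
    · have hM' := hM v (Or.inr (Set.mem_insert _ _))
      by_cases hz : η' v = 0
      · rw [hM'.2.2.2 hz]
        exact hi
      · exact hM'.2.2.1 hz
    · exact (hM v (Or.inr (Set.mem_insert_of_mem _ hv))).2.2.1 (h3 v hv)

/-- division by the content -/
private theorem g1_content {G : Type} [AddCommGroup G] (η : G →+ ℤ) (g : G) (hg : η g ≠ 0) :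
    ∃ (η' : G →+ ℤ) (c : ℤ), 0 < c ∧ Function.Surjective η' ∧ ∀ v, η v = c * η' v := by
  obtain ⟨a, ha⟩ := Int.subgroup_cyclic η.range
  have hmem : ∀ v, ∃ t : ℤ, η v = a * t := by
    intro v
    have h1 : η v ∈ η.range := ⟨v, rfl⟩
    rw [ha, AddSubgroup.mem_closure_singleton] at h1
    obtain ⟨n, hn⟩ := h1
    exact ⟨n, by rw [← hn, smul_eq_mul]; ring⟩
  have ha0 : a ≠ 0 := by
    rintro rfl
    obtain ⟨t, ht⟩ := hmem g
    exact hg (by rw [ht, zero_mul])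
  have hc : 0 < |a| := abs_pos.2 ha0
  have hdvd : ∀ v, |a| ∣ η v := fun v => (abs_dvd a _).2 (by
    obtain ⟨t, ht⟩ := hmem v
    exact ⟨t, ht⟩)
  refine ⟨{ toFun := fun v => η v / |a|
            map_zero' := by simp
            map_add' := fun v w => by
              rw [map_add, Int.add_ediv_of_dvd_left (hdvd v)] }, |a|, hc, ?_, ?_⟩
  · have h1 : |a| ∈ η.range := by
      rw [ha, AddSubgroup.mem_closure_singleton]
      rcases abs_choice a with h | h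
      · exact ⟨1, by rw [h, one_smul]⟩
      · exact ⟨-1, by rw [h]; simp⟩
    obtain ⟨u, hu⟩ := h1
    intro n
    refine ⟨n • u, ?_⟩
    show η (n • u) / |a| = n
    rw [map_zsmul, hu, smul_eq_mul, Int.mul_ediv_cancel _ hc.ne']
  · intro v
    show η v = |a| * (η v / |a|)
    rw [Int.mul_ediv_cancel' (hdvd v)]

/-- (5.1), before the change of coordinates -/
theorem exists_eta [Finite I] (Z : Sys k (Fin (m + 1) → ℤ) I)
    (F0 : Set (Fin (m + 1) → ℤ)) (hF : F0.Finite) (h0 : (0 : Fin (m + 1) → ℤ) ∉ F0) :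
    ∃ (η : (Fin (m + 1) → ℤ) →+ ℤ) (N Nm : Set (Fin (m + 1) → ℤ)),
      Function.Surjective η ∧ (∀ f ∈ F0, η f ≠ 0) ∧ N.Finite ∧ Nm.Finite ∧
      (∀ v ∈ N, η v < 0) ∧ (∀ v ∈ Nm, 0 < η v) ∧
      (∀ (ζ : (Fin (m + 1) → ℤ) →+ ℤ) (A : Set (Fin (m + 1) → ℤ)), A.Finite →
        (∀ v ∈ A, η v < 0 ∨ (η v = 0 ∧ ζ v < 0)) → Z.Det 0 (A ∪ N) N) ∧
      (∀ (ζ : (Fin (m + 1) → ℤ) →+ ℤ) (A : Set (Fin (m + 1) → ℤ)), A.Finite →
        (∀ v ∈ A, 0 < η v ∨ (η v = 0 ∧ ζ v < 0)) → Z.Det 0 (A ∪ Nm) Nm) := by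
  classical
  -- the maximal pair
  let vv : ((Fin (m + 1) → ℤ) →+ ℤ) → Ideal (MvPolynomial I Z.K) × Ideal (MvPolynomial I Z.K) :=
    fun η => (Z.relAt 0 {v | η v < 0}, Z.relAt 0 {v | 0 < η v})
  have hwf : WellFounded ((· > ·) :
    Ideal (MvPolynomial I Z.K) × Ideal (MvPolynomial I Z.K) →
    Ideal (MvPolynomial I Z.K) × Ideal (MvPolynomial I Z.K) → Prop) := wellFounded_gt
  let ev : (Fin (m + 1) → ℤ) →+ ℤ := Pi.evalAddMonoidHom (fun _ : Fin (m + 1) => ℤ) 0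
  have hev : ev (fun _ => 1) ≠ 0 := by
    show (1 : ℤ) ≠ 0
    norm_num
  obtain ⟨J, ⟨η, ⟨g, hg⟩, rfl⟩, hmax⟩ := hwf.has_min
    {J | ∃ η : (Fin (m + 1) → ℤ) →+ ℤ, (∃ g, η g ≠ 0) ∧ vv η = J} ⟨_, ev, ⟨_, hev⟩, rfl⟩
  obtain ⟨N, hN, hNs, hNd⟩ := g1_fin_det Z 0 {v | η v < 0}
  obtain ⟨Nm, hNm, hNms, hNmd⟩ := g1_fin_det Z 0 {v | 0 < η v}
  -- the cone
  have cone : ∀ η' : (Fin (m + 1) → ℤ) →+ ℤ, (∃ g, η' g ≠ 0) → (∀ v ∈ N, η' v < 0) →
      (∀ v ∈ Nm, 0 < η' v) → Z.relAt 0 {v | η' v < 0} ≤ Z.relAt 0 N ∧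
        Z.relAt 0 {v | 0 < η' v} ≤ Z.relAt 0 Nm := by
    intro η' hg' h1 h2
    have h3 : vv η ≤ vv η' :=
      ⟨hNd.trans (relAt_mono Z 0 h1), hNmd.trans (relAt_mono Z 0 h2)⟩
    have h4 : ¬ vv η' > vv η := hmax _ ⟨η', hg', rfl⟩
    have h5 : vv η = vv η' := eq_of_le_of_not_lt h3 h4
    have h6 : Z.relAt 0 {v | η v < 0} = Z.relAt 0 {v | η' v < 0} := congrArg Prod.fst h5
    have h7 : Z.relAt 0 {v | 0 < η v} = Z.relAt 0 {v | 0 < η' v} := congrArg Prod.snd h5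
    exact ⟨h6 ▸ hNd, h7 ▸ hNmd⟩
  -- a generic direction
  have hg0 : g ≠ 0 := by
    rintro rfl
    exact hg (map_zero η)
  obtain ⟨η1, h11, h12, h13⟩ := g1_nonzero η (U := insert g F0) hN hNm (hF.insert g)
    (by
      intro h
      rcases h with h | h
      · exact hg0 h.symm
      · exact h0 h) hNs hNms
  obtain ⟨η2, c, hc, hsurj, hη⟩ := g1_content η1 g (h13 g (Set.mem_insert _ _))
  have hneg : ∀ v, η1 v < 0 → η2 v < 0 := by
    intro v hv
    rw [hη] at hv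
    by_contra hcon
    push Not at hcon
    exact absurd hv (not_lt.2 (mul_nonneg hc.le hcon))
  have hpos : ∀ v, 0 < η1 v → 0 < η2 v := by
    intro v hv
    rw [hη] at hv
    exact (mul_pos_iff_of_pos_left hc).1 hv
  have hne : ∀ v, η1 v ≠ 0 → η2 v ≠ 0 := by
    intro v hv h
    exact hv (by rw [hη, h, mul_zero])
  refine ⟨η2, N, Nm, hsurj, fun f hf => hne f (h13 f (Set.mem_insert_of_mem _ hf)), hN, hNm,
    fun v hv => hneg v (h11 v hv), fun v hv => hpos v (h12 v hv), ?_, ?_⟩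
  · intro ζ A hA hAs
    obtain ⟨M, hM0, hM⟩ := g1_comb η2 ζ (((hN.union hNm).union hA).insert g)
    have hco := (cone (M • η2 + ζ)
      ⟨g, (hM g (Set.mem_insert _ _)).2.2.1 (hne g (h13 g (Set.mem_insert _ _)))⟩
      (fun v hv => (hM v (Or.inr (Or.inl (Or.inl hv)))).1 (hneg v (h11 v hv)))
      (fun v hv => (hM v (Or.inr (Or.inl (Or.inr hv)))).2.1 (hpos v (h12 v hv)))).1
    refine (relAt_mono Z 0 ?_).trans hco
    rintro v (hv | hv)
    · have hMv := hM v (Or.inr (Or.inr hv))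
      rcases hAs v hv with h | ⟨h, h'⟩
      · exact hMv.1 h
      · show (M • η2 + ζ) v < 0
        rw [hMv.2.2.2 h]
        exact h'
    · exact (hM v (Or.inr (Or.inl (Or.inl hv)))).1 (hneg v (h11 v hv))
  · intro ζ A hA hAs
    obtain ⟨M, hM0, hM⟩ := g1_comb η2 (-ζ) (((hN.union hNm).union hA).insert g)
    have hco := (cone (M • η2 + -ζ)
      ⟨g, (hM g (Set.mem_insert _ _)).2.2.1 (hne g (h13 g (Set.mem_insert _ _)))⟩
      (fun v hv => (hM v (Or.inr (Or.inl (Or.inl hv)))).1 (hneg v (h11 v hv)))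
      (fun v hv => (hM v (Or.inr (Or.inl (Or.inr hv)))).2.1 (hpos v (h12 v hv)))).2
    refine (relAt_mono Z 0 ?_).trans hco
    rintro v (hv | hv)
    · have hMv := hM v (Or.inr (Or.inr hv))
      rcases hAs v hv with h | ⟨h, h'⟩
      · exact hMv.2.1 h
      · show 0 < (M • η2 + -ζ) v
        rw [hMv.2.2.2 h]
        show 0 < -(ζ v)
        omega
    · exact (hM v (Or.inr (Or.inl (Or.inr hv)))).2.1 (hpos v (h12 v hv))

end Pool.Agent.ORG
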