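import Pool.Agent.ORG.Defs
import Pool.Agent.ORG.S1
import Pool.Agent.ORG.S2
import Pool.Agent.ORG.G1

/-!
# MP_08a057_al, ORG module G2 : section 5: change of coordinates
(paper: /team-store/ORG_paper.md)
-/

set_option autoImplicit false

namespace Pool.Agent.ORG

open MvPolynomial

variable {k : Type} [Field k] {I : Type} {m : ℕ}

/-- a surjection onto `ℤ` is a coordinate -/
theorem exists_coord (η : (Fin (m + 1) → ℤ) →+ ℤ) (hη : Function.Surjective η) :
    ∃ e : (Fin (m + 1) → ℤ) ≃+ (Fin m → ℤ) × ℤ, ∀ v, (e v).2 = η v := by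
  obtain ⟨v0, hv0⟩ := hη 1
  let f : (Fin (m + 1) → ℤ) →ₗ[ℤ] ℤ := η.toIntLinearMap
  have hf : ∀ v, f v = η v := fun _ => rfl
  have hf0 : f v0 = 1 := hv0
  let g : (Fin (m + 1) → ℤ) ≃ₗ[ℤ] LinearMap.ker f × ℤ :=
    { toFun := fun v => (⟨v - f v • v0, by
        rw [LinearMap.mem_ker, map_sub, map_smul, hf0]
        simp⟩, f v)
      map_add' := fun v w => by
        refine Prod.ext (Subtype.ext ?_) (map_add f v w)
        change v + w - f (v + w) • v0 = (v - f v • v0) + (w - f w • v0)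
        rw [map_add, add_smul]
        abel
      map_smul' := fun c v => by
        refine Prod.ext (Subtype.ext ?_) (map_smul f c v)
        change c • v - f (c • v) • v0 = c • (v - f v • v0)
        rw [map_smul, smul_sub, smul_eq_mul, mul_smul]
      invFun := fun p => (p.1 : Fin (m + 1) → ℤ) + p.2 • v0
      left_inv := fun v => by
        change v - f v • v0 + f v • v0 = v
        abel
      right_inv := fun p => by
        have h1 : f ((p.1 : Fin (m + 1) → ℤ) + p.2 • v0) = p.2 := by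
          rw [map_add, map_smul, hf0, LinearMap.mem_ker.mp p.1.2]
          simp
        refine Prod.ext (Subtype.ext ?_) h1
        change (p.1 : Fin (m + 1) → ℤ) + p.2 • v0 - f ((p.1 : Fin (m + 1) → ℤ) + p.2 • v0) • v0
          = p.1
        rw [h1]
        abel }
  have hfin : Module.finrank ℤ (LinearMap.ker f) = m := by
    have h1 := g.finrank_eq
    rw [Module.finrank_prod, Module.finrank_self, Module.finrank_fin_fun] at h1
    omega
  let b := Module.finBasisOfFinrankEq ℤ (LinearMap.ker f) hfin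
  let e := g.trans (b.equivFun.prodCongr (LinearEquiv.refl ℤ ℤ))
  exact ⟨e.toAddEquiv, fun v => rfl⟩

/-- the ideal of relations over an intermediate field -/
noncomputable def g2Ideal {E : Type} [Field E] [Algebra k E] (L : IntermediateField k E)
    (c : I → E) : Ideal (MvPolynomial I E) :=
  Ideal.span {f | ∃ P : MvPolynomial I L, aeval c P = 0 ∧
    f = MvPolynomial.map (algebraMap L E) P}

theorem g2_relIdeal_congr {E J J' : Type} [Field E] [Algebra k E] {a : J → E} {a' : J' → E}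
    (h : Set.range a = Set.range a') (c : I → E) : relIdeal k a c = relIdeal k a' c := by
  have h1 : fld k a = fld k a' := by rw [fld, fld, h]
  change g2Ideal (fld k a) c = g2Ideal (fld k a') c
  rw [h1]

theorem g2_relAt {Γ Γ' : Type} [AddCommGroup Γ] [AddCommGroup Γ'] (Z : Sys k Γ I) (e : Γ ≃+ Γ')
    (A : Set Γ') : (Z.map e).relAt 0 A = Z.relAt 0 (e ⁻¹' A) := by
  have h1 : ∀ v : Γ' × I, (Z.map e).z v = Z.z (e.symm v.1, v.2) := fun v => rfl
  have h2 : (fun i => (Z.map e).z (0, i)) = fun i => Z.z (0, i) := by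
    funext i
    rw [h1, map_zero]
  change relIdeal k (res (Z.map e).z A) (fun i => (Z.map e).z (0, i)) =
    relIdeal k (res Z.z (e ⁻¹' A)) (fun i => Z.z (0, i))
  rw [h2]
  refine g2_relIdeal_congr (E := Z.K) ?_ _
  ext x
  constructor
  · rintro ⟨v, rfl⟩
    refine ⟨⟨(e.symm v.1.1, v.1.2), ?_⟩, rfl⟩
    change e (e.symm v.1.1) ∈ A
    rw [e.apply_symm_apply]
    exact v.2
  · rintro ⟨v, rfl⟩
    refine ⟨⟨(e v.1.1, v.1.2), v.2⟩, ?_⟩
    change (Z.map e).z (e v.1.1, v.1.2) = Z.z v.1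
    rw [h1, e.symm_apply_apply]

theorem g2_det {Γ Γ' : Type} [AddCommGroup Γ] [AddCommGroup Γ'] (Z : Sys k Γ I) (e : Γ ≃+ Γ')
    (A N : Set Γ') (h : Z.Det 0 (e ⁻¹' A) (e ⁻¹' N)) : (Z.map e).Det 0 A N := by
  change (Z.map e).relAt 0 A ≤ (Z.map e).relAt 0 N
  rw [g2_relAt, g2_relAt]
  exact h

theorem exists_direction [Finite I] (Z : Sys k (Fin (m + 1) → ℤ) I)
    (F0 : Set (Fin (m + 1) → ℤ)) (hF : F0.Finite) (h0 : (0 : Fin (m + 1) → ℤ) ∉ F0) :
    ∃ (e : (Fin (m + 1) → ℤ) ≃+ (Fin m → ℤ) × ℤ) (N Nm : Set ((Fin m → ℤ) × ℤ)) (c : ℕ),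
      DirData (Z.map e) N Nm c ∧ ∀ f ∈ F0, (e f).2 ≠ 0 := by
  obtain ⟨η, N, Nm, hη, hF0, hN, hNm, hNn, hNp, hup, hdown⟩ := exists_eta Z F0 hF h0
  obtain ⟨e, he⟩ := exists_coord η hη
  have hN' : (e '' N).Finite := hN.image _
  have hNm' : (e '' Nm).Finite := hNm.image _
  -- a bound for the levels
  obtain ⟨c, hc⟩ : ∃ c : ℕ, ∀ v ∈ e '' N ∪ e '' Nm, |v.2| ≤ (c : ℤ) := by
    obtain ⟨B, hB⟩ := ((hN'.union hNm').image fun v => |v.2|).bddAbove
    refine ⟨B.toNat, fun v hv => ?_⟩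
    have h1 := hB ⟨v, hv, rfl⟩
    exact h1.trans (Int.self_le_toNat B)
  have hpre : ∀ (A : Set (Fin (m + 1) → ℤ)), e ⁻¹' (e '' A) = A := fun A =>
    Set.preimage_image_eq A e.injective
  refine ⟨e, e '' N, e '' Nm, c, ⟨hN', hNm', ?_, ?_, ?_, ?_⟩, fun f hf => ?_⟩
  · rintro v ⟨u, hu, rfl⟩
    have h1 := abs_le.mp (hc (e u) (Or.inl ⟨u, hu, rfl⟩))
    have h2 := hNn u hu
    rw [he] at h1 ⊢
    exact ⟨h1.1, by omega⟩
  · rintro v ⟨u, hu, rfl⟩
    have h1 := abs_le.mp (hc (e u) (Or.inr ⟨u, hu, rfl⟩))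
    have h2 := hNp u hu
    rw [he] at h1 ⊢
    exact ⟨by omega, h1.2⟩
  · intro ζ A hA hAv
    refine g2_det Z e _ _ ?_
    rw [Set.preimage_union, hpre]
    refine hup ((ζ.comp (AddMonoidHom.fst (Fin m → ℤ) ℤ)).comp (e : (Fin (m + 1) → ℤ) →+ (Fin m → ℤ) × ℤ)) _
      (hA.preimage e.injective.injOn) fun v hv => ?_
    have h1 := hAv (e v) hv
    rw [he] at h1
    exact h1
  · intro ζ A hA hAv
    refine g2_det Z e _ _ ?_
    rw [Set.preimage_union, hpre]
    refine hdown ((ζ.comp (AddMonoidHom.fst (Fin m → ℤ) ℤ)).comp (e : (Fin (m + 1) → ℤ) →+ (Fin m → ℤ) × ℤ)) _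
      (hA.preimage e.injective.injOn) fun v hv => ?_
    have h1 := hAv (e v) hv
    rw [he] at h1
    exact h1
  · rw [he]
    exact hF0 f hf

end Pool.Agent.ORG
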