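import Pool.Agent.ORG.Rep

/-! Generic invertible matrices. -/

set_option autoImplicit false

namespace Pool.Agent.ORG

open MvPolynomial

section
variable (k : Type) [Field k] (S : Type)

/-- polynomials in the entries of the matrices -/
abbrev GP : Type := MvPolynomial (S × Fin 2 × Fin 2) k

/-- the generic matrix -/
noncomputable def gmat {S : Type} (s : S) : Matrix (Fin 2) (Fin 2) (GP k S) :=
  Matrix.of fun a b => X (s, a, b)

/-- the submonoid generated by the determinants -/
noncomputable def gsub : Submonoid (GP k S) := Submonoid.closure (Set.range fun s : S => (gmat k s).det)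

/-- the ring of generic invertible matrices -/
abbrev GR : Type := Localization (gsub k S)

variable {k S}

/-- entries of a family of matrices -/
def ent {A : Type} [CommRing A] (m : S → GL2 A) : S × Fin 2 × Fin 2 → A :=
  fun v => (m v.1 : Matrix (Fin 2) (Fin 2) A) v.2.1 v.2.2

theorem aeval_gmat {A : Type} [CommRing A] [Algebra k A] (m : S → GL2 A) (s : S) :
    (aeval (ent m) : GP k S →ₐ[k] A).toRingHom.mapMatrix (gmat k s) = (m s).1 := by
  ext a b
  show aeval (ent m) (X (s, a, b) : GP k S) = _
  rw [aeval_X]
  rfl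

theorem aeval_det {A : Type} [CommRing A] [Algebra k A] (m : S → GL2 A) (s : S) :
    aeval (ent m) (gmat k s).det = (m s).1.det := by
  rw [← aeval_gmat (k := k) m s, ← RingHom.map_det]
  rfl

theorem isUnit_aeval {A : Type} [CommRing A] [Algebra k A] (m : S → GL2 A) {d : GP k S}
    (hd : d ∈ gsub k S) : IsUnit (aeval (ent m) d) := by
  induction hd using Submonoid.closure_induction with
  | mem x hx =>
    obtain ⟨s, rfl⟩ := hx
    rw [aeval_det]
    exact (Matrix.isUnit_iff_isUnit_det _).1 (m s).isUnit
  | one => rw [map_one]; exact isUnit_one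
  | mul x y _ _ hx hy => rw [map_mul]; exact hx.mul hy

/-- evaluation -/
noncomputable def gev {A : Type} [CommRing A] [Algebra k A] (m : S → GL2 A) : GR k S →ₐ[k] A :=
  IsLocalization.liftAlgHom (M := gsub k S) (f := aeval (ent m)) (fun y => isUnit_aeval m y.2)

theorem gev_algebraMap {A : Type} [CommRing A] [Algebra k A] (m : S → GL2 A) (f : GP k S) :
    gev m (algebraMap (GP k S) (GR k S) f) = aeval (ent m) f := by
  unfold gev
  exact IsLocalization.lift_eq (fun y : gsub k S => isUnit_aeval m y.2) f

theorem isUnit_gdet (s : S) :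
    IsUnit (((algebraMap (GP k S) (GR k S)).mapMatrix (gmat k s)).det) := by
  rw [← RingHom.map_det]
  exact IsLocalization.map_units (GR k S) (⟨(gmat k s).det, Submonoid.subset_closure ⟨s, rfl⟩⟩ : gsub k S)

/-- the generic invertible matrix -/
noncomputable def gg (k : Type) [Field k] {S : Type} (s : S) : GL2 (GR k S) :=
  Matrix.GeneralLinearGroup.mk'' ((algebraMap (GP k S) (GR k S)).mapMatrix (gmat k s)) (isUnit_gdet s)

theorem gev_gg {A : Type} [CommRing A] [Algebra k A] (m : S → GL2 A) (s : S) :
    Matrix.GeneralLinearGroup.map (gev (k := k) m : GR k S →+* A) (gg k s) = m s := by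
  ext a b
  show gev m (algebraMap (GP k S) (GR k S) (X (s, a, b))) = _
  rw [gev_algebraMap, aeval_X]
  rfl

/-- clearing denominators -/
theorem gev_clear (y : GR k S) : ∃ f d : GP k S, d ∈ gsub k S ∧
    ∀ (A : Type) [CommRing A] [Algebra k A] (m : S → GL2 A),
      aeval (ent m) d * gev m y = aeval (ent m) f := by
  obtain ⟨⟨f, d⟩, h⟩ := IsLocalization.surj (gsub k S) y
  refine ⟨f, d.1, d.2, fun A _ _ m => ?_⟩
  have h1 := congrArg (gev (k := k) m) h
  rw [map_mul, gev_algebraMap, gev_algebraMap, mul_comm] at h1
  exact h1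

theorem gdet_ne_zero (s : S) : (gmat k s).det ≠ 0 := by
  intro h
  have h1 := aeval_det (k := k) (fun _ : S => (1 : GL2 k)) s
  rw [h, map_zero, Units.val_one, Matrix.det_one] at h1
  exact zero_ne_one h1

theorem gsub_le : gsub k S ≤ nonZeroDivisors (GP k S) := by
  unfold gsub
  rw [Submonoid.closure_le]
  rintro _ ⟨s, rfl⟩
  exact mem_nonZeroDivisors_of_ne_zero (gdet_ne_zero s)

instance : IsDomain (GR k S) := IsLocalization.isDomain_localization gsub_le

end

end Pool.Agent.ORG
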