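import Pool.Agent.LFZ.OneRel
import Pool.Agent.Lyn.Basic

/-!
# MP_08a057_al : the frozen statement from the separation of elements of the kernel of the
abelianisation
-/

set_option autoImplicit false

namespace Pool.Agent.ORG

open Pool.Agent.LFZ

/-- separation of elements of the derived group when the first Betti number is positive -/
def SEP : Prop :=
  ∀ (m : ℕ) (Δ : Type) [AddCommGroup Δ] [Finite Δ] (n : ℕ) (r : FreeGroup (Fin n)), r ≠ 1 →
    ∀ p : FreeGroup (Fin n) →* Multiplicative ((Fin (m + 1) → ℤ) × Δ), Function.Surjective p →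
    ∀ hpr : Lyn.NC r ≤ p.ker,
    (∀ P : Subgroup (FreeGroup (Fin n) ⧸ Lyn.NC r),
      P ≤ (QuotientGroup.lift (Lyn.NC r) p hpr).ker → P.FG → IsFreeGroup P) →
    ∀ w : FreeGroup (Fin n), p w = 1 → w ∉ Lyn.NC r →
      ∃ N : Subgroup (FreeGroup (Fin n)), N.Normal ∧ N.index ≠ 0 ∧ r ∈ N ∧ w ∉ N

theorem last_abelian {m : ℕ} {Δ : Type} [AddCommGroup Δ] [Finite Δ] {F : Type} [Group F]
    (p : F →* Multiplicative ((Fin m → ℤ) × Δ)) (r w : F) (hr : p r = 1) (hw : p w ≠ 1) :
    ∃ N : Subgroup F, N.Normal ∧ N.index ≠ 0 ∧ r ∈ N ∧ w ∉ N := by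
  have key : ∀ (Q : Type) [Group Q] [Finite Q] (q : Multiplicative ((Fin m → ℤ) × Δ) →* Q),
      q (p w) ≠ 1 → ∃ N : Subgroup F, N.Normal ∧ N.index ≠ 0 ∧ r ∈ N ∧ w ∉ N := by
    intro Q _ _ q hq
    refine ⟨(q.comp p).ker, inferInstance, ?_, ?_, ?_⟩
    · have : Finite (F ⧸ (q.comp p).ker) :=
        Finite.of_injective _ (QuotientGroup.kerLift_injective (q.comp p))
      exact Subgroup.FiniteIndex.index_ne_zero (self := Subgroup.finiteIndex_of_finite_quotient)
    · rw [MonoidHom.mem_ker, MonoidHom.comp_apply, hr, map_one]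
    · rw [MonoidHom.mem_ker, MonoidHom.comp_apply]
      exact hq
  obtain ⟨⟨u, δ⟩, hv⟩ : ∃ v : (Fin m → ℤ) × Δ, v = (p w).toAdd := ⟨_, rfl⟩
  have hpw : p w = Multiplicative.ofAdd (u, δ) := by rw [hv]; rfl
  have hne : (u, δ) ≠ (0 : (Fin m → ℤ) × Δ) := by
    intro h
    apply hw
    rw [hpw, h]
    rfl
  by_cases hδ : δ = 0
  · have hu : u ≠ 0 := by
      intro h
      exact hne (by rw [h, hδ]; rfl)
    obtain ⟨i, hi⟩ : ∃ i, u i ≠ 0 := by
      by_contra h
      push Not at h
      exact hu (funext h)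
    have : NeZero ((u i).natAbs + 1) := ⟨Nat.succ_ne_zero _⟩
    refine key (Multiplicative (ZMod ((u i).natAbs + 1)))
      (AddMonoidHom.toMultiplicative (((Int.castAddHom (ZMod ((u i).natAbs + 1))).comp
        (Pi.evalAddMonoidHom (fun _ : Fin m => ℤ) i)).comp (AddMonoidHom.fst _ _))) ?_
    rw [hpw]
    intro h
    have h1 : ((u i : ℤ) : ZMod ((u i).natAbs + 1)) = 0 := h
    rw [ZMod.intCast_zmod_eq_zero_iff_dvd] at h1
    exact hi (Int.eq_zero_of_abs_lt_dvd h1 (by push_cast; rw [Int.abs_eq_natAbs]; push_cast; omega))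
  · refine key (Multiplicative Δ) (AddMonoidHom.toMultiplicative (AddMonoidHom.snd _ _)) ?_
    rw [hpw]
    intro h
    exact hδ h

theorem last_rf_free {n : ℕ} : RF (PresentedGroup ({1} : Set (FreeGroup (Fin n)))) := by
  have h : Subgroup.normalClosure ({1} : Set (FreeGroup (Fin n))) = ⊥ :=
    Subgroup.normalClosure_eq_bot_iff.2 (by simp)
  have e : FreeGroup (Fin n) ≃* PresentedGroup ({1} : Set (FreeGroup (Fin n))) := by
    refine MulEquiv.ofBijective (PresentedGroup.mk _) ⟨?_, PresentedGroup.mk_surjective _⟩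
    refine (MonoidHom.ker_eq_bot_iff _).1 ?_
    rw [← h]
    exact QuotientGroup.ker_mk' _
  exact RF.of_mulEquiv e (rf_freeGroup rf_of_fp n)

theorem last (hsep : SEP) (n : ℕ) (r : FreeGroup (Fin n))
    (hG : ∀ H : Subgroup (PresentedGroup ({r} : Set (FreeGroup (Fin n)))),
      H ≤ commutator (PresentedGroup ({r} : Set (FreeGroup (Fin n)))) → H.FG → IsFreeGroup H) :
    ∀ g : PresentedGroup ({r} : Set (FreeGroup (Fin n))), g ≠ 1 →
      ∃ N : Subgroup (PresentedGroup ({r} : Set (FreeGroup (Fin n)))),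
        N.Normal ∧ N.index ≠ 0 ∧ g ∉ N := by
  by_cases hr : r = 1
  · subst hr
    exact last_rf_free
  let G := PresentedGroup ({r} : Set (FreeGroup (Fin n)))
  by_cases hb : Module.finrank ℤ (Additive (Abelianization G)) ≤ 1
  · exact rf_of_rank_le_one {r} (Set.finite_singleton r) hG hb
  let π : FreeGroup (Fin n) →* G := PresentedGroup.mk {r}
  have hπ : Function.Surjective π := PresentedGroup.mk_surjective {r}
  have hker : π.ker = Lyn.NC r := QuotientGroup.ker_mk' _
  have hfgG : Group.FG G := Group.fg_of_surjective hπ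
  let q : G →* Abelianization G := Abelianization.of
  have hq : Function.Surjective q := QuotientGroup.mk_surjective
  have hkq : q.ker = commutator G := Abelianization.ker_of G
  have hfgA : Group.FG (Abelianization G) := Group.fg_of_surjective hq
  have hfgM : AddGroup.FG (Additive (Abelianization G)) := GroupFG.iff_add_fg.1 hfgA
  obtain ⟨m', ι, _, pp, hp, e, ⟨Φ⟩⟩ :=
    AddCommGroup.equiv_free_prod_directSum_zmod (Additive (Abelianization G))
  have hfinD : Finite (DirectSum ι fun i => ZMod (pp i ^ e i)) := by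
    have : ∀ i : ι, NeZero (pp i ^ e i) := fun i => ⟨pow_ne_zero _ (hp i).ne_zero⟩
    have : ∀ i : ι, Finite (ZMod (pp i ^ e i)) := fun i => inferInstance
    exact Finite.of_equiv _ (DirectSum.addEquivProd (fun i : ι => ZMod (pp i ^ e i))).symm.toEquiv
  have hm0 : m' ≠ 0 := by
    rintro rfl
    have hfinA : Finite (Additive (Abelianization G)) := Finite.of_equiv _ Φ.symm.toEquiv
    have hfin : Module.Finite ℤ (Additive (Abelianization G)) :=
      Module.Finite.iff_addGroup_fg.mpr hfgM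
    apply hb
    have h0 : Module.finrank ℤ (Additive (Abelianization G)) = 0 := by
      rw [Module.finrank_eq_zero_iff_isTorsion]
      intro x
      have hpos : 0 < Nat.card (Additive (Abelianization G)) := Nat.card_pos
      refine ⟨⟨(Nat.card (Additive (Abelianization G)) : ℤ), ?_⟩, ?_⟩
      · exact mem_nonZeroDivisors_of_ne_zero (by exact_mod_cast hpos.ne')
      · show (Nat.card (Additive (Abelianization G)) : ℤ) • x = 0
        rw [natCast_zsmul]
        exact card_nsmul_eq_zero'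
    omega
  obtain ⟨m, rfl⟩ := Nat.exists_eq_succ_of_ne_zero hm0
  let Φ' : Additive (Abelianization G) ≃+
      (Fin (m + 1) → ℤ) × (DirectSum ι fun i => ZMod (pp i ^ e i)) :=
    Φ.trans (AddEquiv.prodCongr (Finsupp.linearEquivFunOnFinite ℤ ℤ (Fin (m + 1))).toAddEquiv
      (AddEquiv.refl _))
  let pG : G →* Multiplicative ((Fin (m + 1) → ℤ) × (DirectSum ι fun i => ZMod (pp i ^ e i))) :=
    (AddMonoidHom.toMultiplicativeRight Φ'.toAddMonoidHom).comp q
  have hpGs : Function.Surjective pG := by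
    intro v
    obtain ⟨a, ha⟩ := Φ'.surjective v.toAdd
    obtain ⟨g, hg⟩ := hq a.toMul
    refine ⟨g, ?_⟩
    show Multiplicative.ofAdd (Φ' (Additive.ofMul (q g))) = v
    rw [hg, ofMul_toMul, ha, ofAdd_toAdd]
  have hpGk : pG.ker = commutator G := by
    rw [← hkq]
    ext g
    rw [MonoidHom.mem_ker, MonoidHom.mem_ker]
    show Multiplicative.ofAdd (Φ' (Additive.ofMul (q g))) = 1 ↔ _
    rw [ofAdd_eq_one, EmbeddingLike.map_eq_zero_iff, ofMul_eq_zero]
  intro g hg
  obtain ⟨w, rfl⟩ := hπ g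
  have hwN : w ∉ Lyn.NC r := by
    intro h
    rw [← hker] at h
    exact hg h
  have hr1 : π r = 1 := by
    have : r ∈ π.ker := by
      rw [hker]
      exact Subgroup.subset_normalClosure rfl
    exact this
  have hpr : Lyn.NC r ≤ (pG.comp π).ker := by
    rw [← hker]
    intro f hf
    rw [MonoidHom.mem_ker, MonoidHom.comp_apply, (MonoidHom.mem_ker.1 hf), map_one]
  obtain ⟨N, hN1, hN2, hN3, hN4⟩ : ∃ N : Subgroup (FreeGroup (Fin n)),
      N.Normal ∧ N.index ≠ 0 ∧ r ∈ N ∧ w ∉ N := by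
    by_cases hw : (pG.comp π) w = 1
    · refine hsep m _ n r hr (pG.comp π) (hpGs.comp hπ) hpr ?_ w hw hwN
      intro P hP hfg
      refine hG P ?_ hfg
      intro y hy
      have h1 := hP hy
      rw [← hpGk]
      obtain ⟨f, rfl⟩ := hπ y
      exact h1
    · exact last_abelian (pG.comp π) r w (by rw [MonoidHom.comp_apply, hr1, map_one]) hw
  have hkN : π.ker ≤ N := by
    rw [hker]
    exact Subgroup.normalClosure_le_normal (by simpa using hN3)
  refine ⟨N.map π, hN1.map π hπ, ?_, ?_⟩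
  · rw [Subgroup.index_map, sup_eq_left.2 hkN]
    rw [MonoidHom.range_eq_top.2 hπ, Subgroup.index_top, mul_one]
    exact hN2
  · rintro ⟨f, hf, hfw⟩
    apply hN4
    have : w = f * (f⁻¹ * w) := by group
    rw [this]
    refine N.mul_mem hf (hkN ?_)
    rw [MonoidHom.mem_ker, map_mul, map_inv, hfw, inv_mul_cancel]

end Pool.Agent.ORG
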