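import Pool.Agent.ORG.Defs
import Mathlib
open MvPolynomial
set_option autoImplicit false
namespace Pool.Agent.ORG
abbrev Kb : Type := AlgebraicClosure ℚ
abbrev Om : Type := AlgebraicClosure (FractionRing (MvPolynomial ℕ Kb))

theorem om_trdeg : Cardinal.aleph0 ≤ Algebra.trdeg Kb Om := by
  have h1 : AlgebraicIndependent Kb (fun i : ℕ => (X i : MvPolynomial ℕ Kb)) :=
    MvPolynomial.algebraicIndependent_X ℕ Kb
  have hinj : Function.Injective (algebraMap (MvPolynomial ℕ Kb) Om) := by
    have e : algebraMap (MvPolynomial ℕ Kb) Om =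
      (algebraMap (FractionRing (MvPolynomial ℕ Kb)) Om).comp
        (algebraMap (MvPolynomial ℕ Kb) (FractionRing (MvPolynomial ℕ Kb))) :=
      IsScalarTower.algebraMap_eq _ _ _
    rw [e]
    exact (algebraMap (FractionRing (MvPolynomial ℕ Kb)) Om).injective.comp
      (IsFractionRing.injective _ _)
  have h2 : AlgebraicIndependent Kb
      (fun i : ℕ => algebraMap (MvPolynomial ℕ Kb) Om (X i)) :=
    h1.map' (f := IsScalarTower.toAlgHom Kb (MvPolynomial ℕ Kb) Om) hinj
  have := h2.cardinalMk_le_trdeg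
  simpa using this
end Pool.Agent.ORG
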