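import Pool.Agent.ORG.Defs
import Pool.Agent.ORG.F1
import Pool.Agent.ORG.F2
import Pool.Agent.ORG.F4
import Pool.Agent.ORG.S1
import Pool.Agent.ORG.S2
import Pool.Agent.ORG.B1
import Pool.Agent.ORG.B2
import Pool.Agent.ORG.B7
import Pool.Agent.ORG.P0
import Pool.Agent.ORG.P1

/-!
# MP_08a057_al, ORG module P2 : (7.1) local solutions extend by one level
(paper: /team-store/ORG_paper.md)
-/

set_option autoImplicit false

namespace Pool.Agent.ORG

open MvPolynomial

variable {k Ω : Type} [Field k] [CharZero k] [Field Ω] [Algebra k Ω] {I : Type} [Finite I] {m : ℕ}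

open Sys

private theorem p2_cubeW (h n0 : ℕ) (γ : Fin m → ℤ) :
    tr γ (cubeW m h n0) = Set.Icc (fun i => γ i - n0) (fun i => γ i + h + n0) := by
  ext u
  simp only [tr, cubeW, Set.mem_ofPred_eq, Set.mem_Icc, Pi.le_def, Pi.sub_apply]
  constructor
  · intro hu
    refine ⟨fun i => ?_, fun i => ?_⟩
    · have := (hu i).1
      linarith
    · have := (hu i).2
      linarith
  · rintro ⟨h1, h2⟩ i
    have h3 := h1 i
    have h4 := h2 i
    constructor <;> linarith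

private theorem p2_sub (h n0 : ℕ) (γ : Fin m → ℤ) :
    tr γ (cube m h) ⊆ tr γ (cubeW m h n0) := by
  intro u hu i
  have h1 := hu i
  constructor
  · have := h1.1
    omega
  · have := h1.2
    omega

private theorem p2_sl_mono {Q Q' : Set (Fin m → ℤ)} (h : Q ⊆ Q') {a b a' b' : ℤ} (ha : a' ≤ a)
    (hb : b ≤ b') : sl Q a b ⊆ sl Q' a' b' :=
  fun _ hv => ⟨h hv.1, ha.trans hv.2.1, hv.2.2.trans hb⟩

private theorem p2_sl_fin {Q : Set (Fin m → ℤ)} (h : Q.Finite) (a b : ℤ) : (sl Q a b).Finite := by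
  refine (h.prod (Set.finite_Icc a b)).subset ?_
  rintro v ⟨h1, h2, h3⟩
  exact ⟨h1, h2, h3⟩

private theorem p2_cubeW_fin (h n0 : ℕ) (γ : Fin m → ℤ) : (tr γ (cubeW m h n0)).Finite := by
  rw [p2_cubeW]
  exact Set.finite_Icc _ _

/-- (3.5) for one window -/
private theorem p2_big (Z : Sys k ((Fin m → ℤ) × ℤ) I) (C cw h n0 : ℕ)
    (hw : (Z.slab C).IsWin cw) (hh1 : 2 * cw + 1 ≤ h) {x ξ : ((Fin m → ℤ) × ℤ) × I → Ω} (t : ℤ)
    (hg : ∀ γ : Fin m → ℤ, Z.Gen x (sl (tr γ (cubeW m h n0)) t (t + C)))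
    (hξ : ∀ γ : Fin m → ℤ, TanOn k x (sl (tr γ (cube m h)) t (t + C)) ξ) (γ : Fin m → ℤ) :
    TanOn k x (sl (tr γ (cubeW m h n0)) t (t + C)) ξ := by
  rw [p2_cubeW, ← slab_tan_iff]
  refine tanOn_of_loc (Z := Z.slab C) hw hh1 (fun γ' => ?_) _ _ ?_ (fun γ' => ?_)
  · rw [slab_gen_iff]
    exact Gen.mono (hg γ') (p2_sl_mono (p2_sub h n0 γ') le_rfl le_rfl)
  · rw [slab_gen_iff, ← p2_cubeW]
    exact hg γ
  · rw [slab_tan_iff]
    exact (hξ γ').mono (p2_sl_mono Set.inter_subset_right le_rfl le_rfl)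

omit [Finite I] in
/-- choice of the values on a new level -/
private theorem p2_site (Γ' : AddSubgroup (Fin m → ℤ)) {x ξ : ((Fin m → ℤ) × ℤ) × I → Ω}
    (hx : Per0 Γ' x) (hξ : Per0 Γ' ξ) (L : ℤ) (M : Set ((Fin m → ℤ) × ℤ))
    (hM : ∀ v ∈ M, v.2 ≠ 0) (hT : ∀ u : Fin m → ℤ, TanOn k x (tr (u, L) M) ξ) :
    ∃ ξ' : ((Fin m → ℤ) × ℤ) × I → Ω, Per0 Γ' ξ' ∧ (∀ v, v.1.2 ≠ L → ξ' v = ξ v) ∧
      ∀ u : Fin m → ℤ, TanOn k x (tr (u, L) M ∪ {(u, L)}) ξ' := by
  classical
  choose e he1 he2 using fun u : Fin m → ℤ => exists_tanOn_extend (hT u) {(u, L)}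
  let rep : (Fin m → ℤ) → (Fin m → ℤ) := fun u => (QuotientAddGroup.mk (s := Γ') u).out
  have hrep : ∀ u, rep u - u ∈ Γ' := by
    intro u
    have h1 : (QuotientAddGroup.mk (s := Γ') (rep u)) = QuotientAddGroup.mk (s := Γ') u :=
      Quotient.out_eq _
    have h2 := QuotientAddGroup.eq.mp h1.symm
    rwa [neg_add_eq_sub] at h2
  have hrep2 : ∀ γ ∈ Γ', ∀ u, rep (γ + u) = rep u := by
    intro γ hγ u
    have h1 : (QuotientAddGroup.mk (s := Γ') (γ + u)) = QuotientAddGroup.mk (s := Γ') u := by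
      rw [QuotientAddGroup.eq]
      have : -(γ + u) + u = -γ := by abel
      rw [this]
      exact Γ'.neg_mem hγ
    show (QuotientAddGroup.mk (s := Γ') (γ + u)).out = _
    rw [h1]
  have hrep3 : ∀ u, rep (rep u) = rep u := by
    intro u
    have h1 : rep u = (rep u - u) + u := by abel
    rw [h1, hrep2 _ (hrep u)]
    exact h1
  let ξ' : ((Fin m → ℤ) × ℤ) × I → Ω := fun v =>
    if v.1.2 = L then e (rep v.1.1) ((rep v.1.1, L), v.2) else ξ v
  have hξL : ∀ (u : Fin m → ℤ) (i : I), ξ' ((u, L), i) = e (rep u) ((rep u, L), i) := by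
    intro u i
    exact if_pos rfl
  have hξN : ∀ v : ((Fin m → ℤ) × ℤ) × I, v.1.2 ≠ L → ξ' v = ξ v := by
    intro v hv
    exact if_neg hv
  have hper' : Per0 Γ' ξ' := by
    intro γ hγ v
    obtain ⟨hγ1, hγ2⟩ := AddSubgroup.mem_prod.mp hγ
    have hγ3 : γ.2 = 0 := AddSubgroup.mem_bot.mp hγ2
    by_cases hv : v.1.2 = L
    · have h1 : ((γ + v.1, v.2) : ((Fin m → ℤ) × ℤ) × I) = ((γ.1 + v.1.1, L), v.2) := by
        ext1
        · ext1
          · rfl
          · show γ.2 + v.1.2 = L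
            rw [hγ3, zero_add, hv]
        · rfl
      have h2 : v = ((v.1.1, L), v.2) := by
        ext1
        · ext1
          · rfl
          · exact hv
        · rfl
      rw [h1, hξL, hrep2 _ hγ1]
      conv_rhs => rw [h2]
      rw [hξL]
    · rw [hξN v hv, hξN]
      · exact hξ γ hγ v
      · show γ.2 + v.1.2 ≠ L
        rw [hγ3, zero_add]
        exact hv
  refine ⟨ξ', hper', hξN, fun u => ?_⟩
  have hbase : TanOn k x (tr (rep u, L) M ∪ {(rep u, L)}) ξ' := by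
    refine (he1 (rep u)).congr (fun _ _ => rfl) (fun v hv => ?_)
    rcases hv with hv | hv
    · have h1 : v.1.2 ≠ L := by
        intro h2
        have h3 : (v.1 - (rep u, L)).2 ≠ 0 := hM _ hv
        apply h3
        show v.1.2 - L = 0
        rw [h2, sub_self]
      rw [hξN v h1, he2 _ v hv]
    · have h2 : v = ((rep u, L), v.2) := by
        ext1
        · exact hv
        · rfl
      rw [h2, hξL, hrep3]
  have hg : ((rep u - u, 0) : (Fin m → ℤ) × ℤ) ∈ Γ'.prod (⊥ : AddSubgroup ℤ) :=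
    AddSubgroup.mem_prod.mpr ⟨hrep u, AddSubgroup.mem_bot.mpr rfl⟩
  have hset : tr ((rep u - u, 0) : (Fin m → ℤ) × ℤ) (tr (u, L) M ∪ {(u, L)}) =
      tr (rep u, L) M ∪ {(rep u, L)} := by
    ext v
    have h1 : v - (rep u - u, 0) - (u, L) = v - (rep u, L) := by
      ext1
      · show v.1 - (rep u - u) - u = v.1 - rep u
        abel
      · show v.2 - 0 - L = v.2 - L
        ring
    constructor
    · rintro (h | h)
      · left
        show v - (rep u, L) ∈ M
        rw [← h1]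
        exact h
      · right
        have h2 : v - (rep u - u, 0) = (u, L) := h
        have h3 : v - (rep u, L) = 0 := by
          rw [← h1, h2, sub_self]
        exact sub_eq_zero.mp h3
    · rintro (h | h)
      · left
        show v - (rep u - u, 0) - (u, L) ∈ M
        rw [h1]
        exact h
      · right
        have h2 : v = (rep u, L) := h
        show v - (rep u - u, 0) = (u, L)
        apply sub_eq_zero.mp
        rw [h1, h2, sub_self]
  rw [← hset, tanOn_tr] at hbase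
  have e1 : (fun v : ((Fin m → ℤ) × ℤ) × I =>
      x (((rep u - u, 0) : (Fin m → ℤ) × ℤ) + v.1, v.2)) = x := funext fun v => hx _ hg v
  have e2 : (fun v : ((Fin m → ℤ) × ℤ) × I =>
      ξ' (((rep u - u, 0) : (Fin m → ℤ) × ℤ) + v.1, v.2)) = ξ' := funext fun v => hper' _ hg v
  rw [e1, e2] at hbase
  exact hbase

/-- standing genericity of windows: constants `w` (bound for `N`), `h` -/
theorem lsol_extend_up (Z : Sys k ((Fin m → ℤ) × ℤ) I) {N Nm : Set ((Fin m → ℤ) × ℤ)} {c : ℕ}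
    (hD : DirData Z N Nm c) (n0 : ℕ) (hn : ∀ v ∈ N ∪ Nm, v.1 ∈ ball m n0) (C : ℕ) (hC : c ≤ C)
    (cw h : ℕ) (hw : (Z.slab C).IsWin cw) (hh1 : 2 * cw + 1 ≤ h) (hh2 : 2 * n0 ≤ h)
    (Γ' : AddSubgroup (Fin m → ℤ)) [Γ'.FiniteIndex]
    {x : ((Fin m → ℤ) × ℤ) × I → Ω} (hper : Per0 Γ' x) (a b : ℤ) (hab : a + C ≤ b)
    (hgen : ∀ t : ℤ, a ≤ t → t + C ≤ b + 1 → ∀ γ : Fin m → ℤ,
      Z.Gen x (sl (tr γ (cubeW m h n0)) t (t + C)))
    {ξ : ((Fin m → ℤ) × ℤ) × I → Ω} (hξ : Lsol k C h Γ' x a b ξ) :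
    ∃ ξ' : ((Fin m → ℤ) × ℤ) × I → Ω, Lsol k C h Γ' x a (b + 1) ξ' ∧
      ∀ v, v.1 ∈ lev a b → ξ' v = ξ v := by
  have hbig : ∀ γ : Fin m → ℤ, TanOn k x (sl (tr γ (cubeW m h n0)) (b - C) b) ξ := by
    intro γ
    have h1 := p2_big Z C cw h n0 hw hh1 (b - C) (fun γ' => hgen (b - C) (by omega) (by omega) γ')
      (fun γ' => hξ.2 γ' (b - C) (by omega) (by omega)) γ
    have e : b - (C : ℤ) + C = b := by ring
    rwa [e] at h1
  have hN : ∀ (γ u : Fin m → ℤ), u ∈ tr γ (cube m h) → ∀ v ∈ tr (u, b + 1) N,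
      v.1 ∈ tr γ (cubeW m h n0) ∧ b + 1 - C ≤ v.2 ∧ v.2 ≤ b := by
    intro γ u hu v hv
    have h1 := hn _ (Or.inl hv)
    have h2 := hD.levN _ hv
    have h3 : (v - (u, b + 1)).2 = v.2 - (b + 1) := rfl
    rw [h3] at h2
    refine ⟨fun i => ?_, by omega, by omega⟩
    have h4 : -(n0 : ℤ) ≤ v.1 i - u i ∧ v.1 i - u i ≤ n0 := h1 i
    have h5 : 0 ≤ u i - γ i ∧ u i - γ i ≤ h := hu i
    show -(n0 : ℤ) ≤ v.1 i - γ i ∧ v.1 i - γ i ≤ h + n0
    omega
  have hself : ∀ u : Fin m → ℤ, u ∈ tr u (cube m h) := by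
    intro u i
    show 0 ≤ u i - u i ∧ u i - u i ≤ h
    omega
  obtain ⟨ξ', hp', hne, hsite⟩ := p2_site (k := k) Γ' hper hξ.1 (b + 1) N
    (fun v hv => by
      have := hD.levN v hv
      omega)
    (fun u => (hbig u).mono (fun v hv => by
      have h1 := hN u u (hself u) v hv
      exact ⟨h1.1, by omega, h1.2.2⟩))
  refine ⟨ξ', ⟨hp', fun γ t ht1 ht2 => ?_⟩, fun v hv => hne v ?_⟩
  · rcases (by omega : t + C ≤ b ∨ t + C = b + 1) with h1 | h1
    · refine (hξ.2 γ t ht1 h1).congr (fun _ _ => rfl) (fun v hv => (hne v ?_).symm)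
      have := hv.2.2
      omega
    · have h2 : t = b + 1 - C := by omega
      have hgt := hgen t ht1 ht2 γ
      rw [h1] at hgt ⊢
      have hA : TanOn k x (sl (tr γ (cubeW m h n0)) t b) ξ' := by
        have h3 : TanOn k x (sl (tr γ (cubeW m h n0)) t b) ξ :=
          (hbig γ).mono (p2_sl_mono subset_rfl (by omega) le_rfl)
        refine h3.congr (fun _ _ => rfl) (fun v hv => (hne v ?_).symm)
        have := hv.2.2
        omega
      have hAB := tan_add_level Z hD (sl (tr γ (cubeW m h n0)) t b)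
        (sl (tr γ (cube m h)) (b + 1) (b + 1)) (p2_sl_fin (p2_cubeW_fin h n0 γ) _ _)
        (p2_sl_fin ((p2_cubeW_fin h n0 γ).subset (p2_sub h n0 γ)) _ _) (b + 1)
        (fun v hv => by
          have := hv.2.2
          omega)
        (fun v hv => le_antisymm hv.2.2 hv.2.1)
        (fun s hs => by
          have hs2 : s.2 = b + 1 := le_antisymm hs.2.2 hs.2.1
          have hs3 : s = (s.1, b + 1) := by
            ext1
            · rfl
            · exact hs2
          rw [hs3]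
          intro v hv
          have h3 := hN γ s.1 hs.1 v hv
          exact ⟨h3.1, by omega, h3.2.2⟩)
        (x := x) (ξ := ξ') (Gen.mono hgt (by
          rintro v (hv | hv)
          · exact ⟨hv.1, hv.2.1, by have := hv.2.2; omega⟩
          · exact ⟨p2_sub h n0 γ hv.1, by have := hv.2.1; omega, hv.2.2⟩)) hA
        (fun s hs => by
          have hs2 : s.2 = b + 1 := le_antisymm hs.2.2 hs.2.1
          have hs3 : s = (s.1, b + 1) := by
            ext1
            · rfl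
            · exact hs2
          rw [hs3]
          exact hsite s.1)
      refine hAB.mono ?_
      rintro v ⟨hv1, hv2, hv3⟩
      rcases (by omega : v.2 ≤ b ∨ b + 1 ≤ v.2) with h4 | h4
      · left
        exact ⟨p2_sub h n0 γ hv1, hv2, h4⟩
      · right
        exact ⟨hv1, h4, hv3⟩
  · have := hv.2
    omega

theorem lsol_extend_down (Z : Sys k ((Fin m → ℤ) × ℤ) I) {N Nm : Set ((Fin m → ℤ) × ℤ)} {c : ℕ}
    (hD : DirData Z N Nm c) (n0 : ℕ) (hn : ∀ v ∈ N ∪ Nm, v.1 ∈ ball m n0) (C : ℕ) (hC : c ≤ C)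
    (cw h : ℕ) (hw : (Z.slab C).IsWin cw) (hh1 : 2 * cw + 1 ≤ h) (hh2 : 2 * n0 ≤ h)
    (Γ' : AddSubgroup (Fin m → ℤ)) [Γ'.FiniteIndex]
    {x : ((Fin m → ℤ) × ℤ) × I → Ω} (hper : Per0 Γ' x) (a b : ℤ) (hab : a + C ≤ b)
    (hgen : ∀ t : ℤ, a - 1 ≤ t → t + C ≤ b → ∀ γ : Fin m → ℤ,
      Z.Gen x (sl (tr γ (cubeW m h n0)) t (t + C)))
    {ξ : ((Fin m → ℤ) × ℤ) × I → Ω} (hξ : Lsol k C h Γ' x a b ξ) :
    ∃ ξ' : ((Fin m → ℤ) × ℤ) × I → Ω, Lsol k C h Γ' x (a - 1) b ξ' ∧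
      ∀ v, v.1 ∈ lev a b → ξ' v = ξ v := by
  have hbig : ∀ γ : Fin m → ℤ, TanOn k x (sl (tr γ (cubeW m h n0)) a (a + C)) ξ :=
    fun γ => p2_big Z C cw h n0 hw hh1 a (fun γ' => hgen a (by omega) (by omega) γ')
      (fun γ' => hξ.2 γ' a (by omega) (by omega)) γ
  have hN : ∀ (γ u : Fin m → ℤ), u ∈ tr γ (cube m h) → ∀ v ∈ tr (u, a - 1) Nm,
      v.1 ∈ tr γ (cubeW m h n0) ∧ a ≤ v.2 ∧ v.2 ≤ a - 1 + C := by
    intro γ u hu v hv
    have h1 := hn _ (Or.inr hv)
    have h2 := hD.levNm _ hv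
    have h3 : (v - (u, a - 1)).2 = v.2 - (a - 1) := rfl
    rw [h3] at h2
    refine ⟨fun i => ?_, by omega, by omega⟩
    have h4 : -(n0 : ℤ) ≤ v.1 i - u i ∧ v.1 i - u i ≤ n0 := h1 i
    have h5 : 0 ≤ u i - γ i ∧ u i - γ i ≤ h := hu i
    show -(n0 : ℤ) ≤ v.1 i - γ i ∧ v.1 i - γ i ≤ h + n0
    omega
  have hself : ∀ u : Fin m → ℤ, u ∈ tr u (cube m h) := by
    intro u i
    show 0 ≤ u i - u i ∧ u i - u i ≤ h
    omega
  obtain ⟨ξ', hp', hne, hsite⟩ := p2_site (k := k) Γ' hper hξ.1 (a - 1) Nm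
    (fun v hv => by
      have := hD.levNm v hv
      omega)
    (fun u => (hbig u).mono (fun v hv => by
      have h1 := hN u u (hself u) v hv
      exact ⟨h1.1, h1.2.1, by omega⟩))
  refine ⟨ξ', ⟨hp', fun γ t ht1 ht2 => ?_⟩, fun v hv => hne v ?_⟩
  · rcases (by omega : a ≤ t ∨ t = a - 1) with h1 | h1
    · refine (hξ.2 γ t h1 ht2).congr (fun _ _ => rfl) (fun v hv => (hne v ?_).symm)
      have := hv.2.1
      omega
    · have hgt := hgen t ht1 ht2 γ
      rw [h1] at hgt ⊢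
      have hA : TanOn k x (sl (tr γ (cubeW m h n0)) a (a - 1 + C)) ξ' := by
        have h3 : TanOn k x (sl (tr γ (cubeW m h n0)) a (a - 1 + C)) ξ :=
          (hbig γ).mono (p2_sl_mono subset_rfl le_rfl (by omega))
        refine h3.congr (fun _ _ => rfl) (fun v hv => (hne v ?_).symm)
        have := hv.2.1
        omega
      have hAB := tan_add_level_down Z hD (sl (tr γ (cubeW m h n0)) a (a - 1 + C))
        (sl (tr γ (cube m h)) (a - 1) (a - 1)) (p2_sl_fin (p2_cubeW_fin h n0 γ) _ _)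
        (p2_sl_fin ((p2_cubeW_fin h n0 γ).subset (p2_sub h n0 γ)) _ _) (a - 1)
        (fun v hv => by
          have := hv.2.1
          omega)
        (fun v hv => le_antisymm hv.2.2 hv.2.1)
        (fun s hs => by
          have hs2 : s.2 = a - 1 := le_antisymm hs.2.2 hs.2.1
          have hs3 : s = (s.1, a - 1) := by
            ext1
            · rfl
            · exact hs2
          rw [hs3]
          intro v hv
          have h3 := hN γ s.1 hs.1 v hv
          exact ⟨h3.1, h3.2.1, h3.2.2⟩)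
        (x := x) (ξ := ξ') (Gen.mono hgt (by
          rintro v (hv | hv)
          · exact ⟨hv.1, by have := hv.2.1; omega, hv.2.2⟩
          · exact ⟨p2_sub h n0 γ hv.1, hv.2.1, by have := hv.2.2; omega⟩)) hA
        (fun s hs => by
          have hs2 : s.2 = a - 1 := le_antisymm hs.2.2 hs.2.1
          have hs3 : s = (s.1, a - 1) := by
            ext1
            · rfl
            · exact hs2
          rw [hs3]
          exact hsite s.1)
      refine hAB.mono ?_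
      rintro v ⟨hv1, hv2, hv3⟩
      rcases (by omega : a ≤ v.2 ∨ v.2 ≤ a - 1) with h4 | h4
      · left
        exact ⟨p2_sub h n0 γ hv1, h4, hv3⟩
      · right
        exact ⟨hv1, hv2, h4⟩
  · have := hv.1
    omega

end Pool.Agent.ORG
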