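import Pool.Agent.ORG.Defs
import Pool.Agent.ORG.F1
import Pool.Agent.ORG.F4
import Pool.Agent.ORG.F6
import Pool.Agent.ORG.S1
import Pool.Agent.ORG.S2
import Pool.Agent.ORG.P0

/-!
# MP_08a057_al, ORG module P3 : (7.2) configurations extend by one level
(paper: /team-store/ORG_paper.md)
-/

set_option autoImplicit false

namespace Pool.Agent.ORG

open MvPolynomial

variable {k Ω : Type} [Field k] [CharZero k] [Field Ω] [Algebra k Ω] {I : Type} [Finite I] {m : ℕ}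

open Sys

/-- the levels `a..b` and the orbits in `T` on the level `b+1` -/
private def p3S (Γ' : AddSubgroup (Fin m → ℤ)) (a b : ℤ)
    (T : Set ((Fin m → ℤ) ⧸ Γ')) : Set ((Fin m → ℤ) × ℤ) :=
  lev a b ∪ {s | s.2 = b + 1 ∧ (QuotientAddGroup.mk s.1 : (Fin m → ℤ) ⧸ Γ') ∈ T}

private theorem p3_mem_prod {Γ' : AddSubgroup (Fin m → ℤ)} {γ : (Fin m → ℤ) × ℤ}
    (h : γ ∈ Γ'.prod (⊥ : AddSubgroup ℤ)) : γ.1 ∈ Γ' ∧ γ.2 = 0 := by
  rw [AddSubgroup.mem_prod] at h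
  exact ⟨h.1, by simpa using h.2⟩

private theorem p3_mk {Γ' : AddSubgroup (Fin m → ℤ)} {g u : Fin m → ℤ} (h : g ∈ Γ') :
    (QuotientAddGroup.mk (g + u) : (Fin m → ℤ) ⧸ Γ') = QuotientAddGroup.mk u := by
  rw [QuotientAddGroup.mk_add, (QuotientAddGroup.eq_zero_iff g).mpr h, zero_add]

/-- one orbit -/
private theorem p3_step [IsAlgClosed Ω] (hΩ : Cardinal.aleph0 ≤ Algebra.trdeg k Ω)
    (Z : Sys k ((Fin m → ℤ) × ℤ) I) (N : Set ((Fin m → ℤ) × ℤ)) (hN : N.Finite)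
    (Γ' : AddSubgroup (Fin m → ℤ)) [Γ'.FiniteIndex]
    {y : ((Fin m → ℤ) × ℤ) × I → Ω} (hper : Per0 Γ' y) (a b : ℤ) (hab : a ≤ b + 1)
    (hlev : ∀ v ∈ N, a ≤ v.2 + (b + 1) ∧ v.2 < 0)
    (hgen : ∀ s : (Fin m → ℤ) × ℤ, s.2 = b + 1 → Z.Gen y (tr s N))
    (T : Set ((Fin m → ℤ) ⧸ Γ')) (q : (Fin m → ℤ) ⧸ Γ') (hq : q ∉ T) :
    ∃ y' : ((Fin m → ℤ) × ℤ) × I → Ω, Per0 Γ' y' ∧
      (∀ v, ¬ (v.1.2 = b + 1 ∧ (QuotientAddGroup.mk v.1.1 : (Fin m → ℤ) ⧸ Γ') = q) → y' v = y v) ∧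
      (∀ s : (Fin m → ℤ) × ℤ, s.2 = b + 1 → (QuotientAddGroup.mk s.1 : (Fin m → ℤ) ⧸ Γ') = q →
        Z.Gen y' (tr s N ∪ {s})) ∧
      trdOn k y' (p3S Γ' a b (insert q T)) = trdOn k y (p3S Γ' a b T) + rhoP Z N := by
  classical
  obtain ⟨u, hu⟩ := QuotientAddGroup.mk_surjective q
  obtain ⟨s, hs⟩ : ∃ s : (Fin m → ℤ) × ℤ, s = (u, b + 1) := ⟨_, rfl⟩
  have hs1 : s.1 = u := by rw [hs]
  have hs2 : s.2 = b + 1 := by rw [hs]
  have htr : ∀ s' : (Fin m → ℤ) × ℤ, s'.2 = b + 1 → ∀ v ∈ tr s' N, a ≤ v.2 ∧ v.2 ≤ b := by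
    intro s' hs' v hv
    have h1 : v - s' ∈ N := hv
    obtain ⟨h2, h3⟩ := hlev _ h1
    have h4 : (v - s').2 = v.2 - s'.2 := rfl
    rw [h4, hs'] at h2 h3
    constructor <;> omega
  have hsub : tr s N ⊆ p3S Γ' a b T := fun v hv => Or.inl (htr s hs2 v hv)
  have hSlev : p3S Γ' a b T ⊆ lev a (b + 1) := by
    rintro v (hv | hv)
    · exact ⟨hv.1, hv.2.trans (by omega)⟩
    · have : v.2 = b + 1 := hv.1
      exact ⟨by rw [this]; exact hab, this.le⟩
  have hfin : (Set.range (res y (p3S Γ' a b T))).Finite := by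
    apply (finite_range_lev Γ' hper a (b + 1)).subset
    rintro _ ⟨v, rfl⟩
    exact ⟨⟨v.1, hSlev v.2⟩, rfl⟩
  obtain ⟨c', hc1, hc2⟩ := exists_free_ext hΩ (res y (p3S Γ' a b T)) (res Z.z (tr s N))
    (fun i => Z.z (s, i)) (fun v : Ix I (tr s N) => (⟨v.1, hsub v.2⟩ : Ix I (p3S Γ' a b T)))
    hfin (Set.finite_range _) (hgen s hs2)
  obtain ⟨y', hy'⟩ : ∃ y' : ((Fin m → ℤ) × ℤ) × I → Ω, y' = fun v =>
      if v.1.2 = b + 1 ∧ (QuotientAddGroup.mk v.1.1 : (Fin m → ℤ) ⧸ Γ') = q then c' v.2 else y v :=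
    ⟨_, rfl⟩
  have hyn : ∀ v, ¬ (v.1.2 = b + 1 ∧ (QuotientAddGroup.mk v.1.1 : (Fin m → ℤ) ⧸ Γ') = q) →
      y' v = y v := by
    intro v hv; rw [hy']; exact if_neg hv
  have hyp : ∀ v, (v.1.2 = b + 1 ∧ (QuotientAddGroup.mk v.1.1 : (Fin m → ℤ) ⧸ Γ') = q) →
      y' v = c' v.2 := by
    intro v hv; rw [hy']; exact if_pos hv
  have hlow : ∀ v : ((Fin m → ℤ) × ℤ) × I, v.1.2 ≤ b → y' v = y v := by
    intro v hv
    apply hyn
    rintro ⟨h1, -⟩
    omega
  have hper' : Per0 Γ' y' := by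
    intro γ hγ v
    obtain ⟨h1, h2⟩ := p3_mem_prod hγ
    have e1 : (γ + v.1).2 = v.1.2 := by
      show γ.2 + v.1.2 = v.1.2
      rw [h2, zero_add]
    have e2 : (QuotientAddGroup.mk (γ + v.1).1 : (Fin m → ℤ) ⧸ Γ') = QuotientAddGroup.mk v.1.1 :=
      p3_mk h1
    by_cases hv : v.1.2 = b + 1 ∧ (QuotientAddGroup.mk v.1.1 : (Fin m → ℤ) ⧸ Γ') = q
    · rw [hyp v hv, hyp (γ + v.1, v.2) ⟨by rw [← hv.1]; exact e1, by rw [← hv.2]; exact e2⟩]
    · rw [hyn v hv, hyn (γ + v.1, v.2) (fun h => hv ⟨by rw [← e1]; exact h.1,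
        by rw [← e2]; exact h.2⟩)]
      exact hper γ hγ v
  have hys : ∀ i, y' (s, i) = c' i := fun i => hyp (s, i) ⟨hs2, by rw [← hu, ← hs1]⟩
  have hgs : Z.Gen y' (tr s N ∪ {s}) := by
    have hsurj : Function.Surjective (Sum.elim
        (fun v : Ix I (tr s N) => (⟨v.1, Or.inl v.2⟩ : Ix I (tr s N ∪ {s})))
        (fun i : I => (⟨(s, i), Or.inr rfl⟩ : Ix I (tr s N ∪ {s})))) := by
      rintro ⟨⟨v, i⟩, hv⟩
      by_cases h : v ∈ tr s N
      · exact ⟨Sum.inl ⟨(v, i), h⟩, rfl⟩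
      · have h' : v = s := by
          rcases hv with hv | hv
          · exact absurd hv h
          · exact hv
        subst h'
        exact ⟨Sum.inr i, rfl⟩
    apply SameRel.of_surj hsurj
    have e1 : (res Z.z (tr s N ∪ {s})) ∘ (Sum.elim
        (fun v : Ix I (tr s N) => (⟨v.1, Or.inl v.2⟩ : Ix I (tr s N ∪ {s})))
        (fun i : I => (⟨(s, i), Or.inr rfl⟩ : Ix I (tr s N ∪ {s})))) =
        Sum.elim (res Z.z (tr s N)) (fun i => Z.z (s, i)) := by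
      funext v
      rcases v with v | i <;> rfl
    have e2 : (res y' (tr s N ∪ {s})) ∘ (Sum.elim
        (fun v : Ix I (tr s N) => (⟨v.1, Or.inl v.2⟩ : Ix I (tr s N ∪ {s})))
        (fun i : I => (⟨(s, i), Or.inr rfl⟩ : Ix I (tr s N ∪ {s})))) =
        Sum.elim (res y (p3S Γ' a b T) ∘
          (fun v : Ix I (tr s N) => (⟨v.1, hsub v.2⟩ : Ix I (p3S Γ' a b T)))) c' := by
      funext v
      rcases v with v | i
      · exact hlow v.1 (htr s hs2 v.1.1 v.2).2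
      · exact hys i
    rw [e1, e2]
    exact hc1
  refine ⟨y', hper', hyn, ?_, ?_⟩
  · intro s' hs'2 hs'q
    have hmem : s'.1 - s.1 ∈ Γ' := by
      rw [hs1, ← QuotientAddGroup.eq_zero_iff, QuotientAddGroup.mk_sub, hs'q, hu, sub_self]
    have hγ : s' - s ∈ Γ'.prod (⊥ : AddSubgroup ℤ) := by
      rw [AddSubgroup.mem_prod]
      refine ⟨hmem, ?_⟩
      have : (s' - s).2 = s'.2 - s.2 := rfl
      rw [this, hs'2, hs2, sub_self]
      exact AddSubgroup.zero_mem _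
    have hset : tr s' N ∪ {s'} = tr (s' - s) (tr s N ∪ {s}) := by
      ext v
      simp only [tr, Set.mem_union, Set.mem_singleton_iff, Set.mem_ofPred_eq]
      have e1 : v - (s' - s) - s = v - s' := by abel
      rw [e1]
      constructor
      · rintro (h | h)
        · exact Or.inl h
        · right; rw [h]; abel
      · rintro (h | h)
        · exact Or.inl h
        · right
          rw [sub_eq_iff_eq_add] at h
          rw [h]; abel
    rw [hset, gen_tr]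
    apply Gen.congr hgs
    intro v _
    exact (hper' _ hγ v).symm
  · -- the transcendence degree
    have r1 : trdOn k y' (p3S Γ' a b (insert q T)) =
        trd k (Sum.elim (res y (p3S Γ' a b T)) c') := by
      apply trd_congr_range
      ext w
      constructor
      · rintro ⟨⟨v, hv⟩, rfl⟩
        by_cases h : v.1.2 = b + 1 ∧ (QuotientAddGroup.mk v.1.1 : (Fin m → ℤ) ⧸ Γ') = q
        · exact ⟨Sum.inr v.2, (hyp v h).symm⟩
        · have hv' : v.1 ∈ p3S Γ' a b T := by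
            rcases hv with hv | ⟨h1, h2⟩
            · exact Or.inl hv
            · rcases h2 with h2 | h2
              · exact absurd ⟨h1, h2⟩ h
              · exact Or.inr ⟨h1, h2⟩
          exact ⟨Sum.inl ⟨v, hv'⟩, (hyn v h).symm⟩
      · rintro ⟨v | i, rfl⟩
        · obtain ⟨v, hv⟩ := v
          have hv' : v.1 ∈ p3S Γ' a b (insert q T) := by
            rcases hv with hv | ⟨h1, h2⟩
            · exact Or.inl hv
            · exact Or.inr ⟨h1, Or.inr h2⟩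
          refine ⟨⟨v, hv'⟩, ?_⟩
          apply hyn
          rintro ⟨h1, h2⟩
          rcases hv with hv | ⟨h3, h4⟩
          · have h5 : v.1.2 ≤ b := hv.2
            have h6 : v.1.2 = b + 1 := h1
            omega
          · exact hq (h2 ▸ h4)
        · refine ⟨⟨(s, i), Or.inr ⟨hs2, Or.inl ?_⟩⟩, hys i⟩
          rw [← hu, ← hs1]
    have r2 : trd k (Sum.elim (res Z.z (tr s N)) (fun i => Z.z (s, i))) = Z.r (N ∪ {0}) := by
      rw [← r_tr Z (N ∪ {0}) s]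
      apply trd_congr_range
      have hset : tr s (N ∪ {0}) = tr s N ∪ {s} := by
        ext v
        simp only [tr, Set.mem_union, Set.mem_singleton_iff, Set.mem_ofPred_eq, sub_eq_zero]
      rw [hset]
      ext w
      constructor
      · rintro ⟨v | i, rfl⟩
        · exact ⟨⟨v.1, Or.inl v.2⟩, rfl⟩
        · exact ⟨⟨(s, i), Or.inr rfl⟩, rfl⟩
      · rintro ⟨⟨⟨v, i⟩, hv⟩, rfl⟩
        rcases hv with hv | hv
        · exact ⟨Sum.inl ⟨(v, i), hv⟩, rfl⟩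
        · have hv' : v = s := hv
          subst hv'
          exact ⟨Sum.inr i, rfl⟩
    have r3 : trd k (res Z.z (tr s N)) = Z.r N := r_tr Z N s
    have r4 : Z.r N ≤ Z.r (N ∪ {0}) :=
      r_mono Z Set.subset_union_left (hN.union (Set.finite_singleton _))
    rw [r2, r3] at hc2
    rw [r1]
    unfold rhoP trdOn
    omega

/-- (7.2) -/
theorem config_extend [IsAlgClosed Ω] (hΩ : Cardinal.aleph0 ≤ Algebra.trdeg k Ω)
    (Z : Sys k ((Fin m → ℤ) × ℤ) I) (N : Set ((Fin m → ℤ) × ℤ)) (hN : N.Finite)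
    (Γ' : AddSubgroup (Fin m → ℤ)) [Γ'.FiniteIndex]
    {x : ((Fin m → ℤ) × ℤ) × I → Ω} (hper : Per0 Γ' x) (a b : ℤ) (hab : a ≤ b + 1)
    (hlev : ∀ v ∈ N, a ≤ v.2 + (b + 1) ∧ v.2 < 0)
    (hgen : ∀ s : (Fin m → ℤ) × ℤ, s.2 = b + 1 → Z.Gen x (tr s N)) :
    ∃ x' : ((Fin m → ℤ) × ℤ) × I → Ω, Per0 Γ' x' ∧ (∀ v, v.1.2 ≠ b + 1 → x' v = x v) ∧
      (∀ s : (Fin m → ℤ) × ℤ, s.2 = b + 1 → Z.Gen x' (tr s N ∪ {s})) ∧
      trdOn k x' (lev a (b + 1)) = trdOn k x (lev a b) + Γ'.index * rhoP Z N := by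
  classical
  have hQ : Finite ((Fin m → ℤ) ⧸ Γ') := inferInstance
  have := Fintype.ofFinite ((Fin m → ℤ) ⧸ Γ')
  have htr : ∀ s' : (Fin m → ℤ) × ℤ, s'.2 = b + 1 → ∀ v ∈ tr s' N, a ≤ v.2 ∧ v.2 ≤ b := by
    intro s' hs' v hv
    have h1 : v - s' ∈ N := hv
    obtain ⟨h2, h3⟩ := hlev _ h1
    have h4 : (v - s').2 = v.2 - s'.2 := rfl
    rw [h4, hs'] at h2 h3
    constructor <;> omega
  have key : ∀ T : Finset ((Fin m → ℤ) ⧸ Γ'), ∃ y : ((Fin m → ℤ) × ℤ) × I → Ω, Per0 Γ' y ∧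
      (∀ v, v.1.2 ≠ b + 1 → y v = x v) ∧
      (∀ s : (Fin m → ℤ) × ℤ, s.2 = b + 1 → (QuotientAddGroup.mk s.1 : (Fin m → ℤ) ⧸ Γ') ∈ T →
        Z.Gen y (tr s N ∪ {s})) ∧
      trdOn k y (p3S Γ' a b (T : Set ((Fin m → ℤ) ⧸ Γ'))) =
        trdOn k x (lev a b) + T.card * rhoP Z N := by
    intro T
    induction T using Finset.induction_on with
    | empty =>
      refine ⟨x, hper, fun _ _ => rfl, fun s _ h => absurd h (Finset.notMem_empty _), ?_⟩
      have : p3S Γ' a b ((∅ : Finset ((Fin m → ℤ) ⧸ Γ')) : Set ((Fin m → ℤ) ⧸ Γ')) = lev a b := by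
        unfold p3S
        ext v
        simp
      rw [this]
      simp
    | insert q T hq ih =>
      obtain ⟨y, h1, h2, h3, h4⟩ := ih
      have hgy : ∀ s : (Fin m → ℤ) × ℤ, s.2 = b + 1 → Z.Gen y (tr s N) := by
        intro s hs
        apply Gen.congr (hgen s hs)
        intro v hv
        have := (htr s hs v.1 hv).2
        exact (h2 v (by omega)).symm
      obtain ⟨y', g1, g2, g3, g4⟩ := p3_step hΩ Z N hN Γ' h1 a b hab hlev hgy
        (T : Set ((Fin m → ℤ) ⧸ Γ')) q (by simpa using hq)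
      refine ⟨y', g1, ?_, ?_, ?_⟩
      · intro v hv
        rw [g2 v (fun h => hv h.1), h2 v hv]
      · intro s hs hsT
        rw [Finset.mem_insert] at hsT
        by_cases hsq : (QuotientAddGroup.mk s.1 : (Fin m → ℤ) ⧸ Γ') = q
        · exact g3 s hs hsq
        · have hsT' := hsT.resolve_left hsq
          apply Gen.congr (h3 s hs hsT')
          intro v hv
          refine (g2 v ?_).symm
          rintro ⟨e1, e2⟩
          rcases hv with hv | hv
          · have := (htr s hs v.1 hv).2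
            omega
          · have hv' : v.1 = s := hv
            rw [hv'] at e2
            exact hsq e2
      · rw [Finset.coe_insert, g4, h4, Finset.card_insert_of_notMem hq]
        ring
  obtain ⟨y, h1, h2, h3, h4⟩ := key Finset.univ
  refine ⟨y, h1, h2, fun s hs => h3 s hs (Finset.mem_univ _), ?_⟩
  have e1 : p3S Γ' a b ((Finset.univ : Finset ((Fin m → ℤ) ⧸ Γ')) : Set ((Fin m → ℤ) ⧸ Γ')) =
      lev a (b + 1) := by
    unfold p3S lev
    ext v
    simp only [Finset.coe_univ, Set.mem_univ, and_true, Set.mem_union, Set.mem_ofPred_eq]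
    omega
  have e2 : (Finset.univ : Finset ((Fin m → ℤ) ⧸ Γ')).card = Γ'.index := by
    rw [Finset.card_univ, ← Nat.card_eq_fintype_card]
    rfl
  rw [e1, e2] at h4
  exact h4

end Pool.Agent.ORG
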