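import Pool.Agent.ORG.Defs
import Pool.Agent.ORG.F1
import Pool.Agent.ORG.F4
import Pool.Agent.ORG.S1
import Pool.Agent.ORG.S2
import Pool.Agent.ORG.P0
import Pool.Agent.ORG.P1

/-!
# MP_08a057_al, ORG module P4 : (7.3) new windows are generic, (7.8) thick windows
(paper: /team-store/ORG_paper.md)
-/

set_option autoImplicit false

namespace Pool.Agent.ORG

open MvPolynomial

variable {k Ω : Type} [Field k] [CharZero k] [Field Ω] [Algebra k Ω] {I : Type} [Finite I] {m : ℕ}

open Sys

/-- the transcendence degree depends only on the range of the family -/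
theorem P4.trd_congr_range {J J' E : Type} [Field E] [Algebra k E] {a : J → E} {b : J' → E}
    (h : Set.range a = Set.range b) : trd k a = trd k b := by
  unfold trd fld
  rw [h]

/-- restriction to a smaller set of sites has a smaller range -/
theorem P4.range_res_mono {Γ E : Type} (x : Γ × I → E) {A B : Set Γ} (h : A ⊆ B) :
    Set.range (res x A) ⊆ Set.range (res x B) := by
  rintro _ ⟨v, rfl⟩
  exact ⟨⟨v.1, h v.2⟩, rfl⟩

/-- one new site adds at most `rhoP` -/
theorem P4.add_site (Z : Sys k ((Fin m → ℤ) × ℤ) I) (N : Set ((Fin m → ℤ) × ℤ))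
    (hN : N.Finite) {x : ((Fin m → ℤ) × ℤ) × I → Ω} {X Y : Set ((Fin m → ℤ) × ℤ)}
    (hXY : X ⊆ Y) (hY : (Set.range (res x Y)).Finite) (s : (Fin m → ℤ) × ℤ) (hs : s ∈ Y)
    (hNX : tr s N ⊆ X) (hgen : Z.Gen x (tr s N ∪ {s})) :
    trdOn k x (X ∪ {s}) ≤ trdOn k x X + rhoP Z N := by
  have hXf : (Set.range (res x X)).Finite := hY.subset (P4.range_res_mono x hXY)
  have hsf : (Set.range (res x ({s} : Set ((Fin m → ℤ) × ℤ)))).Finite :=
    hY.subset (P4.range_res_mono x (by simpa using hs))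
  have h1 := trdOn_submod (k := k) x hNX hXf hsf
  have h2 : trdOn k x (tr s N ∪ {s}) = Z.r (N ∪ {0}) := by
    rw [Gen.trd_eq hgen, ← r_tr Z (N ∪ {0}) s]
    congr 1
    ext u
    simp [tr, sub_eq_zero]
  have h3 : trdOn k x (tr s N) = Z.r N := by
    rw [Gen.trd_eq (Gen.mono hgen Set.subset_union_left), r_tr]
  have h4 : Z.r N ≤ Z.r (N ∪ {0}) :=
    r_mono Z Set.subset_union_left (hN.union (Set.finite_singleton _))
  unfold rhoP
  omega

/-- the transcendence degree of a set of inequivalent sites of a new level -/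
theorem trd_new_sites (Z : Sys k ((Fin m → ℤ) × ℤ) I) (N : Set ((Fin m → ℤ) × ℤ))
    (hN : N.Finite) (Γ' : AddSubgroup (Fin m → ℤ)) [Γ'.FiniteIndex]
    {x : ((Fin m → ℤ) × ℤ) × I → Ω} (hper : Per0 Γ' x) (a b : ℤ)
    (hlev : ∀ v ∈ N, a ≤ v.2 + (b + 1) ∧ v.2 < 0)
    (hgen : ∀ s : (Fin m → ℤ) × ℤ, s.2 = b + 1 → Z.Gen x (tr s N ∪ {s}))
    (htr : trdOn k x (lev a (b + 1)) = trdOn k x (lev a b) + Γ'.index * rhoP Z N)
    (A B : Set ((Fin m → ℤ) × ℤ)) (hA : A ⊆ lev a b) (hAf : A.Finite) (hB : B.Finite)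
    (hBb : ∀ v ∈ B, v.2 = b + 1) (hinj : ∀ v ∈ B, ∀ w ∈ B, v.1 - w.1 ∈ Γ' → v = w)
    (hNA : ∀ s ∈ B, tr s N ⊆ A) :
    trdOn k x A + B.ncard * rhoP Z N ≤ trdOn k x (A ∪ B) := by
  classical
  have hfin : (Set.range (res x (lev a (b + 1)))).Finite := finite_range_lev Γ' hper a (b + 1)
  have hNL : ∀ s : (Fin m → ℤ) × ℤ, s.2 = b + 1 → tr s N ⊆ lev a b := by
    intro s hs u hu
    have h1 := hlev _ hu
    simp only [Prod.snd_sub] at h1
    exact ⟨by omega, by omega⟩
  by_cases hab : a ≤ b + 1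
  swap
  · -- no levels at all: then `B` gives no contradiction, but `N` is empty and `rhoP` is killed
    have e : (lev a (b + 1) : Set ((Fin m → ℤ) × ℤ)) = lev a b := by
      ext v
      simp only [lev, Set.mem_setOf_eq]
      constructor
      · rintro ⟨h1, h2⟩; omega
      · rintro ⟨h1, h2⟩; omega
    rw [e] at htr
    have hi : Γ'.index ≠ 0 := AddSubgroup.FiniteIndex.index_ne_zero
    have hr : rhoP Z N = 0 := by
      by_contra h
      have : 0 < Γ'.index * rhoP Z N := Nat.mul_pos (Nat.pos_of_ne_zero hi) (Nat.pos_of_ne_zero h)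
      omega
    rw [hr, mul_zero, add_zero]
    refine trdOn_mono x Set.subset_union_left (finite_range_res x (hAf.union hB))
  haveI : Fintype ((Fin m → ℤ) ⧸ Γ') := Fintype.ofFinite _
  have hcard : Fintype.card ((Fin m → ℤ) ⧸ Γ') = Γ'.index := by
    rw [AddSubgroup.index, Nat.card_eq_fintype_card]
  -- the classes not met by `B`
  set T : Finset ((Fin m → ℤ) ⧸ Γ') :=
    Finset.univ \ (hB.toFinset.image fun v => (QuotientAddGroup.mk v.1 : (Fin m → ℤ) ⧸ Γ')) with hT
  have hTcard : T.card + B.ncard = Γ'.index := by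
    rw [hT, Finset.card_sdiff_of_subset (Finset.subset_univ _), Finset.card_univ, hcard,
      Finset.card_image_of_injOn, ← Set.ncard_eq_toFinset_card B hB]
    · have : B.ncard ≤ Γ'.index := by
        rw [Set.ncard_eq_toFinset_card B hB, ← hcard, ← Finset.card_univ]
        refine Finset.card_le_card_of_injOn
          (fun v => (QuotientAddGroup.mk v.1 : (Fin m → ℤ) ⧸ Γ')) (fun _ _ => Finset.mem_univ _) ?_
        intro v hv w hw hvw
        have hv' : v ∈ B := by simpa using hv
        have hw' : w ∈ B := by simpa using hw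
        refine (hinj w hw' v hv' ?_).symm
        have := QuotientAddGroup.eq.mp hvw
        rwa [neg_add_eq_sub] at this
      omega
    · intro v hv w hw hvw
      have hv' : v ∈ B := by simpa using hv
      have hw' : w ∈ B := by simpa using hw
      refine (hinj w hw' v hv' ?_).symm
      have := QuotientAddGroup.eq.mp hvw
      rwa [neg_add_eq_sub] at this
  -- adding the representatives of the other classes
  have hstep : ∀ T' : Finset ((Fin m → ℤ) ⧸ Γ'),
      trdOn k x ((lev a b ∪ B) ∪ {v | ∃ q ∈ T', v = (q.out, b + 1)}) ≤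
        trdOn k x (lev a b ∪ B) + T'.card * rhoP Z N := by
    intro T'
    induction T' using Finset.induction_on with
    | empty => simp
    | insert q T' hq ih =>
      have e : ((lev a b ∪ B) ∪ {v | ∃ q' ∈ insert q T', v = (q'.out, b + 1)}) =
          ((lev a b ∪ B) ∪ {v | ∃ q ∈ T', v = (q.out, b + 1)}) ∪
            {((q.out, b + 1) : (Fin m → ℤ) × ℤ)} := by
        ext v
        simp only [Set.mem_union, Set.mem_setOf_eq, Finset.mem_insert, Set.mem_singleton_iff]
        constructor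
        · rintro (h | ⟨q', rfl | h, rfl⟩)
          · exact Or.inl (Or.inl h)
          · exact Or.inr rfl
          · exact Or.inl (Or.inr ⟨q', h, rfl⟩)
        · rintro ((h | ⟨q', h, rfl⟩) | rfl)
          · exact Or.inl h
          · exact Or.inr ⟨q', Or.inr h, rfl⟩
          · exact Or.inr ⟨q, Or.inl rfl, rfl⟩
      have h1 := P4.add_site Z N hN (x := x)
        (X := (lev a b ∪ B) ∪ {v | ∃ q ∈ T', v = (q.out, b + 1)}) (Y := lev a (b + 1)) (by
          rintro v ((h | h) | ⟨q', h, rfl⟩)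
          · exact ⟨h.1, h.2.trans (by omega)⟩
          · exact ⟨hab.trans (hBb v h).ge, (hBb v h).le⟩
          · exact ⟨hab, le_refl _⟩) hfin (q.out, b + 1) ⟨hab, le_refl _⟩
        ((hNL _ rfl).trans (Set.subset_union_left.trans Set.subset_union_left))
        (hgen _ rfl)
      rw [e, Finset.card_insert_of_notMem hq, add_mul, one_mul]
      omega
  have h1 := hstep T
  have h2 : trdOn k x ((lev a b ∪ B) ∪ {v | ∃ q ∈ T, v = (q.out, b + 1)}) =
      trdOn k x (lev a (b + 1)) := by
    refine P4.trd_congr_range (Set.Subset.antisymm (P4.range_res_mono x ?_) ?_)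
    · rintro v ((h | h) | ⟨q', h, rfl⟩)
      · exact ⟨h.1, h.2.trans (by omega)⟩
      · exact ⟨hab.trans (hBb v h).ge, (hBb v h).le⟩
      · exact ⟨hab, le_refl _⟩
    · rintro _ ⟨⟨⟨v, i⟩, hv⟩, rfl⟩
      by_cases hvb : v.2 ≤ b
      · exact ⟨⟨(v, i), Or.inl (Or.inl ⟨hv.1, hvb⟩)⟩, rfl⟩
      · have hv2 : v.2 = b + 1 := by
          have := hv.2
          simp only at this
          omega
        by_cases hq : (QuotientAddGroup.mk v.1 : (Fin m → ℤ) ⧸ Γ') ∈ T
        · refine ⟨⟨(((QuotientAddGroup.mk v.1 : (Fin m → ℤ) ⧸ Γ').out, b + 1), i),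
            Or.inr ⟨_, hq, rfl⟩⟩, ?_⟩
          have h3 : (QuotientAddGroup.mk v.1 : (Fin m → ℤ) ⧸ Γ').out - v.1 ∈ Γ' := by
            have := QuotientAddGroup.eq.mp
              (QuotientAddGroup.out_eq' (QuotientAddGroup.mk v.1 : (Fin m → ℤ) ⧸ Γ')).symm
            rwa [neg_add_eq_sub] at this
          have h4 := hper ((QuotientAddGroup.mk v.1 : (Fin m → ℤ) ⧸ Γ').out - v.1, 0)
            (AddSubgroup.mem_prod.mpr ⟨h3, AddSubgroup.zero_mem _⟩) (v, i)
          simp only [res]
          rw [← h4]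
          congr 1
          refine Prod.ext (Prod.ext ?_ ?_) rfl
          · simp
          · simp [hv2]
        · have h5 : ∃ w ∈ B, (QuotientAddGroup.mk w.1 : (Fin m → ℤ) ⧸ Γ') =
              QuotientAddGroup.mk v.1 := by
            by_contra hcon
            apply hq
            rw [hT, Finset.mem_sdiff]
            refine ⟨Finset.mem_univ _, ?_⟩
            intro hmem
            rw [Finset.mem_image] at hmem
            obtain ⟨w, hw, hw2⟩ := hmem
            exact hcon ⟨w, by simpa using hw, hw2⟩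
          obtain ⟨w, hw, hwv⟩ := h5
          refine ⟨⟨(w, i), Or.inl (Or.inr hw)⟩, ?_⟩
          have h3 : w.1 - v.1 ∈ Γ' := by
            have := QuotientAddGroup.eq.mp hwv.symm
            rwa [neg_add_eq_sub] at this
          have h4 := hper (w.1 - v.1, 0)
            (AddSubgroup.mem_prod.mpr ⟨h3, AddSubgroup.zero_mem _⟩) (v, i)
          simp only [res]
          rw [← h4]
          congr 1
          refine Prod.ext (Prod.ext ?_ ?_) rfl
          · simp
          · simp [hv2, hBb w hw]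
  rw [h2, htr] at h1
  have hfL : (Set.range (res x (lev a b))).Finite :=
    hfin.subset (P4.range_res_mono x fun v hv => ⟨hv.1, hv.2.trans (by omega)⟩)
  have h6 := trdOn_submod (k := k) x hA hfL (finite_range_res x hB)
  have h7 : Γ'.index * rhoP Z N = T.card * rhoP Z N + B.ncard * rhoP Z N := by
    rw [← add_mul, hTcard]
  omega

/-- (7.3)/(7.8): a thicker window is generic -/
theorem gen_new_window (Z : Sys k ((Fin m → ℤ) × ℤ) I) {N Nm : Set ((Fin m → ℤ) × ℤ)} {c : ℕ}
    (hD : DirData Z N Nm c) (n0 : ℕ) (hn : ∀ v ∈ N ∪ Nm, v.1 ∈ ball m n0)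
    (Γ' : AddSubgroup (Fin m → ℤ)) [Γ'.FiniteIndex]
    {x : ((Fin m → ℤ) × ℤ) × I → Ω} (hper : Per0 Γ' x) (a b t : ℤ) (hat : a ≤ t)
    (htb : t + c ≤ b + 1)
    (hgen : ∀ s : (Fin m → ℤ) × ℤ, s.2 = b + 1 → Z.Gen x (tr s N ∪ {s}))
    (htr : trdOn k x (lev a (b + 1)) = trdOn k x (lev a b) + Γ'.index * rhoP Z N)
    (D : ℕ) (hsp : Sparse Γ' (ball m D))
    (p q : Fin m → ℤ) (hpq : ∀ i, q i - p i ≤ D)
    (hg : Z.Gen x (sl (Set.Icc (fun i => p i - n0) (fun i => q i + n0)) t b)) :
    Z.Gen x (sl (Set.Icc p q) t (b + 1)) := by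
  set A : Set ((Fin m → ℤ) × ℤ) := sl (Set.Icc (fun i => p i - n0) (fun i => q i + n0)) t b with hA
  set B : Set ((Fin m → ℤ) × ℤ) := sl (Set.Icc p q) (b + 1) (b + 1) with hB
  have hslf : ∀ (p q : Fin m → ℤ) (t b : ℤ), (sl (Set.Icc p q) t b).Finite := by
    intro p q t b
    refine ((Set.finite_Icc p q).prod (Set.finite_Icc t b)).subset ?_
    intro v hv
    exact ⟨hv.1, hv.2⟩
  have hNA : ∀ s ∈ B, tr s N ⊆ A := by
    intro s hs u hu
    have h1 := hn _ (Or.inl hu)
    have h2 := hD.levN _ hu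
    obtain ⟨hs1, hs2, hs3⟩ := hs
    have hs1a := hs1.1
    have hs1b := hs1.2
    simp only [Prod.snd_sub] at h2
    refine ⟨⟨fun i => ?_, fun i => ?_⟩, ?_, ?_⟩
    · have := h1 i; have := hs1a i; simp only [Prod.fst_sub, Pi.sub_apply] at *; omega
    · have := h1 i; have := hs1b i; simp only [Prod.fst_sub, Pi.sub_apply] at *; omega
    · omega
    · omega
  have hBb : ∀ v ∈ B, v.2 = b + 1 := fun v hv => le_antisymm hv.2.2 hv.2.1
  have key := trd_new_sites Z N hD.finN Γ' hper a b (fun v hv => by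
    have := hD.levN v hv; omega) hgen htr A B (fun v hv => ⟨hat.trans hv.2.1, hv.2.2⟩)
    (hslf _ _ _ _) (hslf _ _ _ _) hBb (by
      intro v hv w hw hvw
      have h0 := hsp _ (fun i => by
        have h1 := hpq i
        have h2 : p i ≤ v.1 i := hv.1.1 i
        have h3 : v.1 i ≤ q i := hv.1.2 i
        have h4 : p i ≤ w.1 i := hw.1.1 i
        have h5 : w.1 i ≤ q i := hw.1.2 i
        simp only [Pi.sub_apply]
        constructor <;> omega) hvw
      exact Prod.ext (sub_eq_zero.mp h0) ((hBb v hv).trans (hBb w hw).symm)) hNA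
  have h := gen_add_level Z hD A B (hslf _ _ _ _) (hslf _ _ _ _) (b + 1)
    (fun v hv => by have := hv.2.2; omega) hBb hNA hg (fun s hs => hgen s (hBb s hs)) key
  refine Gen.mono h ?_
  intro v hv
  by_cases h1 : v.2 = b + 1
  · exact Or.inr ⟨hv.1, h1.ge, h1.le⟩
  · refine Or.inl ⟨⟨fun i => ?_, fun i => ?_⟩, hv.2.1, ?_⟩
    · have h2 : p i ≤ v.1 i := hv.1.1 i
      show p i - n0 ≤ v.1 i
      omega
    · have h2 : v.1 i ≤ q i := hv.1.2 i
      show v.1 i ≤ q i + n0
      omega
    · have := hv.2.2; omega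

end Pool.Agent.ORG
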