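import Pool.Agent.ORG.Defs
import Pool.Agent.ORG.F1
import Pool.Agent.ORG.F2
import Pool.Agent.ORG.F3
import Pool.Agent.ORG.F4
import Pool.Agent.ORG.S1
import Pool.Agent.ORG.S2
import Pool.Agent.ORG.P0

/-!
# MP_08a057_al, ORG module P5 : (7.4) fullness of the extended configuration
(paper: /team-store/ORG_paper.md)
-/

set_option autoImplicit false

namespace Pool.Agent.ORG

open MvPolynomial

variable {k Ω : Type} [Field k] [CharZero k] [Field Ω] [Algebra k Ω] {I : Type} [Finite I] {m : ℕ}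

open Sys

section P5aux

variable {Γ : Type} [AddCommGroup Γ]

omit [CharZero k] [Finite I] in
/-- vectors supported on the site `s` and tangent on `A ∪ {s}` -/
def P5U (k : Type) [Field k] [Algebra k Ω] (x : Γ × I → Ω) (A : Set Γ) (s : Γ) :
    Submodule Ω (Γ × I → Ω) where
  carrier := {ξ | (∀ v : Γ × I, v.1 ≠ s → ξ v = 0) ∧ TanOn k x (A ∪ {s}) ξ}
  add_mem' := by
    rintro ξ η ⟨h1, h2⟩ ⟨h3, h4⟩
    exact ⟨fun v hv => by rw [Pi.add_apply, h1 v hv, h3 v hv, add_zero], h2.add h4⟩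
  zero_mem' := ⟨fun _ _ => rfl, TanOn.zero x _⟩
  smul_mem' := by
    rintro c ξ ⟨h1, h2⟩
    exact ⟨fun v hv => by rw [Pi.smul_apply, h1 v hv, smul_zero], h2.smul c⟩

omit [CharZero k] in
theorem P5U_finite (x : Γ × I → Ω) (A : Set Γ) (s : Γ) : Module.Finite Ω (P5U k x A s) := by
  let f : (P5U k x A s) →ₗ[Ω] (I → Ω) :=
    (LinearMap.funLeft Ω Ω (fun i : I => (s, i))).comp (P5U k x A s).subtype
  refine Module.Finite.of_injective f ?_
  rw [injective_iff_map_eq_zero]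
  rintro ⟨ξ, h1, h2⟩ h3
  apply Subtype.ext
  funext v
  obtain ⟨u, i⟩ := v
  by_cases hu : u = s
  · subst hu
    exact congrFun h3 i
  · exact h1 (u, i) hu

theorem P5U_finrank (Z : Sys k Γ I) {x : Γ × I → Ω} {N : Set Γ} (hN : N.Finite) (h0 : (0 : Γ) ∉ N)
    (s : Γ) (h : Z.Gen x (tr s N ∪ {s})) :
    Module.finrank Ω (P5U k x (tr s N) s) = Z.r (N ∪ {0}) - Z.r N := by
  have h1 : (tr s N).Finite := by
    have : tr s N = (fun u => u + s) '' N := by
      ext u
      constructor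
      · intro hu
        exact ⟨u - s, hu, by simp⟩
      · rintro ⟨v, hv, rfl⟩
        simpa [tr] using hv
    rw [this]
    exact hN.image _
  have h2 := finrank_tan_site h1 h (P5U k x (tr s N) s) (fun ξ => Iff.rfl)
    (by simpa [tr] using h0)
  have h3 : tr s N ∪ {s} = tr s (N ∪ {0}) := by
    ext u
    simp [tr, sub_eq_zero]
  rw [h3, r_tr, r_tr] at h2
  omega

/-- local solutions form a submodule -/
def P5L (k : Type) [Field k] [Algebra k Ω] (C h : ℕ) (Γ' : AddSubgroup (Fin m → ℤ))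
    (x : ((Fin m → ℤ) × ℤ) × I → Ω) (a b : ℤ) :
    Submodule Ω (((Fin m → ℤ) × ℤ) × I → Ω) where
  carrier := {ξ | Lsol k C h Γ' x a b ξ}
  add_mem' := by
    rintro ξ η ⟨h1, h2⟩ ⟨h3, h4⟩
    refine ⟨fun γ hγ v => ?_, fun γ t ht ht' => (h2 γ t ht ht').add (h4 γ t ht ht')⟩
    rw [Pi.add_apply, Pi.add_apply, h1 γ hγ v, h3 γ hγ v]
  zero_mem' := ⟨fun _ _ _ => rfl, fun _ _ _ _ => TanOn.zero x _⟩
  smul_mem' := by
    rintro c ξ ⟨h1, h2⟩
    refine ⟨fun γ hγ v => ?_, fun γ t ht ht' => (h2 γ t ht ht').smul c⟩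
    rw [Pi.smul_apply, Pi.smul_apply, h1 γ hγ v]

end P5aux

/-- tangent periodic vectors have dimension `trd` -/
theorem full_extend (Z : Sys k ((Fin m → ℤ) × ℤ) I) {N Nm : Set ((Fin m → ℤ) × ℤ)} {c : ℕ}
    (hD : DirData Z N Nm c) (n0 : ℕ) (hn : ∀ v ∈ N ∪ Nm, v.1 ∈ ball m n0) (C : ℕ) (hC : c ≤ C)
    (h : ℕ) (hh2 : 2 * n0 ≤ h) (Γ' : AddSubgroup (Fin m → ℤ)) [Γ'.FiniteIndex]
    {x : ((Fin m → ℤ) × ℤ) × I → Ω} (hper : Per0 Γ' x) (a b : ℤ) (hab : a + C ≤ b)
    (hgen : ∀ s : (Fin m → ℤ) × ℤ, s.2 = b + 1 → Z.Gen x (tr s N ∪ {s}))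
    (htr : trdOn k x (lev a (b + 1)) = trdOn k x (lev a b) + Γ'.index * rhoP Z N)
    (hfull : FullOn k C h Γ' x a b) : FullOn k C h Γ' x a (b + 1) := by
  classical
  have h0 : (0 : (Fin m → ℤ) × ℤ) ∉ N := by
    intro h0
    have := (hD.levN 0 h0).2
    simp at this
  -- the set `s + N` is contained in the levels `[a,b]`
  have hNlev : ∀ s : (Fin m → ℤ) × ℤ, s.2 = b + 1 → ∀ u ∈ tr s N, u ∈ lev a b := by
    intro s hs u hu
    have h1 := hD.levN _ hu
    simp only [Prod.snd_sub] at h1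
    constructor <;> omega
  -- and `(s + N) ∪ {s}` in a window
  have hwin : ∀ s : (Fin m → ℤ) × ℤ, s.2 = b + 1 → ∃ γ : Fin m → ℤ,
      tr s N ∪ {s} ⊆ sl (tr γ (cube m h)) (b + 1 - C) (b + 1 - C + C) := by
    intro s hs
    refine ⟨fun i => s.1 i - n0, ?_⟩
    rintro u (hu | hu)
    · have h1 := hD.levN _ hu
      have h2 := hn _ (Or.inl hu)
      simp only [Prod.snd_sub] at h1
      refine ⟨fun i => ?_, by omega, by omega⟩
      have h3 := h2 i
      simp only [Prod.fst_sub, Pi.sub_apply] at h3 ⊢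
      constructor <;> omega
    · rw [Set.mem_singleton_iff] at hu
      subst hu
      refine ⟨fun i => ?_, by omega, by omega⟩
      simp only [Pi.sub_apply]
      constructor <;> omega
  have hlsub : lev (Γ₀ := Fin m → ℤ) a b ⊆ lev a (b + 1) := by
    rintro v ⟨h1, h2⟩
    exact ⟨h1, by omega⟩
  have hslsub : ∀ (γ : Fin m → ℤ) (t : ℤ), a ≤ t → t + C ≤ b + 1 →
      sl (tr γ (cube m h)) t (t + C) ⊆ lev a (b + 1) := by
    rintro γ t ht ht' v ⟨_, h1, h2⟩
    exact ⟨by omega, by omega⟩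
  -- the spaces
  set L1 : Submodule Ω (Ix I (lev (Γ₀ := Fin m → ℤ) a (b + 1)) → Ω) :=
    (P5L k C h Γ' x a (b + 1)).map
      (LinearMap.funLeft Ω Ω (fun v : Ix I (lev (Γ₀ := Fin m → ℤ) a (b + 1)) => v.1)) with hL1
  have hL1mem : ∀ η, η ∈ L1 ↔ ∃ ξ, Lsol k C h Γ' x a (b + 1) ξ ∧
      res ξ (lev (Γ₀ := Fin m → ℤ) a (b + 1)) = η := by
    intro η
    rw [hL1, Submodule.mem_map]
    rfl
  set W := Tan k (res x (lev (Γ₀ := Fin m → ℤ) a (b + 1))) with hW
  have hWL : W ≤ L1 := by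
    intro η hη
    rw [hL1mem]
    have hη' : IsTan k (res x (lev (Γ₀ := Fin m → ℤ) a (b + 1))) η := hη
    set ξ : ((Fin m → ℤ) × ℤ) × I → Ω :=
      fun v => if hv : v.1 ∈ lev (Γ₀ := Fin m → ℤ) a (b + 1) then η ⟨v, hv⟩ else 0 with hξ
    have hres : res ξ (lev (Γ₀ := Fin m → ℤ) a (b + 1)) = η := by
      funext v
      simp only [res, hξ]
      rw [dif_pos v.2]
    have htan : TanOn k x (lev a (b + 1)) ξ := by
      unfold TanOn
      rw [hres]
      exact hη'
    refine ⟨ξ, ⟨?_, ?_⟩, hres⟩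
    · intro γ hγ v
      have hγ2 : γ.2 = 0 := by
        rw [AddSubgroup.mem_prod] at hγ
        exact (AddSubgroup.mem_bot.1 hγ.2)
      by_cases hv : v.1 ∈ lev (Γ₀ := Fin m → ℤ) a (b + 1)
      · have hv' : (γ + v.1, v.2).1 ∈ lev (Γ₀ := Fin m → ℤ) a (b + 1) := by
          obtain ⟨h1, h2⟩ := hv
          constructor
          · simp only [Prod.snd_add, hγ2]
            omega
          · simp only [Prod.snd_add, hγ2]
            omega
        have h1 : res x (lev (Γ₀ := Fin m → ℤ) a (b + 1)) ⟨(γ + v.1, v.2), hv'⟩ =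
            res x (lev (Γ₀ := Fin m → ℤ) a (b + 1)) ⟨v, hv⟩ := hper γ hγ v
        have h2 := hη'.eq_of_eq h1
        simp only [hξ]
        rw [dif_pos hv', dif_pos hv]
        exact h2
      · have hv' : ¬ (γ + v.1, v.2).1 ∈ lev (Γ₀ := Fin m → ℤ) a (b + 1) := by
          intro hcon
          apply hv
          obtain ⟨h1, h2⟩ := hcon
          simp only [Prod.snd_add, hγ2] at h1 h2
          exact ⟨by omega, by omega⟩
        simp only [hξ]
        rw [dif_neg hv', dif_neg hv]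
    · intro γ t ht ht'
      exact htan.mono (hslsub γ t ht ht')
  -- restriction to the levels `[a,b]`
  have hTfin : Module.Finite Ω (Tan k (res x (lev (Γ₀ := Fin m → ℤ) a b))) :=
    finite_Tan _ (finite_range_lev Γ' hper a b)
  have hTrank : Module.finrank Ω (Tan k (res x (lev (Γ₀ := Fin m → ℤ) a b))) =
      trdOn k x (lev a b) := finrank_Tan _ (finite_range_lev Γ' hper a b)
  have hWrank : Module.finrank Ω W = trdOn k x (lev a (b + 1)) :=
    finrank_Tan _ (finite_range_lev Γ' hper a (b + 1))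
  have hRmem : ∀ η : L1, LinearMap.funLeft Ω Ω (s1Incl I hlsub) η.1 ∈
      Tan k (res x (lev (Γ₀ := Fin m → ℤ) a b)) := by
    rintro ⟨η, hη⟩
    obtain ⟨ξ, ⟨h1, h2⟩, rfl⟩ := (hL1mem η).1 hη
    exact hfull ξ ⟨h1, fun γ t ht ht' => h2 γ t ht (by omega)⟩
  let R : L1 →ₗ[Ω] Tan k (res x (lev (Γ₀ := Fin m → ℤ) a b)) :=
    LinearMap.codRestrict _ ((LinearMap.funLeft Ω Ω (s1Incl I hlsub)).comp L1.subtype) hRmem
  have hRker : ∀ η : L1, η ∈ LinearMap.ker R → ∀ v : Ix I (lev (Γ₀ := Fin m → ℤ) a (b + 1)),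
      v.1.1 ∈ lev (Γ₀ := Fin m → ℤ) a b → η.1 v = 0 := by
    intro η hη v hv
    have h1 : R η = 0 := hη
    have h2 := congrFun (congrArg Subtype.val h1) ⟨v.1, hv⟩
    exact h2
  -- the quotient
  haveI : Finite ((Fin m → ℤ) ⧸ Γ') := AddSubgroup.finite_quotient_of_finiteIndex
  haveI : Fintype ((Fin m → ℤ) ⧸ Γ') := Fintype.ofFinite _
  let s : ((Fin m → ℤ) ⧸ Γ') → (Fin m → ℤ) × ℤ := fun q => (Quotient.out q, b + 1)
  have hslev : ∀ q, s q ∈ lev (Γ₀ := Fin m → ℤ) a (b + 1) := fun q => by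
    constructor
    · show a ≤ b + 1
      omega
    · exact le_refl _
  have hUfin : ∀ q, Module.Finite Ω (P5U k x (tr (s q) N) (s q)) := fun q => P5U_finite x _ _
  let ψ : ∀ q, (Ix I (lev (Γ₀ := Fin m → ℤ) a (b + 1)) → Ω) →ₗ[Ω]
      (((Fin m → ℤ) × ℤ) × I → Ω) := fun q =>
    { toFun := fun η v => if v.1 = s q then η ⟨(s q, v.2), hslev q⟩ else 0
      map_add' := by
        intro η η'
        funext v
        simp only [Pi.add_apply]
        split_ifs
        · rfl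
        · rw [add_zero]
      map_smul' := by
        intro c η
        funext v
        simp only [Pi.smul_apply, RingHom.id_apply]
        split_ifs
        · rfl
        · rw [smul_zero] }
  have hψmem : ∀ (q : (Fin m → ℤ) ⧸ Γ') (η : LinearMap.ker R),
      ψ q η.1.1 ∈ P5U k x (tr (s q) N) (s q) := by
    rintro q ⟨⟨η, hη⟩, hker⟩
    refine ⟨fun v hv => if_neg hv, ?_⟩
    obtain ⟨ξ, ⟨h1, h2⟩, rfl⟩ := (hL1mem η).1 hη
    obtain ⟨γ, hγ⟩ := hwin (s q) rfl
    have h3 : TanOn k x (tr (s q) N ∪ {s q}) ξ :=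
      (h2 γ (b + 1 - C) (by omega) (by omega)).mono hγ
    refine h3.congr (fun _ _ => rfl) ?_
    rintro v (hv | hv)
    · have hv1 := hNlev (s q) rfl v.1 hv
      have hne : v.1 ≠ s q := by
        intro hcon
        rw [hcon] at hv1
        have : b + 1 ≤ b := hv1.2
        omega
      have h4 := hRker _ hker ⟨v, hlsub hv1⟩ hv1
      have h5 : ξ v = 0 := h4
      rw [h5]
      exact (if_neg hne).symm
    · have hv' : v.1 = s q := hv
      have h6 : ψ q (res ξ (lev (Γ₀ := Fin m → ℤ) a (b + 1))) v = ξ (s q, v.2) := if_pos hv'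
      rw [h6, ← hv']
  let Φ : LinearMap.ker R →ₗ[Ω] ((q : (Fin m → ℤ) ⧸ Γ') → P5U k x (tr (s q) N) (s q)) :=
    LinearMap.pi fun q => LinearMap.codRestrict _
      ((ψ q).comp (L1.subtype.comp (LinearMap.ker R).subtype)) (hψmem q)
  have hΦ : Function.Injective Φ := by
    rw [injective_iff_map_eq_zero]
    rintro ⟨⟨η, hη⟩, hker⟩ h1
    apply Subtype.ext
    apply Subtype.ext
    have hker' := hRker _ hker
    obtain ⟨ξ, ⟨h2, h3⟩, rfl⟩ := (hL1mem η).1 hη
    funext v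
    obtain ⟨⟨⟨u, l⟩, i⟩, hv⟩ := v
    by_cases hl : l ≤ b
    · exact hker' ⟨((u, l), i), hv⟩ ⟨hv.1, hl⟩
    · have hl' : l = b + 1 := by
        have := hv.2
        simp only at this
        omega
      subst hl'
      have h4 : ((Φ ⟨⟨_, hη⟩, hker⟩ (QuotientAddGroup.mk u)).1 :
          ((Fin m → ℤ) × ℤ) × I → Ω) (s (QuotientAddGroup.mk u), i) = 0 := by
        rw [h1]
        rfl
      have h5 : ξ (s (QuotientAddGroup.mk u), i) = 0 := by
        rw [← h4]
        exact (if_pos rfl).symm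
      have h6 : -(Quotient.out (QuotientAddGroup.mk u : (Fin m → ℤ) ⧸ Γ')) + u ∈ Γ' :=
        QuotientAddGroup.eq.1 (Quotient.out_eq _)
      have h7 := h2 (-(Quotient.out (QuotientAddGroup.mk u : (Fin m → ℤ) ⧸ Γ')) + u, 0) (by
        rw [AddSubgroup.mem_prod]
        exact ⟨h6, AddSubgroup.mem_bot.2 rfl⟩) (s (QuotientAddGroup.mk u), i)
      have h8 : ((-(Quotient.out (QuotientAddGroup.mk u : (Fin m → ℤ) ⧸ Γ')) + u, (0 : ℤ)) +
          s (QuotientAddGroup.mk u)) = (u, b + 1) := by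
        show ((-(Quotient.out (QuotientAddGroup.mk u : (Fin m → ℤ) ⧸ Γ')) + u, (0 : ℤ)) +
          (Quotient.out (QuotientAddGroup.mk u : (Fin m → ℤ) ⧸ Γ'), b + 1)) = _
        rw [Prod.mk_add_mk]
        congr 1
        · abel
        · ring
      simp only at h7
      rw [h8, h5] at h7
      exact h7
  haveI : Module.Finite Ω (LinearMap.ker R) := Module.Finite.of_injective Φ hΦ
  haveI : Module.Finite Ω (L1 ⧸ LinearMap.ker R) :=
    Module.Finite.equiv (LinearMap.quotKerEquivRange R).symm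
  haveI : Module.Finite Ω L1 := Module.Finite.of_submodule_quotient (LinearMap.ker R)
  have hker_le : Module.finrank Ω (LinearMap.ker R) ≤ Γ'.index * rhoP Z N := by
    have h1 := LinearMap.finrank_le_finrank_of_injective hΦ
    rw [Module.finrank_pi_fintype] at h1
    have h2 : ∀ q : (Fin m → ℤ) ⧸ Γ', Module.finrank Ω (P5U k x (tr (s q) N) (s q)) =
        rhoP Z N := fun q => P5U_finrank Z hD.finN h0 (s q) (hgen (s q) rfl)
    rw [Finset.sum_congr rfl (fun q _ => h2 q), Finset.sum_const, Finset.card_univ,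
      smul_eq_mul, ← Nat.card_eq_fintype_card] at h1
    exact h1
  have hrange_le : Module.finrank Ω (LinearMap.range R) ≤ trdOn k x (lev a b) := by
    rw [← hTrank]
    exact Submodule.finrank_le _
  have hsum := LinearMap.finrank_range_add_finrank_ker R
  have hWeq : W = L1 := by
    apply Submodule.eq_of_le_of_finrank_le hWL
    rw [hWrank, htr]
    omega
  intro ξ hξ
  have h1 : res ξ (lev (Γ₀ := Fin m → ℤ) a (b + 1)) ∈ L1 := (hL1mem _).2 ⟨ξ, hξ, rfl⟩
  rw [← hWeq] at h1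
  exact h1

end Pool.Agent.ORG
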