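import Pool.Agent.ORG.Defs
import Pool.Agent.ORG.S1
import Pool.Agent.ORG.P0
import Pool.Agent.ORG.P2

/-!
# MP_08a057_al, ORG module P5b : (7.5) extension of local solutions to bigger regions, fullness of sub-regions
(paper: /team-store/ORG_paper.md)
-/

set_option autoImplicit false

namespace Pool.Agent.ORG

open MvPolynomial

variable {k Ω : Type} [Field k] [CharZero k] [Field Ω] [Algebra k Ω] {I : Type} [Finite I] {m : ℕ}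

open Sys

theorem p5b_up (Z : Sys k ((Fin m → ℤ) × ℤ) I) {N Nm : Set ((Fin m → ℤ) × ℤ)} {c : ℕ}
    (hD : DirData Z N Nm c) (n0 : ℕ) (hn : ∀ v ∈ N ∪ Nm, v.1 ∈ ball m n0) (C : ℕ) (hC : c ≤ C)
    (cw h : ℕ) (hw : (Z.slab C).IsWin cw) (hh1 : 2 * cw + 1 ≤ h) (hh2 : 2 * n0 ≤ h)
    (Γ' : AddSubgroup (Fin m → ℤ)) [Γ'.FiniteIndex]
    {x : ((Fin m → ℤ) × ℤ) × I → Ω} (hper : Per0 Γ' x) (a b : ℤ)
    (hab : a + C ≤ b) (n : ℕ)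
    (hgen : ∀ t : ℤ, a ≤ t → t + C ≤ b + n → ∀ γ : Fin m → ℤ,
      Z.Gen x (sl (tr γ (cubeW m h n0)) t (t + C)))
    {ξ : ((Fin m → ℤ) × ℤ) × I → Ω} (hξ : Lsol k C h Γ' x a b ξ) :
    ∃ ξ' : ((Fin m → ℤ) × ℤ) × I → Ω, Lsol k C h Γ' x a (b + n) ξ' ∧
      ∀ v, v.1 ∈ lev a b → ξ' v = ξ v := by
  induction n with
  | zero =>
    refine ⟨ξ, ?_, fun _ _ => rfl⟩
    simpa using hξ
  | succ n ih =>
    obtain ⟨ξ₁, h1, h2⟩ := ih (fun t h1 h2 γ => hgen t h1 (by push_cast; omega) γ)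
    have e : b + ((n + 1 : ℕ) : ℤ) = b + n + 1 := by push_cast; ring
    obtain ⟨ξ₂, h3, h4⟩ := lsol_extend_up Z hD n0 hn C hC cw h hw hh1 hh2 Γ' hper a (b + n)
      (by omega) (fun t h1 h2 γ => hgen t h1 (by rw [e]; exact h2) γ) h1
    refine ⟨ξ₂, by rw [e]; exact h3, fun v hv => ?_⟩
    rw [h4 v ⟨hv.1, hv.2.trans (by omega)⟩, h2 v hv]

theorem p5b_down (Z : Sys k ((Fin m → ℤ) × ℤ) I) {N Nm : Set ((Fin m → ℤ) × ℤ)} {c : ℕ}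
    (hD : DirData Z N Nm c) (n0 : ℕ) (hn : ∀ v ∈ N ∪ Nm, v.1 ∈ ball m n0) (C : ℕ) (hC : c ≤ C)
    (cw h : ℕ) (hw : (Z.slab C).IsWin cw) (hh1 : 2 * cw + 1 ≤ h) (hh2 : 2 * n0 ≤ h)
    (Γ' : AddSubgroup (Fin m → ℤ)) [Γ'.FiniteIndex]
    {x : ((Fin m → ℤ) × ℤ) × I → Ω} (hper : Per0 Γ' x) (a b : ℤ)
    (hab : a + C ≤ b) (n : ℕ)
    (hgen : ∀ t : ℤ, a - n ≤ t → t + C ≤ b → ∀ γ : Fin m → ℤ,
      Z.Gen x (sl (tr γ (cubeW m h n0)) t (t + C)))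
    {ξ : ((Fin m → ℤ) × ℤ) × I → Ω} (hξ : Lsol k C h Γ' x a b ξ) :
    ∃ ξ' : ((Fin m → ℤ) × ℤ) × I → Ω, Lsol k C h Γ' x (a - n) b ξ' ∧
      ∀ v, v.1 ∈ lev a b → ξ' v = ξ v := by
  induction n with
  | zero =>
    refine ⟨ξ, ?_, fun _ _ => rfl⟩
    simpa using hξ
  | succ n ih =>
    obtain ⟨ξ₁, h1, h2⟩ := ih (fun t h1 h2 γ => hgen t (by push_cast; omega) h2 γ)
    have e : a - ((n + 1 : ℕ) : ℤ) = a - n - 1 := by push_cast; ring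
    obtain ⟨ξ₂, h3, h4⟩ := lsol_extend_down Z hD n0 hn C hC cw h hw hh1 hh2 Γ' hper (a - n) b
      (by omega) (fun t h1 h2 γ => hgen t (by rw [e]; exact h1) h2 γ) h1
    refine ⟨ξ₂, by rw [e]; exact h3, fun v hv => ?_⟩
    rw [h4 v ⟨(show a - (n : ℤ) ≤ v.1.2 from le_trans (by omega) hv.1), hv.2⟩, h2 v hv]

theorem lsol_extend (Z : Sys k ((Fin m → ℤ) × ℤ) I) {N Nm : Set ((Fin m → ℤ) × ℤ)} {c : ℕ}
    (hD : DirData Z N Nm c) (n0 : ℕ) (hn : ∀ v ∈ N ∪ Nm, v.1 ∈ ball m n0) (C : ℕ) (hC : c ≤ C)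
    (cw h : ℕ) (hw : (Z.slab C).IsWin cw) (hh1 : 2 * cw + 1 ≤ h) (hh2 : 2 * n0 ≤ h)
    (Γ' : AddSubgroup (Fin m → ℤ)) [Γ'.FiniteIndex]
    {x : ((Fin m → ℤ) × ℤ) × I → Ω} (hper : Per0 Γ' x) (a' a b b' : ℤ) (ha : a' ≤ a)
    (hab : a + C ≤ b) (hb : b ≤ b')
    (hgen : ∀ t : ℤ, a' ≤ t → t + C ≤ b' → ∀ γ : Fin m → ℤ,
      Z.Gen x (sl (tr γ (cubeW m h n0)) t (t + C)))
    {ξ : ((Fin m → ℤ) × ℤ) × I → Ω} (hξ : Lsol k C h Γ' x a b ξ) :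
    ∃ ξ' : ((Fin m → ℤ) × ℤ) × I → Ω, Lsol k C h Γ' x a' b' ξ' ∧
      ∀ v, v.1 ∈ lev a b → ξ' v = ξ v := by
  obtain ⟨n, hn1⟩ := Int.eq_ofNat_of_zero_le (sub_nonneg.2 hb)
  obtain ⟨l, hl1⟩ := Int.eq_ofNat_of_zero_le (sub_nonneg.2 ha)
  have eb : b' = b + n := by omega
  have ea : a' = a - l := by omega
  subst eb ea
  obtain ⟨ξ₁, h1, h2⟩ := p5b_up Z hD n0 hn C hC cw h hw hh1 hh2 Γ' hper a b hab n
    (fun t h1 h2 γ => hgen t (ha.trans h1) h2 γ) hξ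
  obtain ⟨ξ₂, h3, h4⟩ := p5b_down Z hD n0 hn C hC cw h hw hh1 hh2 Γ' hper a (b + n) (by omega) l
    hgen h1
  refine ⟨ξ₂, h3, fun v hv => ?_⟩
  rw [h4 v ⟨hv.1, hv.2.trans hb⟩, h2 v hv]

theorem fullOn_sub (Z : Sys k ((Fin m → ℤ) × ℤ) I) {N Nm : Set ((Fin m → ℤ) × ℤ)} {c : ℕ}
    (hD : DirData Z N Nm c) (n0 : ℕ) (hn : ∀ v ∈ N ∪ Nm, v.1 ∈ ball m n0) (C : ℕ) (hC : c ≤ C)
    (cw h : ℕ) (hw : (Z.slab C).IsWin cw) (hh1 : 2 * cw + 1 ≤ h) (hh2 : 2 * n0 ≤ h)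
    (Γ' : AddSubgroup (Fin m → ℤ)) [Γ'.FiniteIndex]
    {x : ((Fin m → ℤ) × ℤ) × I → Ω} (hper : Per0 Γ' x) (a' a b b' : ℤ) (ha : a' ≤ a)
    (hab : a + C ≤ b) (hb : b ≤ b')
    (hgen : ∀ t : ℤ, a' ≤ t → t + C ≤ b' → ∀ γ : Fin m → ℤ,
      Z.Gen x (sl (tr γ (cubeW m h n0)) t (t + C)))
    (hfull : FullOn k C h Γ' x a' b') : FullOn k C h Γ' x a b := by
  intro ξ hξ
  obtain ⟨ξ', h1, h2⟩ := lsol_extend Z hD n0 hn C hC cw h hw hh1 hh2 Γ' hper a' a b b' ha hab hb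
    hgen hξ
  have h3 : TanOn k x (lev a b) ξ' :=
    (hfull ξ' h1).mono (fun v hv => ⟨ha.trans hv.1, hv.2.trans hb⟩)
  exact h3.congr (fun _ _ => rfl) h2

end Pool.Agent.ORG
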