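import Pool.Agent.ORG.Defs
import Pool.Agent.ORG.F1
import Pool.Agent.ORG.S1
import Pool.Agent.ORG.S2
import Pool.Agent.ORG.P0
import Pool.Agent.ORG.P2
import Pool.Agent.ORG.P3
import Pool.Agent.ORG.P4
import Pool.Agent.ORG.P5
import Pool.Agent.ORG.P5b
import Pool.Agent.ORG.C2

/-!
# MP_08a057_al, ORG module P6a : (7.6) one step of the continuation
(paper: /team-store/ORG_paper.md)
-/

set_option autoImplicit false

namespace Pool.Agent.ORG

open MvPolynomial

variable {k Ω : Type} [Field k] [CharZero k] [Field Ω] [Algebra k Ω] {I : Type} [Finite I] {m : ℕ}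

open Sys

omit [CharZero k] [Finite I] in
theorem p6a_trdOn_congr {x x' : ((Fin m → ℤ) × ℤ) × I → Ω} {A : Set ((Fin m → ℤ) × ℤ)}
    (h : ∀ v : ((Fin m → ℤ) × ℤ) × I, v.1 ∈ A → x v = x' v) : trdOn k x A = trdOn k x' A := by
  unfold trdOn
  have : res x A = res x' A := by
    funext v
    exact h v.1 v.2
  rw [this]

omit [Field k] [CharZero k] [Field Ω] [Algebra k Ω] [Finite I] in
theorem p6a_sl_mono {Q Q' : Set (Fin m → ℤ)} {a b a' b' : ℤ} (hQ : Q ⊆ Q') (ha : a' ≤ a)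
    (hb : b ≤ b') : sl Q a b ⊆ sl Q' a' b' :=
  fun _ hv => ⟨hQ hv.1, ha.trans hv.2.1, hv.2.2.trans hb⟩

omit [Field k] [CharZero k] [Field Ω] [Algebra k Ω] [Finite I] in
theorem p6a_cubeW (h n : ℕ) (γ : Fin m → ℤ) :
    tr γ (cubeW m h n) ⊆ Set.Icc (fun i => γ i - n) (fun i => γ i + h + n) := by
  intro u hu
  refine ⟨fun i => ?_, fun i => ?_⟩
  · have := (hu i).1
    simp only [Pi.sub_apply] at this
    show γ i - (n : ℤ) ≤ u i
    linarith
  · have := (hu i).2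
    simp only [Pi.sub_apply] at this
    show u i ≤ γ i + h + n
    linarith

omit [CharZero k] [Finite I] in
theorem p6a_fullOn_congr {C h : ℕ} {Γ' : AddSubgroup (Fin m → ℤ)}
    {x x' : ((Fin m → ℤ) × ℤ) × I → Ω} {a b : ℤ}
    (hxx : ∀ v : ((Fin m → ℤ) × ℤ) × I, v.1 ∈ (lev a b : Set ((Fin m → ℤ) × ℤ)) → x v = x' v)
    (hf : FullOn k C h Γ' x a b) : FullOn k C h Γ' x' a b := by
  intro ξ hξ
  refine (hf ξ ⟨hξ.1, fun γ t ht htb => ?_⟩).congr hxx (fun _ _ => rfl)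
  refine (hξ.2 γ t ht htb).congr (fun v hv => ?_) (fun _ _ => rfl)
  exact (hxx v ⟨ht.trans hv.2.1, hv.2.2.trans htb⟩).symm

/-- (7.2)-(7.6): one step -/
theorem state_step [IsAlgClosed Ω] (hΩ : Cardinal.aleph0 ≤ Algebra.trdeg k Ω)
    (Z : Sys k ((Fin m → ℤ) × ℤ) I) {N Nm : Set ((Fin m → ℤ) × ℤ)} {c : ℕ}
    (hD : DirData Z N Nm c) (n0 : ℕ) (hn : ∀ v ∈ N ∪ Nm, v.1 ∈ ball m n0) (C : ℕ) (hC : c ≤ C)
    (cw h h0 D : ℕ) (hw : (Z.slab C).IsWin cw) (hh1 : 2 * cw + 1 ≤ h) (hh2 : 2 * n0 ≤ h)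
    (hN2 : N2 (Z.slab C) Ω h0) (hh3 : h0 ≤ h) (hDh : h + 2 * h0 + 4 * n0 ≤ D)
    (Γ' : AddSubgroup (Fin m → ℤ)) [Γ'.FiniteIndex] (hsp : Sparse Γ' (ball m (D + h0)))
    {x : ((Fin m → ℤ) × ℤ) × I → Ω} (b : ℤ) (hb : (C : ℤ) ≤ b)
    (hS : State Z N C h D Γ' x 0 b)
    (hsites : ∀ s : (Fin m → ℤ) × ℤ, (C : ℤ) < s.2 → s.2 ≤ b → Z.Gen x (tr s N ∪ {s})) :
    ∃ x' : ((Fin m → ℤ) × ℤ) × I → Ω, (∀ v, v.1.2 ≠ b + 1 → x' v = x v) ∧
      State Z N C h D Γ' x' 0 (b + 1) ∧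
      (∀ s : (Fin m → ℤ) × ℤ, (C : ℤ) < s.2 → s.2 ≤ b + 1 → Z.Gen x' (tr s N ∪ {s})) := by
  have hcC : (c : ℤ) ≤ C := by exact_mod_cast hC
  have hDh' : (h : ℤ) + 2 * h0 + 4 * n0 ≤ D := by exact_mod_cast hDh
  have hlevN : ∀ v ∈ N, (0 : ℤ) ≤ v.2 + (b + 1) ∧ v.2 < 0 := by
    intro v hv
    have h1 := hD.levN v hv
    constructor
    · linarith [h1.1]
    · linarith [h1.2]
  have hgen0 : ∀ s : (Fin m → ℤ) × ℤ, s.2 = b + 1 → Z.Gen x (tr s N) := by
    intro s hs
    refine Gen.mono (hS.gen (b - C) (by linarith) (by linarith) (fun i => s.1 i - n0)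
      (fun i => s.1 i + n0) (fun i => by linarith)) ?_
    intro u hu
    have h1 := hn _ (Set.mem_union_left _ hu)
    have h2 := hD.levN _ hu
    simp only [Prod.snd_sub, Prod.fst_sub] at h1 h2
    refine ⟨⟨fun i => ?_, fun i => ?_⟩, ?_, ?_⟩
    · have := (h1 i).1
      simp only [Pi.sub_apply] at this
      show s.1 i - (n0 : ℤ) ≤ u.1 i
      linarith
    · have := (h1 i).2
      simp only [Pi.sub_apply] at this
      show u.1 i ≤ s.1 i + (n0 : ℤ)
      linarith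
    · linarith [h2.1]
    · linarith [h2.2]
  obtain ⟨x', hper', hoff, hgen', htr'⟩ := config_extend hΩ Z N hD.finN Γ' hS.per 0 b (by omega) hlevN hgen0
  have hxx : ∀ a' b' : ℤ, b' ≤ b → ∀ v : ((Fin m → ℤ) × ℤ) × I,
      v.1 ∈ (lev a' b' : Set ((Fin m → ℤ) × ℤ)) → x v = x' v := by
    intro a' b' hb' v hv
    refine (hoff v ?_).symm
    have := hv.2
    intro h1
    linarith
  have htr : trdOn k x' (lev 0 (b + 1)) = trdOn k x' (lev 0 b) + Γ'.index * rhoP Z N := by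
    rw [htr', p6a_trdOn_congr (hxx 0 b le_rfl)]
  have hfull0 : FullOn k C h Γ' x' 0 b := p6a_fullOn_congr (hxx 0 b le_rfl) hS.full
  have hfull1 : FullOn k C h Γ' x' 0 (b + 1) :=
    full_extend Z hD n0 hn C hC h hh2 Γ' hper' 0 b (by linarith) hgen' htr hfull0
  -- old windows
  have hold : ∀ t : ℤ, 0 ≤ t → t + C ≤ b → ∀ p q : Fin m → ℤ, (∀ i, q i - p i ≤ D) →
      Z.Gen x' (sl (Set.Icc p q) t (t + C)) := by
    intro t ht htb p q hpq
    refine Gen.congr (hS.gen t ht htb p q hpq) fun v hv => ?_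
    exact hxx t (t + C) htb v hv.2
  -- the new window, small boxes
  have hnew : ∀ p q : Fin m → ℤ, (∀ i, q i - p i + 2 * n0 ≤ D) →
      Z.Gen x' (sl (Set.Icc p q) (b + 1 - C) (b + 1)) := by
    intro p q hpq
    refine gen_new_window Z hD n0 hn Γ' hper' 0 b (b + 1 - C) (by linarith) (by linarith) hgen' htr
      D ?_ p q (fun i => ?_) ?_
    · intro u hu hu'
      refine hsp u (fun i => ?_) hu'
      have := hu i
      push_cast
      constructor
      · linarith [this.1, (Int.natCast_nonneg h0 : (0 : ℤ) ≤ (h0 : ℤ))]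
      · linarith [this.2, (Int.natCast_nonneg h0 : (0 : ℤ) ≤ (h0 : ℤ))]
    · have := hpq i
      linarith [(Int.natCast_nonneg n0 : (0 : ℤ) ≤ (n0 : ℤ))]
    · refine Gen.mono (hold (b - C) (by linarith) (by linarith) _ _ ?_)
        (p6a_sl_mono (Set.Subset.refl _) (by linarith) (by linarith))
      intro i
      have := hpq i
      linarith
  have hb1 : b + 1 - (C : ℤ) + C = b + 1 := by ring
  have hwin : ∀ t : ℤ, 0 ≤ t → t + C ≤ b + 1 → ∀ p q : Fin m → ℤ,
      (∀ i, q i - p i + 2 * n0 ≤ D) → Z.Gen x' (sl (Set.Icc p q) t (t + C)) := by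
    intro t ht htb p q hpq
    rcases eq_or_lt_of_le htb with h1 | h1
    · have h2 : t = b + 1 - C := by linarith
      rw [h2, hb1]
      exact hnew p q hpq
    · refine hold t ht (by linarith [Int.add_one_le_of_lt h1]) p q fun i => ?_
      have := hpq i
      linarith [(Int.natCast_nonneg n0 : (0 : ℤ) ≤ (n0 : ℤ))]
  have hsub : FullOn k C h Γ' x' (b + 1 - C) (b + 1) := by
    refine fullOn_sub Z hD n0 hn C hC cw h hw hh1 hh2 Γ' hper' 0 (b + 1 - C) (b + 1) (b + 1)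
      (by linarith) (by linarith) le_rfl ?_ hfull1
    intro t ht htb γ
    refine Gen.mono (hwin t ht htb (fun i => γ i - n0) (fun i => γ i + h + n0) fun i => ?_)
      (p6a_sl_mono (p6a_cubeW h n0 γ) le_rfl le_rfl)
    linarith [(Int.natCast_nonneg h0 : (0 : ℤ) ≤ (h0 : ℤ))]
  -- the new window, all boxes
  have hnew2 : ∀ p q : Fin m → ℤ, (∀ i, q i - p i ≤ D) →
      Z.Gen x' (sl (Set.Icc p q) (b + 1 - C) (b + 1)) := by
    intro p q hpq
    have h1 : (Z.slab C).Gen (wnd C (b + 1 - C) x') (Set.Icc p q) := by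
      refine hN2 h hh3 D Γ' inferInstance hsp (wnd C (b + 1 - C) x') (per_wnd Γ' C _ hper') ?_ ?_
        p q hpq
      · intro γ
        rw [slab_gen_iff, hb1]
        refine Gen.mono (hnew (fun i => γ i - h0) (fun i => γ i + h + h0) fun i => ?_)
          (p6a_sl_mono (p6a_cubeW h h0 γ) le_rfl le_rfl)
        linarith [(Int.natCast_nonneg n0 : (0 : ℤ) ≤ (n0 : ℤ))]
      · intro η hη hηt
        obtain ⟨ξ, rfl, hξper, -⟩ := wnd_surj C (b + 1 - C) η
        rw [slab_tan_iff]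
        have h2 := hsub ξ ⟨hξper Γ' hη, fun γ t ht htb => ?_⟩
        · rw [hb1]
          refine h2.mono ?_
          intro v hv
          exact hv.2
        · have h3 : t = b + 1 - C := le_antisymm (by linarith) ht
          subst h3
          exact (slab_tan_iff C (b + 1 - C) x' ξ _).mp (hηt γ)
    rw [slab_gen_iff, hb1] at h1
    exact h1
  refine ⟨x', hoff, ⟨hper', ?_, hfull1, ?_⟩, ?_⟩
  · intro t ht htb p q hpq
    rcases eq_or_lt_of_le htb with h1 | h1
    · have h2 : t = b + 1 - C := by linarith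
      rw [h2, hb1]
      exact hnew2 p q hpq
    · exact hold t ht (by linarith [Int.add_one_le_of_lt h1]) p q hpq
  · intro l hl hlb
    rcases eq_or_lt_of_le hlb with h1 | h1
    · subst h1
      rw [add_sub_cancel_right]
      exact htr
    · have h2 : l ≤ b := by linarith [Int.add_one_le_of_lt h1]
      rw [← p6a_trdOn_congr (hxx 0 l h2), ← p6a_trdOn_congr (hxx 0 (l - 1) (by linarith))]
      exact hS.trd l hl h2
  · intro s hs1 hs2
    rcases eq_or_lt_of_le hs2 with h1 | h1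
    · exact hgen' s h1
    · have h2 : s.2 ≤ b := by linarith [Int.add_one_le_of_lt h1]
      refine Gen.congr (hsites s hs1 h2) fun v hv => ?_
      refine (hoff v ?_).symm
      rcases hv with hv | hv
      · have h3 := (hD.levN _ hv).2
        simp only [Prod.snd_sub] at h3
        intro h4
        linarith
      · have h3 : v.1 = s := hv
        rw [h3]
        intro h4
        linarith

end Pool.Agent.ORG
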