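import Pool.Agent.ORG.Defs
import Pool.Agent.ORG.F1
import Pool.Agent.ORG.S1
import Pool.Agent.ORG.S2
import Pool.Agent.ORG.B1
import Pool.Agent.ORG.P0
import Pool.Agent.ORG.P2
import Pool.Agent.ORG.P5b
import Pool.Agent.ORG.P6a
import Pool.Agent.ORG.C2

/-!
# MP_08a057_al, ORG module P6 : (7.7): the state can be continued for ever
(paper: /team-store/ORG_paper.md)
-/

set_option autoImplicit false

namespace Pool.Agent.ORG

open MvPolynomial

variable {k Ω : Type} [Field k] [CharZero k] [Field Ω] [Algebra k Ω] {I : Type} [Finite I] {m : ℕ}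

open Sys

theorem p6_ball (S : Set ((Fin m → ℤ) × ℤ)) (hS : S.Finite) :
    ∃ n0 : ℕ, ∀ v ∈ S, v.1 ∈ ball m n0 := by
  induction S, hS using Set.Finite.induction_on with
  | empty => exact ⟨0, fun v hv => absurd hv (Set.notMem_empty v)⟩
  | @insert a s _ _ ih =>
    obtain ⟨n, hn⟩ := ih
    refine ⟨n + ∑ i, (a.1 i).natAbs, fun v hv i => ?_⟩
    rcases Set.mem_insert_iff.mp hv with rfl | hv
    · have h1 : (v.1 i).natAbs ≤ ∑ i, (v.1 i).natAbs :=
        Finset.single_le_sum (f := fun i => (v.1 i).natAbs) (fun _ _ => Nat.zero_le _)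
          (Finset.mem_univ i)
      constructor <;> omega
    · have h1 := hn v hv i
      constructor
      · have := h1.1
        push_cast
        have h2 : (0 : ℤ) ≤ ∑ i, ((a.1 i).natAbs : ℤ) := Finset.sum_nonneg fun _ _ => by positivity
        push_cast at h2
        linarith
      · have := h1.2
        push_cast
        have h2 : (0 : ℤ) ≤ ∑ i, ((a.1 i).natAbs : ℤ) := Finset.sum_nonneg fun _ _ => by positivity
        push_cast at h2
        linarith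

theorem p6_ball_mono {n n' : ℕ} (h : n ≤ n') : ball m n ⊆ ball m n' := by
  intro u hu i
  have := hu i
  constructor <;> omega

theorem p6_icc (p q : Fin m → ℤ) (D D2 : ℕ) (hD : D ≤ D2) (h : ∀ i, q i - p i ≤ D) :
    Set.Icc p q ⊆ tr p (cube m D2) := by
  intro u hu i
  have h1 : p i ≤ u i := hu.1 i
  have h2 : u i ≤ q i := hu.2 i
  have h3 := h i
  simp only [Pi.sub_apply]
  constructor <;> omega

theorem p6_cubeW (h n0 : ℕ) (γ : Fin m → ℤ) :
    tr γ (cubeW m h n0) ⊆ Set.Icc (fun i => γ i - n0) (fun i => γ i + h + n0) := by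
  intro u hu
  constructor
  · intro i
    have := hu i
    simp only [Pi.sub_apply] at this
    show γ i - n0 ≤ u i
    omega
  · intro i
    have := hu i
    simp only [Pi.sub_apply] at this
    show u i ≤ γ i + h + n0
    omega

theorem p6_sl_mono {Q Q' : Set (Fin m → ℤ)} (h : Q ⊆ Q') (a b : ℤ) : sl Q a b ⊆ sl Q' a b :=
  fun _ hv => ⟨h hv.1, hv.2⟩

omit [CharZero k] [Finite I] in
/-- genericity on the windows from the state -/
theorem p6_gen {Z : Sys k ((Fin m → ℤ) × ℤ) I} {N : Set ((Fin m → ℤ) × ℤ)} {C h D : ℕ}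
    {Γ' : AddSubgroup (Fin m → ℤ)} {x : ((Fin m → ℤ) × ℤ) × I → Ω} {b : ℤ}
    (hS : State Z N C h D Γ' x 0 b) (n0 : ℕ) (hDh : h + 2 * n0 ≤ D) (t : ℤ) (ht : 0 ≤ t)
    (htb : t + C ≤ b) (γ : Fin m → ℤ) : Z.Gen x (sl (tr γ (cubeW m h n0)) t (t + C)) := by
  refine Gen.mono (hS.gen t ht htb (fun i => γ i - n0) (fun i => γ i + h + n0) (fun i => ?_))
    (p6_sl_mono (p6_cubeW h n0 γ) _ _)
  omega

omit [CharZero k] [Finite I] in
theorem p6_lsol_congr {C h : ℕ} {Γ' : AddSubgroup (Fin m → ℤ)}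
    {x y : ((Fin m → ℤ) × ℤ) × I → Ω} {a b : ℤ} (hxy : ∀ v, v.1.2 ≤ b → x v = y v)
    {ξ : ((Fin m → ℤ) × ℤ) × I → Ω} (hξ : Lsol k C h Γ' x a b ξ) : Lsol k C h Γ' y a b ξ :=
  ⟨hξ.1, fun γ t ha hb => TanOn.congr (hξ.2 γ t ha hb)
    (fun v hv => hxy v (le_trans hv.2.2 hb)) (fun _ _ => rfl)⟩

omit [CharZero k] [Finite I] in
theorem p6_state_congr {Z : Sys k ((Fin m → ℤ) × ℤ) I} {N : Set ((Fin m → ℤ) × ℤ)} {C h D : ℕ}
    {Γ' : AddSubgroup (Fin m → ℤ)} {x y : ((Fin m → ℤ) × ℤ) × I → Ω} {b : ℤ}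
    (hS : State Z N C h D Γ' x 0 b) (hy : Per0 Γ' y) (hxy : ∀ v, v.1.2 ≤ b → x v = y v) :
    State Z N C h D Γ' y 0 b where
  per := hy
  gen := fun t h1 h2 p q hpq => Gen.congr (hS.gen t h1 h2 p q hpq)
    (fun v hv => hxy v (le_trans hv.2.2 h2))
  full := fun ξ hξ => TanOn.congr (hS.full ξ (p6_lsol_congr (fun v hv => (hxy v hv).symm) hξ))
    (fun v hv => hxy v hv.2) (fun _ _ => rfl)
  trd := fun l h1 h2 => by
    have e : ∀ l' : ℤ, l' ≤ b → res x (lev 0 l') = res y (lev 0 l') := fun l' hl' => by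
      funext v
      exact hxy v.1 (le_trans v.2.2 hl')
    have := hS.trd l h1 h2
    unfold trdOn at this ⊢
    rw [← e l h2, ← e (l - 1) (by omega)]
    exact this

/-- the initial state -/
theorem p6_init (Z : Sys k ((Fin m → ℤ) × ℤ) I) (N : Set ((Fin m → ℤ) × ℤ)) (C h D D2 : ℕ)
    (hD2 : D ≤ D2) (Γ' : AddSubgroup (Fin m → ℤ)) (x : ((Fin m → ℤ) × ℤ) × I → Ω)
    (hper : Per0 Γ' x) (hgen : ∀ γ, (Z.slab C).Gen (wnd C 0 x) (tr γ (cube m D2)))
    (hfull : Full k Γ' (cube m h) (wnd C 0 x)) : State Z N C h D Γ' x 0 C where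
  per := hper
  gen := fun t h1 h2 p q hpq => by
    have ht : t = 0 := by omega
    subst ht
    exact (slab_gen_iff Z C 0 x _).mp (Gen.mono (hgen p) (p6_icc p q D D2 hD2 hpq))
  full := fun ξ hξ => by
    have h1 := hfull (wnd C 0 ξ) (per_wnd Γ' C 0 hξ.1) (fun γ =>
      (slab_tan_iff C 0 x ξ _).mpr (hξ.2 γ 0 le_rfl (by omega)))
    have h2 := (slab_tan_iff C 0 x ξ _).mp h1
    refine TanOn.mono h2 ?_
    intro v hv
    exact ⟨Set.mem_univ _, by simpa using hv.1, by simpa using hv.2⟩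
  trd := fun l h1 h2 => by
    exfalso
    omega

/-- (7.7) -/
theorem exists_states [IsAlgClosed Ω] (hΩ : Cardinal.aleph0 ≤ Algebra.trdeg k Ω)
    (Z : Sys k ((Fin m → ℤ) × ℤ) I) {N Nm : Set ((Fin m → ℤ) × ℤ)} {c : ℕ}
    (hD : DirData Z N Nm c) (C : ℕ) (hC : c ≤ C) (hP : (Z.slab C).Proj) :
    ∃ h1 : ℕ, ∀ h : ℕ, h1 ≤ h → ∃ D1 : ℕ, ∀ D : ℕ, D1 ≤ D → ∃ D2 : ℕ,
      ∀ (Γ' : AddSubgroup (Fin m → ℤ)), Γ'.FiniteIndex → Sparse Γ' (ball m D2) →
      ∀ x0 : (Fin m → ℤ) × (Fin (C + 1) × I) → Ω, Per Γ' x0 →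
      (∀ γ, (Z.slab C).Gen x0 (tr γ (cube m D2))) → Full k Γ' (cube m h) x0 →
      ∃ x : ((Fin m → ℤ) × ℤ) × I → Ω, wnd C 0 x = x0 ∧
        (∀ b : ℕ, C ≤ b → State Z N C h D Γ' x 0 b) ∧
        (∀ s : (Fin m → ℤ) × ℤ, (C : ℤ) < s.2 → Z.Gen x (tr s N ∪ {s})) ∧
        (∀ a b : ℤ, 0 ≤ a → a + C ≤ b → FullOn k C h Γ' x a b) ∧
        (∀ a b a' b' : ℤ, 0 ≤ a' → a' ≤ a → a + C ≤ b → b ≤ b' → ∀ ξ, Lsol k C h Γ' x a b ξ →
          ∃ ξ', Lsol k C h Γ' x a' b' ξ' ∧ ∀ v, v.1 ∈ lev a b → ξ' v = ξ v) := by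
  obtain ⟨cw, hw⟩ := exists_isWin (Z.slab C)
  obtain ⟨n0, hn⟩ := p6_ball (N ∪ Nm) (hD.finN.union hD.finNm)
  obtain ⟨h0, hN2⟩ := exists_N2 (Z.slab C) hP Ω
  refine ⟨2 * cw + 1 + 2 * n0 + h0, fun h hh => ⟨h + 2 * h0 + 4 * n0, fun D hDD =>
    ⟨D + h0, fun Γ' hΓ hsp x0 hper hgen hfull => ?_⟩⟩⟩
  haveI := hΓ
  obtain ⟨y, hy, hyper, -⟩ := wnd_surj (m := m) C 0 x0
  have hyP : Per0 Γ' y := hyper Γ' hper
  have hS0 : State Z N C h D Γ' y 0 C :=
    p6_init Z N C h D (D + h0) (Nat.le_add_right _ _) Γ' y hyP (by rw [hy]; exact hgen)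
      (by rw [hy]; exact hfull)
  -- the property which is carried along
  let P : ℕ → (((Fin m → ℤ) × ℤ) × I → Ω) → Prop := fun n x =>
    State Z N C h D Γ' x 0 ((C : ℤ) + n) ∧
      ∀ s : (Fin m → ℤ) × ℤ, (C : ℤ) < s.2 → s.2 ≤ (C : ℤ) + n → Z.Gen x (tr s N ∪ {s})
  have hstep : ∀ n x, P n x → ∃ x' : ((Fin m → ℤ) × ℤ) × I → Ω,
      (∀ v, v.1.2 ≠ (C : ℤ) + n + 1 → x' v = x v) ∧ P (n + 1) x' := by
    intro n x hx
    obtain ⟨x', h1, h2, h3⟩ := state_step hΩ Z hD n0 hn C hC cw h h0 D hw (by omega) (by omega)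
      hN2 (by omega) hDD Γ' hsp ((C : ℤ) + n) (by omega) hx.1 hx.2
    refine ⟨x', h1, ?_, ?_⟩
    · have e : (C : ℤ) + ((n + 1 : ℕ) : ℤ) = (C : ℤ) + n + 1 := by push_cast; ring
      rw [e]
      exact h2
    · intro s hs1 hs2
      exact h3 s hs1 (by push_cast at hs2; linarith)
  have hP0 : P 0 y := by
    refine ⟨?_, ?_⟩
    · have e : (C : ℤ) + ((0 : ℕ) : ℤ) = (C : ℤ) := by simp
      rw [e]
      exact hS0
    · intro s hs1 hs2
      exfalso
      push_cast at hs2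
      omega
  let X : (n : ℕ) → {x : ((Fin m → ℤ) × ℤ) × I → Ω // P n x} := fun n =>
    Nat.rec ⟨y, hP0⟩ (fun n x => ⟨Classical.choose (hstep n x.1 x.2),
      (Classical.choose_spec (hstep n x.1 x.2)).2⟩) n
  have hX : ∀ (n : ℕ) v, v.1.2 ≠ (C : ℤ) + n + 1 → (X (n + 1)).1 v = (X n).1 v := fun n =>
    (Classical.choose_spec (hstep n (X n).1 (X n).2)).1
  have hX0 : (X 0).1 = y := rfl
  -- stabilisation
  have hst : ∀ (n j : ℕ) v, v.1.2 ≤ (C : ℤ) + n → (X (n + j)).1 v = (X n).1 v := by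
    intro n j v hv
    induction j with
    | zero => rfl
    | succ j ih =>
      rw [← ih, ← add_assoc]
      refine hX (n + j) v ?_
      push_cast
      omega
  let x : ((Fin m → ℤ) × ℤ) × I → Ω := fun v => (X (v.1.2 - C).toNat).1 v
  have hx : ∀ (n : ℕ) v, v.1.2 ≤ (C : ℤ) + n → (X n).1 v = x v := by
    intro n v hv
    have h1 : (v.1.2 - C).toNat ≤ n := by omega
    have h2 := hst (v.1.2 - C).toNat (n - (v.1.2 - C).toNat) v (by omega)
    rw [Nat.add_sub_cancel' h1] at h2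
    exact h2
  have hxper : Per0 Γ' x := by
    intro γ hγ v
    have hγ2 : γ.2 = 0 := by
      have := (AddSubgroup.mem_prod.mp hγ).2
      exact this
    have e : (γ + v.1).2 = v.1.2 := by
      rw [Prod.snd_add, hγ2, zero_add]
    show (X ((γ + v.1).2 - C).toNat).1 (γ + v.1, v.2) = (X (v.1.2 - C).toNat).1 v
    rw [e]
    exact (X (v.1.2 - C).toNat).2.1.per γ hγ v
  have hstate : ∀ b : ℕ, C ≤ b → State Z N C h D Γ' x 0 b := by
    intro b hb
    have h1 := (X (b - C)).2.1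
    have e : (C : ℤ) + ((b - C : ℕ) : ℤ) = (b : ℤ) := by omega
    rw [e] at h1
    exact p6_state_congr h1 hxper (fun v hv => hx (b - C) v (by omega))
  have hgenx : ∀ b : ℤ, (C : ℤ) ≤ b → ∀ t : ℤ, 0 ≤ t → t + C ≤ b → ∀ γ : Fin m → ℤ,
      Z.Gen x (sl (tr γ (cubeW m h n0)) t (t + C)) := by
    intro b hb t ht htb γ
    have h1 := hstate b.toNat (by omega)
    exact p6_gen h1 n0 (by omega) t ht (by omega) γ
  refine ⟨x, ?_, hstate, ?_, ?_, ?_⟩
  · rw [← hy]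
    funext v
    have h1 := v.2.1.isLt
    have h2 := hx 0 ((v.1, 0 + (v.2.1.val : ℤ)), v.2.2) (by
      show (0 : ℤ) + (v.2.1.val : ℤ) ≤ (C : ℤ) + ((0 : ℕ) : ℤ)
      omega)
    rw [hX0] at h2
    exact h2.symm
  · intro s hs
    have h1 := (X (s.2 - C).toNat).2.2 s hs (by omega)
    refine Gen.congr h1 (fun v hv => hx _ v ?_)
    rcases hv with hv | hv
    · have h2 := (hD.levN _ hv).2
      have h3 : (v.1 - s).2 = v.1.2 - s.2 := rfl
      rw [h3] at h2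
      omega
    · have h2 : v.1 = s := hv
      rw [h2]
      omega
  · intro a b ha hab
    have h1 := hstate b.toNat (by omega)
    have hb0 : ((b.toNat : ℕ) : ℤ) = b := Int.toNat_of_nonneg (by omega)
    rw [hb0] at h1
    exact fullOn_sub Z hD n0 hn C hC cw h hw (by omega) (by omega) Γ' hxper 0 a b b ha hab le_rfl
      (hgenx b (by omega)) h1.full
  · intro a b a' b' ha' haa hab hbb ξ hξ
    exact lsol_extend Z hD n0 hn C hC cw h hw (by omega) (by omega) Γ' hxper a' a b b' haa hab hbb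
      (fun t ht htb γ => hgenx b' (by omega) t (by omega) htb γ) hξ

end Pool.Agent.ORG
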