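import Pool.Agent.ORG.Defs
import Pool.Agent.ORG.F1
import Pool.Agent.ORG.F3
import Pool.Agent.ORG.F4
import Pool.Agent.ORG.F5
import Pool.Agent.ORG.S1
import Pool.Agent.ORG.P0

/-!
# MP_08a057_al, ORG module P7 : section 8: pigeonhole
(paper: /team-store/ORG_paper.md)
-/

set_option autoImplicit false

namespace Pool.Agent.ORG

open MvPolynomial

namespace P7

section gp

variable {k J : Type} [Field k] (q : Ideal (MvPolynomial J k)) [hq : q.IsPrime]

/-- the generic point of a prime ideal -/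
noncomputable def gpt : J → FractionRing (MvPolynomial J k ⧸ q) := fun j =>
  algebraMap _ _ (Ideal.Quotient.mk q (X j))

theorem gpt_spec (P : MvPolynomial J k) : aeval (gpt q) P = 0 ↔ P ∈ q := by
  have h : (aeval (gpt q) : MvPolynomial J k →ₐ[k] FractionRing (MvPolynomial J k ⧸ q)) =
      (IsScalarTower.toAlgHom k (MvPolynomial J k ⧸ q) (FractionRing (MvPolynomial J k ⧸ q))).comp
        (Ideal.Quotient.mkₐ k q) := by
    apply MvPolynomial.algHom_ext
    intro j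
    rw [aeval_X]
    rfl
  rw [h]
  show algebraMap (MvPolynomial J k ⧸ q) (FractionRing (MvPolynomial J k ⧸ q))
    (Ideal.Quotient.mk q P) = 0 ↔ _
  rw [FaithfulSMul.algebraMap_eq_zero_iff, Ideal.Quotient.eq_zero_iff_mem]

end gp

variable {k Ω : Type} [Field k] [Field Ω] [Algebra k Ω] {I : Type} {m : ℕ}

/-- the relations of a family -/
noncomputable def rels {J : Type} (k : Type) [Field k] [Algebra k Ω] (y : J → Ω) :
    Ideal (MvPolynomial J k) :=
  RingHom.ker (aeval y : MvPolynomial J k →ₐ[k] Ω)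

theorem mem_rels {J : Type} (y : J → Ω) (P : MvPolynomial J k) :
    P ∈ rels k y ↔ aeval y P = 0 := Iff.rfl

theorem rels_prime {J : Type} (y : J → Ω) : (rels k y).IsPrime := RingHom.ker_isPrime _

theorem sameRel_of_rels {J : Type} {y y' : J → Ω} (h : rels k y = rels k y') :
    SameRel k y y' := fun P => by
  rw [← mem_rels, ← mem_rels, h]

omit [Field Ω] in
theorem per_eq {Γ' : AddSubgroup (Fin m → ℤ)} {x : ((Fin m → ℤ) × ℤ) × I → Ω} (hper : Per0 Γ' x)
    {u u' : Fin m → ℤ} (h : (QuotientAddGroup.mk u : (Fin m → ℤ) ⧸ Γ') = QuotientAddGroup.mk u')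
    (l : ℤ) (i : I) : x ((u, l), i) = x ((u', l), i) := by
  have h1 : -u + u' ∈ Γ' := QuotientAddGroup.eq.1 h
  have h2 := hper (-u + u', 0) ⟨h1, rfl⟩ ((u, l), i)
  rw [← h2]
  congr 2
  ext1
  · show -u + u' + u = u'
    abel
  · show 0 + l = l
    ring

/-- the finite family of the letters on the levels `t..t+G` -/
noncomputable def yf (Γ' : AddSubgroup (Fin m → ℤ)) (G : ℕ) (x : ((Fin m → ℤ) × ℤ) × I → Ω)
    (t : ℤ) : ((Fin m → ℤ) ⧸ Γ') × Fin (G + 1) × I → Ω :=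
  fun j => x ((Quotient.out j.1, t + (j.2.1.val : ℤ)), j.2.2)

theorem yf_mk {Γ' : AddSubgroup (Fin m → ℤ)} {G : ℕ} {x : ((Fin m → ℤ) × ℤ) × I → Ω}
    (hper : Per0 Γ' x) (t : ℤ) (u : Fin m → ℤ) (s : Fin (G + 1)) (i : I) :
    yf Γ' G x t (QuotientAddGroup.mk u, s, i) = x ((u, t + (s.val : ℤ)), i) := by
  unfold yf
  refine per_eq hper ?_ _ _
  exact Quotient.out_eq _

/-- the letters on the levels `0..G` -/
def e0 (Γ' : AddSubgroup (Fin m → ℤ)) (G : ℕ) (I : Type) (v : Ix I (lev (Γ₀ := Fin m → ℤ) 0 G)) :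
    ((Fin m → ℤ) ⧸ Γ') × Fin (G + 1) × I :=
  (QuotientAddGroup.mk v.1.1.1, ⟨v.1.1.2.toNat, by
    have h := v.2
    have h1 : 0 ≤ v.1.1.2 := h.1
    have h2 : v.1.1.2 ≤ G := h.2
    omega⟩, v.1.2)

theorem res_up {Γ' : AddSubgroup (Fin m → ℤ)} {G : ℕ} {x : ((Fin m → ℤ) × ℤ) × I → Ω}
    (hper : Per0 Γ' x) (t : ℤ) : res (up t x) (lev 0 G) = yf Γ' G x t ∘ e0 Γ' G I := by
  funext v
  have h := v.2
  have h1 : 0 ≤ v.1.1.2 := h.1
  show x ((v.1.1.1, v.1.1.2 + t), v.1.2) = yf Γ' G x t (QuotientAddGroup.mk v.1.1.1, _, v.1.2)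
  rw [yf_mk hper]
  congr 3
  show v.1.1.2 + t = t + ((v.1.1.2.toNat : ℕ) : ℤ)
  rw [Int.toNat_of_nonneg h1]
  ring

/-- the window -/
abbrev W0 (m h C : ℕ) : Set ((Fin m → ℤ) × ℤ) := sl (cube m h) 0 C

/-- placing the window -/
def e1 (Γ' : AddSubgroup (Fin m → ℤ)) (G : ℕ) (I : Type) {h C : ℕ} (γ : Fin m → ℤ) (s : ℕ)
    (hs : s + C ≤ G) (v : Ix I (W0 m h C)) : ((Fin m → ℤ) ⧸ Γ') × Fin (G + 1) × I :=
  (QuotientAddGroup.mk (γ + v.1.1.1), ⟨s + v.1.1.2.toNat, by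
    have h := v.2.2
    have h1 : 0 ≤ v.1.1.2 := h.1
    have h2 : v.1.1.2 ≤ (C : ℤ) := h.2
    omega⟩, v.1.2)

theorem yf_e1 {Γ' : AddSubgroup (Fin m → ℤ)} {G h C : ℕ} {x : ((Fin m → ℤ) × ℤ) × I → Ω}
    (hper : Per0 Γ' x) (t : ℤ) (γ : Fin m → ℤ) (s : ℕ) (hs : s + C ≤ G) :
    yf Γ' G x t ∘ e1 Γ' G I (h := h) γ s hs =
      res (fun v => x ((γ, t + s) + v.1, v.2)) (W0 m h C) := by
  funext v
  have h1 : 0 ≤ v.1.1.2 := v.2.2.1
  show yf Γ' G x t (QuotientAddGroup.mk (γ + v.1.1.1), _, v.1.2) = x ((γ, t + s) + v.1.1, v.1.2)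
  rw [yf_mk hper]
  congr 1
  ext1
  · ext1
    · rfl
    · show t + ((s + v.1.1.2.toNat : ℕ) : ℤ) = t + s + v.1.1.2
      push_cast
      rw [Int.toNat_of_nonneg h1]
      ring
  · rfl

theorem tr_W0 (h C : ℕ) (γ : Fin m → ℤ) (t : ℤ) :
    tr (γ, t) (W0 m h C) = sl (tr γ (cube m h)) t (t + C) := by
  ext v
  show (v.1 - γ ∈ cube m h ∧ 0 ≤ v.2 - t ∧ v.2 - t ≤ C) ↔ (v.1 - γ ∈ cube m h ∧ t ≤ v.2 ∧ v.2 ≤ t + C)
  constructor
  · rintro ⟨a, b, c⟩
    exact ⟨a, by linarith, by linarith⟩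
  · rintro ⟨a, b, c⟩
    exact ⟨a, by linarith, by linarith⟩

end P7

open P7

variable {k Ω : Type} [Field k] [CharZero k] [Field Ω] [Algebra k Ω] {I : Type} [Finite I] {m : ℕ}

open Sys

/-- section 8: among the windows `[t,t+G]` of a full configuration two distant ones have the same
relations -/
theorem exists_same_window (Z : Sys k ((Fin m → ℤ) × ℤ) I) (C h G : ℕ) (hG : C ≤ G)
    (Γ' : AddSubgroup (Fin m → ℤ)) [Γ'.FiniteIndex] {x : ((Fin m → ℤ) × ℤ) × I → Ω}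
    (hper : Per0 Γ' x)
    (hgen : ∀ (γ : Fin m → ℤ) (t : ℤ), 0 ≤ t → Z.Gen x (sl (tr γ (cube m h)) t (t + C)))
    (hfull : ∀ a b : ℤ, 0 ≤ a → a + C ≤ b → FullOn k C h Γ' x a b) (M0 : ℕ) :
    ∃ (t M : ℕ), M0 ≤ M ∧
      SameRel k (res (up (t : ℤ) x) (lev 0 G)) (res (up ((t : ℤ) + M) x) (lev 0 G)) := by
  -- genericity of the windows
  have F1 : ∀ (γ : Fin m → ℤ) (t : ℤ), 0 ≤ t →
      SameRel k (res Z.z (W0 m h C)) (res (fun v => x ((γ, t) + v.1, v.2)) (W0 m h C)) := by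
    intro γ t ht
    have h1 := hgen γ t ht
    rw [← tr_W0, gen_tr] at h1
    exact h1
  set JJ : Ideal (MvPolynomial (((Fin m → ℤ) ⧸ Γ') × Fin (G + 1) × I) k) :=
    Ideal.span {f | ∃ (γ : Fin m → ℤ) (s : ℕ) (hs : s + C ≤ G)
      (P : MvPolynomial (Ix I (W0 m h C)) k), aeval (res Z.z (W0 m h C)) P = 0 ∧
        f = rename (e1 Γ' G I γ s hs) P} with hJJ
  have F2 : ∀ t : ℤ, 0 ≤ t → JJ ≤ rels k (yf Γ' G x t) := by
    intro t ht
    rw [hJJ, Ideal.span_le]
    rintro f ⟨γ, s, hs, P, hP, rfl⟩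
    show aeval (yf Γ' G x t) (rename (e1 Γ' G I γ s hs) P) = 0
    rw [aeval_rename, yf_e1 hper]
    exact (F1 γ (t + s) (by positivity) P).1 hP
  have F3 : ∀ t : ℤ, 0 ≤ t → rels k (yf Γ' G x t) ∈ JJ.minimalPrimes := by
    intro t ht
    refine ⟨⟨rels_prime _, F2 t ht⟩, ?_⟩
    rintro q ⟨hq, hJq⟩ hqt
    have hincl : Incl k (gpt q) (yf Γ' G x t) := fun P hP => hqt ((gpt_spec q P).1 hP)
    have htrd : trd k (gpt q) ≤ Module.finrank Ω (Tan k (yf Γ' G x t)) := by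
      refine trd_le_finrank_of_incl hincl _ fun ξ hξ => ?_
      show IsTan k (yf Γ' G x t) ξ
      set η : ((Fin m → ℤ) × ℤ) × I → Ω := fun v =>
        if hv : t ≤ v.1.2 ∧ v.1.2 ≤ t + G then
          ξ (QuotientAddGroup.mk v.1.1, ⟨(v.1.2 - t).toNat, by omega⟩, v.2) else 0 with hη
      have hL : Lsol k C h Γ' x t (t + G) η := by
        constructor
        · rintro ⟨g, l⟩ ⟨hg, hl⟩ v
          have hl' : l = 0 := hl
          subst hl'
          have e1' : (((g, (0 : ℤ)) + v.1 : (Fin m → ℤ) × ℤ)).2 = v.1.2 := zero_add _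
          have e2' : (QuotientAddGroup.mk (g + v.1.1) : (Fin m → ℤ) ⧸ Γ') = QuotientAddGroup.mk v.1.1 := by
            rw [QuotientAddGroup.eq]
            have : -(g + v.1.1) + v.1.1 = -g := by abel
            rw [this]
            exact Γ'.neg_mem hg
          show (if hv : t ≤ 0 + v.1.2 ∧ 0 + v.1.2 ≤ t + G then
            ξ (QuotientAddGroup.mk (g + v.1.1), ⟨(0 + v.1.2 - t).toNat, by omega⟩, v.2) else 0) = η v
          rw [e2']
          simp only [zero_add, hη]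
        · intro γ s' hs1 hs2
          rw [← tr_W0, tanOn_tr]
          obtain ⟨s, rfl⟩ : ∃ s : ℕ, s' = t + s := ⟨(s' - t).toNat, by omega⟩
          have hs : s + C ≤ G := by omega
          intro P hP
          have hPz : aeval (res Z.z (W0 m h C)) P = 0 :=
            (F1 γ (t + s) (by positivity) P).2 hP
          have hmem : rename (e1 Γ' G I γ s hs) P ∈ q :=
            hJq (Ideal.subset_span ⟨γ, s, hs, P, hPz, rfl⟩)
          have h3 := hξ _ ((gpt_spec q _).2 hmem)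
          rw [dvec_rename, Finsupp.linearCombination_mapDomain, yf_e1 hper] at h3
          have h4 : ξ ∘ e1 Γ' G I (h := h) γ s hs = res (fun v => η ((γ, t + s) + v.1, v.2)) (W0 m h C) := by
            funext v
            have h5 : 0 ≤ v.1.1.2 := v.2.2.1
            have h6 : v.1.1.2 ≤ C := v.2.2.2
            show ξ (QuotientAddGroup.mk (γ + v.1.1.1), ⟨s + v.1.1.2.toNat, _⟩, v.1.2) =
              (if hv : t ≤ t + s + v.1.1.2 ∧ t + s + v.1.1.2 ≤ t + G then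
                ξ (QuotientAddGroup.mk (γ + v.1.1.1), ⟨(t + s + v.1.1.2 - t).toNat, by omega⟩, v.1.2)
                else 0)
            rw [dif_pos ⟨by omega, by omega⟩]
            congr 3
            simp only [Fin.mk.injEq]
            omega
          rw [h4] at h3
          exact h3
      have hT := hfull t (t + G) ht (by omega) η hL
      have e2m : ∀ j : ((Fin m → ℤ) ⧸ Γ') × Fin (G + 1) × I,
          (((Quotient.out j.1 : Fin m → ℤ), t + (j.2.1.val : ℤ)), j.2.2).1 ∈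
            lev (Γ₀ := Fin m → ℤ) t (t + G) := by
        intro j
        have := j.2.1.2
        exact ⟨by show t ≤ t + (j.2.1.val : ℤ); omega, by show t + (j.2.1.val : ℤ) ≤ t + G; omega⟩
      have hT' := IsTan.comp hT (fun j : ((Fin m → ℤ) ⧸ Γ') × Fin (G + 1) × I =>
        (⟨((Quotient.out j.1, t + (j.2.1.val : ℤ)), j.2.2), e2m j⟩ : Ix I (lev t (t + G))))
      have h7 : res η (lev t (t + G)) ∘ (fun j : ((Fin m → ℤ) ⧸ Γ') × Fin (G + 1) × I =>
        (⟨((Quotient.out j.1, t + (j.2.1.val : ℤ)), j.2.2), e2m j⟩ : Ix I (lev t (t + G)))) = ξ := by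
        funext j
        have h8 := j.2.1.2
        show (if hv : t ≤ t + (j.2.1.val : ℤ) ∧ t + (j.2.1.val : ℤ) ≤ t + G then
          ξ (QuotientAddGroup.mk (Quotient.out j.1), ⟨(t + (j.2.1.val : ℤ) - t).toNat, by omega⟩, j.2.2)
            else 0) = ξ j
        rw [dif_pos ⟨by omega, by omega⟩]
        congr 1
        refine Prod.ext (Quotient.out_eq _) (Prod.ext (Fin.ext ?_) rfl)
        show (t + (j.2.1.val : ℤ) - t).toNat = j.2.1.val
        omega
      rw [h7] at hT'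
      exact hT'
    rw [finrank_Tan _ (Set.finite_range _)] at htrd
    have hS := Incl.sameRel hincl (Set.finite_range _) htrd
    intro P hP
    exact (gpt_spec q P).1 ((hS P).2 hP)
  have hfin : JJ.minimalPrimes.Finite := Ideal.finite_minimalPrimes_of_isNoetherianRing _ _
  have : Finite JJ.minimalPrimes := hfin.to_subtype
  obtain ⟨n, n', hne, hnn⟩ := Finite.exists_ne_map_eq_of_infinite (fun n : ℕ =>
    (⟨rels k (yf Γ' G x ((n * (M0 + 1) : ℕ) : ℤ)), F3 _ (by positivity)⟩ : JJ.minimalPrimes))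
  have key : ∀ n n' : ℕ, n < n' → rels k (yf Γ' G x ((n * (M0 + 1) : ℕ) : ℤ)) =
      rels k (yf Γ' G x ((n' * (M0 + 1) : ℕ) : ℤ)) → ∃ (t M : ℕ), M0 ≤ M ∧
      SameRel k (res (up (t : ℤ) x) (lev 0 G)) (res (up ((t : ℤ) + M) x) (lev 0 G)) := by
    intro n n' hlt heq
    obtain ⟨d, rfl⟩ := Nat.exists_eq_add_of_lt hlt
    refine ⟨n * (M0 + 1), (d + 1) * (M0 + 1), by nlinarith, ?_⟩
    rw [res_up hper, res_up hper]
    refine SameRel.comp ?_ _
    have h9 : (((n * (M0 + 1) : ℕ) : ℤ) + ((d + 1) * (M0 + 1) : ℕ)) = (((n + d + 1) * (M0 + 1) : ℕ) : ℤ) := by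
      push_cast
      ring
    rw [h9]
    exact sameRel_of_rels heq
  have hnn' := congrArg Subtype.val hnn
  rcases lt_or_gt_of_ne hne with h1 | h1
  · exact key _ _ h1 hnn'
  · exact key _ _ h1 hnn'.symm

end Pool.Agent.ORG
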