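import Pool.Agent.ORG.Defs
import Pool.Agent.ORG.F1
import Pool.Agent.ORG.S1
import Pool.Agent.ORG.S2
import Pool.Agent.ORG.B2
import Pool.Agent.ORG.P0
import Pool.Agent.ORG.P4
import Pool.Agent.ORG.P6
import Pool.Agent.ORG.P7

/-!
# MP_08a057_al, ORG module P8 : sections 7, 8 together
(paper: /team-store/ORG_paper.md)
-/

set_option autoImplicit false

namespace Pool.Agent.ORG

open MvPolynomial

variable {k Ω : Type} [Field k] [CharZero k] [Field Ω] [Algebra k Ω] {I : Type} [Finite I] {m : ℕ}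

open Sys

omit [CharZero k] [Finite I] in
theorem P8_gen_up (Z : Sys k ((Fin m → ℤ) × ℤ) I) (x : ((Fin m → ℤ) × ℤ) × I → Ω) (M : ℤ)
    (Q : Set (Fin m → ℤ)) (a b : ℤ) (h : Z.Gen x (sl Q (a + M) (b + M))) :
    Z.Gen (up M x) (sl Q a b) := by
  have e : tr ((0 : Fin m → ℤ), M) (sl Q a b) = sl Q (a + M) (b + M) := by
    ext v
    show (v.1 - 0 ∈ Q ∧ a ≤ v.2 - M ∧ v.2 - M ≤ b) ↔ (v.1 ∈ Q ∧ a + M ≤ v.2 ∧ v.2 ≤ b + M)
    rw [sub_zero]
    constructor
    · rintro ⟨h1, h2, h3⟩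
      exact ⟨h1, by linarith, by linarith⟩
    · rintro ⟨h1, h2, h3⟩
      exact ⟨h1, by linarith, by linarith⟩
  rw [← e, gen_tr] at h
  have e2 : (fun v : ((Fin m → ℤ) × ℤ) × I => x (((0 : Fin m → ℤ), M) + v.1, v.2)) = up M x := by
    funext v
    unfold up
    congr 2
    exact Prod.ext (zero_add _) (add_comm _ _)
  rw [e2] at h
  exact h

omit [CharZero k] [Finite I] in
theorem P8_tan_up (x ξ : ((Fin m → ℤ) × ℤ) × I → Ω) (M : ℤ) (A A' : Set ((Fin m → ℤ) × ℤ))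
    (hA : tr ((0 : Fin m → ℤ), M) A = A') :
    TanOn k (up M x) A ξ ↔ TanOn k x A' (up (-M) ξ) := by
  rw [← hA, tanOn_tr]
  have e2 : (fun v : ((Fin m → ℤ) × ℤ) × I => x (((0 : Fin m → ℤ), M) + v.1, v.2)) = up M x := by
    funext v
    unfold up
    congr 2
    exact Prod.ext (zero_add _) (add_comm _ _)
  have e3 : (fun v : ((Fin m → ℤ) × ℤ) × I => (up (-M) ξ) (((0 : Fin m → ℤ), M) + v.1, v.2)) =
      ξ := by
    funext v
    unfold up
    have : ((((0 : Fin m → ℤ), M) + v.1).1, (((0 : Fin m → ℤ), M) + v.1).2 + -M) = v.1 := by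
      refine Prod.ext (zero_add _) ?_
      show M + v.1.2 + -M = v.1.2
      ring
    show ξ (((((0 : Fin m → ℤ), M) + v.1).1, (((0 : Fin m → ℤ), M) + v.1).2 + -M), v.2) = ξ v
    rw [this]
  rw [e2, e3]

theorem P8_tr_sl (Q : Set (Fin m → ℤ)) (a b M : ℤ) :
    tr ((0 : Fin m → ℤ), M) (sl Q a b) = sl Q (a + M) (b + M) := by
  ext v
  show (v.1 - 0 ∈ Q ∧ a ≤ v.2 - M ∧ v.2 - M ≤ b) ↔ (v.1 ∈ Q ∧ a + M ≤ v.2 ∧ v.2 ≤ b + M)
  rw [sub_zero]
  constructor
  · rintro ⟨h1, h2, h3⟩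
    exact ⟨h1, by linarith, by linarith⟩
  · rintro ⟨h1, h2, h3⟩
    exact ⟨h1, by linarith, by linarith⟩

theorem P8_tr_lev (a b M : ℤ) :
    tr ((0 : Fin m → ℤ), M) (lev a b) = lev (a + M) (b + M) := by
  ext v
  show (a ≤ v.2 - M ∧ v.2 - M ≤ b) ↔ (a + M ≤ v.2 ∧ v.2 ≤ b + M)
  constructor
  · rintro ⟨h2, h3⟩
    exact ⟨by linarith, by linarith⟩
  · rintro ⟨h2, h3⟩
    exact ⟨by linarith, by linarith⟩

omit [Finite I] in
theorem P8_per_up {E : Type} (Γ' : AddSubgroup (Fin m → ℤ)) (M : ℤ)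
    {x : ((Fin m → ℤ) × ℤ) × I → E} (h : Per0 Γ' x) : Per0 Γ' (up M x) := by
  intro γ hγ v
  have hγ2 : γ.2 = 0 := hγ.2
  have h1 := h γ hγ ((v.1.1, v.1.2 + M), v.2)
  have e : ((γ + v.1).1, (γ + v.1).2 + M) = γ + (v.1.1, v.1.2 + M) := by
    refine Prod.ext rfl ?_
    show γ.2 + v.1.2 + M = γ.2 + (v.1.2 + M)
    ring
  show x (((γ + v.1).1, (γ + v.1).2 + M), v.2) = x ((v.1.1, v.1.2 + M), v.2)
  rw [e]
  exact h1

omit [Finite I] in
theorem P8_up_up {E : Type} (M : ℤ) (ξ : ((Fin m → ℤ) × ℤ) × I → E) : up (-M) (up M ξ) = ξ := by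
  funext v
  unfold up
  show ξ ((v.1.1, v.1.2 + -M + M), v.2) = ξ v
  rw [neg_add_cancel_right]

omit [Finite I] in
theorem P8_up_up' {E : Type} (M : ℤ) (ξ : ((Fin m → ℤ) × ℤ) × I → E) : up M (up (-M) ξ) = ξ := by
  funext v
  unfold up
  show ξ ((v.1.1, v.1.2 + M + -M), v.2) = ξ v
  rw [add_neg_cancel_right]

omit [CharZero k] [Finite I] in
theorem P8_lsol_up (C h : ℕ) (Γ' : AddSubgroup (Fin m → ℤ)) (x ξ : ((Fin m → ℤ) × ℤ) × I → Ω)
    (M a b : ℤ) : Lsol k C h Γ' (up M x) a b ξ ↔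
      Lsol k C h Γ' x (a + M) (b + M) (up (-M) ξ) := by
  constructor
  · rintro ⟨h1, h2⟩
    refine ⟨P8_per_up Γ' (-M) h1, fun γ t ht1 ht2 => ?_⟩
    have h3 := h2 γ (t - M) (by linarith) (by linarith)
    rw [P8_tan_up x ξ M _ _ (P8_tr_sl _ _ _ M)] at h3
    have e1 : t - M + M = t := by ring
    have e2 : t - M + (C : ℤ) + M = t + C := by ring
    rw [e1, e2] at h3
    exact h3
  · rintro ⟨h1, h2⟩
    refine ⟨?_, fun γ t ht1 ht2 => ?_⟩
    · have h3 := P8_per_up Γ' M h1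
      rw [P8_up_up'] at h3
      exact h3
    · rw [P8_tan_up x ξ M _ _ (P8_tr_sl _ _ _ M)]
      have h3 := h2 γ (t + M) (by linarith) (by linarith)
      have e2 : t + (C : ℤ) + M = t + M + C := by ring
      rw [e2]
      exact h3

/-- (7.8) thick windows -/
theorem P8_thick (Z : Sys k ((Fin m → ℤ) × ℤ) I) {N Nm : Set ((Fin m → ℤ) × ℤ)} {c : ℕ}
    (hD : DirData Z N Nm c) (n0 : ℕ) (hn : ∀ v ∈ N ∪ Nm, v.1 ∈ ball m n0) (C h D' : ℕ)
    (hC : c ≤ C) (Γ' : AddSubgroup (Fin m → ℤ)) [Γ'.FiniteIndex] (hsp : Sparse Γ' (ball m D'))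
    {x : ((Fin m → ℤ) × ℤ) × I → Ω}
    (hst : ∀ b : ℕ, C ≤ b → State Z N C h D' Γ' x 0 b)
    (hsites : ∀ s : (Fin m → ℤ) × ℤ, (C : ℤ) < s.2 → Z.Gen x (tr s N ∪ {s})) (g : ℕ) :
    ∀ t : ℤ, 0 ≤ t → ∀ p q : Fin m → ℤ, (∀ i, q i - p i + 2 * g * n0 ≤ D') →
      Z.Gen x (sl (Set.Icc p q) t (t + C + g)) := by
  induction g with
  | zero =>
    intro t ht p q hpq
    obtain ⟨t', rfl⟩ := Int.eq_ofNat_of_zero_le ht
    have h1 := (hst (t' + C) (by omega)).gen t' ht (by push_cast; linarith) p q (by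
      intro i
      have := hpq i
      push_cast at this
      linarith)
    have e : (t' : ℤ) + C + ((0 : ℕ) : ℤ) = t' + C := by push_cast; ring
    rw [e]
    exact h1
  | succ g ih =>
    intro t ht p q hpq
    obtain ⟨t', rfl⟩ := Int.eq_ofNat_of_zero_le ht
    have hper : Per0 Γ' x := (hst C le_rfl).per
    have e : (t' : ℤ) + C + ((g + 1 : ℕ) : ℤ) = (t' + C + g) + 1 := by push_cast; ring
    rw [e]
    refine gen_new_window Z hD n0 hn Γ' hper 0 (t' + C + g) t' ht ?_ ?_ ?_ D' hsp p q ?_ ?_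
    · have : (c : ℤ) ≤ C := by exact_mod_cast hC
      have h0 : (0 : ℤ) ≤ g := Int.natCast_nonneg _
      linarith
    · intro s hs
      apply hsites s
      rw [hs]
      have h0 : (0 : ℤ) ≤ g := Int.natCast_nonneg _
      linarith
    · have h1 := (hst (t' + C + g + 1) (by omega)).trd ((t' : ℤ) + C + g + 1) (by
        have h0 : (0 : ℤ) ≤ g := Int.natCast_nonneg _
        linarith) (by push_cast; linarith)
      have e2 : (t' : ℤ) + C + g + 1 - 1 = t' + C + g := by ring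
      rw [e2] at h1
      exact h1
    · intro i
      have h1 := hpq i
      have h2 : (0 : ℤ) ≤ 2 * ((g + 1 : ℕ) : ℤ) * n0 := by positivity
      linarith
    · apply ih t' ht
      intro i
      have h1 := hpq i
      push_cast at h1 ⊢
      show q i + (n0 : ℤ) - (p i - (n0 : ℤ)) + 2 * (g : ℤ) * n0 ≤ D'
      linarith

/-- a finite set of sites lies in a ball -/
theorem P8_exists_ball (W : Set ((Fin m → ℤ) × ℤ)) (hW : W.Finite) :
    ∃ w : ℕ, ∀ v ∈ W, v.1 ∈ ball m w := by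
  classical
  induction W, hW using Set.Finite.induction_on with
  | empty => exact ⟨0, fun v hv => hv.elim⟩
  | @insert a s _ _ ih =>
    obtain ⟨w, hw⟩ := ih
    refine ⟨w + ∑ i, (a.1 i).natAbs, ?_⟩
    intro v hv i
    rcases hv with rfl | hv
    · have h1 : (v.1 i).natAbs ≤ ∑ i, (v.1 i).natAbs :=
        Finset.single_le_sum (f := fun i => (v.1 i).natAbs) (fun _ _ => Nat.zero_le _)
          (Finset.mem_univ i)
      omega
    · have h2 := hw v hv i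
      obtain ⟨S, hS⟩ : ∃ S : ℕ, S = ∑ i, (a.1 i).natAbs := ⟨_, rfl⟩
      rw [← hS]
      push_cast
      omega

/-- sections 7 and 8 together -/
theorem exists_long [IsAlgClosed Ω] (hΩ : Cardinal.aleph0 ≤ Algebra.trdeg k Ω)
    (Z : Sys k ((Fin m → ℤ) × ℤ) I) {N Nm : Set ((Fin m → ℤ) × ℤ)} {c : ℕ}
    (hD : DirData Z N Nm c) (C : ℕ) (hC : c ≤ C) (hP : (Z.slab C).Proj) :
    ∃ h1 : ℕ, ∀ h : ℕ, h1 ≤ h → ∀ G D : ℕ, C ≤ G → ∃ D2 : ℕ,
      ∀ (Γ' : AddSubgroup (Fin m → ℤ)), Γ'.FiniteIndex → Sparse Γ' (ball m D2) →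
      ∀ x0 : (Fin m → ℤ) × (Fin (C + 1) × I) → Ω, Per Γ' x0 →
      (∀ γ, (Z.slab C).Gen x0 (tr γ (cube m D2))) → Full k Γ' (cube m h) x0 →
      ∀ M0 : ℕ, ∃ (M : ℕ) (x : ((Fin m → ℤ) × ℤ) × I → Ω), M0 ≤ M ∧
        Long Z C h D G Γ' x (M + G) ∧
        SameRel k (res x (lev 0 G)) (res (up (M : ℤ) x) (lev 0 G)) := by
  obtain ⟨n0, hn⟩ := P8_exists_ball (N ∪ Nm) (hD.finN.union hD.finNm)
  obtain ⟨h1, hh1⟩ := exists_states hΩ Z hD C hC hP
  refine ⟨h1, fun h hh G D hG => ?_⟩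
  obtain ⟨D1, hD1⟩ := hh1 h hh
  obtain ⟨D', hD'⟩ : ∃ D' : ℕ, D' = D1 + h + D + 2 * (G - C) * n0 := ⟨_, rfl⟩
  obtain ⟨D2, hD2⟩ := hD1 D' (by rw [hD']; nlinarith [Nat.zero_le (2 * (G - C) * n0)])
  refine ⟨D2 + D', fun Γ' hfin hsp x0 hper0 hgen0 hfull0 M0 => ?_⟩
  have hsp2 : Sparse Γ' (ball m D2) := by
    intro u hu hu'
    refine hsp u (fun i => ?_) hu'
    have := hu i
    push_cast
    constructor <;> linarith [this.1, this.2, Int.natCast_nonneg D']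
  have hsp' : Sparse Γ' (ball m D') := by
    intro u hu hu'
    refine hsp u (fun i => ?_) hu'
    have := hu i
    push_cast
    constructor <;> linarith [this.1, this.2, Int.natCast_nonneg D2]
  obtain ⟨x, hx0, hst, hsites, hfull, hext⟩ := hD2 Γ' hfin hsp2 x0 hper0 (fun γ =>
    Gen.mono (hgen0 γ) (by
      intro u hu i
      have h2 := hu i
      push_cast
      exact ⟨h2.1, by linarith [h2.2, Int.natCast_nonneg D']⟩)) hfull0
  have hper : Per0 Γ' x := (hst C le_rfl).per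
  have hgen : ∀ (γ : Fin m → ℤ) (t : ℤ), 0 ≤ t → Z.Gen x (sl (tr γ (cube m h)) t (t + C)) := by
    intro γ t ht
    rw [tr_cube_eq_Icc]
    obtain ⟨t', rfl⟩ := Int.eq_ofNat_of_zero_le ht
    refine (hst (t' + C) (by omega)).gen t' ht (by push_cast; linarith) _ _ (fun i => ?_)
    show γ i + (h : ℤ) - γ i ≤ D'
    have : (h : ℤ) ≤ D' := by
      rw [hD']
      push_cast
      have h3 : (0 : ℤ) ≤ 2 * ((G - C : ℕ) : ℤ) * n0 := by positivity
      linarith [Int.natCast_nonneg D1, Int.natCast_nonneg D]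
    linarith
  obtain ⟨t, M, hM, hsame⟩ := exists_same_window Z C h G hG Γ' hper hgen hfull M0
  have ht0 : (0 : ℤ) ≤ t := Int.natCast_nonneg t
  refine ⟨M, up (t : ℤ) x, hM, ⟨P8_per_up Γ' _ hper, ?_, ?_, ?_⟩, ?_⟩
  · intro s hs _ p q hpq
    apply P8_gen_up
    have h3 := P8_thick Z hD n0 hn C h D' hC Γ' hsp' hst hsites (G - C) (s + t) (by linarith) p q
      (fun i => by
        have h4 := hpq i
        rw [hD']
        push_cast
        linarith [Int.natCast_nonneg D1, Int.natCast_nonneg h])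
    have e : s + (t : ℤ) + C + ((G - C : ℕ) : ℤ) = s + G + t := by
      push_cast [hG]
      ring
    rw [e] at h3
    exact h3
  · intro a b ha hab _ ξ hξ
    rw [P8_lsol_up] at hξ
    have h3 := hfull (a + t) (b + t) (by linarith) (by linarith) _ hξ
    rw [P8_tan_up x ξ t _ _ (P8_tr_lev _ _ _)]
    exact h3
  · intro a b ha hab hb ξ hξ
    rw [P8_lsol_up] at hξ
    obtain ⟨ξ', hξ', he⟩ := hext (a + t) (b + t) (0 + t) (((M + G : ℕ) : ℤ) + t) (by linarith)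
      (by linarith) (by linarith) (by linarith) _ hξ
    refine ⟨up t ξ', ?_, ?_⟩
    · rw [P8_lsol_up, P8_up_up]
      exact hξ'
    · intro v hv
      have h3 := he ((v.1.1, v.1.2 + t), v.2) ⟨by
        show a + t ≤ v.1.2 + t
        linarith [hv.1], by
        show v.1.2 + t ≤ b + t
        linarith [hv.2]⟩
      have h4 : (up (-(t : ℤ)) ξ) ((v.1.1, v.1.2 + t), v.2) = ξ v :=
        congrFun (P8_up_up' (t : ℤ) ξ) v
      rw [h4] at h3
      exact h3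
  · have e : up (M : ℤ) (up (t : ℤ) x) = up ((t : ℤ) + M) x := by
      funext v
      unfold up
      show x ((v.1.1, v.1.2 + M + t), v.2) = x ((v.1.1, v.1.2 + (t + M)), v.2)
      have : v.1.2 + (M : ℤ) + t = v.1.2 + (t + M) := by ring
      rw [this]
    rw [e]
    exact hsame

end Pool.Agent.ORG
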