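import Pool.Agent.ORG.RepZ

/-! Pairing of the relation vectors with tangent vectors. -/

set_option autoImplicit false
set_option linter.unusedSectionVars false

namespace Pool.Agent.ORG

open MvPolynomial

section
variable {k X Γ Δ E : Type} [Field k] [AddCommGroup Γ] [AddCommGroup Δ] [Field E] [Algebra k E]

/-- the family over the dual numbers -/
noncomputable def dfam (u : Γ × Δ → X → GL2 E) (ξ : Γ × LI Δ X → E) : Γ × LI Δ X → DualNumber E :=
  fun v => TrivSqZeroExt.inl (fam u v) + TrivSqZeroExt.inr (ξ v)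

/-- the first component -/
noncomputable def fstH (E : Type) [Field E] : DualNumber E →+* E :=
  (TrivSqZeroExt.fstHom E E E).toRingHom

theorem fstH_apply (x : DualNumber E) : fstH E x = x.fst := rfl

theorem isUnit_mat_dfam (u : Γ × Δ → X → GL2 E) (ξ : Γ × LI Δ X → E) (v : Γ × Δ) (j : X) :
    IsUnit (mat (dfam u ξ) v j).det := by
  have h1 : (fstH E).mapMatrix (mat (dfam u ξ) v j) = (u v j).1 := by
    ext a b
    show (dfam u ξ _).fst = _
    unfold dfam
    rw [TrivSqZeroExt.fst_add, TrivSqZeroExt.fst_inl, TrivSqZeroExt.fst_inr, add_zero]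
    rfl
  have h2 : IsUnit ((mat (dfam u ξ) v j).det).fst := by
    rw [← fstH_apply, RingHom.map_det, h1]
    exact (Matrix.isUnit_iff_isUnit_det _).1 (u v j).isUnit
  rwa [TrivSqZeroExt.isUnit_iff_isUnit_fst]

/-- the configuration over the dual numbers -/
noncomputable def ud (u : Γ × Δ → X → GL2 E) (ξ : Γ × LI Δ X → E) : Γ × Δ → X → GL2 (DualNumber E) :=
  cfg (dfam u ξ)

theorem fam_ud (u : Γ × Δ → X → GL2 E) (ξ : Γ × LI Δ X → E) : fam (ud u ξ) = dfam u ξ := by
  funext v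
  unfold fam ud
  rw [cfg_val _ _ _ (isUnit_mat_dfam u ξ _ _)]
  rfl

theorem fst_ud (u : Γ × Δ → X → GL2 E) (ξ : Γ × LI Δ X → E) (v : Γ × Δ) (j : X) :
    Matrix.GeneralLinearGroup.map (fstH E) (ud u ξ v j) = u v j := by
  ext a b
  have h1 : (ud u ξ v j).1 a b = dfam u ξ (v.1, (v.2, j, a, b)) := by
    unfold ud
    rw [cfg_val _ _ _ (isUnit_mat_dfam u ξ _ _)]
    rfl
  show fstH E ((ud u ξ v j).1 a b) = _
  rw [h1, fstH_apply]
  unfold dfam
  rw [TrivSqZeroExt.fst_add, TrivSqZeroExt.fst_inl, TrivSqZeroExt.fst_inr, add_zero]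
  rfl

theorem fst_U_ud (p : FreeGroup X →* Multiplicative (Γ × Δ)) (u : Γ × Δ → X → GL2 E)
    (ξ : Γ × LI Δ X → E) (w : FreeGroup X) (v : Γ × Δ) :
    Matrix.GeneralLinearGroup.map (fstH E) (U p (ud u ξ) w v) = U p u w v := by
  rw [← U_map p (ud u ξ) (Matrix.GeneralLinearGroup.map (fstH E)) w v]
  congr 1
  funext v j
  exact fst_ud u ξ v j

theorem fst_U_ud_apply (p : FreeGroup X →* Multiplicative (Γ × Δ)) (u : Γ × Δ → X → GL2 E)
    (ξ : Γ × LI Δ X → E) (w : FreeGroup X) (v : Γ × Δ) (a b : Fin 2) :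
    ((U p (ud u ξ) w v).1 a b).fst = (U p u w v).1 a b := by
  rw [← fst_U_ud p u ξ w v]
  rfl

/-- the polynomials `f, d` represent the entry of `U_r(v) - 1` -/
def Reps (k : Type) [Field k] (p : FreeGroup X →* Multiplicative (Γ × Δ)) (r : FreeGroup X)
    (v : Γ × Δ) (a b : Fin 2) (f d : MvPolynomial (Γ × LI Δ X) k) : Prop :=
  ∀ (A : Type) [CommRing A] [Algebra k A] (u : Γ × Δ → X → GL2 A),
    IsUnit (aeval (fam u) d) ∧
      aeval (fam u) d * ((U p u r v).1 a b - (if a = b then 1 else 0)) = aeval (fam u) f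

theorem exists_reps (p : FreeGroup X →* Multiplicative (Γ × Δ)) (r : FreeGroup X)
    (v : Γ × Δ) (a b : Fin 2) : ∃ f d, Reps k p r v a b f d := by
  obtain ⟨f, d, hfd⟩ := clear_fam (yU k p r v a b)
  refine ⟨f, d, fun A _ _ u => ?_⟩
  have h := hfd A u
  rw [evu_yU] at h
  exact h

theorem Reps.shift {p : FreeGroup X →* Multiplicative (Γ × Δ)} {r : FreeGroup X}
    {v : Γ × Δ} {a b : Fin 2} {f d : MvPolynomial (Γ × LI Δ X) k} (h : Reps k p r v a b f d)
    (γ : Γ) : Reps k p r (v + (γ, 0)) a b (rename (trE (LI Δ X) γ) f) (rename (trE (LI Δ X) γ) d) := by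
  intro A _ _ u
  have h1 : fam u ∘ (trE (LI Δ X) γ) = fam (fun v j => u (v + (γ, 0)) j) := by
    funext v
    unfold fam
    simp only [Function.comp_apply, trE_apply, Prod.mk_add_mk, add_zero]
    rw [add_comm γ]
  rw [MvPolynomial.aeval_rename, MvPolynomial.aeval_rename, h1, ← U_shift p u (γ, 0) r v]
  exact h A _

theorem Reps.mem_pp {p : FreeGroup X →* Multiplicative (Γ × Δ)} {r : FreeGroup X}
    {v : Γ × Δ} {a b : Fin 2} {f d : MvPolynomial (Γ × LI Δ X) k} (h : Reps k p r v a b f d) :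
    f ∈ pp k p r := by
  intro A _ _ u hu
  rw [← (h A u).2, hu v, Units.val_one, Matrix.one_apply, sub_self, mul_zero]

theorem Reps.pairing {p : FreeGroup X →* Multiplicative (Γ × Δ)} {r : FreeGroup X}
    {v : Γ × Δ} {a b : Fin 2} {f d : MvPolynomial (Γ × LI Δ X) k} (h : Reps k p r v a b f d)
    (u : Γ × Δ → X → GL2 E) (hu : U p u r v = 1) (ξ : Γ × LI Δ X → E) :
    Finsupp.linearCombination E ξ (dvec k (fam u) f) =
      aeval (fam u) d * ((U p (ud u ξ) r v).1 a b).snd := by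
  have h1 := (h (DualNumber E) (ud u ξ)).2
  rw [fam_ud] at h1
  unfold dfam at h1
  rw [aeval_dual, aeval_dual] at h1
  have h2 := congrArg TrivSqZeroExt.snd h1
  have h3 : ((U p (ud u ξ) r v).1 a b).fst = if a = b then 1 else 0 := by
    rw [fst_U_ud_apply, hu, Units.val_one, Matrix.one_apply]
  have h4 : (if a = b then (1 : DualNumber E) else 0).fst = if a = b then (1 : E) else 0 := by
    split_ifs <;> simp
  have h5 : (if a = b then (1 : DualNumber E) else 0).snd = 0 := by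
    split_ifs <;> simp
  simp only [TrivSqZeroExt.snd_mul, TrivSqZeroExt.fst_add, TrivSqZeroExt.fst_inl,
    TrivSqZeroExt.fst_inr, TrivSqZeroExt.snd_add, TrivSqZeroExt.snd_inl, TrivSqZeroExt.snd_inr,
    TrivSqZeroExt.fst_sub, TrivSqZeroExt.snd_sub, h3, h4, h5, sub_self, sub_zero, add_zero,
    zero_add, smul_eq_mul, MulOpposite.op_zero, zero_smul] at h2
  exact h2.symm

end

end Pool.Agent.ORG
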