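import Pool.Agent.ORG.Defs
import Pool.Agent.ORG.F1
import Pool.Agent.ORG.S1
import Pool.Agent.ORG.C1
import Pool.Agent.ORG.P0

/-!
# MP_08a057_al, ORG module Q1 : (9.1) gluing local solutions
(paper: /team-store/ORG_paper.md)
-/

set_option autoImplicit false

namespace Pool.Agent.ORG

open MvPolynomial

variable {k Ω : Type} [Field k] [CharZero k] [IsAlgClosed k] [Field Ω] [Algebra k Ω]
  [IsAlgClosed Ω] {I : Type} [Finite I] {m : ℕ}

open Sys

/-- a finite set of sites is bounded -/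
theorem q1_bound (W : Set ((Fin m → ℤ) × ℤ)) (hW : W.Finite) :
    ∃ w : ℕ, ∀ v ∈ W, (∀ i, -(w : ℤ) ≤ v.1 i ∧ v.1 i ≤ w) ∧ -(w : ℤ) ≤ v.2 ∧ v.2 ≤ w := by
  obtain ⟨w, hw⟩ := (hW.image fun v => ∑ i, (v.1 i).natAbs + v.2.natAbs).bddAbove
  refine ⟨w, fun v hv => ?_⟩
  have h : ∑ i, (v.1 i).natAbs + v.2.natAbs ≤ w := hw ⟨v, hv, rfl⟩
  have h1 : ∀ i, (v.1 i).natAbs ≤ w := fun i =>
    (Finset.single_le_sum (f := fun i => (v.1 i).natAbs) (fun _ _ => Nat.zero_le _)
      (Finset.mem_univ i)).trans (by omega)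
  refine ⟨fun i => ?_, ?_⟩
  · have := h1 i
    omega
  · omega

omit [CharZero k] [IsAlgClosed k] [IsAlgClosed Ω] [Finite I] in
/-- genericity on thin boxes -/
theorem q1_gen {Z : Sys k ((Fin m → ℤ) × ℤ) I} {C h D G M : ℕ} {Γ' : AddSubgroup (Fin m → ℤ)}
    {x : ((Fin m → ℤ) × ℤ) × I → Ω} (hx : Long Z C h D G Γ' x (M + G)) (p q : Fin m → ℤ)
    (hpq : ∀ i, q i - p i ≤ D) (a b : ℤ) (ha : 0 ≤ a) (hb : b ≤ M + G) (hab : b - a ≤ G) :
    Z.Gen x (sl (Set.Icc p q) a b) := by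
  refine Gen.mono (hx.gen (min a M) (by omega) (by push_cast; omega) p q hpq) ?_
  rintro v ⟨h1, h2, h3⟩
  exact ⟨h1, by omega, by omega⟩

/-- (9.1) -/
theorem exists_glue (Z : Sys k ((Fin m → ℤ) × ℤ) I) (hP : Z.Proj) :
    ∃ w : ℕ, ∀ (C h D G M : ℕ), 2 * w ≤ C → 2 * w ≤ h → C + 2 * w ≤ G → h + 2 * w ≤ D →
      G + C + 10 * w + 10 ≤ M → ∀ (Γ' : AddSubgroup (Fin m → ℤ)), Γ'.FiniteIndex →
      ∀ x : ((Fin m → ℤ) × ℤ) × I → Ω, Long Z C h D G Γ' x (M + G) →
      ∀ ξ₁ ξ₂, Lsol k C h Γ' x 0 G ξ₁ → Lsol k C h Γ' x M (M + G) ξ₂ →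
      ∃ ξ, Lsol k C h Γ' x 0 (M + G) ξ ∧ (∀ v, v.1 ∈ lev 0 (G : ℤ) → ξ v = ξ₁ v) ∧
        (∀ v, v.1 ∈ lev (M : ℤ) (M + G) → ξ v = ξ₂ v) := by
  classical
  obtain ⟨W, hWf, hW0, hS⟩ := exists_cutoff Z hP
  obtain ⟨w, hw⟩ := q1_bound W hWf
  refine ⟨w, fun C h D G M hC hh hG hD hM Γ' hΓ x hx ξ₁ ξ₂ h₁ h₂ => ?_⟩
  obtain ⟨S, hS1, hS2, hS3, hS4⟩ := hS x
  obtain ⟨e₁, he₁, he₁'⟩ := hx.ext 0 G le_rfl (by omega) (by omega) ξ₁ h₁
  obtain ⟨e₂, he₂, he₂'⟩ := hx.ext M (M + G) (by omega) (by omega) (by push_cast; omega) ξ₂ h₂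
  have hper := hx.per
  -- points of translates of the window
  have hWu : ∀ u v : (Fin m → ℤ) × ℤ, v ∈ tr u W →
      (∀ i, u.1 i - w ≤ v.1 i ∧ v.1 i ≤ u.1 i + w) ∧ u.2 - w ≤ v.2 ∧ v.2 ≤ u.2 + w := by
    intro u v hv
    obtain ⟨h1, h2, h3⟩ := hw _ (show v - u ∈ W from hv)
    refine ⟨fun i => ?_, ?_, ?_⟩
    · have := h1 i
      simp only [Prod.fst_sub, Pi.sub_apply] at this
      omega
    · simp only [Prod.snd_sub] at h2
      omega
    · simp only [Prod.snd_sub] at h3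
      omega
  -- genericity on translates of the window
  have hgen : ∀ u : (Fin m → ℤ) × ℤ, (w : ℤ) ≤ u.2 → u.2 ≤ M + G - w → Z.Gen x (tr u W) := by
    intro u h1 h2
    refine Gen.mono (q1_gen hx (fun i => u.1 i - w) (fun i => u.1 i + w) (fun i => ?_) (u.2 - w)
      (u.2 + w) (by omega) (by omega) (by omega)) ?_
    · show u.1 i + (w : ℤ) - (u.1 i - w) ≤ D
      omega
    · intro v hv
      obtain ⟨h3, h4, h5⟩ := hWu u v hv
      exact ⟨⟨fun i => (h3 i).1, fun i => (h3 i).2⟩, h4, h5⟩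
  -- local solutions are tangent on translates of the window
  have htan : ∀ e, Lsol k C h Γ' x 0 ((M + G : ℕ) : ℤ) e → ∀ u : (Fin m → ℤ) × ℤ, (w : ℤ) ≤ u.2 →
      u.2 ≤ M + G - w → TanOn k x (tr u W) e := by
    intro e he u h1 h2
    refine TanOn.mono (he.2 (fun i => u.1 i - w) (min (u.2 - w) (M + G - C)) (by omega)
      (by push_cast; omega)) ?_
    intro v hv
    obtain ⟨h3, h4, h5⟩ := hWu u v hv
    refine ⟨fun i => ?_, by omega, by omega⟩
    have := h3 i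
    simp only [Pi.sub_apply]
    omega
  set η : ((Fin m → ℤ) × ℤ) × I → Ω := fun v => if v.1.2 < (G : ℤ) + 2 * w + 1 then e₁ v else e₂ v
    with hη
  have hS1' : ∀ (u : (Fin m → ℤ) × ℤ) (i : I), (w : ℤ) ≤ u.2 → u.2 ≤ (G : ℤ) + w →
      S η (u, i) = e₁ (u, i) := by
    intro u i h1 h2
    rw [hS3 u η e₁ (fun v hv => ?_) i]
    · exact hS2 u (hgen u h1 (by omega)) e₁ (htan e₁ he₁ u h1 (by omega)) i
    · obtain ⟨-, h4, h5⟩ := hWu u v.1 hv
      simp only [hη]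
      rw [if_pos (by omega)]
  have hS2' : ∀ (u : (Fin m → ℤ) × ℤ) (i : I), (G : ℤ) + 3 * w + 1 ≤ u.2 →
      u.2 ≤ (M : ℤ) + G - w → S η (u, i) = e₂ (u, i) := by
    intro u i h1 h2
    rw [hS3 u η e₂ (fun v hv => ?_) i]
    · exact hS2 u (hgen u (by omega) h2) e₂ (htan e₂ he₂ u (by omega) h2) i
    · obtain ⟨-, h4, h5⟩ := hWu u v.1 hv
      simp only [hη]
      rw [if_neg (by omega)]
  set ξ : ((Fin m → ℤ) × ℤ) × I → Ω := fun v => if v.1.2 < (w : ℤ) then e₁ v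
    else if v.1.2 ≤ (M : ℤ) + G - w then S η v else e₂ v with hξ
  have hlow : ∀ v : ((Fin m → ℤ) × ℤ) × I, v.1.2 ≤ (G : ℤ) + w → ξ v = e₁ v := by
    intro v hv
    simp only [hξ]
    by_cases h1 : v.1.2 < (w : ℤ)
    · rw [if_pos h1]
    · rw [if_neg h1, if_pos (by omega)]
      exact hS1' v.1 v.2 (by omega) hv
  have hhigh : ∀ v : ((Fin m → ℤ) × ℤ) × I, (G : ℤ) + 3 * w + 1 ≤ v.1.2 → ξ v = e₂ v := by
    intro v hv
    simp only [hξ]
    rw [if_neg (by omega)]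
    by_cases h1 : v.1.2 ≤ (M : ℤ) + G - w
    · rw [if_pos h1]
      exact hS2' v.1 v.2 hv h1
    · rw [if_neg h1]
  have hmid : ∀ v : ((Fin m → ℤ) × ℤ) × I, (w : ℤ) ≤ v.1.2 → v.1.2 ≤ (M : ℤ) + G - w →
      ξ v = S η v := by
    intro v h1 h2
    simp only [hξ]
    rw [if_neg (by omega), if_pos h2]
  have hperη : Per (Γ'.prod ⊥) η := by
    intro γ hγ v
    have h0 : γ.2 = 0 := (AddSubgroup.mem_prod.1 hγ).2
    simp only [hη, Prod.snd_add, h0, zero_add]
    rw [he₁.1 γ hγ v, he₂.1 γ hγ v]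
  have hperS : Per (Γ'.prod ⊥) (S η) := hS4 _ hper η hperη
  refine ⟨ξ, ⟨?_, ?_⟩, ?_, ?_⟩
  · intro γ hγ v
    have h0 : γ.2 = 0 := (AddSubgroup.mem_prod.1 hγ).2
    simp only [hξ, Prod.snd_add, h0, zero_add]
    rw [he₁.1 γ hγ v, he₂.1 γ hγ v, hperS γ hγ v]
  · intro γ t ht htC
    by_cases c1 : t + C ≤ (G : ℤ) + w
    · refine TanOn.congr (he₁.2 γ t ht (by push_cast; omega)) (fun _ _ => rfl) fun v hv => ?_
      exact (hlow v (hv.2.2.trans c1)).symm
    · by_cases c2 : t + C ≤ (M : ℤ) + G - w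
      · have hfin : (sl (tr γ (cube m h)) t (t + C)).Finite := by
          refine (((Set.finite_Icc (fun i => γ i) (fun i => γ i + h)).prod
            (Set.finite_Icc t (t + C)))).subset ?_
          rintro v ⟨h1, h2, h3⟩
          refine ⟨⟨fun i => ?_, fun i => ?_⟩, h2, h3⟩
          · have := h1 i
            simp only [Pi.sub_apply] at this
            show γ i ≤ v.1 i
            omega
          · have := h1 i
            simp only [Pi.sub_apply] at this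
            show v.1 i ≤ γ i + h
            omega
        refine TanOn.congr (hS1 _ hfin ?_ η) (fun _ _ => rfl) fun v hv => ?_
        · refine Gen.mono (q1_gen hx (fun i => γ i - w) (fun i => γ i + h + w) (fun i => ?_)
            (t - w) (t + C + w) (by omega) (by omega) (by omega)) ?_
          · show γ i + (h : ℤ) + w - (γ i - w) ≤ D
            omega
          · rintro v ⟨a, ⟨ha1, ha2, ha3⟩, b, hb, rfl⟩
            obtain ⟨h3, h4, h5⟩ := hw b hb
            refine ⟨⟨fun i => ?_, fun i => ?_⟩, ?_, ?_⟩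
            · have h6 := ha1 i
              have h7 := h3 i
              simp only [Pi.sub_apply] at h6
              simp only [Prod.fst_add, Pi.add_apply]
              omega
            · have h6 := ha1 i
              have h7 := h3 i
              simp only [Pi.sub_apply] at h6
              simp only [Prod.fst_add, Pi.add_apply]
              omega
            · simp only [Prod.snd_add]
              omega
            · simp only [Prod.snd_add]
              omega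
        · exact (hmid v (by have := hv.2.1; omega) (by have := hv.2.2; omega)).symm
      · refine TanOn.congr (he₂.2 γ t ht (by push_cast; omega)) (fun _ _ => rfl) fun v hv => ?_
        exact (hhigh v (by have := hv.2.1; omega)).symm
  · intro v hv
    rw [hlow v (by have := hv.2; omega), he₁' v hv]
  · intro v hv
    rw [hhigh v (by have := hv.1; omega), he₂' v hv]

end Pool.Agent.ORG
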