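import Pool.Agent.ORG.Defs
import Pool.Agent.ORG.F1
import Pool.Agent.ORG.F2
import Pool.Agent.ORG.F3
import Pool.Agent.ORG.F4
import Pool.Agent.ORG.F7
import Pool.Agent.ORG.S1
import Pool.Agent.ORG.P0
import Pool.Agent.ORG.Q1

/-!
# MP_08a057_al, ORG module Q2 : (9.2), (9.3) independence of the ends and the second copy
(paper: /team-store/ORG_paper.md)
-/

set_option autoImplicit false

namespace Pool.Agent.ORG

open MvPolynomial

section q2aux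

variable {k Ω : Type} [Field k] [CharZero k] [Field Ω] [Algebra k Ω]

/-- a family all of whose pairs of tangent vectors glue is independent -/
theorem q2_trd_sum {J' : Type} (a b : J' → Ω) (ha : (Set.range a).Finite)
    (hb : (Set.range b).Finite)
    (h : ∀ ξ₁ ξ₂ : J' → Ω, IsTan k a ξ₁ → IsTan k b ξ₂ →
      IsTan k (Sum.elim a b) (Sum.elim ξ₁ ξ₂)) :
    trd k (Sum.elim a b) = trd k a + trd k b := by
  have hr : (Set.range (Sum.elim a b)).Finite := by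
    rw [Set.Sum.elim_range]
    exact ha.union hb
  let φ : Tan k (Sum.elim a b) ≃ₗ[Ω] (Tan k a × Tan k b) :=
    { toFun := fun ξ => (⟨ξ.1 ∘ Sum.inl, IsTan.comp ξ.2 Sum.inl⟩,
        ⟨ξ.1 ∘ Sum.inr, IsTan.comp ξ.2 Sum.inr⟩)
      invFun := fun p => ⟨Sum.elim p.1.1 p.2.1, h _ _ p.1.2 p.2.2⟩
      left_inv := fun ξ => by
        apply Subtype.ext
        funext j
        rcases j with j | j <;> rfl
      right_inv := fun p => rfl
      map_add' := fun ξ η => rfl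
      map_smul' := fun c ξ => rfl }
  haveI := finite_Tan (k := k) a ha
  haveI := finite_Tan (k := k) b hb
  rw [← finrank_Tan (Sum.elim a b) hr, ← finrank_Tan a ha, ← finrank_Tan b hb,
    LinearEquiv.finrank_eq φ, Module.finrank_prod]

variable {I : Type} {m : ℕ}

open Classical in
/-- extension by zero -/
noncomputable def q2ext (A : Set ((Fin m → ℤ) × ℤ)) (ξ : Ix I A → Ω) :
    ((Fin m → ℤ) × ℤ) × I → Ω :=
  fun v => if h : v.1 ∈ A then ξ ⟨v, h⟩ else 0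

omit [CharZero k] [Algebra k Ω] [Field k] in
theorem q2ext_res (A : Set ((Fin m → ℤ) × ℤ)) (ξ : Ix I A → Ω) : res (q2ext A ξ) A = ξ := by
  funext v
  unfold res q2ext
  rw [dif_pos v.2]

omit [CharZero k] in
theorem q2ext_lsol (C h : ℕ) (Γ' : AddSubgroup (Fin m → ℤ)) (x : ((Fin m → ℤ) × ℤ) × I → Ω)
    (hper : Per0 Γ' x) (a b : ℤ) (ξ : Ix I (lev a b : Set ((Fin m → ℤ) × ℤ)) → Ω)
    (hξ : IsTan k (res x (lev a b)) ξ) : Lsol k C h Γ' x a b (q2ext (lev a b) ξ) := by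
  refine ⟨?_, ?_⟩
  · intro γ hγ v
    have hγ2 : γ.2 = 0 := by
      have := (AddSubgroup.mem_prod.1 hγ).2
      simpa using this
    have hiff : (γ + v.1) ∈ (lev a b : Set ((Fin m → ℤ) × ℤ)) ↔
        v.1 ∈ (lev a b : Set ((Fin m → ℤ) × ℤ)) := by
      unfold lev
      simp only [Set.mem_setOf_eq, Prod.snd_add, hγ2, zero_add]
    unfold q2ext
    by_cases hv : v.1 ∈ (lev a b : Set ((Fin m → ℤ) × ℤ))
    · rw [dif_pos hv, dif_pos (hiff.2 hv)]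
      refine IsTan.eq_of_eq hξ ?_
      exact hper γ hγ v
    · rw [dif_neg hv, dif_neg (fun h' => hv (hiff.1 h'))]
  · intro γ t h1 h2
    have hT : TanOn k x (lev a b) (q2ext (lev a b) ξ) := by
      unfold TanOn
      rw [q2ext_res]
      exact hξ
    refine TanOn.mono hT ?_
    intro v hv
    unfold sl at hv
    unfold lev
    simp only [Set.mem_setOf_eq] at hv ⊢
    omega

end q2aux

variable {k Ω : Type} [Field k] [CharZero k] [IsAlgClosed k] [Field Ω] [Algebra k Ω]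
  [IsAlgClosed Ω] {I : Type} [Finite I] {m : ℕ}

open Sys

/-- (9.2), (9.3): from the gluing property -/
theorem exists_closed_copy (hΩ : Cardinal.aleph0 ≤ Algebra.trdeg k Ω)
    (Z : Sys k ((Fin m → ℤ) × ℤ) I) (C h D G M : ℕ) (hCG : C ≤ G) (hGM : G < M)
    (Γ' : AddSubgroup (Fin m → ℤ)) [Γ'.FiniteIndex]
    (x : ((Fin m → ℤ) × ℤ) × I → Ω) (hx : Long Z C h D G Γ' x (M + G))
    (hwin : SameRel k (res x (lev 0 G)) (res (up (M : ℤ) x) (lev 0 G)))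
    (hglue : ∀ ξ₁ ξ₂, Lsol k C h Γ' x 0 G ξ₁ → Lsol k C h Γ' x M (M + G) ξ₂ →
      ∃ ξ, Lsol k C h Γ' x 0 (M + G) ξ ∧ (∀ v, v.1 ∈ lev 0 (G : ℤ) → ξ v = ξ₁ v) ∧
        (∀ v, v.1 ∈ lev (M : ℤ) (M + G) → ξ v = ξ₂ v)) :
    ∃ x2 : ((Fin m → ℤ) × ℤ) × I → Ω,
      SameRel k (res x (lev 0 (M + G))) (res x2 (lev 0 (M + G))) ∧
      (∀ v, v.1 ∈ lev 0 (G : ℤ) → x2 v = up (M : ℤ) x v) ∧
      (∀ v, v.1 ∈ lev 0 (G : ℤ) → up (M : ℤ) x2 v = x v) ∧
      trd k (Sum.elim (res x (lev 0 (M + G))) (res x2 (lev 0 (M + G)))) +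
        2 * trdOn k x (lev 0 G) = 2 * trdOn k x (lev 0 (M + G)) := by
  classical
  have hfin : (Set.range (res x (lev 0 ((M : ℤ) + G)))).Finite :=
    finite_range_lev Γ' hx.per 0 _
  let i₀ : Ix I (lev 0 (G : ℤ) : Set ((Fin m → ℤ) × ℤ)) →
      Ix I (lev 0 ((M : ℤ) + G) : Set ((Fin m → ℤ) × ℤ)) := fun v => ⟨v.1, by
    have h1 := v.2
    unfold lev at h1 ⊢
    simp only [Set.mem_setOf_eq] at h1 ⊢
    omega⟩
  let i₁ : Ix I (lev 0 (G : ℤ) : Set ((Fin m → ℤ) × ℤ)) →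
      Ix I (lev 0 ((M : ℤ) + G) : Set ((Fin m → ℤ) × ℤ)) := fun v =>
    ⟨((v.1.1.1, v.1.1.2 + (M : ℤ)), v.1.2), by
    have h1 := v.2
    unfold lev at h1 ⊢
    simp only [Set.mem_setOf_eq] at h1 ⊢
    omega⟩
  let i₁' : Ix I (lev 0 (G : ℤ) : Set ((Fin m → ℤ) × ℤ)) →
      Ix I (lev (M : ℤ) ((M : ℤ) + G) : Set ((Fin m → ℤ) × ℤ)) := fun v =>
    ⟨((v.1.1.1, v.1.1.2 + (M : ℤ)), v.1.2), by
    have h1 := v.2
    unfold lev at h1 ⊢
    simp only [Set.mem_setOf_eq] at h1 ⊢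
    omega⟩
  let j₁ : Ix I (lev (M : ℤ) ((M : ℤ) + G) : Set ((Fin m → ℤ) × ℤ)) →
      Ix I (lev 0 (G : ℤ) : Set ((Fin m → ℤ) × ℤ)) := fun v =>
    ⟨((v.1.1.1, v.1.1.2 - (M : ℤ)), v.1.2), by
    have h1 := v.2
    unfold lev at h1 ⊢
    simp only [Set.mem_setOf_eq] at h1 ⊢
    omega⟩
  have hji : ∀ v, j₁ (i₁' v) = v := by
    intro v
    apply Subtype.ext
    simp only [i₁', j₁, add_sub_cancel_right]
  have hij : ∀ v, i₁' (j₁ v) = v := by
    intro v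
    apply Subtype.ext
    simp only [i₁', j₁, sub_add_cancel]
  have htr : trd k (Sum.elim (res x (lev 0 ((M : ℤ) + G)) ∘ i₀)
      (res x (lev 0 ((M : ℤ) + G)) ∘ i₁)) =
      trd k (res x (lev 0 ((M : ℤ) + G)) ∘ i₀) + trd k (res x (lev 0 ((M : ℤ) + G)) ∘ i₁) := by
    refine q2_trd_sum _ _ (hfin.subset (Set.range_comp_subset_range _ _))
      (hfin.subset (Set.range_comp_subset_range _ _)) ?_
    intro ξ₁ ξ₂ h1 h2
    have L1 : Lsol k C h Γ' x 0 G (q2ext (lev 0 (G : ℤ)) ξ₁) :=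
      q2ext_lsol C h Γ' x hx.per 0 G ξ₁ h1
    have h2' : IsTan k (res x (lev (M : ℤ) ((M : ℤ) + G))) (ξ₂ ∘ j₁) := by
      refine IsTan.of_surj (e := i₁') (fun v => ⟨j₁ v, hij v⟩) ?_
      have e1 : (ξ₂ ∘ j₁) ∘ i₁' = ξ₂ := by
        funext v
        simp only [Function.comp_apply, hji]
      rw [e1]
      exact h2
    have L2 : Lsol k C h Γ' x M (M + G) (q2ext (lev (M : ℤ) ((M : ℤ) + G)) (ξ₂ ∘ j₁)) :=
      q2ext_lsol C h Γ' x hx.per _ _ _ h2'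
    obtain ⟨ξ, hξ, hξ1, hξ2⟩ := hglue _ _ L1 L2
    have T : IsTan k (res x (lev 0 ((M : ℤ) + G))) (res ξ (lev 0 ((M : ℤ) + G))) := by
      refine hx.full 0 ((M : ℤ) + G) le_rfl ?_ ?_ ξ hξ
      · omega
      · push_cast
        exact le_rfl
    have T' := T.comp (Sum.elim i₀ i₁)
    rw [Sum.comp_elim, Sum.comp_elim] at T'
    have e0 : res ξ (lev 0 ((M : ℤ) + G)) ∘ i₀ = ξ₁ := by
      funext v
      have h3 := hξ1 v.1 v.2
      have h4 := congrFun (q2ext_res (lev 0 (G : ℤ)) ξ₁) v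
      exact h3.trans h4
    have e1 : res ξ (lev 0 ((M : ℤ) + G)) ∘ i₁ = ξ₂ := by
      funext v
      have h3 := hξ2 (i₁' v).1 (i₁' v).2
      have h4 := congrFun (q2ext_res (lev (M : ℤ) ((M : ℤ) + G)) (ξ₂ ∘ j₁)) (i₁' v)
      have h5 : (ξ₂ ∘ j₁) (i₁' v) = ξ₂ v := by
        rw [Function.comp_apply, hji]
      exact (h3.trans h4).trans h5
    rw [e0, e1] at T'
    exact T'
  obtain ⟨X2, hX1, hX2, hX3, hX4⟩ := exists_second_copy hΩ (res x (lev 0 ((M : ℤ) + G))) hfin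
    i₀ i₁ hwin htr
  refine ⟨q2ext (lev 0 ((M : ℤ) + G)) X2, ?_, ?_, ?_, ?_⟩
  · rw [q2ext_res]
    exact hX1
  · intro v hv
    have h3 := congrFun hX2 ⟨v, hv⟩
    have h4 := congrFun (q2ext_res (lev 0 ((M : ℤ) + G)) X2) (i₀ ⟨v, hv⟩)
    exact h4.trans h3
  · intro v hv
    have h3 := congrFun hX3 ⟨v, hv⟩
    have h4 := congrFun (q2ext_res (lev 0 ((M : ℤ) + G)) X2) (i₁ ⟨v, hv⟩)
    exact h4.trans h3
  · rw [q2ext_res]
    exact hX4

end Pool.Agent.ORG
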