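import Pool.Agent.ORG.Defs
import Pool.Agent.ORG.F1
import Pool.Agent.ORG.F8
import Pool.Agent.ORG.S1
import Pool.Agent.ORG.P0

/-!
# MP_08a057_al, ORG module Q2b : transport of fullness to the second copy
(paper: /team-store/ORG_paper.md)
-/

set_option autoImplicit false

namespace Pool.Agent.ORG

open MvPolynomial

variable {k Ω : Type} [Field k] [CharZero k] [Field Ω] [Algebra k Ω] {I : Type} [Finite I] {m : ℕ}

open Sys

/-- the finite set of orbits -/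
abbrev Q2bJ (I : Type) {m : ℕ} (Γ' : AddSubgroup (Fin m → ℤ)) (a b : ℤ) : Type :=
  ((Fin m → ℤ) ⧸ Γ') × (Set.Icc a b) × I

/-- the orbit of an index -/
def q2bPi {I : Type} {m : ℕ} (Γ' : AddSubgroup (Fin m → ℤ)) (a b : ℤ)
    (v : Ix I (lev (Γ₀ := Fin m → ℤ) a b)) : Q2bJ I Γ' a b :=
  (QuotientAddGroup.mk v.1.1.1, ⟨v.1.1.2, v.2⟩, v.1.2)

/-- a representative -/
noncomputable def q2bSec {I : Type} {m : ℕ} (Γ' : AddSubgroup (Fin m → ℤ)) (a b : ℤ)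
    (j : Q2bJ I Γ' a b) : Ix I (lev (Γ₀ := Fin m → ℤ) a b) :=
  ⟨((Quotient.out j.1, (j.2.1 : ℤ)), j.2.2), j.2.1.2⟩

omit [Finite I] in
theorem q2bPi_sec (Γ' : AddSubgroup (Fin m → ℤ)) (a b : ℤ) (j : Q2bJ I Γ' a b) :
    q2bPi Γ' a b (q2bSec Γ' a b j) = j := by
  obtain ⟨q, t, i⟩ := j
  unfold q2bPi q2bSec
  refine Prod.ext ?_ (Prod.ext rfl rfl)
  exact QuotientAddGroup.out_eq' q

omit [Finite I] in
theorem q2bPi_surj (Γ' : AddSubgroup (Fin m → ℤ)) (a b : ℤ) :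
    Function.Surjective (q2bPi (I := I) Γ' a b) :=
  fun j => ⟨_, q2bPi_sec Γ' a b j⟩

/-- periodic functions are constant on orbits -/
theorem q2b_const {E : Type} {Γ' : AddSubgroup (Fin m → ℤ)} {x : ((Fin m → ℤ) × ℤ) × I → E}
    (h : Per0 Γ' x) {u v : (Fin m → ℤ) × ℤ} {i : I}
    (h1 : (QuotientAddGroup.mk u.1 : (Fin m → ℤ) ⧸ Γ') = QuotientAddGroup.mk v.1)
    (h2 : u.2 = v.2) : x (u, i) = x (v, i) := by
  have h3 : -u.1 + v.1 ∈ Γ' := QuotientAddGroup.eq.1 h1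
  have h4 := h (v.1 - u.1, 0) (by
    rw [AddSubgroup.mem_prod]
    refine ⟨?_, ?_⟩
    · show v.1 - u.1 ∈ Γ'
      rw [sub_eq_add_neg, add_comm]
      exact h3
    · exact AddSubgroup.zero_mem _) (u, i)
  have h5 : ((v.1 - u.1, (0 : ℤ)) : (Fin m → ℤ) × ℤ) + u = v := by
    refine Prod.ext ?_ ?_
    · show v.1 - u.1 + u.1 = v.1
      abel
    · show 0 + u.2 = v.2
      rw [zero_add, h2]
  rw [← h4]
  show x ((v.1 - u.1, (0 : ℤ)) + u, i) = x (v, i)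
  rw [h5]

theorem q2b_fac {E : Type} {Γ' : AddSubgroup (Fin m → ℤ)} {x : ((Fin m → ℤ) × ℤ) × I → E}
    (h : Per0 Γ' x) (a b : ℤ) :
    res x (lev a b) = (res x (lev a b) ∘ q2bSec Γ' a b) ∘ q2bPi Γ' a b := by
  funext v
  have h1 := q2bPi_sec Γ' a b (q2bPi Γ' a b v)
  exact (q2b_const h (u := (q2bSec Γ' a b (q2bPi Γ' a b v)).1.1) (v := v.1.1) (i := v.1.2)
    (congrArg Prod.fst h1) rfl).symm

theorem q2b_sl_lev {C : ℕ} {Q : Set (Fin m → ℤ)} {a b t : ℤ} (h1 : a ≤ t) (h2 : t + C ≤ b) :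
    sl Q t (t + C) ⊆ lev a b := by
  rintro v ⟨-, h3, h4⟩
  exact ⟨h1.trans h3, h4.trans h2⟩

/-- windows as families of indices of the region -/
def q2bInc {I : Type} {Γ : Type} {A B : Set Γ} (h : A ⊆ B) (v : Ix I A) : Ix I B :=
  ⟨v.1, h v.2⟩

theorem q2b_res_inc {E : Type} {Γ : Type} {A B : Set Γ} (h : A ⊆ B) (x : Γ × I → E) :
    res x A = res x B ∘ q2bInc h := rfl

theorem fullOn_transport (C h : ℕ) (Γ' : AddSubgroup (Fin m → ℤ)) [Γ'.FiniteIndex]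
    {x x2 : ((Fin m → ℤ) × ℤ) × I → Ω} (hper : Per0 Γ' x) (a b : ℤ)
    (hs : SameRel k (res x (lev a b)) (res x2 (lev a b))) (hfull : FullOn k C h Γ' x a b) :
    FullOn k C h Γ' x2 a b := by
  classical
  have hfin : Finite (Q2bJ I Γ' a b) := by
    have : Finite ((Fin m → ℤ) ⧸ Γ') := inferInstance
    have : Finite (Set.Icc a b) := inferInstance
    exact inferInstance
  set π := q2bPi (I := I) Γ' a b with hπ
  set σ := q2bSec (I := I) Γ' a b with hσ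
  have hx : res x (lev a b) = (res x (lev a b) ∘ σ) ∘ π := q2b_fac hper a b
  have hx2 : res x2 (lev a b) = (res x2 (lev a b) ∘ σ) ∘ π := by
    funext v
    exact hs.incl.eq_of_eq (congrFun hx v)
  have hb : SameRel k (res x (lev a b) ∘ σ) (res x2 (lev a b) ∘ σ) := hs.comp σ
  let Λ : Type := {l : (Fin m → ℤ) × ℤ // a ≤ l.2 ∧ l.2 + C ≤ b}
  let e : ∀ l : Λ, Ix I (sl (tr l.1.1 (cube m h)) l.1.2 (l.1.2 + C)) → Q2bJ I Γ' a b :=
    fun l => π ∘ q2bInc (q2b_sl_lev l.2.1 l.2.2)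
  have key := full_transport e hb (by
    intro ξ hξ
    let ξ' : ((Fin m → ℤ) × ℤ) × I → Ω := fun v =>
      if hv : v.1 ∈ lev a b then ξ (π ⟨v, hv⟩) else 0
    have hξ' : res ξ' (lev a b) = ξ ∘ π := by
      funext v
      show (if hv : v.1.1 ∈ lev a b then ξ (π ⟨v.1, hv⟩) else 0) = _
      rw [dif_pos v.2]
      rfl
    have hL : Lsol k C h Γ' x a b ξ' := by
      refine ⟨?_, ?_⟩
      · intro γ hγ v
        have hγ2 : γ.2 = 0 := (AddSubgroup.mem_prod.1 hγ).2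
        have hγ1 : γ.1 ∈ Γ' := (AddSubgroup.mem_prod.1 hγ).1
        have hlev : (γ + v.1) ∈ (lev a b : Set ((Fin m → ℤ) × ℤ)) ↔ v.1 ∈ lev a b := by
          show (a ≤ γ.2 + v.1.2 ∧ γ.2 + v.1.2 ≤ b) ↔ (a ≤ v.1.2 ∧ v.1.2 ≤ b)
          rw [hγ2, zero_add]
        show (if hv : (γ + v.1) ∈ lev a b then ξ (π ⟨(γ + v.1, v.2), hv⟩) else 0) =
          (if hv : v.1 ∈ lev a b then ξ (π ⟨v, hv⟩) else 0)
        by_cases hv : v.1 ∈ lev a b
        · rw [dif_pos hv, dif_pos (hlev.2 hv)]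
          congr 1
          refine Prod.ext ?_ (Prod.ext (Subtype.ext ?_) rfl)
          · show (QuotientAddGroup.mk (γ.1 + v.1.1) : (Fin m → ℤ) ⧸ Γ') =
              QuotientAddGroup.mk v.1.1
            rw [QuotientAddGroup.eq]
            have : -(γ.1 + v.1.1) + v.1.1 = -γ.1 := by abel
            rw [this]
            exact Γ'.neg_mem hγ1
          · show γ.2 + v.1.2 = v.1.2
            rw [hγ2, zero_add]
        · rw [dif_neg hv, dif_neg (fun h => hv (hlev.1 h))]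
      · intro γ t h1 h2
        have h3 := hξ ⟨(γ, t), h1, h2⟩
        show IsTan k (res x _) (res ξ' _)
        rw [q2b_res_inc (q2b_sl_lev h1 h2) x, q2b_res_inc (q2b_sl_lev h1 h2) ξ', hξ', hx]
        exact h3
    have h4 := hfull ξ' hL
    have h5 : IsTan k (res x (lev a b)) (res ξ' (lev a b)) := h4
    rw [hξ', hx] at h5
    exact IsTan.of_surj (q2bPi_surj Γ' a b) h5)
  intro ξ hξ
  have h6 : res ξ (lev a b) = (res ξ (lev a b) ∘ σ) ∘ π := q2b_fac hξ.1 a b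
  have h7 := key (res ξ (lev a b) ∘ σ) (by
    rintro ⟨⟨γ, t⟩, h1, h2⟩
    have h3 : IsTan k (res x2 _) (res ξ _) := hξ.2 γ t h1 h2
    rw [q2b_res_inc (q2b_sl_lev h1 h2) x2, q2b_res_inc (q2b_sl_lev h1 h2) ξ, h6, hx2] at h3
    exact h3)
  show IsTan k (res x2 (lev a b)) (res ξ (lev a b))
  rw [h6, hx2]
  exact h7.comp π

end Pool.Agent.ORG
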