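import Pool.Agent.ORG.Defs
import Pool.Agent.ORG.F1
import Pool.Agent.ORG.F4
import Pool.Agent.ORG.S1
import Pool.Agent.ORG.P0
import Pool.Agent.ORG.Q2

/-!
# MP_08a057_al, ORG module Q3a : (9.3) definition and genericity of the closed configuration
(paper: /team-store/ORG_paper.md)
-/

set_option autoImplicit false

namespace Pool.Agent.ORG

open MvPolynomial

variable {k Ω : Type} [Field k] [CharZero k] [IsAlgClosed k] [Field Ω] [Algebra k Ω]
  [IsAlgClosed Ω] {I : Type} [Finite I] {m : ℕ}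

open Sys

/-- the `2M`-periodic configuration made from two configurations -/
def q3aY {m : ℕ} {I Ω : Type} (M : ℕ) (x x2 : ((Fin m → ℤ) × ℤ) × I → Ω) :
    ((Fin m → ℤ) × ℤ) × I → Ω := fun v =>
  if v.1.2 % (2 * (M : ℤ)) < M then x ((v.1.1, v.1.2 % (2 * (M : ℤ))), v.2)
  else x2 ((v.1.1, v.1.2 % (2 * (M : ℤ)) - M), v.2)

/-- (9.3): the `2M`-periodic configuration made from the two copies -/
theorem exists_two_copies (Z : Sys k ((Fin m → ℤ) × ℤ) I) (G M D : ℕ) (hGM : G < M)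
    (Γ' : AddSubgroup (Fin m → ℤ)) {x x2 : ((Fin m → ℤ) × ℤ) × I → Ω} (hper : Per0 Γ' x)
    (hgen : ∀ t : ℤ, 0 ≤ t → t ≤ M → ∀ p q : Fin m → ℤ, (∀ i, q i - p i ≤ D) →
      Z.Gen x (sl (Set.Icc p q) t (t + G)))
    (hs : SameRel k (res x (lev 0 (M + G))) (res x2 (lev 0 (M + G))))
    (h1 : ∀ v, v.1 ∈ lev 0 (G : ℤ) → x2 v = up (M : ℤ) x v)
    (h2 : ∀ v, v.1 ∈ lev 0 (G : ℤ) → up (M : ℤ) x2 v = x v) :
    ∃ y : ((Fin m → ℤ) × ℤ) × I → Ω,
      Per (Γ'.prod (AddSubgroup.zmultiples ((2 * M : ℕ) : ℤ))) y ∧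
      (∀ v, v.1 ∈ lev 0 ((M : ℤ) + G) → y v = x v) ∧
      (∀ v, v.1 ∈ lev 0 ((M : ℤ) + G) → up (M : ℤ) y v = x2 v) ∧
      (∀ (t : ℤ) (p q : Fin m → ℤ), (∀ i, q i - p i ≤ D) →
        Z.Gen y (sl (Set.Icc p q) t (t + G))) ∧
      trdOn k y Set.univ =
        trd k (Sum.elim (res x (lev 0 (M + G))) (res x2 (lev 0 (M + G)))) := by
  have hM : (0 : ℤ) < M := by exact_mod_cast lt_of_le_of_lt (Nat.zero_le _) hGM
  have hGM' : (G : ℤ) < M := by exact_mod_cast hGM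
  have hG0 : (0 : ℤ) ≤ G := by exact_mod_cast Nat.zero_le _
  -- periodicity of `x2` on the levels `[0, M+G]`
  have hx : ∀ (γ : Fin m → ℤ), γ ∈ Γ' → ∀ (u : Fin m → ℤ) (t : ℤ) (i : I),
      x ((γ + u, t), i) = x ((u, t), i) := by
    intro γ hγ u t i
    have := hper (γ, 0) (by
      rw [AddSubgroup.mem_prod]
      exact ⟨hγ, by simp⟩) ((u, t), i)
    simpa using this
  have hx2 : ∀ (γ : Fin m → ℤ), γ ∈ Γ' → ∀ (u : Fin m → ℤ) (t : ℤ) (i : I), 0 ≤ t →
      t ≤ M + G → x2 ((γ + u, t), i) = x2 ((u, t), i) := by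
    intro γ hγ u t i h0 hl
    have e1 : res x (lev 0 ((M : ℤ) + G)) ⟨((γ + u, t), i), ⟨h0, hl⟩⟩ =
        res x (lev 0 ((M : ℤ) + G)) ⟨((u, t), i), ⟨h0, hl⟩⟩ := hx γ hγ u t i
    exact hs.incl.eq_of_eq e1
  set y := q3aY M x x2 with hy
  have hyv : ∀ (u : Fin m → ℤ) (t : ℤ) (i : I), y ((u, t), i) =
      if t % (2 * (M : ℤ)) < M then x ((u, t % (2 * (M : ℤ))), i)
      else x2 ((u, t % (2 * (M : ℤ)) - M), i) := fun _ _ _ => rfl
  have hmod0 : ∀ t : ℤ, 0 ≤ t % (2 * (M : ℤ)) := fun t => Int.emod_nonneg _ (by omega)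
  have hmod1 : ∀ t : ℤ, t % (2 * (M : ℤ)) < 2 * M := fun t => Int.emod_lt_of_pos _ (by omega)
  have hper2 : ∀ (u : Fin m → ℤ) (t j : ℤ) (i : I),
      y ((u, t + 2 * (M : ℤ) * j), i) = y ((u, t), i) := by
    intro u t j i
    rw [hyv, hyv, Int.add_mul_emod_self_left]
  have hyx : ∀ v : ((Fin m → ℤ) × ℤ) × I, v.1 ∈ lev 0 ((M : ℤ) + G) → y v = x v := by
    rintro ⟨⟨u, t⟩, i⟩ ⟨ht0, ht1⟩
    have ht0' : 0 ≤ t := ht0
    have ht1' : t ≤ M + G := ht1
    rw [hyv, Int.emod_eq_of_lt ht0' (by omega)]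
    split_ifs with h
    · rfl
    · have := h1 ((u, t - M), i) ⟨by show (0 : ℤ) ≤ t - M; omega, by show t - M ≤ (G : ℤ); omega⟩
      rw [this]
      show x ((u, t - M + M), i) = _
      rw [sub_add_cancel]
  have hyx2 : ∀ v : ((Fin m → ℤ) × ℤ) × I, v.1 ∈ lev 0 ((M : ℤ) + G) →
      up (M : ℤ) y v = x2 v := by
    rintro ⟨⟨u, t⟩, i⟩ ⟨ht0, ht1⟩
    have ht0' : 0 ≤ t := ht0
    have ht1' : t ≤ M + G := ht1
    show y ((u, t + M), i) = _
    by_cases hlt : t < M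
    · rw [hyv, Int.emod_eq_of_lt (by omega) (by omega), if_neg (by omega), add_sub_cancel_right]
    · have e : t + (M : ℤ) = (t - M) + 2 * (M : ℤ) * 1 := by ring
      rw [e, hper2, hyx ((u, t - M), i) ⟨by show (0 : ℤ) ≤ t - M; omega,
        by show t - M ≤ (M : ℤ) + G; omega⟩]
      have := h2 ((u, t - M), i) ⟨by show (0 : ℤ) ≤ t - M; omega, by show t - M ≤ (G : ℤ); omega⟩
      rw [← this]
      show x2 ((u, t - M + M), i) = _
      rw [sub_add_cancel]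
  refine ⟨y, ?_, hyx, hyx2, ?_, ?_⟩
  · -- periodicity
    rintro ⟨γ, s⟩ hγ ⟨⟨u, t⟩, i⟩
    rw [AddSubgroup.mem_prod] at hγ
    obtain ⟨hγ1, hγ2⟩ := hγ
    obtain ⟨j, hj⟩ := AddSubgroup.mem_zmultiples_iff.mp hγ2
    have hj' : s = 2 * (M : ℤ) * j := by
      have : s = j • ((2 * M : ℕ) : ℤ) := hj.symm
      rw [this]
      push_cast
      rw [smul_eq_mul]
      ring
    show y ((γ + u, s + t), i) = y ((u, t), i)
    have e : s + t = t + 2 * (M : ℤ) * j := by rw [hj']; ring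
    rw [e, hper2, hyv, hyv]
    split_ifs with h
    · exact hx γ hγ1 u _ i
    · have a0 := hmod0 t
      have a1 := hmod1 t
      exact hx2 γ hγ1 u _ i (by omega) (by omega)
  · -- genericity
    intro t p q hpq
    have a0 := hmod0 t
    have a1 := hmod1 t
    set s : ℤ := t % (2 * (M : ℤ)) with hsdef
    have hst : t = s + 2 * (M : ℤ) * (t / (2 * (M : ℤ))) := by
      rw [hsdef]
      exact (Int.emod_add_mul_ediv t (2 * (M : ℤ))).symm
    set j : ℤ := t / (2 * (M : ℤ)) with hjdef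
    -- move to level `s`
    have hset : sl (Set.Icc p q) t (t + G) =
        tr ((0 : Fin m → ℤ), 2 * (M : ℤ) * j) (sl (Set.Icc p q) s (s + G)) := by
      ext v
      simp only [sl, tr, Set.mem_ofPred_eq, Prod.fst_sub, Prod.snd_sub, sub_zero]
      constructor
      · rintro ⟨b1, b2, b3⟩
        exact ⟨b1, by omega, by omega⟩
      · rintro ⟨b1, b2, b3⟩
        exact ⟨b1, by omega, by omega⟩
    rw [hset, gen_tr]
    have hys : (fun v : ((Fin m → ℤ) × ℤ) × I =>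
        y (((0 : Fin m → ℤ), 2 * (M : ℤ) * j) + v.1, v.2)) = y := by
      funext v
      obtain ⟨⟨u, r⟩, i⟩ := v
      show y ((0 + u, 2 * (M : ℤ) * j + r), i) = _
      rw [zero_add, add_comm, hper2]
    rw [hys]
    by_cases hsM : s ≤ M
    · refine Gen.congr (hgen s a0 hsM p q hpq) ?_
      rintro v ⟨_, b1, b2⟩
      exact (hyx v ⟨by omega, by omega⟩).symm
    · push Not at hsM
      have hset2 : sl (Set.Icc p q) s (s + G) =
          tr ((0 : Fin m → ℤ), (M : ℤ)) (sl (Set.Icc p q) (s - M) (s - M + G)) := by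
        ext v
        simp only [sl, tr, Set.mem_ofPred_eq, Prod.fst_sub, Prod.snd_sub, sub_zero]
        constructor
        · rintro ⟨b1, b2, b3⟩
          exact ⟨b1, by omega, by omega⟩
        · rintro ⟨b1, b2, b3⟩
          exact ⟨b1, by omega, by omega⟩
      rw [hset2, gen_tr]
      have hgx : Z.Gen x2 (sl (Set.Icc p q) (s - M) (s - M + G)) := by
        have hg := hgen (s - M) (by omega) (by omega) p q hpq
        have hsub : ∀ v : (Fin m → ℤ) × ℤ, v ∈ sl (Set.Icc p q) (s - M) (s - M + G) →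
            v ∈ lev 0 ((M : ℤ) + G) := by
          rintro v ⟨_, b1, b2⟩
          exact ⟨by omega, by omega⟩
        have hc := hs.comp (fun v : Ix I (sl (Set.Icc p q) (s - M) (s - M + G)) =>
          (⟨v.1, hsub _ v.2⟩ : Ix I (lev 0 ((M : ℤ) + G))))
        exact SameRel.trans hg hc
      refine Gen.congr hgx ?_
      rintro ⟨⟨u, r⟩, i⟩ ⟨_, b1, b2⟩
      have b1' : s - M ≤ r := b1
      have b2' : r ≤ s - M + G := b2
      rw [← hyx2 ((u, r), i) ⟨by show (0 : ℤ) ≤ r; omega, by show r ≤ (M : ℤ) + G; omega⟩]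
      show y ((u, r + M), i) = y ((0 + u, (M : ℤ) + r), i)
      rw [zero_add, add_comm (M : ℤ) r]
  · -- transcendence degree
    apply trd_congr_range
    ext w
    constructor
    · rintro ⟨⟨⟨⟨u, t⟩, i⟩, _⟩, rfl⟩
      have a0 := hmod0 t
      have a1 := hmod1 t
      show y ((u, t), i) ∈ _
      rw [hyv]
      split_ifs with h
      · exact ⟨Sum.inl ⟨((u, t % (2 * (M : ℤ))), i), ⟨a0, by
          show t % (2 * (M : ℤ)) ≤ (M : ℤ) + G
          omega⟩⟩, rfl⟩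
      · exact ⟨Sum.inr ⟨((u, t % (2 * (M : ℤ)) - M), i), ⟨by
          show 0 ≤ t % (2 * (M : ℤ)) - M
          omega, by
          show t % (2 * (M : ℤ)) - M ≤ (M : ℤ) + G
          omega⟩⟩, rfl⟩
    · rintro ⟨a, rfl⟩
      rcases a with a | a
      · exact ⟨⟨a.1, Set.mem_univ _⟩, hyx a.1 a.2⟩
      · exact ⟨⟨((a.1.1.1, a.1.1.2 + M), a.1.2), Set.mem_univ _⟩, hyx2 a.1 a.2⟩

end Pool.Agent.ORG
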