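import Pool.Agent.ORG.Defs
import Pool.Agent.ORG.F1
import Pool.Agent.ORG.F2
import Pool.Agent.ORG.F3
import Pool.Agent.ORG.F4
import Pool.Agent.ORG.S1
import Pool.Agent.ORG.P0
import Pool.Agent.ORG.Q2
import Pool.Agent.ORG.Q2b
import Pool.Agent.ORG.Q3a

/-!
# MP_08a057_al, ORG module Q3 : (9.4) the closed configuration is full
(paper: /team-store/ORG_paper.md)
-/

set_option autoImplicit false

namespace Pool.Agent.ORG

open MvPolynomial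

variable {k Ω : Type} [Field k] [CharZero k] [IsAlgClosed k] [Field Ω] [Algebra k Ω]
  [IsAlgClosed Ω] {I : Type} [Finite I] {m : ℕ}

open Sys

section q3aux

variable {k Ω I : Type} [Field k] [Field Ω] [Algebra k Ω] {m : ℕ}

/-- change of indices of a linear space of functions, the kernel of a difference map -/
theorem q3_ker_bound {T₁ T₂ U V : Type} (S₁ : Submodule Ω (T₁ → Ω)) (S₂ : Submodule Ω (T₂ → Ω))
    (W₀ : Submodule Ω (U → Ω)) (W₁ : Submodule Ω (V → Ω))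
    [Module.Finite Ω S₁] [Module.Finite Ω S₂] [Module.Finite Ω W₀] [Module.Finite Ω W₁]
    (e₀ : U → T₁) (e₁ : V → T₁) (f₀ : U → T₂) (f₁ : V → T₂)
    (hsurj : ∀ a ∈ W₀, ∀ b ∈ W₁, ∃ s ∈ S₁, s ∘ e₀ = a ∧ s ∘ e₁ = b)
    {Q : Type} (P : Submodule Ω (Q → Ω)) (g₁ : T₁ → Q) (g₂ : T₂ → Q)
    (hP1 : ∀ p ∈ P, p ∘ g₁ ∈ S₁) (hP2 : ∀ p ∈ P, p ∘ g₂ ∈ S₂)
    (hinj : ∀ p ∈ P, p ∘ g₁ = 0 → p ∘ g₂ = 0 → p = 0)
    (h0 : ∀ p ∈ P, (p ∘ g₁) ∘ e₀ = (p ∘ g₂) ∘ f₀) (h1 : ∀ p ∈ P, (p ∘ g₁) ∘ e₁ = (p ∘ g₂) ∘ f₁) :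
    Module.Finite Ω P ∧ Module.finrank Ω P + Module.finrank Ω W₀ + Module.finrank Ω W₁ ≤
      Module.finrank Ω S₁ + Module.finrank Ω S₂ := by
  classical
  let D : (S₁ × S₂) →ₗ[Ω] ((U → Ω) × (V → Ω)) :=
    LinearMap.prod
      ((LinearMap.funLeft Ω Ω e₀).comp (S₁.subtype.comp (LinearMap.fst Ω S₁ S₂)) -
        (LinearMap.funLeft Ω Ω f₀).comp (S₂.subtype.comp (LinearMap.snd Ω S₁ S₂)))
      ((LinearMap.funLeft Ω Ω e₁).comp (S₁.subtype.comp (LinearMap.fst Ω S₁ S₂)) -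
        (LinearMap.funLeft Ω Ω f₁).comp (S₂.subtype.comp (LinearMap.snd Ω S₁ S₂)))
  let Φ : P →ₗ[Ω] (S₁ × S₂) :=
    LinearMap.prod
      (LinearMap.codRestrict S₁ ((LinearMap.funLeft Ω Ω g₁).comp P.subtype)
        (fun p => hP1 p.1 p.2))
      (LinearMap.codRestrict S₂ ((LinearMap.funLeft Ω Ω g₂).comp P.subtype)
        (fun p => hP2 p.1 p.2))
  have hΦ : ∀ p : P, Φ p ∈ LinearMap.ker D := by
    intro p
    rw [LinearMap.mem_ker]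
    refine Prod.ext ?_ ?_
    · show (p.1 ∘ g₁) ∘ e₀ - (p.1 ∘ g₂) ∘ f₀ = 0
      rw [h0 p.1 p.2, sub_self]
    · show (p.1 ∘ g₁) ∘ e₁ - (p.1 ∘ g₂) ∘ f₁ = 0
      rw [h1 p.1 p.2, sub_self]
  let Ψ : P →ₗ[Ω] LinearMap.ker D := LinearMap.codRestrict _ Φ hΦ
  have hΨ : Function.Injective Ψ := by
    rw [injective_iff_map_eq_zero]
    intro p hp
    have hp' : Φ p = 0 := congrArg Subtype.val hp
    have h1' : p.1 ∘ g₁ = 0 := congrArg (fun q : S₁ × S₂ => (q.1 : T₁ → Ω)) hp'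
    have h2' : p.1 ∘ g₂ = 0 := congrArg (fun q : S₁ × S₂ => (q.2 : T₂ → Ω)) hp'
    exact Subtype.ext (hinj p.1 p.2 h1' h2')
  have hfin : Module.Finite Ω P := Module.Finite.of_injective Ψ hΨ
  refine ⟨hfin, ?_⟩
  have hle : Module.finrank Ω P ≤ Module.finrank Ω (LinearMap.ker D) :=
    LinearMap.finrank_le_finrank_of_injective hΨ
  have hrn := LinearMap.finrank_range_add_finrank_ker D
  rw [Module.finrank_prod] at hrn
  let J : (W₀ × W₁) →ₗ[Ω] ((U → Ω) × (V → Ω)) := LinearMap.prodMap W₀.subtype W₁.subtype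
  have hJ : Function.Injective J := by
    rw [injective_iff_map_eq_zero]
    intro p hp
    have h1' : (p.1 : U → Ω) = 0 := congrArg Prod.fst hp
    have h2' : (p.2 : V → Ω) = 0 := congrArg Prod.snd hp
    exact Prod.ext (Subtype.ext h1') (Subtype.ext h2')
  have hJr : ∀ p, J p ∈ LinearMap.range D := by
    intro p
    obtain ⟨s, hs, h1', h2'⟩ := hsurj p.1 p.1.2 p.2 p.2.2
    refine ⟨(⟨s, hs⟩, 0), ?_⟩
    refine Prod.ext ?_ ?_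
    · show s ∘ e₀ - (0 : T₂ → Ω) ∘ f₀ = (p.1 : U → Ω)
      rw [h1']
      exact sub_zero _
    · show s ∘ e₁ - (0 : T₂ → Ω) ∘ f₁ = (p.2 : V → Ω)
      rw [h2']
      exact sub_zero _
  have hle2 : Module.finrank Ω (W₀ × W₁) ≤ Module.finrank Ω (LinearMap.range D) :=
    LinearMap.finrank_le_finrank_of_injective
      (f := LinearMap.codRestrict (LinearMap.range D) J hJr)
      (fun a b hab => hJ (congrArg Subtype.val hab))
  rw [Module.finrank_prod] at hle2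
  omega

theorem q3_tanOn_up (M : ℤ) {x ξ : ((Fin m → ℤ) × ℤ) × I → Ω} (A : Set ((Fin m → ℤ) × ℤ)) :
    TanOn k x (tr (0, M) A) ξ ↔ TanOn k (up M x) A (up M ξ) := by
  have h := tanOn_tr (k := k) (x := x) (ξ := ξ) (A := A) ((0, M) : (Fin m → ℤ) × ℤ)
  have hx : ∀ x : ((Fin m → ℤ) × ℤ) × I → Ω,
      (fun v : ((Fin m → ℤ) × ℤ) × I => x (((0, M) : (Fin m → ℤ) × ℤ) + v.1, v.2)) = up M x := by
    intro x
    funext v
    unfold up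
    congr 2
    refine Prod.ext ?_ ?_
    · simp
    · simp [add_comm]
  rw [hx x, hx ξ] at h
  exact h

theorem q3_tr_sl (γ : Fin m → ℤ) (t : ℤ) (C h : ℕ) :
    tr (γ, t) (sl (cube m h) 0 C) = sl (tr γ (cube m h)) t (t + C) := by
  ext v
  simp only [tr, sl, Set.mem_setOf_eq, Prod.fst_sub, Prod.snd_sub]
  constructor
  · rintro ⟨h1, h2, h3⟩
    exact ⟨h1, by omega, by omega⟩
  · rintro ⟨h1, h2, h3⟩
    exact ⟨h1, by omega, by omega⟩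

theorem q3_tr_tr (γ : Fin m → ℤ) (t M : ℤ) (A : Set ((Fin m → ℤ) × ℤ)) :
    tr (γ, t + M) A = tr (0, M) (tr (γ, t) A) := by
  ext v
  simp only [tr, Set.mem_setOf_eq]
  have : v - (0, M) - (γ, t) = v - (γ, t + M) := by
    refine Prod.ext ?_ ?_
    · simp
    · simp only [Prod.snd_sub]
      ring
  rw [this]

/-- extension by zero of a tangent vector on levels is a local solution -/
theorem q3_lsol_of_tan (C h : ℕ) (Γ' : AddSubgroup (Fin m → ℤ))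
    {x : ((Fin m → ℤ) × ℤ) × I → Ω} (hper : Per0 Γ' x) (p q : ℤ)
    (a : Ix I (lev (Γ₀ := Fin m → ℤ) p q) → Ω) (ha : a ∈ Tan k (res x (lev p q))) :
    ∃ ξ, Lsol k C h Γ' x p q ξ ∧ res ξ (lev p q) = a := by
  classical
  let ξ : ((Fin m → ℤ) × ℤ) × I → Ω :=
    fun v => if hv : v.1 ∈ lev (Γ₀ := Fin m → ℤ) p q then a ⟨v, hv⟩ else 0
  have hres : res ξ (lev p q) = a := by
    funext v
    show (if hv : v.1.1 ∈ lev (Γ₀ := Fin m → ℤ) p q then a ⟨v.1, hv⟩ else 0) = a v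
    rw [dif_pos v.2]
  have htan : TanOn k x (lev p q) ξ := by
    show IsTan k (res x (lev p q)) (res ξ (lev p q))
    rw [hres]
    exact ha
  refine ⟨ξ, ⟨?_, ?_⟩, hres⟩
  · rintro γ ⟨hγ1, hγ2⟩ v
    have hγ2' : γ.2 = 0 := by simpa using hγ2
    have hmem : (γ + v.1) ∈ lev (Γ₀ := Fin m → ℤ) p q ↔ v.1 ∈ lev (Γ₀ := Fin m → ℤ) p q := by
      simp only [lev, Set.mem_setOf_eq, Prod.snd_add, hγ2', zero_add]
    by_cases hv : v.1 ∈ lev (Γ₀ := Fin m → ℤ) p q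
    · have hv' := hmem.2 hv
      have key := IsTan.eq_of_eq (k := k) (b := res x (lev p q)) (ξ := a) ha
        (i := ⟨(γ + v.1, v.2), hv'⟩) (j := ⟨v, hv⟩)
        (hper γ ⟨hγ1, hγ2⟩ v)
      show (if hv : (γ + v.1) ∈ lev (Γ₀ := Fin m → ℤ) p q then a ⟨(γ + v.1, v.2), hv⟩ else 0) =
        (if hv : v.1 ∈ lev (Γ₀ := Fin m → ℤ) p q then a ⟨v, hv⟩ else 0)
      rw [dif_pos hv', dif_pos hv]
      exact key
    · have hv' := fun h' => hv (hmem.1 h')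
      show (if hv : (γ + v.1) ∈ lev (Γ₀ := Fin m → ℤ) p q then a ⟨(γ + v.1, v.2), hv⟩ else 0) =
        (if hv : v.1 ∈ lev (Γ₀ := Fin m → ℤ) p q then a ⟨v, hv⟩ else 0)
      rw [dif_neg hv', dif_neg hv]
  · intro γ t ht1 ht2
    refine TanOn.mono htan ?_
    rintro v ⟨_, h2, h3⟩
    exact ⟨by omega, by omega⟩

/-- every site is equivalent to a site on the first or on the second copy -/
theorem q3_reach (G M : ℕ) (hGM : G < M) (Γ' : AddSubgroup (Fin m → ℤ))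
    (v : ((Fin m → ℤ) × ℤ) × I) :
    ∃ v' : ((Fin m → ℤ) × ℤ) × I, v'.1 ∈ lev (Γ₀ := Fin m → ℤ) 0 ((M : ℤ) + G) ∧
      ((∀ p : ((Fin m → ℤ) × ℤ) × I → Ω,
          Per (Γ'.prod (AddSubgroup.zmultiples ((2 * M : ℕ) : ℤ))) p → p v = p v') ∨
        (∀ p : ((Fin m → ℤ) × ℤ) × I → Ω,
          Per (Γ'.prod (AddSubgroup.zmultiples ((2 * M : ℕ) : ℤ))) p → p v = up (M : ℤ) p v')) := by
  obtain ⟨⟨u, t⟩, i⟩ := v
  have hM : (0 : ℤ) < ((2 * M : ℕ) : ℤ) := by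
    have : 0 < 2 * M := by omega
    exact_mod_cast this
  have h1 := Int.emod_nonneg t (ne_of_gt hM)
  have h2 := Int.emod_lt_of_pos t hM
  have h3 := Int.emod_add_mul_ediv t ((2 * M : ℕ) : ℤ)
  have hp : ∀ p : ((Fin m → ℤ) × ℤ) × I → Ω,
      Per (Γ'.prod (AddSubgroup.zmultiples ((2 * M : ℕ) : ℤ))) p →
      p ((u, t), i) = p ((u, t % ((2 * M : ℕ) : ℤ)), i) := by
    intro p hp
    have h := hp ((0, ((2 * M : ℕ) : ℤ) * (t / ((2 * M : ℕ) : ℤ))) : (Fin m → ℤ) × ℤ)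
      ⟨AddSubgroup.zero_mem _, by
        show ((2 * M : ℕ) : ℤ) * (t / ((2 * M : ℕ) : ℤ)) ∈ AddSubgroup.zmultiples ((2 * M : ℕ) : ℤ)
        exact AddSubgroup.mem_zmultiples_iff.2
          ⟨t / ((2 * M : ℕ) : ℤ), by rw [smul_eq_mul]; exact mul_comm _ _⟩⟩
      ((u, t % ((2 * M : ℕ) : ℤ)), i)
    rw [← h]
    show p ((u, t), i) = p ((0 + u, _ + t % ((2 * M : ℕ) : ℤ)), i)
    rw [zero_add, add_comm, h3]
  push_cast at h1 h2 hp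
  by_cases hc : t % (2 * (M : ℤ)) ≤ (M : ℤ) + G
  · refine ⟨((u, t % (2 * (M : ℤ))), i), ⟨h1, hc⟩, Or.inl ?_⟩
    intro p h
    exact hp p (by push_cast; exact h)
  · push Not at hc
    refine ⟨((u, t % (2 * (M : ℤ)) - M), i), ⟨?_, ?_⟩, Or.inr ?_⟩
    · show (0 : ℤ) ≤ t % (2 * (M : ℤ)) - M
      omega
    · show t % (2 * (M : ℤ)) - M ≤ (M : ℤ) + G
      omega
    intro p h
    rw [hp p (by push_cast; exact h)]
    show _ = p ((u, t % (2 * (M : ℤ)) - M + M), i)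
    rw [sub_add_cancel]

theorem q3_per_shift (M : ℕ) (Γ' : AddSubgroup (Fin m → ℤ))
    {p : ((Fin m → ℤ) × ℤ) × I → Ω}
    (hp : Per (Γ'.prod (AddSubgroup.zmultiples ((2 * M : ℕ) : ℤ))) p)
    (u : Fin m → ℤ) (t : ℤ) (i : I) : p ((u, t + 2 * M), i) = p ((u, t), i) := by
  have h := hp ((0, ((2 * M : ℕ) : ℤ)) : (Fin m → ℤ) × ℤ)
    ⟨AddSubgroup.zero_mem _, AddSubgroup.mem_zmultiples _⟩ ((u, t), i)
  rw [← h]
  show p ((u, t + 2 * M), i) = p ((0 + u, ((2 * M : ℕ) : ℤ) + t), i)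
  rw [zero_add, add_comm]
  push_cast
  rfl

theorem q3_per0 (M : ℕ) (Γ' : AddSubgroup (Fin m → ℤ))
    {p : ((Fin m → ℤ) × ℤ) × I → Ω}
    (hp : Per (Γ'.prod (AddSubgroup.zmultiples ((2 * M : ℕ) : ℤ))) p) : Per0 Γ' p := by
  rintro γ ⟨h1, h2⟩ v
  refine hp γ ⟨h1, ?_⟩ v
  have : γ.2 = 0 := by simpa using h2
  show γ.2 ∈ AddSubgroup.zmultiples ((2 * M : ℕ) : ℤ)
  rw [this]
  exact AddSubgroup.zero_mem _

theorem q3_per0_up (M : ℤ) (Γ' : AddSubgroup (Fin m → ℤ))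
    {p : ((Fin m → ℤ) × ℤ) × I → Ω} (hp : Per0 Γ' p) : Per0 Γ' (up M p) := by
  intro γ hγ v
  have h := hp γ hγ ((v.1.1, v.1.2 + M), v.2)
  show p ((γ.1 + v.1.1, γ.2 + v.1.2 + M), v.2) = p ((v.1.1, v.1.2 + M), v.2)
  rw [← h]
  show _ = p ((γ.1 + v.1.1, γ.2 + (v.1.2 + M)), v.2)
  rw [add_assoc]

end q3aux

/-- (9.4), dimension count -/
theorem full_closed (C h G M : ℕ) (hCG : C ≤ G) (hGM : G < M)
    (Γ' : AddSubgroup (Fin m → ℤ)) [Γ'.FiniteIndex]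
    {x x2 y : ((Fin m → ℤ) × ℤ) × I → Ω} (hper : Per0 Γ' x)
    (hf : FullOn k C h Γ' x 0 (M + G)) (hf0 : FullOn k C h Γ' x 0 G)
    (hfM : FullOn k C h Γ' x M (M + G)) (hf2 : FullOn k C h Γ' x2 0 (M + G))
    (hs : SameRel k (res x (lev 0 (M + G))) (res x2 (lev 0 (M + G))))
    (hwin : SameRel k (res x (lev 0 G)) (res (up (M : ℤ) x) (lev 0 G)))
    (hglue : ∀ ξ₁ ξ₂, Lsol k C h Γ' x 0 G ξ₁ → Lsol k C h Γ' x M (M + G) ξ₂ →
      ∃ ξ, Lsol k C h Γ' x 0 (M + G) ξ ∧ (∀ v, v.1 ∈ lev 0 (G : ℤ) → ξ v = ξ₁ v) ∧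
        (∀ v, v.1 ∈ lev (M : ℤ) (M + G) → ξ v = ξ₂ v))
    (hy : Per (Γ'.prod (AddSubgroup.zmultiples ((2 * M : ℕ) : ℤ))) y)
    (hy1 : ∀ v, v.1 ∈ lev 0 ((M : ℤ) + G) → y v = x v)
    (hy2 : ∀ v, v.1 ∈ lev 0 ((M : ℤ) + G) → up (M : ℤ) y v = x2 v)
    (htr : trdOn k y Set.univ + 2 * trdOn k x (lev 0 G) = 2 * trdOn k x (lev 0 (M + G))) :
    Full k (Γ'.prod (AddSubgroup.zmultiples ((2 * M : ℕ) : ℤ))) (sl (cube m h) 0 C) y := by
  classical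
  -- finiteness of the ranges
  have hrL : (Set.range (res x (lev 0 ((M : ℤ) + G)))).Finite := finite_range_lev Γ' hper _ _
  have hr0 : (Set.range (res x (lev 0 (G : ℤ)))).Finite := finite_range_lev Γ' hper _ _
  have hrM : (Set.range (res x (lev (M : ℤ) ((M : ℤ) + G)))).Finite := finite_range_lev Γ' hper _ _
  have hx2eq : res x2 (lev 0 ((M : ℤ) + G)) = res (up (M : ℤ) y) (lev 0 ((M : ℤ) + G)) := by
    funext v
    exact (hy2 v.1 v.2).symm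
  have hr2 : (Set.range (res x2 (lev 0 ((M : ℤ) + G)))).Finite := by
    rw [hx2eq]
    exact finite_range_lev Γ' (q3_per0_up (M : ℤ) Γ' (q3_per0 M Γ' hy)) _ _
  have hyu : (Set.range (res y Set.univ)).Finite := by
    refine (hrL.union hr2).subset ?_
    rintro _ ⟨v, rfl⟩
    obtain ⟨v', hv', h | h⟩ := q3_reach (Ω := Ω) G M hGM Γ' v.1
    · left
      refine ⟨⟨v', hv'⟩, ?_⟩
      show x v' = y v.1
      rw [h y hy, hy1 v' hv']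
    · right
      refine ⟨⟨v', hv'⟩, ?_⟩
      show x2 v' = y v.1
      rw [h y hy, hy2 v' hv']
  -- instances
  have i1 := finite_Tan (k := k) (res x (lev 0 ((M : ℤ) + G))) hrL
  have i2 := finite_Tan (k := k) (res x2 (lev 0 ((M : ℤ) + G))) hr2
  have i3 := finite_Tan (k := k) (res x (lev 0 (G : ℤ))) hr0
  have i4 := finite_Tan (k := k) (res x (lev (M : ℤ) ((M : ℤ) + G))) hrM
  have i5 := finite_Tan (k := k) (res y Set.univ) hyu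
  -- the index maps
  let e₀ : Ix I (lev (Γ₀ := Fin m → ℤ) 0 (G : ℤ)) → Ix I (lev (Γ₀ := Fin m → ℤ) 0 ((M : ℤ) + G)) :=
    fun v => ⟨v.1, ⟨v.2.1, by have := v.2.2; omega⟩⟩
  let e₁ : Ix I (lev (Γ₀ := Fin m → ℤ) (M : ℤ) ((M : ℤ) + G)) →
      Ix I (lev (Γ₀ := Fin m → ℤ) 0 ((M : ℤ) + G)) :=
    fun v => ⟨v.1, ⟨by have := v.2.1; omega, v.2.2⟩⟩
  let f₀ : Ix I (lev (Γ₀ := Fin m → ℤ) 0 (G : ℤ)) → Ix I (lev (Γ₀ := Fin m → ℤ) 0 ((M : ℤ) + G)) :=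
    fun v => ⟨((v.1.1.1, v.1.1.2 + M), v.1.2), ⟨by have := v.2.1; show 0 ≤ v.1.1.2 + (M : ℤ); omega,
      by have := v.2.2; show v.1.1.2 + (M : ℤ) ≤ M + G; omega⟩⟩
  let f₁ : Ix I (lev (Γ₀ := Fin m → ℤ) (M : ℤ) ((M : ℤ) + G)) →
      Ix I (lev (Γ₀ := Fin m → ℤ) 0 ((M : ℤ) + G)) :=
    fun v => ⟨((v.1.1.1, v.1.1.2 - M), v.1.2), ⟨by have := v.2.1; show 0 ≤ v.1.1.2 - (M : ℤ); omega,
      by have := v.2.2; show v.1.1.2 - (M : ℤ) ≤ M + G; omega⟩⟩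
  let g₁ : Ix I (lev (Γ₀ := Fin m → ℤ) 0 ((M : ℤ) + G)) → ((Fin m → ℤ) × ℤ) × I := Subtype.val
  let g₂ : Ix I (lev (Γ₀ := Fin m → ℤ) 0 ((M : ℤ) + G)) → ((Fin m → ℤ) × ℤ) × I :=
    fun v => ((v.1.1.1, v.1.1.2 + M), v.1.2)
  -- periodic local solutions
  let P : Submodule Ω (((Fin m → ℤ) × ℤ) × I → Ω) :=
    { carrier := {ξ | Per (Γ'.prod (AddSubgroup.zmultiples ((2 * M : ℕ) : ℤ))) ξ ∧
        ∀ γ, TanOn k y (tr γ (sl (cube m h) 0 C)) ξ}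
      add_mem' := by
        rintro ξ η ⟨h1, h2⟩ ⟨h3, h4⟩
        refine ⟨fun γ hγ v => ?_, fun γ => (h2 γ).add (h4 γ)⟩
        show ξ _ + η _ = ξ _ + η _
        rw [h1 γ hγ v, h3 γ hγ v]
      zero_mem' := ⟨fun γ hγ v => rfl, fun γ => TanOn.zero _ _⟩
      smul_mem' := by
        rintro c ξ ⟨h1, h2⟩
        refine ⟨fun γ hγ v => ?_, fun γ => (h2 γ).smul c⟩
        show c * ξ _ = c * ξ _
        rw [h1 γ hγ v] }
  have hP1 : ∀ p ∈ P, p ∘ g₁ ∈ Tan k (res x (lev 0 ((M : ℤ) + G))) := by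
    rintro p ⟨h1, h2⟩
    refine hf p ⟨q3_per0 M Γ' h1, ?_⟩
    intro γ t ht1 ht2
    have h3 := h2 (γ, t)
    rw [q3_tr_sl] at h3
    refine TanOn.congr h3 ?_ (fun v _ => rfl)
    rintro v ⟨_, h5, h6⟩
    exact hy1 v ⟨by omega, by omega⟩
  have hP2 : ∀ p ∈ P, p ∘ g₂ ∈ Tan k (res x2 (lev 0 ((M : ℤ) + G))) := by
    rintro p ⟨h1, h2⟩
    refine hf2 (up (M : ℤ) p) ⟨q3_per0_up (M : ℤ) Γ' (q3_per0 M Γ' h1), ?_⟩
    intro γ t ht1 ht2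
    have h3 := h2 (γ, t + M)
    rw [q3_tr_tr, q3_tanOn_up, q3_tr_sl] at h3
    refine TanOn.congr h3 ?_ (fun v _ => rfl)
    rintro v ⟨_, h5, h6⟩
    exact hy2 v ⟨by omega, by omega⟩
  have hinj : ∀ p ∈ P, p ∘ g₁ = 0 → p ∘ g₂ = 0 → p = 0 := by
    rintro p ⟨h1, h2⟩ h3 h4
    funext v
    obtain ⟨v', hv', h | h⟩ := q3_reach (Ω := Ω) G M hGM Γ' v
    · rw [h p h1]
      exact congrFun h3 ⟨v', hv'⟩
    · rw [h p h1]
      exact congrFun h4 ⟨v', hv'⟩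
  have h0 : ∀ p ∈ P, (p ∘ g₁) ∘ e₀ = (p ∘ g₂) ∘ f₀ := by
    rintro p ⟨h1, h2⟩
    funext v
    show p v.1 = p ((v.1.1.1, v.1.1.2 + M + M), v.1.2)
    rw [add_assoc, ← two_mul, q3_per_shift M Γ' h1]
  have h1 : ∀ p ∈ P, (p ∘ g₁) ∘ e₁ = (p ∘ g₂) ∘ f₁ := by
    rintro p ⟨h1, h2⟩
    funext v
    show p v.1 = p ((v.1.1.1, v.1.1.2 - M + M), v.1.2)
    rw [sub_add_cancel]
  have hsurj : ∀ a ∈ Tan k (res x (lev 0 (G : ℤ))),
      ∀ b ∈ Tan k (res x (lev (M : ℤ) ((M : ℤ) + G))),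
      ∃ s ∈ Tan k (res x (lev 0 ((M : ℤ) + G))), s ∘ e₀ = a ∧ s ∘ e₁ = b := by
    intro a ha b hb
    obtain ⟨ξ₁, hl1, hr1⟩ := q3_lsol_of_tan C h Γ' hper 0 (G : ℤ) a ha
    obtain ⟨ξ₂, hl2, hr2⟩ := q3_lsol_of_tan C h Γ' hper (M : ℤ) ((M : ℤ) + G) b hb
    obtain ⟨ξ, hl, h3, h4⟩ := hglue ξ₁ ξ₂ hl1 hl2
    refine ⟨res ξ (lev 0 ((M : ℤ) + G)), hf ξ hl, ?_, ?_⟩
    · rw [← hr1]
      funext v
      exact h3 v.1 v.2
    · rw [← hr2]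
      funext v
      exact h4 v.1 v.2
  obtain ⟨hPfin, hPle⟩ := q3_ker_bound _ _ _ _ e₀ e₁ f₀ f₁ hsurj P g₁ g₂ hP1 hP2 hinj h0 h1
  rw [finrank_Tan (k := k) _ hrL, finrank_Tan (k := k) _ hr2, finrank_Tan (k := k) _ hr0,
    finrank_Tan (k := k) _ hrM, ← hs.trd_eq] at hPle
  have hωM : trd k (res x (lev (M : ℤ) ((M : ℤ) + G))) = trd k (res x (lev 0 (G : ℤ))) := by
    rw [hwin.trd_eq]
    refine trd_congr_range ?_
    ext c
    constructor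
    · rintro ⟨v, rfl⟩
      refine ⟨⟨((v.1.1.1, v.1.1.2 - M), v.1.2), ⟨?_, ?_⟩⟩, ?_⟩
      · have := v.2.1
        show 0 ≤ v.1.1.2 - (M : ℤ)
        omega
      · have := v.2.2
        show v.1.1.2 - (M : ℤ) ≤ G
        omega
      · show x ((v.1.1.1, v.1.1.2 - M + M), v.1.2) = x v.1
        rw [sub_add_cancel]
    · rintro ⟨v, rfl⟩
      refine ⟨⟨((v.1.1.1, v.1.1.2 + M), v.1.2), ⟨?_, ?_⟩⟩, rfl⟩
      · have := v.2.1
        show (M : ℤ) ≤ v.1.1.2 + (M : ℤ)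
        omega
      · have := v.2.2
        show v.1.1.2 + (M : ℤ) ≤ M + G
        omega
  rw [hωM] at hPle
  have htr' : trd k (res y Set.univ) + 2 * trd k (res x (lev 0 (G : ℤ))) =
    2 * trd k (res x (lev 0 ((M : ℤ) + G))) := htr
  have hPle' : Module.finrank Ω P ≤ Module.finrank Ω (Tan k (res y Set.univ)) := by
    rw [finrank_Tan (k := k) _ hyu]
    omega
  -- global tangent vectors
  let H0 : Tan k (res y Set.univ) →ₗ[Ω] (((Fin m → ℤ) × ℤ) × I → Ω) :=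
    (LinearMap.funLeft Ω Ω (fun v : ((Fin m → ℤ) × ℤ) × I =>
      (⟨v, trivial⟩ : Ix I (Set.univ : Set ((Fin m → ℤ) × ℤ))))).comp
      (Tan k (res y Set.univ)).subtype
  have hH0 : ∀ ξ, H0 ξ ∈ P := by
    intro ξ
    have htan : TanOn k y Set.univ (H0 ξ) := ξ.2
    refine ⟨?_, fun γ => htan.mono (Set.subset_univ _)⟩
    intro γ hγ v
    exact IsTan.eq_of_eq (k := k) (b := res y Set.univ) ξ.2
      (i := ⟨(γ + v.1, v.2), trivial⟩) (j := ⟨v, trivial⟩) (hy γ hγ v)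
  let H : Tan k (res y Set.univ) →ₗ[Ω] P := LinearMap.codRestrict P H0 hH0
  have hHinj : Function.Injective H := by
    intro a b hab
    refine Subtype.ext ?_
    funext v
    exact congrFun (congrArg Subtype.val hab) v.1
  have hHle := LinearMap.finrank_le_finrank_of_injective hHinj
  have hHsurj : Function.Surjective H :=
    (LinearMap.injective_iff_surjective_of_finrank_eq_finrank (le_antisymm hHle hPle')).1 hHinj
  intro ξ hξ1 hξ2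
  obtain ⟨a, ha⟩ := hHsurj ⟨ξ, ⟨hξ1, hξ2⟩⟩
  have ha' : H0 a = ξ := congrArg Subtype.val ha
  rw [← ha']
  exact a.2

/-- (9.3), (9.4): closing -/
theorem exists_closed (hΩ : Cardinal.aleph0 ≤ Algebra.trdeg k Ω)
    (Z : Sys k ((Fin m → ℤ) × ℤ) I) (C h D G M : ℕ) (hCG : C ≤ G) (hGM : G < M)
    (Γ' : AddSubgroup (Fin m → ℤ)) [Γ'.FiniteIndex]
    (x : ((Fin m → ℤ) × ℤ) × I → Ω) (hx : Long Z C h D G Γ' x (M + G))
    (hwin : SameRel k (res x (lev 0 G)) (res (up (M : ℤ) x) (lev 0 G)))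
    (hglue : ∀ ξ₁ ξ₂, Lsol k C h Γ' x 0 G ξ₁ → Lsol k C h Γ' x M (M + G) ξ₂ →
      ∃ ξ, Lsol k C h Γ' x 0 (M + G) ξ ∧ (∀ v, v.1 ∈ lev 0 (G : ℤ) → ξ v = ξ₁ v) ∧
        (∀ v, v.1 ∈ lev (M : ℤ) (M + G) → ξ v = ξ₂ v)) :
    ∃ y : ((Fin m → ℤ) × ℤ) × I → Ω,
      Per (Γ'.prod (AddSubgroup.zmultiples ((2 * M : ℕ) : ℤ))) y ∧
      (∀ (t : ℤ) (p q : Fin m → ℤ), (∀ i, q i - p i ≤ D) →
        Z.Gen y (sl (Set.Icc p q) t (t + G))) ∧
      Full k (Γ'.prod (AddSubgroup.zmultiples ((2 * M : ℕ) : ℤ))) (sl (cube m h) 0 C) y := by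
  obtain ⟨x2, hs, h1, h2, htr⟩ := exists_closed_copy hΩ Z C h D G M hCG hGM Γ' x hx hwin hglue
  have hf : FullOn k C h Γ' x 0 ((M : ℤ) + G) :=
    hx.full 0 _ le_rfl (by omega) (by push_cast; exact le_rfl)
  have hf0 : FullOn k C h Γ' x 0 (G : ℤ) :=
    hx.full 0 _ le_rfl (by omega) (by push_cast; omega)
  have hfM : FullOn k C h Γ' x (M : ℤ) ((M : ℤ) + G) :=
    hx.full _ _ (by omega) (by omega) (by push_cast; exact le_rfl)
  have hf2 : FullOn k C h Γ' x2 0 ((M : ℤ) + G) := fullOn_transport C h Γ' hx.per _ _ hs hf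
  obtain ⟨y, hy, hy1, hy2, hgen, htry⟩ := exists_two_copies Z G M D hGM Γ' hx.per
    (fun t ht0 htM p q hpq => hx.gen t ht0 (by push_cast; omega) p q hpq) hs h1 h2
  refine ⟨y, hy, hgen, ?_⟩
  exact full_closed C h G M hCG hGM Γ' hx.per hf hf0 hfM hf2 hs hwin hglue hy hy1 hy2
    (by rw [htry]; exact htr)

end Pool.Agent.ORG
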