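import Pool.Agent.ORG.Defs
import Pool.Agent.ORG.F6
import Pool.Agent.ORG.S1

/-!
# MP_08a057_al, ORG module R1 : (C_0) and transport of (C) along isomorphisms
(paper: /team-store/ORG_paper.md)
-/

set_option autoImplicit false

namespace Pool.Agent.ORG

open MvPolynomial

variable {k Ω : Type} [Field k] [CharZero k] [IsAlgClosed k] [Field Ω] [Algebra k Ω]
  [IsAlgClosed Ω]

theorem cThm_zero (hΩ : Cardinal.aleph0 ≤ Algebra.trdeg k Ω) : CThm k Ω (Fin 0 → ℤ) := by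
  intro I _ Z _
  have : Finite (Fin 0 → ℤ) := Finite.of_subsingleton
  obtain ⟨x, hx⟩ := exists_realisation hΩ Z.z (Set.finite_range Z.z)
  refine ⟨Set.univ, Set.finite_univ, fun V1 F _ _ => ⟨⊤, x, inferInstance, ?_, ?_, ?_, ?_⟩⟩
  · intro u _ _
    exact Subsingleton.elim _ _
  · intro γ _ v
    congr 1
    exact Prod.ext (Subsingleton.elim _ _) rfl
  · intro γ
    exact hx.comp (fun v : Ix I (tr γ V1) => v.1)
  · intro ξ _ h
    have h1 := h 0
    have h2 : tr (0 : Fin 0 → ℤ) Set.univ = Set.univ := by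
      ext u; simp [tr]
    rwa [h2] at h1

section R1aux

variable {Γ Γ' I : Type} [AddCommGroup Γ] [AddCommGroup Γ']

/-- the map of indices belonging to an isomorphism -/
def r1ix (e : Γ ≃+ Γ') (γ : Γ) (A : Set Γ) : Ix I (tr γ A) → Ix I (tr (e γ) (e '' A)) :=
  fun v => ⟨(e v.1.1, v.1.2), ⟨v.1.1 - γ, v.2, by rw [map_sub]⟩⟩

theorem r1ix_surj (e : Γ ≃+ Γ') (γ : Γ) (A : Set Γ) :
    Function.Surjective (r1ix (I := I) e γ A) := by
  rintro ⟨⟨u, i⟩, ⟨a, ha, hau⟩⟩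
  refine ⟨⟨(e.symm u, i), ?_⟩, ?_⟩
  · show e.symm u - γ ∈ A
    have h1 : e.symm u - γ = a := by
      apply e.injective
      rw [map_sub, e.apply_symm_apply, hau]
    rw [h1]; exact ha
  · apply Subtype.ext
    exact Prod.ext (e.apply_symm_apply u) rfl

omit [CharZero k] [IsAlgClosed k] in
theorem r1_map_z (e : Γ ≃+ Γ') (Z : Sys k Γ I) (v : Γ × I) : (Z.map e).z (e v.1, v.2) = Z.z v := by
  show Z.α (Multiplicative.ofAdd (e.symm (e v.1))) (Z.z0 v.2) =
    Z.α (Multiplicative.ofAdd v.1) (Z.z0 v.2)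
  rw [e.symm_apply_apply]

omit [CharZero k] [IsAlgClosed k] in
theorem r1_shift_single (Z : Sys k Γ I) (γ : Γ) (v : Γ × I) (c : Z.K) :
    Z.shift γ (Finsupp.single v c) =
      Finsupp.single (γ + v.1, v.2) (Z.α (Multiplicative.ofAdd γ) c) := by
  show Finsupp.mapDomain _ (Finsupp.mapRange (((Z.α (Multiplicative.ofAdd γ) : Z.K ≃+* Z.K) :
    Z.K →+ Z.K)) (map_zero _) (Finsupp.single v c)) = _
  rw [Finsupp.mapRange_single, Finsupp.mapDomain_single]
  rfl

end R1aux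

theorem cThm_of_equiv {Γ Γ' : Type} [AddCommGroup Γ] [AddCommGroup Γ'] (e : Γ ≃+ Γ')
    {I : Type} [Finite I] (Z : Sys k Γ I)
    (h : ∃ Vs : Set Γ', Vs.Finite ∧ ∀ V1 F : Set Γ', V1.Finite → F.Finite →
      ∃ (Γ'' : AddSubgroup Γ') (x : Γ' × I → Ω), Γ''.FiniteIndex ∧ Sparse Γ'' F ∧ Per Γ'' x ∧
        (∀ γ, (Z.map e).Gen x (tr γ V1)) ∧ Full k Γ'' Vs x) :
    ∃ Vs : Set Γ, Vs.Finite ∧ ∀ V1 F : Set Γ, V1.Finite → F.Finite →
      ∃ (Γ'' : AddSubgroup Γ) (x : Γ × I → Ω), Γ''.FiniteIndex ∧ Sparse Γ'' F ∧ Per Γ'' x ∧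
        (∀ γ, Z.Gen x (tr γ V1)) ∧ Full k Γ'' Vs x := by
  obtain ⟨Vs, hVs, h⟩ := h
  refine ⟨e ⁻¹' Vs, hVs.preimage e.injective.injOn, fun V1 F hV1 hF => ?_⟩
  obtain ⟨Γ'', x, hfi, hsp, hper, hgen, hfull⟩ := h (e '' V1) (e '' F) (hV1.image _) (hF.image _)
  refine ⟨Γ''.comap (e : Γ →+ Γ'), fun v => x (e v.1, v.2), ?_, ?_, ?_, ?_, ?_⟩
  · constructor
    rw [AddSubgroup.index_comap_of_surjective _ (f := (e : Γ →+ Γ')) e.surjective]
    exact hfi.index_ne_zero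
  · intro u hu hu'
    have h1 := hsp (e u) ⟨u, hu, rfl⟩ hu'
    exact (map_eq_zero_iff e e.injective).1 h1
  · intro γ hγ v
    have h1 := hper (e γ) hγ (e v.1, v.2)
    show x (e (γ + v.1), v.2) = x (e v.1, v.2)
    rw [map_add]; exact h1
  · intro γ
    have h1 := (hgen (e γ)).comp (r1ix e γ V1)
    have h2 : res (Z.map e).z (tr (e γ) (e '' V1)) ∘ r1ix e γ V1 = res Z.z (tr γ V1) := by
      funext v
      exact r1_map_z e Z v.1
    rw [h2] at h1
    exact h1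
  · intro ξ hξ hT
    have h1 : Per Γ'' (fun v : Γ' × I => ξ (e.symm v.1, v.2)) := by
      intro γ hγ v
      have h2 := hξ (e.symm γ) (by
        show e (e.symm γ) ∈ Γ''
        rw [e.apply_symm_apply]; exact hγ) (e.symm v.1, v.2)
      show ξ (e.symm (γ + v.1), v.2) = ξ (e.symm v.1, v.2)
      rw [map_add]; exact h2
    have h2 := hfull _ h1 (fun γ => by
      have h3 := hT (e.symm γ)
      have h4 : (e '' (e ⁻¹' Vs)) = Vs := Set.image_preimage_eq _ e.surjective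
      have h5 : IsTan k (res x (tr (e (e.symm γ)) (e '' (e ⁻¹' Vs))))
          (res (fun v : Γ' × I => ξ (e.symm v.1, v.2)) (tr (e (e.symm γ)) (e '' (e ⁻¹' Vs)))) := by
        refine IsTan.of_surj (r1ix_surj e (e.symm γ) (e ⁻¹' Vs)) ?_
        have h6 : (res (fun v : Γ' × I => ξ (e.symm v.1, v.2))
            (tr (e (e.symm γ)) (e '' (e ⁻¹' Vs)))) ∘ r1ix e (e.symm γ) (e ⁻¹' Vs) =
            res ξ (tr (e.symm γ) (e ⁻¹' Vs)) := by
          funext v
          show ξ (e.symm (e v.1.1), v.1.2) = ξ v.1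
          rw [e.symm_apply_apply]
        rw [h6]
        exact h3
      rw [h4, e.apply_symm_apply] at h5
      exact h5)
    have h7 : IsTan k (res x Set.univ) (res (fun v : Γ' × I => ξ (e.symm v.1, v.2)) Set.univ) := h2
    have h8 := h7.comp (fun v : Ix I (Set.univ : Set Γ) =>
      (⟨(e v.1.1, v.1.2), trivial⟩ : Ix I (Set.univ : Set Γ')))
    have h9 : (res (fun v : Γ' × I => ξ (e.symm v.1, v.2)) Set.univ) ∘
        (fun v : Ix I (Set.univ : Set Γ) =>
      (⟨(e v.1.1, v.1.2), trivial⟩ : Ix I (Set.univ : Set Γ'))) = res ξ Set.univ := by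
      funext v
      show ξ (e.symm (e v.1.1), v.1.2) = ξ v.1
      rw [e.symm_apply_apply]
    rw [h9] at h8
    exact h8

theorem map_proj {Γ Γ' I : Type} [AddCommGroup Γ] [AddCommGroup Γ'] (e : Γ ≃+ Γ')
    (Z : Sys k Γ I) (h : Z.Proj) : (Z.map e).Proj := by
  obtain ⟨S, h1, h2, h3, h4⟩ := h
  set ε : Γ × I ≃ Γ' × I := e.toEquiv.prodCongr (Equiv.refl I) with hε
  let Φ : (Γ × I →₀ Z.K) ≃ₗ[Z.K] (Γ' × I →₀ Z.K) := Finsupp.domLCongr ε
  let sh' : Γ' → (Γ' × I →₀ Z.K) →+ (Γ' × I →₀ Z.K) := fun γ => (Z.map e).shift γ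
  let RV' : Submodule Z.K (Γ' × I →₀ Z.K) := (Z.map e).RV Set.univ
  let z' : Γ' × I → Z.K := (Z.map e).z
  have hΦ : ∀ p, Φ p = Finsupp.mapDomain ε p := fun p => by
    show Finsupp.equivMapDomain ε p = _
    rw [Finsupp.equivMapDomain_eq_mapDomain]
  have hΦ' : ∀ p, Φ.symm p = Finsupp.mapDomain ε.symm p := fun p => by
    show Finsupp.equivMapDomain ε.symm p = _
    rw [Finsupp.equivMapDomain_eq_mapDomain]
  have hz : z' ∘ ε = Z.z := funext fun v => r1_map_z e Z v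
  have hz' : Z.z ∘ ε.symm = z' := by
    rw [← hz]; funext v; simp
  have hsh : ∀ γ p, Φ (Z.shift γ p) = sh' (e γ) (Φ p) := by
    intro γ p
    have h5 : (Φ.toLinearMap.toAddMonoidHom.comp (Z.shift γ)) =
        (sh' (e γ)).comp Φ.toLinearMap.toAddMonoidHom := by
      apply Finsupp.addHom_ext
      intro v c
      show Φ (Z.shift γ (Finsupp.single v c)) = sh' (e γ) (Φ (Finsupp.single v c))
      rw [r1_shift_single, hΦ, hΦ, Finsupp.mapDomain_single, Finsupp.mapDomain_single]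
      refine Eq.trans ?_ (r1_shift_single (Z.map e) (e γ) (ε v) c).symm
      congr 1
      · show (e (γ + v.1), v.2) = (e γ + e v.1, v.2)
        rw [map_add]
      · show Z.α (Multiplicative.ofAdd γ) c = Z.α (Multiplicative.ofAdd (e.symm (e γ))) c
        rw [e.symm_apply_apply]
    exact DFunLike.congr_fun h5 p
  have hRV : ∀ p ∈ Z.RV Set.univ, Φ p ∈ RV' := by
    intro p hp
    have h5 : Z.RV Set.univ ≤ RV'.comap Φ.toLinearMap := by
      refine Submodule.span_le.2 ?_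
      rintro _ ⟨P, -, hP, rfl⟩
      refine Submodule.subset_span ⟨rename ε P, fun v _ => trivial, ?_, ?_⟩
      · show aeval z' (rename ε P) = 0
        rw [aeval_rename, hz, hP]
      · show Φ (dvec k Z.z P) = dvec k z' (rename ε P)
        rw [dvec_rename, hΦ, hz]
    exact h5 hp
  have hRV' : ∀ p ∈ RV', Φ.symm p ∈ Z.RV Set.univ := by
    intro p hp
    have h5 : RV' ≤ (Z.RV Set.univ).comap Φ.symm.toLinearMap := by
      refine Submodule.span_le.2 ?_
      rintro _ ⟨P, -, hP, rfl⟩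
      refine Submodule.subset_span ⟨rename ε.symm P, fun v _ => trivial, ?_, ?_⟩
      · rw [aeval_rename, hz']
        exact hP
      · show Φ.symm (dvec k z' P) = dvec k Z.z (rename ε.symm P)
        rw [dvec_rename, hΦ', hz']
    exact h5 hp
  show ∃ S : (Γ' × I →₀ Z.K) →ₗ[Z.K] (Γ' × I →₀ Z.K), (∀ γ p, S (sh' γ p) = sh' γ (S p)) ∧
    (∀ p ∈ RV', S p = 0) ∧ (∀ p, S p - p ∈ RV') ∧
    (∀ i v, S (Finsupp.single ((0 : Γ'), i) 1) v ∈ fld k z')
  refine ⟨(Φ.toLinearMap.comp S).comp Φ.symm.toLinearMap, ?_, ?_, ?_, ?_⟩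
  · intro γ p
    show Φ (S (Φ.symm (sh' γ p))) = sh' γ (Φ (S (Φ.symm p)))
    have h5 : Φ.symm (sh' γ p) = Z.shift (e.symm γ) (Φ.symm p) := by
      apply Φ.injective
      rw [hsh, e.apply_symm_apply, Φ.apply_symm_apply, Φ.apply_symm_apply]
    rw [h5, h1, hsh, e.apply_symm_apply]
  · intro p hp
    show Φ (S (Φ.symm p)) = 0
    rw [h2 _ (hRV' p hp), map_zero]
  · intro p
    show Φ (S (Φ.symm p)) - p ∈ RV'
    have h5 := hRV _ (h3 (Φ.symm p))
    rwa [map_sub, Φ.apply_symm_apply] at h5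
  · intro i v
    show Φ (S (Φ.symm (Finsupp.single ((0 : Γ'), i) 1))) v ∈ fld k z'
    have h5 : Φ.symm (Finsupp.single ((0 : Γ'), i) 1) = Finsupp.single ((0 : Γ), i) 1 := by
      rw [hΦ', Finsupp.mapDomain_single]
      congr 1
      show (e.symm 0, i) = (0, i)
      rw [map_zero]
    have h6 : fld k z' = fld k Z.z := by
      rw [← hz, fld, fld, Set.range_comp, ε.surjective.range_eq, Set.image_univ]
    rw [h5, h6]
    exact h4 i (ε.symm v)

end Pool.Agent.ORG
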