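import Pool.Agent.ORG.Defs
import Pool.Agent.ORG.R1
import Pool.Agent.ORG.G2
import Pool.Agent.ORG.E4
import Pool.Agent.ORG.P8
import Pool.Agent.ORG.Q1
import Pool.Agent.ORG.Q3
import Pool.Agent.ORG.S1

/-!
# MP_08a057_al, ORG module R2 : section 10: induction; top configuration
(paper: /team-store/ORG_paper.md)
-/

set_option autoImplicit false

namespace Pool.Agent.ORG

open MvPolynomial

/-- a finite set is contained in a translate of a cube -/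
theorem r2_exists_cube {m : ℕ} (V : Set (Fin m → ℤ)) (hV : V.Finite) :
    ∃ B : ℕ, ∀ v ∈ V, ∀ i, |v i| ≤ B := by
  classical
  refine ⟨∑ v ∈ hV.toFinset, ∑ i, (v i).natAbs, fun v hv i => ?_⟩
  have h1 : (v i).natAbs ≤ ∑ i, (v i).natAbs :=
    Finset.single_le_sum (f := fun i => (v i).natAbs) (fun _ _ => Nat.zero_le _)
      (Finset.mem_univ i)
  have h2 : ∑ i, (v i).natAbs ≤ ∑ v ∈ hV.toFinset, ∑ i, (v i).natAbs :=
    Finset.single_le_sum (f := fun v : Fin m → ℤ => ∑ i, (v i).natAbs)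
      (fun _ _ => Nat.zero_le _) (hV.mem_toFinset.2 hv)
  rw [Int.abs_eq_natAbs]
  exact_mod_cast h1.trans h2

theorem r2_exists_bound (V : Set ℤ) (hV : V.Finite) : ∃ B : ℕ, ∀ v ∈ V, |v| ≤ B := by
  classical
  refine ⟨∑ v ∈ hV.toFinset, v.natAbs, fun v hv => ?_⟩
  have h2 : v.natAbs ≤ ∑ v ∈ hV.toFinset, v.natAbs :=
    Finset.single_le_sum (f := fun v : ℤ => v.natAbs)
      (fun _ _ => Nat.zero_le _) (hV.mem_toFinset.2 hv)
  rw [Int.abs_eq_natAbs]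
  exact_mod_cast h2

theorem r2_mem_tr {Γ : Type} [AddCommGroup Γ] (γ : Γ) (A : Set Γ) (v : Γ) :
    v ∈ tr γ A ↔ v - γ ∈ A := Iff.rfl

theorem r2_finiteIndex {m : ℕ} (Γ' : AddSubgroup (Fin m → ℤ)) (hfi : Γ'.FiniteIndex) (M : ℕ)
    (hM : 1 ≤ M) : (Γ'.prod (AddSubgroup.zmultiples ((2 * M : ℕ) : ℤ))).FiniteIndex := by
  have h2 : (AddSubgroup.zmultiples ((2 * M : ℕ) : ℤ)).FiniteIndex := by
    constructor
    rw [Int.index_zmultiples]
    simp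
    omega
  have e1 : Γ'.prod (AddSubgroup.zmultiples ((2 * M : ℕ) : ℤ)) =
      Γ'.comap (AddMonoidHom.fst (Fin m → ℤ) ℤ) ⊓
        (AddSubgroup.zmultiples ((2 * M : ℕ) : ℤ)).comap (AddMonoidHom.snd (Fin m → ℤ) ℤ) := by
    ext v
    simp [AddSubgroup.mem_prod]
  rw [e1]
  constructor
  refine AddSubgroup.index_inf_ne_zero ?_ ?_
  · rw [AddSubgroup.index_comap_of_surjective _ Prod.fst_surjective]
    exact hfi.index_ne_zero
  · rw [AddSubgroup.index_comap_of_surjective _ Prod.snd_surjective]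
    exact h2.index_ne_zero

theorem r2_full_mono {k Ω : Type} [Field k] [Field Ω] [Algebra k Ω] {m : ℕ} {I : Type} (Γ' : AddSubgroup (Fin m → ℤ))
    (x : (Fin m → ℤ) × I → Ω) (Vs : Set (Fin m → ℤ)) (B h : ℕ) (hh : 2 * B ≤ h)
    (hB : ∀ v ∈ Vs, ∀ i, |v i| ≤ B) (hf : Full k Γ' Vs x) : Full k Γ' (cube m h) x := by
  intro ξ hξ ht
  refine hf ξ hξ fun γ => ?_
  refine (ht (γ - fun _ => (B : ℤ))).mono ?_
  intro v hv
  rw [r2_mem_tr] at hv ⊢
  intro i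
  have := abs_le.1 (hB _ hv i)
  simp only [Pi.sub_apply] at this ⊢
  constructor <;> push_cast <;> [linarith; skip]
  have h2 : (2 * (B : ℤ)) ≤ h := by exact_mod_cast hh
  linarith

variable {k Ω : Type} [Field k] [CharZero k] [IsAlgClosed k] [Field Ω] [Algebra k Ω]
  [IsAlgClosed Ω]

/-- the long configurations obtained from (C_m) for a slab system -/
theorem long_of_cThm (hΩ : Cardinal.aleph0 ≤ Algebra.trdeg k Ω) {m : ℕ}
    (hC : CThm k Ω (Fin m → ℤ)) {I : Type} [Finite I] (Z : Sys k ((Fin m → ℤ) × ℤ) I)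
    {N Nm : Set ((Fin m → ℤ) × ℤ)} {c : ℕ} (hD : DirData Z N Nm c) (a b : ℤ) (hab : a + c ≤ b)
    (hPP : Z.PProj a b) (C1 : ℕ) :
    ∃ C h1 : ℕ, C1 ≤ C ∧ ∀ h : ℕ, h1 ≤ h → ∀ (G D : ℕ), C ≤ G → ∀ F : Set (Fin m → ℤ),
      F.Finite → ∃ Γ' : AddSubgroup (Fin m → ℤ), Γ'.FiniteIndex ∧ Sparse Γ' F ∧
      ∀ M0 : ℕ, ∃ (M : ℕ) (x : ((Fin m → ℤ) × ℤ) × I → Ω), M0 ≤ M ∧
        Long Z C h D G Γ' x (M + G) ∧
        SameRel k (res x (lev 0 G)) (res (up (M : ℤ) x) (lev 0 G)) := by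
  obtain ⟨C0, hC0⟩ := slab_proj Z hD a b hab hPP
  obtain ⟨C, hCdef⟩ : ∃ C, C = max (max C0 C1) c := ⟨_, rfl⟩
  have h0C : C0 ≤ C := by omega
  have h1C : C1 ≤ C := by omega
  have hcC : c ≤ C := by omega
  have hP : (Z.slab C).Proj := hC0 C h0C
  obtain ⟨hL, hLong⟩ := exists_long hΩ Z hD C hcC hP
  obtain ⟨Vs, hVs, hC'⟩ := hC (Fin (C + 1) × I) (Z.slab C) hP
  obtain ⟨B, hB⟩ := r2_exists_cube Vs hVs
  refine ⟨C, max hL (2 * B), h1C, ?_⟩
  intro h hh G D hCG F hF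
  obtain ⟨D2, hD2⟩ := hLong h (le_trans (le_max_left _ _) hh) G D hCG
  have hball : (ball m D2).Finite := by
    have : ball m D2 ⊆ Set.Icc (fun _ => -(D2 : ℤ)) (fun _ => (D2 : ℤ)) := by
      intro v hv
      exact ⟨fun i => (hv i).1, fun i => (hv i).2⟩
    exact (Set.finite_Icc _ _).subset this
  have hcube : (cube m D2).Finite := by
    have : cube m D2 ⊆ Set.Icc (fun _ => (0 : ℤ)) (fun _ => (D2 : ℤ)) := by
      intro v hv
      exact ⟨fun i => (hv i).1, fun i => (hv i).2⟩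
    exact (Set.finite_Icc _ _).subset this
  obtain ⟨Γ', x0, hfi, hsp, hper, hgen, hfull⟩ := hC' (cube m D2) (F ∪ ball m D2) hcube
    (hF.union hball)
  refine ⟨Γ', hfi, fun u hu => hsp u (Or.inl hu), fun M0 => ?_⟩
  exact hD2 Γ' hfi (fun u hu => hsp u (Or.inr hu)) x0 hper hgen
    (r2_full_mono Γ' x0 Vs B h (le_trans (le_max_right _ _) hh) hB hfull) M0

/-- THEOREM (C_d) -/
theorem cThm_main (hΩ : Cardinal.aleph0 ≤ Algebra.trdeg k Ω) (m : ℕ) :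
    CThm k Ω (Fin m → ℤ) := by
  induction m with
  | zero => exact cThm_zero hΩ
  | succ m ih =>
    intro I _ Z hP
    obtain ⟨e, N, Nm, c, hD, -⟩ := exists_direction Z ∅ Set.finite_empty (by simp)
    apply cThm_of_equiv e Z
    have hP' : (Z.map e).Proj := map_proj e Z hP
    generalize Z.map e = Z' at *
    have hPP : Z'.PProj 0 c := proj_pproj Z' hP' 0 c
    obtain ⟨w, hw⟩ := exists_glue (Ω := Ω) Z' hP'
    obtain ⟨C, h1, hC1, hlong⟩ := long_of_cThm hΩ ih Z' hD 0 c (by simp) hPP (2 * w)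
    obtain ⟨h, hhdef⟩ : ∃ h, h = max h1 (2 * w) := ⟨_, rfl⟩
    refine ⟨sl (cube m h) 0 C, ?_, ?_⟩
    · have : sl (cube m h) 0 (C : ℤ) ⊆
          (Set.Icc (fun _ => (0 : ℤ)) (fun _ => (h : ℤ))) ×ˢ (Set.Icc (0 : ℤ) C) := by
        rintro ⟨v, t⟩ ⟨hv, ht1, ht2⟩
        exact ⟨⟨fun i => (hv i).1, fun i => (hv i).2⟩, ht1, ht2⟩
      exact ((Set.finite_Icc _ _).prod (Set.finite_Icc _ _)).subset this
    intro V1 F hV1 hF
    obtain ⟨B1, hB1⟩ := r2_exists_cube (Prod.fst '' V1) (hV1.image _)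
    obtain ⟨B2, hB2⟩ := r2_exists_bound (Prod.snd '' V1) (hV1.image _)
    obtain ⟨B3, hB3⟩ := r2_exists_bound (Prod.snd '' F) (hF.image _)
    obtain ⟨G, hGdef⟩ : ∃ G, G = C + 2 * w + 2 * B2 := ⟨_, rfl⟩
    obtain ⟨D, hDdef⟩ : ∃ D, D = h + 2 * w + 2 * B1 := ⟨_, rfl⟩
    obtain ⟨Γ', hfi, hsp, hM⟩ := hlong h (by omega) G D (by omega) (Prod.fst '' F) (hF.image _)
    obtain ⟨M, x, hM0, hx, hwin⟩ := hM (G + C + 10 * w + 10 + B3)
    have hglue := hw C h D G M hC1 (by omega) (by omega) (by omega) (by omega) Γ' hfi x hx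
    obtain ⟨y, hy1, hy2, hy3⟩ := exists_closed hΩ Z' C h D G M (by omega) (by omega) Γ' x hx hwin
      hglue
    refine ⟨Γ'.prod (AddSubgroup.zmultiples ((2 * M : ℕ) : ℤ)), y,
      r2_finiteIndex Γ' hfi M (by omega), ?_, hy1, ?_, hy3⟩
    · rintro ⟨u, t⟩ hu hmem
      rw [AddSubgroup.mem_prod] at hmem
      have hu1 : u = 0 := hsp u ⟨_, hu, rfl⟩ hmem.1
      have ht : |t| ≤ B3 := hB3 t ⟨_, hu, rfl⟩
      obtain ⟨n, hn⟩ := AddSubgroup.mem_zmultiples_iff.1 hmem.2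
      simp only [smul_eq_mul] at hn
      have ht0 : t = 0 := by
        have habs : |t| < ((2 * M : ℕ) : ℤ) := lt_of_le_of_lt ht (by push_cast; omega)
        exact Int.eq_zero_of_abs_lt_dvd (Dvd.intro_left n hn) habs
      subst hu1
      subst ht0
      rfl
    · rintro ⟨γ, t⟩
      refine Gen.mono (hy2 (t - B2) (γ - fun _ => (B1 : ℤ)) (γ + fun _ => (B1 : ℤ)) ?_) ?_
      · intro i
        simp only [Pi.add_apply, Pi.sub_apply]
        rw [hDdef]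
        push_cast
        linarith [(Nat.cast_nonneg h : (0 : ℤ) ≤ h), (Nat.cast_nonneg w : (0 : ℤ) ≤ w)]
      · rintro ⟨v, l⟩ hv
        rw [r2_mem_tr] at hv
        have h1v := hB1 _ ⟨_, hv, rfl⟩
        have h2v := abs_le.1 (hB2 _ ⟨_, hv, rfl⟩)
        simp only [Prod.fst_sub, Prod.snd_sub, Pi.sub_apply] at h1v h2v
        refine ⟨⟨fun i => ?_, fun i => ?_⟩, ?_, ?_⟩
        · have := abs_le.1 (h1v i)
          simp only [Pi.sub_apply]
          linarith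
        · have := abs_le.1 (h1v i)
          simp only [Pi.add_apply]
          linarith
        · show t - (B2 : ℤ) ≤ l
          linarith
        · show l ≤ t - (B2 : ℤ) + G
          rw [hGdef]
          push_cast
          linarith [(Nat.cast_nonneg C : (0 : ℤ) ≤ C), (Nat.cast_nonneg w : (0 : ℤ) ≤ w)]

/-- the top-level configuration, input of section 12 -/
theorem top_config (hΩ : Cardinal.aleph0 ≤ Algebra.trdeg k Ω) {m : ℕ} {I : Type} [Finite I]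
    (Z : Sys k ((Fin m → ℤ) × ℤ) I) {N Nm : Set ((Fin m → ℤ) × ℤ)} {c : ℕ}
    (hD : DirData Z N Nm c) (a b : ℤ) (hab : a + c ≤ b) (hPP : Z.PProj a b) (D G0 : ℕ) :
    ∃ (Γ' : AddSubgroup (Fin m → ℤ)) (G M : ℕ) (x : ((Fin m → ℤ) × ℤ) × I → Ω),
      Γ'.FiniteIndex ∧ G0 ≤ G ∧ G < M ∧ Per0 Γ' x ∧
      (∀ t : ℤ, 0 ≤ t → t + G ≤ M + G → ∀ p q : Fin m → ℤ, (∀ i, q i - p i ≤ D) →
        Z.Gen x (sl (Set.Icc p q) t (t + G))) ∧
      SameRel k (res x (lev 0 G)) (res (up (M : ℤ) x) (lev 0 G)) := by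
  obtain ⟨C, h1, -, hlong⟩ := long_of_cThm hΩ (cThm_main hΩ m) Z hD a b hab hPP 0
  obtain ⟨Γ', hfi, -, hM⟩ := hlong h1 le_rfl (max C G0) D (le_max_left _ _) ∅ Set.finite_empty
  obtain ⟨M, x, hM0, hx, hwin⟩ := hM (max C G0 + 1)
  refine ⟨Γ', max C G0, M, x, hfi, le_max_right _ _, hM0, hx.per, ?_, hwin⟩
  intro t ht0 ht1 p q hpq
  refine hx.gen t ht0 ?_ p q hpq
  push_cast at ht1 ⊢
  exact ht1

/-- the top-level configuration, in the form used in section 12 -/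
theorem top_out (hΩ : Cardinal.aleph0 ≤ Algebra.trdeg k Ω) {m : ℕ} {I : Type} [Finite I]
    (Z : Sys k ((Fin m → ℤ) × ℤ) I) {N Nm : Set ((Fin m → ℤ) × ℤ)} {c : ℕ}
    (hD : DirData Z N Nm c) (a b : ℤ) (hab : a + c ≤ b) (hPP : Z.PProj a b)
    (V1 : Set ((Fin m → ℤ) × ℤ)) (hV1 : V1.Finite) (G : ℕ) :
    ∃ (Γ' : AddSubgroup (Fin m → ℤ)) (M : ℕ) (x : ((Fin m → ℤ) × ℤ) × I → Ω),
      Γ'.FiniteIndex ∧ G < M ∧
      (∀ γ ∈ Γ', ∀ v : ((Fin m → ℤ) × ℤ) × I, x ((γ + v.1.1, v.1.2), v.2) = x v) ∧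
      (∀ γ, tr γ V1 ⊆ lev 0 (M + G) → Z.Gen x (tr γ V1)) ∧
      SameRel k (res x (lev 0 G))
        (fun v : Ix I (lev 0 (G : ℤ)) => x ((v.1.1.1, v.1.1.2 + M), v.1.2)) := by
  obtain ⟨B1, hB1⟩ := r2_exists_cube (Prod.fst '' V1) (hV1.image _)
  obtain ⟨B2, hB2⟩ := r2_exists_bound (Prod.snd '' V1) (hV1.image _)
  obtain ⟨Γ', G', M, x, hfi, hG', hM, hper, hgen, hwin⟩ :=
    top_config hΩ Z hD a b hab hPP (2 * B1) (G + 2 * B2)
  refine ⟨Γ', M, x, hfi, by omega, ?_, ?_, ?_⟩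
  · intro γ hγ v
    have h1 := hper (γ, 0) (by simp [AddSubgroup.mem_prod, hγ]) v
    have h2 : ((γ, 0) + v.1 : (Fin m → ℤ) × ℤ) = (γ + v.1.1, v.1.2) := by
      ext <;> simp
    rw [h2] at h1
    exact h1
  · rintro ⟨γ, g⟩ hsub
    obtain ⟨t, htdef⟩ : ∃ t : ℤ, t = max 0 (min (M : ℤ) (g - B2)) := ⟨_, rfl⟩
    refine Gen.mono (hgen t (by omega) (by omega) (γ - fun _ => (B1 : ℤ))
      (γ + fun _ => (B1 : ℤ)) ?_) ?_
    · intro i
      simp only [Pi.add_apply, Pi.sub_apply]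
      push_cast
      linarith
    · rintro ⟨v, l⟩ hv
      have hl := hsub hv
      rw [r2_mem_tr] at hv
      have h1v := hB1 _ ⟨_, hv, rfl⟩
      have h2v := abs_le.1 (hB2 _ ⟨_, hv, rfl⟩)
      simp only [Prod.fst_sub, Prod.snd_sub, Pi.sub_apply] at h1v h2v
      have hl1 : 0 ≤ l := hl.1
      have hl2 : l ≤ (M : ℤ) + G := hl.2
      refine ⟨⟨fun i => ?_, fun i => ?_⟩, ?_, ?_⟩
      · have := abs_le.1 (h1v i)
        simp only [Pi.sub_apply]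
        linarith
      · have := abs_le.1 (h1v i)
        simp only [Pi.add_apply]
        linarith
      · show t ≤ l
        omega
      · show l ≤ t + G'
        omega
  · have hsub : (lev 0 (G : ℤ) : Set ((Fin m → ℤ) × ℤ)) ⊆ lev 0 (G' : ℤ) := by
      rintro v ⟨hv1, hv2⟩
      exact ⟨hv1, by omega⟩
    have := hwin.comp (fun v : Ix I (lev 0 (G : ℤ) : Set ((Fin m → ℤ) × ℤ)) =>
      (⟨v.1, hsub v.2⟩ : Ix I (lev 0 (G' : ℤ) : Set ((Fin m → ℤ) × ℤ))))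
    exact this

end Pool.Agent.ORG
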