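import Pool.Agent.ORG.RedNS

set_option autoImplicit false

namespace Pool.Agent.ORG

open Polynomial

section bnaux

variable {n : ℕ}

/-- the exponents of total degree `≤ D` -/
private noncomputable def bnS (n D : ℕ) : Finset (Fin n →₀ ℕ) :=
  (Finsupp.finite_of_degree_le (σ := Fin n) D).toFinset

private theorem bn_support {R : Type} [CommRing R] {q : MvPolynomial (Fin n) R} {D : ℕ}
    (h : q.totalDegree ≤ D) : q.support ⊆ bnS n D := by
  intro s hs
  unfold bnS
  rw [Set.Finite.mem_toFinset]
  exact (MvPolynomial.le_totalDegree hs).trans h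

/-- the polynomial with given coefficients -/
private noncomputable def bnMk {R : Type} [CommRing R] (S : Finset (Fin n →₀ ℕ)) (a : ℕ)
    (c : Fin a × S → R) : YT n R :=
  X ^ a + ∑ i : Fin a, C (∑ s : S, MvPolynomial.monomial s.1 (c (i, s))) * X ^ (i : ℕ)

private theorem bnMk_map {R R' : Type} [CommRing R] [CommRing R'] (φ : R →+* R')
    (S : Finset (Fin n →₀ ℕ)) (a : ℕ) (c : Fin a × S → R) :
    mapYT φ (bnMk S a c) = bnMk S a (fun i => φ (c i)) := by
  unfold mapYT bnMk
  simp only [Polynomial.map_add, Polynomial.map_pow, Polynomial.map_X, Polynomial.map_sum,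
    Polynomial.map_mul, Polynomial.map_C, map_sum, MvPolynomial.map_monomial]

private theorem bnMk_monic {R : Type} [CommRing R] (S : Finset (Fin n →₀ ℕ)) (a : ℕ)
    (c : Fin a × S → R) : (bnMk S a c).Monic :=
  Polynomial.monic_X_pow_add (Polynomial.degree_sum_fin_lt _)

private theorem bnMk_natDegree {R : Type} [CommRing R] [Nontrivial R]
    (S : Finset (Fin n →₀ ℕ)) (a : ℕ) (c : Fin a × S → R) : (bnMk S a c).natDegree = a := by
  refine Polynomial.natDegree_eq_of_degree_eq_some ?_
  unfold bnMk
  rw [Polynomial.degree_add_eq_left_of_degree_lt, Polynomial.degree_X_pow]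
  rw [Polynomial.degree_X_pow]
  exact Polynomial.degree_sum_fin_lt _

private theorem bnMk_surj {R : Type} [CommRing R] {S : Finset (Fin n →₀ ℕ)} {P : YT n R}
    (hP : P.Monic) {a : ℕ} (ha : P.natDegree = a) (hS : ∀ i, (P.coeff i).support ⊆ S) :
    bnMk S a (fun p => (P.coeff p.1).coeff p.2.1) = P := by
  conv_rhs => rw [hP.as_sum, ha]
  unfold bnMk
  congr 1
  rw [Finset.sum_range]
  refine Finset.sum_congr rfl fun i _ => ?_
  congr 2
  rw [Finset.sum_coe_sort S (fun s => MvPolynomial.monomial s ((P.coeff i).coeff s))]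
  conv_rhs => rw [(P.coeff i).as_sum]
  refine (Finset.sum_subset (hS i) fun s _ hs => ?_).symm
  rw [MvPolynomial.notMem_support_iff.1 hs, map_zero]

/-- the total degree -/
private noncomputable def bnDeg {R : Type} [CommRing R] (P : YT n R) : ℕ :=
  ((MvPolynomial.optionEquivLeft R (Fin n)).symm P).totalDegree

private theorem bnDeg_coeff {R : Type} [CommRing R] (P : YT n R) (i : ℕ) :
    (P.coeff i).totalDegree ≤ bnDeg P := by
  have h := MvPolynomial.totalDegree_coeff_optionEquivLeft_le R (Fin n)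
    ((MvPolynomial.optionEquivLeft R (Fin n)).symm P) i
  rwa [AlgEquiv.apply_symm_apply] at h

private theorem bnDeg_dvd {R : Type} [CommRing R] [IsDomain R] {P Q : YT n R} (h : P ∣ Q)
    (hQ : Q ≠ 0) : bnDeg P ≤ bnDeg Q := by
  refine MvPolynomial.totalDegree_le_of_dvd_of_isDomain
    (map_dvd (MvPolynomial.optionEquivLeft R (Fin n)).symm h) ?_
  intro h0
  apply hQ
  rw [AlgEquiv.symm_apply_eq, map_zero] at h0
  exact h0

private theorem bn_map_equiv {R R' : Type} [CommRing R] [CommRing R'] (φ : R →+* R')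
    (q : MvPolynomial (Option (Fin n)) R) :
    mapYT φ (MvPolynomial.optionEquivLeft R (Fin n) q) =
      MvPolynomial.optionEquivLeft R' (Fin n) (MvPolynomial.map φ q) := by
  unfold mapYT
  induction q using MvPolynomial.induction_on with
  | C a =>
    rw [MvPolynomial.optionEquivLeft_C, MvPolynomial.map_C, MvPolynomial.optionEquivLeft_C,
      Polynomial.map_C, MvPolynomial.map_C]
  | add p q hp hq => rw [map_add, Polynomial.map_add, hp, hq, map_add, map_add]
  | mul_X p i hp =>
    rw [map_mul, Polynomial.map_mul, hp, map_mul, map_mul, MvPolynomial.map_X]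
    congr 1
    cases i with
    | none =>
      rw [MvPolynomial.optionEquivLeft_X_none, MvPolynomial.optionEquivLeft_X_none,
        Polynomial.map_X]
    | some i =>
      rw [MvPolynomial.optionEquivLeft_X_some, MvPolynomial.optionEquivLeft_X_some,
        Polynomial.map_C, MvPolynomial.map_X]

private theorem bn_symm_map {R R' : Type} [CommRing R] [CommRing R'] (φ : R →+* R')
    (P : YT n R) :
    (MvPolynomial.optionEquivLeft R' (Fin n)).symm (mapYT φ P) =
      MvPolynomial.map φ ((MvPolynomial.optionEquivLeft R (Fin n)).symm P) := by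
  rw [AlgEquiv.symm_apply_eq, ← bn_map_equiv, AlgEquiv.apply_symm_apply]

private theorem bnDeg_map_le {R R' : Type} [CommRing R] [CommRing R'] (φ : R →+* R')
    (P : YT n R) : bnDeg (mapYT φ P) ≤ bnDeg P := by
  unfold bnDeg
  rw [bn_symm_map]
  unfold MvPolynomial.totalDegree
  exact Finset.sup_mono (MvPolynomial.support_map_subset _ _)

private theorem bnDeg_map_inj {R R' : Type} [CommRing R] [CommRing R'] {φ : R →+* R'}
    (hφ : Function.Injective φ) (P : YT n R) : bnDeg P ≤ bnDeg (mapYT φ P) := by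
  unfold bnDeg
  rw [bn_symm_map]
  unfold MvPolynomial.totalDegree
  rw [MvPolynomial.support_map_of_injective _ hφ]

/-- the unknowns -/
private abbrev bnU (n D a b : ℕ) : Type := (Fin a × bnS n D) ⊕ (Fin b × bnS n D)

/-- the parameters -/
private abbrev bnC (n D a b : ℕ) : Type := Fin (a + b) × bnS n D

/-- the difference of the product and the given polynomial, with universal coefficients -/
private noncomputable def bnUniv (n D a b : ℕ) :
    YT n (MvPolynomial (bnU n D a b ⊕ bnC n D a b) ℤ) :=
  bnMk (bnS n D) a (fun p => MvPolynomial.X (Sum.inl (Sum.inl p))) *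
    bnMk (bnS n D) b (fun p => MvPolynomial.X (Sum.inl (Sum.inr p))) -
    bnMk (bnS n D) (a + b) (fun p => MvPolynomial.X (Sum.inr p))

/-- the universal equations -/
private noncomputable def bnE (n D a b : ℕ) (j : ℕ × (Fin n →₀ ℕ)) :
    MvPolynomial (bnU n D a b ⊕ bnC n D a b) ℤ :=
  ((bnUniv n D a b).coeff j.1).coeff j.2

private theorem bn_eval {L : Type} [CommRing L] {D a b : ℕ} (u : bnU n D a b → L)
    (m : bnC n D a b → L) :
    (∀ j, MvPolynomial.aeval (Sum.elim u m) (bnE n D a b j) = 0) ↔
      bnMk (bnS n D) a (fun p => u (Sum.inl p)) * bnMk (bnS n D) b (fun p => u (Sum.inr p)) =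
        bnMk (bnS n D) (a + b) m := by
  set φ : MvPolynomial (bnU n D a b ⊕ bnC n D a b) ℤ →+* L :=
    ((MvPolynomial.aeval (Sum.elim u m) :
      MvPolynomial (bnU n D a b ⊕ bnC n D a b) ℤ →ₐ[ℤ] L)).toRingHom with hφ
  have h1 : mapYT φ (bnUniv n D a b) =
      bnMk (bnS n D) a (fun p => u (Sum.inl p)) * bnMk (bnS n D) b (fun p => u (Sum.inr p)) -
        bnMk (bnS n D) (a + b) m := by
    have e1 := bnMk_map φ (bnS n D) a
      (fun p => MvPolynomial.X (Sum.inl (Sum.inl p)))
    have e2 := bnMk_map φ (bnS n D) b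
      (fun p => MvPolynomial.X (Sum.inl (Sum.inr p)))
    have e3 := bnMk_map φ (bnS n D) (a + b) (fun p => MvPolynomial.X (Sum.inr p))
    have f1 : ∀ i, φ (MvPolynomial.X i) = Sum.elim u m i := fun i => by
      rw [hφ]
      exact MvPolynomial.aeval_X _ _
    simp only [f1, Sum.elim_inl, Sum.elim_inr] at e1 e2 e3
    unfold bnUniv
    unfold mapYT at e1 e2 e3 ⊢
    rw [Polynomial.map_sub, Polynomial.map_mul, e1, e2, e3]
  have h2 : ∀ j, MvPolynomial.aeval (Sum.elim u m) (bnE n D a b j) =
      ((mapYT φ (bnUniv n D a b)).coeff j.1).coeff j.2 := by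
    intro j
    unfold mapYT bnE
    rw [Polynomial.coeff_map, MvPolynomial.coeff_map]
    rfl
  rw [← sub_eq_zero, ← h1]
  constructor
  · intro h
    ext i s
    have := h (i, s)
    rw [h2] at this
    rw [this]
    simp
  · intro h j
    rw [h2, h]
    simp

private theorem bn_step {k : Type} [Field k] [IsAlgClosed k] (M : YT n k) (hM : M.Monic)
    (hirr : Irreducible M) (a b : ℕ) (ha : 0 < a) (hb : 0 < b) (hab : M.natDegree = a + b) :
    ∃ Λ : Finset k, ∀ (A : Subring k), (Λ : Set k) ⊆ A → ∀ M' : YT n A,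
      mapYT A.subtype M' = M → ∀ (k' : Type) [Field k'] (ψ : A →+* k') (f g : YT n k'),
        f.Monic → g.Monic → f.natDegree = a → g.natDegree = b → f * g ≠ mapYT ψ M' := by
  classical
  have hMS : ∀ i, (M.coeff i).support ⊆ bnS n (bnDeg M) := fun i => bn_support (bnDeg_coeff M i)
  have hMmk := bnMk_surj hM hab hMS
  obtain ⟨Λ, -, hΛ⟩ := red_ns (bnE n (bnDeg M) a b) (fun p => (M.coeff p.1).coeff p.2.1) (by
    rintro ⟨u, hu⟩
    rw [bn_eval, hMmk] at hu
    rcases ((hM.irreducible_iff_natDegree).1 hirr).2 _ _ (bnMk_monic _ _ _) (bnMk_monic _ _ _)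
      hu with h | h
    · rw [bnMk_natDegree] at h
      omega
    · rw [bnMk_natDegree] at h
      omega)
  refine ⟨Λ, fun A hA M' hM' k' _ ψ f g hf hg hfa hgb hfg => ?_⟩
  have hinj : Function.Injective (MvPolynomial.map (σ := Fin n) A.subtype) :=
    MvPolynomial.map_injective _ A.subtype_injective
  have hM'm : M'.Monic := Polynomial.monic_of_injective hinj (by
    have h := hM
    rw [← hM'] at h
    exact h)
  have hM'd : M'.natDegree = a + b := by
    rw [← hab, ← hM']
    exact (hM'm.natDegree_map (MvPolynomial.map A.subtype)).symm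
  have hD' : bnDeg M' ≤ bnDeg M := by
    conv_rhs => rw [← hM']
    exact bnDeg_map_inj A.subtype_injective M'
  have hM'mk := bnMk_surj hM'm hM'd fun i => bn_support ((bnDeg_coeff M' i).trans hD')
  have hne : mapYT ψ M' ≠ 0 := (hM'm.map (MvPolynomial.map ψ)).ne_zero
  have hDψ : bnDeg (mapYT ψ M') ≤ bnDeg M := (bnDeg_map_le ψ M').trans hD'
  have hfD : bnDeg f ≤ bnDeg M := (bnDeg_dvd ⟨g, hfg.symm⟩ hne).trans hDψ
  have hgD : bnDeg g ≤ bnDeg M :=
    (bnDeg_dvd ⟨f, by rw [mul_comm]; exact hfg.symm⟩ hne).trans hDψ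
  have hfmk := bnMk_surj hf hfa fun i => bn_support ((bnDeg_coeff f i).trans hfD)
  have hgmk := bnMk_surj hg hgb fun i => bn_support ((bnDeg_coeff g i).trans hgD)
  refine hΛ A hA (fun p => (M'.coeff p.1).coeff p.2.1) (fun p => ?_) k' ψ
    ⟨Sum.elim (fun p => (f.coeff p.1).coeff p.2.1) (fun p => (g.coeff p.1).coeff p.2.1), ?_⟩
  · show A.subtype ((M'.coeff p.1).coeff p.2.1) = _
    have h := congrArg (fun Q : YT n k => (Q.coeff p.1).coeff p.2.1) hM'
    rw [← h]
    unfold mapYT
    rw [Polynomial.coeff_map, MvPolynomial.coeff_map]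
  · rw [bn_eval]
    simp only [Sum.elim_inl, Sum.elim_inr]
    rw [hfmk, hgmk, hfg, ← bnMk_map ψ, hM'mk]

end bnaux

/-- Bertini-Noether for a monic polynomial. Proof: a factorisation over `k'` can be taken
`M̄ = A B` with `A`, `B` monic in `T` of degrees `a`, `δ - a`, `0 < a < δ`; the total degree (in `Y`
and `T`, via `MvPolynomial.optionEquivLeft`, `totalDegree_coeff_optionEquivLeft_le` and
`totalDegree_mul_of_isDomain`) of `A`, `B` is at most that of `M̄`, so the coefficients of `A`, `B`
are finitely many unknowns `U` satisfying universal equations over `ℤ` with parameters the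
coefficients of `M`; use `red_ns` for each `a` and take the union of the finite sets. -/
theorem red_bn {k : Type} [Field k] [IsAlgClosed k] {n : ℕ} (M : YT n k) (hM : M.Monic)
    (hirr : Irreducible M) :
    ∃ Λ : Finset k, ∀ (A : Subring k), (Λ : Set k) ⊆ A → ∀ M' : YT n A,
      mapYT A.subtype M' = M → ∀ (k' : Type) [Field k'] (ψ : A →+* k'),
        Irreducible (mapYT ψ M') := by
  classical
  have h1 : ∀ a : ℕ, ∃ Λ : Finset k, 0 < a → a < M.natDegree →
      ∀ (A : Subring k), (Λ : Set k) ⊆ A → ∀ M' : YT n A,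
      mapYT A.subtype M' = M → ∀ (k' : Type) [Field k'] (ψ : A →+* k') (f g : YT n k'),
        f.Monic → g.Monic → f.natDegree = a → g.natDegree = M.natDegree - a →
          f * g ≠ mapYT ψ M' := by
    intro a
    by_cases h : 0 < a ∧ a < M.natDegree
    · obtain ⟨Λ, hΛ⟩ := bn_step M hM hirr a (M.natDegree - a) h.1 (by omega) (by omega)
      exact ⟨Λ, fun _ _ => hΛ⟩
    · exact ⟨∅, fun h2 h3 => absurd ⟨h2, h3⟩ h⟩
  choose Λ hΛ using h1
  refine ⟨(Finset.range M.natDegree).biUnion Λ, fun A hA M' hM' k' _ ψ => ?_⟩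
  have hinj : Function.Injective (MvPolynomial.map (σ := Fin n) A.subtype) :=
    MvPolynomial.map_injective _ A.subtype_injective
  have hM'm : M'.Monic := Polynomial.monic_of_injective hinj (by
    have h := hM
    rw [← hM'] at h
    exact h)
  have hM'd : M'.natDegree = M.natDegree := by
    rw [← hM']
    exact (hM'm.natDegree_map (MvPolynomial.map A.subtype)).symm
  have hψm : (mapYT ψ M').Monic := hM'm.map (MvPolynomial.map ψ)
  have hψd : (mapYT ψ M').natDegree = M.natDegree := by
    rw [← hM'd]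
    exact hM'm.natDegree_map (MvPolynomial.map ψ)
  have hδ : 0 < M.natDegree := by
    rcases Nat.eq_zero_or_pos M.natDegree with h | h
    · exact absurd (hM.natDegree_eq_zero.1 h) ((hM.irreducible_iff_natDegree).1 hirr).1
    · exact h
  rw [hψm.irreducible_iff_natDegree]
  refine ⟨fun h => ?_, fun f g hf hg hfg => ?_⟩
  · rw [h, Polynomial.natDegree_one] at hψd
    omega
  · by_contra hcon
    push Not at hcon
    have hsum : f.natDegree + g.natDegree = M.natDegree := by
      rw [← hψd, ← hfg, hf.natDegree_mul hg]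
    have ha : 0 < f.natDegree := Nat.pos_of_ne_zero hcon.1
    have hb : 0 < g.natDegree := Nat.pos_of_ne_zero hcon.2
    refine hΛ f.natDegree ha (by omega) A ?_ M' hM' k' ψ f g hf hg rfl (by omega) hfg
    intro x hx
    refine hA ?_
    rw [Finset.mem_coe, Finset.mem_biUnion]
    exact ⟨f.natDegree, Finset.mem_range.2 (by omega), hx⟩

end Pool.Agent.ORG
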