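import Pool.Agent.ORG.Defs

/-!
# MP_08a057_al, ORG paper section 12.1 : definitions for the reduction mod p
-/

set_option autoImplicit false

namespace Pool.Agent.ORG

open Polynomial

/-- the ring of polynomials in `T` over the polynomials in `Y_1, .., Y_n` -/
abbrev YT (n : ℕ) (R : Type) [CommSemiring R] : Type := Polynomial (MvPolynomial (Fin n) R)

/-- change of the coefficient ring -/
noncomputable def mapYT {n : ℕ} {R S : Type} [CommRing R] [CommRing S] (φ : R →+* S)
    (P : YT n R) : YT n S := P.map (MvPolynomial.map φ)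

/-- the value of `P ∈ R[Y][T]` at `(y, t)` -/
noncomputable def evYT {n : ℕ} {R L : Type} [CommRing R] [CommRing L] (φ : R →+* L) (y : Fin n → L)
    (t : L) (P : YT n R) : L := P.eval₂ (MvPolynomial.eval₂Hom φ y) t

theorem evYT_map {n : ℕ} {R S L : Type} [CommRing R] [CommRing S] [CommRing L] (φ : R →+* S)
    (ψ : S →+* L) (y : Fin n → L) (t : L) (P : YT n R) :
    evYT ψ y t (mapYT φ P) = evYT (ψ.comp φ) y t P := by
  unfold evYT mapYT
  rw [Polynomial.eval₂_map]
  congr 1
  apply MvPolynomial.ringHom_ext
  · intro r; simp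
  · intro i; simp

theorem map_evYT {n : ℕ} {R L L' : Type} [CommRing R] [CommRing L] [CommRing L'] (φ : R →+* L)
    (ψ : L →+* L') (y : Fin n → L) (t : L) (P : YT n R) :
    ψ (evYT φ y t P) = evYT (ψ.comp φ) (fun i => ψ (y i)) (ψ t) P := by
  unfold evYT
  rw [Polynomial.hom_eval₂]
  congr 1
  apply MvPolynomial.ringHom_ext
  · intro r; simp
  · intro i; simp

/-- the subring of `k` of the elements which lie in the valuation subring `V` -/
def subV {k Ω : Type} [Field k] [Field Ω] [Algebra k Ω] (V : ValuationSubring Ω) : Subring k :=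
  (V.toSubring).comap (algebraMap k Ω)

/-- the inclusion of `subV` into `V` -/
def subVhom {k Ω : Type} [Field k] [Field Ω] [Algebra k Ω] (V : ValuationSubring Ω) :
    subV (k := k) V →+* V :=
  ((algebraMap k Ω).comp (subV (k := k) V).subtype).codRestrict V.toSubring (fun a => a.2)

end Pool.Agent.ORG
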