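import Pool.Agent.ORG.RedDefs

set_option autoImplicit false

namespace Pool.Agent.ORG

theorem red_ns_aeval {σ R : Type} [CommRing R] [Algebra ℤ R] (g : σ → R)
    (p : MvPolynomial σ ℤ) :
    MvPolynomial.aeval g p = MvPolynomial.eval₂ (Int.castRingHom R) g p := by
  rw [MvPolynomial.aeval_def]
  congr 1
  exact RingHom.ext_int _ _

/-- values of integral polynomials and ring homomorphisms -/
theorem red_ns_hom {σ R S : Type} [CommRing R] [CommRing S] (φ : R →+* S) (g : σ → R)
    (p : MvPolynomial σ ℤ) :
    φ (MvPolynomial.eval₂ (Int.castRingHom R) g p) =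
      MvPolynomial.eval₂ (Int.castRingHom S) (fun i => φ (g i)) p := by
  rw [MvPolynomial.eval₂_comp_left]
  congr 1
  exact RingHom.ext_int _ _

/-- the polynomial with the second variables specialised -/
noncomputable def redNSpol {R U C : Type} [CommRing R] (E : MvPolynomial (U ⊕ C) ℤ) (m : C → R) :
    MvPolynomial U R :=
  MvPolynomial.eval₂ (Int.castRingHom _)
    (Sum.elim MvPolynomial.X (fun c => MvPolynomial.C (m c))) E

theorem redNSpol_map {R S U C : Type} [CommRing R] [CommRing S] (φ : R →+* S)
    (E : MvPolynomial (U ⊕ C) ℤ) (m : C → R) :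
    MvPolynomial.map φ (redNSpol E m) = redNSpol E (fun c => φ (m c)) := by
  unfold redNSpol
  rw [red_ns_hom]
  congr 1
  funext i
  cases i with
  | inl u => simp
  | inr c => simp

theorem redNSpol_eval {R S U C : Type} [CommRing R] [CommRing S] (φ : R →+* S) (u : U → S)
    (E : MvPolynomial (U ⊕ C) ℤ) (m : C → R) :
    MvPolynomial.eval₂Hom φ u (redNSpol E m) =
      MvPolynomial.eval₂ (Int.castRingHom S) (Sum.elim u (fun c => φ (m c))) E := by
  unfold redNSpol
  rw [red_ns_hom]
  congr 1
  funext i
  cases i with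
  | inl u => simp
  | inr c => simp

/-- Nullstellensatz with parameters: if the system `E_j(u, m) = 0` has no solution `u` over the
algebraically closed field `k`, then it has none over any field `k'` after applying a ring
homomorphism defined on a subring of `k` containing a certain finite set.
Hint: `1 = ∑ A_j E_j(·, m)` in `k[U]`; `Λ` = coefficients of the `A_j` and the values of `m`. -/
theorem red_ns {k : Type} [Field k] [IsAlgClosed k] {U C J : Type} [Finite U] [Finite C]
    (E : J → MvPolynomial (U ⊕ C) ℤ) (m : C → k)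
    (h : ¬ ∃ u : U → k, ∀ j, MvPolynomial.aeval (Sum.elim u m) (E j) = 0) :
    ∃ Λ : Finset k, (∀ c, m c ∈ Λ) ∧ ∀ (A : Subring k), (Λ : Set k) ⊆ A →
      ∀ (m' : C → A), (∀ c, (m' c : k) = m c) →
      ∀ (k' : Type) [Field k'] (ψ : A →+* k'),
        ¬ ∃ u : U → k', ∀ j, MvPolynomial.aeval (Sum.elim u (fun c => ψ (m' c))) (E j) = 0 := by
  classical
  have hfC : Fintype C := Fintype.ofFinite C
  -- the ideal generated by the polynomials is everything
  have hI : Ideal.span (Set.range fun j => redNSpol (E j) m) = ⊤ := by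
    by_contra hne
    obtain ⟨M, hM, hle⟩ := Ideal.exists_le_maximal _ hne
    obtain ⟨x, hx⟩ := MvPolynomial.eq_vanishingIdeal_singleton_of_isMaximal k hM
    apply h
    refine ⟨x, fun j => ?_⟩
    have h1 : redNSpol (E j) m ∈ M := hle (Ideal.subset_span ⟨j, rfl⟩)
    rw [hx, MvPolynomial.mem_vanishingIdeal_singleton_iff] at h1
    have h2 := redNSpol_eval (RingHom.id k) x (E j) m
    simp only [RingHom.id_apply] at h2
    rw [red_ns_aeval, ← h2]
    exact h1
  have h1 : (1 : MvPolynomial U k) ∈ Ideal.span (Set.range fun j => redNSpol (E j) m) := by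
    rw [hI]; trivial
  obtain ⟨a, ha⟩ := Finsupp.mem_ideal_span_range_iff_exists_finsupp.1 h1
  refine ⟨Finset.univ.image m ∪ a.support.biUnion (fun j => (a j).coeffs), ?_, ?_⟩
  · intro c
    exact Finset.mem_union_left _ (Finset.mem_image_of_mem _ (Finset.mem_univ _))
  · intro A hA m' hm' k' _ ψ
    rintro ⟨u, hu⟩
    have hlift : ∀ j, ∃ b : MvPolynomial U A, MvPolynomial.map A.subtype b = a j := by
      intro j
      by_cases hj : j ∈ a.support
      · have : a j ∈ Set.range (MvPolynomial.map A.subtype) := by
          rw [MvPolynomial.mem_range_map_iff_coeffs_subset]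
          intro y hy
          have hy' : y ∈ A := hA (Finset.mem_coe.2 (Finset.mem_union_right _
            (Finset.mem_biUnion.2 ⟨j, hj, hy⟩)))
          exact ⟨⟨y, hy'⟩, rfl⟩
        exact this
      · refine ⟨0, ?_⟩
        rw [map_zero, Finsupp.notMem_support_iff.1 hj]
    choose b hb using hlift
    have hone : ∑ j ∈ a.support, b j * redNSpol (E j) m' = 1 := by
      apply MvPolynomial.map_injective A.subtype Subtype.val_injective
      rw [map_sum, map_one, ← ha, Finsupp.sum]
      refine Finset.sum_congr rfl fun j _ => ?_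
      rw [map_mul, hb, redNSpol_map]
      congr 2
      funext c
      exact hm' c
    have h2 := congrArg (MvPolynomial.eval₂Hom ψ u) hone
    rw [map_sum, map_one] at h2
    have h3 : ∑ j ∈ a.support, MvPolynomial.eval₂Hom ψ u (b j * redNSpol (E j) m') = 0 := by
      refine Finset.sum_eq_zero fun j _ => ?_
      rw [map_mul, redNSpol_eval, ← red_ns_aeval, hu j, mul_zero]
    rw [h3] at h2
    exact zero_ne_one h2

end Pool.Agent.ORG
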