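import Pool.Agent.ORG.RedDefs

set_option autoImplicit false

namespace Pool.Agent.ORG

/-- a valuation ring over the Gauss point of `ℤ[y]` at `p`. Hint: `LocalSubring.ofPrime` of the
subring `ℤ[y]` (range of the injective `aeval y`) at the prime ideal generated by `p`
(`ℤ[Y]/p = 𝔽_p[Y]` is a domain), `LocalSubring.exists_le_valuationSubring`. -/
theorem red_val {Ω : Type} [Field Ω] {n : ℕ} (y : Fin n → Ω) (hy : AlgebraicIndependent ℤ y)
    (p : ℕ) (hp : p.Prime) :
    ∃ V : ValuationSubring Ω, (∀ i, y i ∈ V) ∧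
      ∀ P : MvPolynomial (Fin n) ℤ, V.valuation (MvPolynomial.aeval y P) < 1 ↔
        (MvPolynomial.C (p : ℤ)) ∣ P := by
  have hpr : Prime (MvPolynomial.C (p : ℤ) : MvPolynomial (Fin n) ℤ) :=
    (MvPolynomial.prime_C_iff (Fin n)).2 (Nat.prime_iff_prime_int.1 hp)
  set P0 : Ideal (MvPolynomial (Fin n) ℤ) := Ideal.span {MvPolynomial.C (p : ℤ)} with hP0
  haveI : P0.IsPrime := (Ideal.span_singleton_prime hpr.ne_zero).2 hpr
  have hinj : Function.Injective (MvPolynomial.aeval y : MvPolynomial (Fin n) ℤ →ₐ[ℤ] Ω) := hy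
  set g : MvPolynomial (Fin n) ℤ →+* Ω := (MvPolynomial.aeval y).toRingHom with hg
  have hgu : ∀ s : P0.primeCompl, IsUnit (g s) := by
    intro s
    rw [isUnit_iff_ne_zero]
    intro h0
    have h1 : (s : MvPolynomial (Fin n) ℤ) = 0 := hinj (by
      rw [map_zero]
      exact h0)
    have h2 : (s : MvPolynomial (Fin n) ℤ) ∉ P0 := s.2
    rw [h1] at h2
    exact h2 P0.zero_mem
  let f : Localization.AtPrime P0 →+* Ω := IsLocalization.lift (M := P0.primeCompl) hgu
  have hf : ∀ P : MvPolynomial (Fin n) ℤ,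
      f (algebraMap _ (Localization.AtPrime P0) P) = MvPolynomial.aeval y P := by
    intro P
    exact IsLocalization.lift_eq (M := P0.primeCompl) hgu P
  obtain ⟨V, hV, hloc⟩ := IsLocalRing.exists_factor_valuationRing f
  have hmem : ∀ P : MvPolynomial (Fin n) ℤ, MvPolynomial.aeval y P ∈ V := by
    intro P
    rw [← hf P]
    exact hV _
  refine ⟨V, ?_, ?_⟩
  · intro i
    have := hmem (MvPolynomial.X i)
    rwa [MvPolynomial.aeval_X] at this
  · intro P
    have h1 : V.valuation (MvPolynomial.aeval y P) < 1 ↔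
        ¬ IsUnit (⟨MvPolynomial.aeval y P, hmem P⟩ : V) := by
      rw [← V.valuation_lt_one_iff ⟨MvPolynomial.aeval y P, hmem P⟩]
      exact IsLocalRing.mem_maximalIdeal _
    have h2 : IsUnit (⟨MvPolynomial.aeval y P, hmem P⟩ : V) ↔
        IsUnit (algebraMap _ (Localization.AtPrime P0) P) := by
      have h3 : (⟨MvPolynomial.aeval y P, hmem P⟩ : V) =
          f.codRestrict V.toSubring hV (algebraMap _ (Localization.AtPrime P0) P) := by
        apply Subtype.ext
        exact (hf P).symm
      constructor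
      · intro h4
        rw [h3] at h4
        exact hloc.map_nonunit _ h4
      · intro h4
        rw [h3]
        exact h4.map (f.codRestrict V.toSubring hV)
    have h3 : IsUnit (algebraMap _ (Localization.AtPrime P0) P) ↔ P ∉ P0 := by
      rw [IsLocalization.AtPrime.isUnit_to_map_iff (Localization.AtPrime P0) P0]
      exact Iff.rfl
    rw [h1, h2, h3, not_not, hP0, Ideal.mem_span_singleton]

end Pool.Agent.ORG
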