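import Pool.Agent.ORG.RelVec

/-! (11.4): the relation vectors are independent. -/

set_option autoImplicit false
set_option linter.unusedSectionVars false

namespace Pool.Agent.ORG

open MvPolynomial

section psi
variable {k : Type} [Field k]

/-- elementary matrices over the dual numbers -/
noncomputable def emat (a b : Fin 2) (c : k) : Matrix (Fin 2) (Fin 2) (DualNumber k) :=
  Matrix.single a b (TrivSqZeroExt.inr c)

theorem emat_mul (a b : Fin 2) (c c' : k) : emat a b c * emat a b c' = 0 := by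
  unfold emat
  by_cases h : b = a
  · subst h
    rw [Matrix.single_mul_single_same, TrivSqZeroExt.inr_mul_inr, Matrix.single_zero]
  · exact Matrix.single_mul_single_of_ne _ _ _ _ h _

theorem emat_add (a b : Fin 2) (c c' : k) : emat a b (c + c') = emat a b c + emat a b c' := by
  unfold emat
  rw [← Matrix.single_add, TrivSqZeroExt.inr_add]

theorem emat_zero (a b : Fin 2) : emat a b (0 : k) = 0 := by
  unfold emat
  rw [TrivSqZeroExt.inr_zero, Matrix.single_zero]

/-- `c ↦ 1 + ε c E_{ab}` -/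
noncomputable def psi (a b : Fin 2) : Multiplicative k →* GL2 (DualNumber k) where
  toFun c :=
    { val := 1 + emat a b c.toAdd
      inv := 1 + emat a b (-c.toAdd)
      val_inv := by
        rw [add_mul, one_mul, mul_add, mul_one, emat_mul, add_zero, add_assoc, ← emat_add,
          neg_add_cancel, emat_zero, add_zero]
      inv_val := by
        rw [add_mul, one_mul, mul_add, mul_one, emat_mul, add_zero, add_assoc, ← emat_add,
          add_neg_cancel, emat_zero, add_zero] }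
  map_one' := by
    apply Units.ext
    show 1 + emat a b (Multiplicative.toAdd 1) = 1
    rw [toAdd_one, emat_zero, add_zero]
  map_mul' c c' := by
    apply Units.ext
    show 1 + emat a b (Multiplicative.toAdd (c * c')) =
      (1 + emat a b c.toAdd) * (1 + emat a b c'.toAdd)
    rw [toAdd_mul, emat_add, add_mul, one_mul, mul_add, mul_one, emat_mul, add_zero]
    abel

theorem psi_apply (a b : Fin 2) (c : Multiplicative k) (i j : Fin 2) :
    (psi a b c).1 i j = (if i = j then 1 else 0) +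
      (if a = i ∧ b = j then TrivSqZeroExt.inr c.toAdd else 0) := by
  show (1 + emat a b c.toAdd) i j = _
  rw [Matrix.add_apply, Matrix.one_apply]
  rfl

end psi

section
variable {k X Γ Δ : Type} [Field k] [CharZero k] [AddCommGroup Γ] [AddCommGroup Δ]
  {r : FreeGroup X} {p : FreeGroup X →* Multiplicative (Γ × Δ)}

theorem U_deriv {δ : FreeGroup X → Multiplicative (Γ × Δ) → ℚ} (hδ : Lyn.IsDeriv p δ)
    (w : FreeGroup X) (v : Γ × Δ) :
    U p (fun v x => Multiplicative.ofAdd
      (algebraMap ℚ k (δ (FreeGroup.of x) (Multiplicative.ofAdd v)))) w v =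
      Multiplicative.ofAdd (algebraMap ℚ k (δ w (Multiplicative.ofAdd v))) := by
  induction w using FreeGroup.induction_on generalizing v with
  | C1 => rw [U_one, hδ.one, map_zero, ofAdd_zero]
  | of x => rw [U_of]
  | inv_of x ih =>
    rw [U_inv, ih, hδ.inv, map_neg, ofAdd_neg, sub_eq_add_neg]
    rfl
  | mul a b ha hb =>
    rw [U_mul, ha, hb, hδ.mul, map_add (algebraMap ℚ k)]
    rfl

open Classical in
theorem exists_dual (hr : r ≠ 1) {s : FreeGroup X} (hs : Lyn.IsRoot s r)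
    (hp : Function.Surjective p) (hpr : Lyn.NC r ≤ p.ker)
    (hL : ∀ P : Subgroup (FreeGroup X ⧸ Lyn.NC r), P ≤ (qq p hpr).ker → P.FG → IsFreeGroup P)
    (hσ : (p s).toAdd.1 = 0) (f d : BB p s → MvPolynomial (Γ × LI Δ X) k)
    (hfd : ∀ β : BB p s, Reps k p r (0, rp p s β.1) β.2.1 β.2.2 (f β) (d β))
    (T : Finset (Γ × BB p s)) (i0 : Γ × BB p s) : ∃ ξ : Γ × LI Δ X → k, ∀ i ∈ T,
      Finsupp.linearCombination k ξ (dvec k (fam (fun (_ : Γ × Δ) (_ : X) => (1 : GL2 k)))
        (rename (trE (LI Δ X) i.1) (f i.2))) =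
      aeval (fam (fun (_ : Γ × Δ) (_ : X) => (1 : GL2 k))) (rename (trE (LI Δ X) i.1) (d i.2)) *
        (if i = i0 then 1 else 0) := by
  classical
  obtain ⟨γ0, τ0, a0, b0⟩ := i0
  let m : Multiplicative (Γ × Δ) → ℚ := fun v =>
    if ∃ n : ℤ, v.toAdd = (γ0, rp p s τ0) + n • (p s).toAdd then 1 else 0
  have hm : ∀ v, m (v * p s) = m v := by
    intro v
    simp only [m]
    congr 1
    apply propext
    constructor
    · rintro ⟨n, hn⟩
      refine ⟨n - 1, ?_⟩
      rw [toAdd_mul] at hn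
      rw [sub_smul, one_smul, ← add_sub_assoc, ← hn]
      abel
    · rintro ⟨n, hn⟩
      refine ⟨n + 1, ?_⟩
      rw [toAdd_mul, hn, add_smul, one_smul]
      abel
  obtain ⟨δ, hδ, hδr⟩ := Lyn.app hr hs p hp hpr hL m hm
    (T.image (fun i => Multiplicative.ofAdd ((i.1, rp p s i.2.1) : Γ × Δ)))
  let ξ : Γ × LI Δ X → k := fun v => if a0 = v.2.2.2.1 ∧ b0 = v.2.2.2.2 then
    algebraMap ℚ k (δ (FreeGroup.of v.2.2.1) (Multiplicative.ofAdd (v.1, v.2.1))) else 0
  have hud : ud (fun (_ : Γ × Δ) (_ : X) => (1 : GL2 k)) ξ = fun v x => psi a0 b0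
      (Multiplicative.ofAdd (algebraMap ℚ k (δ (FreeGroup.of x) (Multiplicative.ofAdd v)))) := by
    funext v j
    apply Matrix.GeneralLinearGroup.ext
    intro a b
    have h1 : (ud (fun (_ : Γ × Δ) (_ : X) => (1 : GL2 k)) ξ v j).1 a b =
        dfam (fun (_ : Γ × Δ) (_ : X) => (1 : GL2 k)) ξ (v.1, (v.2, j, a, b)) := by
      unfold ud
      rw [cfg_val _ _ _ (isUnit_mat_dfam _ ξ _ _)]
      rfl
    show (ud _ ξ v j).1 a b = _
    rw [h1]
    show _ = (psi a0 b0 _).1 a b
    rw [psi_apply, toAdd_ofAdd]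
    unfold dfam fam
    simp only [ξ, Units.val_one, Matrix.one_apply]
    split_ifs <;> simp
  have hU : ∀ v : Γ × Δ, U p (ud (fun (_ : Γ × Δ) (_ : X) => (1 : GL2 k)) ξ) r v =
      psi a0 b0 (Multiplicative.ofAdd (algebraMap ℚ k (δ r (Multiplicative.ofAdd v)))) := by
    intro v
    rw [hud, U_map, U_deriv hδ]
  refine ⟨ξ, ?_⟩
  rintro ⟨γ, τ, a, b⟩ hi
  have h1 := (reps_shift hfd γ (τ, a, b)).pairing (fun (_ : Γ × Δ) (_ : X) => (1 : GL2 k))
    (U_const_one r _) ξ
  rw [h1, hU, psi_apply]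
  congr 1
  have h2 : δ r (Multiplicative.ofAdd ((γ, rp p s τ) : Γ × Δ)) =
      m (Multiplicative.ofAdd ((γ, rp p s τ) : Γ × Δ)) :=
    hδr _ (Finset.mem_image.2 ⟨_, hi, rfl⟩)
  simp only
  rw [h2]
  have h3 : m (Multiplicative.ofAdd ((γ, rp p s τ) : Γ × Δ)) = if γ = γ0 ∧ τ = τ0 then 1 else 0 := by
    simp only [m, toAdd_ofAdd]
    congr 1
    apply propext
    constructor
    · rintro ⟨n, hn⟩
      exact rp_unique s hσ hn
    · rintro ⟨rfl, rfl⟩
      exact ⟨0, by simp⟩
  rw [h3]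
  by_cases h4 : γ = γ0 ∧ τ = τ0
  · obtain ⟨rfl, rfl⟩ := h4
    by_cases h5 : a0 = a ∧ b0 = b
    · obtain ⟨rfl, rfl⟩ := h5
      simp
      split_ifs <;> simp
    · have h6 : ¬ ((γ, τ, a, b) = (γ, τ, a0, b0)) := by
        intro h
        simp only [Prod.mk.injEq, true_and] at h
        exact h5 ⟨h.1.symm, h.2.symm⟩
      rw [if_neg h5, if_neg h6]
      split_ifs <;> simp
  · have h6 : ¬ ((γ, τ, a, b) = (γ0, τ0, a0, b0)) := by
      intro h
      simp only [Prod.mk.injEq] at h
      exact h4 ⟨h.1, h.2.1⟩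
    rw [if_neg h4, if_neg h6]
    split_ifs <;> simp

theorem lc_dvec {J E : Type} [Field E] [Algebra k E] (x : J → E) (F : MvPolynomial J k) (ξ : J → k) :
    aeval x (∑ v ∈ F.vars, C (ξ v) * pderiv v F) =
      Finsupp.linearCombination E (fun v => algebraMap k E (ξ v)) (dvec k x F) := by
  unfold dvec
  rw [map_sum, map_sum]
  apply Finset.sum_congr rfl
  intro v _
  rw [Finsupp.linearCombination_single, map_mul, aeval_C, smul_eq_mul, mul_comm]

theorem AA_indep (Z : Sys k Γ (LI Δ X))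
    (hZ : ∀ f : MvPolynomial (Γ × LI Δ X) k, aeval Z.z f = 0 ↔ f ∈ pp k p r)
    (hr : r ≠ 1) {s : FreeGroup X} (hs : Lyn.IsRoot s r)
    (hp : Function.Surjective p) (hpr : Lyn.NC r ≤ p.ker)
    (hL : ∀ P : Subgroup (FreeGroup X ⧸ Lyn.NC r), P ≤ (qq p hpr).ker → P.FG → IsFreeGroup P)
    (hσ : (p s).toAdd.1 = 0) (f d : BB p s → MvPolynomial (Γ × LI Δ X) k)
    (hfd : ∀ β : BB p s, Reps k p r (0, rp p s β.1) β.2.1 β.2.2 (f β) (d β)) :
    LinearIndependent Z.K (fun i : Γ × BB p s => Z.shift i.1 (AA Z f d i.2)) := by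
  classical
  rw [linearIndependent_iff']
  intro T g hg i hi
  have hfam : fam (cfg Z.z) = Z.z := fam_cfg_z Z hZ
  choose ξ hξ using exists_dual (k := k) hr hs hp hpr hL hσ f d hfd T
  let F : Γ × BB p s → MvPolynomial (Γ × LI Δ X) k := fun i => rename (trE (LI Δ X) i.1) (f i.2)
  let Dn : Γ × BB p s → MvPolynomial (Γ × LI Δ X) k := fun i => rename (trE (LI Δ X) i.1) (d i.2)
  have hR : ∀ i : Γ × BB p s, Reps k p r (i.1, rp p s i.2.1) i.2.2.1 i.2.2.2 (F i) (Dn i) :=
    fun i => reps_shift hfd i.1 i.2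
  have hDz : ∀ i, aeval Z.z (Dn i) ≠ 0 := by
    intro i
    have := (hR i Z.K (cfg Z.z)).1
    rw [hfam] at this
    exact this.ne_zero
  let one : Γ × Δ → X → GL2 k := fun _ _ => 1
  have hD1 : ∀ i, aeval (fam one) (Dn i) ≠ 0 := fun i => ((hR i k one).1).ne_zero
  let M : Matrix T T (MvPolynomial (Γ × LI Δ X) k) := Matrix.of fun i j =>
    ∑ v ∈ (F i.1).vars, C (ξ j.1 v) * pderiv v (F i.1)
  have hdet : aeval Z.z M.det ≠ 0 := by
    intro h
    have h1 := (hZ _).1 h k one (fun v => U_const_one r v)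
    have h2 : (aeval (fam one) : MvPolynomial (Γ × LI Δ X) k →ₐ[k] k).toRingHom.mapMatrix M =
        Matrix.diagonal (fun i : T => aeval (fam one) (Dn i.1)) := by
      ext i j
      show aeval (fam one) (∑ v ∈ (F i.1).vars, C (ξ j.1 v) * pderiv v (F i.1)) = _
      rw [lc_dvec]
      have h3 := hξ j.1 i.1 i.2
      rw [Matrix.diagonal_apply]
      have h4 : (fun v => algebraMap k k (ξ j.1 v)) = ξ j.1 := rfl
      rw [h4]
      have h5 : (i.1 = j.1) ↔ (i = j) := Subtype.ext_iff.symm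
      by_cases h6 : i = j
      · rw [if_pos h6]
        rw [if_pos (h5.2 h6), mul_one] at h3
        exact h3
      · rw [if_neg h6]
        rw [if_neg (fun h => h6 (h5.1 h)), mul_zero] at h3
        exact h3
    have h3 : aeval (fam one) M.det = ∏ i : T, aeval (fam one) (Dn i.1) := by
      rw [← Matrix.det_diagonal, ← h2, ← RingHom.map_det]
      rfl
    rw [h3] at h1
    exact Finset.prod_ne_zero_iff.2 (fun i _ => hD1 i.1) h1
  let c : T → Z.K := fun i => g i.1 * (aeval Z.z (Dn i.1))⁻¹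
  have hsum : ∑ i : T, c i • dvec k Z.z (F i.1) = 0 := by
    rw [← hg, ← Finset.sum_coe_sort T]
    apply Finset.sum_congr rfl
    intro i _
    rw [shift_AA, smul_smul]
  have hc : c = 0 := by
    apply Matrix.eq_zero_of_vecMul_eq_zero
      (M := (aeval Z.z : MvPolynomial (Γ × LI Δ X) k →ₐ[k] Z.K).toRingHom.mapMatrix M)
    · rw [← RingHom.map_det]
      exact hdet
    · funext j
      show ∑ i : T, c i * aeval Z.z (∑ v ∈ (F i.1).vars, C (ξ j.1 v) * pderiv v (F i.1)) = 0
      simp only [lc_dvec]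
      have h1 := congrArg (Finsupp.linearCombination Z.K
        (fun v => algebraMap k Z.K (ξ j.1 v))) hsum
      rw [map_sum, map_zero] at h1
      rw [← h1]
      apply Finset.sum_congr rfl
      intro i _
      rw [map_smul, smul_eq_mul]
  have h1 : g i * (aeval Z.z (Dn i))⁻¹ = 0 := congrFun hc ⟨i, hi⟩
  exact (mul_eq_zero.1 h1).resolve_right (inv_ne_zero (hDz i))

end

end Pool.Agent.ORG
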