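import Pool.Agent.ORG.Pairing

/-! (11.2)-(11.4): the relation vectors span, and they are independent. -/

set_option autoImplicit false
set_option linter.unusedSectionVars false

namespace Pool.Agent.ORG

open MvPolynomial

section
variable {X D G : Type} [AddCommGroup D] [Group G] {p : FreeGroup X →* Multiplicative D}
  {r : FreeGroup X}

theorem U_conj (hpr : p r = 1) (u : D → X → G) {w : FreeGroup X} (hw : w * r = r * w) (v : D)
    (h : U p u r v = 1) : U p u r (v + (p w).toAdd) = 1 := by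
  have h1 := U_mul p u w r v
  have h2 := U_mul p u r w v
  rw [hw, h2, h, hpr, toAdd_one, add_zero, one_mul] at h1
  exact mul_left_cancel (a := U p u w v) (by rw [mul_one, ← h1])

theorem U_conj_zpow (hpr : p r = 1) (u : D → X → G) {s : FreeGroup X} (hs : s * r = r * s) (v : D)
    (h : U p u r v = 1) (n : ℤ) : U p u r (v + n • (p s).toAdd) = 1 := by
  have h1 : s ^ n * r = r * s ^ n := (show Commute s r from hs).zpow_left n
  have h2 := U_conj hpr u h1 v h
  rwa [map_zpow, toAdd_zpow] at h2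

end

section
variable {k X Γ Δ : Type} [Field k] [AddCommGroup Γ] [AddCommGroup Δ] {r : FreeGroup X}
  {p : FreeGroup X →* Multiplicative (Γ × Δ)}

/-- representatives of the letters of one site -/
abbrev TT (p : FreeGroup X →* Multiplicative (Γ × Δ)) (s : FreeGroup X) : Type :=
  Δ ⧸ AddSubgroup.zmultiples (p s).toAdd.2

/-- indices of the relation vectors of one site -/
abbrev BB (p : FreeGroup X →* Multiplicative (Γ × Δ)) (s : FreeGroup X) : Type :=
  TT p s × Fin 2 × Fin 2

/-- representative -/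
noncomputable def rp (p : FreeGroup X →* Multiplicative (Γ × Δ)) (s : FreeGroup X) (τ : TT p s) : Δ :=
  Quotient.out τ

theorem exists_rp (s : FreeGroup X) (hσ : (p s).toAdd.1 = 0) (γ : Γ) (δ : Δ) :
    ∃ (τ : TT p s) (n : ℤ), (γ, δ) = (γ, rp p s τ) + n • (p s).toAdd := by
  have h1 : (QuotientAddGroup.mk (rp p s (QuotientAddGroup.mk δ)) : TT p s) =
      QuotientAddGroup.mk δ := Quotient.out_eq _
  rw [QuotientAddGroup.eq] at h1
  obtain ⟨n, hn⟩ := AddSubgroup.mem_zmultiples_iff.1 h1
  refine ⟨QuotientAddGroup.mk δ, n, ?_⟩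
  apply Prod.ext
  · rw [Prod.fst_add, Prod.smul_fst, hσ, smul_zero, add_zero]
  · rw [Prod.snd_add, Prod.smul_snd]
    show δ = _
    rw [hn]
    abel

theorem rp_unique (s : FreeGroup X) (hσ : (p s).toAdd.1 = 0) {γ γ' : Γ} {τ τ' : TT p s} {n : ℤ}
    (h : (γ, rp p s τ) = (γ', rp p s τ') + n • (p s).toAdd) : γ = γ' ∧ τ = τ' := by
  constructor
  · have := congrArg Prod.fst h
    rw [Prod.fst_add, Prod.smul_fst, hσ, smul_zero, add_zero] at this
    exact this
  · have h1 := congrArg Prod.snd h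
    rw [Prod.snd_add, Prod.smul_snd] at h1
    have h2 : (QuotientAddGroup.mk (rp p s τ') : TT p s) = QuotientAddGroup.mk (rp p s τ) := by
      rw [QuotientAddGroup.eq]
      apply AddSubgroup.mem_zmultiples_iff.2
      refine ⟨n, ?_⟩
      simp only at h1
      rw [h1]
      abel
    have h3 : τ' = τ := by
      rw [← show (QuotientAddGroup.mk (rp p s τ') : TT p s) = τ' from Quotient.out_eq _,
        ← show (QuotientAddGroup.mk (rp p s τ) : TT p s) = τ from Quotient.out_eq _, h2]
    exact h3.symm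

variable (Z : Sys k Γ (LI Δ X))
  (hZ : ∀ f : MvPolynomial (Γ × LI Δ X) k, aeval Z.z f = 0 ↔ f ∈ pp k p r)

/-- the relation vectors of one site -/
noncomputable def AA {s : FreeGroup X} (f d : BB p s → MvPolynomial (Γ × LI Δ X) k) (β : BB p s) :
    Γ × LI Δ X →₀ Z.K := (aeval Z.z (d β))⁻¹ • dvec k Z.z (f β)

theorem shift_AA {s : FreeGroup X} (f d : BB p s → MvPolynomial (Γ × LI Δ X) k) (γ : Γ)
    (β : BB p s) : Z.shift γ (AA Z f d β) = (aeval Z.z (rename (trE (LI Δ X) γ) (d β)))⁻¹ •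
      dvec k Z.z (rename (trE (LI Δ X) γ) (f β)) := by
  unfold AA
  rw [Z.shift_smul, Z.shift_dvec, map_inv₀, Z.aeval_rename]

theorem mem_RV {f : MvPolynomial (Γ × LI Δ X) k} (h : aeval Z.z f = 0) :
    dvec k Z.z f ∈ Z.RV Set.univ := Submodule.subset_span ⟨f, fun _ _ => trivial, h, rfl⟩

theorem reps_shift {s : FreeGroup X} {f d : BB p s → MvPolynomial (Γ × LI Δ X) k}
    (hfd : ∀ β : BB p s, Reps k p r (0, rp p s β.1) β.2.1 β.2.2 (f β) (d β)) (γ : Γ) (β : BB p s) :
    Reps k p r (γ, rp p s β.1) β.2.1 β.2.2 (rename (trE (LI Δ X) γ) (f β))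
      (rename (trE (LI Δ X) γ) (d β)) := by
  have := (hfd β).shift γ
  rw [Prod.mk_add_mk, zero_add, add_zero] at this
  exact this

include hZ in
theorem RV_eq {s : FreeGroup X} (hs : s * r = r * s) (hpr : p r = 1) (hσ : (p s).toAdd.1 = 0)
    (f d : BB p s → MvPolynomial (Γ × LI Δ X) k)
    (hfd : ∀ β : BB p s, Reps k p r (0, rp p s β.1) β.2.1 β.2.2 (f β) (d β)) :
    Z.RV Set.univ = Submodule.span Z.K
      (Set.range (fun τ : Γ × BB p s => Z.shift τ.1 (AA Z f d τ.2))) := by
  apply le_antisymm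
  · by_contra hcon
    obtain ⟨q, hq, hqW⟩ := SetLike.not_le_iff_exists.1 hcon
    obtain ⟨l, hlq, hl⟩ := Submodule.exists_le_ker_of_notMem hqW
    apply hlq
    let ξ : Γ × LI Δ X → Z.K := fun v => l (Finsupp.single v 1)
    have hlξ : l = Finsupp.linearCombination Z.K ξ := by
      apply Finsupp.lhom_ext
      intro v c
      rw [Finsupp.linearCombination_single, smul_eq_mul]
      have : Finsupp.single v c = c • Finsupp.single v (1 : Z.K) := by simp
      rw [this, map_smul, smul_eq_mul]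
    -- the deformed configuration is a representation
    have hfam : fam (cfg Z.z) = Z.z := fam_cfg_z Z hZ
    have h1 : ∀ (γ : Γ) (τ : TT p s), U p (ud (cfg Z.z) ξ) r (γ, rp p s τ) = 1 := by
      intro γ τ
      rw [eq_one_iff]
      intro a b
      have h2 : Finsupp.linearCombination Z.K ξ (Z.shift γ (AA Z f d (τ, a, b))) = 0 := by
        rw [← hlξ]
        exact hl (Submodule.subset_span ⟨(γ, (τ, a, b)), rfl⟩)
      have hR := reps_shift hfd γ (τ, a, b)
      have h3 := hR.pairing (cfg Z.z) (U_r_z Z hZ _) ξ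
      have hun := (hR Z.K (cfg Z.z)).1
      rw [hfam] at h3 hun
      rw [shift_AA, map_smul, h3, smul_eq_mul, inv_mul_cancel_left₀ hun.ne_zero] at h2
      simp only at h2
      apply TrivSqZeroExt.ext
      · rw [TrivSqZeroExt.fst_sub, fst_U_ud_apply, U_r_z Z hZ, Units.val_one, Matrix.one_apply]
        split_ifs <;> simp
      · rw [TrivSqZeroExt.snd_sub, h2]
        split_ifs <;> simp
    have h2 : IsRep p r (ud (cfg Z.z) ξ) := by
      rintro ⟨γ, δ⟩
      obtain ⟨τ, n, hn⟩ := exists_rp (p := p) s hσ γ δ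
      rw [hn]
      exact U_conj_zpow hpr _ hs _ (h1 γ τ) n
    have h3 : ∀ g : MvPolynomial (Γ × LI Δ X) k, aeval Z.z g = 0 → l (dvec k Z.z g) = 0 := by
      intro g hg
      have h4 := (hZ g).1 hg _ (ud (cfg Z.z) ξ) h2
      rw [fam_ud] at h4
      unfold dfam at h4
      rw [hfam, aeval_dual, hg] at h4
      rw [hlξ]
      have h5 := congrArg TrivSqZeroExt.snd h4
      simpa using h5
    have h4 : Z.RV Set.univ ≤ LinearMap.ker l := by
      unfold Sys.RV
      rw [Submodule.span_le]
      rintro _ ⟨g, -, hg, rfl⟩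
      exact h3 g hg
    exact h4 hq
  · rw [Submodule.span_le]
    rintro _ ⟨⟨γ, β⟩, rfl⟩
    show Z.shift γ (AA Z f d β) ∈ Z.RV Set.univ
    rw [shift_AA]
    exact Submodule.smul_mem _ _ (mem_RV Z ((hZ _).2 (reps_shift hfd γ β).mem_pp))

end

end Pool.Agent.ORG
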