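import Pool.Agent.ORG.Defs
import Pool.Agent.Lyn.Root

/-!
# MP_08a057_al : transport along words, families and matrices (paper section 11)
Convention: `U p u (w * w') v = U p u w v * U p u w' (v + p w)`.
-/

set_option autoImplicit false

namespace Pool.Agent.ORG

/-- invertible `2 × 2` matrices -/
abbrev GL2 (A : Type) [CommRing A] : Type := Matrix.GeneralLinearGroup (Fin 2) A

section Transport

variable {X D G G' : Type} [AddCommGroup D] [Group G] [Group G']

/-- translation of functions on `D` -/
def shf (D G : Type) [AddCommGroup D] [Group G] : Multiplicative D →* MulAut (D → G) where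
  toFun d :=
    { toFun := fun f v => f (v + d.toAdd)
      invFun := fun f v => f (v - d.toAdd)
      left_inv := fun f => by funext v; simp
      right_inv := fun f => by funext v; simp
      map_mul' := fun f g => rfl }
  map_one' := by
    ext f v
    simp
  map_mul' d d' := by
    ext f v
    simp [add_assoc]

theorem shf_apply (d : Multiplicative D) (f : D → G) (v : D) : shf D G d f v = f (v + d.toAdd) := rfl

/-- the homomorphism to the semidirect product given by letters `u v x` -/
def tp (p : FreeGroup X →* Multiplicative D) (u : D → X → G) :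
    FreeGroup X →* (D → G) ⋊[shf D G] Multiplicative D :=
  FreeGroup.lift (fun x => ⟨fun v => u v x, p (FreeGroup.of x)⟩)

/-- transport along the word `w` starting at `v` -/
def U (p : FreeGroup X →* Multiplicative D) (u : D → X → G) (w : FreeGroup X) (v : D) : G :=
  (tp p u w).left v

variable (p : FreeGroup X →* Multiplicative D) (u : D → X → G)

theorem tp_right (w : FreeGroup X) : (tp p u w).right = p w := by
  have : SemidirectProduct.rightHom.comp (tp p u) = p := by
    apply FreeGroup.ext_hom
    intro x
    rw [MonoidHom.comp_apply]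
    unfold tp
    rw [FreeGroup.lift_apply_of]
    rfl
  exact congrArg (fun f => f w) this

theorem U_of (x : X) (v : D) : U p u (FreeGroup.of x) v = u v x := by
  unfold U tp
  rw [FreeGroup.lift_apply_of]

theorem U_one (v : D) : U p u 1 v = 1 := by
  unfold U
  rw [map_one]
  rfl

theorem U_mul (w w' : FreeGroup X) (v : D) :
    U p u (w * w') v = U p u w v * U p u w' (v + (p w).toAdd) := by
  unfold U
  rw [map_mul, SemidirectProduct.mul_left, tp_right]
  rfl

theorem U_inv (w : FreeGroup X) (v : D) :
    U p u w⁻¹ v = (U p u w (v - (p w).toAdd))⁻¹ := by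
  have h := U_mul p u w⁻¹ w v
  rw [inv_mul_cancel, U_one, map_inv, toAdd_inv, ← sub_eq_add_neg] at h
  exact eq_inv_of_mul_eq_one_left h.symm

theorem U_map (φ : G →* G') (w : FreeGroup X) (v : D) :
    U p (fun v x => φ (u v x)) w v = φ (U p u w v) := by
  induction w using FreeGroup.induction_on generalizing v with
  | C1 => rw [U_one, U_one, map_one]
  | of x => rw [U_of, U_of]
  | inv_of x ih => rw [U_inv, U_inv, map_inv, ih]
  | mul a b ha hb => rw [U_mul, U_mul, map_mul, ha, hb]

theorem U_shift (d : D) (w : FreeGroup X) (v : D) :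
    U p (fun v x => u (v + d) x) w v = U p u w (v + d) := by
  induction w using FreeGroup.induction_on generalizing v with
  | C1 => rw [U_one, U_one]
  | of x => rw [U_of, U_of]
  | inv_of x ih => rw [U_inv, U_inv, ih, sub_add_eq_add_sub]
  | mul a b ha hb => rw [U_mul, U_mul, ha, hb, add_right_comm]

/-- the transport depends on finitely many letters near the starting point -/
theorem U_dep (w : FreeGroup X) : ∃ S : Finset D, ∀ (G : Type) [Group G] (u u' : D → X → G) (v : D),
    (∀ s ∈ S, ∀ x, u (v + s) x = u' (v + s) x) → U p u w v = U p u' w v := by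
  classical
  induction w using FreeGroup.induction_on with
  | C1 => exact ⟨∅, fun G _ u u' v _ => by rw [U_one, U_one]⟩
  | of x =>
    refine ⟨{0}, fun G _ u u' v h => ?_⟩
    have := h 0 (Finset.mem_singleton_self 0) x
    rw [add_zero] at this
    rw [U_of, U_of, this]
  | inv_of x _ =>
    refine ⟨{-(p (FreeGroup.of x)).toAdd}, fun G _ u u' v h => ?_⟩
    have := h _ (Finset.mem_singleton_self _) x
    rw [← sub_eq_add_neg] at this
    rw [U_inv, U_inv, U_of, U_of, this]
  | mul a b ha hb =>
    obtain ⟨S, hS⟩ := ha
    obtain ⟨S', hS'⟩ := hb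
    refine ⟨S ∪ S'.image (fun s => (p a).toAdd + s), fun G _ u u' v h => ?_⟩
    rw [U_mul, U_mul, hS G u u' v (fun s hs x => h s (Finset.mem_union_left _ hs) x),
      hS' G u u' (v + (p a).toAdd) (fun s hs x => by
        have := h _ (Finset.mem_union_right _ (Finset.mem_image_of_mem _ hs)) x
        rw [← add_assoc] at this
        exact this)]

/-- normal closure -/
theorem U_NC {r : FreeGroup X} (hpr : p r = 1) (hr : ∀ v, U p u r v = 1) {w : FreeGroup X}
    (hw : w ∈ Lyn.NC r) (v : D) : U p u w v = 1 := by
  have h1 : tp p u r = 1 := by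
    apply SemidirectProduct.ext
    · funext v
      exact hr v
    · rw [tp_right, hpr]
      rfl
  have h2 : tp p u w = 1 := Lyn.NC_ker_of (tp p u) h1 hw
  unfold U
  rw [h2]
  rfl

end Transport

section Families

/-- letters of the representation system -/
abbrev LI (Δ X : Type) : Type := Δ × X × Fin 2 × Fin 2

variable {Γ Δ X A : Type} [CommRing A]

/-- the matrices of a family -/
def mat (x : Γ × LI Δ X → A) (v : Γ × Δ) (j : X) : Matrix (Fin 2) (Fin 2) A :=
  Matrix.of (fun a b => x (v.1, (v.2, j, a, b)))

open Classical in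
/-- the invertible matrices of a family (`1` where the determinant is not a unit) -/
noncomputable def cfg (x : Γ × LI Δ X → A) (v : Γ × Δ) (j : X) : GL2 A :=
  if h : IsUnit (mat x v j).det then Matrix.GeneralLinearGroup.mk'' (mat x v j) h else 1

/-- the family of a configuration -/
def fam (u : Γ × Δ → X → GL2 A) : Γ × LI Δ X → A :=
  fun v => (u (v.1, v.2.1) v.2.2.1 : Matrix (Fin 2) (Fin 2) A) v.2.2.2.1 v.2.2.2.2

theorem mat_fam (u : Γ × Δ → X → GL2 A) (v : Γ × Δ) (j : X) : mat (fam u) v j = (u v j).1 := rfl

theorem cfg_fam (u : Γ × Δ → X → GL2 A) : cfg (fam u) = u := by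
  funext v j
  have h : IsUnit (mat (fam u) v j).det := by
    rw [mat_fam]
    exact (Matrix.isUnit_iff_isUnit_det _).1 (u v j).isUnit
  unfold cfg
  rw [dif_pos h]
  apply Units.ext
  rfl

theorem cfg_val (x : Γ × LI Δ X → A) (v : Γ × Δ) (j : X) (h : IsUnit (mat x v j).det) :
    (cfg x v j : Matrix (Fin 2) (Fin 2) A) = mat x v j := by
  unfold cfg
  rw [dif_pos h]
  rfl

theorem cfg_map {B : Type} [CommRing B] (φ : A →+* B) (x : Γ × LI Δ X → A) (v : Γ × Δ) (j : X)
    (h : IsUnit (mat x v j).det) :
    cfg (fun i => φ (x i)) v j = Matrix.GeneralLinearGroup.map φ (cfg x v j) := by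
  have h1 : mat (fun i => φ (x i)) v j = φ.mapMatrix (mat x v j) := by
    ext a b
    rfl
  have h2 : IsUnit (mat (fun i => φ (x i)) v j).det := by
    rw [h1, ← RingHom.map_det]
    exact h.map φ
  apply Units.ext
  rw [cfg_val _ _ _ h2]
  show _ = φ.mapMatrix (cfg x v j).1
  rw [cfg_val _ _ _ h, h1]

end Families

end Pool.Agent.ORG
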