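import Pool.Agent.ORG.FinMain
import Pool.Agent.ORG.RepMain

/-!
# MP_08a057_al : the statement `RepStmt` of section 12 from `rep_system`
-/

set_option autoImplicit false

namespace Pool.Agent.ORG

theorem rep_stmt {k : Type} [Field k] [CharZero k] : RepStmt k := by
  intro X Δ _ _ _ b r hr p hp hpr hL
  refine rep_system hr p hp hpr fun P hP hfg => ?_
  have e : P.subgroupOf (QuotientGroup.lift (Lyn.NC r) p hpr).ker ≃* P :=
    Subgroup.subgroupOfEquivOfLe hP
  have h1 : Group.FG P := Group.fg_iff_subgroup_fg P |>.2 hfg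
  have h2 : Group.FG (P.subgroupOf (QuotientGroup.lift (Lyn.NC r) p hpr).ker) :=
    Group.fg_of_surjective (f := e.symm.toMonoidHom) e.symm.surjective
  have h3 : IsFreeGroup (P.subgroupOf (QuotientGroup.lift (Lyn.NC r) p hpr).ker) :=
    hL _ (Group.fg_iff_subgroup_fg _ |>.1 h2)
  exact IsFreeGroup.ofMulEquiv e

end Pool.Agent.ORG
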