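import Pool.Agent.ORG.RepIdeal
import Pool.Agent.LFZ.FreeRep

/-! Transport and representations of finitely generated subgroups of the kernel. -/

set_option autoImplicit false
set_option linter.unusedSectionVars false

namespace Pool.Agent.ORG

open MvPolynomial

section
variable {X D G : Type} [AddCommGroup D] [Group G]

/-- the edge element -/
def xe (π : FreeGroup X →* G) (p : FreeGroup X →* Multiplicative D) (t : D → G) (v : D) (j : X) : G :=
  t v * π (FreeGroup.of j) * (t (v + (p (FreeGroup.of j)).toAdd))⁻¹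

variable (π : FreeGroup X →* G) (p : FreeGroup X →* Multiplicative D) (t : D → G)

/-- the configuration comes from the homomorphism `ρ` of the subgroup `E` -/
def Comes {H : Type} [Group H] (E : Subgroup G) (ρ : E →* H) (h : D → H) (u : D → X → H) : Prop :=
  ∀ v j, ∀ hx : xe π p t v j ∈ E,
    u v j = (h v)⁻¹ * ρ ⟨xe π p t v j, hx⟩ * h (v + (p (FreeGroup.of j)).toAdd)

theorem transport (w : FreeGroup X) : ∃ S : Finset D, ∀ (H : Type) [Group H] (E : Subgroup G)
    (ρ : E →* H) (h : D → H) (u : D → X → H), Comes π p t E ρ h u → ∀ v,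
    (∀ s ∈ S, ∀ j, xe π p t (v + s) j ∈ E) →
    ∃ y : E, (y : G) = t v * π w * (t (v + (p w).toAdd))⁻¹ ∧
      U p u w v = (h v)⁻¹ * ρ y * h (v + (p w).toAdd) := by
  classical
  have hof : ∀ x : X, ∃ S : Finset D, ∀ (H : Type) [Group H] (E : Subgroup G)
    (ρ : E →* H) (h : D → H) (u : D → X → H), Comes π p t E ρ h u → ∀ v,
    (∀ s ∈ S, ∀ j, xe π p t (v + s) j ∈ E) →
    ∃ y : E, (y : G) = t v * π (FreeGroup.of x) * (t (v + (p (FreeGroup.of x)).toAdd))⁻¹ ∧
      U p u (FreeGroup.of x) v = (h v)⁻¹ * ρ y * h (v + (p (FreeGroup.of x)).toAdd) := by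
    intro x
    refine ⟨{0}, fun H _ E ρ h u hu v hs => ?_⟩
    have hx := hs 0 (Finset.mem_singleton_self 0) x
    rw [add_zero] at hx
    refine ⟨⟨xe π p t v x, hx⟩, rfl, ?_⟩
    rw [U_of]
    exact hu v x hx
  induction w using FreeGroup.induction_on with
  | C1 =>
    refine ⟨∅, fun H _ E ρ h u hu v _ => ⟨1, ?_, ?_⟩⟩
    · simp
    · rw [U_one]
      simp
  | of x => exact hof x
  | inv_of x _ =>
    obtain ⟨S, hS⟩ := hof x
    refine ⟨S.image (fun s => s - (p (FreeGroup.of x)).toAdd), fun H _ E ρ h u hu v hs => ?_⟩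
    obtain ⟨y, hy1, hy2⟩ := hS H E ρ h u hu (v - (p (FreeGroup.of x)).toAdd) (by
      intro s hsS j
      have := hs _ (Finset.mem_image_of_mem _ hsS) j
      rw [show v - (p (FreeGroup.of x)).toAdd + s = v + (s - (p (FreeGroup.of x)).toAdd) by abel]
      exact this)
    rw [sub_add_cancel] at hy1 hy2
    refine ⟨y⁻¹, ?_, ?_⟩
    · rw [Subgroup.coe_inv, hy1, map_inv, map_inv, toAdd_inv, ← sub_eq_add_neg]
      group
    · rw [U_inv, hy2, map_inv, map_inv, toAdd_inv, ← sub_eq_add_neg]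
      group
  | mul a b ha hb =>
    obtain ⟨S, hS⟩ := ha
    obtain ⟨S', hS'⟩ := hb
    refine ⟨S ∪ S'.image (fun s => (p a).toAdd + s), fun H _ E ρ h u hu v hs => ?_⟩
    obtain ⟨y, hy1, hy2⟩ := hS H E ρ h u hu v (fun s hsS j => hs s (Finset.mem_union_left _ hsS) j)
    obtain ⟨y', hy1', hy2'⟩ := hS' H E ρ h u hu (v + (p a).toAdd) (by
      intro s hsS j
      have := hs _ (Finset.mem_union_right _ (Finset.mem_image_of_mem _ hsS)) j
      rw [← add_assoc] at this
      exact this)
    refine ⟨y * y', ?_, ?_⟩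
    · rw [Subgroup.coe_mul, hy1, hy1', map_mul, map_mul, toAdd_mul, ← add_assoc]
      group
    · rw [U_mul, hy2, hy2', map_mul, map_mul, toAdd_mul, ← add_assoc]
      group

end

section
variable {X D : Type} [AddCommGroup D] {r : FreeGroup X} (p : FreeGroup X →* Multiplicative D)
  (hpr : Lyn.NC r ≤ p.ker)

/-- the projection of the one-relator group -/
abbrev qq : (FreeGroup X ⧸ Lyn.NC r) →* Multiplicative D := QuotientGroup.lift (Lyn.NC r) p hpr

/-- representations come from homomorphisms -/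
theorem exists_comes {H : Type} [Group H] (t : D → FreeGroup X ⧸ Lyn.NC r)
    (ht : ∀ v, qq p hpr (t v) = Multiplicative.ofAdd v) (u : D → X → H)
    (hu : ∀ v, U p u r v = 1) (E : Subgroup (FreeGroup X ⧸ Lyn.NC r)) (hE : E ≤ (qq p hpr).ker) :
    ∃ (ρ : E →* H) (h : D → H), Comes (QuotientGroup.mk' (Lyn.NC r)) p t E ρ h u := by
  have hpr1 : p r = 1 := hpr (Lyn.mem_NC r)
  have h1 : tp p u r = 1 := by
    apply SemidirectProduct.ext
    · funext v
      exact hu v
    · rw [tp_right, hpr1]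
      rfl
  let Uh : (FreeGroup X ⧸ Lyn.NC r) →* (D → H) ⋊[shf D H] Multiplicative D :=
    QuotientGroup.lift (Lyn.NC r) (tp p u) (Lyn.NC_ker_of (tp p u) h1)
  have hright : ∀ g, (Uh g).right = qq p hpr g := by
    intro g
    obtain ⟨f, rfl⟩ := QuotientGroup.mk'_surjective (Lyn.NC r) g
    exact tp_right p u f
  have hmul : ∀ g g' v, (Uh (g * g')).left v = (Uh g).left v * (Uh g').left (v + (qq p hpr g).toAdd) := by
    intro g g' v
    rw [map_mul, SemidirectProduct.mul_left, hright]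
    rfl
  let ρ : E →* H :=
    { toFun := fun y => (Uh y).left 0
      map_one' := by
        rw [Subgroup.coe_one, map_one]
        rfl
      map_mul' := by
        intro y y'
        have hy : qq p hpr y = 1 := hE y.2
        rw [Subgroup.coe_mul, hmul, hy, toAdd_one, add_zero] }
  refine ⟨ρ, fun v => (Uh (t v)).left 0, ?_⟩
  intro v j hx
  have e1 : t v * QuotientGroup.mk' (Lyn.NC r) (FreeGroup.of j) =
      xe (QuotientGroup.mk' (Lyn.NC r)) p t v j * t (v + (p (FreeGroup.of j)).toAdd) := by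
    unfold xe
    group
  have e2 := congrArg (fun g => (Uh g).left 0) e1
  simp only [hmul] at e2
  have hx1 : qq p hpr (xe (QuotientGroup.mk' (Lyn.NC r)) p t v j) = 1 := hE hx
  rw [ht, hx1, toAdd_one, toAdd_ofAdd, zero_add, add_zero] at e2
  have e3 : (Uh (QuotientGroup.mk' (Lyn.NC r) (FreeGroup.of j))).left v = u v j := U_of p u j v
  rw [e3] at e2
  show u v j = ((Uh (t v)).left 0)⁻¹ * (Uh (xe (QuotientGroup.mk' (Lyn.NC r)) p t v j)).left 0 *
    (Uh (t (v + (p (FreeGroup.of j)).toAdd))).left 0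
  rw [mul_assoc, ← e2, inv_mul_cancel_left]

end

section
variable {X Γ Δ G : Type} [AddCommGroup Γ] [AddCommGroup Δ] [Group G] (k : Type) [Field k]
  (π : FreeGroup X →* G) (p : FreeGroup X →* Multiplicative (Γ × Δ)) (t : Γ × Δ → G)

/-- the universal configuration of a free subgroup -/
theorem exists_univ (E : Subgroup G) {B : Type} (b : FreeGroupBasis B E) :
    ∃ (R : Type) (_ : CommRing R) (_ : IsDomain R) (_ : Algebra k R) (ρ : E →* GL2 R)
      (h : Γ × Δ → GL2 R) (u : Γ × Δ → X → GL2 R), Comes π p t E ρ h u ∧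
      ∀ (A : Type) [CommRing A] [Algebra k A] (ρ' : E →* GL2 A) (h' : Γ × Δ → GL2 A)
        (u' : Γ × Δ → X → GL2 A), Comes π p t E ρ' h' u' →
        ∃ φ : R →ₐ[k] A, ∀ v j, Matrix.GeneralLinearGroup.map (φ : R →+* A) (u v j) = u' v j := by
  classical
  let S := B ⊕ (Γ × Δ) ⊕ (Γ × Δ) × X
  let ρ : E →* GL2 (GR k S) :=
    (FreeGroup.lift (fun i => gg k (Sum.inl i : S))).comp b.repr.toMonoidHom
  let h : Γ × Δ → GL2 (GR k S) := fun v => gg k (Sum.inr (Sum.inl v) : S)
  let u : Γ × Δ → X → GL2 (GR k S) := fun v j => if hx : xe π p t v j ∈ E then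
    (h v)⁻¹ * ρ ⟨xe π p t v j, hx⟩ * h (v + (p (FreeGroup.of j)).toAdd) else
    gg k (Sum.inr (Sum.inr (v, j)) : S)
  refine ⟨GR k S, inferInstance, inferInstance, inferInstance, ρ, h, u, ?_, ?_⟩
  · intro v j hx
    simp only [u]
    rw [dif_pos hx]
  · intro A _ _ ρ' h' u' hc
    let m : S → GL2 A := Sum.elim (fun i => ρ' (b i)) (Sum.elim h' (fun v => u' v.1 v.2))
    have hm : ∀ s, Matrix.GeneralLinearGroup.map (gev (k := k) m : GR k S →+* A) (gg k s) = m s :=
      gev_gg m
    refine ⟨gev m, ?_⟩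
    set Φ := Matrix.GeneralLinearGroup.map (n := Fin 2) (gev (k := k) m : GR k S →+* A) with hΦ
    have hρ : Φ.comp ρ = ρ' := by
      apply b.ext_hom
      intro i
      show Φ (FreeGroup.lift _ (b.repr (b i))) = _
      rw [b.repr_apply_coe, FreeGroup.lift_apply_of, hm]
      rfl
    have hρ1 : ∀ y, Φ (ρ y) = ρ' y := fun y => congrArg (fun f => f y) hρ
    intro v j
    by_cases hx : xe π p t v j ∈ E
    · have h1 : u v j = (h v)⁻¹ * ρ ⟨xe π p t v j, hx⟩ * h (v + (p (FreeGroup.of j)).toAdd) := by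
        simp only [u]
        rw [dif_pos hx]
      rw [h1, map_mul, map_mul, map_inv, hρ1, hc v j hx]
      have h2 : ∀ v, Φ (h v) = h' v := fun v => hm _
      rw [h2, h2]
    · have h1 : u v j = gg k (Sum.inr (Sum.inr (v, j)) : S) := by
        simp only [u]
        rw [dif_neg hx]
      rw [h1]
      exact hm _

end

end Pool.Agent.ORG
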