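import Pool.Agent.ORG.Generic

/-! The ideal of relations of all representations, compactness. -/

set_option autoImplicit false
set_option linter.unusedSectionVars false

namespace Pool.Agent.ORG

open MvPolynomial

section
variable {k : Type} [Field k] {S : Type}

theorem gev_unique {A : Type} [CommRing A] [Algebra k A] (φ : GR k S →ₐ[k] A) :
    gev (fun s => Matrix.GeneralLinearGroup.map (φ : GR k S →+* A) (gg k s)) = φ := by
  apply IsLocalization.algHom_ext (gsub k S)
  apply MvPolynomial.algHom_ext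
  intro v
  show gev _ (algebraMap (GP k S) (GR k S) (X v)) = φ (algebraMap (GP k S) (GR k S) (X v))
  rw [gev_algebraMap, aeval_X]
  rfl

end

section
variable {X Γ Δ : Type} [AddCommGroup Γ] [AddCommGroup Δ]

/-- the configuration is a representation -/
def IsRep {G : Type} [Group G] (p : FreeGroup X →* Multiplicative (Γ × Δ)) (r : FreeGroup X)
    (u : Γ × Δ → X → G) : Prop := ∀ v, U p u r v = 1

variable (k : Type) [Field k] (p : FreeGroup X →* Multiplicative (Γ × Δ)) (r : FreeGroup X)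

/-- the ideal of all polynomials vanishing at all representations -/
def pp : Ideal (MvPolynomial (Γ × LI Δ X) k) where
  carrier := {f | ∀ (A : Type) [CommRing A] [Algebra k A] (u : Γ × Δ → X → GL2 A),
    IsRep p r u → aeval (fam u) f = 0}
  add_mem' := by
    intro f g hf hg A _ _ u hu
    rw [map_add, hf A u hu, hg A u hu, add_zero]
  zero_mem' := by
    intro A _ _ u _
    rw [map_zero]
  smul_mem' := by
    intro c f hf A _ _ u hu
    rw [smul_eq_mul, map_mul, hf A u hu, mul_zero]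

variable {k p r}

/-- the generic configuration -/
noncomputable def u0 (k : Type) [Field k] (v : Γ × Δ) (j : X) : GL2 (GR k ((Γ × Δ) × X)) :=
  gg k (v, j)

/-- evaluation at a configuration -/
noncomputable def evu {A : Type} [CommRing A] [Algebra k A] (u : Γ × Δ → X → GL2 A) :
    GR k ((Γ × Δ) × X) →ₐ[k] A := gev (fun s => u s.1 s.2)

theorem evu_u0 {A : Type} [CommRing A] [Algebra k A] (u : Γ × Δ → X → GL2 A) (v : Γ × Δ) (j : X) :
    Matrix.GeneralLinearGroup.map (evu (k := k) u : _ →+* A) (u0 k v j) = u v j :=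
  gev_gg (fun s : (Γ × Δ) × X => u s.1 s.2) (v, j)

theorem evu_U {A : Type} [CommRing A] [Algebra k A] (u : Γ × Δ → X → GL2 A) (w : FreeGroup X)
    (v : Γ × Δ) :
    Matrix.GeneralLinearGroup.map (evu (k := k) u : _ →+* A) (U p (u0 k) w v) = U p u w v := by
  rw [← U_map p (u0 k) (Matrix.GeneralLinearGroup.map (evu (k := k) u : _ →+* A)) w v]
  congr 1
  funext v j
  exact evu_u0 u v j

theorem evu_U_apply {A : Type} [CommRing A] [Algebra k A] (u : Γ × Δ → X → GL2 A)
    (w : FreeGroup X) (v : Γ × Δ) (a b : Fin 2) :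
    evu (k := k) u ((U p (u0 k) w v).1 a b) = (U p u w v).1 a b := by
  rw [← evu_U (k := k) (p := p) u w v]
  rfl

theorem compact_abs {R : Type} [CommRing R] [Algebra k R] (w0 : Γ × Δ → X → GL2 R) (y : R)
    (h : ∀ (A : Type) [CommRing A] [Algebra k A] (φ : R →ₐ[k] A),
      IsRep p r (fun v j => Matrix.GeneralLinearGroup.map (φ : R →+* A) (w0 v j)) → φ y = 0) :
    ∃ V : Finset (Γ × Δ), ∀ (A : Type) [CommRing A] [Algebra k A] (φ : R →ₐ[k] A),
      (∀ v ∈ V, U p (fun v j => Matrix.GeneralLinearGroup.map (φ : R →+* A) (w0 v j)) r v = 1) →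
        φ y = 0 := by
  classical
  let g : (Γ × Δ) × Fin 2 × Fin 2 → R := fun i =>
    (U p w0 r i.1).1 i.2.1 i.2.2 - (1 : Matrix (Fin 2) (Fin 2) R) i.2.1 i.2.2
  have hU : ∀ (A : Type) [CommRing A] [Algebra k A] (φ : R →ₐ[k] A) v a b,
      (U p (fun v j => Matrix.GeneralLinearGroup.map (φ : R →+* A) (w0 v j)) r v).1 a b
        = φ ((U p w0 r v).1 a b) := by
    intro A _ _ φ v a b
    rw [U_map]
    rfl
  have hg : ∀ (A : Type) [CommRing A] [Algebra k A] (φ : R →ₐ[k] A) v,
      (U p (fun v j => Matrix.GeneralLinearGroup.map (φ : R →+* A) (w0 v j)) r v = 1 ↔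
        ∀ a b, φ (g (v, a, b)) = 0) := by
    intro A _ _ φ v
    have h1 : ∀ a b, φ (g (v, a, b)) = (U p (fun v j =>
        Matrix.GeneralLinearGroup.map (φ : R →+* A) (w0 v j)) r v).1 a b
          - (1 : Matrix (Fin 2) (Fin 2) A) a b := by
      intro a b
      simp only [g, map_sub]
      rw [hU, Matrix.one_apply, Matrix.one_apply]
      split_ifs
      · rw [map_one]
      · rw [map_zero]
    constructor
    · intro h2 a b
      rw [h1, h2, Units.val_one, sub_self]
    · intro h2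
      ext a b
      have h3 := h2 a b
      rw [h1, sub_eq_zero] at h3
      exact h3
  have h2 : y ∈ Ideal.span (Set.range g) := by
    apply Ideal.Quotient.eq_zero_iff_mem.1
    refine h (R ⧸ Ideal.span (Set.range g)) (Ideal.Quotient.mkₐ k _) ?_
    intro v
    rw [hg]
    intro a b
    exact Ideal.Quotient.eq_zero_iff_mem.2 (Ideal.subset_span ⟨(v, a, b), rfl⟩)
  obtain ⟨c, hc⟩ := Finsupp.mem_ideal_span_range_iff_exists_finsupp.1 h2
  refine ⟨c.support.image (fun i => i.1), fun A _ _ φ hu' => ?_⟩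
  rw [← hc, Finsupp.sum, map_sum]
  apply Finset.sum_eq_zero
  intro i hi
  have h3 := (hg A φ i.1).1 (hu' _ (Finset.mem_image_of_mem _ hi)) i.2.1 i.2.2
  rw [map_mul]
  have h4 : φ (g i) = 0 := h3
  rw [h4, mul_zero]

theorem evu_unique {A : Type} [CommRing A] [Algebra k A] (φ : GR k ((Γ × Δ) × X) →ₐ[k] A) :
    evu (k := k) (fun v j => Matrix.GeneralLinearGroup.map
      (φ : GR k ((Γ × Δ) × X) →+* A) (u0 k v j)) = φ :=
  gev_unique φ

theorem map_evu {A : Type} [CommRing A] [Algebra k A] (u : Γ × Δ → X → GL2 A) :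
    (fun v j => Matrix.GeneralLinearGroup.map
      (evu (k := k) u : GR k ((Γ × Δ) × X) →+* A) (u0 k v j)) = u := by
  funext v j
  exact evu_u0 u v j

/-- compactness -/
theorem compact (y : GR k ((Γ × Δ) × X))
    (h : ∀ (A : Type) [CommRing A] [Algebra k A] (u : Γ × Δ → X → GL2 A), IsRep p r u →
      evu (k := k) u y = 0) :
    ∃ V : Finset (Γ × Δ), ∀ (A : Type) [CommRing A] [Algebra k A] (u : Γ × Δ → X → GL2 A),
      (∀ v ∈ V, U p u r v = 1) → evu (k := k) u y = 0 := by
  have h0 : ∀ (A : Type) [CommRing A] [Algebra k A] (φ : GR k ((Γ × Δ) × X) →ₐ[k] A),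
      IsRep p r (fun v j => Matrix.GeneralLinearGroup.map
        (φ : GR k ((Γ × Δ) × X) →+* A) (u0 k v j)) → φ y = 0 := by
    intro A _ _ φ hφ
    have h1 := h A _ hφ
    rw [evu_unique] at h1
    exact h1
  obtain ⟨V, hV⟩ := compact_abs (p := p) (r := r) (u0 k) y h0
  refine ⟨V, fun A _ _ u hu => ?_⟩
  apply hV A (evu u)
  intro v hv
  rw [map_evu]
  exact hu v hv

/-- reindexing of the letters -/
def eps (v : ((Γ × Δ) × X) × Fin 2 × Fin 2) : Γ × LI Δ X :=
  (v.1.1.1, (v.1.1.2, v.1.2, v.2.1, v.2.2))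

def eps' (v : Γ × LI Δ X) : ((Γ × Δ) × X) × Fin 2 × Fin 2 :=
  (((v.1, v.2.1), v.2.2.1), v.2.2.2.1, v.2.2.2.2)

theorem fam_eps {A : Type} [CommRing A] (u : Γ × Δ → X → GL2 A) :
    fam u ∘ eps = ent (fun s : (Γ × Δ) × X => u s.1 s.2) := rfl

theorem ent_eps' {A : Type} [CommRing A] (u : Γ × Δ → X → GL2 A) :
    ent (fun s : (Γ × Δ) × X => u s.1 s.2) ∘ eps' = fam u := rfl

/-- clearing denominators -/
theorem clear_fam (y : GR k ((Γ × Δ) × X)) : ∃ f d : MvPolynomial (Γ × LI Δ X) k,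
    ∀ (A : Type) [CommRing A] [Algebra k A] (u : Γ × Δ → X → GL2 A),
      IsUnit (aeval (fam u) d) ∧ aeval (fam u) d * evu u y = aeval (fam u) f := by
  obtain ⟨f, d, hd, h⟩ := gev_clear y
  refine ⟨rename eps f, rename eps d, fun A _ _ u => ?_⟩
  rw [aeval_rename, aeval_rename, fam_eps]
  exact ⟨isUnit_aeval _ hd, h A _⟩

theorem of_poly (f : MvPolynomial (Γ × LI Δ X) k) : ∃ y : GR k ((Γ × Δ) × X),
    ∀ (A : Type) [CommRing A] [Algebra k A] (u : Γ × Δ → X → GL2 A),
      evu u y = aeval (fam u) f := by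
  refine ⟨algebraMap _ _ (rename eps' f), fun A _ _ u => ?_⟩
  unfold evu
  rw [gev_algebraMap, aeval_rename, ent_eps']

theorem compact_pp {f : MvPolynomial (Γ × LI Δ X) k} (hf : f ∈ pp k p r) :
    ∃ V : Finset (Γ × Δ), ∀ (A : Type) [CommRing A] [Algebra k A] (u : Γ × Δ → X → GL2 A),
      (∀ v ∈ V, U p u r v = 1) → aeval (fam u) f = 0 := by
  obtain ⟨y, hy⟩ := of_poly f
  obtain ⟨V, hV⟩ := compact (p := p) (r := r) y (fun A _ _ u hu => by rw [hy]; exact hf A u hu)
  exact ⟨V, fun A _ _ u hu => by rw [← hy]; exact hV A u hu⟩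

theorem U_const_one {G : Type} [Group G] (w : FreeGroup X) (v : Γ × Δ) :
    U p (fun _ _ => (1 : G)) w v = 1 := by
  have h := U_map p (fun _ _ => (1 : G)) (1 : G →* G) w v
  simpa using h

theorem one_notMem_pp : (1 : MvPolynomial (Γ × LI Δ X) k) ∉ pp k p r := by
  intro h
  have := h k (fun _ _ => 1) (fun v => U_const_one r v)
  rw [map_one] at this
  exact one_ne_zero this

end

end Pool.Agent.ORG
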