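import Pool.Agent.ORG.RepGroup

/-! The ideal of relations of all representations is prime; faithfulness. -/

set_option autoImplicit false
set_option linter.unusedSectionVars false

namespace Pool.Agent.ORG

open MvPolynomial

/-- free groups have representations in characteristic zero which do not kill a given element -/
theorem exists_free_rep (k : Type) [Field k] [Infinite k] {B : Type} (g : FreeGroup B) (hg : g ≠ 1) :
    ∃ (A : Type) (_ : Field A) (_ : Algebra k A) (ρ : FreeGroup B →* GL2 A), ρ g ≠ 1 := by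
  classical
  -- finitely many letters
  let L : Finset B := (g.toWord.map Prod.fst).toFinset
  obtain ⟨n, ⟨e⟩⟩ : ∃ n, Nonempty (L ≃ Fin n) := ⟨_, ⟨L.equivFin⟩⟩
  let ψ : FreeGroup B →* FreeGroup (Fin n) :=
    FreeGroup.lift (fun b => if h : b ∈ L then FreeGroup.of (e ⟨b, h⟩) else 1)
  let χ : FreeGroup (Fin n) →* FreeGroup B := FreeGroup.map (fun i => (e.symm i : B))
  have hg1 : g ∈ (Lyn.inc (· ∈ L)).range := by
    rw [Lyn.mem_range_inc]
    rintro y ⟨a, ha⟩
    simp only [L, List.mem_toFinset, List.mem_map]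
    exact ⟨(y, a), by convert ha, rfl⟩
  obtain ⟨g', hg'⟩ := hg1
  have hχ : χ (ψ g) = g := by
    have h1 : (χ.comp ψ).comp (Lyn.inc (· ∈ L)) = Lyn.inc (· ∈ L) := by
      apply FreeGroup.ext_hom
      intro y
      simp only [MonoidHom.comp_apply, Lyn.inc, FreeGroup.map.of, ψ, χ, FreeGroup.lift_apply_of]
      rw [dif_pos y.2, FreeGroup.map.of, Equiv.symm_apply_apply]
    rw [← hg']
    exact congrArg (fun f => f g') h1
  have hne : ψ g ≠ 1 := by
    intro h
    rw [h, map_one] at hχ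
    exact hg hχ.symm
  let c : Fin n × Bool → k := fun ℓ =>
    Infinite.natEmbedding k (2 * ℓ.1.val + (if ℓ.2 then 1 else 0))
  have hc : Function.Injective c := by
    intro ℓ m h
    have h1 := (Infinite.natEmbedding k).injective h
    obtain ⟨i, a⟩ := ℓ
    obtain ⟨j, b⟩ := m
    simp only at h1
    cases a <;> cases b <;> simp at h1 <;> first | omega | skip
    · rw [Fin.ext h1]
    · rw [Fin.ext h1]
  refine ⟨FractionRing (Polynomial k), inferInstance, inferInstance, (LFZ.FR.rep c hc).comp ψ, ?_⟩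
  intro h
  rw [MonoidHom.comp_apply] at h
  obtain ⟨s, hs⟩ := LFZ.FR.rep_spec c hc (ψ g).toWord
  rw [FreeGroup.mk_toWord, h] at hs
  have h1 := congrFun (congrFun hs 0) 1
  have hne : (ψ g).toWord ≠ [] := fun h2 => hne (FreeGroup.toWord_eq_nil_iff.1 h2)
  have h2 := (LFZ.FR.Pm_spec c hc (ψ g).toWord FreeGroup.isReduced_toWord).2.2 hne
  have hs0 : s ≠ 0 := by
    rintro rfl
    rw [zero_smul] at hs
    have h3 := congrFun (congrFun hs 0) 0
    simp at h3
  rw [Matrix.smul_apply, Matrix.map_apply, Units.val_one, Matrix.one_apply_ne (by decide),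
    smul_eq_mul] at h1
  have h3 := (mul_eq_zero.1 h1.symm).resolve_left hs0
  rw [FaithfulSMul.algebraMap_eq_zero_iff] at h3
  apply h2
  rw [h3, Polynomial.coeff_zero]

section
variable {X Γ Δ : Type} [AddCommGroup Γ] [AddCommGroup Δ] [Finite X] {r : FreeGroup X}
  {p : FreeGroup X →* Multiplicative (Γ × Δ)} (hp : Function.Surjective p)
  (hpr : Lyn.NC r ≤ p.ker)
  (hL : ∀ P : Subgroup (FreeGroup X ⧸ Lyn.NC r), P ≤ (qq p hpr).ker → P.FG → IsFreeGroup P)

include hp in
theorem exists_t : ∃ t : Γ × Δ → FreeGroup X ⧸ Lyn.NC r,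
    ∀ v, qq p hpr (t v) = Multiplicative.ofAdd v := by
  have : ∀ v : Γ × Δ, ∃ g, qq p hpr g = Multiplicative.ofAdd v := by
    intro v
    obtain ⟨f, hf⟩ := hp (Multiplicative.ofAdd v)
    exact ⟨QuotientGroup.mk' (Lyn.NC r) f, hf⟩
  choose t ht using this
  exact ⟨t, ht⟩

theorem exists_E (t : Γ × Δ → FreeGroup X ⧸ Lyn.NC r)
    (ht : ∀ v, qq p hpr (t v) = Multiplicative.ofAdd v) (W : Finset (Γ × Δ)) :
    ∃ E : Subgroup (FreeGroup X ⧸ Lyn.NC r), E ≤ (qq p hpr).ker ∧ E.FG ∧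
      ∀ v ∈ W, ∀ j, xe (QuotientGroup.mk' (Lyn.NC r)) p t v j ∈ E := by
  classical
  have := Fintype.ofFinite X
  let A : Finset (FreeGroup X ⧸ Lyn.NC r) :=
    (W ×ˢ (Finset.univ : Finset X)).image
      (fun z => xe (QuotientGroup.mk' (Lyn.NC r)) p t z.1 z.2)
  refine ⟨Subgroup.closure (A : Set (FreeGroup X ⧸ Lyn.NC r)), ?_, ⟨A, rfl⟩, ?_⟩
  · rw [Subgroup.closure_le]
    intro a ha
    obtain ⟨z, _, rfl⟩ := Finset.mem_image.1 (Finset.mem_coe.1 ha)
    show qq p hpr (xe _ p t z.1 z.2) = 1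
    unfold xe
    rw [map_mul, map_mul, map_inv, ht, ht]
    have : qq p hpr (QuotientGroup.mk' (Lyn.NC r) (FreeGroup.of z.2)) = p (FreeGroup.of z.2) := rfl
    rw [this]
    apply Multiplicative.toAdd.injective
    simp
  · intro v hv j
    apply Subgroup.subset_closure
    exact Finset.mem_coe.2 (Finset.mem_image.2 ⟨(v, j),
      Finset.mem_product.2 ⟨hv, Finset.mem_univ j⟩, rfl⟩)

theorem fam_map {k A B : Type} [Field k] [CommRing A] [CommRing B] [Algebra k A] [Algebra k B]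
    (φ : A →ₐ[k] B) (u : Γ × Δ → X → GL2 A) (f : MvPolynomial (Γ × LI Δ X) k) :
    aeval (fam (fun v j => Matrix.GeneralLinearGroup.map (φ : A →+* B) (u v j))) f
      = φ (aeval (fam u) f) := by
  have h1 : fam (fun v j => Matrix.GeneralLinearGroup.map (φ : A →+* B) (u v j))
      = fun v => φ (fam u v) := rfl
  rw [h1]
  exact (MvPolynomial.comp_aeval_apply (fam u) φ f).symm

include hp hL in
theorem pp_isPrime (k : Type) [Field k] : (pp k p r).IsPrime := by
  classical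
  have hpr1 : p r = 1 := hpr (Lyn.mem_NC r)
  refine ⟨?_, ?_⟩
  · rw [Ideal.ne_top_iff_one]
    exact one_notMem_pp
  · intro f g hfg
    obtain ⟨V, hV⟩ := compact_pp hfg
    obtain ⟨t, ht⟩ := exists_t hp hpr
    obtain ⟨S, hS⟩ := transport (QuotientGroup.mk' (Lyn.NC r)) p t r
    obtain ⟨E, hE1, hE2, hE3⟩ := exists_E hpr t ht
      ((V ×ˢ S).image (fun z => z.1 + z.2))
    obtain ⟨B, ⟨b⟩⟩ := (hL E hE1 hE2).nonempty_basis
    obtain ⟨R, _, _, _, ρ, h, u, hu, huniv⟩ :=
      exists_univ k (QuotientGroup.mk' (Lyn.NC r)) p t E b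
    have h1 : ∀ v ∈ V, U p u r v = 1 := by
      intro v hv
      obtain ⟨y, hy1, hy2⟩ := hS (GL2 R) E ρ h u hu v (fun s hs j =>
        hE3 _ (Finset.mem_image.2 ⟨(v, s), Finset.mem_product.2 ⟨hv, hs⟩, rfl⟩) j)
      have h2 : QuotientGroup.mk' (Lyn.NC r) r = 1 := (QuotientGroup.eq_one_iff _).2 (Lyn.mem_NC r)
      rw [h2, hpr1, toAdd_one, add_zero, mul_one, mul_inv_cancel] at hy1
      have h3 : y = 1 := Subtype.ext hy1
      rw [hy2, h3, hpr1, toAdd_one, add_zero, map_one, mul_one, inv_mul_cancel]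
    have h2 := hV R u h1
    rw [map_mul, mul_eq_zero] at h2
    have h3 : ∀ f : MvPolynomial (Γ × LI Δ X) k, aeval (fam u) f = 0 → f ∈ pp k p r := by
      intro f hf A _ _ u' hu'
      obtain ⟨ρ', h', hc⟩ := exists_comes p hpr t ht u' hu' E hE1
      obtain ⟨φ, hφ⟩ := huniv A ρ' h' u' hc
      have h4 : u' = fun v j => Matrix.GeneralLinearGroup.map (φ : R →+* A) (u v j) := by
        funext v j
        exact (hφ v j).symm
      rw [h4, fam_map, hf, map_zero]
    rcases h2 with h2 | h2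
    · exact Or.inl (h3 f h2)
    · exact Or.inr (h3 g h2)

include hp hL in
theorem faithful (k : Type) [Field k] [Infinite k] {w : FreeGroup X} (hpw : p w = 1)
    (hw : w ∉ Lyn.NC r) (V : Finset (Γ × Δ)) : ∃ (A : Type) (_ : Field A) (_ : Algebra k A)
      (u : Γ × Δ → X → GL2 A), (∀ v ∈ V, U p u r v = 1) ∧ U p u w 0 ≠ 1 := by
  classical
  have hpr1 : p r = 1 := hpr (Lyn.mem_NC r)
  obtain ⟨t, ht⟩ := exists_t hp hpr
  obtain ⟨S, hS⟩ := transport (QuotientGroup.mk' (Lyn.NC r)) p t r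
  obtain ⟨S', hS'⟩ := transport (QuotientGroup.mk' (Lyn.NC r)) p t w
  obtain ⟨E, hE1, hE2, hE3⟩ := exists_E hpr t ht
    ((V ×ˢ S).image (fun z => z.1 + z.2) ∪ S')
  obtain ⟨B, ⟨b⟩⟩ := (hL E hE1 hE2).nonempty_basis
  -- the element of `E`
  have hmem : t 0 * QuotientGroup.mk' (Lyn.NC r) w * (t 0)⁻¹ ∈ E := by
    obtain ⟨y, hy1, -⟩ := hS' (Multiplicative Unit) E 1 (fun _ => 1) (fun _ _ => 1)
      (fun v j hx => Subsingleton.elim _ _) 0 (fun s hs j => by
        rw [zero_add]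
        exact hE3 _ (Finset.mem_union_right _ hs) j)
    rw [hpw, toAdd_one, add_zero] at hy1
    rw [← hy1]
    exact y.2
  have hne : b.repr ⟨_, hmem⟩ ≠ 1 := by
    intro h
    have h1 : (⟨_, hmem⟩ : E) = 1 := b.repr.injective (by rw [h, map_one])
    have h2 := congrArg Subtype.val h1
    simp only [Subgroup.coe_one] at h2
    rw [conj_eq_one_iff] at h2
    exact hw ((QuotientGroup.eq_one_iff _).1 h2)
  obtain ⟨A, _, _, ρ, hρ⟩ := exists_free_rep k _ hne
  let ρE : E →* GL2 A := ρ.comp b.repr.toMonoidHom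
  let u : Γ × Δ → X → GL2 A := fun v j =>
    if hx : xe (QuotientGroup.mk' (Lyn.NC r)) p t v j ∈ E then
      ρE ⟨xe (QuotientGroup.mk' (Lyn.NC r)) p t v j, hx⟩ else 1
  have hu : Comes (QuotientGroup.mk' (Lyn.NC r)) p t E ρE (fun _ => 1) u := by
    intro v j hx
    simp only [u]
    rw [dif_pos hx]
    group
  refine ⟨A, inferInstance, inferInstance, u, ?_, ?_⟩
  · intro v hv
    obtain ⟨y, hy1, hy2⟩ := hS (GL2 A) E ρE (fun _ => 1) u hu v (fun s hs j =>
      hE3 _ (Finset.mem_union_left _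
        (Finset.mem_image.2 ⟨(v, s), Finset.mem_product.2 ⟨hv, hs⟩, rfl⟩)) j)
    have h2 : QuotientGroup.mk' (Lyn.NC r) r = 1 := (QuotientGroup.eq_one_iff _).2 (Lyn.mem_NC r)
    rw [h2, hpr1, toAdd_one, add_zero, mul_one, mul_inv_cancel] at hy1
    have h3 : y = 1 := Subtype.ext hy1
    rw [hy2, h3, map_one]
    group
  · obtain ⟨y, hy1, hy2⟩ := hS' (GL2 A) E ρE (fun _ => 1) u hu 0 (fun s hs j => by
        rw [zero_add]
        exact hE3 _ (Finset.mem_union_right _ hs) j)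
    rw [hpw, toAdd_one, add_zero] at hy1
    have h3 : y = ⟨_, hmem⟩ := Subtype.ext hy1
    rw [hy2, h3, inv_one, one_mul, mul_one]
    exact hρ

end

end Pool.Agent.ORG
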