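import Pool.Agent.ORG.RepPrime
import Pool.Agent.ORG.Dual

/-! The generic representation. -/

set_option autoImplicit false
set_option linter.unusedSectionVars false

namespace Pool.Agent.ORG

open MvPolynomial

section
variable {k X Γ Δ : Type} [Field k] [AddCommGroup Γ] [AddCommGroup Δ] {r : FreeGroup X}
  {p : FreeGroup X →* Multiplicative (Γ × Δ)} (Z : Sys k Γ (LI Δ X))
  (hZ : ∀ f : MvPolynomial (Γ × LI Δ X) k, aeval Z.z f = 0 ↔ f ∈ pp k p r)

include hZ in
theorem isUnit_det_z (v : Γ × Δ) (j : X) : IsUnit (mat Z.z v j).det := by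
  let f : MvPolynomial (Γ × LI Δ X) k :=
    (Matrix.of (fun a b : Fin 2 => (MvPolynomial.X (v.1, (v.2, j, a, b)) : MvPolynomial (Γ × LI Δ X) k))).det
  have h1 : ∀ (A : Type) [CommRing A] [Algebra k A] (x : Γ × LI Δ X → A),
      aeval x f = (mat x v j).det := by
    intro A _ _ x
    have h2 : (aeval x : MvPolynomial (Γ × LI Δ X) k →ₐ[k] A).toRingHom.mapMatrix
        (Matrix.of (fun a b : Fin 2 => (MvPolynomial.X (v.1, (v.2, j, a, b)) : MvPolynomial (Γ × LI Δ X) k)))
        = mat x v j := by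
      ext a b
      show aeval x (MvPolynomial.X _ : MvPolynomial (Γ × LI Δ X) k) = _
      rw [aeval_X]
      rfl
    rw [← h2, ← RingHom.map_det]
    rfl
  rw [isUnit_iff_ne_zero]
  intro h
  rw [← h1, hZ] at h
  have h2 := h k (fun _ _ => 1) (fun v => U_const_one r v)
  rw [h1, mat_fam, Units.val_one, Matrix.det_one] at h2
  exact one_ne_zero h2

include hZ in
theorem fam_cfg_z : fam (cfg Z.z) = Z.z := by
  funext v
  unfold fam
  rw [cfg_val _ _ _ (isUnit_det_z Z hZ _ _)]
  rfl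

include hZ in
theorem evu_z_iff (y : GR k ((Γ × Δ) × X)) : evu (cfg Z.z) y = 0 ↔
    ∀ (A : Type) [CommRing A] [Algebra k A] (u : Γ × Δ → X → GL2 A), IsRep p r u →
      evu (k := k) u y = 0 := by
  obtain ⟨f, d, hfd⟩ := clear_fam y
  have hz := hfd Z.K (cfg Z.z)
  rw [fam_cfg_z Z hZ] at hz
  constructor
  · intro h A _ _ u hu
    rw [h, mul_zero] at hz
    have h1 : f ∈ pp k p r := (hZ f).1 hz.2.symm
    have h2 := hfd A u
    rw [h1 A u hu] at h2
    exact (h2.1.mul_right_eq_zero).1 h2.2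
  · intro h
    have h1 : f ∈ pp k p r := by
      intro A _ _ u hu
      rw [← (hfd A u).2, h A u hu, mul_zero]
    rw [(hZ f).2 h1] at hz
    exact (hz.1.mul_right_eq_zero).1 hz.2

/-- the entries of `U_w - 1` at the generic configuration -/
noncomputable def yU (k : Type) [Field k] (p : FreeGroup X →* Multiplicative (Γ × Δ))
    (w : FreeGroup X) (v : Γ × Δ) (a b : Fin 2) : GR k ((Γ × Δ) × X) :=
  (U p (u0 k) w v).1 a b - (if a = b then 1 else 0)

theorem evu_yU {A : Type} [CommRing A] [Algebra k A] (u : Γ × Δ → X → GL2 A)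
    (w : FreeGroup X) (v : Γ × Δ) (a b : Fin 2) :
    evu (k := k) u (yU k p w v a b) = (U p u w v).1 a b - (if a = b then 1 else 0) := by
  unfold yU
  rw [map_sub, evu_U_apply]
  split_ifs
  · rw [map_one]
  · rw [map_zero]

theorem eq_one_iff {A : Type} [CommRing A] (g : GL2 A) :
    g = 1 ↔ ∀ a b, g.1 a b - (if a = b then 1 else 0) = 0 := by
  constructor
  · rintro rfl a b
    rw [Units.val_one, Matrix.one_apply, sub_self]
  · intro h
    ext a b
    have h1 := h a b
    rw [sub_eq_zero] at h1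
    rw [h1, Units.val_one, Matrix.one_apply]

theorem U_eq_one_iff {A : Type} [CommRing A] [Algebra k A] (u : Γ × Δ → X → GL2 A)
    (w : FreeGroup X) (v : Γ × Δ) :
    U p u w v = 1 ↔ ∀ a b, evu (k := k) u (yU k p w v a b) = 0 := by
  rw [eq_one_iff]
  simp only [evu_yU]

include hZ in
theorem U_r_z (v : Γ × Δ) : U p (cfg Z.z) r v = 1 := by
  rw [U_eq_one_iff (k := k)]
  intro a b
  rw [evu_z_iff Z hZ]
  intro A _ _ u hu
  exact (U_eq_one_iff (k := k) u r v).1 (hu v) a b

include hZ in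
theorem isRep_z : IsRep p r (cfg Z.z) := U_r_z Z hZ

include hZ in
theorem U_w_z [Finite X] [Infinite k] (hp : Function.Surjective p) (hpr : Lyn.NC r ≤ p.ker)
    (hL : ∀ P : Subgroup (FreeGroup X ⧸ Lyn.NC r), P ≤ (qq p hpr).ker → P.FG → IsFreeGroup P)
    {w : FreeGroup X} (hpw : p w = 1) (hw : w ∉ Lyn.NC r) : U p (cfg Z.z) w 0 ≠ 1 := by
  classical
  intro h
  have h1 : ∀ a b, ∃ V : Finset (Γ × Δ), ∀ (A : Type) [CommRing A] [Algebra k A]
      (u : Γ × Δ → X → GL2 A), (∀ v ∈ V, U p u r v = 1) → evu (k := k) u (yU k p w 0 a b) = 0 := by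
    intro a b
    apply compact
    rw [← evu_z_iff Z hZ]
    exact (U_eq_one_iff (k := k) _ w 0).1 h a b
  choose V hV using h1
  obtain ⟨A, _, _, u, hu1, hu2⟩ := faithful hp hpr hL k hpw hw
    (Finset.univ.biUnion (fun a => Finset.univ.biUnion (fun b => V a b)))
  apply hu2
  rw [U_eq_one_iff (k := k)]
  intro a b
  refine hV a b A u (fun v hv => hu1 v ?_)
  simp only [Finset.mem_biUnion, Finset.mem_univ, true_and]
  exact ⟨a, b, hv⟩

end

/-- existence of the representation system -/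
theorem exists_repsys {k X Γ Δ : Type} [Field k] [AddCommGroup Γ] [AddCommGroup Δ] [Finite X]
    {r : FreeGroup X} {p : FreeGroup X →* Multiplicative (Γ × Δ)} (hp : Function.Surjective p)
    (hpr : Lyn.NC r ≤ p.ker)
    (hL : ∀ P : Subgroup (FreeGroup X ⧸ Lyn.NC r), P ≤ (qq p hpr).ker → P.FG → IsFreeGroup P) :
    ∃ Z : Sys k Γ (LI Δ X), (∀ f, aeval Z.z f = 0 ↔ f ∈ pp k p r) ∧ (∀ y : Z.K, y ∈ fld k Z.z) := by
  apply exists_sys (pp k p r) (pp_isPrime hp hpr hL k)
  intro γ f hf A _ _ u hu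
  rw [MvPolynomial.aeval_rename]
  have h1 : fam u ∘ (trE (LI Δ X) γ) = fam (fun v j => u (v + (γ, 0)) j) := by
    funext v
    unfold fam
    simp only [Function.comp_apply, trE_apply, Prod.mk_add_mk, add_zero]
    rw [add_comm γ]
  rw [h1]
  apply hf
  intro v
  rw [U_shift]
  exact hu _

end Pool.Agent.ORG
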