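import Pool.Agent.ORG.Defs

/-! The system of a translation invariant prime ideal. -/

set_option autoImplicit false

namespace Pool.Agent.ORG

open MvPolynomial

section
variable {k : Type} [Field k] {Γ I : Type} [AddCommGroup Γ]

/-- translation of indices -/
def trE (I : Type) (γ : Γ) : Γ × I ≃ Γ × I where
  toFun v := (γ + v.1, v.2)
  invFun v := (-γ + v.1, v.2)
  left_inv v := by simp
  right_inv v := by simp

theorem trE_apply (γ : Γ) (v : Γ × I) : trE I γ v = (γ + v.1, v.2) := rfl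

theorem exists_sys_abs {A : Type} [CommRing A] [IsDomain A] [Algebra k A] (a : Γ × I → A)
    (ha : Function.Surjective (aeval a : MvPolynomial (Γ × I) k →ₐ[k] A)) (σ : Γ → (A ≃ₐ[k] A))
    (hσ : ∀ γ v, σ γ (a v) = a (trE I γ v)) :
    ∃ Z : Sys k Γ I, (∀ f : MvPolynomial (Γ × I) k, aeval Z.z f = 0 ↔ aeval a f = 0) ∧
      (∀ y : Z.K, y ∈ fld k Z.z) := by
  classical
  let K := FractionRing A
  let z : Γ × I → K := fun v => algebraMap A K (a v)
  have haev : ∀ f : MvPolynomial (Γ × I) k, aeval z f = algebraMap A K (aeval a f) := by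
    intro f
    have h1 : (aeval z : MvPolynomial (Γ × I) k →ₐ[k] K) =
        (IsScalarTower.toAlgHom k A K).comp (aeval a) := by
      apply MvPolynomial.algHom_ext
      intro v
      rw [aeval_X, AlgHom.comp_apply, aeval_X]
      rfl
    exact congrArg (fun g => g f) h1
  have hext : ∀ e1 e2 : K ≃ₐ[k] K, (∀ v, e1 (z v) = e2 (z v)) → e1 = e2 := by
    intro e1 e2 h
    have h1 : (e1 : K →ₐ[k] K).comp (aeval z) = (e2 : K →ₐ[k] K).comp (aeval z) := by
      apply MvPolynomial.algHom_ext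
      intro v
      rw [AlgHom.comp_apply, AlgHom.comp_apply, aeval_X]
      exact h v
    have h2 : ∀ x : A, e1 (algebraMap A K x) = e2 (algebraMap A K x) := by
      intro x
      obtain ⟨f, rfl⟩ := ha x
      rw [← haev]
      exact congrArg (fun g => g f) h1
    apply AlgEquiv.ext
    intro x
    obtain ⟨x, y, -, rfl⟩ := IsFractionRing.div_surjective A x
    rw [map_div₀, map_div₀, h2, h2]
  let τ : Γ → (K ≃ₐ[k] K) := fun γ => IsFractionRing.algEquivOfAlgEquiv (σ γ)
  have hτ : ∀ γ v, τ γ (z v) = z (trE I γ v) := by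
    intro γ v
    show IsFractionRing.algEquivOfAlgEquiv (σ γ) (algebraMap A K (a v)) = _
    rw [IsFractionRing.algEquivOfAlgEquiv_algebraMap, hσ]
  let α : Multiplicative Γ →* (K ≃ₐ[k] K) :=
    { toFun := fun γ => τ γ.toAdd
      map_one' := by
        apply hext
        intro v
        rw [hτ, trE_apply, toAdd_one, zero_add]
        rfl
      map_mul' := by
        intro γ γ'
        apply hext
        intro v
        rw [AlgEquiv.mul_apply, hτ, hτ, hτ, trE_apply, trE_apply, trE_apply, toAdd_mul, add_assoc] }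
  let Z : Sys k Γ I := { K := K, α := α, z0 := fun i => z (0, i) }
  have hz : Z.z = z := by
    funext v
    show τ v.1 (z (0, v.2)) = z v
    rw [hτ, trE_apply, add_zero]
  refine ⟨Z, ?_, ?_⟩
  · intro f
    rw [hz]
    show aeval z f = 0 ↔ _
    rw [haev, FaithfulSMul.algebraMap_eq_zero_iff]
  · intro y
    have h1 : ∀ x : A, algebraMap A K x ∈ fld k z := by
      intro x
      obtain ⟨f, rfl⟩ := ha x
      rw [← haev]
      exact IntermediateField.algebra_adjoin_le_adjoin k _
        (by rw [Algebra.adjoin_range_eq_range_aeval]; exact ⟨f, rfl⟩)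
    rw [hz]
    obtain ⟨x, y, -, rfl⟩ := IsFractionRing.div_surjective A (y : K)
    exact div_mem (h1 x) (h1 y)

omit [AddCommGroup Γ] in
theorem map_rename (e : Γ × I ≃ Γ × I) (P : Ideal (MvPolynomial (Γ × I) k))
    (h1 : ∀ f ∈ P, rename e f ∈ P) (h2 : ∀ f ∈ P, rename e.symm f ∈ P) :
    P = P.map ((renameEquiv k e : MvPolynomial (Γ × I) k ≃ₐ[k] MvPolynomial (Γ × I) k) :
      MvPolynomial (Γ × I) k →+* MvPolynomial (Γ × I) k) := by
  apply le_antisymm
  · intro f hf
    have h3 := h2 f hf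
    have h4 : rename e (rename e.symm f) = f := by
      rw [rename_rename, Equiv.self_comp_symm, rename_id_apply]
    have h5 : ((renameEquiv k e : MvPolynomial (Γ × I) k ≃ₐ[k] MvPolynomial (Γ × I) k) :
      MvPolynomial (Γ × I) k →+* MvPolynomial (Γ × I) k) (rename e.symm f) = f := h4
    rw [← h5]
    exact Ideal.mem_map_of_mem _ h3
  · rw [Ideal.map_le_iff_le_comap]
    intro f hf
    rw [Ideal.mem_comap]
    have h5 : ((renameEquiv k e : MvPolynomial (Γ × I) k ≃ₐ[k] MvPolynomial (Γ × I) k) :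
      MvPolynomial (Γ × I) k →+* MvPolynomial (Γ × I) k) f = rename e f := rfl
    rw [h5]
    exact h1 f hf

theorem trE_symm (γ : Γ) : (trE I γ).symm = trE I (-γ) := by
  apply Equiv.ext
  intro v
  rfl

theorem exists_sys (P : Ideal (MvPolynomial (Γ × I) k)) (hP : P.IsPrime)
    (hinv : ∀ (γ : Γ) (f : MvPolynomial (Γ × I) k), f ∈ P → rename (trE I γ) f ∈ P) :
    ∃ Z : Sys k Γ I, (∀ f : MvPolynomial (Γ × I) k, aeval Z.z f = 0 ↔ f ∈ P) ∧
      (∀ y : Z.K, y ∈ fld k Z.z) := by
  classical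
  have hmap : ∀ γ : Γ, P = P.map ((renameEquiv k (trE I γ) :
      MvPolynomial (Γ × I) k ≃ₐ[k] MvPolynomial (Γ × I) k) :
      MvPolynomial (Γ × I) k →+* MvPolynomial (Γ × I) k) := fun γ =>
    map_rename (trE I γ) P (hinv γ) (by rw [trE_symm]; exact hinv (-γ))
  let σ : Γ → ((MvPolynomial (Γ × I) k ⧸ P) ≃ₐ[k] (MvPolynomial (Γ × I) k ⧸ P)) :=
    fun γ => Ideal.quotientEquivAlg P P (renameEquiv k (trE I γ)) (hmap γ)
  have haev : (aeval (fun v : Γ × I => Ideal.Quotient.mk P (X v)) :
      MvPolynomial (Γ × I) k →ₐ[k] MvPolynomial (Γ × I) k ⧸ P) = Ideal.Quotient.mkₐ k P := by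
    apply MvPolynomial.algHom_ext
    intro v
    rw [aeval_X]
    rfl
  obtain ⟨Z, hZ1, hZ2⟩ := exists_sys_abs (k := k) (fun v : Γ × I => Ideal.Quotient.mk P (X v))
    (by rw [haev]; exact Ideal.Quotient.mkₐ_surjective k P) σ (by
      intro γ v
      have h1 : renameEquiv k (trE I γ) (X v) = (X (trE I γ v) : MvPolynomial (Γ × I) k) := by
        rw [renameEquiv_apply, rename_X]
      show Ideal.Quotient.mk P (renameEquiv k (trE I γ) (X v)) = _
      rw [h1])
  refine ⟨Z, fun f => ?_, hZ2⟩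
  rw [hZ1, haev]
  exact Ideal.Quotient.eq_zero_iff_mem

end

end Pool.Agent.ORG
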