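import Pool.Agent.ORG.R2
import Pool.Agent.ORG.Omega
import Pool.Agent.ORG.FinMain

/-!
# MP_08a057_al : the top level theorem in the form used in section 12
-/

set_option autoImplicit false

namespace Pool.Agent.ORG

theorem top_stmt_of {k Ω : Type} [Field k] [CharZero k] [IsAlgClosed k] [Field Ω] [Algebra k Ω]
    [IsAlgClosed Ω] (hΩ : Cardinal.aleph0 ≤ Algebra.trdeg k Ω) : TopStmt k Ω := by
  intro I _ m Z _ F0 h0 hPP
  obtain ⟨e, N, Nm, c, hD, hF⟩ := exists_direction Z (F0 : Set (Fin (m + 1) → ℤ))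
    F0.finite_toSet (by simpa using h0)
  refine ⟨e, fun V G hV => ?_⟩
  exact top_out hΩ (Z.map e) hD 0 c (by simp) (hPP _ e (fun u hu => hF u hu) 0 c) V hV G

theorem top_stmt : TopStmt Kb Om := top_stmt_of om_trdeg

end Pool.Agent.ORG
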